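import Pool.Agent.Work.MP_57e339_an.FwBw

/-! Module AdmD: the set of directions `DD` is admissible. -/

open MeasureTheory Set Filter Topology
open scoped BigOperators
noncomputable section
namespace NSC
variable {d n : ℕ}

theorem admd_refl (hd : d = 2 ∨ d = 3) {ν : ℝ} (hν : 0 < ν) (m : Fin d → ℝ) {e : Fin n → Sq d}
    (he : ∀ i, IsV (e i) ∧ SW 4 (e i)) {Θ : Type} [TopologicalSpace Θ] [CompactSpace Θ]
    {x : Θ → Sq d} (hx : VCont x) {δ : ℝ} (hδ : 0 < δ) : Inst ν m e δ x x := by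
  have h := (DD_zero (m := m) hd hν he).2 Θ x hx (fun _ => 0) continuous_const δ hδ
  simpa using h

/-- iterating a step -/
theorem admd_iter (hd : d = 2 ∨ d = 3) {ν : ℝ} (hν : 0 < ν) (m : Fin d → ℝ) {e : Fin n → Sq d}
    (he : ∀ i, IsV (e i) ∧ SW 4 (e i)) {Θ : Type} [TopologicalSpace Θ] [CompactSpace Θ]
    {w : Sq d} (hw : IsV w) (s : Θ → ℝ) {err : ℝ}
    (hstep : ∀ x : Θ → Sq d, VCont x → ∀ δ > (0 : ℝ), ∃ x' : Θ → Sq d, VCont x' ∧
      Inst ν m e δ x x' ∧ ∀ θ, n1 (x' θ - (x θ + s θ • w)) ≤ err) (i : ℕ) :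
    ∀ x : Θ → Sq d, VCont x → ∀ δ > (0 : ℝ), ∃ x' : Θ → Sq d, VCont x' ∧
      Inst ν m e δ x x' ∧ ∀ θ, n1 (x' θ - (x θ + ((i : ℝ) * s θ) • w)) ≤ i * err := by
  induction i with
  | zero =>
    intro x hx δ hδ
    refine ⟨x, hx, admd_refl hd hν m he hx hδ, fun θ => ?_⟩
    simp [n1_zero]
  | succ i ih =>
    intro x hx δ hδ
    obtain ⟨x₁, hx₁, hi₁, hn₁⟩ := ih x hx (δ / 2) (half_pos hδ)
    obtain ⟨x₂, hx₂, hi₂, hn₂⟩ := hstep x₁ hx₁ (δ / 2) (half_pos hδ)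
    refine ⟨x₂, hx₂, ?_, fun θ => ?_⟩
    · have := hi₁.trans hi₂
      rwa [add_halves] at this
    · have hV1 := hx₁.V θ
      have hV2 := hx₂.V θ
      have hV := hx.V θ
      have h1 := n1_tri hV2 (hV1.add (hw.smul (s θ)))
        (hV.add (hw.smul (((i + 1 : ℕ) : ℝ) * s θ)))
      have e1 : x₁ θ + s θ • w - (x θ + (((i + 1 : ℕ) : ℝ) * s θ) • w) =
          x₁ θ - (x θ + ((i : ℝ) * s θ) • w) := by
        push_cast
        module
      rw [e1] at h1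
      have h2 := hn₁ θ
      have h3 := hn₂ θ
      push_cast at h1 ⊢
      linarith

theorem adm_DD (hd : d = 2 ∨ d = 3) {ν : ℝ} (hν : 0 < ν) (m : Fin d → ℝ) {e : Fin n → Sq d}
    (he : ∀ i, IsV (e i) ∧ SW 4 (e i)) : Adm (DD ν m e) := by
  refine ⟨fun v hv => hv.1, DD_zero hd hν he, fun v hv w hw => DD_add hv hw,
    fun t v hv => DD_smul hv t, fun v hv h => DD_closed hv h, ?_, ?_⟩
  · intro abar hg v hv τ hτ H
    obtain ⟨θ₀, hθ₀, A, hA, hfw⟩ := fwbw hd hν m he hg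
    refine ⟨hv, fun Θ _ _ x hx s hs δ hδ => ?_⟩
    obtain ⟨S, hS, hsS⟩ := imp_bdd' hs
    refine Inst.closed (fun θ => (hx.V θ).add (hv.smul _)) fun ε hε => ?_
    set X : ℝ := Real.exp (A * τ) with hX
    have hX0 : 0 < X := Real.exp_pos _
    have hτ' : 0 < τ := hτ
    set D : ℝ := X * (S * τ) + S + 1 with hD
    have hD0 : 0 < D := by positivity
    set ρ : ℝ := min θ₀ ε / (2 * D) with hρ
    have hmin : 0 < min θ₀ ε := lt_min hθ₀ hε
    have hρ0 : 0 < ρ := by positivity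
    have hDρ : D * ρ = min θ₀ ε / 2 := by
      rw [hρ]; field_simp
    have h1 : X * (S * τ * ρ) + S * ρ ≤ min θ₀ ε / 2 := by
      rw [← hDρ, hD]
      nlinarith
    have hSρ : 0 ≤ S * ρ := by positivity
    obtain ⟨x', hx', hi', hn'⟩ := hfw τ hτ' v hv ρ ρ S hρ0.le hρ0.le hS (H ρ hρ0)
      (by
        have := min_le_left θ₀ ε
        show X * (S * τ * ρ) < θ₀
        linarith) Θ x hx s hs hsS δ hδ (ε / 2) (half_pos hε)
    refine ⟨x', hx'.V, hi', fun θ => ?_⟩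
    have h2 : n1 (x' θ - (x θ + s θ • v)) ≤ X * (S * τ * ρ) + S * ρ + ε / 2 := hn' θ
    have := min_le_right θ₀ ε
    linarith
  · intro abar hg b hb hrb
    obtain ⟨θ₀, hθ₀, A, hA, hfw⟩ := fwbw hd hν m he hg
    have hbarV : IsV abar := by
      obtain ⟨N, a, α, ha, hα, hbar, hB⟩ := hg
      rw [hbar]; exact IsV.sum _ _ fun j _ => ((ha j).1.1).smul _
    have hbarR : Rap abar := by
      obtain ⟨N, a, α, ha, hα, hbar, hB⟩ := hg
      intro l
      rw [hbar]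
      exact (SW.sum _ _ fun j _ => ((ha j).2.1 l).smul (α j) |>.1).1
    obtain ⟨hwR, hwV⟩ := rap_Lk hbarV hb.1 hbarR hrb
    set w := Lk abar b with hw
    obtain ⟨hwwR, hwwV⟩ := rap_Lk hbarV hwV hbarR hwR
    set ww := Lk abar w with hww
    refine ⟨hwV, fun Θ _ _ x hx s hs δ hδ => ?_⟩
    obtain ⟨S, hS, hsS⟩ := imp_bdd' hs
    refine Inst.closed (fun θ => (hx.V θ).add (hwV.smul _)) fun ε hε => ?_
    set G : ℝ := Real.exp A * S * n1 ww with hG
    have hG0 : 0 ≤ G := mul_nonneg (mul_nonneg (Real.exp_pos _).le hS) (n1_nonneg _)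
    -- the number of steps
    obtain ⟨q, hq0, hq1, hq2⟩ : ∃ q : ℕ, 0 < q ∧ G / q < θ₀ ∧ G / q ≤ ε / 2 := by
      obtain ⟨q, hq⟩ := exists_nat_gt (G / θ₀ + 2 * G / ε + 1)
      have h1 : 0 ≤ G / θ₀ := by positivity
      have h2 : 0 ≤ 2 * G / ε := by positivity
      have hqr : (0 : ℝ) < q := by linarith
      refine ⟨q, by exact_mod_cast hqr, ?_, ?_⟩
      · rw [div_lt_iff₀ hqr]
        have h3 : G / θ₀ < q := by linarith
        rw [div_lt_iff₀ hθ₀] at h3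
        linarith
      · rw [div_le_iff₀ hqr]
        have h3 : 2 * G / ε < q := by linarith
        rw [div_lt_iff₀ hε] at h3
        linarith
    have hqr : (0 : ℝ) < q := by exact_mod_cast hq0
    have hq1' : (1 : ℝ) ≤ q := by exact_mod_cast hq0
    set τ : ℝ := 1 / q with hτ
    have hτ0 : 0 < τ := by positivity
    have hτ1 : τ ≤ 1 := by rw [hτ, div_le_one hqr]; exact hq1'
    have hqτ : (q : ℝ) * τ = 1 := by rw [hτ]; field_simp
    set ρ₁ : ℝ := τ * n1 ww with hρ₁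
    have hρ₁0 : 0 ≤ ρ₁ := mul_nonneg hτ0.le (n1_nonneg _)
    have hXle : Real.exp (A * τ) * (S * τ * ρ₁) ≤ τ * (G / q) := by
      have h1 : Real.exp (A * τ) ≤ Real.exp A :=
        Real.exp_le_exp.2 (by nlinarith)
      have h2 : 0 ≤ S * τ * ρ₁ := by positivity
      refine (mul_le_mul_of_nonneg_right h1 h2).trans (le_of_eq ?_)
      rw [hρ₁, hG, hτ]
      field_simp
    have hτG : τ * (G / q) ≤ G / q := by
      have : 0 ≤ G / q := by positivity
      nlinarith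
    -- the path
    have hpath : ∃ Y : ℝ, ∀ M₀ : ℕ, ∃ M ≥ M₀, 0 < M ∧ ∃ c σ : ℕ → Sq d, c 0 ∈ DD ν m e ∧
        (∀ j ≤ M, IsV (c j) ∧ SW 4 (c j) ∧ W 4 (c j) ≤ Y) ∧
        (∀ j < M, σ j ∈ DD ν m e ∧
          n1 (c (j + 1) - c j - (τ / M) • (Lk abar (c j) + σ j)) ≤ τ / M * ρ₁) ∧
        n1 (c M - (b + τ • w)) ≤ 0 := by
      refine ⟨W 4 b + τ * W 4 w, fun M₀ => ⟨M₀ + 1, by omega, by omega,
        fun j => b + ((j : ℝ) * (τ / (M₀ + 1 : ℕ))) • w, fun _ => 0, ?_, ?_, ?_, ?_⟩⟩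
      · simpa using hb
      · intro j hj
        have h1 : (0 : ℝ) ≤ (j : ℝ) * (τ / (M₀ + 1 : ℕ)) := by positivity
        have h2 : (j : ℝ) * (τ / (M₀ + 1 : ℕ)) ≤ τ := by
          have h3 : (j : ℝ) ≤ (M₀ + 1 : ℕ) := by exact_mod_cast hj
          have h4 : (0 : ℝ) < (M₀ + 1 : ℕ) := by positivity
          rw [mul_div_assoc', div_le_iff₀ h4]
          nlinarith
        have h5 := (hwR 4).smul ((j : ℝ) * (τ / (M₀ + 1 : ℕ)))
        have h6 := (hrb 4).add h5.1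
        refine ⟨hb.1.add (hwV.smul _), h6.1, h6.2.trans ?_⟩
        rw [h5.2, abs_of_nonneg h1]
        have := mul_le_mul_of_nonneg_right h2 (W_nonneg 4 w)
        linarith
      · intro j hj
        refine ⟨DD_zero hd hν he, ?_⟩
        have hM0 : (0 : ℝ) < (M₀ + 1 : ℕ) := by positivity
        set κ : ℝ := τ / (M₀ + 1 : ℕ) with hκ
        have hκ0 : 0 ≤ κ := by positivity
        have e1 : (b + (((j + 1 : ℕ) : ℝ) * κ) • w) - (b + ((j : ℝ) * κ) • w) -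
            κ • (Lk abar (b + ((j : ℝ) * κ) • w) + 0) = (-(κ * ((j : ℝ) * κ))) • ww := by
          rw [Lk_add_right hbarV hb.1 (hwV.smul _), Lk_smul_right, ← hw, ← hww]
          push_cast
          module
        rw [e1, n1_smul, abs_neg, abs_of_nonneg (by positivity)]
        have h2 : (j : ℝ) * κ ≤ τ := by
          have h3 : (j : ℝ) ≤ (M₀ + 1 : ℕ) := by exact_mod_cast hj.le
          rw [hκ, mul_div_assoc', div_le_iff₀ hM0]
          nlinarith
        have h4 : κ * ((j : ℝ) * κ) * n1 ww = κ * ((j : ℝ) * κ * n1 ww) := by ring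
        rw [h4, hρ₁]
        exact mul_le_mul_of_nonneg_left (mul_le_mul_of_nonneg_right h2 (n1_nonneg _)) hκ0
      · have hM0 : ((M₀ + 1 : ℕ) : ℝ) ≠ 0 := by positivity
        have h1 : ((M₀ + 1 : ℕ) : ℝ) * (τ / (M₀ + 1 : ℕ)) = τ := by field_simp
        show n1 (b + (((M₀ + 1 : ℕ) : ℝ) * (τ / (M₀ + 1 : ℕ))) • w - (b + τ • w)) ≤ 0
        rw [h1, sub_self, n1_zero]
    -- one step
    have hstep : ∀ x : Θ → Sq d, VCont x → ∀ δ > (0 : ℝ), ∃ x' : Θ → Sq d, VCont x' ∧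
        Inst ν m e δ x x' ∧ ∀ θ, n1 (x' θ - (x θ + (s θ * τ) • w)) ≤
          τ * (G / q) + τ * (ε / 2) := by
      intro x hx δ hδ
      have hvV : IsV (b + τ • w) := hb.1.add (hwV.smul τ)
      obtain ⟨x₁, hx₁, hi₁, hn₁⟩ := hfw τ hτ0 (b + τ • w) hvV ρ₁ 0 S hρ₁0 (le_refl _) hS hpath
        ((hXle.trans hτG).trans_lt hq1) Θ x hx s hs hsS (δ / 2) (half_pos hδ) (τ * (ε / 2))
        (by positivity)
      have hi₂ := hb.2 Θ x₁ hx₁ (fun θ => -s θ) hs.neg (δ / 2) (half_pos hδ)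
      refine ⟨fun θ => x₁ θ + (-s θ) • b, hx₁.add_smul hs.neg hb.1, ?_, fun θ => ?_⟩
      · have := hi₁.trans hi₂
        rwa [add_halves] at this
      · have e1 : x₁ θ + (-s θ) • b - (x θ + (s θ * τ) • w) =
            x₁ θ - (x θ + s θ • (b + τ • w)) := by module
        show n1 (x₁ θ + (-s θ) • b - (x θ + (s θ * τ) • w)) ≤ _
        rw [e1]
        refine (hn₁ θ).trans ?_
        rw [mul_zero, add_zero]
        linarith
    obtain ⟨x', hx', hi', hn'⟩ := admd_iter hd hν m he hwV (fun θ => s θ * τ) hstep q x hx δ hδ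
    refine ⟨x', hx'.V, hi', fun θ => ?_⟩
    have h1 : n1 (x' θ - (x θ + ((q : ℝ) * (s θ * τ)) • w)) ≤
        q * (τ * (G / q) + τ * (ε / 2)) := hn' θ
    have e1 : (q : ℝ) * (s θ * τ) = s θ := by
      rw [mul_left_comm, hqτ, mul_one]
    have e2 : (q : ℝ) * (τ * (G / q) + τ * (ε / 2)) = G / q + ε / 2 := by
      rw [← mul_add, ← mul_assoc, hqτ, one_mul]
    rw [e1, e2] at h1
    linarith

end NSC
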