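import Pool.Agent.Work.MP_57e339_an.Defs

/-! Module BaseA: algebra of `nk`, `dot`, `cj`, `Pk`. -/

open MeasureTheory Set Filter Topology
open scoped BigOperators
noncomputable section
namespace NSC
variable {d : ℕ}

theorem nk_nonneg (k : K d) : 0 ≤ nk k := Real.sqrt_nonneg _

theorem nk_sq (k : K d) : nk k ^ 2 = ∑ i, (k i : ℝ) ^ 2 :=
  Real.sq_sqrt (Finset.sum_nonneg fun _ _ => sq_nonneg _)

theorem nk_zero : nk (0 : K d) = 0 := by
  simp [nk]

theorem nk_neg (k : K d) : nk (-k) = nk k := by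
  simp [nk]

theorem norm_kv (k : K d) : ‖kv k‖ = nk k := by
  rw [EuclideanSpace.norm_eq]
  unfold nk kv
  congr 1
  apply Finset.sum_congr rfl
  intro i _
  simp

theorem kv_neg (k : K d) : kv (-k) = -kv k := by
  ext i
  simp [kv]

theorem kv_add (k l : K d) : kv (k + l) = kv k + kv l := by
  ext i
  simp [kv]

theorem basea_kv_sub (k l : K d) : kv (k - l) = kv k - kv l := by
  ext i
  simp [kv]

theorem one_le_nk {k : K d} (hk : k ≠ 0) : 1 ≤ nk k := by
  obtain ⟨i, hi⟩ := Function.ne_iff.1 hk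
  have h1 : (1 : ℝ) ≤ (k i : ℝ) ^ 2 := by
    have : (1 : ℤ) ≤ (k i) ^ 2 := by
      have := Int.one_le_abs hi
      nlinarith [sq_abs (k i)]
    exact_mod_cast this
  have h2 : (k i : ℝ) ^ 2 ≤ ∑ i, (k i : ℝ) ^ 2 :=
    Finset.single_le_sum (f := fun i => (k i : ℝ) ^ 2) (fun j _ => sq_nonneg _) (Finset.mem_univ i)
  unfold nk
  rw [show (1 : ℝ) = Real.sqrt 1 by simp]
  exact Real.sqrt_le_sqrt (h1.trans h2)

theorem nk_eq_zero {k : K d} : nk k = 0 ↔ k = 0 := by
  constructor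
  · intro h
    by_contra hk
    have := one_le_nk hk
    linarith
  · rintro rfl
    exact nk_zero

theorem nk_add_le (k l : K d) : nk (k + l) ≤ nk k + nk l := by
  rw [← norm_kv, ← norm_kv, ← norm_kv, kv_add]
  exact norm_add_le _ _

theorem nk_sub_le (k l : K d) : nk (k - l) ≤ nk k + nk l := by
  rw [← norm_kv, ← norm_kv, ← norm_kv, basea_kv_sub]
  exact norm_sub_le _ _

theorem abs_nk_sub_nk_le (k l : K d) : |nk k - nk l| ≤ nk (k - l) := by
  rw [← norm_kv, ← norm_kv, ← norm_kv, basea_kv_sub]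
  exact abs_norm_sub_norm_le _ _

theorem nk_le_mul {j l : K d} (hj : j ≠ 0) (hl : l ≠ 0) : nk (j + l) ≤ 2 * nk j * nk l := by
  have h1 := nk_add_le j l
  have h2 := one_le_nk hj
  have h3 := one_le_nk hl
  nlinarith

theorem abs_le_nk (k : K d) (i : Fin d) : |(k i : ℝ)| ≤ nk k := by
  unfold nk
  apply Real.abs_le_sqrt
  exact Finset.single_le_sum (f := fun i => (k i : ℝ) ^ 2) (fun j _ => sq_nonneg _)
    (Finset.mem_univ i)

theorem inner_kv (k : K d) (c : Cv d) : inner ℂ (kv k) c = dot k c := by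
  simp only [PiLp.inner_apply, kv, dot]
  apply Finset.sum_congr rfl
  intro i _
  simp [mul_comm]

theorem norm_dot_le (k : K d) (c : Cv d) : ‖dot k c‖ ≤ nk k * ‖c‖ := by
  rw [← inner_kv, ← norm_kv]
  exact norm_inner_le_norm _ _

theorem dot_add (k : K d) (c c' : Cv d) : dot k (c + c') = dot k c + dot k c' := by
  simp [dot, mul_add, Finset.sum_add_distrib]

theorem dot_sub (k : K d) (c c' : Cv d) : dot k (c - c') = dot k c - dot k c' := by
  simp [dot, mul_sub, Finset.sum_sub_distrib]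

theorem dot_smul (k : K d) (z : ℂ) (c : Cv d) : dot k (z • c) = z * dot k c := by
  simp only [dot, PiLp.smul_apply, smul_eq_mul, Finset.mul_sum]
  apply Finset.sum_congr rfl
  intro i _
  ring

theorem dot_rsmul (k : K d) (t : ℝ) (c : Cv d) : dot k (t • c) = (t : ℂ) * dot k c := by
  simp only [dot, PiLp.smul_apply, Complex.real_smul, Finset.mul_sum]
  apply Finset.sum_congr rfl
  intro i _
  ring

theorem dot_zero (k : K d) : dot k (0 : Cv d) = 0 := by
  simp [dot]

theorem dot_zero_left (c : Cv d) : dot (0 : K d) c = 0 := by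
  simp [dot]

theorem dot_add_left (k l : K d) (c : Cv d) : dot (k + l) c = dot k c + dot l c := by
  simp [dot, add_mul, Finset.sum_add_distrib]

theorem dot_sub_left (k l : K d) (c : Cv d) : dot (k - l) c = dot k c - dot l c := by
  simp [dot, sub_mul, Finset.sum_sub_distrib]

theorem dot_neg_left (k : K d) (c : Cv d) : dot (-k) c = -dot k c := by
  simp [dot]

theorem dot_kv (k : K d) : dot k (kv k) = (nk k : ℂ) ^ 2 := by
  have h := nk_sq k
  have h2 : ((nk k : ℂ)) ^ 2 = ((nk k ^ 2 : ℝ) : ℂ) := by push_cast; rfl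
  rw [h2, h]
  simp only [dot, kv]
  push_cast
  apply Finset.sum_congr rfl
  intro i _
  ring

theorem continuous_dot (k : K d) : Continuous (dot k) := by
  unfold dot
  fun_prop

theorem cj_add (c c' : Cv d) : cj (c + c') = cj c + cj c' := by
  ext i
  simp [cj]

theorem cj_sub (c c' : Cv d) : cj (c - c') = cj c - cj c' := by
  ext i
  simp [cj]

theorem cj_smul (z : ℂ) (c : Cv d) : cj (z • c) = (starRingEnd ℂ) z • cj c := by
  ext i
  simp [cj]

theorem cj_rsmul (t : ℝ) (c : Cv d) : cj (t • c) = t • cj c := by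
  ext i
  simp [cj]

theorem cj_zero : cj (0 : Cv d) = 0 := by
  ext i
  simp [cj]

theorem cj_cj (c : Cv d) : cj (cj c) = c := by
  ext i
  simp [cj]

theorem norm_cj (c : Cv d) : ‖cj c‖ = ‖c‖ := by
  rw [EuclideanSpace.norm_eq, EuclideanSpace.norm_eq]
  simp [cj]

theorem continuous_cj : Continuous (cj : Cv d → Cv d) := by
  unfold cj
  apply (PiLp.continuous_toLp 2 _).comp
  apply continuous_pi
  intro i
  exact Complex.continuous_conj.comp (by fun_prop)

theorem dot_cj (k : K d) (c : Cv d) : dot k (cj c) = (starRingEnd ℂ) (dot k c) := by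
  simp [dot, cj, map_sum]

theorem cj_kv (k : K d) : cj (kv k) = kv k := by
  ext i
  simp [cj, kv]

theorem inner_cj_cj (c c' : Cv d) : inner ℂ (cj c) (cj c') = (starRingEnd ℂ) (inner ℂ c c') := by
  simp [cj, PiLp.inner_apply, map_sum]

theorem Pk_zero_left (c : Cv d) : Pk (0 : K d) c = 0 := by
  simp [Pk]

theorem Pk_add (k : K d) (c c' : Cv d) : Pk k (c + c') = Pk k c + Pk k c' := by
  unfold Pk
  split_ifs
  · simp
  · rw [dot_add, add_div, add_smul]
    abel

theorem Pk_sub (k : K d) (c c' : Cv d) : Pk k (c - c') = Pk k c - Pk k c' := by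
  unfold Pk
  split_ifs
  · simp
  · rw [dot_sub, sub_div, sub_smul]
    abel

theorem Pk_smul (k : K d) (z : ℂ) (c : Cv d) : Pk k (z • c) = z • Pk k c := by
  unfold Pk
  split_ifs
  · simp
  · rw [dot_smul, smul_sub, smul_smul, mul_div_assoc]

theorem Pk_rsmul (k : K d) (t : ℝ) (c : Cv d) : Pk k (t • c) = t • Pk k c := by
  have h : ∀ c : Cv d, t • c = (t : ℂ) • c := fun c => by ext i; simp
  rw [h, h, Pk_smul]

theorem Pk_zero (k : K d) : Pk k (0 : Cv d) = 0 := by
  unfold Pk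
  split_ifs
  · rfl
  · simp [dot_zero]

theorem Pk_sum {ι : Type} (s : Finset ι) (k : K d) (c : ι → Cv d) :
    Pk k (∑ i ∈ s, c i) = ∑ i ∈ s, Pk k (c i) := by
  classical
  induction s using Finset.induction_on with
  | empty => simp [Pk_zero]
  | insert a s ha ih => rw [Finset.sum_insert ha, Finset.sum_insert ha, Pk_add, ih]

theorem dot_Pk (k : K d) (c : Cv d) : dot k (Pk k c) = 0 := by
  unfold Pk
  split_ifs with h
  · simp [dot_zero]
  · rw [dot_sub, dot_smul, dot_kv]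
    have h2 : nk k ≠ 0 := by
      have := one_le_nk h
      linarith
    have h3 : (nk k : ℂ) ^ 2 ≠ 0 := by
      apply pow_ne_zero
      exact_mod_cast h2
    rw [div_mul_cancel₀ _ h3, sub_self]

theorem Pk_of_dot {k : K d} (hk : k ≠ 0) {c : Cv d} (hc : dot k c = 0) : Pk k c = c := by
  simp [Pk, hk, hc]

theorem Pk_kv (k : K d) : Pk k (kv k) = 0 := by
  unfold Pk
  split_ifs with h
  · rfl
  · rw [dot_kv]
    have : (nk k : ℂ) ^ 2 ≠ 0 := by
      apply pow_ne_zero
      have h1 := one_le_nk h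
      have h2 : nk k ≠ 0 := by linarith
      exact_mod_cast h2
    rw [div_self this]
    simp

theorem continuous_Pk (k : K d) : Continuous (Pk k) := by
  by_cases h : k = 0
  · have : Pk k = fun _ : Cv d => (0 : Cv d) := by
      funext c
      simp [Pk, h]
    rw [this]
    exact continuous_const
  · have : Pk k = fun c : Cv d => c - (dot k c / (nk k : ℂ) ^ 2) • kv k := by
      funext c
      simp [Pk, h]
    rw [this]
    exact continuous_id.sub (((continuous_dot k).div_const _).smul continuous_const)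

theorem inner_Pk {k : K d} (hk : k ≠ 0) {z : Cv d} (hz : dot k z = 0) (c : Cv d) :
    inner ℂ z (Pk k c) = inner ℂ z c := by
  have h1 : inner ℂ z (kv k) = 0 := by
    rw [← inner_conj_symm, inner_kv, hz]
    simp
  simp [Pk, hk, inner_sub_right, inner_smul_right, h1]

theorem norm_Pk_le (k : K d) (c : Cv d) : ‖Pk k c‖ ≤ ‖c‖ := by
  by_cases hk : k = 0
  · simp [Pk, hk]
  · have h1 : inner ℂ (Pk k c) (Pk k c) = inner ℂ (Pk k c) c := inner_Pk hk (dot_Pk k c) c
    have h2 : ‖Pk k c‖ ^ 2 ≤ ‖Pk k c‖ * ‖c‖ := by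
      have h3 : ((‖Pk k c‖ : ℂ)) ^ 2 = inner ℂ (Pk k c) (Pk k c) := by
        rw [inner_self_eq_norm_sq_to_K]
        rfl
      have h4 : ‖(inner ℂ (Pk k c) c : ℂ)‖ ≤ ‖Pk k c‖ * ‖c‖ := norm_inner_le_norm _ _
      rw [← h1, ← h3] at h4
      rw [norm_pow, Complex.norm_real, norm_norm] at h4
      exact h4
    by_cases h0 : ‖Pk k c‖ = 0
    · rw [h0]
      exact norm_nonneg _
    · have h5 : 0 < ‖Pk k c‖ := lt_of_le_of_ne (norm_nonneg _) (Ne.symm h0)
      nlinarith

theorem Pk_neg_cj (k : K d) (c : Cv d) : Pk (-k) (cj c) = cj (Pk k c) := by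
  by_cases hk : k = 0
  · subst hk
    simp [Pk, cj_zero]
  · have hk' : -k ≠ 0 := neg_ne_zero.2 hk
    simp only [Pk, hk, hk', if_false]
    rw [cj_sub, cj_smul, cj_kv, dot_neg_left, dot_cj, kv_neg, nk_neg]
    simp [neg_div]

theorem mu_re (ν : ℝ) (m : Fin d → ℝ) (k : K d) : (mu ν m k).re = ν * nk k ^ 2 := by
  have h1 : ((ν : ℂ) * (nk k : ℂ) ^ 2) = ((ν * nk k ^ 2 : ℝ) : ℂ) := by push_cast; ring
  have h2 : (∑ i, (m i : ℂ) * (k i : ℂ)) = ((∑ i, m i * (k i : ℝ) : ℝ) : ℂ) := by push_cast; rfl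
  unfold mu
  rw [h1, h2, Complex.add_re, Complex.ofReal_re, Complex.mul_re]
  simp

theorem mu_neg (ν : ℝ) (m : Fin d → ℝ) (k : K d) :
    mu ν m (-k) = (starRingEnd ℂ) (mu ν m k) := by
  have h2 : (∑ i, (m i : ℂ) * (k i : ℂ)) = ((∑ i, m i * (k i : ℝ) : ℝ) : ℂ) := by push_cast; rfl
  have h3 : (∑ i, (m i : ℂ) * ((-k) i : ℂ)) = -((∑ i, m i * (k i : ℝ) : ℝ) : ℂ) := by
    push_cast
    simp
  unfold mu
  rw [h2, h3, nk_neg]
  simp

theorem norm_mu_le (ν : ℝ) (m : Fin d → ℝ) (k : K d) :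
    ‖mu ν m k‖ ≤ (|ν| + ∑ i, |m i|) * nk k ^ 2 := by
  have hle : nk k ≤ nk k ^ 2 := by
    by_cases hk : k = 0
    · simp [hk, nk_zero]
    · have := one_le_nk hk
      nlinarith
  have h1 : ‖(ν : ℂ) * (nk k : ℂ) ^ 2‖ = |ν| * nk k ^ 2 := by
    rw [norm_mul, norm_pow, Complex.norm_real, Complex.norm_real, Real.norm_eq_abs,
      Real.norm_eq_abs, abs_of_nonneg (nk_nonneg k)]
  have h2 : ‖Complex.I * ∑ i, (m i : ℂ) * (k i : ℂ)‖ ≤ (∑ i, |m i|) * nk k ^ 2 := by
    rw [norm_mul, Complex.norm_I, one_mul]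
    refine (norm_sum_le _ _).trans ?_
    rw [Finset.sum_mul]
    apply Finset.sum_le_sum
    intro i _
    rw [norm_mul, Complex.norm_real, Real.norm_eq_abs]
    apply mul_le_mul_of_nonneg_left _ (abs_nonneg _)
    have h3 : ‖((k i : ℤ) : ℂ)‖ = |(k i : ℝ)| := by
      rw [show ((k i : ℤ) : ℂ) = (((k i : ℤ) : ℝ) : ℂ) by push_cast; rfl, Complex.norm_real,
        Real.norm_eq_abs]
    rw [h3]
    exact (abs_le_nk k i).trans hle
  unfold mu
  refine (norm_add_le _ _).trans ?_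
  rw [h1, add_mul]
  linarith

end NSC
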