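import Pool.Agent.Work.MP_57e339_an.BaseA

/-! Module BaseV: the space `V` and its norm `n1`. -/

open MeasureTheory Set Filter Topology
open scoped BigOperators
noncomputable section
namespace NSC
variable {d : ℕ}

theorem basev_dot_sum {ι : Type} (s : Finset ι) (k : K d) (c : ι → Cv d) :
    dot k (∑ i ∈ s, c i) = ∑ i ∈ s, dot k (c i) := by
  classical
  induction s using Finset.induction_on with
  | empty => simp [dot_zero]
  | insert a s ha ih => rw [Finset.sum_insert ha, Finset.sum_insert ha, dot_add, ih]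

/-- the weighted sequence `nk k * ‖u k‖` as a function -/
def basev_g (u : Sq d) : K d → ℝ := fun k => nk k * ‖u k‖

theorem basev_g_nonneg (u : Sq d) (k : K d) : 0 ≤ basev_g u k :=
  mul_nonneg (nk_nonneg k) (norm_nonneg _)

theorem basev_g_sq (u : Sq d) (k : K d) : basev_g u k ^ 2 = nk k ^ 2 * ‖u k‖ ^ 2 := by
  unfold basev_g
  ring

theorem isV_zero : IsV (0 : Sq d) where
  zero := rfl
  dv := fun k => dot_zero k
  sy := fun k => by simp [cj_zero]
  sm := by simpa using summable_zero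

/-- finite Minkowski inequality -/
theorem basev_mink (u v : Sq d) (s : Finset (K d)) :
    Real.sqrt (∑ k ∈ s, nk k ^ 2 * ‖(u + v) k‖ ^ 2) ≤
      Real.sqrt (∑ k ∈ s, nk k ^ 2 * ‖u k‖ ^ 2) + Real.sqrt (∑ k ∈ s, nk k ^ 2 * ‖v k‖ ^ 2) := by
  have h := Real.Lp_add_le_of_nonneg (s := s) (f := basev_g u) (g := basev_g v) (p := 2)
    (by norm_num) (fun k _ => basev_g_nonneg u k) (fun k _ => basev_g_nonneg v k)
  have hs : ∀ w : Sq d, ∑ k ∈ s, basev_g w k ^ (2 : ℝ) = ∑ k ∈ s, nk k ^ 2 * ‖w k‖ ^ 2 := by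
    intro w
    apply Finset.sum_congr rfl
    intro k _
    rw [Real.rpow_two, basev_g_sq]
  have h1 : ∑ k ∈ s, nk k ^ 2 * ‖(u + v) k‖ ^ 2 ≤ ∑ k ∈ s, (basev_g u k + basev_g v k) ^ (2 : ℝ) := by
    apply Finset.sum_le_sum
    intro k _
    rw [Real.rpow_two]
    have h2 : nk k * ‖(u + v) k‖ ≤ basev_g u k + basev_g v k := by
      unfold basev_g
      rw [← mul_add]
      exact mul_le_mul_of_nonneg_left (norm_add_le _ _) (nk_nonneg k)
    have h3 : 0 ≤ nk k * ‖(u + v) k‖ := mul_nonneg (nk_nonneg k) (norm_nonneg _)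
    calc nk k ^ 2 * ‖(u + v) k‖ ^ 2 = (nk k * ‖(u + v) k‖) ^ 2 := by ring
      _ ≤ _ := pow_le_pow_left₀ h3 h2 2
  rw [hs, hs] at h
  simp only [← Real.sqrt_eq_rpow] at h
  exact (Real.sqrt_le_sqrt h1).trans h

theorem n1_nonneg (u : Sq d) : 0 ≤ n1 u := Real.sqrt_nonneg _

theorem n1_zero : n1 (0 : Sq d) = 0 := by
  simp [n1]

theorem n1_neg (u : Sq d) : n1 (-u) = n1 u := by
  simp [n1]

theorem n1_sub_comm (u v : Sq d) : n1 (u - v) = n1 (v - u) := by
  rw [← n1_neg, neg_sub]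

theorem n1_smul (t : ℝ) (u : Sq d) : n1 (t • u) = |t| * n1 u := by
  unfold n1
  have h : (fun k => nk k ^ 2 * ‖(t • u) k‖ ^ 2) = fun k => t ^ 2 * (nk k ^ 2 * ‖u k‖ ^ 2) := by
    funext k
    rw [Pi.smul_apply, norm_smul, Real.norm_eq_abs, mul_pow, sq_abs]
    ring
  rw [h, tsum_mul_left, Real.sqrt_mul (sq_nonneg t), Real.sqrt_sq_eq_abs]

theorem basev_tsum_nonneg (u : Sq d) : 0 ≤ ∑' k, nk k ^ 2 * ‖u k‖ ^ 2 :=
  tsum_nonneg fun k => by positivity

theorem basev_n1_sq (u : Sq d) : n1 u ^ 2 = ∑' k, nk k ^ 2 * ‖u k‖ ^ 2 :=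
  Real.sq_sqrt (basev_tsum_nonneg u)

theorem n1_sq {u : Sq d} (_hu : IsV u) : n1 u ^ 2 = ∑' k, nk k ^ 2 * ‖u k‖ ^ 2 := basev_n1_sq u

theorem sum_le_n1_sq {u : Sq d} (hu : IsV u) (s : Finset (K d)) :
    ∑ k ∈ s, nk k ^ 2 * ‖u k‖ ^ 2 ≤ n1 u ^ 2 := by
  rw [n1_sq hu]
  exact hu.sm.sum_le_tsum s fun k _ => by positivity

theorem basev_sqrt_sum_le {u : Sq d} (hu : IsV u) (s : Finset (K d)) :
    Real.sqrt (∑ k ∈ s, nk k ^ 2 * ‖u k‖ ^ 2) ≤ n1 u := by
  rw [← Real.sqrt_sq (n1_nonneg u)]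
  exact Real.sqrt_le_sqrt (sum_le_n1_sq hu s)

/-- A pointwise criterion for membership in `V`. -/
theorem isV_of_bd {u : Sq d} (h0 : u 0 = 0) (hdv : ∀ k, dot k (u k) = 0)
    (hsy : ∀ k, u (-k) = cj (u k)) {A : ℝ} (hA : 0 ≤ A)
    (h : ∀ s : Finset (K d), ∑ k ∈ s, nk k ^ 2 * ‖u k‖ ^ 2 ≤ A ^ 2) : IsV u ∧ n1 u ≤ A := by
  have hs : Summable fun k => nk k ^ 2 * ‖u k‖ ^ 2 :=
    summable_of_sum_le (fun k => by positivity) h
  refine ⟨⟨h0, hdv, hsy, hs⟩, ?_⟩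
  unfold n1
  rw [← Real.sqrt_sq hA]
  exact Real.sqrt_le_sqrt (hs.tsum_le_of_sum_le h)

theorem basev_add {u v : Sq d} (hu : IsV u) (hv : IsV v) : IsV (u + v) ∧ n1 (u + v) ≤ n1 u + n1 v := by
  apply isV_of_bd
  · simp [hu.zero, hv.zero]
  · intro k
    rw [Pi.add_apply, dot_add, hu.dv, hv.dv, add_zero]
  · intro k
    rw [Pi.add_apply, Pi.add_apply, cj_add, hu.sy, hv.sy]
  · exact add_nonneg (n1_nonneg _) (n1_nonneg _)
  · intro s
    have h := basev_mink u v s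
    have h1 := basev_sqrt_sum_le hu s
    have h2 := basev_sqrt_sum_le hv s
    have h3 : 0 ≤ ∑ k ∈ s, nk k ^ 2 * ‖(u + v) k‖ ^ 2 := Finset.sum_nonneg fun k _ => by positivity
    calc ∑ k ∈ s, nk k ^ 2 * ‖(u + v) k‖ ^ 2
        = Real.sqrt (∑ k ∈ s, nk k ^ 2 * ‖(u + v) k‖ ^ 2) ^ 2 := (Real.sq_sqrt h3).symm
      _ ≤ (n1 u + n1 v) ^ 2 := pow_le_pow_left₀ (Real.sqrt_nonneg _) (by linarith) 2

theorem IsV.add {u v : Sq d} (hu : IsV u) (hv : IsV v) : IsV (u + v) := (basev_add hu hv).1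

theorem IsV.neg {u : Sq d} (hu : IsV u) : IsV (-u) where
  zero := by simp [hu.zero]
  dv := fun k => by
    have : (-u) k = (-1 : ℂ) • u k := by simp
    rw [this, dot_smul, hu.dv, mul_zero]
  sy := fun k => by
    have h : ∀ k, (-u) k = (-1 : ℝ) • u k := by intro k; simp
    rw [h, h, cj_rsmul, hu.sy]
  sm := by simpa using hu.sm

theorem IsV.sub {u v : Sq d} (hu : IsV u) (hv : IsV v) : IsV (u - v) := by
  rw [sub_eq_add_neg]
  exact hu.add hv.neg

theorem IsV.smul {u : Sq d} (hu : IsV u) (t : ℝ) : IsV (t • u) where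
  zero := by simp [hu.zero]
  dv := fun k => by rw [Pi.smul_apply, dot_rsmul, hu.dv, mul_zero]
  sy := fun k => by rw [Pi.smul_apply, Pi.smul_apply, cj_rsmul, hu.sy]
  sm := by
    have h : (fun k => nk k ^ 2 * ‖(t • u) k‖ ^ 2) = fun k => t ^ 2 * (nk k ^ 2 * ‖u k‖ ^ 2) := by
      funext k
      rw [Pi.smul_apply, norm_smul, Real.norm_eq_abs, mul_pow, sq_abs]
      ring
    rw [h]
    exact hu.sm.mul_left _

theorem basev_sum {ι : Type} (s : Finset ι) (u : ι → Sq d) (hu : ∀ i ∈ s, IsV (u i)) :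
    IsV (∑ i ∈ s, u i) ∧ n1 (∑ i ∈ s, u i) ≤ ∑ i ∈ s, n1 (u i) := by
  classical
  induction s using Finset.induction_on with
  | empty => simp [isV_zero, n1_zero]
  | insert a s ha ih =>
    obtain ⟨h1, h2⟩ := ih fun i hi => hu i (Finset.mem_insert_of_mem hi)
    have h3 := hu a (Finset.mem_insert_self a s)
    rw [Finset.sum_insert ha, Finset.sum_insert ha]
    obtain ⟨h4, h5⟩ := basev_add h3 h1
    exact ⟨h4, by linarith⟩

theorem IsV.sum {ι : Type} (s : Finset ι) (u : ι → Sq d) (hu : ∀ i ∈ s, IsV (u i)) :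
    IsV (∑ i ∈ s, u i) := (basev_sum s u hu).1

theorem n1_add_le {u v : Sq d} (hu : IsV u) (hv : IsV v) : n1 (u + v) ≤ n1 u + n1 v :=
  (basev_add hu hv).2

theorem n1_sub_le {u v : Sq d} (hu : IsV u) (hv : IsV v) : n1 (u - v) ≤ n1 u + n1 v := by
  rw [sub_eq_add_neg, ← n1_neg v]
  exact n1_add_le hu hv.neg

theorem n1_tri {u v w : Sq d} (hu : IsV u) (hv : IsV v) (hw : IsV w) :
    n1 (u - w) ≤ n1 (u - v) + n1 (v - w) := by
  have := n1_add_le (hu.sub hv) (hv.sub hw)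
  simpa using this

theorem n1_sum_le {ι : Type} (s : Finset ι) (u : ι → Sq d) (hu : ∀ i ∈ s, IsV (u i)) :
    n1 (∑ i ∈ s, u i) ≤ ∑ i ∈ s, n1 (u i) := (basev_sum s u hu).2

theorem coef_le {u : Sq d} (hu : IsV u) (k : K d) : nk k * ‖u k‖ ≤ n1 u := by
  have h := sum_le_n1_sq hu {k}
  rw [Finset.sum_singleton, ← mul_pow] at h
  exact (pow_le_pow_iff_left₀ (mul_nonneg (nk_nonneg k) (norm_nonneg _)) (n1_nonneg u)
    (by norm_num)).1 h

theorem norm_coef_le {u : Sq d} (hu : IsV u) (k : K d) : ‖u k‖ ≤ n1 u := by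
  by_cases hk : k = 0
  · rw [hk, hu.zero, norm_zero]
    exact n1_nonneg u
  · have h1 := one_le_nk hk
    have h2 := coef_le hu k
    have h3 := norm_nonneg (u k)
    nlinarith

theorem basev_sq_le {u : Sq d} (hu : IsV u) (k : K d) : ‖u k‖ ^ 2 ≤ nk k ^ 2 * ‖u k‖ ^ 2 := by
  by_cases hk : k = 0
  · rw [hk, hu.zero, norm_zero]
    simp
  · have h1 : (1 : ℝ) ≤ nk k ^ 2 := one_le_pow₀ (one_le_nk hk)
    have h3 := sq_nonneg (‖u k‖)
    nlinarith

theorem summable_sq {u : Sq d} (hu : IsV u) : Summable fun k => ‖u k‖ ^ 2 :=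
  Summable.of_nonneg_of_le (fun k => by positivity) (basev_sq_le hu) hu.sm

theorem tsum_sq_le {u : Sq d} (hu : IsV u) : ∑' k, ‖u k‖ ^ 2 ≤ n1 u ^ 2 := by
  rw [n1_sq hu]
  exact (summable_sq hu).tsum_le_tsum (basev_sq_le hu) hu.sm

theorem eq_zero_of_n1 {u : Sq d} (hu : IsV u) (h : n1 u = 0) : u = 0 := by
  funext k
  have := norm_coef_le hu k
  rw [h] at this
  exact norm_le_zero_iff.1 this

/-- The norm is lower semicontinuous for coefficientwise convergence. -/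
theorem isV_of_tendsto {ι : Type} {l : Filter ι} [l.NeBot] {v : ι → Sq d} {u : Sq d} {A : ℝ}
    (hA : 0 ≤ A) (hv : ∀ᶠ n in l, IsV (v n) ∧ n1 (v n) ≤ A)
    (h : ∀ k, Tendsto (fun n => v n k) l (𝓝 (u k))) : IsV u ∧ n1 u ≤ A := by
  apply isV_of_bd
  · apply tendsto_nhds_unique (h 0)
    apply tendsto_const_nhds.congr'
    filter_upwards [hv] with n hn
    exact hn.1.zero.symm
  · intro k
    apply tendsto_nhds_unique (((continuous_dot k).tendsto _).comp (h k))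
    apply tendsto_const_nhds.congr'
    filter_upwards [hv] with n hn
    exact (hn.1.dv k).symm
  · intro k
    apply tendsto_nhds_unique (h (-k))
    have h1 := (continuous_cj.tendsto (u k)).comp (h k)
    apply h1.congr'
    filter_upwards [hv] with n hn
    exact (hn.1.sy k).symm
  · exact hA
  · intro s
    have h1 : Tendsto (fun n => ∑ k ∈ s, nk k ^ 2 * ‖v n k‖ ^ 2) l
        (𝓝 (∑ k ∈ s, nk k ^ 2 * ‖u k‖ ^ 2)) := by
      apply tendsto_finsetSum
      intro k _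
      exact ((h k).norm.pow 2).const_mul _
    apply le_of_tendsto h1
    filter_upwards [hv] with n hn
    exact (sum_le_n1_sq hn.1 s).trans (pow_le_pow_left₀ (n1_nonneg _) hn.2 2)

theorem VCont.add_smul {Θ : Type} [TopologicalSpace Θ] {x : Θ → Sq d} (hx : VCont x)
    {s : Θ → ℝ} (hs : Continuous s) {v : Sq d} (hv : IsV v) :
    VCont (fun θ => x θ + s θ • v) := by
  refine ⟨fun θ => (hx.V θ).add (hv.smul _), ?_⟩
  intro θ₀ ε hε
  have h1 := hx.ct θ₀ (ε / 2) (by positivity)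
  have h2 : Tendsto (fun θ => |s θ - s θ₀| * n1 v) (𝓝 θ₀) (𝓝 0) := by
    have h3 : Tendsto (fun θ => s θ - s θ₀) (𝓝 θ₀) (𝓝 (s θ₀ - s θ₀)) :=
      (hs.tendsto θ₀).sub tendsto_const_nhds
    rw [sub_self] at h3
    have h4 := (h3.abs).mul_const (n1 v)
    simpa using h4
  have h5 := h2.eventually (gt_mem_nhds (show (0 : ℝ) < ε / 2 by positivity))
  filter_upwards [h1, h5] with θ h6 h7
  have e : x θ + s θ • v - (x θ₀ + s θ₀ • v) = (x θ - x θ₀) + (s θ - s θ₀) • v := by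
    rw [sub_smul]
    abel
  rw [e]
  have h8 := n1_add_le ((hx.V θ).sub (hx.V θ₀)) (hv.smul (s θ - s θ₀))
  rw [n1_smul] at h8
  linarith

theorem vcont_const {Θ : Type} [TopologicalSpace Θ] {v : Sq d} (hv : IsV v) :
    VCont (fun _ : Θ => v) := by
  refine ⟨fun _ => hv, ?_⟩
  intro θ₀ ε hε
  filter_upwards with θ
  simpa [n1_zero] using hε

theorem VCont.add_const {Θ : Type} [TopologicalSpace Θ] {x : Θ → Sq d} (hx : VCont x)
    {v : Sq d} (hv : IsV v) : VCont (fun θ => x θ + v) := by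
  have := hx.add_smul (s := fun _ => 1) continuous_const hv
  simpa using this

theorem VCont.bdd {Θ : Type} [TopologicalSpace Θ] [CompactSpace Θ] {x : Θ → Sq d}
    (hx : VCont x) : ∃ M, 0 ≤ M ∧ ∀ θ, n1 (x θ) ≤ M := by
  have hcont : Continuous fun θ => n1 (x θ) := by
    rw [continuous_iff_continuousAt]
    intro θ₀
    rw [ContinuousAt, Metric.tendsto_nhds]
    intro ε hε
    filter_upwards [hx.ct θ₀ ε hε] with θ hθ
    rw [Real.dist_eq, abs_lt]
    have h1 := n1_tri (hx.V θ) (hx.V θ₀) isV_zero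
    have h2 := n1_tri (hx.V θ₀) (hx.V θ) isV_zero
    have h3 : n1 (x θ₀ - x θ) = n1 (x θ - x θ₀) := n1_sub_comm _ _
    rw [sub_zero, sub_zero] at h1 h2
    constructor <;> linarith
  by_cases hne : Nonempty Θ
  · obtain ⟨θ₁, -, h⟩ := isCompact_univ.exists_isMaxOn (univ_nonempty (α := Θ)) hcont.continuousOn
    exact ⟨n1 (x θ₁), n1_nonneg _, fun θ => h (mem_univ θ)⟩
  · exact ⟨0, le_rfl, fun θ => (hne ⟨θ⟩).elim⟩

end NSC
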