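import Pool.Agent.Work.MP_57e339_an.BaseV

/-! Module BaseW: weighted `ℓ^1` norms `W`, truncations `tr`, summability on the lattice. -/

open MeasureTheory Set Filter Topology
open scoped BigOperators
noncomputable section
namespace NSC
variable {d : ℕ}

theorem finite_bx (R : ℝ) : (bx d R).Finite := by
  apply Set.Finite.subset (Set.finite_Icc (fun _ : Fin d => -⌈R⌉) (fun _ => ⌈R⌉))
  intro k hk
  have h : ∀ i, |(k i : ℝ)| ≤ ⌈R⌉ := fun i => ((abs_le_nk k i).trans hk.2).trans (Int.le_ceil R)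
  constructor
  · intro i
    have := (abs_le.1 (h i)).1
    exact_mod_cast this
  · intro i
    have := (abs_le.1 (h i)).2
    exact_mod_cast this

theorem bx_neg {R : ℝ} {k : K d} (hk : k ∈ bx d R) : -k ∈ bx d R :=
  ⟨neg_ne_zero.2 hk.1, by rw [nk_neg]; exact hk.2⟩

theorem summable_nk4 (hd : d = 2 ∨ d = 3) : Summable fun k : K d => (nk k ^ 4)⁻¹ := by
  let b : Module.Basis (Fin d) ℝ (Rv d) := (EuclideanSpace.basisFun (Fin d) ℝ).toBasis
  let L : Submodule ℤ (Rv d) := Submodule.span ℤ (Set.range b)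
  have hfin : Module.finrank ℤ L < 4 := by
    have h1 : Module.finrank ℤ L ≤ Fintype.card (Fin d) := finrank_range_le_card (R := ℤ) b
    rw [Fintype.card_fin] at h1
    omega
  have hs := ZLattice.summable_norm_pow_inv L 4 hfin
  let f : K d → L := fun k => ⟨WithLp.toLp 2 fun i => (k i : ℝ), by
    have : (WithLp.toLp 2 fun i => (k i : ℝ) : Rv d) = ∑ i, k i • b i := by
      ext j
      have h1 : (∑ i, k i • b i : Rv d).ofLp j = ∑ i, (k i • b i : Rv d).ofLp j := by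
        rw [WithLp.ofLp_sum, Finset.sum_apply]
      rw [h1]
      have h2 : ∀ i, (k i • b i : Rv d).ofLp j = (k i : ℝ) * (if j = i then 1 else 0) := by
        intro i
        rw [← Int.cast_smul_eq_zsmul ℝ]
        simp [b]
      simp [h2]
    rw [this]
    exact Submodule.sum_mem _ fun i _ => Submodule.smul_mem _ _ (Submodule.subset_span ⟨i, rfl⟩)⟩
  have hinj : Function.Injective f := by
    intro k l h
    have h1 := congrArg (fun z : L => (z : Rv d)) h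
    funext i
    have h2 := congrArg (fun z : Rv d => z i) h1
    have h3 : (k i : ℝ) = (l i : ℝ) := h2
    exact_mod_cast h3
  have hs2 := hs.comp_injective hinj
  refine hs2.congr ?_
  intro k
  have h1 : ‖f k‖ = nk k := by
    change ‖(f k : Rv d)‖ = _
    rw [EuclideanSpace.norm_eq]
    unfold nk
    congr 1
    apply Finset.sum_congr rfl
    intro i _
    simp [f]
  simp only [Function.comp]
  rw [h1, inv_pow]

theorem basew_term_nonneg (m : ℕ) (u : Sq d) (k : K d) : 0 ≤ nk k ^ m * ‖u k‖ :=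
  mul_nonneg (pow_nonneg (nk_nonneg k) m) (norm_nonneg _)

theorem W_nonneg (m : ℕ) (u : Sq d) : 0 ≤ W m u := tsum_nonneg (basew_term_nonneg m u)

theorem sum_le_W {m : ℕ} {u : Sq d} (h : SW m u) (s : Finset (K d)) :
    ∑ k ∈ s, nk k ^ m * ‖u k‖ ≤ W m u :=
  Summable.sum_le_tsum s (fun k _ => basew_term_nonneg m u k) h

theorem SW_of_bd {m : ℕ} {u : Sq d} {A : ℝ}
    (h : ∀ s : Finset (K d), ∑ k ∈ s, nk k ^ m * ‖u k‖ ≤ A) : SW m u ∧ W m u ≤ A := by
  have hs : Summable fun k => nk k ^ m * ‖u k‖ :=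
    summable_of_sum_le (basew_term_nonneg m u) h
  exact ⟨hs, hs.tsum_le_of_sum_le h⟩

theorem SW_zero (m : ℕ) : SW m (0 : Sq d) ∧ W m (0 : Sq d) = 0 := by
  constructor
  · unfold SW
    simpa using summable_zero
  · simp [W]

theorem SW.smul {m : ℕ} {u : Sq d} (hu : SW m u) (t : ℝ) :
    SW m (t • u) ∧ W m (t • u) = |t| * W m u := by
  have h : (fun k => nk k ^ m * ‖(t • u) k‖) = fun k => |t| * (nk k ^ m * ‖u k‖) := by
    funext k
    rw [Pi.smul_apply, norm_smul, Real.norm_eq_abs]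
    ring
  constructor
  · unfold SW
    rw [h]
    exact Summable.mul_left _ hu
  · unfold W
    rw [h, tsum_mul_left]

theorem SW.add {m : ℕ} {u v : Sq d} (hu : SW m u) (hv : SW m v) :
    SW m (u + v) ∧ W m (u + v) ≤ W m u + W m v := by
  apply SW_of_bd
  intro s
  have h1 := sum_le_W hu s
  have h2 := sum_le_W hv s
  calc ∑ k ∈ s, nk k ^ m * ‖(u + v) k‖
      ≤ ∑ k ∈ s, (nk k ^ m * ‖u k‖ + nk k ^ m * ‖v k‖) := by
        apply Finset.sum_le_sum
        intro k _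
        rw [← mul_add]
        exact mul_le_mul_of_nonneg_left (norm_add_le _ _) (pow_nonneg (nk_nonneg k) m)
    _ = _ := Finset.sum_add_distrib
    _ ≤ _ := add_le_add h1 h2

theorem SW.sub {m : ℕ} {u v : Sq d} (hu : SW m u) (hv : SW m v) :
    SW m (u - v) ∧ W m (u - v) ≤ W m u + W m v := by
  have h1 := hv.smul (-1)
  have h2 := hu.add h1.1
  have e : u + (-1 : ℝ) • v = u - v := by
    rw [neg_smul, one_smul, sub_eq_add_neg]
  rw [e] at h2
  refine ⟨h2.1, ?_⟩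
  have h3 := h1.2
  have h4 := h2.2
  rw [h3] at h4
  simpa using h4

theorem SW.sum {m : ℕ} {ι : Type} (s : Finset ι) (u : ι → Sq d) (hu : ∀ i ∈ s, SW m (u i)) :
    SW m (∑ i ∈ s, u i) ∧ W m (∑ i ∈ s, u i) ≤ ∑ i ∈ s, W m (u i) := by
  classical
  induction s using Finset.induction_on with
  | empty =>
    have := SW_zero (d := d) m
    simp [this.1, this.2]
  | insert a s ha ih =>
    obtain ⟨h1, h2⟩ := ih fun i hi => hu i (Finset.mem_insert_of_mem hi)
    have h3 := hu a (Finset.mem_insert_self a s)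
    rw [Finset.sum_insert ha, Finset.sum_insert ha]
    obtain ⟨h4, h5⟩ := h3.add h1
    exact ⟨h4, by linarith⟩

theorem basew_term_mono {m l : ℕ} {u : Sq d} (h0 : u 0 = 0) (hl : l ≤ m) (k : K d) :
    nk k ^ l * ‖u k‖ ≤ nk k ^ m * ‖u k‖ := by
  by_cases hk : k = 0
  · rw [hk, h0, norm_zero]
    simp
  · exact mul_le_mul_of_nonneg_right (pow_le_pow_right₀ (one_le_nk hk) hl) (norm_nonneg _)

theorem SW.mono {m l : ℕ} {u : Sq d} (hu : SW m u) (h0 : u 0 = 0) (hl : l ≤ m) :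
    SW l u ∧ W l u ≤ W m u := by
  apply SW_of_bd
  intro s
  exact (Finset.sum_le_sum fun k _ => basew_term_mono h0 hl k).trans (sum_le_W hu s)

theorem basew_sq_sum_le {s : Finset (K d)} {f : K d → ℝ} (hf : ∀ k, 0 ≤ f k) :
    ∑ k ∈ s, f k ^ 2 ≤ (∑ k ∈ s, f k) ^ 2 := by
  have h0 : 0 ≤ ∑ k ∈ s, f k := Finset.sum_nonneg fun k _ => hf k
  calc ∑ k ∈ s, f k ^ 2 ≤ ∑ k ∈ s, f k * (∑ k ∈ s, f k) := by
        apply Finset.sum_le_sum
        intro k hk
        rw [sq]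
        exact mul_le_mul_of_nonneg_left
          (Finset.single_le_sum (f := f) (fun j _ => hf j) hk) (hf k)
    _ = _ := by rw [← Finset.sum_mul, sq]

theorem isV_of_SW {u : Sq d} (h0 : u 0 = 0) (hdv : ∀ k, dot k (u k) = 0)
    (hsy : ∀ k, u (-k) = cj (u k)) (h : SW 1 u) : IsV u ∧ n1 u ≤ W 1 u := by
  apply isV_of_bd h0 hdv hsy (W_nonneg 1 u)
  intro s
  calc ∑ k ∈ s, nk k ^ 2 * ‖u k‖ ^ 2 = ∑ k ∈ s, (nk k ^ 1 * ‖u k‖) ^ 2 := by
        apply Finset.sum_congr rfl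
        intro k _
        ring
    _ ≤ (∑ k ∈ s, nk k ^ 1 * ‖u k‖) ^ 2 := basew_sq_sum_le (basew_term_nonneg 1 u)
    _ ≤ (W 1 u) ^ 2 := pow_le_pow_left₀ (Finset.sum_nonneg fun k _ => basew_term_nonneg 1 u k)
        (sum_le_W h s) 2

theorem n1_le_W {u : Sq d} (hu : IsV u) (h : SW 1 u) : n1 u ≤ W 1 u :=
  (isV_of_SW hu.zero hu.dv hu.sy h).2

theorem W_zero_of {u : Sq d} {m : ℕ} (h : SW m u) (h0 : u 0 = 0) (hW : W m u = 0) : u = 0 := by
  funext k
  by_cases hk : k = 0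
  · rw [hk, h0]
    rfl
  · have h1 := sum_le_W h {k}
    rw [Finset.sum_singleton, hW] at h1
    have h2 : 0 < nk k ^ m := pow_pos (by linarith [one_le_nk hk]) m
    have h3 : ‖u k‖ ≤ 0 := by
      by_contra hcon
      push Not at hcon
      have := mul_pos h2 hcon
      linarith
    exact norm_le_zero_iff.1 h3

/-- weighted `ℓ^1` norms are controlled by weighted `ℓ^2` norms (`d ≤ 3`) -/
theorem W_le_l2 (hd : d = 2 ∨ d = 3) (m : ℕ) : ∃ C : ℝ, 0 ≤ C ∧ ∀ (u : Sq d) (A : ℝ), u 0 = 0 →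
    0 ≤ A → (∀ s : Finset (K d), ∑ k ∈ s, nk k ^ (2 * (m + 2)) * ‖u k‖ ^ 2 ≤ A ^ 2) →
    SW m u ∧ W m u ≤ C * A := by
  refine ⟨Real.sqrt (∑' k : K d, (nk k ^ 4)⁻¹), Real.sqrt_nonneg _, ?_⟩
  intro u A h0 hA h
  apply SW_of_bd
  intro s
  have hsum := summable_nk4 hd
  have h1 : ∀ k : K d, nk k ^ m * ‖u k‖ = (nk k ^ 2)⁻¹ * (nk k ^ (m + 2) * ‖u k‖) := by
    intro k
    by_cases hk : k = 0
    · rw [hk, h0, norm_zero]
      simp
    · have : nk k ≠ 0 := by linarith [one_le_nk hk]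
      field_simp
      ring
  have h2 := Finset.sum_mul_sq_le_sq_mul_sq s (fun k => (nk k ^ 2)⁻¹)
    (fun k => nk k ^ (m + 2) * ‖u k‖)
  have h3 : ∑ k ∈ s, ((nk k ^ 2)⁻¹) ^ 2 ≤ ∑' k : K d, (nk k ^ 4)⁻¹ := by
    have e : ∀ k : K d, ((nk k ^ 2)⁻¹) ^ 2 = (nk k ^ 4)⁻¹ := by
      intro k
      rw [inv_pow, ← pow_mul]
    simp only [e]
    exact hsum.sum_le_tsum s fun k _ => inv_nonneg.2 (pow_nonneg (nk_nonneg k) 4)
  have h4 : ∑ k ∈ s, (nk k ^ (m + 2) * ‖u k‖) ^ 2 ≤ A ^ 2 := by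
    refine le_trans (le_of_eq ?_) (h s)
    apply Finset.sum_congr rfl
    intro k _
    rw [mul_pow, ← pow_mul]
    congr 2
    ring
  have h5 : (∑ k ∈ s, nk k ^ m * ‖u k‖) ^ 2 ≤ (∑' k : K d, (nk k ^ 4)⁻¹) * A ^ 2 := by
    simp only [h1]
    refine h2.trans ?_
    exact mul_le_mul h3 h4 (Finset.sum_nonneg fun k _ => sq_nonneg _)
      (tsum_nonneg fun k => inv_nonneg.2 (pow_nonneg (nk_nonneg k) 4))
  have h6 : 0 ≤ ∑' k : K d, (nk k ^ 4)⁻¹ :=
    tsum_nonneg fun k => inv_nonneg.2 (pow_nonneg (nk_nonneg k) 4)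
  have h7 : (∑' k : K d, (nk k ^ 4)⁻¹) * A ^ 2 = (Real.sqrt (∑' k : K d, (nk k ^ 4)⁻¹) * A) ^ 2 := by
    rw [mul_pow, Real.sq_sqrt h6]
  rw [h7] at h5
  exact (pow_le_pow_iff_left₀ (Finset.sum_nonneg fun k _ => basew_term_nonneg m u k)
    (mul_nonneg (Real.sqrt_nonneg _) hA) (by norm_num)).1 h5

theorem tr_apply_mem {s : Set (K d)} {u : Sq d} {k : K d} (hk : k ∈ s) : tr s u k = u k :=
  Set.indicator_of_mem hk u

theorem tr_apply_not_mem {s : Set (K d)} {u : Sq d} {k : K d} (hk : k ∉ s) : tr s u k = 0 :=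
  Set.indicator_of_notMem hk u

theorem norm_tr_le (s : Set (K d)) (u : Sq d) (k : K d) : ‖tr s u k‖ ≤ ‖u k‖ := by
  by_cases hk : k ∈ s
  · rw [tr_apply_mem hk]
  · rw [tr_apply_not_mem hk, norm_zero]
    exact norm_nonneg _

theorem tr_isV {u : Sq d} (hu : IsV u) {s : Set (K d)} (hs : ∀ k ∈ s, -k ∈ s) :
    IsV (tr s u) ∧ n1 (tr s u) ≤ n1 u := by
  apply isV_of_bd
  · by_cases h : (0 : K d) ∈ s
    · rw [tr_apply_mem h, hu.zero]
    · rw [tr_apply_not_mem h]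
  · intro k
    by_cases h : k ∈ s
    · rw [tr_apply_mem h, hu.dv]
    · rw [tr_apply_not_mem h, dot_zero]
  · intro k
    by_cases h : k ∈ s
    · rw [tr_apply_mem h, tr_apply_mem (hs k h), hu.sy]
    · have h' : -k ∉ s := by
        intro h'
        apply h
        have := hs _ h'
        rwa [neg_neg] at this
      rw [tr_apply_not_mem h, tr_apply_not_mem h', cj_zero]
  · exact n1_nonneg u
  · intro F
    refine le_trans ?_ (sum_le_n1_sq hu F)
    apply Finset.sum_le_sum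
    intro k _
    exact mul_le_mul_of_nonneg_left (pow_le_pow_left₀ (norm_nonneg _) (norm_tr_le s u k) 2)
      (sq_nonneg _)

theorem tr_fs {R : ℝ} (u : Sq d) : FS (tr (bx d R) u) := by
  apply (finite_bx (d := d) R).subset
  intro k hk
  by_contra h
  exact hk (tr_apply_not_mem h)

theorem FS.rap {u : Sq d} (h : FS u) : Rap u := by
  intro m
  apply summable_of_finite_support
  apply h.subset
  intro k hk hk'
  apply hk
  simp [hk']

open Classical in
theorem basew_sub_tr (u : Sq d) (s : Set (K d)) (k : K d) :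
    (u - tr s u) k = if k ∈ s then 0 else u k := by
  rw [Pi.sub_apply]
  split_ifs with h
  · rw [tr_apply_mem h, sub_self]
  · rw [tr_apply_not_mem h, sub_zero]

theorem tr_close {u : Sq d} (hu : IsV u) {ε : ℝ} (hε : 0 < ε) :
    ∃ R₀ : ℝ, ∀ R ≥ R₀, n1 (u - tr (bx d R) u) < ε := by
  classical
  obtain ⟨s₀, hs₀⟩ := (summable_iff_vanishing_norm.1 hu.sm) ((ε / 2) ^ 2) (by positivity)
  refine ⟨∑ k ∈ s₀, nk k, ?_⟩
  intro R hR
  have hmem : ∀ k ∈ s₀, k ≠ 0 → k ∈ bx d R := by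
    intro k hk hk0
    refine ⟨hk0, le_trans ?_ hR⟩
    exact Finset.single_le_sum (f := fun k => nk k) (fun j _ => nk_nonneg j) hk
  have hV := (hu.sub (tr_isV hu (s := bx d R) fun k hk => bx_neg hk).1)
  have h := isV_of_bd hV.zero hV.dv hV.sy (A := ε / 2) (by positivity) (by
    intro F
    have e : ∑ k ∈ F, nk k ^ 2 * ‖(u - tr (bx d R) u) k‖ ^ 2 =
        ∑ k ∈ F.filter (fun k => k ∉ bx d R ∧ k ≠ 0), nk k ^ 2 * ‖u k‖ ^ 2 := by
      rw [Finset.sum_filter]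
      apply Finset.sum_congr rfl
      intro k _
      rw [basew_sub_tr]
      by_cases h1 : k ∈ bx d R
      · simp [h1]
      · by_cases h2 : k = 0
        · rw [if_neg h1, h2, nk_zero]
          simp
        · simp [h1, h2]
    rw [e]
    have h1 := hs₀ (F.filter (fun k => k ∉ bx d R ∧ k ≠ 0)) (by
      rw [Finset.disjoint_left]
      intro k hk hk'
      have hk2 := (Finset.mem_filter.1 hk).2
      exact hk2.1 (hmem k hk' hk2.2))
    rw [Real.norm_eq_abs, abs_lt] at h1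
    exact h1.2.le)
  linarith [h.2]

theorem tr_close_unif {Θ : Type} [TopologicalSpace Θ] [CompactSpace Θ] {x : Θ → Sq d}
    (hx : VCont x) {ε : ℝ} (hε : 0 < ε) :
    ∃ R : ℝ, ∀ θ, n1 (x θ - tr (bx d R) (x θ)) < ε := by
  classical
  have h1 : ∀ θ₀, ∃ R₀ : ℝ, ∀ R ≥ R₀, n1 (x θ₀ - tr (bx d R) (x θ₀)) < ε / 3 :=
    fun θ₀ => tr_close (hx.V θ₀) (by positivity)
  choose R₀ hR₀ using h1
  let U : Θ → Set Θ := fun θ₀ => {θ | n1 (x θ - x θ₀) < ε / 3}
  have hU : ∀ θ₀, U θ₀ ∈ 𝓝 θ₀ := fun θ₀ => hx.ct θ₀ (ε / 3) (by positivity)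
  obtain ⟨t, ht⟩ := CompactSpace.elim_nhds_subcover U hU
  refine ⟨∑ θ ∈ t, |R₀ θ|, ?_⟩
  intro θ
  have hθ : θ ∈ ⋃ x ∈ t, U x := by
    rw [ht]
    trivial
  simp only [mem_iUnion] at hθ
  obtain ⟨θ₀, hθ₀, hθU⟩ := hθ
  have h2 : R₀ θ₀ ≤ ∑ θ ∈ t, |R₀ θ| := (le_abs_self _).trans
    (Finset.single_le_sum (f := fun θ => |R₀ θ|) (fun j _ => abs_nonneg _) hθ₀)
  have h3 := hR₀ θ₀ _ h2
  set R : ℝ := ∑ θ ∈ t, |R₀ θ| with hR
  have hV1 := hx.V θ
  have hV0 := hx.V θ₀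
  have hd := hV0.sub hV1
  have h4 := tr_isV hd (s := bx d R) fun k hk => bx_neg hk
  have e : x θ - tr (bx d R) (x θ) =
      (x θ - x θ₀) + ((x θ₀ - tr (bx d R) (x θ₀)) + tr (bx d R) (x θ₀ - x θ)) := by
    have : tr (bx d R) (x θ₀ - x θ) = tr (bx d R) (x θ₀) - tr (bx d R) (x θ) := by
      unfold tr
      exact Set.indicator_sub _ _ _
    rw [this]
    abel
  rw [e]
  have hU' : n1 (x θ - x θ₀) < ε / 3 := hθU
  have h5 := n1_add_le (hV1.sub hV0)
    ((hV0.sub (tr_isV hV0 (s := bx d R) fun k hk => bx_neg hk).1).add h4.1)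
  have h6 := n1_add_le (hV0.sub (tr_isV hV0 (s := bx d R) fun k hk => bx_neg hk).1) h4.1
  have h7 := h4.2
  rw [n1_sub_comm (x θ₀) (x θ)] at h7
  linarith

/-- high frequencies are small in a weaker norm -/
theorem tr_compl_le {u : Sq d} (hu : IsV u) (h : SW 2 u) {R : ℝ} (hR : 0 < R) :
    n1 (u - tr (bx d R) u) ≤ R⁻¹ * W 2 u := by
  classical
  have hV := (hu.sub (tr_isV hu (s := bx d R) fun k hk => bx_neg hk).1)
  have h1 := isV_of_SW hV.zero hV.dv hV.sy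
  have h2 : ∀ k, nk k ^ 1 * ‖(u - tr (bx d R) u) k‖ ≤ R⁻¹ * (nk k ^ 2 * ‖u k‖) := by
    intro k
    rw [basew_sub_tr]
    split_ifs with hk
    · rw [norm_zero, mul_zero]
      exact mul_nonneg (inv_nonneg.2 hR.le) (basew_term_nonneg 2 u k)
    · by_cases h0 : k = 0
      · rw [h0, hu.zero, norm_zero]
        simp
      · have h3 : R < nk k := by
          by_contra hcon
          push Not at hcon
          exact hk ⟨h0, hcon⟩
        have h4 : 1 ≤ R⁻¹ * nk k := by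
          rw [inv_mul_eq_div, le_div_iff₀ hR]
          linarith
        calc nk k ^ 1 * ‖u k‖ = 1 * (nk k * ‖u k‖) := by ring
          _ ≤ (R⁻¹ * nk k) * (nk k * ‖u k‖) :=
            mul_le_mul_of_nonneg_right h4 (mul_nonneg (nk_nonneg k) (norm_nonneg _))
          _ = _ := by ring
  have h3 := SW_of_bd (m := 1) (u := u - tr (bx d R) u) (A := R⁻¹ * W 2 u) (by
    intro s
    refine (Finset.sum_le_sum fun k _ => h2 k).trans ?_
    rw [← Finset.mul_sum]
    exact mul_le_mul_of_nonneg_left (sum_le_W h s) (inv_nonneg.2 hR.le))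
  exact (h1 h3.1).2.trans h3.2

theorem W_tr_le (R : ℝ) (m : ℕ) : ∃ C : ℝ, 0 ≤ C ∧ ∀ u : Sq d, IsV u →
    W m (tr (bx d R) u) ≤ C * n1 u := by
  classical
  have hfin := finite_bx (d := d) R
  refine ⟨∑ k ∈ hfin.toFinset, nk k ^ m, Finset.sum_nonneg fun k _ => pow_nonneg (nk_nonneg k) m,
    ?_⟩
  intro u hu
  refine (SW_of_bd (m := m) (A := (∑ k ∈ hfin.toFinset, nk k ^ m) * n1 u) ?_).2
  intro s
  have h1 : ∑ k ∈ s, nk k ^ m * ‖tr (bx d R) u k‖ ≤
      ∑ k ∈ hfin.toFinset, nk k ^ m * ‖tr (bx d R) u k‖ := by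
    have h2 : ∑ k ∈ s, nk k ^ m * ‖tr (bx d R) u k‖ =
        ∑ k ∈ s.filter (fun k => k ∈ hfin.toFinset), nk k ^ m * ‖tr (bx d R) u k‖ := by
      rw [Finset.sum_filter]
      apply Finset.sum_congr rfl
      intro k _
      split_ifs with hk
      · rfl
      · rw [Set.Finite.mem_toFinset] at hk
        rw [tr_apply_not_mem hk, norm_zero, mul_zero]
    rw [h2]
    apply Finset.sum_le_sum_of_subset_of_nonneg
    · intro k hk
      exact (Finset.mem_filter.1 hk).2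
    · intro k _ _
      exact basew_term_nonneg m _ k
  refine h1.trans ?_
  rw [Finset.sum_mul]
  apply Finset.sum_le_sum
  intro k _
  exact mul_le_mul_of_nonneg_left ((norm_tr_le _ _ _).trans (norm_coef_le hu k))
    (pow_nonneg (nk_nonneg k) m)

theorem SW.tr {m : ℕ} {u : Sq d} (hu : SW m u) (s : Set (K d)) :
    SW m (tr s u) ∧ W m (tr s u) ≤ W m u := by
  apply SW_of_bd
  intro F
  refine le_trans ?_ (sum_le_W hu F)
  apply Finset.sum_le_sum
  intro k _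
  exact mul_le_mul_of_nonneg_left (norm_tr_le _ _ _) (pow_nonneg (nk_nonneg k) m)

end NSC
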