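import Pool.Agent.Work.MP_57e339_an.BkT

/-! Module BkL: algebra and weighted bounds for `Bk`, `Lk`, `Mu`. -/

open MeasureTheory Set Filter Topology
open scoped BigOperators
noncomputable section
namespace NSC
variable {d : ℕ}

theorem bk_add_left {a a' w : Sq d} (ha : IsV a) (ha' : IsV a') (hw : IsV w) :
    Bk (a + a') w = Bk a w + Bk a' w := by
  funext k
  unfold Bk
  simp only [Pi.add_apply]
  rw [← smul_add, ← Pk_add, ← (bk_summable ha hw k).tsum_add (bk_summable ha' hw k)]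
  simp only [dot_add, add_smul]

theorem bk_add_right {a w w' : Sq d} (ha : IsV a) (hw : IsV w) (hw' : IsV w') :
    Bk a (w + w') = Bk a w + Bk a w' := by
  funext k
  unfold Bk
  simp only [Pi.add_apply]
  rw [← smul_add, ← Pk_add, ← (bk_summable ha hw k).tsum_add (bk_summable ha hw' k)]
  simp only [smul_add]

theorem bk_smul_left (t : ℝ) (a w : Sq d) : Bk (t • a) w = t • Bk a w := by
  funext k
  unfold Bk
  simp only [Pi.smul_apply]
  have h : ∀ j, dot k (t • a j) • w (k - j) = t • (dot k (a j) • w (k - j)) := by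
    intro j
    rw [dot_rsmul, mul_smul]
    rfl
  simp only [h]
  rw [tsum_const_smul'', Pk_rsmul, smul_comm]

theorem bk_smul_right (t : ℝ) (a w : Sq d) : Bk a (t • w) = t • Bk a w := by
  funext k
  unfold Bk
  simp only [Pi.smul_apply]
  have h : ∀ j, dot k (a j) • (t • w (k - j)) = t • (dot k (a j) • w (k - j)) := by
    intro j
    rw [smul_comm]
  simp only [h]
  rw [tsum_const_smul'', Pk_rsmul, smul_comm]

theorem bk_sub_left {a a' w : Sq d} (ha : IsV a) (ha' : IsV a') (hw : IsV w) :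
    Bk (a - a') w = Bk a w - Bk a' w := by
  have h : a - a' = a + (-1 : ℝ) • a' := by simp [sub_eq_add_neg]
  rw [h, bk_add_left ha (ha'.smul _) hw, bk_smul_left]
  simp [sub_eq_add_neg]

theorem bk_sub_right {a w w' : Sq d} (ha : IsV a) (hw : IsV w) (hw' : IsV w') :
    Bk a (w - w') = Bk a w - Bk a w' := by
  have h : w - w' = w + (-1 : ℝ) • w' := by simp [sub_eq_add_neg]
  rw [h, bk_add_right ha hw (hw'.smul _), bk_smul_right]
  simp [sub_eq_add_neg]

theorem bk_zero_left (w : Sq d) : Bk 0 w = 0 := by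
  have h := bk_smul_left 0 (0 : Sq d) w
  simpa using h

theorem bk_zero_right (a : Sq d) : Bk a 0 = 0 := by
  have h := bk_smul_right 0 a (0 : Sq d)
  simpa using h

theorem bk_at_zero (a w : Sq d) : Bk a w 0 = 0 := by
  unfold Bk
  rw [Pk_zero_left, smul_zero]

theorem dot_bk (a w : Sq d) (k : K d) : dot k (Bk a w k) = 0 := by
  unfold Bk
  rw [dot_smul, dot_Pk, mul_zero]

/-- `cj` as an additive map -/
def bklCj : Cv d →+ Cv d where
  toFun := cj
  map_zero' := cj_zero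
  map_add' := cj_add

theorem bk_sy {a w : Sq d} (ha : IsV a) (hw : IsV w) (k : K d) :
    Bk a w (-k) = cj (Bk a w k) := by
  unfold Bk
  have h1 : (∑' j, dot (-k) (a j) • w (-k - j)) = -cj (∑' j, dot k (a j) • w (k - j)) := by
    rw [← (Equiv.neg (K d)).tsum_eq]
    have h2 : ∀ j, dot (-k) (a ((Equiv.neg (K d)) j)) • w (-k - (Equiv.neg (K d)) j) =
        -(bklCj (dot k (a j) • w (k - j))) := by
      intro j
      have e1 : (Equiv.neg (K d)) j = -j := rfl
      have e2 : -k - -j = -(k - j) := by abel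
      rw [e1, e2, ha.sy, hw.sy, dot_neg_left, dot_cj]
      show _ = -(cj _)
      rw [cj_smul, neg_smul]
    simp only [h2]
    rw [tsum_neg]
    congr 1
    have h3 := ((bk_summable ha hw k).hasSum.map (bklCj (d := d)) continuous_cj).tsum_eq
    exact h3
  rw [h1]
  have h4 : Pk (-k) (-cj (∑' j, dot k (a j) • w (k - j))) =
      -cj (Pk k (∑' j, dot k (a j) • w (k - j))) := by
    rw [← Pk_neg_cj, ← neg_one_smul ℂ (cj _), Pk_smul, neg_one_smul]
  rw [h4, cj_smul, Complex.conj_I, smul_neg, neg_smul]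

theorem bkl_conv_summable {α β : K d → ℝ} (hα : ∀ j, 0 ≤ α j) (hβ : ∀ j, 0 ≤ β j)
    (hsα : Summable α) (hsβ : Summable β) (k : K d) : Summable fun j => α j * β (k - j) := by
  refine Summable.of_nonneg_of_le (fun j => mul_nonneg (hα _) (hβ _)) (fun j => ?_)
    (hsα.mul_right (∑' j, β j))
  exact mul_le_mul_of_nonneg_left (hsβ.le_tsum (k - j) fun i _ => hβ i) (hα j)

theorem bkl_conv_le {α β : K d → ℝ} (hα : ∀ j, 0 ≤ α j) (hβ : ∀ j, 0 ≤ β j)
    (hsα : Summable α) (hsβ : Summable β) (s : Finset (K d)) :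
    ∑ k ∈ s, ∑' j, α j * β (k - j) ≤ (∑' j, α j) * ∑' j, β j := by
  have h0 : ∀ j, ∑ k ∈ s, β (k - j) ≤ ∑' j, β j := by
    intro j
    have hinj : Set.InjOn (fun k => k - j) (s : Set (K d)) := by
      intro x _ y _ h
      exact sub_left_injective h
    rw [← Finset.sum_image (f := β) hinj]
    exact hsβ.sum_le_tsum _ fun i _ => hβ i
  rw [← Summable.tsum_finsetSum fun k _ => bkl_conv_summable hα hβ hsα hsβ k]
  simp only [← Finset.mul_sum]
  rw [← tsum_mul_right]
  apply Summable.tsum_le_tsum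
  · intro j
    exact mul_le_mul_of_nonneg_left (h0 j) (hα j)
  · refine Summable.of_nonneg_of_le (fun j => mul_nonneg (hα _)
      (Finset.sum_nonneg fun k _ => hβ _)) (fun j => ?_) (hsα.mul_right (∑' j, β j))
    exact mul_le_mul_of_nonneg_left (h0 j) (hα j)
  · exact hsα.mul_right _

theorem bk_SW {a w : Sq d} (ha : IsV a) (hw : IsV w) {m : ℕ} (h1 : SW m a) (h2 : SW (m + 1) w) :
    SW m (Bk a w) ∧ W m (Bk a w) ≤ 2 ^ m * W m a * W (m + 1) w := by
  apply SW_of_bd
  intro s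
  have hα : ∀ j, 0 ≤ nk j ^ m * ‖a j‖ := fun j =>
    mul_nonneg (pow_nonneg (nk_nonneg _) _) (norm_nonneg _)
  have hβ : ∀ j, 0 ≤ nk j ^ (m + 1) * ‖w j‖ := fun j =>
    mul_nonneg (pow_nonneg (nk_nonneg _) _) (norm_nonneg _)
  have hterm : ∀ k, nk k ^ m * ‖Bk a w k‖ ≤
      2 ^ m * ∑' j, (nk j ^ m * ‖a j‖) * (nk (k - j) ^ (m + 1) * ‖w (k - j)‖) := by
    intro k
    have hs := bkl_conv_summable hα hβ h1 h2 k
    have e1 : ‖Bk a w k‖ ≤ ‖∑' j, dot k (a j) • w (k - j)‖ := by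
      unfold Bk
      rw [norm_smul, Complex.norm_I, one_mul]
      exact norm_Pk_le _ _
    have e2 : nk k ^ m * ‖∑' j, dot k (a j) • w (k - j)‖ ≤
        2 ^ m * ∑' j, (nk j ^ m * ‖a j‖) * (nk (k - j) ^ (m + 1) * ‖w (k - j)‖) := by
      have e3 : Tendsto (fun t : Finset (K d) => nk k ^ m * ‖∑ j ∈ t, dot k (a j) • w (k - j)‖)
          atTop (𝓝 (nk k ^ m * ‖∑' j, dot k (a j) • w (k - j)‖)) :=
        (bk_summable ha hw k).hasSum.norm.const_mul _
      apply le_of_tendsto e3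
      apply Eventually.of_forall
      intro t
      have e4 : ∀ j ∈ t, nk k ^ m * ‖dot k (a j) • w (k - j)‖ ≤
          2 ^ m * ((nk j ^ m * ‖a j‖) * (nk (k - j) ^ (m + 1) * ‖w (k - j)‖)) := by
        intro j _
        by_cases hj : j = 0
        · subst hj
          rw [ha.zero, dot_zero, zero_smul, norm_zero]
          simp
        by_cases hkj : k - j = 0
        · rw [hkj, hw.zero, smul_zero, norm_zero]
          simp
        have e5 : nk k ≤ 2 * nk j * nk (k - j) := by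
          have := nk_le_mul hj hkj
          rwa [add_sub_cancel] at this
        have e6 : nk k ^ m ≤ (2 * nk j * nk (k - j)) ^ m := pow_le_pow_left₀ (nk_nonneg k) e5 m
        have e7 : ‖dot k (a j)‖ ≤ nk (k - j) * ‖a j‖ := by
          have : dot k (a j) = dot (k - j) (a j) := by
            rw [dot_sub_left, ha.dv j, sub_zero]
          rw [this]
          exact norm_dot_le _ _
        rw [norm_smul]
        have hnj := nk_nonneg j
        have hnkj := nk_nonneg (k - j)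
        calc nk k ^ m * (‖dot k (a j)‖ * ‖w (k - j)‖)
            ≤ (2 * nk j * nk (k - j)) ^ m * ((nk (k - j) * ‖a j‖) * ‖w (k - j)‖) := by
              apply mul_le_mul e6 (mul_le_mul_of_nonneg_right e7 (norm_nonneg _))
                (mul_nonneg (norm_nonneg _) (norm_nonneg _))
              positivity
          _ = _ := by
              rw [mul_pow, mul_pow, pow_succ]
              ring
      calc nk k ^ m * ‖∑ j ∈ t, dot k (a j) • w (k - j)‖
          ≤ nk k ^ m * ∑ j ∈ t, ‖dot k (a j) • w (k - j)‖ :=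
            mul_le_mul_of_nonneg_left (norm_sum_le _ _) (pow_nonneg (nk_nonneg _) _)
        _ = ∑ j ∈ t, nk k ^ m * ‖dot k (a j) • w (k - j)‖ := Finset.mul_sum _ _ _
        _ ≤ ∑ j ∈ t, 2 ^ m * ((nk j ^ m * ‖a j‖) * (nk (k - j) ^ (m + 1) * ‖w (k - j)‖)) :=
            Finset.sum_le_sum e4
        _ = 2 ^ m * ∑ j ∈ t, (nk j ^ m * ‖a j‖) * (nk (k - j) ^ (m + 1) * ‖w (k - j)‖) :=
            (Finset.mul_sum _ _ _).symm
        _ ≤ _ := by
            apply mul_le_mul_of_nonneg_left _ (by positivity)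
            exact hs.sum_le_tsum t fun j _ => mul_nonneg (hα j) (hβ _)
    exact (mul_le_mul_of_nonneg_left e1 (pow_nonneg (nk_nonneg _) _)).trans e2
  calc ∑ k ∈ s, nk k ^ m * ‖Bk a w k‖
      ≤ ∑ k ∈ s, 2 ^ m * ∑' j, (nk j ^ m * ‖a j‖) * (nk (k - j) ^ (m + 1) * ‖w (k - j)‖) :=
        Finset.sum_le_sum fun k _ => hterm k
    _ = 2 ^ m * ∑ k ∈ s, ∑' j, (nk j ^ m * ‖a j‖) * (nk (k - j) ^ (m + 1) * ‖w (k - j)‖) :=
        (Finset.mul_sum _ _ _).symm
    _ ≤ 2 ^ m * (W m a * W (m + 1) w) := by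
        apply mul_le_mul_of_nonneg_left _ (by positivity)
        exact bkl_conv_le hα hβ h1 h2 s
    _ = _ := by ring

theorem bk_isV {a w : Sq d} (ha : IsV a) (hw : IsV w) (h1 : SW 1 a) (h2 : SW 2 w) :
    IsV (Bk a w) ∧ n1 (Bk a w) ≤ 2 * W 1 a * W 2 w := by
  have h := bk_SW ha hw h1 h2
  have h3 := isV_of_SW (bk_at_zero a w) (dot_bk a w) (bk_sy ha hw) h.1
  refine ⟨h3.1, h3.2.trans (h.2.trans (le_of_eq ?_))⟩
  rw [pow_one]

/-- `B(u + z) = B(u) + L_u z + B(z)` -/
theorem bk_expand {u z : Sq d} (hu : IsV u) (hz : IsV z) :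
    Bk (u + z) (u + z) = Bk u u + Lk u z + Bk z z := by
  rw [bk_add_left hu hz (hu.add hz), bk_add_right hu hu hz, bk_add_right hz hu hz]
  unfold Lk
  abel

theorem Lk_SW {a w : Sq d} (ha : IsV a) (hw : IsV w) {m : ℕ} (h1 : SW (m + 1) a)
    (h2 : SW (m + 1) w) :
    SW m (Lk a w) ∧ W m (Lk a w) ≤ 2 ^ (m + 1) * W (m + 1) a * W (m + 1) w := by
  have ha' := SW.mono h1 ha.zero (Nat.le_succ m)
  have hw' := SW.mono h2 hw.zero (Nat.le_succ m)
  have e1 := bk_SW ha hw ha'.1 h2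
  have e2 := bk_SW hw ha hw'.1 h1
  have e3 := SW.add e1.1 e2.1
  refine ⟨e3.1, e3.2.trans ?_⟩
  have p1 := W_nonneg m a
  have p2 := W_nonneg m w
  have p3 := W_nonneg (m + 1) a
  have p4 := W_nonneg (m + 1) w
  have f1 : 2 ^ m * W m a * W (m + 1) w ≤ 2 ^ m * (W (m + 1) a * W (m + 1) w) := by
    rw [mul_assoc]
    apply mul_le_mul_of_nonneg_left _ (by positivity)
    exact mul_le_mul_of_nonneg_right ha'.2 p4
  have f2 : 2 ^ m * W m w * W (m + 1) a ≤ 2 ^ m * (W (m + 1) w * W (m + 1) a) := by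
    rw [mul_assoc]
    apply mul_le_mul_of_nonneg_left _ (by positivity)
    exact mul_le_mul_of_nonneg_right hw'.2 p3
  calc W m (Bk a w) + W m (Bk w a) ≤ 2 ^ m * (W (m + 1) a * W (m + 1) w) +
        2 ^ m * (W (m + 1) w * W (m + 1) a) := add_le_add (e1.2.trans f1) (e2.2.trans f2)
    _ = _ := by
        rw [pow_succ]
        ring

theorem Lk_isV {a w : Sq d} (ha : IsV a) (hw : IsV w) (h1 : SW 2 a) (h2 : SW 2 w) :
    IsV (Lk a w) ∧ n1 (Lk a w) ≤ 4 * W 2 a * W 2 w := by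
  have ha' := SW.mono h1 ha.zero (Nat.le_succ 1)
  have hw' := SW.mono h2 hw.zero (Nat.le_succ 1)
  have hV : IsV (Lk a w) := (bk_isV ha hw ha'.1 h2).1.add (bk_isV hw ha hw'.1 h1).1
  have h3 := Lk_SW (m := 1) ha hw h1 h2
  refine ⟨hV, (n1_le_W hV h3.1).trans (h3.2.trans (le_of_eq ?_))⟩
  norm_num

theorem Lk_add_right {a w w' : Sq d} (ha : IsV a) (hw : IsV w) (hw' : IsV w') :
    Lk a (w + w') = Lk a w + Lk a w' := by
  unfold Lk
  rw [bk_add_right ha hw hw', bk_add_left hw hw' ha]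
  abel

theorem Lk_sub_right {a w w' : Sq d} (ha : IsV a) (hw : IsV w) (hw' : IsV w') :
    Lk a (w - w') = Lk a w - Lk a w' := by
  unfold Lk
  rw [bk_sub_right ha hw hw', bk_sub_left hw hw' ha]
  abel

theorem Lk_smul_right (t : ℝ) (a w : Sq d) : Lk a (t • w) = t • Lk a w := by
  unfold Lk
  rw [bk_smul_right, bk_smul_left, smul_add]

theorem Lk_smul_left (t : ℝ) (a w : Sq d) : Lk (t • a) w = t • Lk a w := by
  unfold Lk
  rw [bk_smul_right, bk_smul_left, smul_add]

theorem Lk_neg_left (a w : Sq d) : Lk (-a) w = -Lk a w := by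
  have h := Lk_smul_left (-1) a w
  simpa using h

theorem bkl_Lk_add_left {a a' w : Sq d} (ha : IsV a) (ha' : IsV a') (hw : IsV w) :
    Lk (a + a') w = Lk a w + Lk a' w := by
  unfold Lk
  rw [bk_add_left ha ha' hw, bk_add_right hw ha ha']
  abel

theorem Lk_sum_left {N : ℕ} {α : Fin N → ℝ} {a : Fin N → Sq d} {w : Sq d}
    (ha : ∀ j, IsV (a j)) (hw : IsV w) :
    Lk (∑ j, α j • a j) w = ∑ j, α j • Lk (a j) w := by
  classical
  have h : ∀ s : Finset (Fin N), Lk (∑ j ∈ s, α j • a j) w = ∑ j ∈ s, α j • Lk (a j) w := by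
    intro s
    induction s using Finset.induction_on with
    | empty =>
      rw [Finset.sum_empty, Finset.sum_empty]
      have := Lk_smul_left 0 (0 : Sq d) w
      simpa using this
    | insert j s hj ih =>
      rw [Finset.sum_insert hj, Finset.sum_insert hj,
        bkl_Lk_add_left ((ha j).smul _) (IsV.sum s _ fun i _ => (ha i).smul _) hw, ih,
        Lk_smul_left]
  exact h Finset.univ

theorem Mu_SW (ν : ℝ) (m : Fin d → ℝ) {u : Sq d} {l : ℕ} (h : SW (l + 2) u) :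
    SW l (Mu ν m u) ∧ W l (Mu ν m u) ≤ (|ν| + ∑ i, |m i|) * W (l + 2) u := by
  apply SW_of_bd
  intro s
  calc ∑ k ∈ s, nk k ^ l * ‖Mu ν m u k‖
      ≤ ∑ k ∈ s, (|ν| + ∑ i, |m i|) * (nk k ^ (l + 2) * ‖u k‖) := by
        apply Finset.sum_le_sum
        intro k _
        unfold Mu
        rw [norm_smul]
        calc nk k ^ l * (‖mu ν m k‖ * ‖u k‖)
            ≤ nk k ^ l * (((|ν| + ∑ i, |m i|) * nk k ^ 2) * ‖u k‖) := by
              apply mul_le_mul_of_nonneg_left _ (pow_nonneg (nk_nonneg _) _)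
              exact mul_le_mul_of_nonneg_right (norm_mu_le ν m k) (norm_nonneg _)
          _ = _ := by
              rw [pow_add]
              ring
    _ = (|ν| + ∑ i, |m i|) * ∑ k ∈ s, nk k ^ (l + 2) * ‖u k‖ := (Finset.mul_sum _ _ _).symm
    _ ≤ _ := by
        apply mul_le_mul_of_nonneg_left (sum_le_W h s)
        positivity

theorem Mu_isV (ν : ℝ) (m : Fin d → ℝ) {u : Sq d} (hu : IsV u) (h : SW 3 u) :
    IsV (Mu ν m u) ∧ n1 (Mu ν m u) ≤ (|ν| + ∑ i, |m i|) * W 3 u := by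
  have h1 := Mu_SW ν m (l := 1) h
  have h2 : IsV (Mu ν m u) ∧ n1 (Mu ν m u) ≤ W 1 (Mu ν m u) := by
    apply isV_of_SW _ _ _ h1.1
    · unfold Mu
      rw [hu.zero, smul_zero]
    · intro k
      unfold Mu
      rw [dot_smul, hu.dv, mul_zero]
    · intro k
      unfold Mu
      rw [mu_neg, hu.sy, cj_smul]
  exact ⟨h2.1, h2.2.trans h1.2⟩

theorem Mu_add (ν : ℝ) (m : Fin d → ℝ) (u v : Sq d) : Mu ν m (u + v) = Mu ν m u + Mu ν m v := by
  funext k
  unfold Mu
  simp only [Pi.add_apply, smul_add]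

theorem Mu_smul (ν : ℝ) (m : Fin d → ℝ) (t : ℝ) (u : Sq d) : Mu ν m (t • u) = t • Mu ν m u := by
  funext k
  unfold Mu
  simp only [Pi.smul_apply]
  rw [smul_comm]

theorem rap_Lk {a w : Sq d} (ha : IsV a) (hw : IsV w) (hra : Rap a) (hrw : Rap w) :
    Rap (Lk a w) ∧ IsV (Lk a w) :=
  ⟨fun m => (Lk_SW ha hw (hra (m + 1)) (hrw (m + 1))).1, (Lk_isV ha hw (hra 2) (hrw 2)).1⟩

theorem rap_bk {a w : Sq d} (ha : IsV a) (hw : IsV w) (hra : Rap a) (hrw : Rap w) :
    Rap (Bk a w) ∧ IsV (Bk a w) :=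
  ⟨fun m => (bk_SW ha hw (hra m) (hrw (m + 1))).1, (bk_isV ha hw (hra 1) (hrw 2)).1⟩

end NSC
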