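import Pool.Agent.Work.MP_57e339_an.BaseW

/-! Module BkT: summability and continuity of the bilinear term `Bk`. -/

open MeasureTheory Set Filter Topology
open scoped BigOperators
noncomputable section
namespace NSC
variable {d : ℕ}

theorem bkt_summable_shift {w : Sq d} (hw : IsV w) (k : K d) :
    Summable fun j => ‖w (k - j)‖ ^ 2 :=
  ((Equiv.subLeft k).summable_iff (f := fun j => ‖w j‖ ^ 2)).2 (summable_sq hw)

theorem bkt_norm_term (a w : Sq d) (k j : K d) :
    ‖dot k (a j) • w (k - j)‖ ≤ nk k * (‖a j‖ * ‖w (k - j)‖) := by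
  rw [norm_smul, ← mul_assoc]
  exact mul_le_mul_of_nonneg_right (norm_dot_le k (a j)) (norm_nonneg _)

theorem bkt_summable_prod {a w : Sq d} (ha : IsV a) (hw : IsV w) (k : K d) :
    Summable fun j => ‖a j‖ * ‖w (k - j)‖ := by
  refine Summable.of_nonneg_of_le (fun j => mul_nonneg (norm_nonneg _) (norm_nonneg _))
    (fun j => ?_) ((summable_sq ha).add (bkt_summable_shift hw k))
  nlinarith [sq_nonneg (‖a j‖ - ‖w (k - j)‖), sq_nonneg (‖a j‖), sq_nonneg (‖w (k - j)‖)]

theorem bk_summable {a w : Sq d} (ha : IsV a) (hw : IsV w) (k : K d) :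
    Summable fun j => dot k (a j) • w (k - j) :=
  Summable.of_norm_bounded ((bkt_summable_prod ha hw k).mul_left (nk k))
    (fun j => bkt_norm_term a w k j)

theorem bkt_cs {a w : Sq d} (hw : IsV w) (k : K d) (t : Finset (K d)) {B : ℝ} (hB : 0 ≤ B)
    (ht : ∑ j ∈ t, ‖a j‖ ^ 2 ≤ B ^ 2) :
    ∑ j ∈ t, ‖a j‖ * ‖w (k - j)‖ ≤ B * n1 w := by
  have h1 := Finset.sum_mul_sq_le_sq_mul_sq t (fun j => ‖a j‖) (fun j => ‖w (k - j)‖)
  have h2 : ∑ j ∈ t, ‖w (k - j)‖ ^ 2 ≤ n1 w ^ 2 := by
    refine ((bkt_summable_shift hw k).sum_le_tsum t fun j _ => sq_nonneg _).trans ?_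
    have h3 := (Equiv.subLeft k).tsum_eq (fun j => ‖w j‖ ^ 2)
    have h4 := tsum_sq_le hw
    rw [← h3] at h4
    exact h4
  apply le_of_sq_le_sq _ (mul_nonneg hB (n1_nonneg w))
  rw [mul_pow]
  exact h1.trans (mul_le_mul ht h2 (Finset.sum_nonneg fun j _ => sq_nonneg _) (sq_nonneg _))

theorem norm_bk_le {a w : Sq d} (ha : IsV a) (hw : IsV w) (k : K d) :
    ‖Bk a w k‖ ≤ nk k * n1 a * n1 w := by
  unfold Bk
  rw [norm_smul, Complex.norm_I, one_mul]
  refine (norm_Pk_le _ _).trans ?_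
  have h1 : ∀ t : Finset (K d), ‖∑ j ∈ t, dot k (a j) • w (k - j)‖ ≤ nk k * n1 a * n1 w := by
    intro t
    calc ‖∑ j ∈ t, dot k (a j) • w (k - j)‖ ≤ ∑ j ∈ t, nk k * (‖a j‖ * ‖w (k - j)‖) :=
          norm_sum_le_of_le _ fun j _ => bkt_norm_term a w k j
      _ = nk k * ∑ j ∈ t, ‖a j‖ * ‖w (k - j)‖ := (Finset.mul_sum _ _ _).symm
      _ ≤ nk k * (n1 a * n1 w) := by
          apply mul_le_mul_of_nonneg_left _ (nk_nonneg k)
          apply bkt_cs hw k t (n1_nonneg a)
          exact ((summable_sq ha).sum_le_tsum t fun j _ => sq_nonneg _).trans (tsum_sq_le ha)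
      _ = _ := by ring
  exact le_of_tendsto (bk_summable ha hw k).hasSum.norm (Eventually.of_forall h1)

/-- the low frequencies give the sum of the bilinear term, up to a small error -/
theorem bkt_tail {a w : Sq d} (ha : IsV a) (hw : IsV w) {A R : ℝ} (hA : 0 ≤ A)
    (haA : n1 a ≤ A) (hwA : n1 w ≤ A) (hR : 0 < R) (k : K d) :
    ‖(∑' j, dot k (a j) • w (k - j)) -
      ∑ j ∈ (finite_bx (d := d) R).toFinset, dot k (a j) • w (k - j)‖ ≤ nk k * (A / R * A) := by
  classical
  set Λ := (finite_bx (d := d) R).toFinset with hΛ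
  have h1 : ∀ t : Finset (K d), Λ ≤ t →
      ‖(∑ j ∈ t, dot k (a j) • w (k - j)) - ∑ j ∈ Λ, dot k (a j) • w (k - j)‖ ≤
        nk k * (A / R * A) := by
    intro t ht
    rw [← Finset.sum_sdiff ht, add_sub_cancel_right]
    calc ‖∑ j ∈ t \ Λ, dot k (a j) • w (k - j)‖ ≤ ∑ j ∈ t \ Λ, nk k * (‖a j‖ * ‖w (k - j)‖) :=
          norm_sum_le_of_le _ fun j _ => bkt_norm_term a w k j
      _ = nk k * ∑ j ∈ t \ Λ, ‖a j‖ * ‖w (k - j)‖ := (Finset.mul_sum _ _ _).symm
      _ ≤ nk k * (A / R * n1 w) := by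
          apply mul_le_mul_of_nonneg_left _ (nk_nonneg k)
          apply bkt_cs hw k (t \ Λ) (by positivity)
          have h2 : ∀ j ∈ t \ Λ, ‖a j‖ ^ 2 ≤ (1 / R ^ 2) * (nk j ^ 2 * ‖a j‖ ^ 2) := by
            intro j hj
            by_cases hj0 : j = 0
            · subst hj0
              rw [ha.zero, norm_zero]
              norm_num
            · have h3 : R < nk j := by
                by_contra hcon
                apply (Finset.mem_sdiff.1 hj).2
                rw [hΛ, Set.Finite.mem_toFinset]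
                exact ⟨hj0, not_lt.1 hcon⟩
              have h4 : R ^ 2 ≤ nk j ^ 2 := pow_le_pow_left₀ hR.le h3.le 2
              rw [← mul_assoc]
              apply le_mul_of_one_le_left (sq_nonneg _)
              rw [one_div, ← div_eq_inv_mul, one_le_div (by positivity)]
              exact h4
          calc ∑ j ∈ t \ Λ, ‖a j‖ ^ 2 ≤ ∑ j ∈ t \ Λ, (1 / R ^ 2) * (nk j ^ 2 * ‖a j‖ ^ 2) :=
                Finset.sum_le_sum h2
            _ = (1 / R ^ 2) * ∑ j ∈ t \ Λ, nk j ^ 2 * ‖a j‖ ^ 2 := (Finset.mul_sum _ _ _).symm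
            _ ≤ (1 / R ^ 2) * A ^ 2 := by
                apply mul_le_mul_of_nonneg_left _ (by positivity)
                exact (sum_le_n1_sq ha _).trans (pow_le_pow_left₀ (n1_nonneg a) haA 2)
            _ = (A / R) ^ 2 := by
                rw [div_pow]
                ring
      _ ≤ nk k * (A / R * A) := by
          apply mul_le_mul_of_nonneg_left _ (nk_nonneg k)
          exact mul_le_mul_of_nonneg_left hwA (by positivity)
  have h2 : Tendsto (fun t : Finset (K d) => ‖(∑ j ∈ t, dot k (a j) • w (k - j)) -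
      ∑ j ∈ Λ, dot k (a j) • w (k - j)‖) atTop
      (𝓝 ‖(∑' j, dot k (a j) • w (k - j)) - ∑ j ∈ Λ, dot k (a j) • w (k - j)‖) :=
    ((bk_summable ha hw k).hasSum.sub_const _).norm
  exact le_of_tendsto h2 ((eventually_ge_atTop Λ).mono h1)

/-- coefficientwise continuity of `Bk` on bounded sets of `V` -/
theorem bk_tendsto {ι : Type} {l : Filter ι} [l.NeBot] {a w : ι → Sq d} {a' w' : Sq d} {A : ℝ}
    (ha : ∀ᶠ n in l, IsV (a n) ∧ n1 (a n) ≤ A) (hw : ∀ᶠ n in l, IsV (w n) ∧ n1 (w n) ≤ A)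
    (ha' : ∀ k, Tendsto (fun n => a n k) l (𝓝 (a' k)))
    (hw' : ∀ k, Tendsto (fun n => w n k) l (𝓝 (w' k))) (k : K d) :
    Tendsto (fun n => Bk (a n) (w n) k) l (𝓝 (Bk a' w' k)) := by
  have hA : 0 ≤ A := by
    obtain ⟨n, hn⟩ := ha.exists
    exact (n1_nonneg _).trans hn.2
  have hav := isV_of_tendsto hA ha ha'
  have hwv := isV_of_tendsto hA hw hw'
  have hmain : Tendsto (fun n => ∑' j, dot k (a n j) • w n (k - j)) l
      (𝓝 (∑' j, dot k (a' j) • w' (k - j))) := by
    rw [Metric.tendsto_nhds]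
    intro ε hε
    obtain ⟨R, hR0, hR⟩ : ∃ R : ℝ, 0 < R ∧ nk k * (A / R * A) < ε / 3 := by
      refine ⟨3 * (nk k * A * A + 1) / ε, ?_, ?_⟩
      · have := nk_nonneg k
        positivity
      · have := nk_nonneg k
        have hp : 0 < nk k * A * A + 1 := by positivity
        have e : nk k * (A / (3 * (nk k * A * A + 1) / ε) * A) =
            ε / 3 * (nk k * A * A / (nk k * A * A + 1)) := by
          field_simp
        rw [e]
        have : nk k * A * A / (nk k * A * A + 1) < 1 := by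
          rw [div_lt_one hp]
          linarith
        nlinarith
    have hfin : Tendsto (fun n => ∑ j ∈ (finite_bx (d := d) R).toFinset,
        dot k (a n j) • w n (k - j)) l
        (𝓝 (∑ j ∈ (finite_bx (d := d) R).toFinset, dot k (a' j) • w' (k - j))) := by
      apply tendsto_finsetSum
      intro j _
      exact (((continuous_dot k).tendsto _).comp (ha' j)).smul (hw' (k - j))
    rw [Metric.tendsto_nhds] at hfin
    filter_upwards [hfin (ε / 3) (by positivity), ha, hw] with n h1 h2 h3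
    have h4 := bkt_tail h2.1 h3.1 hA h2.2 h3.2 hR0 k
    have h5 := bkt_tail hav.1 hwv.1 hA hav.2 hwv.2 hR0 k
    rw [← dist_eq_norm] at h4 h5
    calc dist (∑' j, dot k (a n j) • w n (k - j)) (∑' j, dot k (a' j) • w' (k - j))
        ≤ dist (∑' j, dot k (a n j) • w n (k - j))
            (∑ j ∈ (finite_bx (d := d) R).toFinset, dot k (a n j) • w n (k - j)) +
          dist (∑ j ∈ (finite_bx (d := d) R).toFinset, dot k (a n j) • w n (k - j))
            (∑ j ∈ (finite_bx (d := d) R).toFinset, dot k (a' j) • w' (k - j)) +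
          dist (∑ j ∈ (finite_bx (d := d) R).toFinset, dot k (a' j) • w' (k - j))
            (∑' j, dot k (a' j) • w' (k - j)) := dist_triangle4 _ _ _ _
      _ < ε / 3 + ε / 3 + ε / 3 := by
          rw [dist_comm (∑ j ∈ (finite_bx (d := d) R).toFinset, dot k (a' j) • w' (k - j))]
          linarith
      _ = ε := by ring
  unfold Bk
  exact (((continuous_Pk k).tendsto _).comp hmain).const_smul _

theorem bk_continuousOn {T A : ℝ} {a w : ℝ → Sq d}
    (ha : ∀ t ∈ Icc 0 T, IsV (a t) ∧ n1 (a t) ≤ A) (hw : ∀ t ∈ Icc 0 T, IsV (w t) ∧ n1 (w t) ≤ A)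
    (ha' : ∀ k, ContinuousOn (fun t => a t k) (Icc 0 T))
    (hw' : ∀ k, ContinuousOn (fun t => w t k) (Icc 0 T)) (k : K d) :
    ContinuousOn (fun t => Bk (a t) (w t) k) (Icc 0 T) := by
  intro t ht
  have : (𝓝[Icc 0 T] t).NeBot := mem_closure_iff_nhdsWithin_neBot.1 (subset_closure ht)
  exact bk_tendsto (eventually_nhdsWithin_of_forall ha) (eventually_nhdsWithin_of_forall hw)
    (fun k => ha' k t ht) (fun k => hw' k t ht) k

end NSC
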