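import Pool.Agent.Work.MP_57e339_an.Four
import Pool.Agent.Work.MP_57e339_an.BkB

/-! Module PrB: the Leray projection `pr` of compactly supported fields. -/

open MeasureTheory Set Filter Topology
open scoped BigOperators
noncomputable section
namespace NSC
variable {d : ℕ}

/-- translate of a field -/
def trl (y : Rv d) (β : VF d) : VF d := fun i x => β i (x - y)

theorem prb_compact_trl {f : Rv d → ℝ} (h : HasCompactSupport f) (y : Rv d) :
    HasCompactSupport fun x => f (x - y) :=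
  h.comp_homeomorph (Homeomorph.subRight y)

theorem TFN.trl {N : ℕ} {β : VF d} (h : TFN N β) (y : Rv d) : TFN N (trl y β) := by
  intro i
  exact ⟨(h i).1.comp (contDiff_id.sub contDiff_const), prb_compact_trl (h i).2 y⟩

theorem TF.trl {β : VF d} (h : TF β) (y : Rv d) : TF (trl y β) := by
  intro i
  exact ⟨(h i).1.comp (contDiff_id.sub contDiff_const), prb_compact_trl (h i).2 y⟩

theorem prb_integrable {N : ℕ} {β : VF d} (hβ : TFN N β) (i : Fin d) : Integrable (β i) :=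
  (hβ i).1.continuous.integrable_of_hasCompactSupport (hβ i).2

theorem pr_add {β γ : VF d} (hβ : TFN 0 β) (hγ : TFN 0 γ) :
    pr (fun i x => β i x + γ i x) = pr β + pr γ := by
  funext k
  have h : fcv (fun i x => β i x + γ i x) k = fcv β k + fcv γ k := by
    ext i
    simp only [fcv, PiLp.add_apply]
    exact fc_add (prb_integrable hβ i) (prb_integrable hγ i) k
  simp only [pr, Pi.add_apply]
  rw [h, Pk_add]

theorem pr_sub {β γ : VF d} (hβ : TFN 0 β) (hγ : TFN 0 γ) :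
    pr (fun i x => β i x - γ i x) = pr β - pr γ := by
  funext k
  have h : fcv (fun i x => β i x - γ i x) k = fcv β k - fcv γ k := by
    ext i
    simp only [fcv, PiLp.sub_apply]
    exact fc_sub (prb_integrable hβ i) (prb_integrable hγ i) k
  simp only [pr, Pi.sub_apply]
  rw [h, Pk_sub]

theorem pr_smul (β : VF d) (c : ℝ) : pr (fun i x => c * β i x) = c • pr β := by
  funext k
  have h : fcv (fun i x => c * β i x) k = c • fcv β k := by
    ext i
    simp only [fcv, PiLp.smul_apply, Complex.real_smul]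
    exact fc_const_mul (β i) c k
  simp only [pr, Pi.smul_apply]
  rw [h, Pk_rsmul]

theorem pr_sum {ι : Type} (s : Finset ι) {β : ι → VF d} (hβ : ∀ j ∈ s, TFN 0 (β j)) :
    pr (fun i x => ∑ j ∈ s, β j i x) = ∑ j ∈ s, pr (β j) := by
  funext k
  have h : fcv (fun i x => ∑ j ∈ s, β j i x) k = ∑ j ∈ s, fcv (β j) k := by
    ext i
    have h1 := fc_sum s (f := fun j => β j i) (fun j hj => prb_integrable (hβ j hj) i) k
    simp only [fcv]
    rw [h1]
    simp
  simp only [pr, Finset.sum_apply]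
  rw [h, Pk_sum]

theorem prb_norm_fcv_le (β : VF d) (k : K d) : ‖fcv β k‖ ≤ ∑ i, ‖fc (β i) k‖ := by
  classical
  have h1 : fcv β k = ∑ i, EuclideanSpace.single i (fc (β i) k) := by
    ext j
    simp [fcv]
  rw [h1]
  refine (norm_sum_le _ _).trans (le_of_eq ?_)
  apply Finset.sum_congr rfl
  intro i _
  simp

/-- decay of the coefficients of `pr β` -/
theorem prb_decay (d N : ℕ) (R : ℝ) : ∃ C : ℝ, 0 ≤ C ∧ ∀ (β : VF d) (A : ℝ), TFN N β →
    Su β (Metric.closedBall 0 R) → (∀ i, Nb N A (β i)) → ∀ k : K d,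
    nk k ^ N * ‖pr β k‖ ≤ C * A := by
  obtain ⟨C, hC, h⟩ := fc_decay d N R
  refine ⟨d * C, by positivity, ?_⟩
  intro β A hβ hs hA k
  have h1 : ‖pr β k‖ ≤ ∑ i, ‖fc (β i) k‖ := (norm_Pk_le _ _).trans (prb_norm_fcv_le β k)
  calc nk k ^ N * ‖pr β k‖ ≤ nk k ^ N * ∑ i, ‖fc (β i) k‖ :=
        mul_le_mul_of_nonneg_left h1 (pow_nonneg (nk_nonneg k) N)
    _ = ∑ i, nk k ^ N * ‖fc (β i) k‖ := Finset.mul_sum _ _ _
    _ ≤ ∑ _i : Fin d, C * A := by
        apply Finset.sum_le_sum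
        intro i _
        exact h (β i) A (hβ i).1 (hs i) (hA i) k
    _ = _ := by simp [mul_assoc]

theorem prb_data {N : ℕ} {β : VF d} (hβ : TFN N β) :
    ∃ R A : ℝ, Su β (Metric.closedBall 0 R) ∧ ∀ i, Nb N A (β i) := by
  have h1 : ∀ i, ∃ R : ℝ, tsupport (β i) ⊆ Metric.closedBall 0 R := fun i =>
    (hβ i).2.isCompact.isBounded.subset_closedBall 0
  have h2 : ∀ i, ∃ A, Nb N A (β i) := fun i => nb_exists (hβ i).1 (hβ i).2
  choose R hR using h1
  choose A hA using h2
  refine ⟨∑ i, |R i|, ∑ i, |A i|, ?_, ?_⟩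
  · intro i
    refine (hR i).trans (Metric.closedBall_subset_closedBall ?_)
    exact (le_abs_self _).trans
      (Finset.single_le_sum (f := fun i => |R i|) (fun j _ => abs_nonneg _) (Finset.mem_univ i))
  · intro i
    apply (hA i).mono
    exact (le_abs_self _).trans
      (Finset.single_le_sum (f := fun i => |A i|) (fun j _ => abs_nonneg _) (Finset.mem_univ i))

theorem prb_zero (β : VF d) : pr β 0 = 0 := Pk_zero_left _

theorem prb_sy (β : VF d) (k : K d) : pr β (-k) = cj (pr β k) := by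
  have h : fcv β (-k) = cj (fcv β k) := by
    ext i
    simp only [fcv, cj]
    exact fc_neg_index (β i) k
  simp only [pr]
  rw [h, Pk_neg_cj]

theorem prb_dv (β : VF d) (k : K d) : dot k (pr β k) = 0 := dot_Pk _ _

/-- weighted bound `nk^m ‖u‖ ≤ B nk^{-4}` -/
theorem prb_SW (hd : d = 2 ∨ d = 3) {m : ℕ} {u : Sq d} {B : ℝ} (h0 : u 0 = 0)
    (h : ∀ k, nk k ^ (m + 4) * ‖u k‖ ≤ B) :
    SW m u ∧ W m u ≤ B * ∑' k : K d, (nk k ^ 4)⁻¹ := by
  have hle : ∀ k, nk k ^ m * ‖u k‖ ≤ B * (nk k ^ 4)⁻¹ := by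
    intro k
    by_cases hk : k = 0
    · rw [hk, h0, norm_zero, mul_zero, nk_zero]
      simp
    · have h1 : 0 < nk k ^ 4 := pow_pos (lt_of_lt_of_le one_pos (one_le_nk hk)) 4
      have h2 := h k
      rw [← div_eq_mul_inv, le_div_iff₀ h1]
      calc nk k ^ m * ‖u k‖ * nk k ^ 4 = nk k ^ (m + 4) * ‖u k‖ := by ring
        _ ≤ B := h2
  have hs4 := summable_nk4 hd
  have hs : Summable fun k => nk k ^ m * ‖u k‖ :=
    Summable.of_nonneg_of_le
      (fun k => mul_nonneg (pow_nonneg (nk_nonneg k) m) (norm_nonneg _)) hle (hs4.mul_left B)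
  refine ⟨hs, ?_⟩
  calc W m u = ∑' k, nk k ^ m * ‖u k‖ := rfl
    _ ≤ ∑' k : K d, B * (nk k ^ 4)⁻¹ := hs.tsum_le_tsum hle (hs4.mul_left B)
    _ = _ := tsum_mul_left

theorem prb_isV (hd : d = 2 ∨ d = 3) {u : Sq d} {B : ℝ} (h0 : u 0 = 0)
    (hdv : ∀ k, dot k (u k) = 0) (hsy : ∀ k, u (-k) = cj (u k)) (hB : 0 ≤ B)
    (h : ∀ k, nk k ^ 3 * ‖u k‖ ≤ B) :
    IsV u ∧ n1 u ≤ B * Real.sqrt (∑' k : K d, (nk k ^ 4)⁻¹) := by
  have hS : 0 ≤ ∑' k : K d, (nk k ^ 4)⁻¹ :=
    tsum_nonneg fun k => inv_nonneg.2 (pow_nonneg (nk_nonneg k) 4)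
  apply isV_of_bd h0 hdv hsy (by positivity)
  intro s
  rw [mul_pow, Real.sq_sqrt hS]
  have hle : ∀ k, nk k ^ 2 * ‖u k‖ ^ 2 ≤ B ^ 2 * (nk k ^ 4)⁻¹ := by
    intro k
    by_cases hk : k = 0
    · rw [hk, h0, norm_zero, nk_zero]
      simp
    · have h1 : 0 < nk k ^ 4 := pow_pos (lt_of_lt_of_le one_pos (one_le_nk hk)) 4
      have h3 : 0 ≤ nk k ^ 3 * ‖u k‖ := mul_nonneg (pow_nonneg (nk_nonneg k) 3) (norm_nonneg _)
      have h2 : (nk k ^ 3 * ‖u k‖) ^ 2 ≤ B ^ 2 := pow_le_pow_left₀ h3 (h k) 2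
      rw [← div_eq_mul_inv, le_div_iff₀ h1]
      calc nk k ^ 2 * ‖u k‖ ^ 2 * nk k ^ 4 = (nk k ^ 3 * ‖u k‖) ^ 2 := by ring
        _ ≤ B ^ 2 := h2
  calc ∑ k ∈ s, nk k ^ 2 * ‖u k‖ ^ 2 ≤ ∑ k ∈ s, B ^ 2 * (nk k ^ 4)⁻¹ :=
        Finset.sum_le_sum fun k _ => hle k
    _ = B ^ 2 * ∑ k ∈ s, (nk k ^ 4)⁻¹ := (Finset.mul_sum _ _ _).symm
    _ ≤ B ^ 2 * ∑' k : K d, (nk k ^ 4)⁻¹ := by
        apply mul_le_mul_of_nonneg_left _ (sq_nonneg B)
        exact (summable_nk4 hd).sum_le_tsum s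
          fun k _ => inv_nonneg.2 (pow_nonneg (nk_nonneg k) 4)

theorem prb_nb_nonneg (hd : d = 2 ∨ d = 3) {N : ℕ} {β : VF d} {A : ℝ} (h : ∀ i, Nb N A (β i)) :
    0 ≤ A := by
  have hd' : 0 < d := by omega
  exact (h ⟨0, hd'⟩).nonneg

theorem pr_isV (hd : d = 2 ∨ d = 3) {β : VF d} (hβ : TFN 3 β) : IsV (pr β) := by
  obtain ⟨R, A, hs, hA⟩ := prb_data hβ
  obtain ⟨C, hC, h⟩ := prb_decay d 3 R
  have hA0 := prb_nb_nonneg hd hA
  exact (prb_isV hd (prb_zero β) (prb_dv β) (prb_sy β) (by positivity) (h β A hβ hs hA)).1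

theorem pr_rap (hd : d = 2 ∨ d = 3) {β : VF d} (hβ : TF β) : Rap (pr β) ∧ IsV (pr β) := by
  refine ⟨?_, pr_isV hd (hβ.tfn 3)⟩
  intro m
  obtain ⟨R, A, hs, hA⟩ := prb_data (hβ.tfn (m + 4))
  obtain ⟨C, hC, h⟩ := prb_decay d (m + 4) R
  exact (prb_SW hd (prb_zero β) (h β A (hβ.tfn (m + 4)) hs hA)).1

theorem pr_SW4 (hd : d = 2 ∨ d = 3) {β : VF d} (hβ : TFN 8 β) : SW 4 (pr β) := by
  obtain ⟨R, A, hs, hA⟩ := prb_data hβ
  obtain ⟨C, hC, h⟩ := prb_decay d 8 R
  exact (prb_SW hd (m := 4) (prb_zero β) (h β A hβ hs hA)).1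

theorem pr_W_le (hd : d = 2 ∨ d = 3) (R : ℝ) : ∃ C : ℝ, 0 ≤ C ∧ ∀ (β : VF d) (A : ℝ), TFN 8 β →
    Su β (Metric.closedBall 0 R) → (∀ i, Nb 8 A (β i)) → W 4 (pr β) ≤ C * A := by
  obtain ⟨C, hC, h⟩ := prb_decay d 8 R
  have hS : 0 ≤ ∑' k : K d, (nk k ^ 4)⁻¹ :=
    tsum_nonneg fun k => inv_nonneg.2 (pow_nonneg (nk_nonneg k) 4)
  refine ⟨C * ∑' k : K d, (nk k ^ 4)⁻¹, by positivity, ?_⟩
  intro β A hβ hs hA
  have h1 := (prb_SW hd (m := 4) (prb_zero β) (h β A hβ hs hA)).2
  calc W 4 (pr β) ≤ _ := h1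
    _ = _ := by ring

theorem pr_n1_le (hd : d = 2 ∨ d = 3) (R : ℝ) : ∃ C : ℝ, 0 ≤ C ∧ ∀ (β : VF d) (A : ℝ), TFN 3 β →
    Su β (Metric.closedBall 0 R) → (∀ i, Nb 3 A (β i)) → n1 (pr β) ≤ C * A := by
  obtain ⟨C, hC, h⟩ := prb_decay d 3 R
  refine ⟨C * Real.sqrt (∑' k : K d, (nk k ^ 4)⁻¹), by positivity, ?_⟩
  intro β A hβ hs hA
  have hA0 := prb_nb_nonneg hd hA
  have h1 := (prb_isV hd (prb_zero β) (prb_dv β) (prb_sy β) (by positivity) (h β A hβ hs hA)).2
  calc n1 (pr β) ≤ _ := h1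
    _ = _ := by ring

/-- `pr` vanishes on fields with symmetric derivative -/
theorem pr_curlfree {β : VF d} (hβ : TFN 1 β)
    (h : ∀ i j x, pd j (β i) x = pd i (β j) x) : pr β = 0 := by
  funext k
  by_cases hk : k = 0
  · rw [hk, prb_zero]
    rfl
  · have h1 : ∀ i j : Fin d, (k j : ℂ) * fc (β i) k = (k i : ℂ) * fc (β j) k := by
      intro i j
      have h2 := fc_pd (hβ i).1 (hβ i).2 j k
      have h3 := fc_pd (hβ j).1 (hβ j).2 i k
      have h4 : pd j (β i) = pd i (β j) := by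
        funext x
        exact h i j x
      rw [h4, h3, mul_assoc, mul_assoc] at h2
      exact (mul_left_cancel₀ Complex.I_ne_zero h2).symm
    have hn : (nk k : ℂ) ^ 2 ≠ 0 := by
      apply pow_ne_zero
      have h5 := one_le_nk hk
      have h6 : nk k ≠ 0 := by linarith
      exact_mod_cast h6
    have h7 : ∀ i, (nk k : ℂ) ^ 2 * fc (β i) k = dot k (fcv β k) * (k i : ℂ) := by
      intro i
      have h8 : ((nk k : ℂ)) ^ 2 = ∑ j, (k j : ℂ) ^ 2 := by
        have h9 : ((nk k : ℂ)) ^ 2 = ((nk k ^ 2 : ℝ) : ℂ) := by push_cast; rfl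
        rw [h9, nk_sq]
        push_cast
        rfl
      rw [h8]
      simp only [dot, fcv]
      rw [Finset.sum_mul, Finset.sum_mul]
      apply Finset.sum_congr rfl
      intro j _
      have h10 := h1 i j
      calc (k j : ℂ) ^ 2 * fc (β i) k = (k j : ℂ) * ((k j : ℂ) * fc (β i) k) := by ring
        _ = (k j : ℂ) * ((k i : ℂ) * fc (β j) k) := by rw [h10]
        _ = _ := by ring
    show Pk k (fcv β k) = 0
    unfold Pk
    rw [if_neg hk]
    ext i
    simp only [PiLp.sub_apply, PiLp.smul_apply, smul_eq_mul, kv, PiLp.zero_apply]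
    have h11 := h7 i
    have h12 : (fcv β k) i = fc (β i) k := rfl
    rw [h12, sub_eq_zero, div_mul_eq_mul_div, eq_div_iff hn, mul_comm]
    exact h11

theorem pr_grad {φ : Rv d → ℝ} (hφ : ContDiff ℝ 2 φ) (hc : HasCompactSupport φ) :
    pr (fun i => pd i φ) = 0 := by
  apply pr_curlfree
  · intro i
    refine ⟨?_, ?_⟩
    · have := contDiff_pd (N := 1) (f := φ) (by simpa [one_add_one_eq_two] using hφ) i
      simpa using this
    · exact hc.of_isClosed_subset (isClosed_tsupport _) (tsupport_pd_subset φ i)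
  · intro i j x
    rw [pd_comm hφ]

theorem pr_trl (β : VF d) (y : Rv d) (k : K d) :
    pr (trl y β) k = Complex.exp (-(Complex.I * (kx k y : ℂ))) • pr β k := by
  have h : fcv (trl y β) k = Complex.exp (-(Complex.I * (kx k y : ℂ))) • fcv β k := by
    ext i
    simp only [fcv, PiLp.smul_apply, smul_eq_mul]
    exact fc_trans (β i) y k
  simp only [pr]
  rw [h, Pk_smul]

/-- a compactly supported divergence free field has mean zero -/
theorem prb_int_dfree {β : VF d} (hβ : TFN 1 β) (hdiv : Dfree β) (i : Fin d) :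
    ∫ x, β i x = 0 := by
  classical
  have hcont : ∀ j, Continuous (pd j (β j)) := fun j =>
    (contDiff_pd (N := 0) (by simpa using (hβ j).1) j).continuous
  have hcomp : ∀ j, HasCompactSupport (pd j (β j)) := fun j =>
    (hβ j).2.of_isClosed_subset (isClosed_tsupport _) (tsupport_pd_subset _ j)
  have hco : Continuous fun x : Rv d => x i := by fun_prop
  have h1 : ∀ j, ∫ x : Rv d, x i * pd j (β j) x = -∫ x : Rv d, (if j = i then 1 else 0) * β j x := by
    intro j
    have hd1 : ∀ x : Rv d, fderiv ℝ (fun x : Rv d => x i) x (ev j) = if j = i then 1 else 0 := by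
      intro x
      exact pd_coord j i x
    have h := integral_mul_fderiv_eq_neg_fderiv_mul_of_integrable
      (μ := (volume : Measure (Rv d))) (v := ev j) (f := fun x : Rv d => x i) (g := β j)
      (by
        simp only [hd1]
        exact (prb_integrable hβ j).const_mul _)
      (by
        have hc : HasCompactSupport fun x : Rv d => x i * pd j (β j) x := (hcomp j).mul_left
        exact (hco.mul (hcont j)).integrable_of_hasCompactSupport hc)
      (by
        have hc : HasCompactSupport fun x : Rv d => x i * β j x := (hβ j).2.mul_left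
        exact (hco.mul (hβ j).1.continuous).integrable_of_hasCompactSupport hc)
      (fun x _ => by fun_prop)
      (fun x _ => (hβ j).1.differentiable (by norm_num) x)
    simp only [hd1] at h
    exact h
  have h2 : ∑ j, ∫ x : Rv d, x i * pd j (β j) x = 0 := by
    rw [← integral_finsetSum]
    · have : (fun x : Rv d => ∑ j, x i * pd j (β j) x) = fun _ => 0 := by
        funext x
        rw [← Finset.mul_sum, hdiv x, mul_zero]
      rw [this]
      simp
    · intro j _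
      have hc : HasCompactSupport fun x : Rv d => x i * pd j (β j) x := (hcomp j).mul_left
      exact (hco.mul (hcont j)).integrable_of_hasCompactSupport hc
  simp only [h1] at h2
  have h3 : ∑ j, -∫ x : Rv d, (if j = i then (1 : ℝ) else 0) * β j x = -∫ x, β i x := by
    rw [Finset.sum_eq_single i]
    · simp
    · intro j _ hj
      simp [hj]
    · intro h
      exact absurd (Finset.mem_univ i) h
  rw [h3] at h2
  linarith

/-- divergence free fields: no projection needed -/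
theorem pr_of_dfree {β : VF d} (hβ : TFN 1 β) (hdiv : Dfree β) (k : K d) :
    pr β k = fcv β k := by
  by_cases hk : k = 0
  · subst hk
    rw [prb_zero]
    ext i
    simp only [fcv, PiLp.zero_apply]
    rw [fc_zero_index, prb_int_dfree hβ hdiv i]
    simp
  · apply Pk_of_dot hk
    have hcont : ∀ j, Continuous (pd j (β j)) := fun j =>
      (contDiff_pd (N := 0) (by simpa using (hβ j).1) j).continuous
    have hcomp : ∀ j, HasCompactSupport (pd j (β j)) := fun j =>
      (hβ j).2.of_isClosed_subset (isClosed_tsupport _) (tsupport_pd_subset _ j)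
    have h1 : fc (fun x => ∑ j, pd j (β j) x) k = ∑ j, fc (pd j (β j)) k :=
      fc_sum Finset.univ (fun j _ => (hcont j).integrable_of_hasCompactSupport (hcomp j)) k
    have h2 : (fun x => ∑ j, pd j (β j) x) = fun _ : Rv d => (0 : ℝ) := by
      funext x
      exact hdiv x
    have h3 : fc (fun _ : Rv d => (0 : ℝ)) k = 0 := by simp [fc]
    rw [h2, h3] at h1
    have h4 : ∀ j, fc (pd j (β j)) k = Complex.I * ((k j : ℂ) * fc (β j) k) := by
      intro j
      rw [fc_pd (hβ j).1 (hβ j).2, mul_assoc]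
    simp only [h4] at h1
    rw [← Finset.mul_sum] at h1
    have h5 := (mul_eq_zero.1 h1.symm).resolve_left Complex.I_ne_zero
    exact h5

end NSC
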