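import Pool.Agent.Work.MP_57e339_an.Ser
import Pool.Agent.Work.MP_57e339_an.PrB

/-! Module Box: finitely supported elements of `V` are projections of test fields. -/

open MeasureTheory Set Filter Topology
open scoped BigOperators
noncomputable section
namespace NSC
variable {d : ℕ}

private def box1 (u : ℝ) : ℝ :=
  Real.smoothTransition u - Real.smoothTransition (u - 2 * Real.pi)

private theorem box1_smooth : ContDiff ℝ (⊤ : ℕ∞) box1 :=
  Real.smoothTransition.contDiff.sub
    (Real.smoothTransition.contDiff.comp (contDiff_id.sub contDiff_const))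

private theorem box1_nonneg (u : ℝ) : 0 ≤ box1 u := by
  unfold box1
  have := Real.smoothTransition.monotone (show u - 2 * Real.pi ≤ u by linarith [Real.pi_pos])
  linarith

private theorem box1_zero {u : ℝ} (h : 2 * Real.pi + 1 < |u|) : box1 u = 0 := by
  unfold box1
  have hpi := Real.pi_pos
  rcases lt_or_ge u 0 with hu | hu
  · rw [Real.smoothTransition.zero_of_nonpos hu.le,
      Real.smoothTransition.zero_of_nonpos (by linarith), sub_zero]
  · rw [abs_of_nonneg hu] at h
    rw [Real.smoothTransition.one_of_one_le (by linarith),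
      Real.smoothTransition.one_of_one_le (by linarith), sub_self]

private theorem box1_one : box1 1 = 1 := by
  unfold box1
  rw [Real.smoothTransition.one_of_one_le le_rfl,
    Real.smoothTransition.zero_of_nonpos (by linarith [Real.pi_gt_three]), sub_zero]

private theorem box1_deriv (u : ℝ) : deriv box1 u =
    deriv Real.smoothTransition u - deriv Real.smoothTransition (u - 2 * Real.pi) := by
  have h1 : DifferentiableAt ℝ Real.smoothTransition u :=
    (Real.smoothTransition.contDiff (n := 1)).differentiable (by norm_num) u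
  have h2 : DifferentiableAt ℝ Real.smoothTransition (u - 2 * Real.pi) :=
    (Real.smoothTransition.contDiff (n := 1)).differentiable (by norm_num) _
  have h3 : HasDerivAt (fun v => Real.smoothTransition (v - 2 * Real.pi))
      (deriv Real.smoothTransition (u - 2 * Real.pi)) u := by
    exact HasDerivAt.comp_sub_const u (2 * Real.pi) h2.hasDerivAt
  exact (h1.hasDerivAt.sub h3).deriv

private theorem box_dst_zero {u : ℝ} (h : 1 < |u|) : deriv Real.smoothTransition u = 0 := by
  rcases lt_or_ge u 0 with hu | hu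
  · have : Real.smoothTransition =ᶠ[𝓝 u] fun _ => 0 := by
      filter_upwards [Iio_mem_nhds hu] with v hv
      exact Real.smoothTransition.zero_of_nonpos (le_of_lt hv)
    rw [this.deriv_eq, deriv_const]
  · rw [abs_of_nonneg hu] at h
    have : Real.smoothTransition =ᶠ[𝓝 u] fun _ => 1 := by
      filter_upwards [Ioi_mem_nhds h] with v hv
      exact Real.smoothTransition.one_of_one_le (le_of_lt hv)
    rw [this.deriv_eq, deriv_const]

private theorem box_norm_le {x : Rv d} {c : ℝ} (hc : 0 ≤ c) (h : ∀ j, |x j| ≤ c) :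
    ‖x‖ ≤ Real.sqrt (d * c ^ 2) := by
  rw [EuclideanSpace.norm_eq]
  apply Real.sqrt_le_sqrt
  calc ∑ j, ‖x j‖ ^ 2 ≤ ∑ _j : Fin d, c ^ 2 := by
        refine Finset.sum_le_sum fun j _ => ?_
        rw [Real.norm_eq_abs]
        exact pow_le_pow_left₀ (abs_nonneg _) (h j) 2
    _ = d * c ^ 2 := by simp

private theorem box_compact {F : Rv d → ℝ} (c : ℝ) (hc : 0 ≤ c)
    (h : ∀ x, (∃ j, c < |x j|) → F x = 0) : HasCompactSupport F := by
  refine HasCompactSupport.intro (isCompact_closedBall 0 (Real.sqrt (d * c ^ 2))) fun x hx => ?_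
  apply h
  by_contra hcon
  push Not at hcon
  apply hx
  rw [Metric.mem_closedBall, dist_zero_right]
  exact box_norm_le hc hcon

private theorem box_coord_smooth (i : Fin d) : ContDiff ℝ (⊤ : ℕ∞) (fun x : Rv d => x i) :=
  contDiff_piLp_apply 2

private def boxf (x : Rv d) : ℝ := ∏ i, box1 (x i)

private def boxg (i : Fin d) (x : Rv d) : ℝ := ∏ j ∈ Finset.univ.erase i, box1 (x j)

private theorem boxf_eq (i : Fin d) (x : Rv d) : boxf x = box1 (x i) * boxg i x := by
  unfold boxf boxg
  exact (Finset.mul_prod_erase Finset.univ (fun j => box1 (x j)) (Finset.mem_univ i)).symm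

private theorem boxf_smooth : ContDiff ℝ (⊤ : ℕ∞) (boxf (d := d)) :=
  contDiff_prod fun i _ => box1_smooth.comp (box_coord_smooth i)

private theorem boxg_smooth (i : Fin d) : ContDiff ℝ (⊤ : ℕ∞) (boxg i) :=
  contDiff_prod fun j _ => box1_smooth.comp (box_coord_smooth j)

private theorem boxg_add (i : Fin d) (x : Rv d) (t : ℝ) : boxg i (x + t • ev i) = boxg i x := by
  unfold boxg
  refine Finset.prod_congr rfl fun j hj => ?_
  have hji : j ≠ i := Finset.ne_of_mem_erase hj
  congr 1
  simp [ev, hji]

private theorem boxg_pd (i : Fin d) (x : Rv d) : pd i (boxg i) x = 0 := by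
  have h1 : DifferentiableAt ℝ (boxg i) x := (boxg_smooth i).differentiable (by simp) x
  have h2 : HasDerivAt (fun t : ℝ => x + t • ev i) (ev i) 0 := by
    have := ((hasDerivAt_id (0 : ℝ)).smul_const (ev i)).const_add x
    simpa using this
  have h3 : HasDerivAt (fun t : ℝ => boxg i (x + t • ev i)) (fderiv ℝ (boxg i) x (ev i)) 0 := by
    have h4 : HasFDerivAt (boxg i) (fderiv ℝ (boxg i) x) (x + (0 : ℝ) • ev i) := by
      rw [zero_smul, add_zero]
      exact h1.hasFDerivAt
    exact h4.comp_hasDerivAt (0 : ℝ) h2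
  have h5 : (fun t : ℝ => boxg i (x + t • ev i)) = fun _ => boxg i x := by
    funext t
    exact boxg_add i x t
  rw [h5] at h3
  exact h3.unique (hasDerivAt_const (0 : ℝ) (boxg i x))

private theorem boxf_compact : HasCompactSupport (boxf (d := d)) := by
  refine box_compact (2 * Real.pi + 1) (by positivity) fun x hx => ?_
  obtain ⟨j, hj⟩ := hx
  rw [boxf_eq j, box1_zero hj, zero_mul]

private def boxG (i : Fin d) (x : Rv d) : ℝ := deriv Real.smoothTransition (x i) * boxg i x

private theorem boxG_compact (i : Fin d) : HasCompactSupport (boxG i) := by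
  refine box_compact (2 * Real.pi + 1) (by positivity) fun x hx => ?_
  obtain ⟨j, hj⟩ := hx
  unfold boxG
  by_cases hji : j = i
  · subst hji
    rw [box_dst_zero (by linarith [Real.pi_pos]), zero_mul]
  · have : boxg i x = 0 := by
      unfold boxg
      exact Finset.prod_eq_zero (Finset.mem_erase.2 ⟨hji, Finset.mem_univ j⟩) (box1_zero hj)
    rw [this, mul_zero]

private theorem boxG_continuous (i : Fin d) : Continuous (boxG i) := by
  have h1 : Continuous (deriv Real.smoothTransition) :=
    (Real.smoothTransition.contDiff (n := 1)).continuous_deriv le_rfl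
  exact (h1.comp (box_coord_smooth i).continuous).mul (boxg_smooth i).continuous

private theorem boxf_pd (i : Fin d) :
    pd i (boxf (d := d)) = fun x => boxG i x - boxG i (x - (2 * Real.pi) • ev i) := by
  funext x
  have hb : DifferentiableAt ℝ box1 (x i) := box1_smooth.differentiable (by simp) _
  have hc : DifferentiableAt ℝ (fun y : Rv d => y i) x :=
    (box_coord_smooth i).differentiable (by simp) x
  have h1 : DifferentiableAt ℝ (fun y : Rv d => box1 (y i)) x :=
    (box1_smooth.comp (box_coord_smooth i)).differentiable (by simp) x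
  have h2 : DifferentiableAt ℝ (boxg i) x := (boxg_smooth i).differentiable (by simp) x
  have h3 : pd i (fun y : Rv d => box1 (y i)) x = deriv box1 (x i) := by
    rw [pd_comp (g := box1) (f := fun y : Rv d => y i) hb hc i, pd_coord, if_pos rfl, mul_one]
  have h4 : (boxf (d := d)) = fun y => box1 (y i) * boxg i y := funext fun y => boxf_eq i y
  have h5 : boxg i (x - (2 * Real.pi) • ev i) = boxg i x := by
    have := boxg_add i x (-(2 * Real.pi))
    rwa [neg_smul, ← sub_eq_add_neg] at this
  rw [h4, pd_mul h1 h2, h3, boxg_pd, mul_zero, add_zero, box1_deriv]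
  unfold boxG
  rw [h5]
  have h6 : (x - (2 * Real.pi) • ev i) i = x i - 2 * Real.pi := by
    simp [ev]
  rw [h6]
  ring

private theorem boxf_fc {k : K d} (hk : k ≠ 0) : fc (boxf (d := d)) k = 0 := by
  obtain ⟨i, hi⟩ : ∃ i, k i ≠ 0 := by
    by_contra h
    push Not at h
    exact hk (funext h)
  have h1 := fc_pd (f := boxf (d := d)) (boxf_smooth.of_le (by exact_mod_cast le_top))
    boxf_compact i k
  have hG : Integrable (boxG i) :=
    (boxG_continuous i).integrable_of_hasCompactSupport (boxG_compact i)
  have h2 : fc (pd i (boxf (d := d))) k = 0 := by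
    rw [boxf_pd, fc_sub hG (hG.comp_sub_right _), fc_trans]
    have h3 : kx k ((2 * Real.pi) • ev i) = (k i : ℝ) * (2 * Real.pi) := by
      unfold kx
      rw [Finset.sum_eq_single i]
      · simp [ev]
      · intro j _ hj
        simp [ev, hj]
      · intro h
        exact absurd (Finset.mem_univ i) h
    have h4 : Complex.exp (-(Complex.I * (kx k ((2 * Real.pi) • ev i) : ℂ))) = 1 := by
      rw [h3, Complex.exp_eq_one_iff]
      refine ⟨-k i, ?_⟩
      push_cast
      ring
    rw [h4, one_mul, sub_self]
  rw [h2] at h1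
  have h5 : Complex.I * (k i : ℂ) ≠ 0 :=
    mul_ne_zero Complex.I_ne_zero (by exact_mod_cast hi)
  exact (mul_eq_zero.1 h1.symm).resolve_left h5

/-- a compactly supported function whose periodization is constant -/
theorem exists_box (d : ℕ) : ∃ φ : Rv d → ℝ, ContDiff ℝ (⊤ : ℕ∞) φ ∧ HasCompactSupport φ ∧
    fc φ 0 = 1 ∧ ∀ k : K d, k ≠ 0 → fc φ k = 0 := by
  have hpos : 0 < ∫ x, boxf (d := d) x := by
    refine boxf_smooth.continuous.integral_pos_of_hasCompactSupport_nonneg_nonzero boxf_compact
      (fun x => Finset.prod_nonneg fun i _ => box1_nonneg _)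
      (x := WithLp.toLp 2 fun _ => 1) ?_
    unfold boxf
    simp [box1_one]
  set c₀ : ℝ := ((2 * Real.pi) ^ d : ℝ)⁻¹ * ∫ x, boxf (d := d) x with hc₀
  have hc : 0 < c₀ := mul_pos (by positivity) hpos
  refine ⟨fun x => c₀⁻¹ * boxf x, contDiff_const.mul boxf_smooth, boxf_compact.mul_left, ?_, ?_⟩
  · rw [fc_const_mul, fc_zero_index, ← hc₀, ← Complex.ofReal_mul, inv_mul_cancel₀ hc.ne',
      Complex.ofReal_one]
  · intro k hk
    rw [fc_const_mul, boxf_fc hk, mul_zero]

theorem dense_pr (hd : d = 2 ∨ d = 3) {u : Sq d} (hu : IsV u) (hf : FS u) :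
    ∃ β : VF d, TF β ∧ pr β = u := by
  obtain ⟨φ, hφ, hφc, hφ0, hφk⟩ := exists_box d
  have hR := FS.rap hf
  refine ⟨fun i x => ser u i x * φ x, fun i => ⟨(ser_smooth hR hu.zero i).mul hφ, hφc.mul_left⟩, ?_⟩
  have hint : Integrable φ := hφ.continuous.integrable_of_hasCompactSupport hφc
  have h1 : ∀ k, fcv (fun i x => ser u i x * φ x) k = u k := by
    intro k
    unfold fcv
    ext i
    change fc (fun x => ser u i x * φ x) k = u k i
    rw [(fc_ser_mul hu (hR 0) hint i k).2, tsum_eq_single k]
    · rw [sub_self, hφ0, mul_one]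
    · intro j hj
      rw [hφk _ (sub_ne_zero.2 (Ne.symm hj)), mul_zero]
  funext k
  unfold pr
  rw [h1]
  by_cases hk : k = 0
  · subst hk
    rw [Pk_zero_left, hu.zero]
  · exact Pk_of_dot hk (hu.dv k)

end NSC
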