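import Pool.Agent.Work.MP_57e339_an.Ker

/-! Module KerE: explicit form of the kernels. -/

open MeasureTheory Set Filter Topology
open scoped BigOperators
noncomputable section
namespace NSC
variable {d : ℕ}

/-- the truncated power -/
def kerE1 (N : ℕ) (θ : ℝ → ℝ) (u : ℝ) : ℝ := θ u * ((max u 0) ^ (N + 1) / (N + 1).factorial)

/-- the remainder -/
def kerE0 (N : ℕ) (θ : ℝ → ℝ) (u : ℝ) : ℝ :=
  if 0 < u then -iteratedDeriv (N + 2) (fun v => θ v * (v ^ (N + 1) / (N + 1).factorial)) u else 0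

/-- the kernel with index `S` -/
def kerEG (N : ℕ) (θ : ℝ → ℝ) (x₀ : Rv d) (S : Finset (Fin d)) (x : Rv d) : ℝ :=
  ∏ i, (if i ∈ S then kerE1 N θ else kerE0 N θ) (x i - x₀ i)

/-- The one-dimensional kernels. -/
theorem kerE_one (N : ℕ) {ρ : ℝ} (hρ : 0 < ρ) {θ : ℝ → ℝ} (hθ : ContDiff ℝ (⊤ : ℕ∞) θ)
    (hθ0 : ∀ u, ρ / 2 ≤ |u| → θ u = 0) (hθ1 : ∀ u, |u| ≤ ρ / 4 → θ u = 1) :
    ContDiff ℝ N (kerE0 N θ) ∧ ContDiff ℝ N (kerE1 N θ) ∧ (∀ u, ρ < |u| → kerE0 N θ u = 0) ∧
    (∀ u, ρ < |u| → kerE1 N θ u = 0) ∧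
    ∀ k : ℝ, (Complex.I * k) ^ (N + 2) * ker_ft (kerE1 N θ) k + ker_ft (kerE0 N θ) k = 1 := by
  let f : ℝ → ℝ := fun u => θ u * (u ^ (N + 1) / (N + 1).factorial)
  have hf : ContDiff ℝ (⊤ : ℕ∞) f := by
    apply ContDiff.mul hθ
    fun_prop
  -- near 0
  have hf0 : f =ᶠ[𝓝 0] fun u => u ^ (N + 1) / (N + 1).factorial := by
    have : {u : ℝ | |u| < ρ / 4} ∈ 𝓝 (0 : ℝ) := by
      apply (isOpen_lt continuous_abs continuous_const).mem_nhds
      rw [Set.mem_ofPred_eq, abs_zero]; positivity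
    filter_upwards [this] with u hu
    simp only [f]
    rw [hθ1 u hu.le, one_mul]
  have hiter : ∀ j : ℕ, iteratedDeriv j f =ᶠ[𝓝 0] fun u =>
      (((N + 1).descFactorial j : ℕ) : ℝ) * u ^ (N + 1 - j) / (N + 1).factorial := by
    intro j
    refine (hf0.iteratedDeriv j).trans ?_
    apply Filter.Eventually.of_forall
    intro u
    have h1 : (fun u : ℝ => u ^ (N + 1) / ((N + 1).factorial : ℝ)) =
        fun u => (((N + 1).factorial : ℝ))⁻¹ * u ^ (N + 1) := by
      ext u; rw [div_eq_inv_mul]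
    rw [h1, iteratedDeriv_eq_iterate]
    have h2 : ∀ j : ℕ, deriv^[j] (fun u : ℝ => (((N + 1).factorial : ℝ))⁻¹ * u ^ (N + 1)) =
        fun u => (((N + 1).factorial : ℝ))⁻¹ * ((((N + 1).descFactorial j : ℕ) : ℝ) *
          u ^ (N + 1 - j)) := by
      intro j
      induction j with
      | zero => simp
      | succ j ih =>
        rw [Function.iterate_succ_apply', ih]
        ext u
        rw [deriv_const_mul _ (by fun_prop), deriv_const_mul _ (by fun_prop), deriv_pow_field,
          Nat.descFactorial_succ]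
        push_cast
        rw [show N + 1 - j - 1 = N - j by omega]
        ring
    rw [h2]
    beta_reduce
    rw [div_eq_inv_mul]
  have hfρ : f =ᶠ[𝓝 ρ] fun _ => 0 := by
    filter_upwards [lt_mem_nhds (show ρ / 2 < ρ by linarith)] with u hu
    simp only [f]
    rw [hθ0 u (hu.le.trans (le_abs_self u)), zero_mul]
  have hiρ : ∀ j : ℕ, iteratedDeriv j f ρ = 0 := by
    intro j
    have := (hfρ.iteratedDeriv j).eq_of_nhds
    rw [this]
    simp
  have hi0 : ∀ j ≤ N, iteratedDeriv j f 0 = 0 := by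
    intro j hj
    rw [(hiter j).eq_of_nhds]
    have : N + 1 - j ≠ 0 := by omega
    simp [this]
  have hi1 : iteratedDeriv (N + 1) f 0 = 1 := by
    rw [(hiter (N + 1)).eq_of_nhds]
    rw [Nat.descFactorial_self]
    have : ((N + 1).factorial : ℝ) ≠ 0 := by positivity
    simp [this]
  have hi2 : iteratedDeriv (N + 2) f =ᶠ[𝓝 0] fun _ => 0 := by
    refine (hiter (N + 2)).trans ?_
    apply Filter.Eventually.of_forall
    intro u
    have : (N + 1).descFactorial (N + 2) = 0 := Nat.descFactorial_eq_zero_iff_lt.2 (by omega)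
    simp [this]
  have hcd : ∀ j : ℕ, ContDiff ℝ (⊤ : ℕ∞) (iteratedDeriv j f) := by
    intro j
    rw [iteratedDeriv_eq_iterate]
    apply ContDiff.iterate_deriv
    exact hf
  have hsupp : ∀ j : ℕ, ∀ u, ρ / 2 < |u| → iteratedDeriv j f u = 0 := by
    intro j u hu
    have h1 : f =ᶠ[𝓝 u] fun _ => 0 := by
      have : {v : ℝ | ρ / 2 < |v|} ∈ 𝓝 u :=
        (isOpen_lt continuous_const continuous_abs).mem_nhds hu
      filter_upwards [this] with v hv
      simp only [f]
      rw [hθ0 v (le_of_lt hv), zero_mul]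
    rw [(h1.iteratedDeriv j).eq_of_nhds]
    simp
  let g1 : ℝ → ℝ := fun u => θ u * ((max u 0) ^ (N + 1) / (N + 1).factorial)
  let g0 : ℝ → ℝ := fun u => if 0 < u then -iteratedDeriv (N + 2) f u else 0
  change ContDiff ℝ N g0 ∧ ContDiff ℝ N g1 ∧ (∀ u, ρ < |u| → g0 u = 0) ∧
    (∀ u, ρ < |u| → g1 u = 0) ∧
    ∀ k : ℝ, (Complex.I * k) ^ (N + 2) * ker_ft g1 k + ker_ft g0 k = 1
  refine ⟨?_, ?_, ?_, ?_, ?_⟩
  · apply (ker_cut_contDiff (hcd (N + 2)).neg _).of_le (by exact_mod_cast le_top)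
    filter_upwards [hi2] with u hu
    simp [hu]
  · apply ContDiff.mul (hθ.of_le (by exact_mod_cast le_top))
    exact (ker_pp_contDiff N).div_const _
  · intro u hu
    simp only [g0]
    rw [hsupp _ _ (by linarith), neg_zero, ite_self]
  · intro u hu
    simp only [g1]
    rw [hθ0 u (by linarith), zero_mul]
  · intro k
    have hcE : Continuous (fun u : ℝ => Complex.exp (-(Complex.I * (k * u : ℝ)))) := by fun_prop
    have e1 : ker_ft g1 k = ker_hf ρ f k := by
      unfold ker_ft ker_hf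
      rw [intervalIntegral.integral_of_le hρ.le, ← integral_indicator measurableSet_Ioc]
      congr 1
      ext u
      by_cases hu : u ∈ Ioc 0 ρ
      · rw [indicator_of_mem hu]
        simp only [g1, f]
        rw [max_eq_left hu.1.le]
      · rw [indicator_of_notMem hu]
        have : g1 u = 0 := by
          simp only [g1]
          rcases le_or_gt u 0 with h | h
          · simp [max_eq_right h]
          · have : ρ < u := by
              by_contra h'
              exact hu ⟨h, not_lt.1 h'⟩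
            rw [hθ0 u (by linarith [le_abs_self u]), zero_mul]
        rw [this]; simp
    have e0 : ker_ft g0 k = -ker_hf ρ (iteratedDeriv (N + 2) f) k := by
      unfold ker_ft ker_hf
      rw [intervalIntegral.integral_of_le hρ.le, ← integral_indicator measurableSet_Ioc,
        ← integral_neg]
      congr 1
      ext u
      by_cases hu : u ∈ Ioc 0 ρ
      · rw [indicator_of_mem hu]
        simp only [g0]
        rw [if_pos hu.1]
        push_cast
        ring
      · rw [indicator_of_notMem hu]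
        have : g0 u = 0 := by
          simp only [g0]
          rcases le_or_gt u 0 with h | h
          · rw [if_neg (not_lt.2 h)]
          · have : ρ < u := by
              by_contra h'
              exact hu ⟨h, not_lt.1 h'⟩
            rw [if_pos h, hsupp _ _ (by linarith [le_abs_self u]), neg_zero]
        rw [this]; simp
    have hstep : ∀ j : ℕ, Complex.I * k * ker_hf ρ (iteratedDeriv j f) k =
        ker_hf ρ (iteratedDeriv (j + 1) f) k + (iteratedDeriv j f 0 : ℝ) := by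
      intro j
      rw [iteratedDeriv_succ]
      exact ker_ibp ((hcd j).of_le (by exact_mod_cast le_top)) (hiρ j) k
    have hpow : ∀ j ≤ N + 1, ker_hf ρ (iteratedDeriv j f) k = (Complex.I * k) ^ j * ker_hf ρ f k := by
      intro j
      induction j with
      | zero => intro _; simp
      | succ j ih =>
        intro hj
        have h1 := hstep j
        rw [hi0 j (by omega), ih (by omega)] at h1
        rw [Complex.ofReal_zero, add_zero] at h1
        rw [← h1]
        ring
    have hlast := hstep (N + 1)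
    rw [hi1, hpow (N + 1) le_rfl] at hlast
    rw [e1, e0]
    have : (Complex.I * (k : ℂ)) ^ (N + 2) * ker_hf ρ f k =
      Complex.I * k * ((Complex.I * k) ^ (N + 1) * ker_hf ρ f k) := by ring
    rw [this, hlast]
    push_cast
    ring

theorem kerE (N : ℕ) (x₀ : Rv d) {r : ℝ} (hr : 0 < r) {θ : ℝ → ℝ} (hθ : ContDiff ℝ (⊤ : ℕ∞) θ)
    (hθ0 : ∀ u, r / (d + 1) / 2 ≤ |u| → θ u = 0) (hθ1 : ∀ u, |u| ≤ r / (d + 1) / 4 → θ u = 1)
    {n : ℕ} (e : Finset (Fin d) ≃ Fin n) :
    ∃ (P : Fin n → (Rv d → ℝ) → (Rv d → ℝ)),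
      (∀ s, ContDiff ℝ N (kerEG N θ x₀ (e.symm s)) ∧
        tsupport (kerEG N θ x₀ (e.symm s)) ⊆ Metric.ball x₀ r ∧
        HasCompactSupport (kerEG N θ x₀ (e.symm s))) ∧
      (∀ (φ : Rv d → ℝ), ContDiff ℝ (⊤ : ℕ∞) φ → HasCompactSupport φ → ∀ s,
        ContDiff ℝ (⊤ : ℕ∞) (P s φ) ∧ tsupport (P s φ) ⊆ tsupport φ) ∧
      ∀ (φ : Rv d → ℝ), ContDiff ℝ (⊤ : ℕ∞) φ → HasCompactSupport φ → ∀ k : K d,
        fc (fun x => φ (x - x₀)) k =
          ∑ s, (((2 * Real.pi) ^ d : ℝ) : ℂ) * fc (P s φ) k * fc (kerEG N θ x₀ (e.symm s)) k := by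
  classical
  have hρ : 0 < r / ((d : ℝ) + 1) := by positivity
  obtain ⟨h0, h1, hs0, hs1, hft⟩ := kerE_one N hρ hθ hθ0 hθ1
  let g0 := kerE0 N θ
  let g1 := kerE1 N θ
  let gS : Finset (Fin d) → Fin d → ℝ → ℝ := fun S i => if i ∈ S then g1 else g0
  have hgS : ∀ S, kerEG N θ x₀ S = ker_G (gS S) x₀ := fun S => rfl
  simp only [hgS]
  refine ⟨fun s φ => ker_P (N + 2) (e.symm s).toList φ, ?_, ?_, ?_⟩
  · intro s
    have hsup : tsupport (ker_G (gS (e.symm s)) x₀) ⊆ Metric.ball x₀ r := by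
      apply ker_G_support hr
      intro i u hu
      simp only [gS]
      split_ifs
      · exact hs1 u hu
      · exact hs0 u hu
    refine ⟨ker_G_contDiff (fun i => ?_) x₀, hsup, ?_⟩
    · simp only [gS]
      split_ifs
      · exact h1
      · exact h0
    · exact (isCompact_closedBall x₀ r).of_isClosed_subset (isClosed_tsupport _)
        (hsup.trans Metric.ball_subset_closedBall)
  · intro φ hφ hc s
    obtain ⟨ha, hb, -⟩ := ker_P_spec (N + 2) (e.symm s).toList hφ hc
    exact ⟨ha, hb⟩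
  · intro φ hφ hc k
    rw [fc_trans]
    have hsum : ∑ s, (((2 * Real.pi) ^ d : ℝ) : ℂ) * fc (ker_P (N + 2) (e.symm s).toList φ) k *
        fc (ker_G (gS (e.symm s)) x₀) k =
        ∑ S : Finset (Fin d), (((2 * Real.pi) ^ d : ℝ) : ℂ) * fc (ker_P (N + 2) S.toList φ) k *
        fc (ker_G (gS S) x₀) k :=
      e.symm.sum_comp (fun S => (((2 * Real.pi) ^ d : ℝ) : ℂ) * fc (ker_P (N + 2) S.toList φ) k *
        fc (ker_G (gS S) x₀) k)
    rw [hsum]
    have hterm : ∀ S : Finset (Fin d), (((2 * Real.pi) ^ d : ℝ) : ℂ) *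
        fc (ker_P (N + 2) S.toList φ) k * fc (ker_G (gS S) x₀) k =
        (Complex.exp (-(Complex.I * (kx k x₀ : ℂ))) * fc φ k) *
        ((∏ i ∈ S, (Complex.I * ((k i : ℝ) : ℂ)) ^ (N + 2) * ker_ft g1 (k i : ℝ)) *
          ∏ i ∈ Finset.univ \ S, ker_ft g0 (k i : ℝ)) := by
      intro S
      obtain ⟨-, -, hf⟩ := ker_P_spec (N + 2) S.toList hφ hc
      rw [hf k, Finset.prod_map_toList]
      have hG := ker_G_fc (gS S) x₀ k
      have hprod : ∏ i, ker_ft (gS S i) (k i : ℝ) = (∏ i ∈ S, ker_ft g1 (k i : ℝ)) *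
          ∏ i ∈ Finset.univ \ S, ker_ft g0 (k i : ℝ) := by
        rw [← Finset.prod_sdiff (Finset.subset_univ S), mul_comm]
        congr 1
        · apply Finset.prod_congr rfl
          intro i hi
          simp only [gS, if_pos hi]
        · apply Finset.prod_congr rfl
          intro i hi
          simp only [gS, if_neg (Finset.mem_sdiff.1 hi).2]
      rw [Finset.prod_mul_distrib]
      rw [hprod] at hG
      have hcast : ∏ i ∈ S, (Complex.I * (k i : ℂ)) ^ (N + 2) =
          ∏ i ∈ S, (Complex.I * ((k i : ℝ) : ℂ)) ^ (N + 2) := by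
        apply Finset.prod_congr rfl
        intro i _
        push_cast
        rfl
      rw [hcast]
      linear_combination (∏ i ∈ S, (Complex.I * ((k i : ℝ) : ℂ)) ^ (N + 2)) * fc φ k * hG
    rw [Finset.sum_congr rfl fun S _ => hterm S, ← Finset.mul_sum]
    have hone : ∑ S : Finset (Fin d), ((∏ i ∈ S, (Complex.I * ((k i : ℝ) : ℂ)) ^ (N + 2) *
        ker_ft g1 (k i : ℝ)) * ∏ i ∈ Finset.univ \ S, ker_ft g0 (k i : ℝ)) = 1 := by
      have := Finset.prod_add (fun i : Fin d => (Complex.I * ((k i : ℝ) : ℂ)) ^ (N + 2) *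
        ker_ft g1 (k i : ℝ)) (fun i => ker_ft g0 (k i : ℝ)) Finset.univ
      rw [Finset.powerset_univ] at this
      rw [← this]
      exact Finset.prod_eq_one fun i _ => hft (k i : ℝ)
    rw [hone, mul_one]

end NSC
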