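import Pool.Agent.Work.MP_57e339_an.StrS

/-! Module Loc: all mean zero fields supported in a small ball are (after projection) in the
admissible set. -/

open MeasureTheory Set Filter Topology
open scoped BigOperators
noncomputable section
namespace NSC
variable {d : ℕ}

theorem loc_top {f : Rv d → ℝ} (hf : ContDiff ℝ (⊤ : ℕ∞) f) (N : ℕ) : ContDiff ℝ N f :=
  hf.of_le (by exact_mod_cast le_top)

theorem loc_uni_tfn {N : ℕ} {f : Rv d → ℝ} (hf : ContDiff ℝ N f) (hc : HasCompactSupport f)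
    (p : Fin d) : TFN N (uni p f) := by
  intro i
  unfold uni
  by_cases hi : i = p
  · simp only [hi, if_true]
    exact ⟨hf, hc⟩
  · simp only [hi, if_false]
    exact ⟨contDiff_const, HasCompactSupport.zero⟩

theorem loc_uni_su {f : Rv d → ℝ} {G : Set (Rv d)} (hs : tsupport f ⊆ G) (p : Fin d) :
    Su (uni p f) G := by
  intro i
  unfold uni
  by_cases hi : i = p
  · simp only [hi, if_true]
    exact hs
  · simp only [hi, if_false]
    have : tsupport (fun _ : Rv d => (0 : ℝ)) = ∅ := tsupport_eq_empty_iff.2 rfl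
    rw [this]
    exact empty_subset _

theorem loc_uni_nb {m : ℕ} {A : ℝ} {f : Rv d → ℝ} (h : Nb m A f) (p i : Fin d) :
    Nb m A (uni p f i) := by
  unfold uni
  by_cases hi : i = p
  · simp only [hi, if_true]
    exact h
  · simp only [hi, if_false]
    have h0 : ∀ m, Nb (d := d) m A (fun _ => (0 : ℝ)) := by
      intro m
      induction m with
      | zero => intro x; simp only [abs_zero]; exact h.nonneg
      | succ m ih =>
        refine ⟨fun x => by simp only [abs_zero]; exact h.nonneg, fun j => ?_⟩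
        have : pd j (fun _ : Rv d => (0 : ℝ)) = fun _ => 0 := by
          funext x
          exact pd_const 0 j x
        rw [this]
        exact ih
    exact h0 m

theorem loc_tsupport_trans {f : Rv d → ℝ} {ε r : ℝ} (hs : tsupport f ⊆ Metric.ball 0 ε)
    {x₀ y : Rv d} {r₁ : ℝ} (hy : ‖y - x₀‖ ≤ r₁) (hr : r₁ + ε ≤ r) :
    tsupport (fun x => f (x - y)) ⊆ Metric.ball x₀ r := by
  have h1 : tsupport (fun x => f (x - y)) ⊆ (fun x => x - y) ⁻¹' tsupport f := by
    apply closure_minimal _ ((isClosed_tsupport f).preimage (by fun_prop))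
    intro x hx
    exact subset_tsupport f hx
  intro x hx
  have h2 := hs (h1 hx)
  rw [mem_ball_zero_iff] at h2
  rw [Metric.mem_ball, dist_eq_norm]
  have h3 : x - x₀ = (x - y) + (y - x₀) := by abel
  rw [h3]
  calc ‖(x - y) + (y - x₀)‖ ≤ ‖x - y‖ + ‖y - x₀‖ := norm_add_le _ _
    _ < r := by linarith

/-- differences of translates of `η e_p` -/
theorem loc_diff (hd : d = 2 ∨ d = 3) {𝒟 : Set (Sq d)} (h𝒟 : Adm 𝒟) {x₀ : Rv d} {r : ℝ}
    (h : ∀ φ : Rv d → ℝ, ContDiff ℝ (⊤ : ℕ∞) φ → tsupport φ ⊆ Metric.ball x₀ r →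
      ∀ i p, pr (uni p (pd i φ)) ∈ 𝒟) {η : Rv d → ℝ} (hη : ContDiff ℝ (⊤ : ℕ∞) η)
    (hηc : HasCompactSupport η) {ε r₁ : ℝ} (hηs : tsupport η ⊆ Metric.ball 0 ε)
    (hr : r₁ + ε ≤ r) (p : Fin d) {y : Rv d} (hy : ‖y - x₀‖ ≤ r₁) :
    pr (trl y (uni p η)) - pr (trl x₀ (uni p η)) ∈ 𝒟 := by
  classical
  have hηN : ∀ N : ℕ, ContDiff ℝ N η := fun N => hη.of_le (by exact_mod_cast le_top)
  have hr₁ : 0 ≤ r₁ := (norm_nonneg _).trans hy
  obtain ⟨A, hA⟩ := nb_exists (m := 5) (hηN 5) hηc
  have hA0 := hA.nonneg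
  obtain ⟨C, hC, hn1⟩ := pr_n1_le hd (‖x₀‖ + r)
  set w : Rv d := y - x₀ with hw
  have hball : Metric.ball x₀ r ⊆ Metric.closedBall 0 (‖x₀‖ + r) := by
    intro x hx
    rw [Metric.mem_ball, dist_eq_norm] at hx
    rw [mem_closedBall_zero_iff]
    calc ‖x‖ = ‖x₀ + (x - x₀)‖ := by congr 1; abel
      _ ≤ ‖x₀‖ + ‖x - x₀‖ := norm_add_le _ _
      _ ≤ ‖x₀‖ + r := by linarith
  have hV : ∀ z : Rv d, IsV (pr (trl z (uni p η))) := fun z =>
    pr_isV hd ((loc_uni_tfn (hηN 3) hηc p).trl z)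
  refine h𝒟.closed _ ((hV y).sub (hV x₀)) ?_
  intro ρ hρ
  obtain ⟨N, hN⟩ := exists_nat_gt (C * ((d : ℝ) ^ 2 * A * ‖w‖ ^ 2) / ρ)
  have hK0 : 0 ≤ C * ((d : ℝ) ^ 2 * A * ‖w‖ ^ 2) := by positivity
  have hNpos : 0 < (N : ℝ) := lt_of_le_of_lt (div_nonneg hK0 hρ.le) hN
  -- the points
  let yj : ℕ → Rv d := fun j => x₀ + ((j : ℝ) / N) • w
  let δ : Rv d := (1 / (N : ℝ)) • w
  let ηj : ℕ → Rv d → ℝ := fun j x => η (x - yj j)
  have hyj : ∀ j, j ≤ N → ‖yj j - x₀‖ ≤ r₁ := by
    intro j hj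
    simp only [yj, add_sub_cancel_left]
    rw [norm_smul, Real.norm_eq_abs, abs_of_nonneg (by positivity)]
    have : (j : ℝ) / N ≤ 1 := by
      rw [div_le_one hNpos]
      exact_mod_cast hj
    calc (j : ℝ) / N * ‖w‖ ≤ 1 * ‖w‖ := mul_le_mul_of_nonneg_right this (norm_nonneg _)
      _ ≤ r₁ := by rw [one_mul]; exact hy
  have hηj : ∀ j (M : ℕ), ContDiff ℝ M (ηj j) := fun j M => (hηN M).comp (by fun_prop)
  have hηjt : ∀ j, ContDiff ℝ (⊤ : ℕ∞) (ηj j) := fun j => hη.comp (by fun_prop)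
  have hηjs : ∀ j, j ≤ N → tsupport (ηj j) ⊆ Metric.ball x₀ r := fun j hj =>
    loc_tsupport_trans hηs (hyj j hj) hr
  have hηjc : ∀ j, HasCompactSupport (ηj j) := by
    intro j
    exact hηc.comp_homeomorph (Homeomorph.subRight (yj j))
  have hsucc : ∀ j x, ηj j (x - δ) = ηj (j + 1) x := by
    intro j x
    simp only [ηj]
    congr 1
    simp only [yj, δ]
    have : (((j + 1 : ℕ) : ℝ) / N) • w = ((j : ℝ) / N) • w + (1 / (N : ℝ)) • w := by
      rw [← add_smul]
      congr 1
      push_cast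
      ring
    rw [this]
    abel
  -- the element of 𝒟
  let v : Sq d := ∑ j ∈ Finset.range N, ∑ i, (-(δ i)) • pr (uni p (pd i (ηj j)))
  have hsum𝒟 : ∀ {ι : Type} (s : Finset ι) (u : ι → Sq d), (∀ i ∈ s, u i ∈ 𝒟) →
      ∑ i ∈ s, u i ∈ 𝒟 := by
    intro ι s u hu
    induction s using Finset.induction_on with
    | empty => simpa using h𝒟.zero
    | insert a s ha ih =>
      rw [Finset.sum_insert ha]
      exact h𝒟.add _ (hu a (Finset.mem_insert_self a s)) _
        (ih fun i hi => hu i (Finset.mem_insert_of_mem hi))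
  have hv : v ∈ 𝒟 := by
    apply hsum𝒟
    intro j hj
    apply hsum𝒟
    intro i _
    exact h𝒟.smul _ _ (h _ (hηjt j) (hηjs j (Finset.mem_range.1 hj).le) i p)
  refine ⟨v, hv, ?_⟩
  -- the remainder
  let R : ℕ → Rv d → ℝ := fun j x => ηj j (x - δ) - ηj j x + ∑ i, δ i * pd i (ηj j) x
  have hpdN : ∀ j i, ContDiff ℝ 3 (pd i (ηj j)) := fun j i =>
    loc_top (contDiff_pd_top (hηjt j) i) 3
  have hpdc : ∀ j i, HasCompactSupport (pd i (ηj j)) := fun j i =>
    (hηjc j).of_isClosed_subset (isClosed_tsupport _) (tsupport_pd_subset _ i)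
  have hRnb : ∀ j, Nb 3 ((d : ℝ) ^ 2 * A * ‖δ‖ ^ 2) (R j) := by
    intro j
    exact nb_trans_taylor (m := 3) (hηj j 5) (hA.trans (yj j)) δ
  have hRcd : ∀ j, ContDiff ℝ 3 (R j) := by
    intro j
    simp only [R, hsucc]
    apply ContDiff.add
    · exact ((hηj (j + 1) 3).sub (hηj j 3))
    · apply ContDiff.sum
      intro i _
      exact contDiff_const.mul (hpdN j i)
  have hRs : ∀ j, j < N → tsupport (R j) ⊆ tsupport (ηj (j + 1)) ∪ tsupport (ηj j) := by
    intro j _
    apply closure_minimal _ ((isClosed_tsupport _).union (isClosed_tsupport _))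
    intro x hx
    by_contra hcon
    rw [mem_union, not_or] at hcon
    apply hx
    simp only [R, hsucc]
    rw [image_eq_zero_of_notMem_tsupport hcon.1, image_eq_zero_of_notMem_tsupport hcon.2]
    have : ∑ i, δ i * pd i (ηj j) x = 0 := by
      apply Finset.sum_eq_zero
      intro i _
      rw [pd_zero_of_notMem hcon.2, mul_zero]
    rw [this]
    simp
  have hRs' : ∀ j, j < N → tsupport (R j) ⊆ Metric.ball x₀ r := fun j hj =>
    (hRs j hj).trans (union_subset (hηjs (j + 1) hj) (hηjs j hj.le))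
  have hRc : ∀ j, j < N → HasCompactSupport (R j) := fun j hj =>
    (isCompact_closedBall (0 : Rv d) (‖x₀‖ + r)).of_isClosed_subset (isClosed_tsupport _)
      ((hRs' j hj).trans hball)
  have hRn : ∀ j, j < N → n1 (pr (uni p (R j))) ≤ C * ((d : ℝ) ^ 2 * A * ‖δ‖ ^ 2) := by
    intro j hj
    apply hn1
    · exact loc_uni_tfn (N := 3) (hRcd j) (hRc j hj) p
    · exact loc_uni_su ((hRs' j hj).trans hball) p
    · intro i
      exact loc_uni_nb (hRnb j) p i
  -- the projection of the remainder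
  have hη0 : ∀ j, TFN 0 (uni p (ηj j)) := fun j => loc_uni_tfn (hηj j 0) (hηjc j) p
  have hpr : ∀ j, j < N → pr (uni p (R j)) = pr (uni p (ηj (j + 1))) - pr (uni p (ηj j)) -
      ∑ i, (-(δ i)) • pr (uni p (pd i (ηj j))) := by
    intro j hj
    have hpd0 : ∀ i ∈ (Finset.univ : Finset (Fin d)), TFN 0
        (fun (a : Fin d) x => -(δ i) * uni p (pd i (ηj j)) a x) := by
      intro i _ a
      obtain ⟨h1, h2⟩ := loc_uni_tfn (N := 0) ((hpdN j i).of_le (by simp)) (hpdc j i) p a
      exact ⟨contDiff_const.mul h1, h2.mul_left⟩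
    have h1 : (uni p (R j) : VF d) = fun i x =>
        (uni p (ηj (j + 1)) i x - uni p (ηj j) i x) -
          ∑ l, (-(δ l) * uni p (pd l (ηj j)) i x) := by
      funext i x
      unfold uni
      by_cases hi : i = p
      · simp only [hi, if_true, R, hsucc]
        rw [sub_eq_add_neg _ (∑ l, _), ← Finset.sum_neg_distrib]
        congr 1
        apply Finset.sum_congr rfl
        intro l _
        ring
      · simp only [hi, if_false]
        simp
    have hsub0 : TFN 0 (fun (i : Fin d) x => uni p (ηj (j + 1)) i x - uni p (ηj j) i x) :=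
      fun i => ⟨(hη0 (j + 1) i).1.sub (hη0 j i).1, (hη0 (j + 1) i).2.sub (hη0 j i).2⟩
    have hsum0 : TFN 0 (fun (i : Fin d) x => ∑ l, (-(δ l) * uni p (pd l (ηj j)) i x)) := by
      intro i
      constructor
      · apply ContDiff.sum
        intro l _
        exact (hpd0 l (Finset.mem_univ l) i).1
      · refine (hηjc j).of_isClosed_subset (isClosed_tsupport _) ?_
        apply closure_minimal _ (isClosed_tsupport _)
        intro x hx
        by_contra hcon
        apply hx
        apply Finset.sum_eq_zero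
        intro l _
        unfold uni
        rw [pd_zero_of_notMem hcon]
        simp
    rw [h1, pr_sub hsub0 hsum0, pr_sub (hη0 (j + 1)) (hη0 j), pr_sum Finset.univ hpd0]
    congr 1
    apply Finset.sum_congr rfl
    intro l _
    rw [pr_smul]
  have htel : ∑ j ∈ Finset.range N, (pr (uni p (ηj (j + 1))) - pr (uni p (ηj j))) =
      pr (uni p (ηj N)) - pr (uni p (ηj 0)) := Finset.sum_range_sub (fun j => pr (uni p (ηj j))) N
  have hend : ∀ j, pr (uni p (ηj j)) = pr (trl (yj j) (uni p η)) := by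
    intro j
    congr 1
  have hy0 : yj 0 = x₀ := by simp [yj]
  have hyN : yj N = y := by
    simp only [yj]
    rw [div_self hNpos.ne', one_smul, hw]
    abel
  have hfinal : pr (trl y (uni p η)) - pr (trl x₀ (uni p η)) - v =
      ∑ j ∈ Finset.range N, pr (uni p (R j)) := by
    rw [Finset.sum_congr rfl fun j hj => hpr j (Finset.mem_range.1 hj), Finset.sum_sub_distrib,
      htel, hend, hend, hy0, hyN]
  have hRV : ∀ j ∈ Finset.range N, IsV (pr (uni p (R j))) := fun j hj =>
    pr_isV hd (loc_uni_tfn (N := 3) (hRcd j) (hRc j (Finset.mem_range.1 hj)) p)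
  rw [n1_sub_comm, hfinal]
  calc n1 (∑ j ∈ Finset.range N, pr (uni p (R j)))
      ≤ ∑ j ∈ Finset.range N, n1 (pr (uni p (R j))) := n1_sum_le _ _ hRV
    _ ≤ ∑ _j ∈ Finset.range N, C * ((d : ℝ) ^ 2 * A * ‖δ‖ ^ 2) :=
        Finset.sum_le_sum fun j hj => hRn j (Finset.mem_range.1 hj)
    _ = N * (C * ((d : ℝ) ^ 2 * A * ‖δ‖ ^ 2)) := by
        rw [Finset.sum_const, Finset.card_range, nsmul_eq_mul]
    _ = C * ((d : ℝ) ^ 2 * A * ‖w‖ ^ 2) / N := by
        simp only [δ]
        rw [norm_smul, Real.norm_eq_abs, abs_of_nonneg (by positivity)]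
        field_simp
    _ < ρ := by
        rw [div_lt_iff₀ hNpos]
        rw [div_lt_iff₀ hρ] at hN
        linarith

theorem loc_mem (hd : d = 2 ∨ d = 3) {𝒟 : Set (Sq d)} (h𝒟 : Adm 𝒟) {x₀ : Rv d} {r : ℝ}
    (hr : 0 < r)
    (h : ∀ φ : Rv d → ℝ, ContDiff ℝ (⊤ : ℕ∞) φ → tsupport φ ⊆ Metric.ball x₀ r →
      ∀ i p, pr (uni p (pd i φ)) ∈ 𝒟)
    {β : VF d} (hβ : TF β) (hβs : Su β (Metric.ball x₀ r)) (hβ0 : ∀ i, ∫ x, β i x = 0) :
    pr β ∈ 𝒟 := by
  classical
  -- a smaller ball
  obtain ⟨r₁, hr₁0, hr₁, hβr₁⟩ : ∃ r₁, 0 ≤ r₁ ∧ r₁ < r ∧ ∀ i, tsupport (β i) ⊆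
      Metric.closedBall x₀ r₁ := by
    have hK : IsCompact (⋃ i, tsupport (β i)) := isCompact_iUnion fun i => (hβ i).2.isCompact
    have hKs : (⋃ i, tsupport (β i)) ⊆ Metric.ball x₀ r := iUnion_subset fun i => hβs i
    rcases (⋃ i, tsupport (β i)).eq_empty_or_nonempty with he | hne
    · refine ⟨0, le_rfl, hr, fun i => ?_⟩
      have : tsupport (β i) ⊆ ∅ := he ▸ subset_iUnion (fun i => tsupport (β i)) i
      exact this.trans (empty_subset _)
    · obtain ⟨z, hz, hmax⟩ := hK.exists_isMaxOn hne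
        (f := fun x => dist x x₀) (by fun_prop)
      refine ⟨dist z x₀, dist_nonneg, Metric.mem_ball.1 (hKs hz), fun i x hx => ?_⟩
      exact Metric.mem_closedBall.2 (hmax (mem_iUnion.2 ⟨i, hx⟩))
  have hVβ : IsV (pr β) := pr_isV hd (hβ.tfn 3)
  obtain ⟨C, hC, hn1⟩ := pr_n1_le hd (‖x₀‖ + r)
  have hball : Metric.ball x₀ r ⊆ Metric.closedBall 0 (‖x₀‖ + r) := by
    intro x hx
    rw [Metric.mem_ball, dist_eq_norm] at hx
    rw [mem_closedBall_zero_iff]
    calc ‖x‖ = ‖x₀ + (x - x₀)‖ := by congr 1; abel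
      _ ≤ ‖x₀‖ + ‖x - x₀‖ := norm_add_le _ _
      _ ≤ ‖x₀‖ + r := by linarith
  choose Ci hCi hcl using fun i => conv_close (hβ i).1 (hβ i).2 3
  refine h𝒟.closed _ hVβ ?_
  intro ρ hρ
  let Cs : ℝ := ∑ i, Ci i
  have hCs : 0 ≤ Cs := Finset.sum_nonneg fun i _ => hCi i
  obtain ⟨ε, hε, hε1, hε2⟩ : ∃ ε > 0, r₁ + ε < r ∧ C * (Cs * ε) < ρ := by
    refine ⟨min ((r - r₁) / 2) (ρ / (2 * (C * Cs + 1))), ?_, ?_, ?_⟩
    · have : 0 < C * Cs + 1 := by positivity
      apply lt_min
      · linarith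
      · positivity
    · have := min_le_left ((r - r₁) / 2) (ρ / (2 * (C * Cs + 1)))
      linarith
    · have h1 := min_le_right ((r - r₁) / 2) (ρ / (2 * (C * Cs + 1)))
      have h2 : 0 < C * Cs + 1 := by positivity
      have h3 : 0 ≤ C * Cs := by positivity
      calc C * (Cs * min ((r - r₁) / 2) (ρ / (2 * (C * Cs + 1))))
          = (C * Cs) * min ((r - r₁) / 2) (ρ / (2 * (C * Cs + 1))) := by ring
        _ ≤ (C * Cs) * (ρ / (2 * (C * Cs + 1))) := mul_le_mul_of_nonneg_left h1 h3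
        _ < ρ := by
            rw [← mul_div_assoc, div_lt_iff₀ (by positivity)]
            nlinarith
  obtain ⟨η, hη, hηc, hηs, hηp, hη1⟩ := exists_mollifier d hε
  -- the regularization
  have hmem : ∀ p, pr (cnv (β p) (uni p η)) ∈ 𝒟 := by
    intro p
    have h1 := int_closure hd h𝒟
      (loc_uni_tfn (N := 10) (loc_top hη 10) hηc p) (hβ p).1 (hβ p).2
      (b₀ := pr (trl x₀ (uni p η)))
      (pr_isV hd ((loc_uni_tfn (N := 3) (loc_top hη 3) hηc p).trl x₀))
      (fun y hy => loc_diff hd h𝒟 h hη hηc hηs hε1.le p (by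
        have : y ∈ tsupport (β p) := subset_tsupport _ hy
        have := hβr₁ p this
        rw [Metric.mem_closedBall, dist_eq_norm] at this
        exact this))
    rwa [hβ0 p, zero_smul, sub_zero] at h1
  have hsum𝒟 : ∀ {ι : Type} (s : Finset ι) (u : ι → Sq d), (∀ i ∈ s, u i ∈ 𝒟) →
      ∑ i ∈ s, u i ∈ 𝒟 := by
    intro ι s u hu
    induction s using Finset.induction_on with
    | empty => simpa using h𝒟.zero
    | insert a s ha ih =>
      rw [Finset.sum_insert ha]
      exact h𝒟.add _ (hu a (Finset.mem_insert_self a s)) _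
        (ih fun i hi => hu i (Finset.mem_insert_of_mem hi))
  have hcnv : ∀ p, TF (cnv (β p) (uni p η)) := fun p =>
    cnv_TF (hβ p).1 (hβ p).2 (loc_uni_tfn (N := 0) (hη.of_le (by exact_mod_cast le_top)) hηc p)
  have hsumpr := pr_sum Finset.univ (β := fun p => cnv (β p) (uni p η))
    (fun p _ => (hcnv p).tfn 0)
  let B : VF d := fun i x => ∑ p, cnv (β p) (uni p η) i x
  have hBeq : ∀ i x, B i x = ∫ y, β i y * η (x - y) := by
    intro i x
    simp only [B]
    rw [Finset.sum_eq_single i]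
    · unfold cnv uni
      simp
    · intro p _ hp
      unfold cnv uni
      simp [hp.symm]
    · intro hi
      exact absurd (Finset.mem_univ i) hi
  have hBTF : TF B := by
    intro i
    have hBi : B i = cnv (β i) (uni i η) i := by
      funext x
      rw [hBeq i x]
      unfold cnv uni
      simp
    rw [hBi]
    exact hcnv i i
  refine ⟨pr B, ?_, ?_⟩
  · have : pr B = ∑ p, pr (cnv (β p) (uni p η)) := hsumpr
    rw [this]
    exact hsum𝒟 _ _ fun p _ => hmem p
  · rw [← pr_sub (hBTF.tfn 0) (hβ.tfn 0)]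
    refine lt_of_le_of_lt (hn1 _ (Cs * ε) ?_ ?_ ?_) hε2
    · exact (hBTF.sub hβ).tfn 3
    · intro i
      refine Subset.trans ?_ hball
      have hcl1 : IsClosed (Metric.closedBall x₀ (r₁ + ε)) := Metric.isClosed_closedBall
      refine Subset.trans (closure_minimal (t := Metric.closedBall x₀ (r₁ + ε)) ?_ hcl1)
        (Metric.closedBall_subset_ball hε1)
      intro x hx
      by_contra hcon
      rw [Metric.mem_closedBall, dist_eq_norm, not_le] at hcon
      apply hx
      show B i x - β i x = 0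
      have h1 : β i x = 0 := by
        apply image_eq_zero_of_notMem_tsupport
        intro h2
        have := hβr₁ i h2
        rw [Metric.mem_closedBall, dist_eq_norm] at this
        linarith
      rw [h1, sub_zero, hBeq]
      have h2 : ∀ y, β i y * η (x - y) = 0 := by
        intro y
        by_cases hy : y ∈ tsupport (β i)
        · have h3 := hβr₁ i hy
          rw [Metric.mem_closedBall, dist_eq_norm] at h3
          have h4 : x - y ∉ tsupport η := by
            intro h5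
            have h6 := hηs h5
            rw [mem_ball_zero_iff] at h6
            have h7 : ‖x - x₀‖ ≤ ‖x - y‖ + ‖y - x₀‖ := by
              have : x - x₀ = (x - y) + (y - x₀) := by abel
              rw [this]
              exact norm_add_le _ _
            linarith
          rw [image_eq_zero_of_notMem_tsupport h4, mul_zero]
        · rw [image_eq_zero_of_notMem_tsupport hy, zero_mul]
      simp_rw [h2]
      exact integral_zero _ _
    · intro i
      have h1 := hcl i ε η hε hη hηc hηs hηp hη1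
      have h2 : (fun x => B i x - β i x) = fun x => (∫ y, β i y * η (x - y)) - β i x := by
        funext x
        rw [hBeq]
      show Nb 3 (Cs * ε) (fun x => B i x - β i x)
      rw [h2]
      apply h1.mono
      apply mul_le_mul_of_nonneg_right _ hε.le
      exact Finset.single_le_sum (fun j _ => hCi j) (Finset.mem_univ i)

end NSC
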