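import Pool.Agent.Work.MP_57e339_an.Glob
import Pool.Agent.Work.MP_57e339_an.Loc

/-! Module Phys: assembly of the physical-space part. -/

open MeasureTheory Set Filter Topology
open scoped BigOperators
noncomputable section
namespace NSC
variable {d : ℕ}

theorem phys (hd : d = 2 ∨ d = 3) (x₀ : Rv d) {r : ℝ} (hr : 0 < r) :
    ∃ (n : ℕ) (B : Fin n → VF d),
      (∀ s, TFN 12 (B s) ∧ Dfree (B s) ∧ Su (B s) (Metric.ball x₀ r)) ∧
      ∀ 𝒟 : Set (Sq d), Adm 𝒟 → (∀ s, pr (B s) ∈ 𝒟) → ∀ v, IsV v → v ∈ 𝒟 := by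
  set r1 : ℝ := min r 1 with hr1
  have hr1p : 0 < r1 := lt_min hr one_pos
  have hr1r : r1 ≤ r := min_le_left _ _
  have hr11 : r1 ≤ 1 := min_le_right _ _
  obtain ⟨α, hα, hαc, hαi⟩ := core_fields hd x₀ hr1p
  obtain ⟨σ, hσ, hσc, hσi⟩ := strain_fields hd x₀ hr1p
  have hr32 : 0 < r1 / 32 := by positivity
  obtain ⟨n, G, P, hG, hP, hGP⟩ := ker 14 x₀ hr32
  let ι := Fin d ⊕ (StrI d ⊕ (Fin n × Fin d × Fin d))
  let B0 : ι → VF d := Sum.elim α (Sum.elim σ (fun s => curl2 s.2.1 s.2.2 (G s.1)))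
  let e := Fintype.equivFin ι
  have hball1 : Metric.ball x₀ r1 ⊆ Metric.ball x₀ r := Metric.ball_subset_ball hr1r
  have hball2 : Metric.ball x₀ r1 ⊆ Metric.ball x₀ 1 := Metric.ball_subset_ball hr11
  have hball3 : Metric.ball x₀ (r1 / 32) ⊆ Metric.ball x₀ r :=
    Metric.ball_subset_ball (by linarith)
  have hprop : ∀ i : ι, TFN 12 (B0 i) ∧ Dfree (B0 i) ∧ Su (B0 i) (Metric.ball x₀ r) := by
    rintro (t | t | ⟨s, p, q⟩)
    · exact ⟨(hα t).1.tfn 12, (hα t).2.1, fun i => ((hα t).2.2 i).trans hball1⟩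
    · exact ⟨(hσ t).1.tfn 12, (hσ t).2.1, fun i => ((hσ t).2.2 i).trans hball1⟩
    · refine ⟨?_, ?_, ?_⟩
      · exact curl2_TFN (N := 12) ((hG s).1.of_le (by norm_num)) (hG s).2.2 p q
      · exact curl2_dfree ((hG s).1.of_le (by norm_num)) p q
      · exact curl2_su ((hG s).2.1.trans hball3) p q
  refine ⟨Fintype.card ι, fun s => B0 (e.symm s), fun s => hprop _, ?_⟩
  intro 𝒟 h𝒟 hin
  have hin' : ∀ i : ι, pr (B0 i) ∈ 𝒟 := by
    intro i
    have := hin (e i)
    simpa using this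
  have hαg : ∀ t, Good 𝒟 (pr (α t)) := by
    intro t
    exact good_of_iso hd h𝒟 (x₀ := x₀)
      (fun t => ⟨(hα t).1, (hα t).2.1, fun i => ((hα t).2.2 i).trans hball2⟩) hαi
      (fun t => hin' (Sum.inl t)) t
  have hσg : ∀ t, Good 𝒟 (pr (σ t)) := by
    intro t
    exact good_of_iso hd h𝒟 (x₀ := x₀)
      (fun t => ⟨(hσ t).1, (hσ t).2.1, fun i => ((hσ t).2.2 i).trans hball2⟩) hσi
      (fun t => hin' (Sum.inr (Sum.inl t))) t
  have htr : ∀ b : VF d, TFN 12 b → Dfree b → Su b (Metric.ball x₀ (r1 / 32)) → pr b ∈ 𝒟 →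
      ∀ y : Rv d, ‖y‖ ≤ r1 / 32 → pr (trl y b) ∈ 𝒟 := by
    intro b hb hbd hbs hbin y hy
    exact transl hd h𝒟 hr1p hr11 hα hαc hαg hb hbd hbs hbin hy
  have hcurl : ∀ φ : Rv d → ℝ, ContDiff ℝ (⊤ : ℕ∞) φ → tsupport φ ⊆ Metric.ball x₀ (r1 / 32) →
      ∀ p q, pr (curl2 p q φ) ∈ 𝒟 := by
    intro φ hφ hφs p q
    exact curl_mem hd h𝒟 hr32 htr hG hP hGP
      (fun s p q => hin' (Sum.inr (Sum.inr (s, p, q)))) hφ hφs p q
  have huni : ∀ φ : Rv d → ℝ, ContDiff ℝ (⊤ : ℕ∞) φ → tsupport φ ⊆ Metric.ball x₀ (r1 / 32) →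
      ∀ i p, pr (uni p (pd i φ)) ∈ 𝒟 := by
    intro φ hφ hφs i p
    exact strain_step hd h𝒟 hr1p hr11 (by linarith) hσ hσc hσg hcurl hφ hφs i p
  have hloc : ∀ β : VF d, TF β → Su β (Metric.ball x₀ (r1 / 32)) → (∀ i, ∫ x, β i x = 0) →
      pr β ∈ 𝒟 := by
    intro β hβ hβs hβ0
    exact loc_mem hd h𝒟 hr32 huni hβ hβs hβ0
  -- the bump
  obtain ⟨η, hη, hηc, hηs, -, hη1⟩ := exists_mollifier d hr32
  let χ : Rv d → ℝ := fun x => η (x - x₀)
  have hχ : ContDiff ℝ (⊤ : ℕ∞) χ := hη.comp (contDiff_id.sub contDiff_const)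
  have hχs : tsupport χ ⊆ Metric.ball x₀ (r1 / 32) := by
    have hsub : tsupport χ ⊆ (fun x => x - x₀) ⁻¹' tsupport η := by
      apply closure_minimal
      · intro x hx
        exact subset_tsupport _ hx
      · exact (isClosed_tsupport η).preimage (continuous_id.sub continuous_const)
    intro x hx
    have h1 := hηs (hsub hx)
    simpa [Metric.mem_ball, dist_eq_norm] using h1
  have hχc : HasCompactSupport χ := by
    apply IsCompact.of_isClosed_subset (isCompact_closedBall x₀ (r1 / 32)) (isClosed_tsupport χ)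
    exact hχs.trans Metric.ball_subset_closedBall
  have hχ1 : ∫ x, χ x = 1 := by
    rw [← hη1]
    exact integral_sub_right_eq_self η x₀
  have hPP : ∀ x ∈ tsupport χ, PP 𝒟 χ x := by
    intro x hx
    have hx' := hχs hx
    obtain ⟨ρ, hρ, hρs⟩ := Metric.isOpen_iff.1 Metric.isOpen_ball x hx'
    refine ⟨ρ, hρ, ?_⟩
    intro β hβ hβs
    have hTF : TF (mz χ β) := by
      intro i
      refine ⟨(hβ i).1.sub (contDiff_const.mul hχ), ?_⟩
      exact (hβ i).2.sub hχc.mul_left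
    apply hloc _ hTF
    · intro i
      have h1 : Function.support (mz χ β i) ⊆ tsupport (β i) ∪ tsupport χ := by
        intro y hy
        by_contra hcon
        rw [mem_union, not_or] at hcon
        apply hy
        have e1 : β i y = 0 := image_eq_zero_of_notMem_tsupport hcon.1
        have e2 : χ y = 0 := image_eq_zero_of_notMem_tsupport hcon.2
        simp [mz, e1, e2]
      have h2 : tsupport (mz χ β i) ⊆ tsupport (β i) ∪ tsupport χ :=
        closure_minimal h1 ((isClosed_tsupport _).union (isClosed_tsupport _))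
      exact h2.trans (union_subset ((hβs i).trans hρs) hχs)
    · intro i
      have hi1 : Integrable (β i) := (hβ i).1.continuous.integrable_of_hasCompactSupport (hβ i).2
      have hi2 : Integrable χ := hχ.continuous.integrable_of_hasCompactSupport hχc
      have : ∫ x, mz χ β i x = (∫ x, β i x) - ∫ x, (∫ y, β i y) * χ x := by
        simp only [mz]
        exact integral_sub hi1 (hi2.const_mul _)
      rw [this, integral_const_mul, hχ1]
      ring
  exact glob hd h𝒟 hχ hχc hχ1 hPP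

end NSC
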