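import Pool.Agent.Work.MP_57e339_an.CoreE
import Pool.Agent.Work.MP_57e339_an.KerE
import Pool.Agent.Work.MP_57e339_an.Phys

/-! Module Expl: an explicit finite list of fields, and the physical-space part for it. -/

open MeasureTheory Set Filter Topology
open scoped BigOperators
noncomputable section
namespace NSC
variable {d : ℕ}

/-- the potentials of degree one -/
def potL (h : ℝ → ℝ) (x₀ : Rv d) (j : Fin d) (x : Rv d) : ℝ := h (coref_rho x₀ x) * (x j - x₀ j)

/-- the potentials of degree two -/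
def potQ (h : ℝ → ℝ) (x₀ : Rv d) (i j : Fin d) (x : Rv d) : ℝ :=
  h (coref_rho x₀ x) * ((x i - x₀ i) * (x j - x₀ j))

theorem potL_smooth {h : ℝ → ℝ} (hh : ContDiff ℝ (⊤ : ℕ∞) h) (x₀ : Rv d) (j : Fin d) :
    ContDiff ℝ (⊤ : ℕ∞) (potL h x₀ j) :=
  (coref_contDiff_comp hh x₀).mul (coref_contDiff_coord x₀ j)

theorem potQ_smooth {h : ℝ → ℝ} (hh : ContDiff ℝ (⊤ : ℕ∞) h) (x₀ : Rv d) (i j : Fin d) :
    ContDiff ℝ (⊤ : ℕ∞) (potQ h x₀ i j) :=
  (coref_contDiff_comp hh x₀).mul ((coref_contDiff_coord x₀ i).mul (coref_contDiff_coord x₀ j))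

theorem expl_supp {h : ℝ → ℝ} {r : ℝ} (hr : 0 < r) (h0 : ∀ s, (r / 2) ^ 2 ≤ s → h s = 0)
    (x₀ : Rv d) (f : Rv d → ℝ) :
    tsupport (fun x => h (coref_rho x₀ x) * f x) ⊆ Metric.closedBall x₀ (r / 2) := by
  apply closure_minimal _ Metric.isClosed_closedBall
  intro x hx
  by_contra hcon
  rw [Metric.mem_closedBall, not_le] at hcon
  apply hx
  have hrho : (r / 2) ^ 2 < coref_rho x₀ x := by
    rw [coref_rho_eq]
    exact pow_lt_pow_left₀ hcon (by positivity) (by norm_num)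
  have e0 : h (coref_rho x₀ x) = 0 := h0 _ hrho.le
  simp only [e0, zero_mul]

theorem pd_potL {h : ℝ → ℝ} (hh : ContDiff ℝ (⊤ : ℕ∞) h) (x₀ : Rv d) (j q : Fin d) (x : Rv d) :
    pd q (potL h x₀ j) x = 2 * deriv h (coref_rho x₀ x) * (x q - x₀ q) * (x j - x₀ j) +
      h (coref_rho x₀ x) * (if q = j then 1 else 0) := by
  have d1 : DifferentiableAt ℝ (fun x => h (coref_rho x₀ x)) x :=
    ((coref_contDiff_comp hh x₀).differentiable (by simp)) x
  have d2 : DifferentiableAt ℝ (fun x : Rv d => x j - x₀ j) x := by fun_prop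
  have : pd q (potL h x₀ j) x = pd q (fun x => h (coref_rho x₀ x)) x * (x j - x₀ j) +
      h (coref_rho x₀ x) * pd q (fun x : Rv d => x j - x₀ j) x := pd_mul d1 d2 q
  rw [this, coref_pd_rho hh, coref_pd_coord]
  ring

theorem pd_potQ {h : ℝ → ℝ} (hh : ContDiff ℝ (⊤ : ℕ∞) h) (x₀ : Rv d) (b k q : Fin d) (x : Rv d) :
    pd q (potQ h x₀ b k) x =
      2 * deriv h (coref_rho x₀ x) * (x q - x₀ q) * ((x b - x₀ b) * (x k - x₀ k)) +
      h (coref_rho x₀ x) * ((if q = b then 1 else 0) * (x k - x₀ k) +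
        (x b - x₀ b) * (if q = k then 1 else 0)) := by
  have d1 : DifferentiableAt ℝ (fun x => h (coref_rho x₀ x)) x :=
    ((coref_contDiff_comp hh x₀).differentiable (by simp)) x
  have d2 : ∀ a, DifferentiableAt ℝ (fun x : Rv d => x a - x₀ a) x := fun a => by fun_prop
  have : pd q (potQ h x₀ b k) x =
      pd q (fun x => h (coref_rho x₀ x)) x * ((x b - x₀ b) * (x k - x₀ k)) +
      h (coref_rho x₀ x) * pd q (fun x : Rv d => (x b - x₀ b) * (x k - x₀ k)) x :=
    pd_mul d1 ((d2 b).mul (d2 k)) q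
  rw [this, coref_pd_rho hh, pd_mul (d2 b) (d2 k), coref_pd_coord, coref_pd_coord]
  ring

theorem coreE_eq {h : ℝ → ℝ} (hh : ContDiff ℝ (⊤ : ℕ∞) h) (x₀ : Rv d) (t i : Fin d) (x : Rv d) :
    coreE h x₀ t i x = ∑ j, ((d : ℝ) - 1)⁻¹ * curl2 t j (potL h x₀ j) i x := by
  have e1 : ∀ j, curl2 t j (potL h x₀ j) i x =
      (if i = t then (2 * deriv h (coref_rho x₀ x) * (x j - x₀ j) ^ 2 + h (coref_rho x₀ x)) else 0) -
      (if i = j then 2 * deriv h (coref_rho x₀ x) * (x t - x₀ t) * (x i - x₀ i) +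
        h (coref_rho x₀ x) * (if i = t then 1 else 0) else 0) := by
    intro j
    unfold curl2
    rw [pd_potL hh, pd_potL hh]
    congr 1
    · by_cases hit : i = t
      · rw [if_pos hit, if_pos hit, if_pos rfl]
        ring
      · rw [if_neg hit, if_neg hit]
    · by_cases hij : i = j
      · subst hij
        simp only [if_true, eq_comm]
      · rw [if_neg hij, if_neg hij]
  rw [← Finset.mul_sum]
  simp only [e1, Finset.sum_sub_distrib, Finset.sum_ite_eq, Finset.mem_univ, if_true]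
  have e2 : ∑ j : Fin d, (if i = t then (2 * deriv h (coref_rho x₀ x) * (x j - x₀ j) ^ 2 +
      h (coref_rho x₀ x)) else 0) = (if i = t then 1 else 0) *
      (2 * deriv h (coref_rho x₀ x) * coref_rho x₀ x + d * h (coref_rho x₀ x)) := by
    split_ifs
    · rw [Finset.sum_add_distrib, ← Finset.mul_sum, Finset.sum_const, Finset.card_univ,
        Fintype.card_fin, nsmul_eq_mul, one_mul]
      rfl
    · simp
  rw [e2]
  unfold coreE coref_field
  ring

theorem strE_eq {h : ℝ → ℝ} (hh : ContDiff ℝ (⊤ : ℕ∞) h) (x₀ : Rv d) (t : StrI d)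
    (i : Fin d) (x : Rv d) :
    strE h x₀ t i x = ∑ s : Fin d × Fin d × Fin d, ((d : ℝ)⁻¹ * strEA t s.1 s.2.2) *
      curl2 s.1 s.2.1 (potQ h x₀ s.2.1 s.2.2) i x := by
  rw [Fintype.sum_prod_type]
  simp only [Fintype.sum_prod_type]
  have hA : ∀ a b, strEA t a b = strEA t b a := by
    intro a b
    unfold strEA
    rw [strf_symm]
  have htr : ∑ a, strEA t a a = 0 := by
    unfold strEA
    rw [← Finset.mul_sum, strf_trace, mul_zero]
  set A := strEA t with hAdef
  set H' := deriv h (coref_rho x₀ x) with hH'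
  set H := h (coref_rho x₀ x) with hH
  set y : Fin d → ℝ := fun a => x a - x₀ a with hy
  have hrho : coref_rho x₀ x = ∑ a, y a ^ 2 := rfl
  have hl : ∀ a, strf_lin A x₀ a x = ∑ k, A a k * y k := fun a => rfl
  have hq : strf_q A x₀ x = ∑ a, y a * strf_lin A x₀ a x := rfl
  have e1 : ∀ a b k : Fin d, (d : ℝ)⁻¹ * A a k * curl2 a b (potQ h x₀ b k) i x =
      (if i = a then (d : ℝ)⁻¹ * (A i k * (2 * H' * y b ^ 2 * y k + H * (y k +
        (if b = k then y k else 0)))) else 0) -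
      (if i = b then (d : ℝ)⁻¹ * (A a k * (2 * H' * y a * y i * y k +
        H * ((if a = i then y k else 0) + (if a = k then y i else 0)))) else 0) := by
    intro a b k
    unfold curl2
    rw [pd_potQ hh, pd_potQ hh, mul_sub]
    congr 1
    · by_cases hia : i = a
      · subst hia
        rw [if_pos rfl, if_pos rfl, if_pos rfl]
        by_cases hbk : b = k
        · subst hbk
          rw [if_pos rfl, if_pos rfl]
          ring
        · rw [if_neg hbk, if_neg hbk]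
          ring
      · rw [if_neg hia, if_neg hia, mul_zero]
    · by_cases hib : i = b
      · subst hib
        rw [if_pos rfl, if_pos rfl]
        by_cases hai : a = i
        · rw [if_pos hai, if_pos hai]
          by_cases hak : a = k
          · rw [if_pos hak, if_pos hak]
            ring
          · rw [if_neg hak, if_neg hak]
            ring
        · rw [if_neg hai, if_neg hai]
          by_cases hak : a = k
          · rw [if_pos hak, if_pos hak]
            ring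
          · rw [if_neg hak, if_neg hak]
            ring
      · rw [if_neg hib, if_neg hib, mul_zero]
  simp only [e1, Finset.sum_sub_distrib]
  have e2 : ∑ a : Fin d, ∑ b : Fin d, ∑ k : Fin d, (if i = a then (d : ℝ)⁻¹ * (A i k *
      (2 * H' * y b ^ 2 * y k + H * (y k + (if b = k then y k else 0)))) else 0) =
      (d : ℝ)⁻¹ * (2 * H' * coref_rho x₀ x * strf_lin A x₀ i x +
        H * (d * strf_lin A x₀ i x + strf_lin A x₀ i x)) := by
    have e3 : ∀ b k : Fin d, (d : ℝ)⁻¹ * (A i k * (2 * H' * y b ^ 2 * y k + H * (y k +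
        (if b = k then y k else 0)))) = (d : ℝ)⁻¹ * (2 * H' * y b ^ 2) * (A i k * y k) +
        (d : ℝ)⁻¹ * H * (A i k * y k) + (if b = k then (d : ℝ)⁻¹ * H * (A i k * y k) else 0) := by
      intro b k
      split_ifs <;> ring
    have e4 : ∀ a : Fin d, ∑ b : Fin d, ∑ k : Fin d, (if i = a then (d : ℝ)⁻¹ * (A i k *
      (2 * H' * y b ^ 2 * y k + H * (y k + (if b = k then y k else 0)))) else 0) =
      if i = a then ∑ b : Fin d, ∑ k : Fin d, (d : ℝ)⁻¹ * (A i k *
      (2 * H' * y b ^ 2 * y k + H * (y k + (if b = k then y k else 0)))) else 0 := by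
      intro a
      split_ifs
      · rfl
      · simp
    simp only [e4, Finset.sum_ite_eq, Finset.mem_univ, if_true]
    simp only [e3, Finset.sum_add_distrib, Finset.sum_ite_eq, Finset.mem_univ, if_true,
      ← Finset.mul_sum, ← hl]
    rw [Finset.sum_const, Finset.card_univ, Fintype.card_fin, nsmul_eq_mul, ← Finset.sum_mul,
      ← Finset.mul_sum, ← Finset.mul_sum, ← hrho]
    ring
  have e5 : ∑ a : Fin d, ∑ b : Fin d, ∑ k : Fin d, (if i = b then (d : ℝ)⁻¹ * (A a k *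
      (2 * H' * y a * y i * y k +
        H * ((if a = i then y k else 0) + (if a = k then y i else 0)))) else 0) =
      (d : ℝ)⁻¹ * (2 * H' * strf_q A x₀ x * y i + H * strf_lin A x₀ i x) := by
    have e6 : ∀ a k : Fin d, (d : ℝ)⁻¹ * (A a k * (2 * H' * y a * y i * y k +
        H * ((if a = i then y k else 0) + (if a = k then y i else 0)))) =
        (d : ℝ)⁻¹ * (2 * H' * y i * y a) * (A a k * y k) +
        (if a = i then (d : ℝ)⁻¹ * H * (A a k * y k) else 0) +
        (if a = k then (d : ℝ)⁻¹ * H * y i * A a a else 0) := by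
      intro a k
      by_cases hak : a = k
      · subst hak
        split_ifs <;> ring
      · rw [if_neg hak, if_neg hak]
        split_ifs <;> ring
    have e7 : ∀ a : Fin d, ∑ b : Fin d, ∑ k : Fin d, (if i = b then (d : ℝ)⁻¹ * (A a k *
      (2 * H' * y a * y i * y k +
        H * ((if a = i then y k else 0) + (if a = k then y i else 0)))) else 0) =
        ∑ k : Fin d, (d : ℝ)⁻¹ * (A a k *
      (2 * H' * y a * y i * y k +
        H * ((if a = i then y k else 0) + (if a = k then y i else 0)))) := by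
      intro a
      rw [Finset.sum_comm]
      simp only [Finset.sum_ite_eq, Finset.mem_univ, if_true]
    simp only [e7]
    simp only [e6, Finset.sum_add_distrib, Finset.sum_ite_eq, Finset.mem_univ, if_true]
    simp only [← Finset.mul_sum, ← hl, htr]
    have e8 : ∑ a : Fin d, ∑ k : Fin d, (if a = i then (d : ℝ)⁻¹ * H * (A a k * y k) else 0) =
        (d : ℝ)⁻¹ * H * strf_lin A x₀ i x := by
      have e9 : ∀ a : Fin d, ∑ k : Fin d, (if a = i then (d : ℝ)⁻¹ * H * (A a k * y k) else 0) =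
          if a = i then (d : ℝ)⁻¹ * H * strf_lin A x₀ a x else 0 := by
        intro a
        split_ifs
        · rw [← Finset.mul_sum, hl]
        · simp
      simp only [e9, Finset.sum_ite_eq', Finset.mem_univ, if_true]
    rw [e8, hq]
    have e10 : ∑ a, (d : ℝ)⁻¹ * (2 * H' * y i * y a) * strf_lin A x₀ a x =
        (d : ℝ)⁻¹ * (2 * H' * y i) * ∑ a, y a * strf_lin A x₀ a x := by
      rw [Finset.mul_sum]
      apply Finset.sum_congr rfl
      intro a _
      ring
    rw [e10]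
    ring
  rw [e2, e5]
  unfold strE strf_field
  rw [← hAdef]
  ring

/-! ### The list of fields -/

/-- the index set of the potentials -/
abbrev PotI (d : ℕ) := Fin d ⊕ ((Fin d × Fin d) ⊕ Finset (Fin d))

/-- the list of potentials, for a cutoff `h` of the squared distance and a cutoff `θ` on the
line -/
def potE (h θ : ℝ → ℝ) (x₀ : Rv d) : PotI d → Rv d → ℝ :=
  Sum.elim (potL h x₀) (Sum.elim (fun s => potQ h x₀ s.1 s.2) (kerEG 14 θ x₀))

/-- the list of fields -/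
def fldE (h θ : ℝ → ℝ) (x₀ : Rv d) (s : PotI d × Fin d × Fin d) : VF d :=
  curl2 s.2.1 s.2.2 (potE h θ x₀ s.1)

theorem expl_mem_sum {𝒟 : Set (Sq d)} (h𝒟 : Adm 𝒟) {ι : Type} [Fintype ι] {v : ι → Sq d}
    (h : ∀ s, v s ∈ 𝒟) : ∑ s, v s ∈ 𝒟 := by
  classical
  have : ∀ t : Finset ι, ∑ s ∈ t, v s ∈ 𝒟 := by
    intro t
    induction t using Finset.induction_on with
    | empty => rw [Finset.sum_empty]; exact h𝒟.zero
    | insert a t ha ih => rw [Finset.sum_insert ha]; exact h𝒟.add _ (h a) _ ih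
  exact this _

theorem expl_mem_comb {𝒟 : Set (Sq d)} (h𝒟 : Adm 𝒟) {ι : Type} [Fintype ι] {β : ι → VF d}
    (hβ : ∀ s, TFN 0 (β s)) (h : ∀ s, pr (β s) ∈ 𝒟) (c : ι → ℝ) {γ : VF d}
    (hγ : ∀ i x, γ i x = ∑ s, c s * β s i x) : pr γ ∈ 𝒟 := by
  have h1 : γ = fun i x => ∑ s ∈ Finset.univ, (fun i x => c s * β s i x : VF d) i x := by
    funext i x
    exact hγ i x
  have h2 : pr γ = ∑ s, c s • pr (β s) := by
    rw [h1, pr_sum Finset.univ (β := fun s => (fun i x => c s * β s i x : VF d))]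
    · simp only [pr_smul]
    · intro s _ i
      exact ⟨contDiff_const.mul ((hβ s) i).1, ((hβ s) i).2.mul_left⟩
  rw [h2]
  exact expl_mem_sum h𝒟 fun s => h𝒟.smul _ _ (h s)

section
variable {h θ : ℝ → ℝ} {r : ℝ}

theorem potE_prop (hr : 0 < r) (hh : ContDiff ℝ (⊤ : ℕ∞) h) (h0 : ∀ s, (r / 2) ^ 2 ≤ s → h s = 0)
    (hθ : ContDiff ℝ (⊤ : ℕ∞) θ) (hθ0 : ∀ u, r / 32 / (d + 1) / 2 ≤ |u| → θ u = 0)
    (hθ1 : ∀ u, |u| ≤ r / 32 / (d + 1) / 4 → θ u = 1) (x₀ : Rv d) (s : PotI d) :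
    ContDiff ℝ 14 (potE h θ x₀ s) ∧ tsupport (potE h θ x₀ s) ⊆ Metric.ball x₀ r ∧
      HasCompactSupport (potE h θ x₀ s) := by
  have hb : Metric.closedBall x₀ (r / 2) ⊆ Metric.ball x₀ r :=
    Metric.closedBall_subset_ball (by linarith)
  have key : ∀ f : Rv d → ℝ, ContDiff ℝ (⊤ : ℕ∞) (fun x => h (coref_rho x₀ x) * f x) →
      ContDiff ℝ 14 (fun x => h (coref_rho x₀ x) * f x) ∧
      tsupport (fun x => h (coref_rho x₀ x) * f x) ⊆ Metric.ball x₀ r ∧
      HasCompactSupport (fun x => h (coref_rho x₀ x) * f x) := by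
    intro f hf
    have h1 := expl_supp hr h0 x₀ f
    exact ⟨loc_top hf 14, h1.trans hb,
      (isCompact_closedBall x₀ (r / 2)).of_isClosed_subset (isClosed_tsupport _) h1⟩
  rcases s with j | ⟨i, j⟩ | S
  · exact key (fun x => x j - x₀ j) (potL_smooth hh x₀ j)
  · exact key (fun x => (x i - x₀ i) * (x j - x₀ j)) (potQ_smooth hh x₀ i j)
  · have hr32 : 0 < r / 32 := by positivity
    obtain ⟨P, hG, -, -⟩ := kerE 14 x₀ hr32 hθ hθ0 hθ1 (Fintype.equivFin (Finset (Fin d)))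
    have h1 := hG (Fintype.equivFin (Finset (Fin d)) S)
    rw [Equiv.symm_apply_apply] at h1
    exact ⟨h1.1, h1.2.1.trans (Metric.ball_subset_ball (by linarith)), h1.2.2⟩

theorem fldE_prop (hr : 0 < r) (hh : ContDiff ℝ (⊤ : ℕ∞) h) (h0 : ∀ s, (r / 2) ^ 2 ≤ s → h s = 0)
    (hθ : ContDiff ℝ (⊤ : ℕ∞) θ) (hθ0 : ∀ u, r / 32 / (d + 1) / 2 ≤ |u| → θ u = 0)
    (hθ1 : ∀ u, |u| ≤ r / 32 / (d + 1) / 4 → θ u = 1) (x₀ : Rv d) (s : PotI d × Fin d × Fin d) :
    TFN 12 (fldE h θ x₀ s) ∧ Dfree (fldE h θ x₀ s) ∧ Su (fldE h θ x₀ s) (Metric.ball x₀ r) := by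
  obtain ⟨h1, h2, h3⟩ := potE_prop hr hh h0 hθ hθ0 hθ1 x₀ s.1
  refine ⟨?_, ?_, ?_⟩
  · exact curl2_TFN (N := 12) (h1.of_le (by norm_num)) h3 _ _
  · exact curl2_dfree (h1.of_le (by norm_num)) _ _
  · exact curl2_su h2 _ _

theorem physE (hd : d = 2 ∨ d = 3) (x₀ : Rv d) (hr : 0 < r) (hr1 : r ≤ 1)
    (hh : ContDiff ℝ (⊤ : ℕ∞) h) (h1 : ∀ s ≤ (r / 4) ^ 2, h s = 1)
    (h0 : ∀ s, (r / 2) ^ 2 ≤ s → h s = 0) (hθ : ContDiff ℝ (⊤ : ℕ∞) θ)
    (hθ0 : ∀ u, r / 32 / (d + 1) / 2 ≤ |u| → θ u = 0)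
    (hθ1 : ∀ u, |u| ≤ r / 32 / (d + 1) / 4 → θ u = 1)
    {𝒟 : Set (Sq d)} (h𝒟 : Adm 𝒟) (hin : ∀ s, pr (fldE h θ x₀ s) ∈ 𝒟) :
    ∀ v, IsV v → v ∈ 𝒟 := by
  obtain ⟨hα, hαc, hαi⟩ := core_fieldsE hd x₀ hr hh h1 h0
  obtain ⟨hσ, hσc, hσi⟩ := strain_fieldsE hd x₀ hr hh h1 h0
  have hr32 : 0 < r / 32 := by positivity
  obtain ⟨P, hG, hP, hGP⟩ := kerE 14 x₀ hr32 hθ hθ0 hθ1 (Fintype.equivFin (Finset (Fin d)))
  have hball2 : Metric.ball x₀ r ⊆ Metric.ball x₀ 1 := Metric.ball_subset_ball hr1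
  have hprop := fldE_prop hr hh h0 hθ hθ0 hθ1 x₀
  have hT0 : ∀ s, TFN 0 (fldE h θ x₀ s) := fun s i =>
    ⟨((hprop s).1 i).1.of_le (by norm_num), ((hprop s).1 i).2⟩
  have hαin : ∀ t, pr (coreE h x₀ t) ∈ 𝒟 := by
    intro t
    apply expl_mem_comb h𝒟 (ι := Fin d) (β := fun j => fldE h θ x₀ (Sum.inl j, t, j))
      (fun j => hT0 _) (fun j => hin _) (fun _ => ((d : ℝ) - 1)⁻¹)
    intro i x
    exact coreE_eq hh x₀ t i x
  have hσin : ∀ t, pr (strE h x₀ t) ∈ 𝒟 := by
    intro t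
    apply expl_mem_comb h𝒟 (ι := Fin d × Fin d × Fin d)
      (β := fun s => fldE h θ x₀ (Sum.inr (Sum.inl (s.2.1, s.2.2)), s.1, s.2.1))
      (fun j => hT0 _) (fun j => hin _) (fun s => (d : ℝ)⁻¹ * strEA t s.1 s.2.2)
    intro i x
    exact strE_eq hh x₀ t i x
  have hαg : ∀ t, Good 𝒟 (pr (coreE h x₀ t)) := by
    intro t
    exact good_of_iso hd h𝒟 (x₀ := x₀)
      (fun t => ⟨(hα t).1, (hα t).2.1, fun i => ((hα t).2.2 i).trans hball2⟩) hαi hαin t
  have hσg : ∀ t, Good 𝒟 (pr (strE h x₀ t)) := by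
    intro t
    exact good_of_iso hd h𝒟 (x₀ := x₀)
      (fun t => ⟨(hσ t).1, (hσ t).2.1, fun i => ((hσ t).2.2 i).trans hball2⟩) hσi hσin t
  have htr : ∀ b : VF d, TFN 12 b → Dfree b → Su b (Metric.ball x₀ (r / 32)) → pr b ∈ 𝒟 →
      ∀ y : Rv d, ‖y‖ ≤ r / 32 → pr (trl y b) ∈ 𝒟 := by
    intro b hb hbd hbs hbin y hy
    exact transl hd h𝒟 hr hr1 hα hαc hαg hb hbd hbs hbin hy
  have hcurl : ∀ φ : Rv d → ℝ, ContDiff ℝ (⊤ : ℕ∞) φ → tsupport φ ⊆ Metric.ball x₀ (r / 32) →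
      ∀ p q, pr (curl2 p q φ) ∈ 𝒟 := by
    intro φ hφ hφs p q
    exact curl_mem hd h𝒟 hr32 htr hG hP hGP
      (fun s p q => hin (Sum.inr (Sum.inr _), p, q)) hφ hφs p q
  have huni : ∀ φ : Rv d → ℝ, ContDiff ℝ (⊤ : ℕ∞) φ → tsupport φ ⊆ Metric.ball x₀ (r / 32) →
      ∀ i p, pr (uni p (pd i φ)) ∈ 𝒟 := by
    intro φ hφ hφs i p
    exact strain_step hd h𝒟 hr hr1 (by linarith) hσ hσc hσg hcurl hφ hφs i p
  have hloc : ∀ β : VF d, TF β → Su β (Metric.ball x₀ (r / 32)) → (∀ i, ∫ x, β i x = 0) →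
      pr β ∈ 𝒟 := by
    intro β hβ hβs hβ0
    exact loc_mem hd h𝒟 hr32 huni hβ hβs hβ0
  -- the bump
  obtain ⟨η, hη, hηc, hηs, -, hη1⟩ := exists_mollifier d hr32
  let χ : Rv d → ℝ := fun x => η (x - x₀)
  have hχ : ContDiff ℝ (⊤ : ℕ∞) χ := hη.comp (contDiff_id.sub contDiff_const)
  have hχs : tsupport χ ⊆ Metric.ball x₀ (r / 32) := by
    have hsub : tsupport χ ⊆ (fun x => x - x₀) ⁻¹' tsupport η := by
      apply closure_minimal
      · intro x hx
        exact subset_tsupport _ hx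
      · exact (isClosed_tsupport η).preimage (continuous_id.sub continuous_const)
    intro x hx
    have h1 := hηs (hsub hx)
    simpa [Metric.mem_ball, dist_eq_norm] using h1
  have hχc : HasCompactSupport χ := by
    apply IsCompact.of_isClosed_subset (isCompact_closedBall x₀ (r / 32)) (isClosed_tsupport χ)
    exact hχs.trans Metric.ball_subset_closedBall
  have hχ1 : ∫ x, χ x = 1 := by
    rw [← hη1]
    exact integral_sub_right_eq_self η x₀
  have hPP : ∀ x ∈ tsupport χ, PP 𝒟 χ x := by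
    intro x hx
    have hx' := hχs hx
    obtain ⟨ρ, hρ, hρs⟩ := Metric.isOpen_iff.1 Metric.isOpen_ball x hx'
    refine ⟨ρ, hρ, ?_⟩
    intro β hβ hβs
    have hTF : TF (mz χ β) := by
      intro i
      refine ⟨(hβ i).1.sub (contDiff_const.mul hχ), ?_⟩
      exact (hβ i).2.sub hχc.mul_left
    apply hloc _ hTF
    · intro i
      have h1 : Function.support (mz χ β i) ⊆ tsupport (β i) ∪ tsupport χ := by
        intro y hy
        by_contra hcon
        rw [mem_union, not_or] at hcon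
        apply hy
        have e1 : β i y = 0 := image_eq_zero_of_notMem_tsupport hcon.1
        have e2 : χ y = 0 := image_eq_zero_of_notMem_tsupport hcon.2
        simp [mz, e1, e2]
      have h2 : tsupport (mz χ β i) ⊆ tsupport (β i) ∪ tsupport χ :=
        closure_minimal h1 ((isClosed_tsupport _).union (isClosed_tsupport _))
      exact h2.trans (union_subset ((hβs i).trans hρs) hχs)
    · intro i
      have hi1 : Integrable (β i) := (hβ i).1.continuous.integrable_of_hasCompactSupport (hβ i).2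
      have hi2 : Integrable χ := hχ.continuous.integrable_of_hasCompactSupport hχc
      have : ∫ x, mz χ β i x = (∫ x, β i x) - ∫ x, (∫ y, β i y) * χ x := by
        simp only [mz]
        exact integral_sub hi1 (hi2.const_mul _)
      rw [this, integral_const_mul, hχ1]
      ring
  exact glob hd h𝒟 hχ hχc hχ1 hPP

end

end NSC
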