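import Pool.Agent.Work.MP_57e339_an.BaseW

/-! Module RBas: elementary properties of `Run`, `Nr`, `Inst`. -/

open MeasureTheory Set Filter Topology
open scoped BigOperators
noncomputable section
namespace NSC
variable {d n : ℕ} {ν : ℝ} {m : Fin d → ℝ} {e : Fin n → Sq d}
variable {Θ : Type} [TopologicalSpace Θ]

theorem run_append {L L' : List (ℝ × (Fin n → ℝ))} {w w' w'' : Sq d}
    (h : Run ν m e L w w') (h' : Run ν m e L' w' w'') : Run ν m e (L ++ L') w w'' := by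
  induction L generalizing w with
  | nil =>
    have h0 : w' = w := h
    rw [← h0]; exact h'
  | cons p L ih =>
    obtain ⟨u, hu, h0, hr⟩ := h
    exact ⟨u, hu, h0, ih hr⟩

theorem run_isV {L : List (ℝ × (Fin n → ℝ))} {w w' : Sq d} (hw : IsV w)
    (hL : ∀ p ∈ L, 0 < p.1) (h : Run ν m e L w w') : IsV w' := by
  induction L generalizing w with
  | nil =>
    have h0 : w' = w := h
    rw [h0]; exact hw
  | cons p L ih =>
    obtain ⟨u, hu, h0, hr⟩ := h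
    have hp : 0 < p.1 := hL p (List.mem_cons_self ..)
    exact ih (hu.V p.1 ⟨hp.le, le_refl _⟩) (fun q hq => hL q (List.mem_cons_of_mem _ hq)) hr

theorem rbas_comb_eq (c : Fin n → ℝ) : Comb e c = ∑ i, c i • e i := by
  funext k
  rw [Finset.sum_apply]
  rfl

theorem comb_isV (he : ∀ i, IsV (e i)) (c : Fin n → ℝ) : IsV (Comb e c) := by
  rw [rbas_comb_eq]
  exact IsV.sum _ _ fun i _ => (he i).smul _

theorem comb_zero : Comb e (0 : Fin n → ℝ) = 0 := by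
  rw [rbas_comb_eq]
  simp

theorem comb_single (i : Fin n) (t : ℝ) : Comb e (Pi.single i t) = t • e i := by
  classical
  rw [rbas_comb_eq, Finset.sum_eq_single i]
  · rw [Pi.single_eq_same]
  · intro j _ hj
    rw [Pi.single_eq_of_ne hj, zero_smul]
  · intro h; exact absurd (Finset.mem_univ _) h

theorem comb_smul (t : ℝ) (c : Fin n → ℝ) : Comb e (t • c) = t • Comb e c := by
  rw [rbas_comb_eq, rbas_comb_eq, Finset.smul_sum]
  refine Finset.sum_congr rfl fun i _ => ?_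
  rw [Pi.smul_apply, smul_eq_mul, mul_smul]

theorem comb_SW {l : ℕ} (he : ∀ i, SW l (e i)) (c : Fin n → ℝ) :
    SW l (Comb e c) ∧ W l (Comb e c) ≤ ∑ i, |c i| * W l (e i) := by
  rw [rbas_comb_eq]
  obtain ⟨h1, h2⟩ := SW.sum (m := l) Finset.univ (fun i => c i • e i)
    (fun i _ => ((he i).smul (c i)).1)
  refine ⟨h1, h2.trans (le_of_eq ?_)⟩
  refine Finset.sum_congr rfl fun i _ => ?_
  exact ((he i).smul (c i)).2

theorem n1_comb_sub_le (he : ∀ i, IsV (e i)) (c c' : Fin n → ℝ) :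
    n1 (Comb e c - Comb e c') ≤ ∑ i, |c i - c' i| * n1 (e i) := by
  have h1 : Comb e c - Comb e c' = ∑ i, (c i - c' i) • e i := by
    rw [rbas_comb_eq, rbas_comb_eq, ← Finset.sum_sub_distrib]
    refine Finset.sum_congr rfl fun i _ => ?_
    rw [sub_smul]
  rw [h1]
  refine (n1_sum_le _ _ fun i _ => (he i).smul _).trans (le_of_eq ?_)
  refine Finset.sum_congr rfl fun i _ => ?_
  exact n1_smul _ _

theorem Nr.mono {x y : Θ → Sq d} {T ε ε' : ℝ} (h : Nr ν m e x y T ε) (hε : ε ≤ ε') :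
    Nr ν m e x y T ε' := by
  obtain ⟨L, hL, hT, ρ, hρ, h⟩ := h
  refine ⟨L, hL, hT, ρ, hρ, fun θ w hw hwx => ?_⟩
  obtain ⟨w', h1, h2, h3⟩ := h θ w hw hwx
  exact ⟨w', h1, h2, h3.trans_le hε⟩

/-- changing the target -/
theorem Nr.target {x y y' : Θ → Sq d} {T ε ε' : ℝ} (hy : ∀ θ, IsV (y θ)) (hy' : ∀ θ, IsV (y' θ))
    (h : Nr ν m e x y T ε) (hc : ∀ θ, n1 (y θ - y' θ) ≤ ε') : Nr ν m e x y' T (ε + ε') := by
  obtain ⟨L, hL, hT, ρ, hρ, h⟩ := h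
  refine ⟨L, hL, hT, ρ, hρ, fun θ w hw hwx => ?_⟩
  obtain ⟨w', h1, h2, h3⟩ := h θ w hw hwx
  exact ⟨w', h1, h2, (n1_tri h1 (hy θ) (hy' θ)).trans_lt (add_lt_add_of_lt_of_le h3 (hc θ))⟩

/-- composition: `y` is approximately reached from `x` with any precision (in some time `T₁` that
may depend on the precision), and `z` is reached from `y` -/
theorem Nr.comp {x y z : Θ → Sq d} {T₂ ε : ℝ} (h₂ : Nr ν m e y z T₂ ε) :
    ∃ ρ > 0, ∀ T₁, Nr ν m e x y T₁ ρ → Nr ν m e x z (T₁ + T₂) ε := by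
  obtain ⟨L₂, hL₂, hT₂, ρ₂, hρ₂, h₂⟩ := h₂
  refine ⟨ρ₂, hρ₂, ?_⟩
  rintro T₁ ⟨L₁, hL₁, hT₁, ρ₁, hρ₁, h₁⟩
  refine ⟨L₁ ++ L₂, ?_, ?_, ρ₁, hρ₁, fun θ w hw hwx => ?_⟩
  · intro p hp
    rcases List.mem_append.1 hp with hp | hp
    · exact hL₁ p hp
    · exact hL₂ p hp
  · rw [List.map_append, List.sum_append, hT₁, hT₂]
  · obtain ⟨w', h1, h2, h3⟩ := h₁ θ w hw hwx
    obtain ⟨w'', h4, h5, h6⟩ := h₂ θ w' h1 h3
    refine ⟨w'', h4, ?_, h6⟩
    rw [List.map_append]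
    exact run_append h2 h5

theorem Inst.mono {x y : Θ → Sq d} {δ δ' : ℝ} (h : Inst ν m e δ x y) (hδ : δ ≤ δ') :
    Inst ν m e δ' x y := by
  intro ε hε
  obtain ⟨T, h1, h2, h3⟩ := h ε hε
  exact ⟨T, h1, h2.trans_le hδ, h3⟩

theorem Inst.trans {x y z : Θ → Sq d} {δ δ' : ℝ} (h : Inst ν m e δ x y)
    (h' : Inst ν m e δ' y z) : Inst ν m e (δ + δ') x z := by
  intro ε hε
  obtain ⟨T₂, h1, h2, h3⟩ := h' ε hε
  obtain ⟨ρ, hρ, h4⟩ := Nr.comp (x := x) h3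
  obtain ⟨T₁, h5, h6, h7⟩ := h ρ hρ
  exact ⟨T₁ + T₂, add_pos h5 h1, add_lt_add h6 h2, h4 T₁ h7⟩

/-- a limit of approximately reachable targets is approximately reachable -/
theorem Inst.closed {x y : Θ → Sq d} {δ : ℝ} (hy : ∀ θ, IsV (y θ))
    (h : ∀ ε > 0, ∃ y' : Θ → Sq d, (∀ θ, IsV (y' θ)) ∧ Inst ν m e δ x y' ∧
      ∀ θ, n1 (y' θ - y θ) ≤ ε) : Inst ν m e δ x y := by
  intro ε hε
  obtain ⟨y', h1, h2, h3⟩ := h (ε / 2) (half_pos hε)
  obtain ⟨T, h4, h5, h6⟩ := h2 (ε / 2) (half_pos hε)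
  refine ⟨T, h4, h5, ?_⟩
  have h7 := Nr.target h1 hy h6 h3
  rwa [add_halves] at h7

/-- a single segment -/
theorem Nr.single {x y : Θ → Sq d} {T ε : ℝ} (hT : 0 < T) (c : Θ → Fin n → ℝ)
    (hc : Continuous c) {ρ : ℝ} (hρ : 0 < ρ)
    (h : ∀ θ, ∀ w, IsV w → n1 (w - x θ) < ρ → ∃ u : ℝ → Sq d, Sol ν m (Comb e (c θ)) T u ∧
      u 0 = w ∧ n1 (u T - y θ) < ε) : Nr ν m e x y T ε := by
  refine ⟨[(T, c)], ?_, ?_, ρ, hρ, fun θ w hw hwx => ?_⟩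
  · intro p hp
    rw [List.mem_singleton] at hp
    rw [hp]; exact ⟨hT, hc⟩
  · simp
  · obtain ⟨u, h1, h2, h3⟩ := h θ w hw hwx
    exact ⟨u T, h1.V T ⟨hT.le, le_refl _⟩, ⟨u, h1, h2, rfl⟩, h3⟩

end NSC
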