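import Pool.Agent.Work.MP_57e339_an.BkB

/-! Module Uniq: uniqueness of solutions bounded in `V`. -/

open MeasureTheory Set Filter Topology
open scoped BigOperators
noncomputable section
namespace NSC
variable {d : ℕ}

theorem uniq_pair {s : Finset (K d × K d)} {i j : K d × K d → K d}
    (hij : Set.InjOn (fun p => (i p, j p)) (s : Set (K d × K d))) {f g : K d → ℝ}
    (hf : ∀ k, 0 ≤ f k) (hg : ∀ k, 0 ≤ g k) {F G : ℝ} (hF : ∀ s : Finset (K d), ∑ k ∈ s, f k ≤ F)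
    (hG : ∀ s : Finset (K d), ∑ k ∈ s, g k ≤ G) :
    ∑ p ∈ s, f (i p) * g (j p) ≤ F * G := by
  classical
  have hF0 : 0 ≤ F := by simpa using hF ∅
  calc ∑ p ∈ s, f (i p) * g (j p) = ∑ q ∈ s.image (fun p => (i p, j p)), f q.1 * g q.2 := by
        rw [Finset.sum_image hij]
    _ ≤ ∑ q ∈ (s.image i) ×ˢ (s.image j), f q.1 * g q.2 := by
        refine Finset.sum_le_sum_of_subset_of_nonneg ?_ fun q _ _ => mul_nonneg (hf _) (hg _)
        intro q hq
        rw [Finset.mem_image] at hq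
        obtain ⟨p, hp, rfl⟩ := hq
        rw [Finset.mem_product]
        exact ⟨Finset.mem_image_of_mem i hp, Finset.mem_image_of_mem j hp⟩
    _ = (∑ k ∈ s.image i, f k) * ∑ k ∈ s.image j, g k := by
        rw [Finset.sum_product, Finset.sum_mul_sum]
    _ ≤ F * G := mul_le_mul (hF _) (hG _) (Finset.sum_nonneg fun k _ => hg k) hF0

theorem uniq_cs {ι : Type*} (s : Finset ι) (f g : ι → ℝ) {F G : ℝ} (hF0 : 0 ≤ F) (hG0 : 0 ≤ G)
    (hF : ∑ p ∈ s, f p ^ 2 ≤ F ^ 2) (hG : ∑ p ∈ s, g p ^ 2 ≤ G ^ 2) :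
    ∑ p ∈ s, f p * g p ≤ F * G := by
  refine (Real.sum_mul_le_sqrt_mul_sqrt s f g).trans ?_
  have h1 : Real.sqrt (∑ p ∈ s, f p ^ 2) ≤ F := Real.sqrt_le_iff.2 ⟨hF0, hF⟩
  have h2 : Real.sqrt (∑ p ∈ s, g p ^ 2) ≤ G := Real.sqrt_le_iff.2 ⟨hG0, hG⟩
  exact mul_le_mul h1 h2 (Real.sqrt_nonneg _) hF0

theorem uniq_tl {s : Finset (K d × K d)} {i1 i2 i3 : K d × K d → K d}
    (h12 : Set.InjOn (fun p => (i1 p, i2 p)) (s : Set (K d × K d)))
    (h13 : Set.InjOn (fun p => (i1 p, i3 p)) (s : Set (K d × K d)))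
    (h23 : Set.InjOn (fun p => (i2 p, i3 p)) (s : Set (K d × K d)))
    {x y w P Q : K d → ℝ} {X Y W p4 q4 c : ℝ} (hX0 : 0 ≤ X) (hY0 : 0 ≤ Y) (hW0 : 0 ≤ W)
    (hp0 : 0 ≤ p4) (hq0 : 0 ≤ q4) (hc0 : 0 ≤ c) (hc : p4 * q4 ≤ c ^ 2)
    (hX : ∀ s : Finset (K d), ∑ k ∈ s, x k ^ 2 ≤ X ^ 2)
    (hY : ∀ s : Finset (K d), ∑ k ∈ s, y k ^ 2 ≤ Y ^ 2)
    (hW : ∀ s : Finset (K d), ∑ k ∈ s, w k ^ 2 ≤ W ^ 2)
    (hP : ∀ s : Finset (K d), ∑ k ∈ s, P k ^ 4 ≤ p4 ^ 2)
    (hQ : ∀ s : Finset (K d), ∑ k ∈ s, Q k ^ 4 ≤ q4 ^ 2) :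
    ∑ p ∈ s, x (i1 p) * (P (i2 p) * y (i2 p)) * (Q (i3 p) * w (i3 p)) ≤ c * (X * Y * W) := by
  have e1 : ∑ p ∈ s, x (i1 p) * (P (i2 p) * y (i2 p)) * (Q (i3 p) * w (i3 p)) =
      ∑ p ∈ s, (x (i1 p) * P (i2 p) * Q (i3 p)) * (y (i2 p) * w (i3 p)) :=
    Finset.sum_congr rfl fun p _ => by ring
  rw [e1]
  have g1 : ∑ p ∈ s, (y (i2 p) * w (i3 p)) ^ 2 ≤ (Y * W) ^ 2 := by
    have := uniq_pair h23 (f := fun k => y k ^ 2) (g := fun k => w k ^ 2)
      (fun k => sq_nonneg _) (fun k => sq_nonneg _) hY hW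
    calc ∑ p ∈ s, (y (i2 p) * w (i3 p)) ^ 2 = ∑ p ∈ s, y (i2 p) ^ 2 * w (i3 p) ^ 2 :=
          Finset.sum_congr rfl fun p _ => by ring
      _ ≤ Y ^ 2 * W ^ 2 := this
      _ = _ := by ring
  have g2 : ∑ p ∈ s, (x (i1 p) * P (i2 p) ^ 2) ^ 2 ≤ (X * p4) ^ 2 := by
    have := uniq_pair h12 (f := fun k => x k ^ 2) (g := fun k => P k ^ 4)
      (fun k => sq_nonneg _) (fun k => by positivity) hX hP
    calc ∑ p ∈ s, (x (i1 p) * P (i2 p) ^ 2) ^ 2 = ∑ p ∈ s, x (i1 p) ^ 2 * P (i2 p) ^ 4 :=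
          Finset.sum_congr rfl fun p _ => by ring
      _ ≤ X ^ 2 * p4 ^ 2 := this
      _ = _ := by ring
  have g3 : ∑ p ∈ s, (x (i1 p) * Q (i3 p) ^ 2) ^ 2 ≤ (X * q4) ^ 2 := by
    have := uniq_pair h13 (f := fun k => x k ^ 2) (g := fun k => Q k ^ 4)
      (fun k => sq_nonneg _) (fun k => by positivity) hX hQ
    calc ∑ p ∈ s, (x (i1 p) * Q (i3 p) ^ 2) ^ 2 = ∑ p ∈ s, x (i1 p) ^ 2 * Q (i3 p) ^ 4 :=
          Finset.sum_congr rfl fun p _ => by ring
      _ ≤ X ^ 2 * q4 ^ 2 := this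
      _ = _ := by ring
  have g4 : ∑ p ∈ s, (x (i1 p) * P (i2 p) * Q (i3 p)) ^ 2 ≤ (X * c) ^ 2 := by
    have := uniq_cs s (fun p => x (i1 p) * P (i2 p) ^ 2) (fun p => x (i1 p) * Q (i3 p) ^ 2)
      (mul_nonneg hX0 hp0) (mul_nonneg hX0 hq0) g2 g3
    calc ∑ p ∈ s, (x (i1 p) * P (i2 p) * Q (i3 p)) ^ 2 =
          ∑ p ∈ s, (x (i1 p) * P (i2 p) ^ 2) * (x (i1 p) * Q (i3 p) ^ 2) :=
          Finset.sum_congr rfl fun p _ => by ring
      _ ≤ X * p4 * (X * q4) := this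
      _ = X ^ 2 * (p4 * q4) := by ring
      _ ≤ X ^ 2 * c ^ 2 := by gcongr
      _ = _ := by ring
  calc _ ≤ (X * c) * (Y * W) := uniq_cs s _ _ (mul_nonneg hX0 hc0) (mul_nonneg hY0 hW0) g4 g1
    _ = _ := by ring

/-- low frequency part -/
theorem uniq_low {s : Finset (K d × K d)} {i1 i2 i3 : K d × K d → K d}
    (h12 : Set.InjOn (fun p => (i1 p, i2 p)) (s : Set (K d × K d)))
    (h23 : Set.InjOn (fun p => (i2 p, i3 p)) (s : Set (K d × K d)))
    {x y w o : K d → ℝ} {X Y W n : ℝ} (hX0 : 0 ≤ X) (hY0 : 0 ≤ Y) (hW0 : 0 ≤ W) (hn0 : 0 ≤ n)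
    (hX : ∀ s : Finset (K d), ∑ k ∈ s, x k ^ 2 ≤ X ^ 2)
    (hY : ∀ s : Finset (K d), ∑ k ∈ s, y k ^ 2 ≤ Y ^ 2)
    (hW : ∀ s : Finset (K d), ∑ k ∈ s, w k ^ 2 ≤ W ^ 2)
    (ho : ∀ s : Finset (K d), ∑ k ∈ s, o k ^ 2 ≤ n ^ 2) :
    ∑ p ∈ s, x (i1 p) * (o (i2 p) * y (i2 p)) * w (i3 p) ≤ n * (X * Y * W) := by
  have e1 : ∑ p ∈ s, x (i1 p) * (o (i2 p) * y (i2 p)) * w (i3 p) =
      ∑ p ∈ s, (x (i1 p) * o (i2 p)) * (y (i2 p) * w (i3 p)) :=
    Finset.sum_congr rfl fun p _ => by ring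
  rw [e1]
  have g1 : ∑ p ∈ s, (y (i2 p) * w (i3 p)) ^ 2 ≤ (Y * W) ^ 2 := by
    have := uniq_pair h23 (f := fun k => y k ^ 2) (g := fun k => w k ^ 2)
      (fun k => sq_nonneg _) (fun k => sq_nonneg _) hY hW
    calc ∑ p ∈ s, (y (i2 p) * w (i3 p)) ^ 2 = ∑ p ∈ s, y (i2 p) ^ 2 * w (i3 p) ^ 2 :=
          Finset.sum_congr rfl fun p _ => by ring
      _ ≤ Y ^ 2 * W ^ 2 := this
      _ = _ := by ring
  have g2 : ∑ p ∈ s, (x (i1 p) * o (i2 p)) ^ 2 ≤ (X * n) ^ 2 := by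
    have := uniq_pair h12 (f := fun k => x k ^ 2) (g := fun k => o k ^ 2)
      (fun k => sq_nonneg _) (fun k => sq_nonneg _) hX ho
    calc ∑ p ∈ s, (x (i1 p) * o (i2 p)) ^ 2 = ∑ p ∈ s, x (i1 p) ^ 2 * o (i2 p) ^ 2 :=
          Finset.sum_congr rfl fun p _ => by ring
      _ ≤ X ^ 2 * n ^ 2 := this
      _ = _ := by ring
  calc _ ≤ (X * n) * (Y * W) := uniq_cs s _ _ (mul_nonneg hX0 hn0) (mul_nonneg hY0 hW0) g2 g1
    _ = _ := by ring

/-- pairs of indices -/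
theorem uniq_inj_a (s : Finset (K d × K d)) :
    Set.InjOn (fun p : K d × K d => (p.1 - p.2, p.2)) (s : Set (K d × K d)) := by
  intro p _ q _ h
  simp only [Prod.mk.injEq] at h
  obtain ⟨h1, h2⟩ := h
  rw [h2] at h1
  exact Prod.ext (sub_left_injective h1) h2

theorem uniq_inj_b (s : Finset (K d × K d)) :
    Set.InjOn (fun p : K d × K d => (p.1 - p.2, p.1)) (s : Set (K d × K d)) := by
  intro p _ q _ h
  simp only [Prod.mk.injEq] at h
  obtain ⟨h1, h2⟩ := h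
  rw [h2] at h1
  exact Prod.ext h2 (sub_right_injective h1)

theorem uniq_inj_c (s : Finset (K d × K d)) :
    Set.InjOn (fun p : K d × K d => (p.2, p.1)) (s : Set (K d × K d)) := by
  intro p _ q _ h
  simp only [Prod.mk.injEq] at h
  exact Prod.ext h.2 h.1

theorem uniq_inj_d (s : Finset (K d × K d)) :
    Set.InjOn (fun p : K d × K d => (p.1, p.2)) (s : Set (K d × K d)) := by
  intro p _ q _ h
  exact h

theorem uniq_inj_e (s : Finset (K d × K d)) :
    Set.InjOn (fun p : K d × K d => (p.1, p.1 - p.2)) (s : Set (K d × K d)) := by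
  intro p _ q _ h
  simp only [Prod.mk.injEq] at h
  obtain ⟨h1, h2⟩ := h
  rw [h1] at h2
  exact Prod.ext h1 (sub_right_injective h2)

theorem uniq_inj_f (s : Finset (K d × K d)) :
    Set.InjOn (fun p : K d × K d => (p.2, p.1 - p.2)) (s : Set (K d × K d)) := by
  intro p _ q _ h
  simp only [Prod.mk.injEq] at h
  obtain ⟨h1, h2⟩ := h
  rw [h1] at h2
  exact Prod.ext (sub_left_injective h2) h1

theorem uniq_finite (R : ℝ) : {k : K d | nk k ≤ R}.Finite := by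
  refine Set.Finite.subset ((finite_bx (d := d) R).insert 0) ?_
  intro k hk
  by_cases h0 : k = 0
  · exact Or.inl h0
  · exact Or.inr ⟨h0, hk⟩

/-- the trilinear estimate for nonnegative sequences -/
theorem uniq_tri (hd : d = 2 ∨ d = 3) {ν : ℝ} (hν : 0 < ν) {M : ℝ} (hM : 0 ≤ M) :
    ∃ C : ℝ, 0 ≤ C ∧ ∀ (a β γ : K d → ℝ) (N₀ N₁ : ℝ), 0 ≤ N₀ → 0 ≤ N₁ → a 0 = 0 → γ 0 = 0 →
      (∀ k, 0 ≤ a k) → (∀ k, 0 ≤ β k) → (∀ k, 0 ≤ γ k) →
      (∀ s : Finset (K d), ∑ k ∈ s, a k ^ 2 ≤ N₀ ^ 2) →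
      (∀ s : Finset (K d), ∑ k ∈ s, (nk k * a k) ^ 2 ≤ N₁ ^ 2) →
      (∀ s : Finset (K d), ∑ k ∈ s, β k ^ 2 ≤ M ^ 2) →
      (∀ s : Finset (K d), ∑ k ∈ s, γ k ^ 2 ≤ M ^ 2) →
      (∀ s : Finset (K d), ∑ k ∈ s, (nk k * γ k) ^ 2 ≤ M ^ 2) →
      ∀ s : Finset (K d × K d), ∑ p ∈ s, (a p.1 * (a p.2 * β (p.1 - p.2)) +
        nk p.1 * a p.1 * (γ p.2 * a (p.1 - p.2))) ≤ ν / 2 * N₁ ^ 2 + C * N₀ ^ 2 := by
  classical
  have hS := summable_nk4 (d := d) hd
  set S4 : ℝ := ∑' k : K d, (nk k ^ 4)⁻¹ with hS4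
  have hS40 : 0 ≤ S4 := tsum_nonneg fun k => by
    have := nk_nonneg k
    positivity
  set c : ℝ := ν / (16 * (M + 1)) with hc
  have hc0 : 0 < c := by positivity
  set q4 : ℝ := Real.sqrt (S4 + 1) with hq4
  have hq0 : 0 < q4 := Real.sqrt_pos.2 (by linarith)
  have hq2 : q4 ^ 2 = S4 + 1 := Real.sq_sqrt (by linarith)
  set p4 : ℝ := c ^ 2 / q4 with hp4
  have hp0 : 0 < p4 := by positivity
  have hpq : p4 * q4 ≤ c ^ 2 := by
    rw [hp4]; field_simp; exact le_rfl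
  -- choice of R
  obtain ⟨s₀, hs₀⟩ := summable_iff_vanishing_norm.1 hS (p4 ^ 2) (by positivity)
  set R : ℝ := ∑ k ∈ s₀, nk k with hR
  have hRs : ∀ k, R < nk k → k ∉ s₀ := by
    intro k hk hks
    have : nk k ≤ R := Finset.single_le_sum (f := fun k => nk k) (fun k _ => nk_nonneg k) hks
    linarith
  set P : K d → ℝ := fun k => if nk k ≤ R then 0 else (nk k)⁻¹ with hP
  set Q : K d → ℝ := fun k => (nk k)⁻¹ with hQ
  set o : K d → ℝ := fun k => if nk k ≤ R then 1 else 0 with ho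
  set n : ℝ := Real.sqrt ((uniq_finite (d := d) R).toFinset.card) with hn
  have hn0 : 0 ≤ n := Real.sqrt_nonneg _
  have hP4 : ∀ s : Finset (K d), ∑ k ∈ s, P k ^ 4 ≤ p4 ^ 2 := by
    intro s
    have h1 : ∑ k ∈ s, P k ^ 4 = ∑ k ∈ s.filter (fun k => R < nk k), (nk k ^ 4)⁻¹ := by
      rw [Finset.sum_filter]
      refine Finset.sum_congr rfl fun k _ => ?_
      by_cases h : nk k ≤ R
      · simp [hP, h, not_lt.2 h]
      · simp [hP, h, not_le.1 h]
    rw [h1]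
    have h2 := hs₀ (s.filter (fun k => R < nk k)) (by
      rw [Finset.disjoint_left]
      intro k hk
      exact hRs k (Finset.mem_filter.1 hk).2)
    rw [Real.norm_eq_abs] at h2
    exact (le_abs_self _).trans h2.le
  have hQ4 : ∀ s : Finset (K d), ∑ k ∈ s, Q k ^ 4 ≤ q4 ^ 2 := by
    intro s
    rw [hq2]
    have h1 : ∑ k ∈ s, Q k ^ 4 = ∑ k ∈ s, (nk k ^ 4)⁻¹ :=
      Finset.sum_congr rfl fun k _ => by simp [hQ]
    rw [h1]
    have h2 := hS.sum_le_tsum s fun k _ => by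
      have := nk_nonneg k
      positivity
    linarith
  have ho2 : ∀ s : Finset (K d), ∑ k ∈ s, o k ^ 2 ≤ n ^ 2 := by
    intro s
    rw [hn, Real.sq_sqrt (Nat.cast_nonneg _)]
    have h1 : ∑ k ∈ s, o k ^ 2 = ((s.filter (fun k => nk k ≤ R)).card : ℝ) := by
      rw [Finset.card_filter]
      push_cast
      refine Finset.sum_congr rfl fun k _ => ?_
      by_cases h : nk k ≤ R <;> simp [ho, h]
    rw [h1]
    exact_mod_cast Finset.card_le_card fun k hk => by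
      rw [Set.Finite.mem_toFinset]
      exact (Finset.mem_filter.1 hk).2
  refine ⟨n * M + n ^ 2 * M ^ 2 / ν, by positivity, ?_⟩
  intro a β γ N₀ N₁ hN₀ hN₁ ha0 hγ0 ha hβ hγ ha2 hp2 hβ2 hγ2 hq2' s
  have haQ : ∀ k, a k = Q k * (nk k * a k) := by
    intro k
    by_cases h : k = 0
    · subst h
      rw [ha0]; simp
    · have h1 : nk k ≠ 0 := fun h' => h (nk_eq_zero.1 h')
      simp only [hQ]
      field_simp
  have hγQ : ∀ k, γ k = Q k * (nk k * γ k) := by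
    intro k
    by_cases h : k = 0
    · subst h
      rw [hγ0]; simp
    · have h1 : nk k ≠ 0 := fun h' => h (nk_eq_zero.1 h')
      simp only [hQ]
      field_simp
  have haS : ∀ k, a k = o k * a k + P k * (nk k * a k) := by
    intro k
    by_cases h : nk k ≤ R
    · simp [ho, hP, h]
    · have h1 : nk k ≠ 0 := by
        intro h'
        apply h
        rw [h']
        exact Finset.sum_nonneg fun k _ => nk_nonneg k
      simp only [ho, hP, h, if_false]
      field_simp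
      ring
  rw [Finset.sum_add_distrib]
  -- term A
  have hA : ∑ p ∈ s, a p.1 * (a p.2 * β (p.1 - p.2)) ≤
      n * (M * N₀ * N₀) + c * (M * N₁ * N₁) := by
    have e : ∑ p ∈ s, a p.1 * (a p.2 * β (p.1 - p.2)) =
        ∑ p ∈ s, β (p.1 - p.2) * (o p.2 * a p.2) * a p.1 +
        ∑ p ∈ s, β (p.1 - p.2) * (P p.2 * (nk p.2 * a p.2)) * (Q p.1 * (nk p.1 * a p.1)) := by
      rw [← Finset.sum_add_distrib]
      refine Finset.sum_congr rfl fun p _ => ?_
      rw [← haQ p.1]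
      have := haS p.2
      linear_combination (a p.1 * β (p.1 - p.2)) * this
    rw [e]
    apply add_le_add
    · exact uniq_low (i1 := fun p => p.1 - p.2) (i2 := fun p => p.2) (i3 := fun p => p.1)
        (uniq_inj_a s) (uniq_inj_c s) hM hN₀ hN₀ hn0 hβ2 ha2 ha2 ho2
    · exact uniq_tl (i1 := fun p => p.1 - p.2) (i2 := fun p => p.2) (i3 := fun p => p.1)
        (x := β) (y := fun k => nk k * a k) (w := fun k => nk k * a k)
        (uniq_inj_a s) (uniq_inj_b s) (uniq_inj_c s) hM hN₁ hN₁ hp0.le hq0.le hc0.le hpq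
        hβ2 hp2 hp2 hP4 hQ4
  have hB : ∑ p ∈ s, nk p.1 * a p.1 * (γ p.2 * a (p.1 - p.2)) ≤
      n * (N₁ * N₀ * M) + c * (N₁ * N₁ * M) := by
    have e : ∑ p ∈ s, nk p.1 * a p.1 * (γ p.2 * a (p.1 - p.2)) =
        ∑ p ∈ s, (nk p.1 * a p.1) * (o (p.1 - p.2) * a (p.1 - p.2)) * γ p.2 +
        ∑ p ∈ s, (nk p.1 * a p.1) * (P (p.1 - p.2) * (nk (p.1 - p.2) * a (p.1 - p.2))) *
          (Q p.2 * (nk p.2 * γ p.2)) := by
      rw [← Finset.sum_add_distrib]
      refine Finset.sum_congr rfl fun p _ => ?_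
      rw [← hγQ p.2]
      have := haS (p.1 - p.2)
      linear_combination (nk p.1 * a p.1 * γ p.2) * this
    rw [e]
    have hfe : Set.InjOn (fun p : K d × K d => (p.1 - p.2, p.2)) (s : Set (K d × K d)) :=
      uniq_inj_a s
    apply add_le_add
    · exact uniq_low (i1 := fun p => p.1) (i2 := fun p => p.1 - p.2) (i3 := fun p => p.2)
        (x := fun k => nk k * a k) (uniq_inj_e s) hfe hN₁ hN₀ hM hn0 hp2 ha2 hγ2 ho2
    · exact uniq_tl (i1 := fun p => p.1) (i2 := fun p => p.1 - p.2) (i3 := fun p => p.2)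
        (x := fun k => nk k * a k) (y := fun k => nk k * a k) (w := fun k => nk k * γ k)
        (uniq_inj_e s) (uniq_inj_d s) hfe hN₁ hN₁ hM hp0.le hq0.le hc0.le hpq
        hp2 hp2 hq2' hP4 hQ4
  have h1 : c * M ≤ ν / 16 := by
    rw [hc]
    rw [div_mul_eq_mul_div, div_le_div_iff₀ (by positivity) (by norm_num)]
    nlinarith
  have h2 : n * (N₁ * N₀ * M) ≤ ν / 4 * N₁ ^ 2 + n ^ 2 * M ^ 2 / ν * N₀ ^ 2 := by
    have h3 : 0 ≤ (ν / 2 * N₁ - n * M * N₀) ^ 2 / ν := by positivity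
    have h4 : (ν / 2 * N₁ - n * M * N₀) ^ 2 / ν =
        ν / 4 * N₁ ^ 2 - n * (N₁ * N₀ * M) + n ^ 2 * M ^ 2 / ν * N₀ ^ 2 := by
      field_simp
      ring
    linarith
  have h5 : c * (M * N₁ * N₁) ≤ ν / 16 * N₁ ^ 2 := by
    calc c * (M * N₁ * N₁) = (c * M) * N₁ ^ 2 := by ring
      _ ≤ ν / 16 * N₁ ^ 2 := by gcongr
  have h6 : c * (N₁ * N₁ * M) ≤ ν / 16 * N₁ ^ 2 := by
    calc c * (N₁ * N₁ * M) = (c * M) * N₁ ^ 2 := by ring
      _ ≤ ν / 16 * N₁ ^ 2 := by gcongr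
  have h7 : 0 ≤ ν * N₁ ^ 2 := by positivity
  nlinarith

theorem uniq_norm_bk_a {z u : Sq d} (hz : IsV z) (hu : IsV u) (k : K d) :
    Summable (fun j => ‖z j‖ * (nk (k - j) * ‖u (k - j)‖)) ∧
    ‖Bk z u k‖ ≤ ∑' j, ‖z j‖ * (nk (k - j) * ‖u (k - j)‖) := by
  have hs1 : Summable fun j => (nk (k - j) * ‖u (k - j)‖) ^ 2 := by
    have h1 := hu.sm
    have h2 : Summable fun j : K d => nk (k - j) ^ 2 * ‖u (k - j)‖ ^ 2 :=
      h1.comp_injective (i := fun j => k - j) sub_right_injective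
    simpa [mul_pow] using h2
  have hs : Summable (fun j => ‖z j‖ * (nk (k - j) * ‖u (k - j)‖)) := by
    refine Summable.of_nonneg_of_le (fun j => ?_) (fun j => ?_)
      (((summable_sq hz).add hs1).div_const 2)
    · have := nk_nonneg (k - j)
      positivity
    · nlinarith [sq_nonneg (‖z j‖ - nk (k - j) * ‖u (k - j)‖)]
  refine ⟨hs, ?_⟩
  have hle : ∀ j, ‖dot k (z j) • u (k - j)‖ ≤ ‖z j‖ * (nk (k - j) * ‖u (k - j)‖) := by
    intro j
    rw [norm_smul]
    have h1 : dot k (z j) = dot (k - j) (z j) := by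
      rw [dot_sub_left, hz.dv j, sub_zero]
    rw [h1]
    calc ‖dot (k - j) (z j)‖ * ‖u (k - j)‖ ≤ (nk (k - j) * ‖z j‖) * ‖u (k - j)‖ := by
          gcongr
          exact norm_dot_le _ _
      _ = _ := by ring
  have hsn : Summable fun j => ‖dot k (z j) • u (k - j)‖ :=
    Summable.of_nonneg_of_le (fun _ => norm_nonneg _) hle hs
  unfold Bk
  rw [norm_smul, Complex.norm_I, one_mul]
  calc ‖Pk k (∑' j, dot k (z j) • u (k - j))‖ ≤ ‖∑' j, dot k (z j) • u (k - j)‖ := norm_Pk_le _ _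
    _ ≤ ∑' j, ‖dot k (z j) • u (k - j)‖ := norm_tsum_le_tsum_norm hsn
    _ ≤ _ := hsn.tsum_le_tsum hle hs

theorem uniq_norm_bk_b {v z : Sq d} (hv : IsV v) (hz : IsV z) (k : K d) :
    Summable (fun j => ‖v j‖ * ‖z (k - j)‖) ∧
    ‖Bk v z k‖ ≤ nk k * ∑' j, ‖v j‖ * ‖z (k - j)‖ := by
  have hs1 : Summable fun j => ‖z (k - j)‖ ^ 2 :=
    (summable_sq hz).comp_injective (i := fun j => k - j) sub_right_injective
  have hs : Summable (fun j => ‖v j‖ * ‖z (k - j)‖) := by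
    refine Summable.of_nonneg_of_le (fun j => by positivity) (fun j => ?_)
      (((summable_sq hv).add hs1).div_const 2)
    nlinarith [sq_nonneg (‖v j‖ - ‖z (k - j)‖)]
  refine ⟨hs, ?_⟩
  have hle : ∀ j, ‖dot k (v j) • z (k - j)‖ ≤ nk k * (‖v j‖ * ‖z (k - j)‖) := by
    intro j
    rw [norm_smul]
    calc ‖dot k (v j)‖ * ‖z (k - j)‖ ≤ (nk k * ‖v j‖) * ‖z (k - j)‖ := by
          gcongr
          exact norm_dot_le _ _
      _ = _ := by ring
  have hs' : Summable fun j => nk k * (‖v j‖ * ‖z (k - j)‖) := hs.mul_left _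
  have hsn : Summable fun j => ‖dot k (v j) • z (k - j)‖ :=
    Summable.of_nonneg_of_le (fun _ => norm_nonneg _) hle hs'
  unfold Bk
  rw [norm_smul, Complex.norm_I, one_mul]
  calc ‖Pk k (∑' j, dot k (v j) • z (k - j))‖ ≤ ‖∑' j, dot k (v j) • z (k - j)‖ := norm_Pk_le _ _
    _ ≤ ∑' j, ‖dot k (v j) • z (k - j)‖ := norm_tsum_le_tsum_norm hsn
    _ ≤ ∑' j, nk k * (‖v j‖ * ‖z (k - j)‖) := hsn.tsum_le_tsum hle hs'
    _ = _ := tsum_mul_left

theorem uniq_est (hd : d = 2 ∨ d = 3) {ν : ℝ} (hν : 0 < ν) {M : ℝ} (hM : 0 ≤ M) :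
    ∃ C : ℝ, 0 ≤ C ∧ ∀ (u v z : Sq d), IsV u → IsV v → IsV z → n1 u ≤ M → n1 v ≤ M →
      ∀ Λ : Finset (K d), |∑ k ∈ Λ, (inner ℂ (z k) (Bk z u k + Bk v z k)).re| ≤
        ν / 2 * n1 z ^ 2 + C * ∑' k, ‖z k‖ ^ 2 := by
  classical
  obtain ⟨C, hC, h⟩ := uniq_tri hd hν hM
  refine ⟨C, hC, ?_⟩
  intro u v z hu hv hz hun hvn Λ
  have hE0 : 0 ≤ ∑' k, ‖z k‖ ^ 2 := tsum_nonneg fun k => sq_nonneg _
  have hsq : Real.sqrt (∑' k, ‖z k‖ ^ 2) ^ 2 = ∑' k, ‖z k‖ ^ 2 := Real.sq_sqrt hE0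
  have hall := h (fun k => ‖z k‖) (fun k => nk k * ‖u k‖) (fun k => ‖v k‖)
    (Real.sqrt (∑' k, ‖z k‖ ^ 2)) (n1 z) (Real.sqrt_nonneg _) (n1_nonneg z)
    (by simp [hz.zero]) (by simp [hv.zero]) (fun k => norm_nonneg _)
    (fun k => mul_nonneg (nk_nonneg k) (norm_nonneg _)) (fun k => norm_nonneg _)
    (fun s => by
      rw [hsq]
      exact (summable_sq hz).sum_le_tsum s fun k _ => sq_nonneg _)
    (fun s => by simpa [mul_pow] using sum_le_n1_sq hz s)
    (fun s => by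
      have h1 := sum_le_n1_sq hu s
      have h2 : n1 u ^ 2 ≤ M ^ 2 := by
        have := n1_nonneg u
        gcongr
      simpa [mul_pow] using h1.trans h2)
    (fun s => by
      have h1 := (summable_sq hv).sum_le_tsum s fun k _ => sq_nonneg _
      have h2 : n1 v ^ 2 ≤ M ^ 2 := by
        have := n1_nonneg v
        gcongr
      exact (h1.trans (tsum_sq_le hv)).trans h2)
    (fun s => by
      have h1 := sum_le_n1_sq hv s
      have h2 : n1 v ^ 2 ≤ M ^ 2 := by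
        have := n1_nonneg v
        gcongr
      simpa [mul_pow] using h1.trans h2)
  rw [hsq] at hall
  set B : ℝ := ν / 2 * n1 z ^ 2 + C * ∑' k, ‖z k‖ ^ 2 with hB
  have hB0 : 0 ≤ B := by positivity
  -- pointwise bound
  set F : K d → K d → ℝ := fun k j => ‖z k‖ * (‖z j‖ * (nk (k - j) * ‖u (k - j)‖)) +
        nk k * ‖z k‖ * (‖v j‖ * ‖z (k - j)‖) with hF
  have hFs : ∀ k, Summable (F k) := by
    intro k
    exact ((uniq_norm_bk_a hz hu k).1.mul_left _).add ((uniq_norm_bk_b hv hz k).1.mul_left _)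
  have hk : ∀ k, |(inner ℂ (z k) (Bk z u k + Bk v z k)).re| ≤ ∑' j, F k j := by
    intro k
    have h1 := (uniq_norm_bk_a hz hu k)
    have h2 := (uniq_norm_bk_b hv hz k)
    have e1 : ∑' j, F k j = ‖z k‖ * ∑' j, ‖z j‖ * (nk (k - j) * ‖u (k - j)‖) +
        nk k * ‖z k‖ * ∑' j, ‖v j‖ * ‖z (k - j)‖ := by
      rw [← tsum_mul_left, ← tsum_mul_left]
      exact (h1.1.mul_left _).tsum_add (h2.1.mul_left _)
    rw [e1]
    calc |(inner ℂ (z k) (Bk z u k + Bk v z k)).re| ≤ ‖inner ℂ (z k) (Bk z u k + Bk v z k)‖ :=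
          Complex.abs_re_le_norm _
      _ ≤ ‖z k‖ * ‖Bk z u k + Bk v z k‖ := norm_inner_le_norm _ _
      _ ≤ ‖z k‖ * (‖Bk z u k‖ + ‖Bk v z k‖) := by
          gcongr
          exact norm_add_le _ _
      _ ≤ ‖z k‖ * (∑' j, ‖z j‖ * (nk (k - j) * ‖u (k - j)‖) +
          nk k * ∑' j, ‖v j‖ * ‖z (k - j)‖) := by
          gcongr
          · exact h1.2
          · exact h2.2
      _ = _ := by ring
  calc |∑ k ∈ Λ, (inner ℂ (z k) (Bk z u k + Bk v z k)).re|
      ≤ ∑ k ∈ Λ, |(inner ℂ (z k) (Bk z u k + Bk v z k)).re| := Finset.abs_sum_le_sum_abs _ _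
    _ ≤ ∑ k ∈ Λ, ∑' j, F k j := Finset.sum_le_sum fun k _ => hk k
    _ = ∑' j, ∑ k ∈ Λ, F k j := (Summable.tsum_finsetSum fun k _ => hFs k).symm
    _ ≤ B := by
        refine Real.tsum_le_of_sum_le (fun j => ?_) fun J => ?_
        · refine Finset.sum_nonneg fun k _ => ?_
          have h1 := nk_nonneg k
          have h2 := nk_nonneg (k - j)
          positivity
        · rw [Finset.sum_comm]
          have := hall (Λ ×ˢ J)
          rw [Finset.sum_product] at this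
          exact this

theorem uniq_inner (c c' : Cv d) : inner ℝ c c' = (inner ℂ c c').re := by
  simp [PiLp.inner_apply, Complex.inner]

/-- Gronwall by iteration, for bounded measurable functions. -/
theorem uniq_gronwall {T C D : ℝ} (hC : 0 ≤ C) (hD : 0 ≤ D) {e : ℝ → ℝ} (he : Measurable e)
    (he0 : ∀ t, 0 ≤ e t) (heD : ∀ t, e t ≤ D)
    (h : ∀ t ∈ Icc (0 : ℝ) T, e t ≤ C * ∫ s in (0 : ℝ)..t, e s) :
    ∀ t ∈ Icc (0 : ℝ) T, e t = 0 := by
  have hint : ∀ t, IntervalIntegrable e volume 0 t := by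
    intro t
    refine (intervalIntegrable_const (c := D)).mono_fun he.aestronglyMeasurable ?_
    refine Eventually.of_forall fun s => ?_
    show ‖e s‖ ≤ ‖D‖
    rw [Real.norm_of_nonneg (he0 s), Real.norm_of_nonneg hD]
    exact heD s
  have key : ∀ m : ℕ, ∀ t ∈ Icc (0 : ℝ) T, e t ≤ D * ((C * t) ^ m / m.factorial) := by
    intro m
    induction m with
    | zero =>
      intro t _
      simpa using heD t
    | succ m ih =>
      intro t ht
      refine (h t ht).trans ?_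
      have h1 : ∫ s in (0 : ℝ)..t, e s ≤ ∫ s in (0 : ℝ)..t, D * ((C * s) ^ m / m.factorial) := by
        refine intervalIntegral.integral_mono_on ht.1 (hint t) ?_ fun s hs =>
          ih s ⟨hs.1, hs.2.trans ht.2⟩
        exact Continuous.intervalIntegrable (by fun_prop) _ _
      have h2 : ∫ s in (0 : ℝ)..t, D * ((C * s) ^ m / m.factorial) =
          D * C ^ m / m.factorial * (t ^ (m + 1) / (m + 1)) := by
        have e1 : ∀ s : ℝ, D * ((C * s) ^ m / m.factorial) = (D * C ^ m / m.factorial) * s ^ m := by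
          intro s
          rw [mul_pow]
          ring
        simp_rw [e1]
        rw [intervalIntegral.integral_const_mul, integral_pow]
        simp
      calc C * ∫ s in (0 : ℝ)..t, e s ≤ C * (D * C ^ m / m.factorial * (t ^ (m + 1) / (m + 1))) := by
            rw [← h2]; gcongr
        _ = D * ((C * t) ^ (m + 1) / (m + 1).factorial) := by
            rw [Nat.factorial_succ]
            push_cast
            rw [mul_pow]
            field_simp
            ring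
  intro t ht
  refine le_antisymm ?_ (he0 t)
  have hlim : Tendsto (fun m : ℕ => D * ((C * t) ^ m / m.factorial)) atTop (𝓝 (D * 0)) :=
    (FloorSemiring.tendsto_pow_div_factorial_atTop (C * t)).const_mul D
  rw [mul_zero] at hlim
  exact ge_of_tendsto' hlim fun m => key m t ht

theorem uniq_bkc {A : ℝ} {a w : ℝ → Sq d} (ha : ∀ s, IsV (a s)) (hw : ∀ s, IsV (w s))
    (han : ∀ s, n1 (a s) ≤ A) (hwn : ∀ s, n1 (w s) ≤ A) (hac : ∀ k, Continuous fun s => a s k)
    (hwc : ∀ k, Continuous fun s => w s k) (k : K d) : Continuous fun s => Bk (a s) (w s) k := by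
  rw [continuous_iff_continuousAt]
  intro s₀
  exact bk_tendsto (l := 𝓝 s₀) (Eventually.of_forall fun s => ⟨ha s, han s⟩)
    (Eventually.of_forall fun s => ⟨hw s, hwn s⟩) (fun k => (hac k).tendsto s₀)
    (fun k => (hwc k).tendsto s₀) k

theorem sol_unique (hd : d = 2 ∨ d = 3) {ν : ℝ} (hν : 0 < ν) {m : Fin d → ℝ} {f : Sq d} {T : ℝ}
    {u v : ℝ → Sq d} (hu : Sol ν m f T u) (hv : Sol ν m f T v) (h0 : u 0 = v 0) :
    ∀ t ∈ Icc (0 : ℝ) T, u t = v t := by
  intro t₁ ht₁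
  have hT : 0 ≤ T := ht₁.1.trans ht₁.2
  obtain ⟨Mu', hMu⟩ := hu.bd
  obtain ⟨Mv', hMv⟩ := hv.bd
  set M : ℝ := max Mu' Mv' with hM
  have hM0 : 0 ≤ M := ((n1_nonneg _).trans (hMu 0 ⟨le_rfl, hT⟩)).trans (le_max_left _ _)
  set cl : ℝ → ℝ := fun t => max 0 (min T t) with hcl
  have hcl_mem : ∀ t, cl t ∈ Icc (0 : ℝ) T := fun t =>
    ⟨le_max_left _ _, max_le hT (min_le_left _ _)⟩
  have hcl_eq : ∀ t ∈ Icc (0 : ℝ) T, cl t = t := by
    intro t ht
    simp only [hcl]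
    rw [min_eq_right ht.2, max_eq_right ht.1]
  have hcl_c : Continuous cl := by
    rw [hcl]; fun_prop
  obtain ⟨U, hU⟩ : ∃ U : ℝ → Sq d, ∀ s, U s = u (cl s) := ⟨_, fun _ => rfl⟩
  obtain ⟨V, hV⟩ : ∃ V : ℝ → Sq d, ∀ s, V s = v (cl s) := ⟨_, fun _ => rfl⟩
  have hUV : ∀ s, IsV (U s) := fun s => by rw [hU]; exact hu.V _ (hcl_mem s)
  have hVV : ∀ s, IsV (V s) := fun s => by rw [hV]; exact hv.V _ (hcl_mem s)
  have hUn : ∀ s, n1 (U s) ≤ M := fun s => by
    rw [hU]; exact (hMu _ (hcl_mem s)).trans (le_max_left _ _)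
  have hVn : ∀ s, n1 (V s) ≤ M := fun s => by
    rw [hV]; exact (hMv _ (hcl_mem s)).trans (le_max_right _ _)
  have hUc : ∀ k, Continuous fun s => U s k := fun k => by
    simp only [hU]
    exact (hu.ct k).comp_continuous hcl_c hcl_mem
  have hVc : ∀ k, Continuous fun s => V s k := fun k => by
    simp only [hV]
    exact (hv.ct k).comp_continuous hcl_c hcl_mem
  obtain ⟨Z, hZ⟩ : ∃ Z : ℝ → Sq d, ∀ s, Z s = U s - V s := ⟨_, fun _ => rfl⟩
  have hZV : ∀ s, IsV (Z s) := fun s => by rw [hZ]; exact (hUV s).sub (hVV s)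
  have hZn : ∀ s, n1 (Z s) ≤ 2 * M := fun s => by
    have := n1_sub_le (hUV s) (hVV s)
    rw [hZ]
    linarith [hUn s, hVn s]
  have hZk : ∀ s k, Z s k = U s k - V s k := fun s k => by rw [hZ]; rfl
  have hZc : ∀ k, Continuous fun s => Z s k := fun k => by
    simp only [hZk]
    exact (hUc k).sub (hVc k)
  have hUn2 : ∀ s, n1 (U s) ≤ 2 * M := fun s => by linarith [hUn s]
  have hVn2 : ∀ s, n1 (V s) ≤ 2 * M := fun s => by linarith [hVn s]
  -- derivative
  obtain ⟨φ, hφ⟩ : ∃ φ : K d → ℝ → Cv d, ∀ k s,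
      φ k s = -(mu ν m k • Z s k) - (Bk (Z s) (U s) k + Bk (V s) (Z s) k) := ⟨_, fun _ _ => rfl⟩
  have hφc : ∀ k, Continuous (φ k) := fun k => by
    have e0 : φ k = fun s => -(mu ν m k • Z s k) - (Bk (Z s) (U s) k + Bk (V s) (Z s) k) :=
      funext fun s => hφ k s
    rw [e0]
    have c1 : Continuous fun s => Bk (Z s) (U s) k := uniq_bkc hZV hUV hZn hUn2 hZc hUc k
    have c2 : Continuous fun s => Bk (V s) (Z s) k := uniq_bkc hVV hZV hVn2 hZn hVc hZc k
    exact (((hZc k).const_smul (mu ν m k)).neg).sub (c1.add c2)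
  have hZint : ∀ k, ∀ t ∈ Icc (0 : ℝ) T, Z t k = ∫ s in (0 : ℝ)..t, φ k s := by
    intro k t ht
    have e1 := hu.eq k t ht
    have e2 := hv.eq k t ht
    have hZt : Z t k = u t k - v t k := by
      rw [hZk, hU, hV, hcl_eq t ht]
    rw [hZt, e1, e2, h0]
    have hsub : ∀ s ∈ Set.uIcc (0 : ℝ) t, cl s = s := by
      intro s hs
      rw [uIcc_of_le ht.1] at hs
      exact hcl_eq s ⟨hs.1, hs.2.trans ht.2⟩
    have i1 : IntervalIntegrable (fun s => f k - mu ν m k • u s k - Bk (u s) (u s) k) volume 0 t := by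
      have c1 : Continuous fun s => Bk (U s) (U s) k := uniq_bkc hUV hUV hUn2 hUn2 hUc hUc k
      have c2 : Continuous fun s => mu ν m k • U s k := (hUc k).const_smul (mu ν m k)
      have hc : Continuous fun s => f k - mu ν m k • U s k - Bk (U s) (U s) k :=
        (continuous_const.sub c2).sub c1
      refine ContinuousOn.intervalIntegrable ?_
      refine hc.continuousOn.congr ?_
      intro s hs
      have e3 : u s = U s := by rw [hU, hsub s hs]
      simp only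
      rw [e3]
    have i2 : IntervalIntegrable (fun s => f k - mu ν m k • v s k - Bk (v s) (v s) k) volume 0 t := by
      have c1 : Continuous fun s => Bk (V s) (V s) k := uniq_bkc hVV hVV hVn2 hVn2 hVc hVc k
      have c2 : Continuous fun s => mu ν m k • V s k := (hVc k).const_smul (mu ν m k)
      have hc : Continuous fun s => f k - mu ν m k • V s k - Bk (V s) (V s) k :=
        (continuous_const.sub c2).sub c1
      refine ContinuousOn.intervalIntegrable ?_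
      refine hc.continuousOn.congr ?_
      intro s hs
      have e4 : v s = V s := by rw [hV, hsub s hs]
      simp only
      rw [e4]
    rw [add_sub_add_left_eq_sub, ← intervalIntegral.integral_sub i1 i2]
    refine intervalIntegral.integral_congr fun s hs => ?_
    have hs' := hsub s hs
    have e3 : u s = U s := by rw [hU, hs']
    have e4 : v s = V s := by rw [hV, hs']
    rw [e3, e4]
    have e5 : Bk (Z s) (U s) k = Bk (U s) (U s) k - Bk (V s) (U s) k := by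
      rw [hZ]
      exact congrFun (bk_sub_left (hUV s) (hVV s) (hUV s)) k
    have e6 : Bk (V s) (Z s) k = Bk (V s) (U s) k - Bk (V s) (V s) k := by
      rw [hZ]
      exact congrFun (bk_sub_right (hVV s) (hUV s) (hVV s)) k
    rw [hφ, e5, e6, hZk, smul_sub]
    abel
  -- energy identity for each mode
  have hen : ∀ k, ∀ t ∈ Icc (0 : ℝ) T,
      ‖Z t k‖ ^ 2 = ∫ s in (0 : ℝ)..t, 2 * (inner ℂ (Z s k) (φ k s)).re := by
    intro k t ht
    have hd1 : ∀ s, HasDerivAt (fun s => ∫ r in (0 : ℝ)..s, φ k r) (φ k s) s := fun s =>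
      ((hφc k).integral_hasStrictDerivAt 0 s).hasDerivAt
    have hd2 : ∀ s ∈ Set.uIcc (0 : ℝ) t, HasDerivAt (fun s => ‖∫ r in (0 : ℝ)..s, φ k r‖ ^ 2)
        (2 * inner ℝ (∫ r in (0 : ℝ)..s, φ k r) (φ k s)) s := fun s _ => (hd1 s).norm_sq
    have hc1 : Continuous fun s => ∫ r in (0 : ℝ)..s, φ k r :=
      continuous_iff_continuousAt.2 fun s => (hd1 s).continuousAt
    have hc2 : Continuous fun s => 2 * inner ℝ (∫ r in (0 : ℝ)..s, φ k r) (φ k s) :=
      continuous_const.mul (hc1.inner (hφc k))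
    have h1 := intervalIntegral.integral_eq_sub_of_hasDerivAt hd2 (hc2.intervalIntegrable 0 t)
    rw [← hZint k t ht] at h1
    have h2 : ‖∫ r in (0 : ℝ)..0, φ k r‖ ^ 2 = 0 := by simp
    rw [h2, sub_zero] at h1
    rw [← h1]
    refine intervalIntegral.integral_congr fun s hs => ?_
    rw [uIcc_of_le ht.1] at hs
    rw [← hZint k s ⟨hs.1, hs.2.trans ht.2⟩, uniq_inner]
  -- the quantities
  obtain ⟨C, hC, hest⟩ := uniq_est hd hν hM0
  set Λ : ℕ → Finset (K d) := fun n => Finset.Icc (fun _ : Fin d => -(n : ℤ)) (fun _ => (n : ℤ))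
    with hΛ
  have hΛm : Monotone Λ := by
    intro a b hab
    apply Finset.Icc_subset_Icc
    · intro i
      simp only [neg_le_neg_iff, Nat.cast_le]
      exact hab
    · intro i
      simp only [Nat.cast_le]
      exact hab
  have hΛe : ∀ k : K d, ∃ n, k ∈ Λ n := by
    intro k
    refine ⟨∑ i, (k i).natAbs, ?_⟩
    rw [hΛ]
    simp only [Finset.mem_Icc, Pi.le_def]
    have h1 : ∀ i, (k i).natAbs ≤ ∑ i, (k i).natAbs := fun i =>
      Finset.single_le_sum (f := fun i => (k i).natAbs) (fun _ _ => Nat.zero_le _)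
        (Finset.mem_univ i)
    constructor
    · intro i
      have := h1 i
      have h2 : -((k i).natAbs : ℤ) ≤ k i := by
        have := neg_abs_le (k i)
        rwa [Int.abs_eq_natAbs] at this
      have h3 : ((k i).natAbs : ℤ) ≤ ((∑ i, (k i).natAbs : ℕ) : ℤ) := by exact_mod_cast this
      linarith
    · intro i
      have := h1 i
      have h2 : k i ≤ ((k i).natAbs : ℤ) := Int.le_natAbs
      have h3 : ((k i).natAbs : ℤ) ≤ ((∑ i, (k i).natAbs : ℕ) : ℤ) := by exact_mod_cast this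
      linarith
  have hΛt : Tendsto Λ atTop atTop := tendsto_atTop_finset_of_monotone hΛm hΛe
  obtain ⟨e, he⟩ : ∃ e : ℝ → ℝ, ∀ s, e s = ∑' k, ‖Z s k‖ ^ 2 := ⟨_, fun _ => rfl⟩
  obtain ⟨h, hh⟩ : ∃ h : ℝ → ℝ, ∀ s, h s = n1 (Z s) ^ 2 := ⟨_, fun _ => rfl⟩
  have hes : ∀ s, HasSum (fun k => ‖Z s k‖ ^ 2) (e s) := fun s => by
    rw [he]
    exact (summable_sq (hZV s)).hasSum
  have hhs : ∀ s, HasSum (fun k => nk k ^ 2 * ‖Z s k‖ ^ 2) (h s) := fun s => by
    rw [hh, n1_sq (hZV s)]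
    exact (hZV s).sm.hasSum
  have hel : ∀ s, Tendsto (fun n => ∑ k ∈ Λ n, ‖Z s k‖ ^ 2) atTop (𝓝 (e s)) := fun s =>
    (hes s).comp hΛt
  have hhl : ∀ s, Tendsto (fun n => ∑ k ∈ Λ n, nk k ^ 2 * ‖Z s k‖ ^ 2) atTop (𝓝 (h s)) := fun s =>
    (hhs s).comp hΛt
  have henc : ∀ n, Continuous fun s => ∑ k ∈ Λ n, ‖Z s k‖ ^ 2 := fun n =>
    continuous_finsetSum _ fun k _ => (hZc k).norm.pow 2
  have hhnc : ∀ n, Continuous fun s => ∑ k ∈ Λ n, nk k ^ 2 * ‖Z s k‖ ^ 2 := fun n =>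
    continuous_finsetSum _ fun k _ => continuous_const.mul ((hZc k).norm.pow 2)
  have hem : Measurable e :=
    measurable_of_tendsto_metrizable (fun n => (henc n).measurable)
      (tendsto_pi_nhds.2 fun s => hel s)
  have hhm : Measurable h :=
    measurable_of_tendsto_metrizable (fun n => (hhnc n).measurable)
      (tendsto_pi_nhds.2 fun s => hhl s)
  set D : ℝ := (2 * M) ^ 2 with hD
  have hD0 : 0 ≤ D := sq_nonneg _
  have hh0 : ∀ s, 0 ≤ h s := fun s => by rw [hh]; exact sq_nonneg _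
  have hhD : ∀ s, h s ≤ D := by
    intro s
    have h1 := n1_nonneg (Z s)
    have h2 := hZn s
    rw [hh, hD]
    gcongr
  have he0 : ∀ s, 0 ≤ e s := fun s => by rw [he]; exact tsum_nonneg fun k => sq_nonneg _
  have heh : ∀ s, e s ≤ h s := fun s => by rw [he, hh]; exact tsum_sq_le (hZV s)
  have heD : ∀ s, e s ≤ D := fun s => (heh s).trans (hhD s)
  have hie : ∀ t, IntervalIntegrable e volume 0 t := by
    intro t
    refine (intervalIntegrable_const (c := D)).mono_fun hem.aestronglyMeasurable ?_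
    refine Eventually.of_forall fun s => ?_
    show ‖e s‖ ≤ ‖D‖
    rw [Real.norm_of_nonneg (he0 s), Real.norm_of_nonneg hD0]
    exact heD s
  have hih : ∀ t, IntervalIntegrable h volume 0 t := by
    intro t
    refine (intervalIntegrable_const (c := D)).mono_fun hhm.aestronglyMeasurable ?_
    refine Eventually.of_forall fun s => ?_
    show ‖h s‖ ≤ ‖D‖
    rw [Real.norm_of_nonneg (hh0 s), Real.norm_of_nonneg hD0]
    exact hhD s
  -- inequality for finite sums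
  have hfin : ∀ n, ∀ t ∈ Icc (0 : ℝ) T, ∑ k ∈ Λ n, ‖Z t k‖ ^ 2 ≤
      ∫ s in (0 : ℝ)..t, (-(2 * ν) * (∑ k ∈ Λ n, nk k ^ 2 * ‖Z s k‖ ^ 2) + ν * h s +
        2 * C * e s) := by
    intro n t ht
    have h1 : ∑ k ∈ Λ n, ‖Z t k‖ ^ 2 =
        ∫ s in (0 : ℝ)..t, ∑ k ∈ Λ n, 2 * (inner ℂ (Z s k) (φ k s)).re := by
      rw [intervalIntegral.integral_finsetSum]
      · exact Finset.sum_congr rfl fun k _ => hen k t ht
      · intro k _
        apply Continuous.intervalIntegrable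
        have : Continuous fun s => inner ℂ (Z s k) (φ k s) := (hZc k).inner (hφc k)
        exact continuous_const.mul (Complex.continuous_re.comp this)
    rw [h1]
    refine intervalIntegral.integral_mono_on ht.1 ?_ ?_ fun s _ => ?_
    · apply Continuous.intervalIntegrable
      refine continuous_finsetSum _ fun k _ => ?_
      have : Continuous fun s => inner ℂ (Z s k) (φ k s) := (hZc k).inner (hφc k)
      exact continuous_const.mul (Complex.continuous_re.comp this)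
    · exact (((continuous_const.mul (hhnc n)).intervalIntegrable 0 t).add
        ((hih t).const_mul ν)).add ((hie t).const_mul (2 * C))
    · have h2 := hest (U s) (V s) (Z s) (hUV s) (hVV s) (hZV s) (hUn s) (hVn s) (Λ n)
      have h3 : ∑ k ∈ Λ n, 2 * (inner ℂ (Z s k) (φ k s)).re =
          -(2 * ν) * (∑ k ∈ Λ n, nk k ^ 2 * ‖Z s k‖ ^ 2) -
            2 * ∑ k ∈ Λ n, (inner ℂ (Z s k) (Bk (Z s) (U s) k + Bk (V s) (Z s) k)).re := by
        rw [Finset.mul_sum, Finset.mul_sum, ← Finset.sum_sub_distrib]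
        refine Finset.sum_congr rfl fun k _ => ?_
        have e3 : φ k s = -(mu ν m k • Z s k) - (Bk (Z s) (U s) k + Bk (V s) (Z s) k) := hφ k s
        have e4 : (inner ℂ (Z s k) (-(mu ν m k • Z s k))).re = -(ν * nk k ^ 2) * ‖Z s k‖ ^ 2 := by
          rw [inner_neg_right, inner_smul_right, inner_self_eq_norm_sq_to_K]
          have : (mu ν m k * (‖Z s k‖ : ℂ) ^ 2).re = (mu ν m k).re * ‖Z s k‖ ^ 2 := by
            rw [← Complex.ofReal_pow, Complex.re_mul_ofReal]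
          rw [Complex.neg_re]
          have h5 : ((‖Z s k‖ : ℂ)) = ((RCLike.ofReal ‖Z s k‖ : ℂ)) := rfl
          rw [← h5, this, mu_re]
          ring
        rw [e3, inner_sub_right, Complex.sub_re, e4]
        ring
      rw [h3]
      have h4 := (abs_le.1 h2).1
      have h5 : h s = n1 (Z s) ^ 2 := hh s
      have h6 : e s = ∑' k, ‖Z s k‖ ^ 2 := he s
      rw [h5, h6]
      linarith
  -- passage to the limit
  have hmain : ∀ t ∈ Icc (0 : ℝ) T, e t ≤ 2 * C * ∫ s in (0 : ℝ)..t, e s := by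
    intro t ht
    have hlim : Tendsto (fun n => ∫ s in (0 : ℝ)..t,
        (-(2 * ν) * (∑ k ∈ Λ n, nk k ^ 2 * ‖Z s k‖ ^ 2) + ν * h s + 2 * C * e s)) atTop
        (𝓝 (∫ s in (0 : ℝ)..t, (-(2 * ν) * h s + ν * h s + 2 * C * e s))) := by
      refine intervalIntegral.tendsto_integral_filter_of_dominated_convergence
        (fun _ => 2 * ν * D + ν * D + 2 * C * D) ?_ ?_ intervalIntegrable_const ?_
      · refine Eventually.of_forall fun n => ?_
        exact (((measurable_const.mul (hhnc n).measurable).add (measurable_const.mul hhm)).add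
          (measurable_const.mul hem)).aestronglyMeasurable
      · refine Eventually.of_forall fun n => Eventually.of_forall fun s _ => ?_
        have h1 : ∑ k ∈ Λ n, nk k ^ 2 * ‖Z s k‖ ^ 2 ≤ D :=
          (sum_le_n1_sq (hZV s) _).trans ((hh s).symm.le.trans (hhD s))
        have h2 : 0 ≤ ∑ k ∈ Λ n, nk k ^ 2 * ‖Z s k‖ ^ 2 :=
          Finset.sum_nonneg fun k _ => by positivity
        have a1 : 2 * ν * (∑ k ∈ Λ n, nk k ^ 2 * ‖Z s k‖ ^ 2) ≤ 2 * ν * D := by gcongr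
        have a2 : 0 ≤ 2 * ν * (∑ k ∈ Λ n, nk k ^ 2 * ‖Z s k‖ ^ 2) := by positivity
        have a3 : ν * h s ≤ ν * D := by
          have := hhD s
          gcongr
        have a4 : 0 ≤ ν * h s := mul_nonneg hν.le (hh0 s)
        have a5 : 2 * C * e s ≤ 2 * C * D := by
          have := heD s
          gcongr
        have a6 : 0 ≤ 2 * C * e s := mul_nonneg (by positivity) (he0 s)
        rw [Real.norm_eq_abs, abs_le]
        constructor <;> nlinarith
      · refine Eventually.of_forall fun s _ => ?_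
        exact (((hhl s).const_mul _).add tendsto_const_nhds).add tendsto_const_nhds
    have h1 : e t ≤ ∫ s in (0 : ℝ)..t, (-(2 * ν) * h s + ν * h s + 2 * C * e s) :=
      le_of_tendsto_of_tendsto' (hel t) hlim fun n => hfin n t ht
    refine h1.trans ?_
    rw [← intervalIntegral.integral_const_mul]
    refine intervalIntegral.integral_mono_on ht.1 ?_ ((hie t).const_mul _) fun s _ => ?_
    · exact (((hih t).const_mul _).add ((hih t).const_mul ν)).add ((hie t).const_mul (2 * C))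
    · have := mul_nonneg hν.le (hh0 s)
      linarith
  have hz := uniq_gronwall (by positivity : 0 ≤ 2 * C) hD0 hem he0 heD hmain t₁ ht₁
  have hk : ∀ k, ‖Z t₁ k‖ ^ 2 = 0 := by
    intro k
    refine le_antisymm ?_ (sq_nonneg _)
    calc ‖Z t₁ k‖ ^ 2 ≤ e t₁ := by
          rw [he]
          exact (summable_sq (hZV t₁)).le_tsum k fun _ _ => sq_nonneg _
      _ = 0 := hz
  funext k
  have h1 : ‖Z t₁ k‖ = 0 := by
    have := hk k
    exact pow_eq_zero_iff (two_ne_zero) |>.1 this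
  have h2 : Z t₁ k = u t₁ k - v t₁ k := by
    rw [hZk, hU, hV, hcl_eq t₁ ht₁]
  rw [norm_eq_zero, h2, sub_eq_zero] at h1
  exact h1

end NSC
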