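import Pool.Agent.Work.MP_57e339_an.Stab
import Pool.Agent.Work.MP_57e339_an.Uniq
import Pool.Agent.Work.MP_57e339_an.RBas

/-! Module Evol: following (families of) solutions. -/

open MeasureTheory Set Filter Topology
open scoped BigOperators
noncomputable section
namespace NSC
variable {d n : ℕ} {ν : ℝ} {m : Fin d → ℝ} {e : Fin n → Sq d}

theorem evol_comb_near (he : ∀ i, IsV (e i)) {Θ : Type} [TopologicalSpace Θ]
    {c : Θ → Fin n → ℝ} (hc : Continuous c) (θ₁ : Θ) {ε : ℝ} (hε : 0 < ε) :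
    ∀ᶠ θ in 𝓝 θ₁, n1 (Comb e (c θ) - Comb e (c θ₁)) < ε := by
  have h1 : Continuous fun θ => ∑ i, |c θ i - c θ₁ i| * n1 (e i) := by fun_prop
  have h2 : ∑ i, |c θ₁ i - c θ₁ i| * n1 (e i) < ε := by simpa using hε
  filter_upwards [h1.continuousAt.eventually_lt continuousAt_const h2] with θ hθ
  exact (n1_comb_sub_le he _ _).trans_lt hθ

/-- the final value depends continuously on the parameter -/
theorem end_cont (hd : d = 2 ∨ d = 3) (hν : 0 < ν) (he : ∀ i, IsV (e i))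
    {Θ : Type} [TopologicalSpace Θ] {x : Θ → Sq d} (hx : VCont x) {T : ℝ} (hT : 0 ≤ T)
    {c : Θ → Fin n → ℝ} (hc : Continuous c) {u : Θ → ℝ → Sq d}
    (hu : ∀ θ, Sol ν m (Comb e (c θ)) T (u θ)) (h0 : ∀ θ, u θ 0 = x θ) :
    VCont (fun θ => u θ T) := by
  refine ⟨fun θ => (hu θ).V T ⟨hT, le_refl _⟩, fun θ₁ ε hε => ?_⟩
  obtain ⟨θ₀, hθ₀, hstab⟩ := stab_sol hd hν m
  obtain ⟨M, hM⟩ := (hu θ₁).bd
  obtain ⟨g, hg, hstab⟩ := hstab M
  set δ : ℝ := min θ₀ ε / (2 * (Real.exp (g * T) * (1 + T))) with hδ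
  have hmin : 0 < min θ₀ ε := lt_min hθ₀ hε
  have hden : 0 < 2 * (Real.exp (g * T) * (1 + T)) := by positivity
  have hδ0 : 0 < δ := div_pos hmin hden
  filter_upwards [hx.ct θ₁ δ hδ0, evol_comb_near he hc θ₁ hδ0] with θ hθ hθ'
  have h1 : Real.exp (g * T) * (n1 (x θ - u θ₁ 0) + n1 (Comb e (c θ) - Comb e (c θ₁)) * T) <
      min θ₀ ε := by
    rw [h0 θ₁]
    have h2 : n1 (x θ - x θ₁) + n1 (Comb e (c θ) - Comb e (c θ₁)) * T ≤ δ * (1 + T) := by
      have := mul_le_mul_of_nonneg_right hθ'.le hT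
      linarith
    have h3 := mul_le_mul_of_nonneg_left h2 (Real.exp_pos (g * T)).le
    refine h3.trans_lt ?_
    have h4 : Real.exp (g * T) * (δ * (1 + T)) = min θ₀ ε / 2 := by
      rw [hδ]; field_simp
    rw [h4]; linarith
  obtain ⟨u', hu', hu'0, hu't⟩ := hstab T hT (Comb e (c θ₁)) (Comb e (c θ)) (comb_isV he _)
    (comb_isV he _) (u θ₁) (hu θ₁) hM (x θ) (hx.V θ) (h1.trans_le (min_le_left _ _))
  have h2 : u θ T = u' T := sol_unique hd hν (hu θ) hu' (by rw [h0, hu'0]) T ⟨hT, le_refl _⟩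
  rw [h2]
  exact (hu't T ⟨hT, le_refl _⟩).trans_lt (h1.trans_le (min_le_right _ _))

/-- `Run` with a schedule depending continuously on a parameter has a continuous end -/
theorem run_cont (hd : d = 2 ∨ d = 3) (hν : 0 < ν) (he : ∀ i, IsV (e i))
    {Θ : Type} [TopologicalSpace Θ] (L : List (ℝ × (Θ → Fin n → ℝ)))
    (hL : ∀ p ∈ L, 0 < p.1 ∧ Continuous p.2) {x y : Θ → Sq d} (hx : VCont x)
    (h : ∀ θ, Run ν m e (L.map fun p => (p.1, p.2 θ)) (x θ) (y θ)) : VCont y := by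
  induction L generalizing x with
  | nil =>
    have h1 : y = x := by
      funext θ
      exact h θ
    rw [h1]; exact hx
  | cons p L ih =>
    have h1 : ∀ θ, ∃ u : ℝ → Sq d, Sol ν m (Comb e (p.2 θ)) p.1 u ∧ u 0 = x θ ∧
        Run ν m e (L.map fun p => (p.1, p.2 θ)) (u p.1) (y θ) := fun θ => h θ
    choose u hu hu0 hr using h1
    obtain ⟨hp1, hp2⟩ := hL p (List.mem_cons_self ..)
    exact ih (fun q hq => hL q (List.mem_cons_of_mem _ hq))
      (end_cont hd hν he hx hp1.le hp2 hu hu0) hr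

/-- following a bounded family of solutions -/
theorem evol (hd : d = 2 ∨ d = 3) (hν : 0 < ν)
    {Θ : Type} [TopologicalSpace Θ] {x : Θ → Sq d} (hx : VCont x) {T : ℝ} (hT : 0 < T)
    {u : Θ → ℝ → Sq d} (hu : ∀ θ, Sol ν m 0 T (u θ)) (h0 : ∀ θ, u θ 0 = x θ)
    {M : ℝ} (hM : ∀ θ, ∀ t ∈ Icc (0 : ℝ) T, n1 (u θ t) ≤ M) :
    VCont (fun θ => u θ T) ∧ ∀ ε > 0, Nr ν m e x (fun θ => u θ T) T ε := by
  constructor
  · refine end_cont (m := m) (n := 0) (e := fun i => i.elim0) hd hν (fun i => i.elim0) hx hT.le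
      (c := fun _ => 0) continuous_const (u := u) ?_ h0
    intro θ
    rw [comb_zero]
    exact hu θ
  · intro ε hε
    obtain ⟨θ₀, hθ₀, hstab⟩ := stab_sol hd hν m
    obtain ⟨g, hg, hstab⟩ := hstab M
    have hmin : 0 < min θ₀ ε := lt_min hθ₀ hε
    set ρ : ℝ := min θ₀ ε / (2 * Real.exp (g * T)) with hρ
    have hρ0 : 0 < ρ := by positivity
    refine Nr.single hT (fun _ => 0) continuous_const hρ0 ?_
    intro θ w hw hwx
    have h1 : Real.exp (g * T) * (n1 (w - u θ 0) + n1 ((0 : Sq d) - 0) * T) < min θ₀ ε := by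
      rw [h0 θ, sub_zero, n1_zero, zero_mul, add_zero]
      refine (mul_le_mul_of_nonneg_left hwx.le (Real.exp_pos _).le).trans_lt ?_
      have h4 : Real.exp (g * T) * ρ = min θ₀ ε / 2 := by
        rw [hρ]; field_simp
      rw [h4]; linarith
    obtain ⟨u', hu', hu'0, hu't⟩ := hstab T hT.le 0 0 isV_zero isV_zero (u θ) (hu θ) (hM θ) w hw
      (h1.trans_le (min_le_left _ _))
    refine ⟨u', ?_, hu'0, ?_⟩
    · rw [comb_zero]; exact hu'
    · exact (hu't T ⟨hT.le, le_refl _⟩).trans_lt (h1.trans_le (min_le_right _ _))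

end NSC
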