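import Pool.Agent.Work.MP_57e339_an.Q1
import Pool.Agent.Work.MP_57e339_an.Evol
import Pool.Agent.Work.MP_089002_mp.Topo

/-! Module Q2: controllability in finite dimensional projections. -/

open MeasureTheory Set Filter Topology
open scoped BigOperators
noncomputable section
namespace NSC
variable {d n : ℕ}

/-- square summable sequences -/
abbrev q2_Y (d : ℕ) := lp (fun _ : K d => Cv d) 2

theorem q2_mem {u : Sq d} (hu : IsV u) : Memℓp u 2 := by
  rw [memℓp_gen_iff (by norm_num)]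
  simpa using summable_sq hu

/-- a mean zero field as a square summable sequence -/
def q2_toL (u : Sq d) (hu : IsV u) : q2_Y d := ⟨u, q2_mem hu⟩

theorem q2_norm_le {u : Sq d} (hu : IsV u) : ‖q2_toL u hu‖ ≤ n1 u := by
  have h1 : ‖q2_toL u hu‖ ^ 2 = ∑' k, ‖u k‖ ^ 2 := by
    have := lp.norm_rpow_eq_tsum (p := 2) (by norm_num) (q2_toL u hu)
    have h : ∀ k, (q2_toL u hu : Sq d) k = u k := fun k => rfl
    simpa [h] using this
  have h2 := tsum_sq_le hu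
  rw [← h1] at h2
  exact (abs_le_of_sq_le_sq' h2 (n1_nonneg u)).2

theorem q2_inner (f g : q2_Y d) :
    (inner ℝ f g : ℝ) = ∑' k, (inner ℂ ((f : Sq d) k) ((g : Sq d) k)).re := by
  have h1 : (inner ℝ f g : ℝ) = ∑' k, inner ℝ ((f : Sq d) k) ((g : Sq d) k) :=
    lp.inner_eq_tsum f g
  rw [h1]
  congr 1
  funext k
  rw [PiLp.inner_apply, PiLp.inner_apply, Complex.re_sum]
  rfl

/-- removing the mean -/
def q2_Lz : Sq d →ₗ[ℝ] Sq d where
  toFun f := fun k => if k = 0 then 0 else f k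
  map_add' f g := by
    funext k
    by_cases hk : k = 0 <;> simp [hk]
  map_smul' t f := by
    funext k
    by_cases hk : k = 0 <;> simp [hk]

theorem q2_Lz_apply (f : Sq d) (k : K d) : q2_Lz f k = if k = 0 then 0 else f k := rfl

theorem q2_Lz_isV {f : Sq d} (hf : IsH f) : IsV (q2_Lz f) := by
  obtain ⟨m, v, hm, hv, h⟩ := isH_split hf
  have : q2_Lz f = v := by
    funext k
    rw [q2_Lz_apply]
    split_ifs with hk
    · rw [hk, hv.zero]
    · rw [h]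
      simp [cst, hk]
  rw [this]
  exact hv

/-- the coercion -/
def q2_J (d : ℕ) : q2_Y d →ₗ[ℝ] Sq d where
  toFun y := (y : Sq d)
  map_add' _ _ := rfl
  map_smul' _ _ := rfl

theorem q2_J_inj : Function.Injective (q2_J d) := by
  intro f g h
  exact Subtype.ext h

theorem q2_onb (F : Submodule ℝ (Sq d)) [FiniteDimensional ℝ F] (hF : ∀ f ∈ F, IsH f) :
    ∃ (N : ℕ) (g : Fin N → Sq d) (hg : ∀ i, IsV (g i)),
      Orthonormal ℝ (fun i => q2_toL (g i) (hg i)) ∧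
      ∀ f ∈ F, ∃ a : Fin N → ℝ, q2_Lz f = ∑ i, a i • g i := by
  let F0 : Submodule ℝ (Sq d) := F.map q2_Lz
  have hF0 : ∀ f ∈ F0, IsV f := by
    rintro f ⟨f', hf', rfl⟩
    exact q2_Lz_isV (hF f' hf')
  let F' : Submodule ℝ (q2_Y d) := F0.comap (q2_J d)
  have : FiniteDimensional ℝ F' := by
    let ψ : F' →ₗ[ℝ] F0 := (q2_J d).restrict (p := F') (q := F0) (fun x hx => hx)
    refine FiniteDimensional.of_injective ψ ?_
    intro x y h
    apply Subtype.ext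
    apply q2_J_inj
    have h' : (ψ x : Sq d) = ψ y := congrArg (fun z : F0 => (z : Sq d)) h
    exact h'
  let b := stdOrthonormalBasis ℝ F'
  refine ⟨Module.finrank ℝ F', fun i => q2_J d (b i : q2_Y d), fun i => hF0 _ (b i).2, ?_, ?_⟩
  · have h1 : (fun i => q2_toL (q2_J d (b i : q2_Y d)) (hF0 _ (b i).2)) =
        fun i => (b i : q2_Y d) := by
      funext i
      exact Subtype.ext rfl
    rw [h1]
    exact b.orthonormal.comp_linearIsometry F'.subtypeₗᵢ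
  · intro f hf
    have h1 : q2_Lz f ∈ F0 := ⟨f, hf, rfl⟩
    let y : q2_Y d := q2_toL (q2_Lz f) (hF0 _ h1)
    have hy : y ∈ F' := h1
    refine ⟨fun i => b.repr ⟨y, hy⟩ i, ?_⟩
    have h2 : ∑ i, b.repr ⟨y, hy⟩ i • b i = ⟨y, hy⟩ := b.sum_repr ⟨y, hy⟩
    have h3 := congrArg (fun z : F' => q2_J d (z : q2_Y d)) h2
    simp only [Submodule.coe_sum, Submodule.coe_smul, map_sum, map_smul] at h3
    rw [h3]
    rfl

/-- a run gives a solution of the Navier-Stokes equations with a piecewise constant control -/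
theorem q2_run_NS {b : Fin n → VF d} (hV : ∀ s, IsV (pcv (b s))) {ν : ℝ} {m : Fin d → ℝ}
    {v₀ w' : Sq d} (hv₀ : IsV v₀) {L : List (ℝ × (Fin n → ℝ))} (hL : ∀ p ∈ L, 0 < p.1)
    {T : ℝ} (hsum : (L.map Prod.fst).sum = T) (hrun : Run ν m (fun s => pcv (b s)) L v₀ w')
    {M : Cv d} (hM : ∀ i, M i = (m i : ℂ)) :
    ∃ (c : ℝ → Fin n → ℝ) (u : ℝ → Sq d), Measurable c ∧ (∃ C, ∀ t s, |c t s| ≤ C) ∧
      NS ν (fun t => Comb (fun s => pcv (b s)) (c t)) T u ∧ u 0 = v₀ + cst M ∧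
      u T = w' + cst M := by
  obtain ⟨c, v, hc, hcb, hv, hv0, hvT⟩ := run_curve _ hL hv₀ hrun
  rw [hsum] at hv hvT
  refine ⟨c, fun t => v t + cst M, hc, hcb, NS_of_SolT hV hv hM, ?_, ?_⟩
  · simp only [hv0]
  · simp only [hvT]

/-- the orthogonality conditions -/
theorem q2_final {F : Submodule ℝ (Sq d)} (hF : ∀ f ∈ F, IsH f) {N : ℕ} {g : Fin N → Sq d}
    {hg : ∀ i, IsV (g i)} (hspan : ∀ f ∈ F, ∃ a : Fin N → ℝ, q2_Lz f = ∑ i, a i • g i)
    {W : Sq d} (hW : IsV W) (h : ∀ i, inner ℝ (q2_toL (g i) (hg i)) (q2_toL W hW) = 0)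
    {f : Sq d} (hf : f ∈ F) : ∑' k, (inner ℂ (f k) (W k)).re = 0 := by
  obtain ⟨a, ha⟩ := hspan f hf
  have hz := q2_Lz_isV (hF f hf)
  have h1 : ∑' k, (inner ℂ (f k) (W k)).re = ∑' k, (inner ℂ (q2_Lz f k) (W k)).re := by
    congr 1
    funext k
    rw [q2_Lz_apply]
    split_ifs with hk
    · rw [hk, hW.zero, inner_zero_right, inner_zero_right]
    · rfl
  have h2 : ∑' k, (inner ℂ (q2_Lz f k) (W k)).re =
      inner ℝ (q2_toL (q2_Lz f) hz) (q2_toL W hW) :=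
    (q2_inner (q2_toL (q2_Lz f) hz) (q2_toL W hW)).symm
  have h3 : q2_toL (q2_Lz f) hz = ∑ i, a i • q2_toL (g i) (hg i) := by
    apply q2_J_inj
    simp only [map_sum, map_smul]
    exact ha
  rw [h1, h2, h3, sum_inner]
  apply Finset.sum_eq_zero
  intro i _
  rw [real_inner_smul_left, h i, mul_zero]

/-- the moments against an orthonormal family, of a continuous family of fields -/
theorem q2_cont {Θ : Type} [TopologicalSpace Θ] {x : Θ → Sq d} (hx : VCont x) {v₁ : Sq d}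
    (hv₁ : IsV v₁) {g : Sq d} (hg : IsV g) :
    Continuous fun θ => (inner ℝ (q2_toL g hg) (q2_toL (x θ - v₁) ((hx.V θ).sub hv₁)) : ℝ) := by
  have h1 : Continuous fun θ => q2_toL (x θ - v₁) ((hx.V θ).sub hv₁) := by
    rw [continuous_iff_continuousAt]
    intro θ₀
    rw [ContinuousAt, Metric.tendsto_nhds]
    intro ε hε
    filter_upwards [hx.ct θ₀ ε hε] with θ hθ
    rw [dist_eq_norm]
    have h2 : q2_toL (x θ - v₁) ((hx.V θ).sub hv₁) - q2_toL (x θ₀ - v₁) ((hx.V θ₀).sub hv₁) =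
        q2_toL (x θ - x θ₀) ((hx.V θ).sub (hx.V θ₀)) := by
      apply Subtype.ext
      change (x θ - v₁) - (x θ₀ - v₁) = x θ - x θ₀
      abel
    rw [h2]
    exact (q2_norm_le _).trans_lt hθ
  exact continuous_const.inner h1

/-- Brouwer's theorem for the unit ball as a compact space -/
theorem q2_brouwer {N : ℕ}
    (Φ : Metric.closedBall (0 : EuclideanSpace ℝ (Fin N)) 1 → EuclideanSpace ℝ (Fin N))
    (hΦ : Continuous Φ) (hb : ∀ θ : Metric.closedBall (0 : EuclideanSpace ℝ (Fin N)) 1,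
      ‖(θ : EuclideanSpace ℝ (Fin N)) - Φ θ‖ ≤ 1) :
    ∃ θ, Φ θ = 0 := by
  classical
  let h : EuclideanSpace ℝ (Fin N) → EuclideanSpace ℝ (Fin N) := fun x =>
    if hx : x ∈ Metric.closedBall (0 : EuclideanSpace ℝ (Fin N)) 1 then x - Φ ⟨x, hx⟩ else 0
  have h1 : ∀ x : Metric.closedBall (0 : EuclideanSpace ℝ (Fin N)) 1, h x = x - Φ x := by
    intro x
    simp only [h]
    rw [dif_pos x.2]
  have hc : ContinuousOn h (Metric.closedBall 0 1) := by
    rw [continuousOn_iff_continuous_domRestrict]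
    have h2 : (Metric.closedBall (0 : EuclideanSpace ℝ (Fin N)) 1).domRestrict h =
        fun x : Metric.closedBall (0 : EuclideanSpace ℝ (Fin N)) 1 =>
          (x : EuclideanSpace ℝ (Fin N)) - Φ x := by
      funext x
      exact h1 x
    rw [h2]
    exact continuous_subtype_val.sub hΦ
  obtain ⟨x, hx, hx'⟩ := Pool.Agent.Work.MP_089002_mp.brouwer_cont hc (fun x hx => by
    rw [h1 ⟨x, hx⟩]
    exact hb ⟨x, hx⟩)
  refine ⟨⟨x, hx⟩, ?_⟩
  rw [h1 ⟨x, hx⟩] at hx'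
  simpa using hx'

theorem proj_control (hd : d = 2 ∨ d = 3) {b : Fin n → VF d}
    (hV : ∀ s, IsV (pcv (b s)) ∧ SW 4 (pcv (b s))) {ν : ℝ} (hν : 0 < ν)
    (hall : ∀ (m : Fin d → ℝ), ∀ v, IsV v → v ∈ DD ν m (fun s => pcv (b s)))
    {u₀ u₁ : Sq d} (h₀ : IsH u₀) (h₁ : IsH u₁) (h01 : u₀ 0 = u₁ 0) {T : ℝ} (hT : 0 < T)
    (F : Submodule ℝ (Sq d)) [FiniteDimensional ℝ F] (hF : ∀ f ∈ F, IsH f) :
    ∃ (c : ℝ → Fin n → ℝ) (u : ℝ → Sq d), Measurable c ∧ (∃ C, ∀ t s, |c t s| ≤ C) ∧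
      NS ν (fun t => Comb (fun s => pcv (b s)) (c t)) T u ∧ u 0 = u₀ ∧
      ∀ f ∈ F, ∑' k, (inner ℂ (f k) (u T k - u₁ k)).re = 0 := by
  obtain ⟨m, v₀, hm, hv₀, hu₀⟩ := isH_split h₀
  obtain ⟨m', v₁, hm', hv₁, hu₁⟩ := isH_split h₁
  obtain ⟨N, g, hg, hon, hspan⟩ := q2_onb F hF
  let Θ := Metric.closedBall (0 : EuclideanSpace ℝ (Fin N)) 1
  have : CompactSpace Θ := isCompact_iff_compactSpace.1 (isCompact_closedBall _ _)
  -- the directions
  let v : Fin (N + 1) → Sq d := Fin.cons v₁ g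
  let s : Fin (N + 1) → Θ → ℝ := Fin.cons (fun _ => 1) (fun i θ => (θ : EuclideanSpace ℝ (Fin N)) i)
  have hv : ∀ i, IsV (v i) := by
    intro i
    refine Fin.cases ?_ (fun j => ?_) i
    · exact hv₁
    · exact hg j
  have hs : ∀ i, Continuous (s i) := by
    intro i
    refine Fin.cases ?_ (fun j => ?_) i
    · exact continuous_const
    · change Continuous fun θ : Θ => (θ : EuclideanSpace ℝ (Fin N)) j
      fun_prop
  have hy : ∀ θ, ∑ i, s i θ • v i = v₁ + ∑ i, (θ : EuclideanSpace ℝ (Fin N)) i • g i := by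
    intro θ
    rw [Fin.sum_univ_succ]
    congr 1
    exact one_smul ℝ v₁
  have hctrl := ctrl hd hν m hV (hall m) Θ hv₀ v hv s hs hT (ε := 1) one_pos
  obtain ⟨L, hL, hsum, ρ, hρ, h⟩ := hctrl
  have h' : ∀ θ : Θ, ∃ w', IsV w' ∧ Run ν m (fun s => pcv (b s)) (L.map fun p => (p.1, p.2 θ)) v₀ w' ∧
      n1 (w' - ∑ i, s i θ • v i) < 1 := fun θ => h θ v₀ hv₀ (by simpa [n1_zero] using hρ)
  choose w' hw' hrun hclose using h'
  have hcont : VCont w' := run_cont hd hν (fun s => (hV s).1) L hL (vcont_const hv₀) hrun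
  let Φ : Θ → EuclideanSpace ℝ (Fin N) := fun θ => WithLp.toLp 2 fun i =>
    (inner ℝ (q2_toL (g i) (hg i)) (q2_toL (w' θ - v₁) ((hcont.V θ).sub hv₁)) : ℝ)
  have hΦ : Continuous Φ := by
    refine (PiLp.continuous_toLp 2 _).comp (continuous_pi fun i => ?_)
    exact q2_cont hcont hv₁ (hg i)
  have hy' : ∀ θ : Θ, IsV (∑ i, s i θ • v i) := fun θ => IsV.sum _ _ fun i _ => (hv i).smul _
  have hb : ∀ θ : Θ, ‖(θ : EuclideanSpace ℝ (Fin N)) - Φ θ‖ ≤ 1 := by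
    intro θ
    have hz : IsV (∑ i, (θ : EuclideanSpace ℝ (Fin N)) i • g i) :=
      IsV.sum _ _ fun i _ => (hg i).smul _
    -- the difference
    have hD : IsV (w' θ - ∑ i, s i θ • v i) := (hw' θ).sub (hy' θ)
    have e1 : q2_toL (w' θ - v₁) ((hcont.V θ).sub hv₁) =
        q2_toL (w' θ - ∑ i, s i θ • v i) hD +
          ∑ i, (θ : EuclideanSpace ℝ (Fin N)) i • q2_toL (g i) (hg i) := by
      apply q2_J_inj
      simp only [map_add, map_sum, map_smul]
      change w' θ - v₁ = (w' θ - ∑ i, s i θ • v i) + ∑ i, (θ : EuclideanSpace ℝ (Fin N)) i • g i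
      rw [hy]
      abel
    have e2 : ∀ i, (θ : EuclideanSpace ℝ (Fin N)) i - Φ θ i =
        -(inner ℝ (q2_toL (g i) (hg i)) (q2_toL (w' θ - ∑ i, s i θ • v i) hD) : ℝ) := by
      intro i
      have e3 : Φ θ i = inner ℝ (q2_toL (g i) (hg i))
          (q2_toL (w' θ - v₁) ((hcont.V θ).sub hv₁)) := rfl
      rw [e3, e1, inner_add_right, hon.inner_right_fintype]
      ring
    have e4 : ‖(θ : EuclideanSpace ℝ (Fin N)) - Φ θ‖ ^ 2 ≤ 1 := by
      rw [EuclideanSpace.norm_sq_eq]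
      have e5 : ∀ i, ‖((θ : EuclideanSpace ℝ (Fin N)) - Φ θ) i‖ ^ 2 =
          ‖(inner ℝ (q2_toL (g i) (hg i)) (q2_toL (w' θ - ∑ i, s i θ • v i) hD) : ℝ)‖ ^ 2 := by
        intro i
        rw [PiLp.sub_apply, e2 i, norm_neg]
      simp only [e5]
      have e6 := hon.sum_inner_products_le (x := q2_toL (w' θ - ∑ i, s i θ • v i) hD)
        (s := Finset.univ)
      have e7 := q2_norm_le hD
      have e8 := hclose θ
      have e9 := norm_nonneg (q2_toL (w' θ - ∑ i, s i θ • v i) hD)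
      nlinarith
    exact abs_le_one_iff_mul_self_le_one.2 (by nlinarith [norm_nonneg ((θ : EuclideanSpace ℝ (Fin N)) - Φ θ)]) |> le_trans (le_abs_self _)
  obtain ⟨θ, hθ⟩ := q2_brouwer Φ hΦ hb
  have hL' : ∀ p ∈ (L.map fun p => (p.1, p.2 θ)), 0 < p.1 := by
    intro p hp
    obtain ⟨q, hq, rfl⟩ := List.mem_map.1 hp
    exact (hL q hq).1
  have hsum' : ((L.map fun p => (p.1, p.2 θ)).map Prod.fst).sum = T := by
    rw [List.map_map, ← hsum]
    rfl
  obtain ⟨c, u, hc, hcb, hu, hu0, huT⟩ := q2_run_NS (fun s => (hV s).1) hv₀ hL' hsum' (hrun θ) hm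
  refine ⟨c, u, hc, hcb, hu, hu0.trans hu₀.symm, ?_⟩
  intro f hf
  have e1 : ∀ k, u T k - u₁ k = (w' θ - v₁) k := by
    intro k
    have : u T - u₁ = w' θ - v₁ := by
      rw [huT]
      conv_lhs => rw [hu₁, ← h01]
      abel
    exact congrFun this k
  simp only [e1]
  refine q2_final hF (hg := hg) hspan ((hw' θ).sub hv₁) ?_ hf
  intro i
  exact congrFun (congrArg (fun z : EuclideanSpace ℝ (Fin N) => (z : Fin N → ℝ)) hθ) i

/-- Q2: a finite-dimensional space of forces supported in `D`, the same for all `ν > 0`, makes the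
Navier-Stokes system controllable in finite-dimensional projections in any time. -/
theorem Q2 (d : ℕ) (hd : d = 2 ∨ d = 3) (D : Set (Rv d)) (hD : IsOpen D) (hne : D.Nonempty)
    (hper : ∀ x ∈ D, ∀ l : K d, x + per l ∈ D) :
    ∃ (n : ℕ) (e : Fin n → VF d),
      (∀ s, (∀ i, ContDiff ℝ 12 (e s i)) ∧ (∀ i x l, e s i (x + per l) = e s i x) ∧
        Dfree (e s) ∧ ∀ i, tsupport (e s i) ⊆ D) ∧
      ∀ ν : ℝ, 0 < ν → ∀ u₀ u₁ : Sq d, IsH u₀ → IsH u₁ → u₀ 0 = u₁ 0 → ∀ T : ℝ, 0 < T →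
      ∀ F : Submodule ℝ (Sq d), FiniteDimensional ℝ F → (∀ f ∈ F, IsH f) →
      ∃ (c : ℝ → Fin n → ℝ) (u : ℝ → Sq d), Measurable c ∧ (∃ C, ∀ t s, |c t s| ≤ C) ∧
        NS ν (fun t k => ∑ s, c t s • (WithLp.toLp 2 fun i => pc (e s i) k : Cv d)) T u ∧
        u 0 = u₀ ∧ ∀ f ∈ F, ∑' k, (inner ℂ (f k) (u T k - u₁ k)).re = 0 := by
  obtain ⟨n, b, hb, hV, hall⟩ := fields' hd hD hne hper
  refine ⟨n, b, hb, ?_⟩
  intro ν hν u₀ u₁ h₀ h₁ h01 T hT F hfin hF
  exact proj_control hd hV hν (hall ν hν) h₀ h₁ h01 hT F hF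

end NSC
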