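import Pool.Agent.Work.MP_57e339_an.Stmt
import Pool.Agent.Work.MP_57e339_an.Expl
import Pool.Agent.Work.MP_57e339_an.Q2

/-! Module Bridge: from the internal notions to those of the statement. -/

open MeasureTheory Set Filter Topology
open scoped BigOperators
noncomputable section
namespace NSC
open LocNS
variable {d : ℕ}

theorem br_sqLen (k : K d) : sqLen k = nk k ^ 2 := (nk_sq k).symm

theorem br_inV {u : Sq d} : InV u ↔ IsH u := by
  constructor
  · intro h
    refine ⟨h.div_free, ?_, ?_⟩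
    · intro k
      ext i
      exact h.real_valued k i
    · have := h.h1
      simpa only [br_sqLen] using this
  · intro h
    refine ⟨h.dv, ?_, ?_⟩
    · intro k i
      rw [h.sy k]
      rfl
    · have := h.sm
      simpa only [← br_sqLen] using this

theorem br_norm (u : Sq d) : normH1 u = nH u := by
  unfold normH1 nH
  simp only [br_sqLen]

theorem br_leray {k : K d} (hk : k ≠ 0) (c : Cv d) : leray k c = Pk k c := by
  unfold leray Pk
  rw [if_neg hk, br_sqLen]
  push_cast
  rfl

theorem br_leray_zero (c : Cv d) : leray (0 : K d) c = c := by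
  unfold leray
  rw [br_sqLen, nk_zero]
  simp

theorem br_conv {u : Sq d} (hu : IsH u) (k : K d) : convection u k = Bk u u k := by
  have h1 : ∀ j, dotC (k - j) (u j) = dot k (u j) := by
    intro j
    have : dotC (k - j) (u j) = dot (k - j) (u j) := rfl
    rw [this, dot_sub_left, hu.dv j, sub_zero]
  unfold convection
  simp only [h1]
  by_cases hk : k = 0
  · subst hk
    rw [br_leray_zero, bk_at_zero]
    simp only [dot_zero_left, mul_zero, zero_smul, tsum_zero]
  · rw [br_leray hk]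
    unfold Bk
    have h2 : (∑' j, (Complex.I * dot k (u j)) • u (k - j)) =
        Complex.I • ∑' j, dot k (u j) • u (k - j) := by
      rw [← tsum_const_smul'']
      apply tsum_congr
      intro j
      rw [smul_smul]
    rw [h2, Pk_smul]

theorem br_sol {ν : ℝ} {η : ℝ → Sq d} {T : ℝ} {u : ℝ → Sq d} (h : NS ν η T u) :
    IsSolution ν η T u := by
  refine ⟨fun t ht => br_inV.2 (h.V t ht), ?_, h.ct, ?_⟩
  · obtain ⟨M, hM⟩ := h.bd
    exact ⟨M, fun t ht => by rw [br_norm]; exact hM t ht⟩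
  · intro k t ht
    rw [h.eq k t ht]
    congr 1
    apply intervalIntegral.integral_congr
    intro s hs
    rw [uIcc_of_le ht.1] at hs
    have h1 := br_conv (h.V s ⟨hs.1, hs.2.trans ht.2⟩) k
    simp only [h1, br_sqLen]

theorem br_fourier (e : VF d) : fourier e = pcv e := rfl

/-! ### The cutoffs -/

theorem br_cut_smooth (a : ℝ) : ContDiff ℝ (⊤ : ℕ∞) (cutoff a) :=
  Real.smoothTransition.contDiff.comp ((contDiff_const.sub contDiff_id).div_const _)

theorem br_cut_one {a : ℝ} (ha : 0 < a) {s : ℝ} (hs : s ≤ (a / 4) ^ 2) : cutoff a s = 1 := by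
  have hab : (a / 4) ^ 2 < (a / 2) ^ 2 := by nlinarith
  apply Real.smoothTransition.one_of_one_le
  rw [le_div_iff₀ (by linarith)]
  linarith

theorem br_cut_zero {a : ℝ} (ha : 0 < a) {s : ℝ} (hs : (a / 2) ^ 2 ≤ s) : cutoff a s = 0 := by
  have hab : (a / 4) ^ 2 < (a / 2) ^ 2 := by nlinarith
  apply Real.smoothTransition.zero_of_nonpos
  apply div_nonpos_of_nonpos_of_nonneg <;> linarith

theorem br_cut2_smooth (a : ℝ) : ContDiff ℝ (⊤ : ℕ∞) (fun u : ℝ => cutoff a (u ^ 2)) :=
  (br_cut_smooth a).comp (contDiff_id.pow 2)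

theorem br_cut2_one {a : ℝ} (ha : 0 < a) {u : ℝ} (hu : |u| ≤ a / 4) : cutoff a (u ^ 2) = 1 := by
  apply br_cut_one ha
  rw [← sq_abs]
  exact pow_le_pow_left₀ (abs_nonneg u) hu 2

theorem br_cut2_zero {a : ℝ} (ha : 0 < a) {u : ℝ} (hu : a / 2 ≤ |u|) : cutoff a (u ^ 2) = 0 := by
  apply br_cut_zero ha
  rw [← sq_abs u]
  exact pow_le_pow_left₀ (by positivity) hu 2

/-! ### The fields -/

/-- the field before periodization -/
def brField (x₀ : Rv d) (r : ℝ) (s : PotI d × Fin d × Fin d) : VF d :=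
  fldE (cutoff r) (fun u => cutoff (r / 32 / (d + 1)) (u ^ 2)) x₀ s

theorem br_stream (x₀ : Rv d) (r : ℝ) (s : PotI d) :
    stream x₀ r s = potE (cutoff r) (fun u => cutoff (r / 32 / (d + 1)) (u ^ 2)) x₀ s := by
  rcases s with j | ⟨i, j⟩ | S
  · rfl
  · rfl
  · rfl

theorem br_field (x₀ : Rv d) (r : ℝ) (s : PotI d × Fin d × Fin d) :
    controlField x₀ r s = fun i => torusPer (brField x₀ r s i) := by
  unfold controlField brField fldE
  rw [br_stream]
  rfl

theorem br_field_prop (x₀ : Rv d) {r : ℝ} (hr : 0 < r) (s : PotI d × Fin d × Fin d) :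
    TFN 12 (brField x₀ r s) ∧ Dfree (brField x₀ r s) ∧ Su (brField x₀ r s) (Metric.ball x₀ r) := by
  have ha : 0 < r / 32 / ((d : ℝ) + 1) := by positivity
  exact fldE_prop hr (br_cut_smooth r) (fun s hs => br_cut_zero hr hs) (br_cut2_smooth _)
    (fun u hu => br_cut2_zero ha hu) (fun u hu => br_cut2_one ha hu) x₀ s

theorem periodizeE {β : VF d} {N : ℕ} (hβ : TFN N β) (_hN : 1 ≤ N) (hdiv : Dfree β) {x₀ : Rv d}
    {r : ℝ} (hr1 : r ≤ 1) (hs : Su β (Metric.ball x₀ r)) :
    (∀ i, ContDiff ℝ N (torusPer (β i))) ∧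
      (∀ i x l, torusPer (β i) (x + per l) = torusPer (β i) x) ∧
      Dfree (fun i => torusPer (β i)) ∧
      (∀ i, tsupport (torusPer (β i)) ⊆ {x | ∃ l : K d, x + per l ∈ Metric.ball x₀ r}) ∧
      ∀ i k, pc (torusPer (β i)) k = fc (β i) k := by
  classical
  refine ⟨?_, fun i x l => torus_per_periodic _ _ _, ?_, ?_, ?_⟩
  · intro i
    rw [contDiff_iff_contDiffAt]
    intro y
    obtain ⟨l, hl⟩ := torus_eventually β hr1 hs y
    refine ContDiffAt.congr_of_eventuallyEq ?_ (hl i)
    have h1 : ContDiff ℝ N fun x => β i (x + per l) :=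
      (hβ i).1.comp (contDiff_id.add contDiff_const)
    exact h1.contDiffAt
  · intro y
    obtain ⟨l, hl⟩ := torus_eventually β hr1 hs y
    have h1 := hdiv (y + per l)
    rw [← h1]
    refine Finset.sum_congr rfl fun i _ => ?_
    unfold pd
    rw [(hl i).fderiv_eq, fderiv_comp_add_right]
  · intro i y hy
    obtain ⟨l, hl⟩ := torus_eventually β hr1 hs y
    refine ⟨l, hs i ?_⟩
    have h1 : y ∈ tsupport (fun x => β i (x + per l)) := by
      rw [tsupport, mem_closure_iff_frequently] at hy ⊢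
      refine (hy.and_eventually (hl i)).mono ?_
      rintro x ⟨hx1, hx2⟩
      rw [Function.mem_support] at hx1 ⊢
      intro h0
      exact hx1 (hx2.trans h0)
    have h2 : (fun x => β i (x + per l)) = β i ∘ (Homeomorph.addRight (per l)) := rfl
    rw [h2, tsupport_comp_eq_preimage] at h1
    exact h1
  · intro i k
    have hint : Integrable (β i) :=
      (hβ i).1.continuous.integrable_of_hasCompactSupport (hβ i).2
    unfold pc fc
    congr 1
    rw [torus_unfold (four_int hint k), torus_Q_zero]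
    congr 1
    funext x
    unfold torusPer
    rw [Complex.ofReal_tsum, ← tsum_mul_left]
    refine tsum_congr fun l => ?_
    rw [torus_exp_per]

theorem br_pcv {x₀ : Rv d} {r : ℝ} (hr : 0 < r) (hr1 : r ≤ 1) (s : PotI d × Fin d × Fin d) :
    pcv (controlField x₀ r s) = pr (brField x₀ r s) := by
  obtain ⟨h1, h2, h3⟩ := br_field_prop x₀ hr s
  obtain ⟨-, -, -, -, p5⟩ := periodizeE h1 (by norm_num) h2 hr1 h3
  funext k
  have h4 : TFN 1 (brField x₀ r s) := fun i => ⟨(h1 i).1.of_le (by norm_num), (h1 i).2⟩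
  rw [pr_of_dfree h4 h2 k, br_field]
  unfold pcv fcv
  congr 1
  funext i
  exact p5 i k

theorem br_pcv_V (hd : d = 2 ∨ d = 3) {x₀ : Rv d} {r : ℝ} (hr : 0 < r) (hr1 : r ≤ 1)
    (s : PotI d × Fin d × Fin d) :
    IsV (pcv (controlField x₀ r s)) ∧ SW 4 (pcv (controlField x₀ r s)) := by
  obtain ⟨h1, h2, h3⟩ := br_field_prop x₀ hr s
  rw [br_pcv hr hr1]
  exact ⟨pr_isV hd fun i => ⟨(h1 i).1.of_le (by norm_num), (h1 i).2⟩,
    pr_SW4 hd fun i => ⟨(h1 i).1.of_le (by norm_num), (h1 i).2⟩⟩

theorem br_all (hd : d = 2 ∨ d = 3) {x₀ : Rv d} {r : ℝ} (hr : 0 < r) (hr1 : r ≤ 1) {n : ℕ}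
    (e : Fin n ≃ PotI d × Fin d × Fin d) {ν : ℝ} (hν : 0 < ν) (m : Fin d → ℝ) (v : Sq d)
    (hv : IsV v) : v ∈ DD ν m (fun s => pcv (controlField x₀ r (e s))) := by
  have hV : ∀ s : Fin n, IsV (pcv (controlField x₀ r (e s))) ∧
      SW 4 (pcv (controlField x₀ r (e s))) := fun s => br_pcv_V hd hr hr1 (e s)
  have hadm : Adm (DD ν m (fun s => pcv (controlField x₀ r (e s)))) := adm_DD hd hν m hV
  have ha : 0 < r / 32 / ((d : ℝ) + 1) := by positivity
  refine physE hd x₀ hr hr1 (br_cut_smooth r) (fun s hs => br_cut_one hr hs)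
    (fun s hs => br_cut_zero hr hs) (br_cut2_smooth (r / 32 / (d + 1)))
    (fun u hu => br_cut2_zero ha hu) (fun u hu => br_cut2_one ha hu) hadm ?_ v hv
  intro s
  have h1 := mem_DD hd hν (m := m) hV (e.symm s)
  simp only [Equiv.apply_symm_apply] at h1
  rw [br_pcv hr hr1] at h1
  exact h1

theorem br_comb {n : ℕ} {ι : Type} [Fintype ι] (e : Fin n ≃ ι) (b : ι → VF d)
    (c : Fin n → ℝ) (k : K d) :
    Comb (fun s => pcv (b (e s))) c k = ∑ s, c (e.symm s) • fourier (b s) k := by
  unfold Comb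
  rw [← e.sum_comp]
  simp only [Equiv.symm_apply_apply]
  rfl

theorem br_inVD (hd : d = 2 ∨ d = 3) {x₀ : Rv d} {r : ℝ} (hr : 0 < r) (hr1 : r ≤ 1)
    {D : Set (Rv d)} (hball : Metric.ball x₀ r ⊆ D)
    (hper : ∀ x ∈ D, ∀ l : K d, x + period l ∈ D)
    (s : PotI d × Fin d × Fin d) : InVD D (controlField x₀ r s) := by
  obtain ⟨h1, h2, h3⟩ := br_field_prop x₀ hr s
  obtain ⟨p1, p2, p3, p4, -⟩ := periodizeE h1 (by norm_num) h2 hr1 h3
  have hV := (br_pcv_V (x₀ := x₀) hd hr hr1 s).1
  refine ⟨?_, ?_, ?_, ?_⟩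
  · rw [br_field]
    exact p2
  · rw [br_field]
    intro i
    obtain ⟨C, hC⟩ : ∃ C : ℝ, ∀ x ∈ cell d, ‖torusPer (brField x₀ r s i) x‖ ≤ C := by
      have hK : IsCompact {x : Rv d | ∀ j, x j ∈ Icc (0 : ℝ) (2 * Real.pi)} := by
        have h5 : {x : Rv d | ∀ j, x j ∈ Icc (0 : ℝ) (2 * Real.pi)} =
            (WithLp.toLp 2) '' (Set.pi univ fun _ : Fin d => Icc (0 : ℝ) (2 * Real.pi)) := by
          ext x
          constructor
          · intro hx
            exact ⟨x.ofLp, fun j _ => hx j, rfl⟩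
          · rintro ⟨y, hy, rfl⟩
            exact fun j => hy j (mem_univ j)
        rw [h5]
        exact (isCompact_univ_pi fun _ => isCompact_Icc).image (PiLp.continuous_toLp 2 _)
      obtain ⟨C, hC⟩ := hK.exists_bound_of_continuousOn (p1 i).continuous.continuousOn
      exact ⟨C, fun x hx => hC x fun j => Ico_subset_Icc_self (hx j)⟩
    have hfin : volume (cell d) < ⊤ := by
      refine (measure_mono (t := Metric.closedBall (0 : Rv d)
        (Real.sqrt (d * (2 * Real.pi) ^ 2))) ?_).trans_lt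
        (isCompact_closedBall _ _).measure_lt_top
      intro x hx
      rw [mem_closedBall_zero_iff, EuclideanSpace.norm_eq]
      apply Real.sqrt_le_sqrt
      have h6 : ∑ i, ‖x i‖ ^ 2 ≤ ∑ _i : Fin d, (2 * Real.pi) ^ 2 := by
        apply Finset.sum_le_sum
        intro i _
        rw [Real.norm_eq_abs, sq_abs]
        exact pow_le_pow_left₀ (hx i).1 (hx i).2.le 2
      rw [Finset.sum_const, Finset.card_univ, Fintype.card_fin, nsmul_eq_mul] at h6
      exact h6
    have hmeas : MeasurableSet (cell d) := by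
      have := torus_Q_meas (0 : K d)
      rw [torus_Q_zero] at this
      exact this
    have : IsFiniteMeasure (volume.restrict (cell d)) :=
      ⟨by rw [Measure.restrict_apply_univ]; exact hfin⟩
    refine MemLp.of_bound (p1 i).continuous.aestronglyMeasurable C ?_
    rw [ae_restrict_iff' hmeas]
    exact Eventually.of_forall hC
  · exact br_inV.2 (by
      have h5 := isH_of_isV hV (m := fun _ => 0) (M := 0) (by simp)
      have h6 : pcv (controlField x₀ r s) + cst 0 = pcv (controlField x₀ r s) := by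
        funext k
        simp [cst]
      rw [h6] at h5
      exact h5)
  · rw [br_field]
    intro i
    refine Eventually.of_forall fun x hx => ?_
    by_contra hne
    obtain ⟨l, hl⟩ := p4 i (subset_tsupport _ hne)
    have h5 := hper _ (hball hl) (-l)
    have h6 : period (-l) = -per l := per_neg l
    rw [h6, add_neg_cancel_right] at h5
    exact hx (subset_closure h5)

end NSC
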