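import Pool.Agent.Work.MP_57e339_an.CalcA

/-! Module CalcB: the bounds `Nb` for all derivatives of order at most `m`. -/

open MeasureTheory Set Filter Topology
open scoped BigOperators
noncomputable section
namespace NSC
variable {d : ℕ}

theorem Nb.mono {m : ℕ} {A B : ℝ} {f : Rv d → ℝ} (h : Nb m A f) (hAB : A ≤ B) : Nb m B f := by
  induction m generalizing f with
  | zero => exact fun x => (h x).trans hAB
  | succ m ih => exact ⟨fun x => (h.1 x).trans hAB, fun i => ih (h.2 i)⟩

theorem Nb.bd {m : ℕ} {A : ℝ} {f : Rv d → ℝ} (h : Nb m A f) (x : Rv d) : |f x| ≤ A := by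
  cases m with
  | zero => exact h x
  | succ m => exact h.1 x

theorem Nb.le {m l : ℕ} {A : ℝ} {f : Rv d → ℝ} (h : Nb m A f) (hl : l ≤ m) : Nb l A f := by
  induction l generalizing m f with
  | zero => exact fun x => h.bd x
  | succ l ih =>
    cases m with
    | zero => omega
    | succ m => exact ⟨h.1, fun i => ih (h.2 i) (by omega)⟩

theorem Nb.nonneg {m : ℕ} {A : ℝ} {f : Rv d → ℝ} (h : Nb m A f) : 0 ≤ A :=
  (abs_nonneg _).trans (h.bd 0)

theorem Nb.pd {m : ℕ} {A : ℝ} {f : Rv d → ℝ} (h : Nb (m + 1) A f) (i : Fin d) :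
    Nb m A (pd i f) := h.2 i

private theorem CalcB_diff {m : ℕ} {f : Rv d → ℝ} (hf : ContDiff ℝ (m + 1 : ℕ) f) :
    Differentiable ℝ f := hf.differentiable (by simp)

theorem Nb.add {m : ℕ} {A B : ℝ} {f g : Rv d → ℝ} (hf : ContDiff ℝ m f) (hg : ContDiff ℝ m g)
    (h : Nb m A f) (h' : Nb m B g) : Nb m (A + B) (fun x => f x + g x) := by
  induction m generalizing f g with
  | zero => exact fun x => (abs_add_le _ _).trans (add_le_add (h x) (h' x))
  | succ m ih =>
    refine ⟨fun x => (abs_add_le _ _).trans (add_le_add (h.1 x) (h'.1 x)), fun i => ?_⟩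
    have h1 : NSC.pd i (fun x => f x + g x) = fun x => NSC.pd i f x + NSC.pd i g x := by
      funext x
      exact pd_add (CalcB_diff hf x) (CalcB_diff hg x) i
    rw [h1]
    exact ih (contDiff_pd hf i) (contDiff_pd hg i) (h.2 i) (h'.2 i)

theorem Nb.const_mul {m : ℕ} {A : ℝ} {f : Rv d → ℝ} (hf : ContDiff ℝ m f) (h : Nb m A f)
    (c : ℝ) : Nb m (|c| * A) (fun x => c * f x) := by
  induction m generalizing f with
  | zero =>
    intro x
    rw [abs_mul]
    exact mul_le_mul_of_nonneg_left (h x) (abs_nonneg c)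
  | succ m ih =>
    refine ⟨fun x => ?_, fun i => ?_⟩
    · rw [abs_mul]
      exact mul_le_mul_of_nonneg_left (h.1 x) (abs_nonneg c)
    · have h1 : NSC.pd i (fun x => c * f x) = fun x => c * NSC.pd i f x := by
        funext x
        exact pd_const_mul (CalcB_diff hf x) c i
      rw [h1]
      exact ih (contDiff_pd hf i) (h.2 i)

theorem Nb.sub {m : ℕ} {A B : ℝ} {f g : Rv d → ℝ} (hf : ContDiff ℝ m f) (hg : ContDiff ℝ m g)
    (h : Nb m A f) (h' : Nb m B g) : Nb m (A + B) (fun x => f x - g x) := by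
  have h1 : (fun x => f x - g x) = fun x => f x + (-1) * g x := by
    funext x
    ring
  rw [h1]
  have h2 : Nb m (|(-1 : ℝ)| * B) (fun x => (-1) * g x) := h'.const_mul hg (-1)
  rw [abs_neg, abs_one, one_mul] at h2
  exact Nb.add hf (contDiff_const.mul hg) h h2

private theorem CalcB_zero (m : ℕ) : Nb m 0 (fun _ : Rv d => (0 : ℝ)) := by
  induction m with
  | zero => intro x; simp
  | succ m ih =>
    refine ⟨fun x => by simp, fun i => ?_⟩
    have h1 : NSC.pd i (fun _ : Rv d => (0 : ℝ)) = fun _ => 0 := by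
      funext x
      exact pd_const 0 i x
    rw [h1]
    exact ih

theorem Nb.sum {m : ℕ} {ι : Type} (s : Finset ι) {A : ι → ℝ} {f : ι → Rv d → ℝ}
    (hf : ∀ j ∈ s, ContDiff ℝ m (f j)) (h : ∀ j ∈ s, Nb m (A j) (f j)) :
    Nb m (∑ j ∈ s, A j) (fun x => ∑ j ∈ s, f j x) := by
  classical
  induction s using Finset.induction_on with
  | empty => simpa using CalcB_zero m
  | insert a s ha ih =>
    simp only [Finset.sum_insert ha]
    refine Nb.add (hf a (Finset.mem_insert_self a s)) ?_ (h a (Finset.mem_insert_self a s)) ?_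
    · exact ContDiff.sum fun j hj => hf j (Finset.mem_insert_of_mem hj)
    · exact ih (fun j hj => hf j (Finset.mem_insert_of_mem hj))
        (fun j hj => h j (Finset.mem_insert_of_mem hj))

theorem Nb.mul {m : ℕ} {A B : ℝ} {f g : Rv d → ℝ} (hf : ContDiff ℝ m f) (hg : ContDiff ℝ m g)
    (h : Nb m A f) (h' : Nb m B g) : Nb m (2 ^ m * A * B) (fun x => f x * g x) := by
  have hA := h.nonneg
  have hB := h'.nonneg
  have hbd : ∀ x, |f x * g x| ≤ A * B := fun x => by
    rw [abs_mul]
    exact mul_le_mul (h.bd x) (h'.bd x) (abs_nonneg _) hA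
  induction m generalizing f g with
  | zero =>
    intro x
    simpa using hbd x
  | succ m ih =>
    have hAB : 0 ≤ A * B := mul_nonneg hA hB
    have hpow : (1 : ℝ) ≤ 2 ^ (m + 1) := one_le_pow₀ (by norm_num)
    refine ⟨fun x => (hbd x).trans ?_, fun i => ?_⟩
    · nlinarith
    · have h1 : NSC.pd i (fun x => f x * g x) =
          fun x => NSC.pd i f x * g x + f x * NSC.pd i g x := by
        funext x
        exact pd_mul (CalcB_diff hf x) (CalcB_diff hg x) i
      have hf' : ContDiff ℝ m f := hf.of_le (by exact_mod_cast Nat.le_succ m)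
      have hg' : ContDiff ℝ m g := hg.of_le (by exact_mod_cast Nat.le_succ m)
      have h2 := ih (contDiff_pd hf i) hg' (h.2 i) (h'.le (Nat.le_succ m)) (fun x => by
        rw [abs_mul]
        exact mul_le_mul ((h.2 i).bd x) (h'.bd x) (abs_nonneg _) hA)
      have h3 := ih hf' (contDiff_pd hg i) (h.le (Nat.le_succ m)) (h'.2 i) (fun x => by
        rw [abs_mul]
        exact mul_le_mul (h.bd x) ((h'.2 i).bd x) (abs_nonneg _) hA)
      rw [h1]
      refine (Nb.add ((contDiff_pd hf i).mul hg') (hf'.mul (contDiff_pd hg i)) h2 h3).mono ?_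
      rw [pow_succ]
      linarith

theorem Nb.trans {m : ℕ} {A : ℝ} {f : Rv d → ℝ} (h : Nb m A f) (y : Rv d) :
    Nb m A (fun x => f (x - y)) := by
  induction m generalizing f with
  | zero => exact fun x => h (x - y)
  | succ m ih =>
    refine ⟨fun x => h.1 (x - y), fun i => ?_⟩
    rw [pd_trans]
    exact ih (h.2 i)

theorem nb_exists {m : ℕ} {f : Rv d → ℝ} (hf : ContDiff ℝ m f) (hc : HasCompactSupport f) :
    ∃ A, Nb m A f := by
  induction m generalizing f with
  | zero =>
    obtain ⟨C, hC⟩ := hc.exists_bound_of_continuous hf.continuous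
    exact ⟨C, fun x => by simpa [Real.norm_eq_abs] using hC x⟩
  | succ m ih =>
    obtain ⟨C, hC⟩ := hc.exists_bound_of_continuous hf.continuous
    have hpd : ∀ i, HasCompactSupport (NSC.pd i f) := fun i =>
      hc.of_isClosed_subset (isClosed_tsupport _) (tsupport_pd_subset f i)
    choose a ha using fun i => ih (contDiff_pd hf i) (hpd i)
    have ha0 : ∀ i, 0 ≤ a i := fun i => (ha i).nonneg
    have hC0 : 0 ≤ C := (norm_nonneg _).trans (hC 0)
    refine ⟨C + ∑ i, a i, fun x => ?_, fun i => ?_⟩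
    · have h1 := hC x
      rw [Real.norm_eq_abs] at h1
      have h2 : 0 ≤ ∑ i, a i := Finset.sum_nonneg fun i _ => ha0 i
      linarith
    · refine (ha i).mono ?_
      have h2 : a i ≤ ∑ i, a i := Finset.single_le_sum (fun j _ => ha0 j) (Finset.mem_univ i)
      linarith

private theorem CalcB_coord (y : Rv d) (i : Fin d) : |y i| ≤ ‖y‖ := by
  have h := PiLp.norm_apply_le y i
  rwa [Real.norm_eq_abs] at h

private theorem CalcB_fderiv {A : ℝ} {f : Rv d → ℝ} (hf : Differentiable ℝ f)
    (h : ∀ i x, |NSC.pd i f x| ≤ A) (hA : 0 ≤ A) (x : Rv d) : ‖fderiv ℝ f x‖ ≤ (d : ℝ) * A := by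
  refine ContinuousLinearMap.opNorm_le_bound _ (by positivity) fun v => ?_
  rw [fderiv_eq_sum (hf x) v, Real.norm_eq_abs]
  calc |∑ i, v i * NSC.pd i f x| ≤ ∑ i, |v i * NSC.pd i f x| := Finset.abs_sum_le_sum_abs _ _
    _ ≤ ∑ _i : Fin d, ‖v‖ * A := Finset.sum_le_sum fun i _ => by
        rw [abs_mul]
        exact mul_le_mul (CalcB_coord v i) (h i x) (abs_nonneg _) (norm_nonneg _)
    _ = (d : ℝ) * A * ‖v‖ := by
        rw [Finset.sum_const, Finset.card_univ, Fintype.card_fin, nsmul_eq_mul]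
        ring

private theorem CalcB_dtr {f : Rv d → ℝ} (hf : Differentiable ℝ f) (y x : Rv d) :
    DifferentiableAt ℝ (fun x => f (x - y)) x :=
  (hf (x - y)).comp x (differentiableAt_id.sub_const y)

private theorem CalcB_sub0 {A : ℝ} {f : Rv d → ℝ} (hf : Differentiable ℝ f)
    (h : ∀ i x, |NSC.pd i f x| ≤ A) (hA : 0 ≤ A) (x y : Rv d) :
    |f (x - y) - f x| ≤ (d : ℝ) * A * ‖y‖ := by
  have h1 := (convex_univ (𝕜 := ℝ) (E := Rv d)).norm_image_sub_le_of_norm_fderiv_le
    (f := f) (fun z _ => hf z) (fun z _ => CalcB_fderiv hf h hA z) (mem_univ x) (mem_univ (x - y))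
  rw [Real.norm_eq_abs] at h1
  have h2 : ‖x - y - x‖ = ‖y‖ := by
    rw [sub_sub_cancel_left, norm_neg]
  rwa [h2] at h1

theorem nb_trans_sub {m : ℕ} {A : ℝ} {f : Rv d → ℝ} (hf : ContDiff ℝ (m + 1 : ℕ) f)
    (h : Nb (m + 1) A f) (y : Rv d) :
    Nb m ((d : ℝ) * A * ‖y‖) (fun x => f (x - y) - f x) := by
  have hA := h.nonneg
  induction m generalizing f with
  | zero =>
    intro x
    exact CalcB_sub0 (CalcB_diff hf) (fun i x => (h.2 i).bd x) hA x y
  | succ m ih =>
    have hd : Differentiable ℝ f := hf.differentiable (by simp)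
    refine ⟨fun x => CalcB_sub0 hd (fun i x => (h.2 i).bd x) hA x y, fun i => ?_⟩
    have h1 : NSC.pd i (fun x => f (x - y) - f x) =
        fun x => NSC.pd i f (x - y) - NSC.pd i f x := by
      funext x
      rw [pd_sub (f := fun x => f (x - y)) (CalcB_dtr hd y x) (hd x) i, pd_trans]
    rw [h1]
    exact ih (contDiff_pd hf i) (h.2 i)

private theorem CalcB_taylor0 {A : ℝ} {f : Rv d → ℝ} (hf : ContDiff ℝ 2 f)
    (h : ∀ i j x, |NSC.pd i (NSC.pd j f) x| ≤ A) (hA : 0 ≤ A) (x y : Rv d) :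
    |f (x - y) - f x + ∑ i, y i * pd i f x| ≤ (d : ℝ) ^ 2 * A * ‖y‖ ^ 2 := by
  have hd : Differentiable ℝ f := hf.differentiable (by norm_num)
  have hdp : ∀ i, Differentiable ℝ (NSC.pd i f) := fun i =>
    (contDiff_pd (N := 1) (by exact_mod_cast hf) i).differentiable (by norm_num)
  let g : ℝ → ℝ := fun t => f (x - t • y) - f x + t * ∑ i, y i * NSC.pd i f x
  have hline : ∀ t : ℝ, HasDerivAt (fun t : ℝ => x - t • y) (-y) t := by
    intro t
    have h1 : HasDerivAt (fun t : ℝ => t • y) ((1 : ℝ) • y) t := (hasDerivAt_id t).smul_const y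
    have h2 := h1.const_sub x
    simpa using h2
  have hg : ∀ t : ℝ, HasDerivAt g
      (fderiv ℝ f (x - t • y) (-y) + ∑ i, y i * NSC.pd i f x) t := by
    intro t
    have h1 : HasDerivAt (fun t : ℝ => f (x - t • y)) (fderiv ℝ f (x - t • y) (-y)) t :=
      (hd (x - t • y)).hasFDerivAt.comp_hasDerivAt t (hline t)
    have h2 : HasDerivAt (fun t : ℝ => t * ∑ i, y i * NSC.pd i f x)
        (1 * ∑ i, y i * NSC.pd i f x) t := (hasDerivAt_id t).mul_const _
    have h3 := (h1.sub_const (f x)).add h2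
    rw [one_mul] at h3
    exact h3
  have hbound : ∀ t ∈ Ico (0 : ℝ) 1,
      ‖fderiv ℝ f (x - t • y) (-y) + ∑ i, y i * NSC.pd i f x‖ ≤ (d : ℝ) ^ 2 * A * ‖y‖ ^ 2 := by
    intro t ht
    rw [map_neg, fderiv_eq_sum (hd _) y, neg_add_eq_sub, ← Finset.sum_sub_distrib,
      Real.norm_eq_abs]
    calc |∑ i, (y i * NSC.pd i f x - y i * NSC.pd i f (x - t • y))|
        ≤ ∑ i, |y i * NSC.pd i f x - y i * NSC.pd i f (x - t • y)| :=
          Finset.abs_sum_le_sum_abs _ _
      _ ≤ ∑ _i : Fin d, ‖y‖ * ((d : ℝ) * A * ‖y‖) := by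
          refine Finset.sum_le_sum fun i _ => ?_
          rw [← mul_sub, abs_mul, abs_sub_comm]
          refine mul_le_mul (CalcB_coord y i) ?_ (abs_nonneg _) (norm_nonneg _)
          refine (CalcB_sub0 (hdp i) (fun j z => h j i z) hA x (t • y)).trans ?_
          refine mul_le_mul_of_nonneg_left ?_ (by positivity)
          rw [norm_smul, Real.norm_eq_abs, abs_of_nonneg ht.1]
          nlinarith [norm_nonneg y, ht.2]
      _ = (d : ℝ) ^ 2 * A * ‖y‖ ^ 2 := by
          rw [Finset.sum_const, Finset.card_univ, Fintype.card_fin, nsmul_eq_mul]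
          ring
  have hmv := norm_image_sub_le_of_norm_deriv_le_segment_01' (f := g)
    (fun t _ => (hg t).hasDerivWithinAt) hbound
  have h0 : g 0 = 0 := by simp [g]
  have h1 : g 1 = f (x - y) - f x + ∑ i, y i * pd i f x := by simp [g]
  rw [h0, h1, sub_zero, Real.norm_eq_abs] at hmv
  exact hmv

/-- Taylor's formula for translations, with bounds for the derivatives -/
theorem nb_trans_taylor {m : ℕ} {A : ℝ} {f : Rv d → ℝ} (hf : ContDiff ℝ (m + 2 : ℕ) f)
    (h : Nb (m + 2) A f) (y : Rv d) :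
    Nb m ((d : ℝ) ^ 2 * A * ‖y‖ ^ 2) (fun x => f (x - y) - f x + ∑ i, y i * pd i f x) := by
  have hA := h.nonneg
  induction m generalizing f with
  | zero =>
    intro x
    exact CalcB_taylor0 hf (fun i j x => ((h.2 j).2 i).bd x) hA x y
  | succ m ih =>
    have hf2 : ContDiff ℝ 2 f := hf.of_le (by
      have : (2 : ℕ) ≤ m + 1 + 2 := by omega
      exact_mod_cast this)
    have hd : Differentiable ℝ f := hf2.differentiable (by norm_num)
    have hdp : ∀ i, Differentiable ℝ (NSC.pd i f) := fun i =>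
      (contDiff_pd (N := 1) (by exact_mod_cast hf2) i).differentiable (by norm_num)
    refine ⟨fun x => CalcB_taylor0 hf2 (fun i j x => ((h.2 j).2 i).bd x) hA x y, fun i => ?_⟩
    have h1 : NSC.pd i (fun x => f (x - y) - f x + ∑ j, y j * NSC.pd j f x) =
        fun x => NSC.pd i f (x - y) - NSC.pd i f x +
          ∑ j, y j * NSC.pd j (NSC.pd i f) x := by
      funext x
      have hs : ∀ j ∈ (Finset.univ : Finset (Fin d)),
          DifferentiableAt ℝ (fun x => y j * NSC.pd j f x) x :=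
        fun j _ => (hdp j x).const_mul _
      rw [pd_add (f := fun x => f (x - y) - f x) (g := fun x => ∑ j, y j * NSC.pd j f x)
        ((CalcB_dtr hd y x).sub (hd x)) (DifferentiableAt.fun_sum hs) i,
        pd_sub (f := fun x => f (x - y)) (CalcB_dtr hd y x) (hd x) i, pd_trans,
        pd_sum Finset.univ hs i]
      congr 1
      refine Finset.sum_congr rfl fun j _ => ?_
      rw [pd_const_mul (hdp j x), pd_comm hf2 i j]
    rw [h1]
    exact ih (contDiff_pd hf i) (h.2 i)

end NSC
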