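import Pool.Agent.Work.MP_57e339_an.Defs

/-! Module CalcA: calculus of partial derivatives, test fields. -/

open MeasureTheory Set Filter Topology
open scoped BigOperators
noncomputable section
namespace NSC
variable {d : ℕ}

theorem norm_ev (i : Fin d) : ‖ev i‖ = 1 := by
  simp [ev]

theorem contDiff_pd {N : ℕ} {f : Rv d → ℝ} (hf : ContDiff ℝ (N + 1 : ℕ) f) (i : Fin d) :
    ContDiff ℝ N (pd i f) := by
  have h : ContDiff ℝ N (fderiv ℝ f) := hf.fderiv_right (by push_cast; exact le_rfl)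
  exact h.clm_apply contDiff_const

theorem contDiff_pd_top {f : Rv d → ℝ} (hf : ContDiff ℝ (⊤ : ℕ∞) f) (i : Fin d) :
    ContDiff ℝ (⊤ : ℕ∞) (pd i f) := by
  have h : ContDiff ℝ (⊤ : ℕ∞) (fderiv ℝ f) := hf.fderiv_right (by simp)
  exact h.clm_apply contDiff_const

theorem tsupport_pd_subset (f : Rv d → ℝ) (i : Fin d) : tsupport (pd i f) ⊆ tsupport f := by
  refine closure_minimal ?_ (isClosed_tsupport f)
  intro x hx
  by_contra h
  apply hx
  have h1 : f =ᶠ[𝓝 x] fun _ => 0 := notMem_tsupport_iff_eventuallyEq.1 h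
  change fderiv ℝ f x (ev i) = 0
  rw [h1.fderiv_eq]
  simp

theorem pd_zero_of_notMem {f : Rv d → ℝ} {x : Rv d} (hx : x ∉ tsupport f) (i : Fin d) :
    pd i f x = 0 := by
  by_contra h
  exact hx (tsupport_pd_subset f i (subset_tsupport _ h))

/-- the derivative in a direction in terms of partial derivatives -/
theorem fderiv_eq_sum {f : Rv d → ℝ} {x : Rv d} (hf : DifferentiableAt ℝ f x) (v : Rv d) :
    fderiv ℝ f x v = ∑ i, v i * pd i f x := by
  have hv : v = ∑ i, v i • ev i := by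
    ext j
    simp [ev, Finset.sum_apply, Pi.single_apply]
  conv_lhs => rw [hv]
  rw [map_sum]
  refine Finset.sum_congr rfl fun i _ => ?_
  rw [map_smul, smul_eq_mul]
  rfl

theorem pd_add {f g : Rv d → ℝ} {x : Rv d} (hf : DifferentiableAt ℝ f x)
    (hg : DifferentiableAt ℝ g x) (i : Fin d) :
    pd i (fun y => f y + g y) x = pd i f x + pd i g x := by
  simp only [pd]
  rw [fderiv_fun_add hf hg]
  rfl

theorem pd_sub {f g : Rv d → ℝ} {x : Rv d} (hf : DifferentiableAt ℝ f x)
    (hg : DifferentiableAt ℝ g x) (i : Fin d) :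
    pd i (fun y => f y - g y) x = pd i f x - pd i g x := by
  simp only [pd]
  rw [fderiv_fun_sub hf hg]
  rfl

theorem pd_const_mul {f : Rv d → ℝ} {x : Rv d} (hf : DifferentiableAt ℝ f x) (c : ℝ) (i : Fin d) :
    pd i (fun y => c * f y) x = c * pd i f x := by
  simp only [pd]
  rw [fderiv_const_mul hf]
  rfl

theorem pd_mul {f g : Rv d → ℝ} {x : Rv d} (hf : DifferentiableAt ℝ f x)
    (hg : DifferentiableAt ℝ g x) (i : Fin d) :
    pd i (fun y => f y * g y) x = pd i f x * g x + f x * pd i g x := by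
  simp only [pd]
  rw [fderiv_fun_mul hf hg]
  simp only [add_apply, smul_apply, smul_eq_mul]
  ring

theorem pd_sum {ι : Type} (s : Finset ι) {f : ι → Rv d → ℝ} {x : Rv d}
    (hf : ∀ j ∈ s, DifferentiableAt ℝ (f j) x) (i : Fin d) :
    pd i (fun y => ∑ j ∈ s, f j y) x = ∑ j ∈ s, pd i (f j) x := by
  simp only [pd]
  rw [fderiv_fun_sum hf]
  simp

theorem pd_const (c : ℝ) (i : Fin d) (x : Rv d) : pd i (fun _ => c) x = 0 := by
  simp [pd]

theorem pd_coord (i j : Fin d) (x : Rv d) : pd i (fun y : Rv d => y j) x = if i = j then 1 else 0 := by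
  have h : HasFDerivAt (fun y : Rv d => y j) (EuclideanSpace.proj j : Rv d →L[ℝ] ℝ) x :=
    (EuclideanSpace.proj j : Rv d →L[ℝ] ℝ).hasFDerivAt
  simp only [pd]
  rw [h.fderiv]
  simp [ev, Pi.single_apply, eq_comm]

theorem pd_comm {f : Rv d → ℝ} (hf : ContDiff ℝ 2 f) (i j : Fin d) :
    pd i (pd j f) = pd j (pd i f) := by
  funext x
  have hd : ∀ k : Fin d, ∀ y v, fderiv ℝ (pd k f) y v = fderiv ℝ (fderiv ℝ f) y v (ev k) := by
    intro k y v
    have h1 : DifferentiableAt ℝ (fderiv ℝ f) y :=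
      (hf.fderiv_right (m := 1) (by norm_num)).differentiable (by norm_num) y
    have h2 : HasFDerivAt (pd k f)
        ((ContinuousLinearMap.apply ℝ ℝ (ev k)).comp (fderiv ℝ (fderiv ℝ f) y)) y :=
      (ContinuousLinearMap.apply ℝ ℝ (ev k)).hasFDerivAt.comp y h1.hasFDerivAt
    rw [h2.fderiv]
    rfl
  have hs : IsSymmSndFDerivAt ℝ f x := by
    apply hf.contDiffAt.isSymmSndFDerivAt
    simp
  change fderiv ℝ (pd j f) x (ev i) = fderiv ℝ (pd i f) x (ev j)
  rw [hd, hd]
  exact hs _ _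

theorem pd_congr {f g : Rv d → ℝ} {x : Rv d} (h : f =ᶠ[𝓝 x] g) (i : Fin d) :
    pd i f x = pd i g x := by
  simp only [pd]
  rw [h.fderiv_eq]

theorem pd_trans (f : Rv d → ℝ) (y : Rv d) (i : Fin d) :
    pd i (fun x => f (x - y)) = fun x => pd i f (x - y) := by
  funext x
  simp only [pd]
  rw [fderiv_comp_sub]

/-- composition with a function of one variable -/
theorem pd_comp {g : ℝ → ℝ} {f : Rv d → ℝ} {x : Rv d} (hg : DifferentiableAt ℝ g (f x))
    (hf : DifferentiableAt ℝ f x) (i : Fin d) :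
    pd i (fun y => g (f y)) x = deriv g (f x) * pd i f x := by
  simp only [pd]
  have h := hg.hasDerivAt.comp_hasFDerivAt x hf.hasFDerivAt
  have h2 : fderiv ℝ (fun y => g (f y)) x = deriv g (f x) • fderiv ℝ f x := h.fderiv
  rw [h2]
  rfl

private theorem CalcA_diff_coord (j : Fin d) : Differentiable ℝ (fun y : Rv d => y j) :=
  (EuclideanSpace.proj j : Rv d →L[ℝ] ℝ).differentiable

theorem pd_normsq (i : Fin d) (x₀ x : Rv d) :
    pd i (fun y => ∑ j, (y j - x₀ j) ^ 2) x = 2 * (x i - x₀ i) := by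
  have hd : ∀ j : Fin d, DifferentiableAt ℝ (fun y : Rv d => y j - x₀ j) x := fun j =>
    (CalcA_diff_coord j x).sub (differentiableAt_const _)
  rw [pd_sum Finset.univ (f := fun j y => (y j - x₀ j) ^ 2) (fun j _ => (hd j).pow 2)]
  have h1 : ∀ j, pd i (fun y : Rv d => (y j - x₀ j) ^ 2) x =
      if i = j then 2 * (x j - x₀ j) else 0 := by
    intro j
    have h2 : (fun y : Rv d => (y j - x₀ j) ^ 2) = fun y => (y j - x₀ j) * (y j - x₀ j) := by
      funext y
      ring
    rw [h2, pd_mul (hd j) (hd j), pd_sub (CalcA_diff_coord j x) (differentiableAt_const _),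
      pd_coord, pd_const]
    split_ifs <;> ring
  simp only [h1]
  simp

theorem TF.add {β γ : VF d} (hβ : TF β) (hγ : TF γ) : TF (fun i x => β i x + γ i x) :=
  fun i => ⟨(hβ i).1.add (hγ i).1, (hβ i).2.add (hγ i).2⟩

theorem TF.sub {β γ : VF d} (hβ : TF β) (hγ : TF γ) : TF (fun i x => β i x - γ i x) := by
  intro i
  refine ⟨(hβ i).1.sub (hγ i).1, ?_⟩
  have h : (fun x => β i x - γ i x) = fun x => β i x + (-γ i) x := by
    funext x
    simp [sub_eq_add_neg]
  change HasCompactSupport (fun x => β i x - γ i x)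
  rw [h]
  exact (hβ i).2.add (hγ i).2.neg

theorem TF.const_mul {β : VF d} (hβ : TF β) (c : Fin d → ℝ) : TF (fun i x => c i * β i x) :=
  fun i => ⟨contDiff_const.mul (hβ i).1, (hβ i).2.mul_left⟩

theorem TF.tfn {β : VF d} (hβ : TF β) (N : ℕ) : TFN N β :=
  fun i => ⟨(hβ i).1.of_le (by exact_mod_cast le_top), (hβ i).2⟩

private theorem CalcA_cs_pd {f : Rv d → ℝ} (hf : HasCompactSupport f) (i : Fin d) :
    HasCompactSupport (pd i f) :=
  hf.of_isClosed_subset (isClosed_tsupport _) (tsupport_pd_subset f i)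

theorem TF.iod {β v : VF d} (hβ : TF β) (hv : ∀ i, ContDiff ℝ (⊤ : ℕ∞) (v i)) :
    TF (iod v β) := by
  intro i
  constructor
  · exact ContDiff.sum fun j _ => (hv j).mul
      ((contDiff_pd_top (hβ i).1 j).sub (contDiff_pd_top (hβ j).1 i))
  · have hK : IsCompact (⋃ j : Fin d, tsupport (β j)) := isCompact_iUnion fun j => (hβ j).2
    refine HasCompactSupport.intro hK fun x hx => ?_
    simp only [mem_iUnion, not_exists] at hx
    simp only [NSC.iod]
    refine Finset.sum_eq_zero fun j _ => ?_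
    rw [pd_zero_of_notMem (hx i) j, pd_zero_of_notMem (hx j) i, sub_zero, mul_zero]

theorem su_iod {β v : VF d} {G : Set (Rv d)} (h : Su β G) : Su (iod v β) G := by
  intro i
  have hcl : IsClosed (⋃ j : Fin d, tsupport (β j)) :=
    isClosed_iUnion_of_finite fun j => isClosed_tsupport _
  refine (closure_minimal ?_ hcl).trans (iUnion_subset fun j => h j)
  intro x hx
  by_contra hx'
  simp only [mem_iUnion, not_exists] at hx'
  apply hx
  simp only [NSC.iod]
  refine Finset.sum_eq_zero fun j _ => ?_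
  rw [pd_zero_of_notMem (hx' i) j, pd_zero_of_notMem (hx' j) i, sub_zero, mul_zero]

end NSC
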