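import Pool.Agent.Work.MP_57e339_an.RBas
import Pool.Agent.Work.MP_57e339_an.BkB

/-! Module Cat: from schedules to one solution on `[0,T]` with a piecewise constant control. -/

open MeasureTheory Set Filter Topology
open scoped BigOperators
noncomputable section
namespace NSC
variable {d n : ℕ}

/-- solutions with a time dependent control -/
structure SolT (ν : ℝ) (m : Fin d → ℝ) (e : Fin n → Sq d) (c : ℝ → Fin n → ℝ) (T : ℝ)
    (u : ℝ → Sq d) : Prop where
  V : ∀ t ∈ Icc (0 : ℝ) T, IsV (u t)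
  bd : ∃ M, ∀ t ∈ Icc (0 : ℝ) T, n1 (u t) ≤ M
  ct : ∀ k, ContinuousOn (fun t => u t k) (Icc (0 : ℝ) T)
  eq : ∀ k, ∀ t ∈ Icc (0 : ℝ) T, u t k = u 0 k +
    ∫ s in (0 : ℝ)..t, (Comb e (c s) k - mu ν m k • u s k - Bk (u s) (u s) k)

theorem cat_int {ν : ℝ} {m : Fin d → ℝ} {e : Fin n → Sq d} {c : ℝ → Fin n → ℝ} {T : ℝ}
    {u : ℝ → Sq d} (hc : Measurable c) (hb : ∃ C, ∀ t i, |c t i| ≤ C) (hT : 0 ≤ T)
    (h : SolT ν m e c T u) (k : K d) : IntervalIntegrable
      (fun s => Comb e (c s) k - mu ν m k • u s k - Bk (u s) (u s) k) volume 0 T := by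
  obtain ⟨M, hM⟩ := h.bd
  have h1 : ContinuousOn (fun s => mu ν m k • u s k) (uIcc 0 T) := by
    rw [uIcc_of_le hT]; exact (h.ct k).fun_const_smul _
  have h2 : ContinuousOn (fun s => Bk (u s) (u s) k) (uIcc 0 T) := by
    rw [uIcc_of_le hT]
    exact bk_continuousOn (fun t ht => ⟨h.V t ht, hM t ht⟩) (fun t ht => ⟨h.V t ht, hM t ht⟩)
      h.ct h.ct k
  have h3 : IntervalIntegrable (fun s => Comb e (c s) k) volume 0 T := by
    obtain ⟨C, hC⟩ := hb
    have h4 : ∀ i, IntervalIntegrable (fun s => c s i • e i k) volume 0 T := by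
      intro i
      rw [intervalIntegrable_iff, uIoc_of_le hT]
      refine Measure.integrableOn_of_bounded (M := C * ‖e i k‖) (by simp) ?_ ?_
      · have h5 : Measurable fun s => c s i := (measurable_pi_apply i).comp hc
        exact (h5.aestronglyMeasurable).smul_const (e i k)
      · refine Eventually.of_forall fun s => ?_
        rw [norm_smul, Real.norm_eq_abs]
        exact mul_le_mul_of_nonneg_right (hC s i) (norm_nonneg _)
    have h5 : (fun s => Comb e (c s) k) = ∑ i, fun s => c s i • e i k := by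
      funext s
      rw [Finset.sum_apply]
      rfl
    rw [h5]
    exact IntervalIntegrable.sum _ fun i _ => h4 i
  exact (h3.sub h1.intervalIntegrable).sub h2.intervalIntegrable

theorem cat_of_sol {ν : ℝ} {m : Fin d → ℝ} {e : Fin n → Sq d} {c : Fin n → ℝ} {T : ℝ}
    {u : ℝ → Sq d} (h : Sol ν m (Comb e c) T u) : SolT ν m e (fun _ => c) T u :=
  ⟨h.V, h.bd, h.ct, h.eq⟩

theorem cat_two {ν : ℝ} {m : Fin d → ℝ} {e : Fin n → Sq d} {c₁ c₂ : ℝ → Fin n → ℝ}
    (hc₁ : Measurable c₁) (hc₂ : Measurable c₂) (hb₁ : ∃ C, ∀ t i, |c₁ t i| ≤ C)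
    (hb₂ : ∃ C, ∀ t i, |c₂ t i| ≤ C) {T₁ T₂ : ℝ} (hT₁ : 0 ≤ T₁) (hT₂ : 0 ≤ T₂)
    {u₁ u₂ : ℝ → Sq d} (h₁ : SolT ν m e c₁ T₁ u₁) (h₂ : SolT ν m e c₂ T₂ u₂)
    (hj : u₂ 0 = u₁ T₁) :
    SolT ν m e (fun t => if t ≤ T₁ then c₁ t else c₂ (t - T₁)) (T₁ + T₂)
      (fun t => if t ≤ T₁ then u₁ t else u₂ (t - T₁)) := by
  have hle : ∀ t : ℝ, t ≤ T₁ → (if t ≤ T₁ then u₁ t else u₂ (t - T₁)) = u₁ t :=
    fun t ht => if_pos ht
  have hge : ∀ t : ℝ, T₁ ≤ t → (if t ≤ T₁ then u₁ t else u₂ (t - T₁)) = u₂ (t - T₁) := by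
    intro t ht
    by_cases h : t ≤ T₁
    · have : t = T₁ := le_antisymm h ht
      rw [if_pos h, this, sub_self, hj]
    · exact if_neg h
  obtain ⟨M₁, hM₁⟩ := h₁.bd
  obtain ⟨M₂, hM₂⟩ := h₂.bd
  refine ⟨fun t ht => ?_, ⟨max M₁ M₂, fun t ht => ?_⟩, fun k => ?_, fun k t ht => ?_⟩
  · rcases le_total t T₁ with h | h
    · show IsV (if t ≤ T₁ then u₁ t else u₂ (t - T₁))
      rw [hle t h]; exact h₁.V t ⟨ht.1, h⟩
    · show IsV (if t ≤ T₁ then u₁ t else u₂ (t - T₁))
      rw [hge t h]; exact h₂.V _ ⟨by linarith, by linarith [ht.2]⟩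
  · rcases le_total t T₁ with h | h
    · show n1 (if t ≤ T₁ then u₁ t else u₂ (t - T₁)) ≤ _
      rw [hle t h]; exact (hM₁ t ⟨ht.1, h⟩).trans (le_max_left _ _)
    · show n1 (if t ≤ T₁ then u₁ t else u₂ (t - T₁)) ≤ _
      rw [hge t h]; exact (hM₂ _ ⟨by linarith, by linarith [ht.2]⟩).trans (le_max_right _ _)
  · have h3 : ContinuousOn (fun t => (if t ≤ T₁ then u₁ t else u₂ (t - T₁)) k) (Icc 0 T₁) :=
      (h₁.ct k).congr fun t ht => by
        show (if t ≤ T₁ then u₁ t else u₂ (t - T₁)) k = _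
        rw [hle t ht.2]
    have h4 : ContinuousOn (fun t => (if t ≤ T₁ then u₁ t else u₂ (t - T₁)) k)
        (Icc T₁ (T₁ + T₂)) := by
      have h5 : ContinuousOn (fun t => u₂ (t - T₁) k) (Icc T₁ (T₁ + T₂)) := by
        have h6 : ContinuousOn (fun t : ℝ => t - T₁) (Icc T₁ (T₁ + T₂)) := by fun_prop
        exact (h₂.ct k).comp h6 fun t ht => ⟨by linarith [ht.1], by linarith [ht.2]⟩
      exact h5.congr fun t ht => by
        show (if t ≤ T₁ then u₁ t else u₂ (t - T₁)) k = _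
        rw [hge t ht.1]
    have h5 := h3.union_of_isClosed h4 isClosed_Icc isClosed_Icc
    rwa [Icc_union_Icc_eq_Icc hT₁ (by linarith)] at h5
  · set F : ℝ → Cv d := fun s => Comb e (if s ≤ T₁ then c₁ s else c₂ (s - T₁)) k -
      mu ν m k • (if s ≤ T₁ then u₁ s else u₂ (s - T₁)) k -
      Bk (if s ≤ T₁ then u₁ s else u₂ (s - T₁)) (if s ≤ T₁ then u₁ s else u₂ (s - T₁)) k
      with hF
    have hFle : ∀ s : ℝ, s ≤ T₁ → F s = Comb e (c₁ s) k - mu ν m k • u₁ s k -
        Bk (u₁ s) (u₁ s) k := by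
      intro s hs
      rw [hF]
      simp only [if_pos hs]
    have hFgt : ∀ s : ℝ, T₁ < s → F s = Comb e (c₂ (s - T₁)) k - mu ν m k • u₂ (s - T₁) k -
        Bk (u₂ (s - T₁)) (u₂ (s - T₁)) k := by
      intro s hs
      rw [hF]
      simp only [if_neg (not_le.2 hs)]
    show (if t ≤ T₁ then u₁ t else u₂ (t - T₁)) k =
      (if (0 : ℝ) ≤ T₁ then u₁ 0 else u₂ (0 - T₁)) k + ∫ s in (0 : ℝ)..t, F s
    rw [hle 0 hT₁]
    rcases le_or_gt t T₁ with h | h
    · rw [hle t h, h₁.eq k t ⟨ht.1, h⟩]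
      congr 1
      apply intervalIntegral.integral_congr
      intro s hs
      rw [uIcc_of_le ht.1] at hs
      exact (hFle s (hs.2.trans h)).symm
    · rw [hge t h.le]
      have i1 : IntervalIntegrable F volume 0 T₁ := by
        refine (cat_int hc₁ hb₁ hT₁ h₁ k).congr ?_
        rw [uIoc_of_le hT₁]
        exact fun s hs => (hFle s hs.2).symm
      have hT₂' : t - T₁ ∈ Icc 0 T₂ := ⟨by linarith, by linarith [ht.2]⟩
      have i2 : IntervalIntegrable F volume T₁ t := by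
        have i3 := (cat_int hc₂ hb₂ hT₂ h₂ k).mono_set (c := 0) (d := t - T₁) (by
          rw [uIcc_of_le hT₂'.1, uIcc_of_le hT₂]
          exact Icc_subset_Icc (le_refl _) hT₂'.2)
        have i4 := i3.comp_sub_right T₁
        rw [zero_add, sub_add_cancel] at i4
        refine i4.congr ?_
        rw [uIoc_of_le h.le]
        exact fun s hs => (hFgt s hs.1).symm
      rw [← intervalIntegral.integral_add_adjacent_intervals i1 i2, ← add_assoc]
      have e1 : u₁ 0 k + ∫ s in (0 : ℝ)..T₁, F s = u₁ T₁ k := by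
        rw [h₁.eq k T₁ ⟨hT₁, le_refl _⟩]
        congr 1
        apply intervalIntegral.integral_congr
        intro s hs
        rw [uIcc_of_le hT₁] at hs
        exact hFle s hs.2
      have e2 : ∫ s in T₁..t, F s = ∫ s in (0 : ℝ)..(t - T₁), (Comb e (c₂ s) k -
          mu ν m k • u₂ s k - Bk (u₂ s) (u₂ s) k) := by
        have e3 := intervalIntegral.integral_comp_sub_right (a := T₁) (b := t)
          (fun s => Comb e (c₂ s) k - mu ν m k • u₂ s k - Bk (u₂ s) (u₂ s) k) T₁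
        rw [sub_self] at e3
        rw [← e3]
        apply intervalIntegral.integral_congr_ae
        refine Eventually.of_forall fun s hs => ?_
        rw [uIoc_of_le h.le] at hs
        exact hFgt s hs.1
      rw [e1, e2, h₂.eq k (t - T₁) hT₂', hj]

theorem run_curve {ν : ℝ} {m : Fin d → ℝ} {e : Fin n → Sq d} (L : List (ℝ × (Fin n → ℝ)))
    (hL : ∀ p ∈ L, 0 < p.1) {w w' : Sq d} (hw : IsV w) (h : Run ν m e L w w') :
    ∃ (c : ℝ → Fin n → ℝ) (u : ℝ → Sq d), Measurable c ∧ (∃ C, ∀ t i, |c t i| ≤ C) ∧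
      SolT ν m e c (L.map Prod.fst).sum u ∧ u 0 = w ∧ u (L.map Prod.fst).sum = w' := by
  induction L generalizing w with
  | nil =>
    have h0 : w' = w := h
    refine ⟨fun _ => 0, fun _ => w, measurable_const, ⟨0, fun t i => by simp⟩, ?_, rfl, h0.symm⟩
    refine ⟨fun _ _ => hw, ⟨n1 w, fun _ _ => le_refl _⟩, fun k => continuousOn_const,
      fun k t ht => ?_⟩
    have h1 : t = 0 := le_antisymm (by simpa using ht.2) ht.1
    rw [h1, intervalIntegral.integral_same, add_zero]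
  | cons p L ih =>
    obtain ⟨u₁, hu₁, h0, hr⟩ := h
    have hp : 0 < p.1 := hL p (List.mem_cons_self ..)
    have hL' : ∀ q ∈ L, 0 < q.1 := fun q hq => hL q (List.mem_cons_of_mem _ hq)
    obtain ⟨c₂, u₂, hc₂, hb₂, h₂, hu20, hu2T⟩ := ih hL' (hu₁.V p.1 ⟨hp.le, le_refl _⟩) hr
    have hS : 0 ≤ (L.map Prod.fst).sum := by
      apply List.sum_nonneg
      intro x hx
      obtain ⟨q, hq, rfl⟩ := List.mem_map.1 hx
      exact (hL' q hq).le
    obtain ⟨C, hC⟩ := hb₂
    have hb₁ : ∃ C, ∀ (t : ℝ) (i : Fin n), |(fun _ : ℝ => p.2) t i| ≤ C :=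
      ⟨‖p.2‖, fun t i => norm_le_pi_norm p.2 i⟩
    refine ⟨fun t => if t ≤ p.1 then p.2 else c₂ (t - p.1),
      fun t => if t ≤ p.1 then u₁ t else u₂ (t - p.1), ?_, ⟨max ‖p.2‖ C, fun t i => ?_⟩, ?_, ?_, ?_⟩
    · exact Measurable.ite measurableSet_Iic measurable_const
        (hc₂.comp (measurable_id.sub_const _))
    · by_cases ht : t ≤ p.1
      · simp only [if_pos ht]
        exact (norm_le_pi_norm p.2 i).trans (le_max_left _ _)
      · simp only [if_neg ht]
        exact (hC _ i).trans (le_max_right _ _)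
    · rw [List.map_cons, List.sum_cons]
      exact cat_two (c₁ := fun _ => p.2) measurable_const hc₂ hb₁ ⟨C, hC⟩ hp.le hS
        (cat_of_sol hu₁) h₂ hu20
    · simp only [if_pos hp.le]
      exact h0
    · rw [List.map_cons, List.sum_cons]
      rcases hS.lt_or_eq with hS' | hS'
      · simp only [if_neg (show ¬ (p.1 + (L.map Prod.fst).sum ≤ p.1) by linarith)]
        rw [add_sub_cancel_left]
        exact hu2T
      · rw [← hS', add_zero]
        simp only [if_pos (le_refl p.1)]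
        rw [← hu20, ← hu2T, ← hS']

end NSC
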