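import Pool.Agent.Work.MP_57e339_an.StrF

/-! Module CoreE: explicit form of the smooth fields. -/

open MeasureTheory Set Filter Topology
open scoped BigOperators
noncomputable section
namespace NSC
variable {d : ℕ}

/-- the fields which are constant near `x₀` -/
def coreE (h : ℝ → ℝ) (x₀ : Rv d) (t : Fin d) : VF d :=
  coref_field (fun s => ((d : ℝ) - 1)⁻¹ * (2 * s * deriv h s + (d - 1) * h s))
    (fun s => ((d : ℝ) - 1)⁻¹ * (-2 * deriv h s)) x₀ t

theorem core_fieldsE (hd : d = 2 ∨ d = 3) (x₀ : Rv d) {r : ℝ} (hr : 0 < r) {h : ℝ → ℝ}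
    (hh : ContDiff ℝ (⊤ : ℕ∞) h) (h1 : ∀ s ≤ (r / 4) ^ 2, h s = 1)
    (h0 : ∀ s, (r / 2) ^ 2 ≤ s → h s = 0) :
    (∀ t, TF (coreE h x₀ t) ∧ Dfree (coreE h x₀ t) ∧ Su (coreE h x₀ t) (Metric.ball x₀ r)) ∧
      (∀ t, ∀ x ∈ Metric.ball x₀ (r / 4), ∀ i, coreE h x₀ t i x = if i = t then 1 else 0) ∧
      (∀ i j x, pd j (fun x => ∑ t, adv (coreE h x₀ t) i x) x =
        pd i (fun x => ∑ t, adv (coreE h x₀ t) j x) x) := by
  have hd1 : ((d : ℝ) - 1) ≠ 0 := by
    rcases hd with rfl | rfl <;> norm_num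
  set c : ℝ := ((d : ℝ) - 1)⁻¹ with hc
  have hcd : c * (d - 1) = 1 := inv_mul_cancel₀ hd1
  have hh' := coref_deriv_smooth hh
  have hh'' := coref_deriv_smooth hh'
  set F : ℝ → ℝ := fun s => c * (2 * s * deriv h s + (d - 1) * h s) with hF
  set G : ℝ → ℝ := fun s => c * (-2 * deriv h s) with hG
  have hFs : ContDiff ℝ (⊤ : ℕ∞) F :=
    contDiff_const.mul (((contDiff_const.mul contDiff_id).mul hh').add (contDiff_const.mul hh))
  have hGs : ContDiff ℝ (⊤ : ℕ∞) G := contDiff_const.mul (contDiff_const.mul hh')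
  have hFd : ∀ s, deriv F s = c * (2 * deriv h s + 2 * s * deriv (deriv h) s + (d - 1) * deriv h s) := by
    intro s
    have e1 : HasDerivAt h (deriv h s) s := ((hh.differentiable (by simp)) s).hasDerivAt
    have e2 : HasDerivAt (deriv h) (deriv (deriv h) s) s :=
      ((hh'.differentiable (by simp)) s).hasDerivAt
    have e3 : HasDerivAt (fun s : ℝ => 2 * s) 2 s := by simpa using (hasDerivAt_id s).const_mul 2
    have := (((e3.mul e2).add (e1.const_mul ((d : ℝ) - 1))).const_mul c)
    exact this.deriv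
  have hGd : ∀ s, deriv G s = c * (-2 * deriv (deriv h) s) := by
    intro s
    have e2 : HasDerivAt (deriv h) (deriv (deriv h) s) s :=
      ((hh'.differentiable (by simp)) s).hasDerivAt
    exact ((e2.const_mul (-2)).const_mul c).deriv
  have hFG : ∀ s, 2 * deriv F s + 2 * s * deriv G s + (d + 1) * G s = 0 := by
    intro s
    rw [hFd, hGd]
    simp only [hG]
    ring
  have hdef : ∀ t, coreE h x₀ t = coref_field F G x₀ t := fun t => rfl
  simp only [hdef]
  refine ⟨?_, ?_, ?_⟩
  · intro t
    have hsub : ∀ i, Function.support (coref_field F G x₀ t i) ⊆ Metric.closedBall x₀ (r / 2) := by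
      intro i x hx
      by_contra hcon
      rw [Metric.mem_closedBall, not_le] at hcon
      apply hx
      have hrho : (r / 2) ^ 2 < coref_rho x₀ x := by
        rw [coref_rho_eq]
        exact pow_lt_pow_left₀ hcon (by positivity) (by norm_num)
      have e0 : h (coref_rho x₀ x) = 0 := h0 _ hrho.le
      have e1 : deriv h (coref_rho x₀ x) = 0 :=
        coref_deriv_zero isOpen_Ioi (show coref_rho x₀ x ∈ Ioi ((r / 2) ^ 2) from hrho)
          (c := 0) (fun t ht => h0 t (le_of_lt ht))
      simp [coref_field, hF, hG, e0, e1]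
    have hts : ∀ i, tsupport (coref_field F G x₀ t i) ⊆ Metric.closedBall x₀ (r / 2) := fun i =>
      closure_minimal (hsub i) Metric.isClosed_closedBall
    refine ⟨?_, coref_dfree hFs hGs hFG x₀ t, ?_⟩
    · intro i
      refine ⟨coref_field_smooth hFs hGs x₀ t i, ?_⟩
      exact IsCompact.of_isClosed_subset (isCompact_closedBall x₀ (r / 2)) (isClosed_tsupport _)
        (hts i)
    · intro i
      exact (hts i).trans (Metric.closedBall_subset_ball (by linarith))
  · intro t x hx i
    have hrho : coref_rho x₀ x < (r / 4) ^ 2 := by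
      rw [coref_rho_eq]
      exact pow_lt_pow_left₀ hx dist_nonneg (by norm_num)
    have e0 : h (coref_rho x₀ x) = 1 := h1 _ hrho.le
    have e1 : deriv h (coref_rho x₀ x) = 0 :=
      coref_deriv_zero isOpen_Iio (show coref_rho x₀ x ∈ Iio ((r / 4) ^ 2) from hrho)
        (c := 1) (fun t ht => h1 t (le_of_lt ht))
    simp only [coref_field, hF, hG, e0, e1]
    rw [show c * (2 * coref_rho x₀ x * 0 + ((d : ℝ) - 1) * 1) = c * (d - 1) by ring, hcd]
    ring
  · intro i j x
    set Φ : ℝ → ℝ := fun s => 2 * deriv F s * (F s + s * G s) + 2 * deriv G s * s * (F s + s * G s) +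
      G s * ((d + 1) * F s + 2 * G s * s) with hΦ
    have hΦs : ContDiff ℝ (⊤ : ℕ∞) Φ := by
      have a1 := coref_deriv_smooth hFs
      have a2 := coref_deriv_smooth hGs
      have a3 : ContDiff ℝ (⊤ : ℕ∞) (fun s : ℝ => s) := contDiff_id
      exact (((contDiff_const.mul a1).mul (hFs.add (a3.mul hGs))).add
        (((contDiff_const.mul a2).mul a3).mul (hFs.add (a3.mul hGs)))).add
        (hGs.mul ((contDiff_const.mul hFs).add ((contDiff_const.mul hGs).mul a3)))
    have e : ∀ i, (fun x => ∑ t, adv (coref_field F G x₀ t) i x) =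
        fun x => Φ (coref_rho x₀ x) * (x i - x₀ i) := by
      intro i
      funext x
      rw [coref_adv hFs hGs]
    rw [e i, e j]
    exact coref_radial_symm hΦs x₀ i j x

/-- the matrix of the strain `t`, normalized -/
def strEA (t : StrI d) (i j : Fin d) : ℝ := Real.sqrt (strf_w d t.1) * strM t.1 t.2.1.1 t.2.1.2 i j

/-- the fields which are pure strains near `x₀` -/
def strE (h : ℝ → ℝ) (x₀ : Rv d) (t : StrI d) : VF d :=
  strf_field (fun s => (d : ℝ)⁻¹ * (2 * s * deriv h s + d * h s))
    (fun s => (d : ℝ)⁻¹ * (-2 * deriv h s)) (strEA t) x₀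

theorem strain_fieldsE (hd : d = 2 ∨ d = 3) (x₀ : Rv d) {r : ℝ} (hr : 0 < r) {h : ℝ → ℝ}
    (hh : ContDiff ℝ (⊤ : ℕ∞) h) (h1 : ∀ s ≤ (r / 4) ^ 2, h s = 1)
    (h0 : ∀ s, (r / 2) ^ 2 ≤ s → h s = 0) :
    (∀ t, TF (strE h x₀ t) ∧ Dfree (strE h x₀ t) ∧ Su (strE h x₀ t) (Metric.ball x₀ r)) ∧
      (∀ t, ∃ c : ℝ, c ≠ 0 ∧ ∀ x ∈ Metric.ball x₀ (r / 4), ∀ i,
        strE h x₀ t i x = c * ∑ j, strM t.1 t.2.1.1 t.2.1.2 i j * (x j - x₀ j)) ∧
      (∀ i j x, pd j (fun x => ∑ t, adv (strE h x₀ t) i x) x =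
        pd i (fun x => ∑ t, adv (strE h x₀ t) j x) x) := by
  have hdp : (0 : ℝ) < d := by
    rcases hd with rfl | rfl <;> norm_num
  have hd1 : (d : ℝ) ≠ 0 := hdp.ne'
  set c : ℝ := (d : ℝ)⁻¹ with hc
  have hcd : c * d = 1 := inv_mul_cancel₀ hd1
  have hh' := coref_deriv_smooth hh
  have hh'' := coref_deriv_smooth hh'
  set F : ℝ → ℝ := fun s => c * (2 * s * deriv h s + d * h s) with hF
  set G : ℝ → ℝ := fun s => c * (-2 * deriv h s) with hG
  have hFs : ContDiff ℝ (⊤ : ℕ∞) F :=
    contDiff_const.mul (((contDiff_const.mul contDiff_id).mul hh').add (contDiff_const.mul hh))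
  have hGs : ContDiff ℝ (⊤ : ℕ∞) G := contDiff_const.mul (contDiff_const.mul hh')
  have hFd : ∀ s, deriv F s = c * (2 * deriv h s + 2 * s * deriv (deriv h) s + d * deriv h s) := by
    intro s
    have e1 : HasDerivAt h (deriv h s) s := ((hh.differentiable (by simp)) s).hasDerivAt
    have e2 : HasDerivAt (deriv h) (deriv (deriv h) s) s :=
      ((hh'.differentiable (by simp)) s).hasDerivAt
    have e3 : HasDerivAt (fun s : ℝ => 2 * s) 2 s := by simpa using (hasDerivAt_id s).const_mul 2
    have := (((e3.mul e2).add (e1.const_mul (d : ℝ))).const_mul c)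
    exact this.deriv
  have hGd : ∀ s, deriv G s = c * (-2 * deriv (deriv h) s) := by
    intro s
    have e2 : HasDerivAt (deriv h) (deriv (deriv h) s) s :=
      ((hh'.differentiable (by simp)) s).hasDerivAt
    exact ((e2.const_mul (-2)).const_mul c).deriv
  have hFG : ∀ s, 2 * deriv F s + 2 * s * deriv G s + (d + 2) * G s = 0 := by
    intro s
    rw [hFd, hGd]
    simp only [hG]
    ring
  -- the scaled matrices
  set w : Bool → ℝ := fun b => Real.sqrt (strf_w d b) with hw
  have hwpos : ∀ b, 0 < strf_w d b := by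
    intro b
    unfold strf_w
    split_ifs <;> positivity
  have hw0 : ∀ b, w b ≠ 0 := fun b => (Real.sqrt_pos.2 (hwpos b)).ne'
  have hw2 : ∀ b, w b ^ 2 = strf_w d b := fun b => Real.sq_sqrt (hwpos b).le
  set A : StrI d → Fin d → Fin d → ℝ := fun t i j => w t.1 * strM t.1 t.2.1.1 t.2.1.2 i j with hA
  have hAs : ∀ t i j, A t i j = A t j i := by
    intro t i j
    simp only [hA]
    rw [strf_symm]
  have hAt : ∀ t, ∑ i, A t i i = 0 := by
    intro t
    simp only [hA]
    rw [← Finset.mul_sum, strf_trace, mul_zero]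
  have hdef : ∀ t, strE h x₀ t = strf_field F G (A t) x₀ := fun t => rfl
  simp only [hdef]
  refine ⟨?_, ?_, ?_⟩
  · intro t
    have hsub : ∀ i, Function.support (strf_field F G (A t) x₀ i) ⊆ Metric.closedBall x₀ (r / 2) := by
      intro i x hx
      by_contra hcon
      rw [Metric.mem_closedBall, not_le] at hcon
      apply hx
      have hrho : (r / 2) ^ 2 < coref_rho x₀ x := by
        rw [coref_rho_eq]
        exact pow_lt_pow_left₀ hcon (by positivity) (by norm_num)
      have e0 : h (coref_rho x₀ x) = 0 := h0 _ hrho.le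
      have e1 : deriv h (coref_rho x₀ x) = 0 :=
        coref_deriv_zero isOpen_Ioi (show coref_rho x₀ x ∈ Ioi ((r / 2) ^ 2) from hrho)
          (c := 0) (fun t ht => h0 t (le_of_lt ht))
      simp [strf_field, hF, hG, e0, e1]
    have hts : ∀ i, tsupport (strf_field F G (A t) x₀ i) ⊆ Metric.closedBall x₀ (r / 2) := fun i =>
      closure_minimal (hsub i) Metric.isClosed_closedBall
    refine ⟨?_, strf_dfree hFs hGs (hAs t) (hAt t) hFG x₀, ?_⟩
    · intro i
      refine ⟨strf_field_smooth hFs hGs _ x₀ i, ?_⟩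
      exact IsCompact.of_isClosed_subset (isCompact_closedBall x₀ (r / 2)) (isClosed_tsupport _)
        (hts i)
    · intro i
      exact (hts i).trans (Metric.closedBall_subset_ball (by linarith))
  · intro t
    refine ⟨w t.1, hw0 _, ?_⟩
    intro x hx i
    have hrho : coref_rho x₀ x < (r / 4) ^ 2 := by
      rw [coref_rho_eq]
      exact pow_lt_pow_left₀ hx dist_nonneg (by norm_num)
    have e0 : h (coref_rho x₀ x) = 1 := h1 _ hrho.le
    have e1 : deriv h (coref_rho x₀ x) = 0 :=
      coref_deriv_zero isOpen_Iio (show coref_rho x₀ x ∈ Iio ((r / 4) ^ 2) from hrho)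
        (c := 1) (fun t ht => h1 t (le_of_lt ht))
    simp only [strf_field, hF, hG, e0, e1]
    rw [show c * (2 * coref_rho x₀ x * 0 + (d : ℝ) * 1) = c * d by ring, hcd]
    simp only [strf_lin, hA, Finset.mul_sum]
    ring_nf
  · intro i j x
    set Φ : ℝ → ℝ := fun s =>
      (2 * deriv F s * (F s + s * G s) + 2 * F s * G s) * ((1 - 1 / (d : ℝ)) * s) +
      F s ^ 2 * (((d : ℝ) + 1) / 2 - 1 / (d : ℝ)) +
      (2 * deriv G s * (F s + s * G s) + 3 * G s ^ 2) * ((1 - 1 / (d : ℝ)) * s ^ 2) +
      2 * F s * G s * ((((d : ℝ) + 1) / 2 - 1 / (d : ℝ)) * s) with hΦ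
    have hΦs : ContDiff ℝ (⊤ : ℕ∞) Φ := by
      have a1 := coref_deriv_smooth hFs
      have a2 := coref_deriv_smooth hGs
      have a3 : ContDiff ℝ (⊤ : ℕ∞) (fun s : ℝ => s) := contDiff_id
      exact ((((((contDiff_const.mul a1).mul (hFs.add (a3.mul hGs))).add
        ((contDiff_const.mul hFs).mul hGs)).mul (contDiff_const.mul a3)).add
        ((hFs.pow 2).mul contDiff_const)).add
        ((((contDiff_const.mul a2).mul (hFs.add (a3.mul hGs))).add
          (contDiff_const.mul (hGs.pow 2))).mul (contDiff_const.mul (a3.pow 2)))).add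
        (((contDiff_const.mul hFs).mul hGs).mul (contDiff_const.mul a3))
    have e : ∀ i, (fun x => ∑ t, adv (strf_field F G (A t) x₀) i x) =
        fun x => Φ (coref_rho x₀ x) * (x i - x₀ i) := by
      intro i
      funext x
      set y : Fin d → ℝ := fun j => x j - x₀ j with hy
      obtain ⟨i1, i2, i3, i4⟩ := strf_id hd y
      have hrho : coref_rho x₀ x = ∑ j, y j ^ 2 := rfl
      have l1 : ∀ t j, strf_lin (A t) x₀ j x = w t.1 * strf_a y t j := by
        intro t j
        simp only [strf_lin, strf_a, hA, Finset.mul_sum]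
        apply Finset.sum_congr rfl
        intro k _
        ring
      have l2 : ∀ t, strf_q (A t) x₀ x = w t.1 * strf_qq y t := by
        intro t
        simp only [strf_q, strf_qq, l1, Finset.mul_sum]
        apply Finset.sum_congr rfl
        intro k _
        ring
      have l3 : ∀ t, ∑ j, A t i j * strf_lin (A t) x₀ j x = strf_w d t.1 * strf_b y t i := by
        intro t
        simp only [strf_b, l1, Finset.mul_sum]
        apply Finset.sum_congr rfl
        intro k _
        have e : A t i k = w t.1 * strM t.1 t.2.1.1 t.2.1.2 i k := rfl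
        rw [e, ← hw2]
        ring
      have l4 : ∀ t, ∑ j, strf_lin (A t) x₀ j x ^ 2 = strf_w d t.1 * strf_s y t := by
        intro t
        simp only [strf_s, l1, Finset.mul_sum]
        apply Finset.sum_congr rfl
        intro k _
        rw [← hw2]
        ring
      simp only [strf_adv hFs hGs (hAs _), l3, l4]
      simp only [l1, l2]
      have l5 : ∀ t : StrI d, w t.1 * strf_a y t i * (w t.1 * strf_qq y t) =
          strf_w d t.1 * (strf_a y t i * strf_qq y t) := by
        intro t
        rw [← hw2]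
        ring
      have l6 : ∀ t : StrI d, (w t.1 * strf_qq y t) ^ 2 = strf_w d t.1 * strf_qq y t ^ 2 := by
        intro t
        rw [← hw2]
        ring
      simp only [l5, l6, Finset.sum_add_distrib, ← Finset.mul_sum, ← Finset.sum_mul, i1, i2, i3, i4]
      rw [← hrho]
      simp only [hΦ]
      ring
    rw [e i, e j]
    exact coref_radial_symm hΦs x₀ i j x

end NSC
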