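import Pool.Agent.Work.MP_57e339_an.Calc

/-! Module CoreF: divergence free fields which are constant near `x₀`, with isotropic sum of
tensor squares. -/

open MeasureTheory Set Filter Topology
open scoped BigOperators
noncomputable section
namespace NSC
variable {d : ℕ}

/-- `α·∇α` -/
def adv (α : VF d) : VF d := fun i x => ∑ j, α j x * pd j (α i) x

/-- squared distance to `x₀` -/
def coref_rho (x₀ x : Rv d) : ℝ := ∑ j, (x j - x₀ j) ^ 2

theorem coref_rho_eq (x₀ x : Rv d) : coref_rho x₀ x = dist x x₀ ^ 2 := by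
  rw [EuclideanSpace.dist_eq, Real.sq_sqrt (Finset.sum_nonneg fun _ _ => sq_nonneg _)]
  unfold coref_rho
  apply Finset.sum_congr rfl
  intro j _
  rw [Real.dist_eq, sq_abs]

theorem coref_contDiff_coord (x₀ : Rv d) (i : Fin d) :
    ContDiff ℝ (⊤ : ℕ∞) (fun x : Rv d => x i - x₀ i) := by
  fun_prop

theorem coref_contDiff_rho (x₀ : Rv d) : ContDiff ℝ (⊤ : ℕ∞) (coref_rho x₀) := by
  unfold coref_rho
  fun_prop

theorem coref_contDiff_comp {g : ℝ → ℝ} (hg : ContDiff ℝ (⊤ : ℕ∞) g) (x₀ : Rv d) :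
    ContDiff ℝ (⊤ : ℕ∞) (fun x => g (coref_rho x₀ x)) :=
  hg.comp (coref_contDiff_rho x₀)

theorem coref_pd_coord (x₀ : Rv d) (i j : Fin d) (x : Rv d) :
    pd j (fun x : Rv d => x i - x₀ i) x = if j = i then 1 else 0 := by
  have h : pd j (fun x : Rv d => x i - x₀ i) x = pd j (fun x : Rv d => x i) x - pd j (fun _ => x₀ i) x :=
    pd_sub (by fun_prop) (by fun_prop) j
  rw [h, pd_const, pd_coord, sub_zero]

theorem coref_pd_rho {g : ℝ → ℝ} (hg : ContDiff ℝ (⊤ : ℕ∞) g) (x₀ : Rv d) (j : Fin d) (x : Rv d) :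
    pd j (fun x => g (coref_rho x₀ x)) x = deriv g (coref_rho x₀ x) * (2 * (x j - x₀ j)) := by
  have hd : Differentiable ℝ g := hg.differentiable (by simp)
  have hr : Differentiable ℝ (coref_rho x₀) := (coref_contDiff_rho x₀).differentiable (by simp)
  rw [pd_comp (g := g) (f := coref_rho x₀) (hd _) (hr _) j]
  congr 1
  exact pd_normsq j x₀ x

theorem coref_deriv_smooth {g : ℝ → ℝ} (hg : ContDiff ℝ (⊤ : ℕ∞) g) :
    ContDiff ℝ (⊤ : ℕ∞) (deriv g) :=
  ((contDiff_infty_iff_deriv (𝕜 := ℝ)).1 hg).2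

/-- a field `Φ(|y|²) y` has symmetric derivative -/
theorem coref_radial_symm {Φ : ℝ → ℝ} (hΦ : ContDiff ℝ (⊤ : ℕ∞) Φ) (x₀ : Rv d) (i j : Fin d)
    (x : Rv d) :
    pd j (fun x => Φ (coref_rho x₀ x) * (x i - x₀ i)) x =
      pd i (fun x => Φ (coref_rho x₀ x) * (x j - x₀ j)) x := by
  have h1 : ∀ a : Fin d, DifferentiableAt ℝ (fun x : Rv d => x a - x₀ a) x := fun a => by fun_prop
  have h2 : DifferentiableAt ℝ (fun x => Φ (coref_rho x₀ x)) x :=
    ((coref_contDiff_comp hΦ x₀).differentiable (by simp)) x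
  rw [pd_mul h2 (h1 i), pd_mul h2 (h1 j), coref_pd_rho hΦ, coref_pd_rho hΦ, coref_pd_coord,
    coref_pd_coord]
  by_cases h : i = j
  · subst h
    rfl
  · rw [if_neg h, if_neg (Ne.symm h)]
    ring

/-- a smooth profile -/
theorem coref_profile {a b : ℝ} (hab : a < b) : ∃ h : ℝ → ℝ, ContDiff ℝ (⊤ : ℕ∞) h ∧
    (∀ s ≤ a, h s = 1) ∧ (∀ s, b ≤ s → h s = 0) := by
  refine ⟨fun s => Real.smoothTransition ((b - s) / (b - a)), ?_, ?_, ?_⟩
  · exact Real.smoothTransition.contDiff.comp
      ((contDiff_const.sub contDiff_id).div_const _)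
  · intro s hs
    apply Real.smoothTransition.one_of_one_le
    rw [le_div_iff₀ (by linarith)]
    linarith
  · intro s hs
    apply Real.smoothTransition.zero_of_nonpos
    apply div_nonpos_of_nonpos_of_nonneg <;> linarith

theorem coref_deriv_zero {h : ℝ → ℝ} {s c : ℝ} {U : Set ℝ} (hU : IsOpen U) (hs : s ∈ U)
    (hc : ∀ t ∈ U, h t = c) : deriv h s = 0 := by
  have : h =ᶠ[𝓝 s] fun _ => c := by
    filter_upwards [hU.mem_nhds hs] with t ht
    exact hc t ht
  rw [this.deriv_eq, deriv_const]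

/-- the field with profile `F`, `G` -/
def coref_field (F G : ℝ → ℝ) (x₀ : Rv d) (t : Fin d) : VF d := fun i x =>
  F (coref_rho x₀ x) * (if i = t then 1 else 0) +
    G (coref_rho x₀ x) * ((x t - x₀ t) * (x i - x₀ i))

theorem coref_field_smooth {F G : ℝ → ℝ} (hF : ContDiff ℝ (⊤ : ℕ∞) F)
    (hG : ContDiff ℝ (⊤ : ℕ∞) G) (x₀ : Rv d) (t i : Fin d) :
    ContDiff ℝ (⊤ : ℕ∞) (coref_field F G x₀ t i) := by
  unfold coref_field
  exact ((coref_contDiff_comp hF x₀).mul contDiff_const).add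
    ((coref_contDiff_comp hG x₀).mul ((coref_contDiff_coord x₀ t).mul (coref_contDiff_coord x₀ i)))

theorem coref_pd_field {F G : ℝ → ℝ} (hF : ContDiff ℝ (⊤ : ℕ∞) F)
    (hG : ContDiff ℝ (⊤ : ℕ∞) G) (x₀ : Rv d) (t i j : Fin d) (x : Rv d) :
    pd j (coref_field F G x₀ t i) x =
      deriv F (coref_rho x₀ x) * (2 * (x j - x₀ j)) * (if i = t then 1 else 0) +
      (deriv G (coref_rho x₀ x) * (2 * (x j - x₀ j)) * ((x t - x₀ t) * (x i - x₀ i)) +
      G (coref_rho x₀ x) * ((if j = t then 1 else 0) * (x i - x₀ i) +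
        (x t - x₀ t) * (if j = i then 1 else 0))) := by
  have d1 : ∀ a : Fin d, DifferentiableAt ℝ (fun x : Rv d => x a - x₀ a) x := fun a => by fun_prop
  have d2 : DifferentiableAt ℝ (fun x => F (coref_rho x₀ x)) x :=
    ((coref_contDiff_comp hF x₀).differentiable (by simp)) x
  have d3 : DifferentiableAt ℝ (fun x => G (coref_rho x₀ x)) x :=
    ((coref_contDiff_comp hG x₀).differentiable (by simp)) x
  have d4 : DifferentiableAt ℝ (fun x : Rv d => (x t - x₀ t) * (x i - x₀ i)) x := (d1 t).mul (d1 i)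
  have d5 : DifferentiableAt ℝ (fun _ : Rv d => (if i = t then (1 : ℝ) else 0)) x :=
    differentiableAt_const _
  have e1 : pd j (coref_field F G x₀ t i) x =
      pd j (fun x => F (coref_rho x₀ x) * (if i = t then 1 else 0)) x +
      pd j (fun x => G (coref_rho x₀ x) * ((x t - x₀ t) * (x i - x₀ i))) x :=
    pd_add (d2.mul d5) (d3.mul d4) j
  rw [e1, pd_mul d2 d5, pd_mul d3 d4, pd_mul (d1 t) (d1 i), coref_pd_rho hF, coref_pd_rho hG,
    pd_const, coref_pd_coord, coref_pd_coord, mul_zero, add_zero]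

theorem coref_dfree {F G : ℝ → ℝ} (hF : ContDiff ℝ (⊤ : ℕ∞) F)
    (hG : ContDiff ℝ (⊤ : ℕ∞) G)
    (hFG : ∀ s, 2 * deriv F s + 2 * s * deriv G s + (d + 1) * G s = 0) (x₀ : Rv d) (t : Fin d) :
    Dfree (coref_field F G x₀ t) := by
  intro x
  simp only [coref_pd_field hF hG]
  have h := hFG (coref_rho x₀ x)
  set A := deriv F (coref_rho x₀ x)
  set B := deriv G (coref_rho x₀ x)
  set g := G (coref_rho x₀ x)
  have hrho : coref_rho x₀ x = ∑ j, (x j - x₀ j) ^ 2 := rfl
  have e1 : ∀ i : Fin d, A * (2 * (x i - x₀ i)) * (if i = t then 1 else 0) =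
      if i = t then A * (2 * (x t - x₀ t)) else 0 := by
    intro i
    split_ifs with h
    · rw [h, mul_one]
    · rw [mul_zero]
  have e2 : ∀ i : Fin d, B * (2 * (x i - x₀ i)) * ((x t - x₀ t) * (x i - x₀ i)) =
      2 * B * (x t - x₀ t) * (x i - x₀ i) ^ 2 := by
    intro i
    ring
  have e3 : ∀ i : Fin d, g * ((if i = t then 1 else 0) * (x i - x₀ i) +
      (x t - x₀ t) * 1) =
      (if i = t then g * (x t - x₀ t) else 0) + g * (x t - x₀ t) := by
    intro i
    split_ifs with h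
    · rw [h]
      ring
    · ring
  simp only [e1, e2, e3, Finset.sum_add_distrib, Finset.sum_ite_eq', Finset.mem_univ, if_true,
    ← Finset.mul_sum, Finset.sum_const, Finset.card_univ, Fintype.card_fin, nsmul_eq_mul]
  rw [← hrho]
  linear_combination (x t - x₀ t) * h

theorem coref_adv {F G : ℝ → ℝ} (hF : ContDiff ℝ (⊤ : ℕ∞) F)
    (hG : ContDiff ℝ (⊤ : ℕ∞) G) (x₀ : Rv d) (i : Fin d) (x : Rv d) :
    ∑ t, adv (coref_field F G x₀ t) i x =
      (2 * deriv F (coref_rho x₀ x) * (F (coref_rho x₀ x) + coref_rho x₀ x * G (coref_rho x₀ x)) +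
       2 * deriv G (coref_rho x₀ x) * coref_rho x₀ x *
        (F (coref_rho x₀ x) + coref_rho x₀ x * G (coref_rho x₀ x)) +
       G (coref_rho x₀ x) * ((d + 1) * F (coref_rho x₀ x) +
        2 * G (coref_rho x₀ x) * coref_rho x₀ x)) * (x i - x₀ i) := by
  unfold adv
  simp only [coref_pd_field hF hG]
  unfold coref_field
  have hrho : coref_rho x₀ x = ∑ j, (x j - x₀ j) ^ 2 := rfl
  set A := deriv F (coref_rho x₀ x)
  set B := deriv G (coref_rho x₀ x)
  set f := F (coref_rho x₀ x)
  set g := G (coref_rho x₀ x)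
  set ρ := coref_rho x₀ x with hρ
  -- for fixed t
  have key : ∀ t : Fin d, ∑ j, (f * (if j = t then 1 else 0) + g * ((x t - x₀ t) * (x j - x₀ j))) *
      (A * (2 * (x j - x₀ j)) * (if i = t then 1 else 0) +
      (B * (2 * (x j - x₀ j)) * ((x t - x₀ t) * (x i - x₀ i)) +
      g * ((if j = t then 1 else 0) * (x i - x₀ i) + (x t - x₀ t) * (if j = i then 1 else 0)))) =
      (f + g * ρ) * (2 * A * (x t - x₀ t) * (if i = t then 1 else 0)) +
      (f + g * ρ) * (2 * B * (x t - x₀ t) ^ 2 * (x i - x₀ i)) +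
      f * g * ((x i - x₀ i) + (x t - x₀ t) * (if i = t then 1 else 0)) +
      2 * g ^ 2 * (x t - x₀ t) ^ 2 * (x i - x₀ i) := by
    intro t
    have e1 : ∀ j : Fin d, (f * (if j = t then 1 else 0) + g * ((x t - x₀ t) * (x j - x₀ j))) *
      (A * (2 * (x j - x₀ j)) * (if i = t then 1 else 0) +
      (B * (2 * (x j - x₀ j)) * ((x t - x₀ t) * (x i - x₀ i)) +
      g * ((if j = t then 1 else 0) * (x i - x₀ i) + (x t - x₀ t) * (if j = i then 1 else 0)))) =
      (if j = t then f * (A * (2 * (x t - x₀ t)) * (if i = t then 1 else 0) +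
        (B * (2 * (x t - x₀ t)) * ((x t - x₀ t) * (x i - x₀ i)) +
        g * ((x i - x₀ i) + (x t - x₀ t) * (if i = t then 1 else 0)))) else 0) +
      (2 * g * (x t - x₀ t) * (A * (if i = t then 1 else 0) + B * (x t - x₀ t) * (x i - x₀ i))) *
        (x j - x₀ j) ^ 2 +
      (if j = t then g ^ 2 * (x t - x₀ t) ^ 2 * (x i - x₀ i) else 0) +
      (if j = i then g ^ 2 * (x t - x₀ t) ^ 2 * (x i - x₀ i) else 0) := by
      intro j
      by_cases h1 : j = t
      · subst h1
        by_cases h2 : i = j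
        · subst h2
          simp
          ring
        · have h3 : j ≠ i := Ne.symm h2
          simp [h2, h3]
          ring
      · by_cases h2 : j = i
        · subst h2
          simp [h1]
          ring
        · simp only [h1, h2, if_false]
          split_ifs <;> ring
    simp only [e1, Finset.sum_add_distrib, Finset.sum_ite_eq', Finset.mem_univ, if_true,
      ← Finset.mul_sum]
    rw [← hrho]
    split_ifs <;> ring
  simp only [key]
  have e2 : ∀ t : Fin d, (f + g * ρ) * (2 * A * (x t - x₀ t) * (if i = t then 1 else 0)) +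
      (f + g * ρ) * (2 * B * (x t - x₀ t) ^ 2 * (x i - x₀ i)) +
      f * g * ((x i - x₀ i) + (x t - x₀ t) * (if i = t then 1 else 0)) +
      2 * g ^ 2 * (x t - x₀ t) ^ 2 * (x i - x₀ i) =
      (if i = t then (2 * A * (f + g * ρ) + f * g) * (x i - x₀ i) else 0) +
      ((f + g * ρ) * (2 * B) * (x i - x₀ i) + 2 * g ^ 2 * (x i - x₀ i)) * (x t - x₀ t) ^ 2 +
      f * g * (x i - x₀ i) := by
    intro t
    by_cases h : i = t
    · subst h
      simp
      ring
    · simp [h]
      ring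
  simp only [e2, Finset.sum_add_distrib, Finset.sum_ite_eq, Finset.mem_univ, if_true,
    ← Finset.mul_sum, Finset.sum_const, Finset.card_univ, Fintype.card_fin, nsmul_eq_mul]
  rw [← hrho]
  ring

theorem core_fields (hd : d = 2 ∨ d = 3) (x₀ : Rv d) {r : ℝ} (hr : 0 < r) :
    ∃ α : Fin d → VF d, (∀ t, TF (α t) ∧ Dfree (α t) ∧ Su (α t) (Metric.ball x₀ r)) ∧
      (∀ t, ∀ x ∈ Metric.ball x₀ (r / 4), ∀ i, α t i x = if i = t then 1 else 0) ∧
      (∀ i j x, pd j (fun x => ∑ t, adv (α t) i x) x = pd i (fun x => ∑ t, adv (α t) j x) x) := by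
  have hab : (r / 4) ^ 2 < (r / 2) ^ 2 := by nlinarith
  obtain ⟨h, hh, h1, h0⟩ := coref_profile hab
  have hd1 : ((d : ℝ) - 1) ≠ 0 := by
    rcases hd with rfl | rfl <;> norm_num
  set c : ℝ := ((d : ℝ) - 1)⁻¹ with hc
  have hcd : c * (d - 1) = 1 := inv_mul_cancel₀ hd1
  have hh' := coref_deriv_smooth hh
  have hh'' := coref_deriv_smooth hh'
  set F : ℝ → ℝ := fun s => c * (2 * s * deriv h s + (d - 1) * h s) with hF
  set G : ℝ → ℝ := fun s => c * (-2 * deriv h s) with hG
  have hFs : ContDiff ℝ (⊤ : ℕ∞) F :=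
    contDiff_const.mul (((contDiff_const.mul contDiff_id).mul hh').add (contDiff_const.mul hh))
  have hGs : ContDiff ℝ (⊤ : ℕ∞) G := contDiff_const.mul (contDiff_const.mul hh')
  have hFd : ∀ s, deriv F s = c * (2 * deriv h s + 2 * s * deriv (deriv h) s + (d - 1) * deriv h s) := by
    intro s
    have e1 : HasDerivAt h (deriv h s) s := ((hh.differentiable (by simp)) s).hasDerivAt
    have e2 : HasDerivAt (deriv h) (deriv (deriv h) s) s :=
      ((hh'.differentiable (by simp)) s).hasDerivAt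
    have e3 : HasDerivAt (fun s : ℝ => 2 * s) 2 s := by simpa using (hasDerivAt_id s).const_mul 2
    have := (((e3.mul e2).add (e1.const_mul ((d : ℝ) - 1))).const_mul c)
    exact this.deriv
  have hGd : ∀ s, deriv G s = c * (-2 * deriv (deriv h) s) := by
    intro s
    have e2 : HasDerivAt (deriv h) (deriv (deriv h) s) s :=
      ((hh'.differentiable (by simp)) s).hasDerivAt
    exact ((e2.const_mul (-2)).const_mul c).deriv
  have hFG : ∀ s, 2 * deriv F s + 2 * s * deriv G s + (d + 1) * G s = 0 := by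
    intro s
    rw [hFd, hGd]
    simp only [hG]
    ring
  refine ⟨coref_field F G x₀, ?_, ?_, ?_⟩
  · intro t
    have hsub : ∀ i, Function.support (coref_field F G x₀ t i) ⊆ Metric.closedBall x₀ (r / 2) := by
      intro i x hx
      by_contra hcon
      rw [Metric.mem_closedBall, not_le] at hcon
      apply hx
      have hrho : (r / 2) ^ 2 < coref_rho x₀ x := by
        rw [coref_rho_eq]
        exact pow_lt_pow_left₀ hcon (by positivity) (by norm_num)
      have e0 : h (coref_rho x₀ x) = 0 := h0 _ hrho.le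
      have e1 : deriv h (coref_rho x₀ x) = 0 :=
        coref_deriv_zero isOpen_Ioi (show coref_rho x₀ x ∈ Ioi ((r / 2) ^ 2) from hrho)
          (c := 0) (fun t ht => h0 t (le_of_lt ht))
      simp [coref_field, hF, hG, e0, e1]
    have hts : ∀ i, tsupport (coref_field F G x₀ t i) ⊆ Metric.closedBall x₀ (r / 2) := fun i =>
      closure_minimal (hsub i) Metric.isClosed_closedBall
    refine ⟨?_, coref_dfree hFs hGs hFG x₀ t, ?_⟩
    · intro i
      refine ⟨coref_field_smooth hFs hGs x₀ t i, ?_⟩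
      exact IsCompact.of_isClosed_subset (isCompact_closedBall x₀ (r / 2)) (isClosed_tsupport _)
        (hts i)
    · intro i
      exact (hts i).trans (Metric.closedBall_subset_ball (by linarith))
  · intro t x hx i
    have hrho : coref_rho x₀ x < (r / 4) ^ 2 := by
      rw [coref_rho_eq]
      exact pow_lt_pow_left₀ hx dist_nonneg (by norm_num)
    have e0 : h (coref_rho x₀ x) = 1 := h1 _ hrho.le
    have e1 : deriv h (coref_rho x₀ x) = 0 :=
      coref_deriv_zero isOpen_Iio (show coref_rho x₀ x ∈ Iio ((r / 4) ^ 2) from hrho)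
        (c := 1) (fun t ht => h1 t (le_of_lt ht))
    simp only [coref_field, hF, hG, e0, e1]
    rw [show c * (2 * coref_rho x₀ x * 0 + ((d : ℝ) - 1) * 1) = c * (d - 1) by ring, hcd]
    ring
  · intro i j x
    set Φ : ℝ → ℝ := fun s => 2 * deriv F s * (F s + s * G s) + 2 * deriv G s * s * (F s + s * G s) +
      G s * ((d + 1) * F s + 2 * G s * s) with hΦ
    have hΦs : ContDiff ℝ (⊤ : ℕ∞) Φ := by
      have a1 := coref_deriv_smooth hFs
      have a2 := coref_deriv_smooth hGs
      have a3 : ContDiff ℝ (⊤ : ℕ∞) (fun s : ℝ => s) := contDiff_id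
      exact (((contDiff_const.mul a1).mul (hFs.add (a3.mul hGs))).add
        (((contDiff_const.mul a2).mul a3).mul (hFs.add (a3.mul hGs)))).add
        (hGs.mul ((contDiff_const.mul hFs).add ((contDiff_const.mul hGs).mul a3)))
    have e : ∀ i, (fun x => ∑ t, adv (coref_field F G x₀ t) i x) =
        fun x => Φ (coref_rho x₀ x) * (x i - x₀ i) := by
      intro i
      funext x
      rw [coref_adv hFs hGs]
    rw [e i, e j]
    exact coref_radial_symm hΦs x₀ i j x

end NSC
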