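import Mathlib

/-! Module Cpt: extraction of a convergent subsequence from countably many sequences of curves. -/

open MeasureTheory Set Filter Topology
open scoped BigOperators
noncomputable section
namespace NSC

theorem extract {ι : Type*} [Countable ι] {E : Type*} [NormedAddCommGroup E] [NormedSpace ℝ E]
    [FiniteDimensional ℝ E] (T : ℝ) (z : ℕ → ι → ℝ → E) (B L : ι → ℝ)
    (hB : ∀ n i, ∀ t ∈ Icc (0 : ℝ) T, ‖z n i t‖ ≤ B i)
    (hL : ∀ n i, ∀ s ∈ Icc (0 : ℝ) T, ∀ t ∈ Icc (0 : ℝ) T, ‖z n i t - z n i s‖ ≤ L i * |t - s|) :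
    ∃ φ : ℕ → ℕ, StrictMono φ ∧ ∃ w : ι → ℝ → E, ∀ i, ∀ t ∈ Icc (0 : ℝ) T,
      Tendsto (fun n => z (φ n) i t) atTop (𝓝 (w i t)) := by
  classical
  rcases lt_or_ge T 0 with hT | hT
  · refine ⟨id, strictMono_id, fun _ _ => 0, fun i t ht => ?_⟩
    exact absurd (ht.1.trans ht.2) (not_le.2 hT)
  haveI : ProperSpace E := FiniteDimensional.proper ℝ E
  haveI : CompleteSpace E := FiniteDimensional.complete ℝ E
  haveI : Nonempty (Icc (0 : ℝ) T) := ⟨⟨0, le_refl _, hT⟩⟩
  let q : ℕ → Icc (0 : ℝ) T := TopologicalSpace.denseSeq _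
  have hq : DenseRange q := TopologicalSpace.denseRange_denseSeq _
  let x : ℕ → (ι × ℕ → E) := fun n p => z n p.1 (q p.2)
  have hcpt : IsCompact (Set.pi univ fun p : ι × ℕ => Metric.closedBall (0 : E) (B p.1)) :=
    isCompact_univ_pi fun p => isCompact_closedBall _ _
  obtain ⟨a, -, φ, hφ, ha⟩ := hcpt.tendsto_subseq (x := x) (fun n => by
    rw [Set.mem_univ_pi]
    intro p
    rw [mem_closedBall_zero_iff]
    exact hB n p.1 _ (q p.2).2)
  have ha' : ∀ i m, Tendsto (fun n => z (φ n) i (q m)) atTop (𝓝 (a (i, m))) := by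
    intro i m
    exact (tendsto_pi_nhds.1 ha) (i, m)
  have key : ∀ i, ∀ t ∈ Icc (0 : ℝ) T, ∃ b, Tendsto (fun n => z (φ n) i t) atTop (𝓝 b) := by
    intro i t ht
    apply cauchySeq_tendsto_of_complete
    rw [Metric.cauchySeq_iff']
    intro ε hε
    have hLi : 0 ≤ max (L i) 0 := le_max_right _ _
    obtain ⟨m, hm⟩ := hq.exists_dist_lt ⟨t, ht⟩
      (show 0 < ε / 3 / (max (L i) 0 + 1) by positivity)
    have hm' : |t - q m| < ε / 3 / (max (L i) 0 + 1) := by
      rw [Subtype.dist_eq, Real.dist_eq] at hm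
      exact hm
    have h1 : ∀ n, ‖z n i t - z n i (q m)‖ < ε / 3 := by
      intro n
      have h2 := hL n i _ (q m).2 t ht
      calc ‖z n i t - z n i (q m)‖ ≤ L i * |t - q m| := h2
        _ ≤ max (L i) 0 * |t - q m| := by
            apply mul_le_mul_of_nonneg_right (le_max_left _ _) (abs_nonneg _)
        _ ≤ (max (L i) 0 + 1) * |t - q m| := by
            apply mul_le_mul_of_nonneg_right (by linarith) (abs_nonneg _)
        _ < (max (L i) 0 + 1) * (ε / 3 / (max (L i) 0 + 1)) := by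
            apply mul_lt_mul_of_pos_left hm' (by linarith)
        _ = ε / 3 := by field_simp
    obtain ⟨n0, hn0⟩ := (Metric.cauchySeq_iff'.1 (ha' i m).cauchySeq) (ε / 3) (by positivity)
    refine ⟨n0, fun n hn => ?_⟩
    have h3 := hn0 n hn
    rw [dist_eq_norm] at h3 ⊢
    have h4 := h1 (φ n)
    have h5 := h1 (φ n0)
    have h6 : z (φ n) i t - z (φ n0) i t = (z (φ n) i t - z (φ n) i (q m)) +
        (z (φ n) i (q m) - z (φ n0) i (q m)) - (z (φ n0) i t - z (φ n0) i (q m)) := by abel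
    rw [h6]
    calc _ ≤ ‖(z (φ n) i t - z (φ n) i (q m)) + (z (φ n) i (q m) - z (φ n0) i (q m))‖ +
          ‖z (φ n0) i t - z (φ n0) i (q m)‖ := norm_sub_le _ _
      _ ≤ ‖z (φ n) i t - z (φ n) i (q m)‖ + ‖z (φ n) i (q m) - z (φ n0) i (q m)‖ +
          ‖z (φ n0) i t - z (φ n0) i (q m)‖ := by gcongr; exact norm_add_le _ _
      _ < ε := by linarith
  refine ⟨φ, hφ, fun i t => if h : t ∈ Icc (0 : ℝ) T then (key i t h).choose else 0, ?_⟩
  intro i t ht
  have := (key i t ht).choose_spec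
  simp only [ht, dif_pos]
  exact this

end NSC
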