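import Pool.Agent.Work.MP_57e339_an.Imp

/-! Module Ctrl: if all the directions are allowed, the system is approximately controllable in
any time, with controls depending continuously on the target. -/

open MeasureTheory Set Filter Topology
open scoped BigOperators
noncomputable section
namespace NSC
variable {d n : ℕ}

/-- near the equilibrium `0` the free evolution does not increase the norm -/
theorem ctrl_stay (hd : d = 2 ∨ d = 3) {ν : ℝ} (hν : 0 < ν) (m : Fin d → ℝ) :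
    ∃ θ₀ > 0, ∀ T : ℝ, 0 ≤ T → ∀ w : Sq d, IsV w → n1 w < θ₀ →
      ∃ u : ℝ → Sq d, Sol ν m 0 T u ∧ u 0 = w ∧ n1 (u T) ≤ n1 w := by
  obtain ⟨θ₀, hθ₀, hstab⟩ := stab_smooth hd hν m
  refine ⟨θ₀, hθ₀, fun T hT w hw hwθ => ?_⟩
  obtain ⟨u, hu, hu0, hut⟩ := hstab T 0 0 hT (le_refl _) (le_refl _) 0 isV_zero
    (fun _ => 0) (fun _ => 0)
    (fun t _ => ⟨isV_zero, (SW_zero 2).1, (SW_zero 2).2.le⟩)
    (fun k => continuousOn_const)
    (fun t _ => ⟨isV_zero, n1_zero.le⟩)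
    (fun k => continuousOn_const)
    (fun k t _ => by
      rw [bk_zero_left]
      simp)
    w hw (by
      rw [sub_zero]
      simpa using hwθ)
  refine ⟨u, hu, hu0, ?_⟩
  have h1 := hut T ⟨hT, le_refl _⟩
  rw [sub_zero, sub_zero] at h1
  simpa using h1

/-- jumping from `0` to a finite combination -/
theorem ctrl_jump {ν : ℝ} (m : Fin d → ℝ) {e : Fin n → Sq d}
    (hall : ∀ v, IsV v → v ∈ DD ν m e)
    (Θ : Type) [TopologicalSpace Θ] [CompactSpace Θ]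
    {N : ℕ} (v : Fin N → Sq d) (hv : ∀ i, IsV (v i)) (s : Fin N → Θ → ℝ)
    (hs : ∀ i, Continuous (s i)) (S : Finset (Fin N)) :
    VCont (fun θ => ∑ i ∈ S, s i θ • v i) ∧
      ∀ δ > 0, Inst ν m e δ (fun _ : Θ => 0) (fun θ => ∑ i ∈ S, s i θ • v i) := by
  classical
  induction S using Finset.induction_on with
  | empty =>
    simp only [Finset.sum_empty]
    refine ⟨vcont_const isV_zero, fun δ hδ => ?_⟩
    have h := (hall 0 isV_zero).2 Θ (fun _ => 0) (vcont_const isV_zero) (fun _ => 0)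
      continuous_const δ hδ
    simpa using h
  | insert j S hj ih =>
    obtain ⟨ih1, ih2⟩ := ih
    have h0 : (fun θ => ∑ i ∈ insert j S, s i θ • v i) =
        fun θ => (∑ i ∈ S, s i θ • v i) + s j θ • v j := by
      funext θ
      rw [Finset.sum_insert hj, add_comm]
    rw [h0]
    refine ⟨ih1.add_smul (hs j) (hv j), fun δ hδ => ?_⟩
    have h1 := ih2 (δ / 2) (half_pos hδ)
    have h2 := (hall _ (hv j)).2 Θ _ ih1 (s j) (hs j) (δ / 2) (half_pos hδ)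
    have h3 := h1.trans h2
    rwa [add_halves] at h3

theorem ctrl (hd : d = 2 ∨ d = 3) {ν : ℝ} (hν : 0 < ν) (m : Fin d → ℝ) {e : Fin n → Sq d}
    (he : ∀ i, IsV (e i) ∧ SW 4 (e i)) (hall : ∀ v, IsV v → v ∈ DD ν m e)
    (Θ : Type) [TopologicalSpace Θ] [CompactSpace Θ] {x₀ : Sq d} (hx₀ : IsV x₀)
    {N : ℕ} (v : Fin N → Sq d) (hv : ∀ i, IsV (v i)) (s : Fin N → Θ → ℝ)
    (hs : ∀ i, Continuous (s i)) {T : ℝ} (hT : 0 < T) {ε : ℝ} (hε : 0 < ε) :
    Nr ν m e (fun _ : Θ => x₀) (fun θ => ∑ i, s i θ • v i) T ε := by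
  have hT3 : 0 < T / 3 := by positivity
  obtain ⟨θ₀, hθ₀, hstay⟩ := ctrl_stay hd hν m
  obtain ⟨T₃, hT₃, hT₃', L₃, hL₃, hs₃, ρ₃, hρ₃, h₃⟩ :=
    (ctrl_jump m hall Θ v hv s hs Finset.univ).2 (T / 3) hT3 ε hε
  have hi := (hall _ hx₀).2 Θ (fun _ => x₀) (vcont_const hx₀) (fun _ => -1) continuous_const
    (T / 3) hT3 (min θ₀ ρ₃) (lt_min hθ₀ hρ₃)
  obtain ⟨T₁, hT₁, hT₁', L₁, hL₁, hs₁, ρ₁, hρ₁, h₁⟩ := hi
  have hT₂ : 0 < T - T₁ - T₃ := by linarith
  refine ⟨L₁ ++ (T - T₁ - T₃, fun _ => 0) :: L₃, ?_, ?_, ρ₁, hρ₁, fun θ w hw hwx => ?_⟩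
  · intro p hp
    rcases List.mem_append.1 hp with hp | hp
    · exact hL₁ p hp
    · rcases List.mem_cons.1 hp with hp | hp
      · rw [hp]; exact ⟨hT₂, continuous_const⟩
      · exact hL₃ p hp
  · rw [List.map_append, List.sum_append, List.map_cons, List.sum_cons, hs₁, hs₃]
    ring
  · obtain ⟨w₁, hw₁, hr₁, hn₁⟩ := h₁ θ w hw hwx
    have hz : x₀ + (-1 : ℝ) • x₀ = 0 := by rw [neg_one_smul, add_neg_cancel]
    have hn₁' : n1 w₁ < min θ₀ ρ₃ := by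
      have h4 : n1 (w₁ - (x₀ + (-1 : ℝ) • x₀)) < min θ₀ ρ₃ := hn₁
      rwa [hz, sub_zero] at h4
    obtain ⟨u, hu, hu0, hun⟩ := hstay (T - T₁ - T₃) hT₂.le w₁ hw₁
      (hn₁'.trans_le (min_le_left _ _))
    have huV := hu.V (T - T₁ - T₃) ⟨hT₂.le, le_refl _⟩
    obtain ⟨w₃, hw₃, hr₃, hn₃⟩ := h₃ θ (u (T - T₁ - T₃)) huV (by
      rw [sub_zero]
      exact hun.trans_lt (hn₁'.trans_le (min_le_right _ _)))
    refine ⟨w₃, hw₃, ?_, hn₃⟩
    rw [List.map_append, List.map_cons]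
    refine run_append hr₁ ⟨u, ?_, hu0, hr₃⟩
    show Sol ν m (Comb e 0) _ u
    rw [comb_zero]; exact hu

end NSC
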