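import Pool.Agent.Work.MP_57e339_an.PrB

/-! Module IntC: an admissible set is closed under superposition of translates. -/

open MeasureTheory Set Filter Topology
open scoped BigOperators
noncomputable section
namespace NSC
variable {d : ℕ}

/-- superposition of translates -/
def cnv (ψ : Rv d → ℝ) (β : VF d) : VF d := fun i x => ∫ y, ψ y * β i (x - y)

theorem intc_cnv_eq (ψ φ : Rv d → ℝ) :
    (fun x => ∫ y, ψ y * φ (x - y)) =
      (convolution ψ φ (ContinuousLinearMap.mul ℝ ℝ) volume) := by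
  funext x
  rw [convolution_def]
  rfl

theorem cnv_TF {ψ : Rv d → ℝ} (hψ : ContDiff ℝ (⊤ : ℕ∞) ψ) (hψc : HasCompactSupport ψ)
    {N : ℕ} {β : VF d} (hβ : TFN N β) : TF (cnv ψ β) := by
  intro i
  have e : cnv ψ β i = (convolution ψ (β i) (ContinuousLinearMap.mul ℝ ℝ) volume) :=
    intc_cnv_eq ψ (β i)
  rw [e]
  constructor
  · exact hψc.contDiff_convolution_left _ hψ (hβ i).1.continuous.locallyIntegrable
  · exact HasCompactSupport.convolution _ hψc (hβ i).2

/-- the Hilbert space of weighted square summable sequences -/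
abbrev IntcH (d : ℕ) := lp (fun _ : K d => Cv d) 2

theorem intc_memℓp {u : Sq d} (hu : IsV u) : Memℓp (fun k => (nk k : ℝ) • u k) 2 := by
  rw [memℓp_gen_iff (by norm_num)]
  have : (fun k => ‖(nk k : ℝ) • u k‖ ^ (2 : ENNReal).toReal) =
      fun k => nk k ^ 2 * ‖u k‖ ^ 2 := by
    funext k
    rw [norm_smul, Real.norm_eq_abs, abs_of_nonneg (nk_nonneg k)]
    norm_num
    ring
  rw [this]
  exact hu.sm

/-- embedding of `V` into the Hilbert space -/
def intcJ (u : Sq d) (hu : IsV u) : IntcH d := ⟨fun k => (nk k : ℝ) • u k, intc_memℓp hu⟩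

theorem intcJ_apply (u : Sq d) (hu : IsV u) (k : K d) :
    (intcJ u hu : K d → Cv d) k = (nk k : ℝ) • u k := rfl

theorem norm_intcJ (u : Sq d) (hu : IsV u) : ‖intcJ u hu‖ = n1 u := by
  have h := lp.norm_rpow_eq_tsum (p := 2) (by norm_num) (intcJ u hu)
  have h2 : ‖intcJ u hu‖ ^ 2 = n1 u ^ 2 := by
    rw [n1_sq hu]
    have e : (2 : ENNReal).toReal = ((2 : ℕ) : ℝ) := by norm_num
    rw [e, Real.rpow_natCast] at h
    rw [h]
    apply tsum_congr
    intro k
    rw [intcJ_apply, norm_smul, Real.norm_eq_abs, abs_of_nonneg (nk_nonneg k), Real.rpow_natCast]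
    ring
  exact (pow_left_inj₀ (norm_nonneg _) (n1_nonneg u) (by norm_num)).1 h2

/-- the image of an admissible set -/
def intcS {𝒟 : Set (Sq d)} (h𝒟 : Adm 𝒟) : Submodule ℝ (IntcH d) where
  carrier := {h | ∃ v ∈ 𝒟, ∀ k, (h : K d → Cv d) k = (nk k : ℝ) • v k}
  add_mem' := by
    rintro a b ⟨v, hv, hav⟩ ⟨w, hw, hbw⟩
    refine ⟨v + w, h𝒟.add v hv w hw, fun k => ?_⟩
    rw [lp.coeFn_add, Pi.add_apply, hav, hbw, Pi.add_apply, smul_add]
  zero_mem' := ⟨0, h𝒟.zero, fun k => by simp⟩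
  smul_mem' := by
    rintro c a ⟨v, hv, hav⟩
    refine ⟨c • v, h𝒟.smul c v hv, fun k => ?_⟩
    rw [lp.coeFn_smul, Pi.smul_apply, hav, Pi.smul_apply, smul_comm]

theorem intc_mem_of_closure {𝒟 : Set (Sq d)} (h𝒟 : Adm 𝒟) {v : Sq d} (hv : IsV v)
    (h : intcJ v hv ∈ (intcS h𝒟).topologicalClosure) : v ∈ 𝒟 := by
  apply h𝒟.closed v hv
  intro ε hε
  rw [← SetLike.mem_coe, Submodule.topologicalClosure_coe, Metric.mem_closure_iff] at h
  obtain ⟨b, ⟨w, hw, hbw⟩, hb⟩ := h ε hε
  refine ⟨w, hw, ?_⟩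
  have hwV := h𝒟.isV w hw
  have e : b = intcJ w hwV := by
    apply lp.ext
    funext k
    rw [hbw, intcJ_apply]
  have e2 : intcJ v hv - intcJ w hwV = intcJ (v - w) (hv.sub hwV) := by
    apply lp.ext
    funext k
    rw [lp.coeFn_sub, Pi.sub_apply, intcJ_apply, intcJ_apply, intcJ_apply, Pi.sub_apply, smul_sub]
  rw [dist_eq_norm, e, e2, norm_intcJ, n1_sub_comm] at hb
  exact hb

theorem intc_integral_mem {H : Type*} [NormedAddCommGroup H] [NormedSpace ℝ H] [CompleteSpace H]
    (S : Submodule ℝ H) (hS : IsClosed (S : Set H)) {F : Rv d → H} (hF : Continuous F)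
    (hFc : HasCompactSupport F) (hFS : ∀ y, F y ∈ S) : ∫ y, F y ∈ S := by
  have : CompleteSpace S := hS.completeSpace_coe
  have hG0 : Continuous (fun y => (⟨F y, hFS y⟩ : S)) := hF.subtype_mk hFS
  have hG1 : HasCompactSupport (fun y => (⟨F y, hFS y⟩ : S)) := by
    have e : Function.support (fun y => (⟨F y, hFS y⟩ : S)) = Function.support F := by
      ext y
      rw [Function.mem_support, Function.mem_support, ne_eq, ne_eq, ← Submodule.coe_eq_zero]
    unfold HasCompactSupport tsupport at hFc ⊢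
    rw [e]
    exact hFc
  have hG : Integrable (fun y => (⟨F y, hFS y⟩ : S)) :=
    hG0.integrable_of_hasCompactSupport hG1
  have := S.subtypeL.integral_comp_comm hG
  rw [show (∫ y, F y) = ∫ y, S.subtypeL (⟨F y, hFS y⟩ : S) from rfl, this]
  exact (∫ y, (⟨F y, hFS y⟩ : S)).2

/-- Lipschitz continuity of the translates in `V` -/
theorem intc_trl_lip (hd : d = 2 ∨ d = 3) {β : VF d} (hβ : TFN 10 β) (y y' : Rv d) :
    n1 (pr (trl y β) - pr (trl y' β)) ≤ W 2 (pr β) * ‖y - y'‖ := by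
  have hβ8 : TFN 8 β := fun i => ⟨(hβ i).1.of_le (by norm_num), (hβ i).2⟩
  have hβ3 : TFN 3 β := fun i => ⟨(hβ i).1.of_le (by norm_num), (hβ i).2⟩
  have hV := pr_isV hd hβ3
  have h2 := ((pr_SW4 hd hβ8).mono hV.zero (show 2 ≤ 4 by norm_num)).1
  have hV1 := pr_isV hd (hβ3.trl y)
  have hV2 := pr_isV hd (hβ3.trl y')
  have hc : ∀ k, nk k ^ 1 * ‖(pr (trl y β) - pr (trl y' β)) k‖ ≤
      nk k ^ 2 * ‖pr β k‖ * ‖y - y'‖ := by
    intro k
    rw [Pi.sub_apply, pr_trl, pr_trl, ← sub_smul, norm_smul]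
    have h3 : ‖Complex.exp (-(Complex.I * (kx k y : ℂ))) -
        Complex.exp (-(Complex.I * (kx k y' : ℂ)))‖ ≤ nk k * ‖y - y'‖ := by
      have e1 : Complex.exp (-(Complex.I * (kx k y : ℂ))) -
          Complex.exp (-(Complex.I * (kx k y' : ℂ))) =
          Complex.exp (-(Complex.I * (kx k y' : ℂ))) *
            (Complex.exp (Complex.I * ((kx k y' - kx k y : ℝ) : ℂ)) - 1) := by
        rw [mul_sub, ← Complex.exp_add, mul_one]
        congr 2
        push_cast
        ring
      have e2 : ‖Complex.exp (-(Complex.I * (kx k y' : ℂ)))‖ = 1 := by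
        have : -(Complex.I * (kx k y' : ℂ)) = ((-kx k y' : ℝ) : ℂ) * Complex.I := by
          push_cast
          ring
        rw [this]
        exact Complex.norm_exp_ofReal_mul_I _
      rw [e1, norm_mul, e2, one_mul]
      refine (Real.norm_exp_I_mul_ofReal_sub_one_le).trans ?_
      rw [Real.norm_eq_abs, ← kx_sub]
      have := abs_kx_le k (y' - y)
      rwa [norm_sub_rev y' y] at this
    have h4 := nk_nonneg k
    have h5 := norm_nonneg (pr β k)
    calc nk k ^ 1 * (‖Complex.exp (-(Complex.I * (kx k y : ℂ))) -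
        Complex.exp (-(Complex.I * (kx k y' : ℂ)))‖ * ‖pr β k‖)
        ≤ nk k ^ 1 * ((nk k * ‖y - y'‖) * ‖pr β k‖) := by gcongr
      _ = _ := by ring
  have hs : ∀ s : Finset (K d), ∑ k ∈ s, nk k ^ 1 * ‖(pr (trl y β) - pr (trl y' β)) k‖ ≤
      W 2 (pr β) * ‖y - y'‖ := by
    intro s
    refine (Finset.sum_le_sum fun k _ => hc k).trans ?_
    rw [← Finset.sum_mul]
    exact mul_le_mul_of_nonneg_right (sum_le_W h2 s) (norm_nonneg _)
  obtain ⟨h6, h7⟩ := SW_of_bd hs
  exact (n1_le_W (hV1.sub hV2) h6).trans h7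

theorem int_closure (hd : d = 2 ∨ d = 3) {𝒟 : Set (Sq d)} (h𝒟 : Adm 𝒟) {β : VF d}
    (hβ : TFN 10 β) {ψ : Rv d → ℝ} (hψ : ContDiff ℝ (⊤ : ℕ∞) ψ) (hψc : HasCompactSupport ψ)
    {b₀ : Sq d} (hb₀ : IsV b₀) (h : ∀ y, ψ y ≠ 0 → pr (trl y β) - b₀ ∈ 𝒟) :
    pr (cnv ψ β) - (∫ y, ψ y) • b₀ ∈ 𝒟 := by
  have hβ3 : TFN 3 β := fun i => ⟨(hβ i).1.of_le (by norm_num), (hβ i).2⟩
  have hV : ∀ y, IsV (pr (trl y β) - b₀) := fun y => (pr_isV hd (hβ3.trl y)).sub hb₀
  have hcT : TF (cnv ψ β) := cnv_TF hψ hψc hβ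
  have hcV : IsV (pr (cnv ψ β)) := pr_isV hd (hcT.tfn 3)
  have hv : IsV (pr (cnv ψ β) - (∫ y, ψ y) • b₀) := hcV.sub (hb₀.smul _)
  apply intc_mem_of_closure h𝒟 hv
  set G : Rv d → IntcH d := fun y => intcJ (pr (trl y β) - b₀) (hV y) with hGdef
  have hGL : ∀ y y', ‖G y - G y'‖ ≤ W 2 (pr β) * ‖y - y'‖ := by
    intro y y'
    have e : G y - G y' = intcJ (pr (trl y β) - pr (trl y' β))
        ((pr_isV hd (hβ3.trl y)).sub (pr_isV hd (hβ3.trl y'))) := by
      apply lp.ext
      funext k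
      rw [lp.coeFn_sub, Pi.sub_apply, intcJ_apply, intcJ_apply, intcJ_apply, ← smul_sub]
      congr 1
      simp only [Pi.sub_apply]
      abel
    rw [e, norm_intcJ]
    exact intc_trl_lip hd hβ y y'
  have hGc : Continuous G := by
    have : LipschitzWith ⟨W 2 (pr β), W_nonneg _ _⟩ G := by
      apply LipschitzWith.of_dist_le_mul
      intro y y'
      rw [dist_eq_norm, dist_eq_norm]
      exact hGL y y'
    exact this.continuous
  set F : Rv d → IntcH d := fun y => ψ y • G y with hFdef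
  have hFc : Continuous F := hψ.continuous.smul hGc
  have hFs : HasCompactSupport F := hψc.smul_right
  have hFS : ∀ y, F y ∈ (intcS h𝒟).topologicalClosure := by
    intro y
    apply (intcS h𝒟).le_topologicalClosure
    by_cases hy : ψ y = 0
    · rw [show F y = 0 by rw [hFdef]; simp [hy]]
      exact Submodule.zero_mem _
    · exact Submodule.smul_mem _ _ ⟨_, h y hy, fun k => rfl⟩
  have hint := intc_integral_mem _ (intcS h𝒟).isClosed_topologicalClosure hFc hFs hFS
  have hFi : Integrable F := hFc.integrable_of_hasCompactSupport hFs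
  convert hint using 1
  apply lp.ext
  funext k
  have h1 : (∫ y, F y : IntcH d) k = ∫ y, (F y : K d → Cv d) k := by
    have := (lp.evalCLM ℝ (fun _ : K d => Cv d) 2 k).integral_comp_comm hFi
    exact this.symm
  rw [h1, intcJ_apply]
  have h2 : ∀ y, (F y : K d → Cv d) k =
      ((nk k : ℂ) * ((ψ y : ℂ) * Complex.exp (-(Complex.I * (kx k y : ℂ))))) • pr β k -
        ψ y • ((nk k : ℝ) • b₀ k) := by
    intro y
    rw [hFdef]
    show (ψ y • (G y : K d → Cv d)) k = _
    rw [Pi.smul_apply, hGdef, intcJ_apply, Pi.sub_apply, pr_trl, smul_sub, smul_sub]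
    congr 1
    rw [mul_smul, mul_smul, Complex.coe_smul, Complex.coe_smul, smul_comm (ψ y)]
  simp_rw [h2]
  have hi1 : Integrable (fun y => (nk k : ℂ) *
      ((ψ y : ℂ) * Complex.exp (-(Complex.I * (kx k y : ℂ))))) := by
    apply Integrable.const_mul
    apply Continuous.integrable_of_hasCompactSupport
    · apply Continuous.mul
      · exact Complex.continuous_ofReal.comp hψ.continuous
      · apply Complex.continuous_exp.comp
        exact (continuous_const.mul (Complex.continuous_ofReal.comp (continuous_kx k))).neg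
    · have : HasCompactSupport (fun y => (ψ y : ℂ)) :=
        hψc.comp_left (g := fun x : ℝ => (x : ℂ)) (by simp)
      exact this.mul_right
  have hi2 : Integrable ψ := hψ.continuous.integrable_of_hasCompactSupport hψc
  rw [integral_sub (hi1.smul_const _) (hi2.smul_const _), integral_smul_const,
    integral_smul_const, integral_const_mul]
  rw [Pi.sub_apply, smul_sub, Pi.smul_apply, smul_comm (nk k : ℝ)]
  congr 1
  have h3 : pr (cnv ψ β) k = (((2 * Real.pi) ^ d : ℝ) * fc ψ k : ℂ) • pr β k := by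
    unfold pr
    rw [← Pk_smul]
    congr 1
    ext i
    show fc (cnv ψ β i) k = _
    rw [show cnv ψ β i = fun x => ∫ y, ψ y * β i (x - y) from rfl,
      fc_conv (hβ i).1.continuous (hβ i).2 hψ.continuous hψc]
    rfl
  have key : (((2 * Real.pi) ^ d : ℝ) : ℂ) * fc ψ k =
      ∫ a : Rv d, (ψ a : ℂ) * Complex.exp (-(Complex.I * (kx k a : ℂ))) := by
    unfold fc
    rw [Complex.real_smul, Complex.ofReal_inv]
    have hpi : (((2 * Real.pi) ^ d : ℝ) : ℂ) ≠ 0 := by
      have := Real.pi_pos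
      exact_mod_cast (pow_pos (by linarith) d : 0 < (2 * Real.pi) ^ d).ne'
    rw [mul_inv_cancel_left₀ hpi]
    congr 1
    funext y
    ring
  rw [h3, key, mul_smul, Complex.coe_smul]

/-- smooth fields are limits of their regularizations, in the sense of the bounds `Nb` -/
theorem exists_mollifier (d : ℕ) {r : ℝ} (hr : 0 < r) : ∃ η : Rv d → ℝ,
    ContDiff ℝ (⊤ : ℕ∞) η ∧ HasCompactSupport η ∧ tsupport η ⊆ Metric.ball 0 r ∧
    (∀ x, 0 ≤ η x) ∧ ∫ x, η x = 1 := by
  let f : ContDiffBump (0 : Rv d) := ⟨r / 4, r / 2, by linarith, by linarith⟩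
  refine ⟨f.normed volume, f.contDiff_normed, f.hasCompactSupport_normed, ?_,
    f.nonneg_normed, f.integral_normed⟩
  rw [f.tsupport_normed_eq]
  exact Metric.closedBall_subset_ball (by show r / 2 < r; linarith)

theorem intc_pd_conv {η φ : Rv d → ℝ} (hη : Continuous η) (hφ : ContDiff ℝ (⊤ : ℕ∞) φ)
    (hc : HasCompactSupport φ) (i : Fin d) :
    pd i (fun x => ∫ y, η y * φ (x - y)) = fun x => ∫ y, η y * pd i φ (x - y) := by
  rw [intc_cnv_eq, intc_cnv_eq]
  funext x
  have h1 := HasCompactSupport.hasFDerivAt_convolution_right (μ := volume)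
    (ContinuousLinearMap.mul ℝ ℝ) hc hη.locallyIntegrable (hφ.of_le (by exact_mod_cast le_top)) x
  unfold pd
  rw [h1.fderiv]
  have h2 : Continuous (fderiv ℝ φ) := hφ.continuous_fderiv (by simp)
  exact convolution_precompR_apply (ContinuousLinearMap.mul ℝ ℝ) hη.locallyIntegrable
    (hc.fderiv ℝ) h2 x (ev i)

theorem intc_conv_comm (f η : Rv d → ℝ) :
    (fun x => ∫ y, f y * η (x - y)) = fun x => ∫ y, η y * f (x - y) := by
  funext x
  rw [← integral_sub_left_eq_self (fun y => η y * f (x - y)) volume x]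
  congr 1
  funext y
  rw [sub_sub_cancel, mul_comm]

theorem intc_conv_close (m : ℕ) : ∀ {f : Rv d → ℝ}, ContDiff ℝ (⊤ : ℕ∞) f →
    HasCompactSupport f →
    ∃ C : ℝ, 0 ≤ C ∧ ∀ (r : ℝ) (η : Rv d → ℝ), 0 < r → ContDiff ℝ (⊤ : ℕ∞) η →
      HasCompactSupport η → tsupport η ⊆ Metric.ball 0 r → (∀ x, 0 ≤ η x) → ∫ x, η x = 1 →
      Nb m (C * r) (fun x => (∫ y, η y * f (x - y)) - f x) := by
  have base : ∀ {f : Rv d → ℝ}, ContDiff ℝ (⊤ : ℕ∞) f → HasCompactSupport f →
      ∃ C : ℝ, 0 ≤ C ∧ ∀ (r : ℝ) (η : Rv d → ℝ), 0 < r → ContDiff ℝ (⊤ : ℕ∞) η →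
      HasCompactSupport η → tsupport η ⊆ Metric.ball 0 r → (∀ x, 0 ≤ η x) → ∫ x, η x = 1 →
      ∀ x, |(∫ y, η y * f (x - y)) - f x| ≤ C * r := by
    intro f hf hc
    obtain ⟨C, hC⟩ := hf.lipschitzWith_of_hasCompactSupport hc (by simp)
    refine ⟨C, C.2, ?_⟩
    intro r η hr hη hηc hηs hη0 hη1 x
    have hi1 : Integrable (fun y => η y * f (x - y)) := by
      apply Continuous.integrable_of_hasCompactSupport
      · exact hη.continuous.mul (hf.continuous.comp (continuous_const.sub continuous_id))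
      · exact hηc.mul_right
    have hi2 : Integrable (fun y => η y * f x) :=
      (hη.continuous.integrable_of_hasCompactSupport hηc).mul_const _
    have e : (∫ y, η y * f (x - y)) - f x = ∫ y, (η y * f (x - y) - η y * f x) := by
      rw [integral_sub hi1 hi2, integral_mul_const, hη1, one_mul]
    rw [e]
    have hi3 : Integrable (fun y => η y * (C * r)) :=
      (hη.continuous.integrable_of_hasCompactSupport hηc).mul_const _
    calc |∫ y, (η y * f (x - y) - η y * f x)| ≤ ∫ y, |η y * f (x - y) - η y * f x| :=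
          abs_integral_le_integral_abs
      _ ≤ ∫ y, η y * (C * r) := by
          apply integral_mono (hi1.sub hi2).abs hi3
          intro y
          show |η y * f (x - y) - η y * f x| ≤ η y * (C * r)
          rw [← mul_sub, abs_mul, abs_of_nonneg (hη0 y)]
          by_cases hy : y ∈ tsupport η
          · apply mul_le_mul_of_nonneg_left _ (hη0 y)
            have h1 := hC.dist_le_mul (x - y) x
            rw [dist_eq_norm, dist_eq_norm, Real.norm_eq_abs, sub_sub_cancel_left, norm_neg] at h1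
            have h2 : ‖y‖ < r := by simpa using hηs hy
            exact h1.trans (mul_le_mul_of_nonneg_left h2.le C.2)
          · rw [image_eq_zero_of_notMem_tsupport hy, zero_mul, zero_mul]
      _ = C * r := by rw [integral_mul_const, hη1, one_mul]
  induction m with
  | zero =>
    intro f hf hc
    exact base hf hc
  | succ m ih =>
    intro f hf hc
    obtain ⟨C, hC0, hC⟩ := base hf hc
    have hpd : ∀ i, ∃ C : ℝ, 0 ≤ C ∧ ∀ (r : ℝ) (η : Rv d → ℝ), 0 < r →
      ContDiff ℝ (⊤ : ℕ∞) η →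
      HasCompactSupport η → tsupport η ⊆ Metric.ball 0 r → (∀ x, 0 ≤ η x) → ∫ x, η x = 1 →
      Nb m (C * r) (fun x => (∫ y, η y * pd i f (x - y)) - pd i f x) := by
      intro i
      apply ih (contDiff_pd_top hf i)
      exact hc.mono' ((subset_tsupport _).trans (tsupport_pd_subset f i))
    choose D hD0 hD using hpd
    refine ⟨C + ∑ i, D i, add_nonneg hC0 (Finset.sum_nonneg fun i _ => hD0 i), ?_⟩
    intro r η hr hη hηc hηs hη0 hη1
    have hle : ∀ i, D i ≤ C + ∑ i, D i := fun i => by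
      have := Finset.single_le_sum (f := D) (fun j _ => hD0 j) (Finset.mem_univ i)
      linarith
    constructor
    · intro x
      refine (hC r η hr hη hηc hηs hη0 hη1 x).trans ?_
      have : 0 ≤ ∑ i, D i := Finset.sum_nonneg fun i _ => hD0 i
      exact mul_le_mul_of_nonneg_right (by linarith) hr.le
    · intro i
      have h1 := (hD i r η hr hη hηc hηs hη0 hη1).mono
        (mul_le_mul_of_nonneg_right (hle i) hr.le)
      convert h1 using 1
      funext x
      have hd1 : Differentiable ℝ (fun x => ∫ y, η y * f (x - y)) := by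
        rw [intc_cnv_eq]
        have : ContDiff ℝ (⊤ : ℕ∞) (convolution η f (ContinuousLinearMap.mul ℝ ℝ) volume) :=
          hηc.contDiff_convolution_left _ hη hf.continuous.locallyIntegrable
        exact this.differentiable (by simp)
      rw [pd_sub (hd1 x) (hf.differentiable (by simp) x), intc_pd_conv hη.continuous hf hc]

theorem conv_close {f : Rv d → ℝ} (hf : ContDiff ℝ (⊤ : ℕ∞) f) (hc : HasCompactSupport f)
    (m : ℕ) : ∃ C : ℝ, 0 ≤ C ∧ ∀ (r : ℝ) (η : Rv d → ℝ), 0 < r → ContDiff ℝ (⊤ : ℕ∞) η →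
      HasCompactSupport η → tsupport η ⊆ Metric.ball 0 r → (∀ x, 0 ≤ η x) → ∫ x, η x = 1 →
      Nb m (C * r) (fun x => (∫ y, f y * η (x - y)) - f x) := by
  obtain ⟨C, hC0, hC⟩ := intc_conv_close m hf hc
  refine ⟨C, hC0, fun r η hr hη hηc hηs hη0 hη1 => ?_⟩
  have := hC r η hr hη hηc hηs hη0 hη1
  have e := intc_conv_comm f η
  have e2 : (fun x => (∫ y, f y * η (x - y)) - f x) =
      fun x => (∫ y, η y * f (x - y)) - f x := by
    funext x
    rw [congrFun e x]
  rw [e2]
  exact this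

end NSC
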