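import Pool.Agent.Work.MP_57e339_an.Four

/-! Module Ker: a parametrix made of finitely many compactly supported `C^N` kernels. -/

open MeasureTheory Set Filter Topology
open scoped BigOperators
noncomputable section
namespace NSC
variable {d : ℕ}

/-! ### One-dimensional kernels -/

/-- power of the positive part -/
def ker_pp (m : ℕ) (u : ℝ) : ℝ := (max u 0) ^ m

theorem ker_pp_hasDeriv (m : ℕ) (u : ℝ) :
    HasDerivAt (ker_pp (m + 2)) (((m + 2 : ℕ) : ℝ) * ker_pp (m + 1) u) u := by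
  rcases lt_trichotomy u 0 with hu | hu | hu
  · have h1 : ker_pp (m + 2) =ᶠ[𝓝 u] fun _ => 0 := by
      filter_upwards [gt_mem_nhds hu] with v hv
      simp [ker_pp, max_eq_right hv.le]
    have h2 : ((m + 2 : ℕ) : ℝ) * ker_pp (m + 1) u = 0 := by
      simp [ker_pp, max_eq_right hu.le]
    rw [h2]
    exact (hasDerivAt_const u (0 : ℝ)).congr_of_eventuallyEq h1
  · subst hu
    have h2 : ((m + 2 : ℕ) : ℝ) * ker_pp (m + 1) 0 = 0 := by simp [ker_pp]
    rw [h2]
    have hr : HasDerivWithinAt (ker_pp (m + 2)) 0 (Ici 0) 0 := by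
      have h3 := (hasDerivAt_pow (m + 2) (0 : ℝ)).hasDerivWithinAt (s := Ici 0)
      have h4 : ((m + 2 : ℕ) : ℝ) * (0 : ℝ) ^ (m + 2 - 1) = 0 := by simp
      rw [h4] at h3
      refine h3.congr (fun v hv => ?_) ?_
      · simp [ker_pp, max_eq_left (show (0 : ℝ) ≤ v from hv)]
      · simp [ker_pp]
    have hl : HasDerivWithinAt (ker_pp (m + 2)) 0 (Iic 0) 0 := by
      refine (hasDerivWithinAt_const (0 : ℝ) (Iic 0) (0 : ℝ)).congr (fun v hv => ?_) ?_
      · simp [ker_pp, max_eq_right (show v ≤ (0 : ℝ) from hv)]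
      · simp [ker_pp]
    have := hl.union hr
    rwa [Iic_union_Ici, hasDerivWithinAt_univ] at this
  · have h1 : ker_pp (m + 2) =ᶠ[𝓝 u] fun v => v ^ (m + 2) := by
      filter_upwards [lt_mem_nhds hu] with v hv
      simp [ker_pp, max_eq_left hv.le]
    have h2 : ker_pp (m + 1) u = u ^ (m + 1) := by simp [ker_pp, max_eq_left hu.le]
    rw [h2]
    exact (hasDerivAt_pow (m + 2) u).congr_of_eventuallyEq h1

theorem ker_pp_contDiff (N : ℕ) : ContDiff ℝ N (ker_pp (N + 1)) := by
  induction N with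
  | zero =>
    rw [Nat.cast_zero, contDiff_zero]
    unfold ker_pp
    fun_prop
  | succ N ih =>
    have hd : deriv (ker_pp (N + 1 + 1)) = fun u => ((N + 2 : ℕ) : ℝ) * ker_pp (N + 1) u := by
      ext u
      exact (ker_pp_hasDeriv N u).deriv
    have h1 : ((N + 1 : ℕ) : WithTop ℕ∞) = (N : WithTop ℕ∞) + 1 := by norm_cast
    rw [h1, contDiff_succ_iff_deriv]
    refine ⟨fun u => (ker_pp_hasDeriv N u).differentiableAt, ?_, ?_⟩
    · intro h
      exact absurd h (by simp)
    · rw [hd]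
      exact contDiff_const.mul ih

/-- a function which vanishes near `0`, cut at `0` -/
theorem ker_cut_contDiff {h : ℝ → ℝ} (hh : ContDiff ℝ (⊤ : ℕ∞) h) (h0 : h =ᶠ[𝓝 0] fun _ => 0) :
    ContDiff ℝ (⊤ : ℕ∞) (fun u => if 0 < u then h u else 0) := by
  rw [contDiff_iff_contDiffAt]
  intro u
  rcases lt_trichotomy u 0 with hu | hu | hu
  · refine contDiffAt_const (c := (0 : ℝ)) |>.congr_of_eventuallyEq ?_
    filter_upwards [gt_mem_nhds hu] with v hv
    rw [if_neg (not_lt.2 hv.le)]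
  · subst hu
    refine contDiffAt_const (c := (0 : ℝ)) |>.congr_of_eventuallyEq ?_
    filter_upwards [h0] with v hv
    rw [hv, ite_self]
  · refine hh.contDiffAt.congr_of_eventuallyEq ?_
    filter_upwards [lt_mem_nhds hu] with v hv
    rw [if_pos hv]

/-- Fourier transform of a function on the line at `k` -/
def ker_ft (g : ℝ → ℝ) (k : ℝ) : ℂ := ∫ u : ℝ, Complex.exp (-(Complex.I * (k * u : ℝ))) * (g u : ℂ)

/-- integral over `[0, ρ]` -/
def ker_hf (ρ : ℝ) (g : ℝ → ℝ) (k : ℝ) : ℂ :=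
  ∫ u in (0 : ℝ)..ρ, Complex.exp (-(Complex.I * (k * u : ℝ))) * (g u : ℂ)

theorem ker_ibp {ρ : ℝ} {g : ℝ → ℝ} (hg : ContDiff ℝ 1 g) (hρ : g ρ = 0) (k : ℝ) :
    Complex.I * k * ker_hf ρ g k = ker_hf ρ (deriv g) k + (g 0 : ℂ) := by
  have hE : ∀ u : ℝ, HasDerivAt (fun u : ℝ => Complex.exp (-(Complex.I * (k * u : ℝ))))
      (Complex.exp (-(Complex.I * (k * u : ℝ))) * (-(Complex.I * k))) u := by
    intro u
    have h1 : HasDerivAt (fun u : ℝ => ((k * u : ℝ) : ℂ)) (k : ℂ) u := by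
      have := ((hasDerivAt_id u).const_mul k).ofReal_comp
      simpa using this
    have h2 : HasDerivAt (fun u : ℝ => -(Complex.I * (k * u : ℝ))) (-(Complex.I * k)) u :=
      (h1.const_mul Complex.I).neg
    exact h2.cexp
  have hG : ∀ u : ℝ, HasDerivAt (fun u : ℝ => (g u : ℂ)) ((deriv g u : ℝ) : ℂ) u := by
    intro u
    exact ((hg.differentiable (by norm_num)).differentiableAt.hasDerivAt).ofReal_comp
  have hF : ∀ u ∈ uIcc (0 : ℝ) ρ,
      HasDerivAt (fun u : ℝ => Complex.exp (-(Complex.I * (k * u : ℝ))) * (g u : ℂ))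
      (Complex.exp (-(Complex.I * (k * u : ℝ))) * (-(Complex.I * k)) * (g u : ℂ) +
        Complex.exp (-(Complex.I * (k * u : ℝ))) * ((deriv g u : ℝ) : ℂ)) u := by
    intro u _
    exact (hE u).mul (hG u)
  have hcE : Continuous (fun u : ℝ => Complex.exp (-(Complex.I * (k * u : ℝ)))) := by fun_prop
  have hcg : Continuous (fun u : ℝ => (g u : ℂ)) := Complex.continuous_ofReal.comp hg.continuous
  have hcg' : Continuous (fun u : ℝ => ((deriv g u : ℝ) : ℂ)) :=
    Complex.continuous_ofReal.comp (hg.continuous_deriv (by norm_num))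
  have hint := intervalIntegral.integral_eq_sub_of_hasDerivAt hF
    (((hcE.mul continuous_const).mul hcg).add (hcE.mul hcg')).continuousOn.intervalIntegrable
  have hadd : (∫ y in (0 : ℝ)..ρ, (Complex.exp (-(Complex.I * (k * y : ℝ))) * (-(Complex.I * k)) *
      (g y : ℂ) + Complex.exp (-(Complex.I * (k * y : ℝ))) * ((deriv g y : ℝ) : ℂ))) =
      (∫ y in (0 : ℝ)..ρ, Complex.exp (-(Complex.I * (k * y : ℝ))) * (-(Complex.I * k)) * (g y : ℂ)) +
      ∫ y in (0 : ℝ)..ρ, Complex.exp (-(Complex.I * (k * y : ℝ))) * ((deriv g y : ℝ) : ℂ) :=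
    intervalIntegral.integral_add (((hcE.mul continuous_const).mul hcg).intervalIntegrable _ _)
      ((hcE.mul hcg').intervalIntegrable _ _)
  rw [hadd] at hint
  have h3 : (∫ u in (0 : ℝ)..ρ, Complex.exp (-(Complex.I * (k * u : ℝ))) * (-(Complex.I * k)) *
      (g u : ℂ)) = -(Complex.I * k) * ker_hf ρ g k := by
    unfold ker_hf
    rw [← intervalIntegral.integral_const_mul]
    apply intervalIntegral.integral_congr
    intro u _
    simp only
    ring
  rw [h3] at hint
  have h4 : (∫ u in (0 : ℝ)..ρ, Complex.exp (-(Complex.I * (k * u : ℝ))) * ((deriv g u : ℝ) : ℂ)) =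
      ker_hf ρ (deriv g) k := rfl
  rw [h4, hρ] at hint
  simp only [mul_zero, Complex.ofReal_zero, neg_zero, Complex.exp_zero, one_mul, zero_sub] at hint
  linear_combination -hint

/-- The one-dimensional kernels. -/
theorem ker_one (N : ℕ) {ρ : ℝ} (hρ : 0 < ρ) : ∃ g0 g1 : ℝ → ℝ,
    ContDiff ℝ N g0 ∧ ContDiff ℝ N g1 ∧ (∀ u, ρ < |u| → g0 u = 0) ∧ (∀ u, ρ < |u| → g1 u = 0) ∧
    ∀ k : ℝ, (Complex.I * k) ^ (N + 2) * ker_ft g1 k + ker_ft g0 k = 1 := by
  let θ : ContDiffBump (0 : ℝ) := ⟨ρ / 4, ρ / 2, by positivity, by linarith⟩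
  let f : ℝ → ℝ := fun u => θ u * (u ^ (N + 1) / (N + 1).factorial)
  have hf : ContDiff ℝ (⊤ : ℕ∞) f := by
    apply ContDiff.mul θ.contDiff
    fun_prop
  have hθ0 : ∀ u, ρ / 2 ≤ |u| → θ u = 0 := by
    intro u hu
    have : u ∉ Function.support θ := by
      rw [θ.support_eq, Metric.mem_ball, Real.dist_eq, sub_zero]
      exact not_lt.2 hu
    simpa using this
  have hθ1 : ∀ u, |u| ≤ ρ / 4 → θ u = 1 := by
    intro u hu
    apply θ.one_of_mem_closedBall
    rw [Metric.mem_closedBall, Real.dist_eq, sub_zero]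
    exact hu
  -- near 0
  have hf0 : f =ᶠ[𝓝 0] fun u => u ^ (N + 1) / (N + 1).factorial := by
    have : {u : ℝ | |u| < ρ / 4} ∈ 𝓝 (0 : ℝ) := by
      apply (isOpen_lt continuous_abs continuous_const).mem_nhds
      rw [Set.mem_ofPred_eq, abs_zero]; positivity
    filter_upwards [this] with u hu
    simp only [f]
    rw [hθ1 u hu.le, one_mul]
  have hiter : ∀ j : ℕ, iteratedDeriv j f =ᶠ[𝓝 0] fun u =>
      (((N + 1).descFactorial j : ℕ) : ℝ) * u ^ (N + 1 - j) / (N + 1).factorial := by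
    intro j
    refine (hf0.iteratedDeriv j).trans ?_
    apply Filter.Eventually.of_forall
    intro u
    have h1 : (fun u : ℝ => u ^ (N + 1) / ((N + 1).factorial : ℝ)) =
        fun u => (((N + 1).factorial : ℝ))⁻¹ * u ^ (N + 1) := by
      ext u; rw [div_eq_inv_mul]
    rw [h1, iteratedDeriv_eq_iterate]
    have h2 : ∀ j : ℕ, deriv^[j] (fun u : ℝ => (((N + 1).factorial : ℝ))⁻¹ * u ^ (N + 1)) =
        fun u => (((N + 1).factorial : ℝ))⁻¹ * ((((N + 1).descFactorial j : ℕ) : ℝ) *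
          u ^ (N + 1 - j)) := by
      intro j
      induction j with
      | zero => simp
      | succ j ih =>
        rw [Function.iterate_succ_apply', ih]
        ext u
        rw [deriv_const_mul _ (by fun_prop), deriv_const_mul _ (by fun_prop), deriv_pow_field,
          Nat.descFactorial_succ]
        push_cast
        rw [show N + 1 - j - 1 = N - j by omega]
        ring
    rw [h2]
    beta_reduce
    rw [div_eq_inv_mul]
  have hfρ : f =ᶠ[𝓝 ρ] fun _ => 0 := by
    filter_upwards [lt_mem_nhds (show ρ / 2 < ρ by linarith)] with u hu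
    simp only [f]
    rw [hθ0 u (hu.le.trans (le_abs_self u)), zero_mul]
  have hiρ : ∀ j : ℕ, iteratedDeriv j f ρ = 0 := by
    intro j
    have := (hfρ.iteratedDeriv j).eq_of_nhds
    rw [this]
    simp
  have hi0 : ∀ j ≤ N, iteratedDeriv j f 0 = 0 := by
    intro j hj
    rw [(hiter j).eq_of_nhds]
    have : N + 1 - j ≠ 0 := by omega
    simp [this]
  have hi1 : iteratedDeriv (N + 1) f 0 = 1 := by
    rw [(hiter (N + 1)).eq_of_nhds]
    rw [Nat.descFactorial_self]
    have : ((N + 1).factorial : ℝ) ≠ 0 := by positivity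
    simp [this]
  have hi2 : iteratedDeriv (N + 2) f =ᶠ[𝓝 0] fun _ => 0 := by
    refine (hiter (N + 2)).trans ?_
    apply Filter.Eventually.of_forall
    intro u
    have : (N + 1).descFactorial (N + 2) = 0 := Nat.descFactorial_eq_zero_iff_lt.2 (by omega)
    simp [this]
  have hcd : ∀ j : ℕ, ContDiff ℝ (⊤ : ℕ∞) (iteratedDeriv j f) := by
    intro j
    rw [iteratedDeriv_eq_iterate]
    apply ContDiff.iterate_deriv
    exact hf
  have hsupp : ∀ j : ℕ, ∀ u, ρ / 2 < |u| → iteratedDeriv j f u = 0 := by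
    intro j u hu
    have h1 : f =ᶠ[𝓝 u] fun _ => 0 := by
      have : {v : ℝ | ρ / 2 < |v|} ∈ 𝓝 u :=
        (isOpen_lt continuous_const continuous_abs).mem_nhds hu
      filter_upwards [this] with v hv
      simp only [f]
      rw [hθ0 v (le_of_lt hv), zero_mul]
    rw [(h1.iteratedDeriv j).eq_of_nhds]
    simp
  let g1 : ℝ → ℝ := fun u => θ u * (ker_pp (N + 1) u / (N + 1).factorial)
  let g0 : ℝ → ℝ := fun u => if 0 < u then -iteratedDeriv (N + 2) f u else 0
  refine ⟨g0, g1, ?_, ?_, ?_, ?_, ?_⟩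
  · apply (ker_cut_contDiff (hcd (N + 2)).neg _).of_le (by exact_mod_cast le_top)
    filter_upwards [hi2] with u hu
    simp [hu]
  · apply ContDiff.mul θ.contDiff
    exact (ker_pp_contDiff N).div_const _
  · intro u hu
    simp only [g0]
    rw [hsupp _ _ (by linarith), neg_zero, ite_self]
  · intro u hu
    simp only [g1]
    rw [hθ0 u (by linarith), zero_mul]
  · intro k
    have hcE : Continuous (fun u : ℝ => Complex.exp (-(Complex.I * (k * u : ℝ)))) := by fun_prop
    have e1 : ker_ft g1 k = ker_hf ρ f k := by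
      unfold ker_ft ker_hf
      rw [intervalIntegral.integral_of_le hρ.le, ← integral_indicator measurableSet_Ioc]
      congr 1
      ext u
      by_cases hu : u ∈ Ioc 0 ρ
      · rw [indicator_of_mem hu]
        simp only [g1, f, ker_pp]
        rw [max_eq_left hu.1.le]
      · rw [indicator_of_notMem hu]
        have : g1 u = 0 := by
          simp only [g1]
          rcases le_or_gt u 0 with h | h
          · simp [ker_pp, max_eq_right h]
          · have : ρ < u := by
              by_contra h'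
              exact hu ⟨h, not_lt.1 h'⟩
            rw [hθ0 u (by linarith [le_abs_self u]), zero_mul]
        rw [this]; simp
    have e0 : ker_ft g0 k = -ker_hf ρ (iteratedDeriv (N + 2) f) k := by
      unfold ker_ft ker_hf
      rw [intervalIntegral.integral_of_le hρ.le, ← integral_indicator measurableSet_Ioc,
        ← integral_neg]
      congr 1
      ext u
      by_cases hu : u ∈ Ioc 0 ρ
      · rw [indicator_of_mem hu]
        simp only [g0]
        rw [if_pos hu.1]
        push_cast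
        ring
      · rw [indicator_of_notMem hu]
        have : g0 u = 0 := by
          simp only [g0]
          rcases le_or_gt u 0 with h | h
          · rw [if_neg (not_lt.2 h)]
          · have : ρ < u := by
              by_contra h'
              exact hu ⟨h, not_lt.1 h'⟩
            rw [if_pos h, hsupp _ _ (by linarith [le_abs_self u]), neg_zero]
        rw [this]; simp
    have hstep : ∀ j : ℕ, Complex.I * k * ker_hf ρ (iteratedDeriv j f) k =
        ker_hf ρ (iteratedDeriv (j + 1) f) k + (iteratedDeriv j f 0 : ℝ) := by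
      intro j
      rw [iteratedDeriv_succ]
      exact ker_ibp ((hcd j).of_le (by exact_mod_cast le_top)) (hiρ j) k
    have hpow : ∀ j ≤ N + 1, ker_hf ρ (iteratedDeriv j f) k = (Complex.I * k) ^ j * ker_hf ρ f k := by
      intro j
      induction j with
      | zero => intro _; simp
      | succ j ih =>
        intro hj
        have h1 := hstep j
        rw [hi0 j (by omega), ih (by omega)] at h1
        rw [Complex.ofReal_zero, add_zero] at h1
        rw [← h1]
        ring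
    have hlast := hstep (N + 1)
    rw [hi1, hpow (N + 1) le_rfl] at hlast
    rw [e1, e0]
    have : (Complex.I * (k : ℂ)) ^ (N + 2) * ker_hf ρ f k =
      Complex.I * k * ((Complex.I * k) ^ (N + 1) * ker_hf ρ f k) := by ring
    rw [this, hlast]
    push_cast
    ring

/-! ### Tensor products -/

theorem ker_ft_shift (g : ℝ → ℝ) (k a : ℝ) :
    (∫ t : ℝ, Complex.exp (-(Complex.I * (k * t : ℝ))) * ((g (t - a) : ℝ) : ℂ)) =
      Complex.exp (-(Complex.I * (k * a : ℝ))) * ker_ft g k := by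
  unfold ker_ft
  rw [← integral_const_mul]
  have h := integral_sub_right_eq_self (μ := (volume : Measure ℝ))
    (fun u : ℝ => Complex.exp (-(Complex.I * (k * a : ℝ))) *
      (Complex.exp (-(Complex.I * (k * u : ℝ))) * (g u : ℂ))) a
  rw [← h]
  congr 1
  ext t
  rw [← mul_assoc, ← Complex.exp_add]
  congr 2
  push_cast
  ring

/-- product kernel -/
def ker_G (g : Fin d → ℝ → ℝ) (x₀ : Rv d) (x : Rv d) : ℝ := ∏ i, g i (x i - x₀ i)

theorem ker_G_fc (g : Fin d → ℝ → ℝ) (x₀ : Rv d) (k : K d) :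
    (((2 * Real.pi) ^ d : ℝ) : ℂ) * fc (ker_G g x₀) k =
      Complex.exp (-(Complex.I * (kx k x₀ : ℂ))) * ∏ i, ker_ft (g i) (k i : ℝ) := by
  have h2pi : (((2 * Real.pi) ^ d : ℝ) : ℂ) ≠ 0 := by
    exact_mod_cast (pow_pos Real.two_pi_pos d).ne'
  have hint : (∫ x : Rv d, Complex.exp (-(Complex.I * (kx k x : ℂ))) * (ker_G g x₀ x : ℂ)) =
      Complex.exp (-(Complex.I * (kx k x₀ : ℂ))) * ∏ i, ker_ft (g i) (k i : ℝ) := by
    rw [← (PiLp.volume_preserving_toLp (Fin d)).integral_comp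
      (MeasurableEquiv.toLp 2 _).measurableEmbedding]
    have h1 : ∀ y : Fin d → ℝ, Complex.exp (-(Complex.I * (kx k (WithLp.toLp 2 y) : ℂ))) *
        (ker_G g x₀ (WithLp.toLp 2 y) : ℂ) =
        ∏ i, (fun (i : Fin d) (t : ℝ) => Complex.exp (-(Complex.I * ((k i : ℝ) * t : ℝ))) *
          ((g i (t - x₀ i) : ℝ) : ℂ)) i (y i) := by
      intro y
      unfold ker_G kx
      rw [Finset.prod_mul_distrib, ← Complex.exp_sum]
      congr 1
      · congr 1
        push_cast
        rw [Finset.sum_neg_distrib, Finset.mul_sum]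
      · push_cast
        rfl
    have h2 : (fun y : Fin d → ℝ => Complex.exp (-(Complex.I * (kx k (WithLp.toLp 2 y) : ℂ))) *
        (ker_G g x₀ (WithLp.toLp 2 y) : ℂ)) = fun y => ∏ i, (fun (i : Fin d) (t : ℝ) =>
        Complex.exp (-(Complex.I * ((k i : ℝ) * t : ℝ))) * ((g i (t - x₀ i) : ℝ) : ℂ)) i (y i) :=
      funext h1
    rw [h2]
    refine (integral_fintype_prod_volume_eq_prod (ι := Fin d) (E := fun _ => ℝ)
      (fun (i : Fin d) (t : ℝ) => Complex.exp (-(Complex.I * ((k i : ℝ) * t : ℝ))) *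
          ((g i (t - x₀ i) : ℝ) : ℂ))).trans ?_
    simp_rw [ker_ft_shift]
    rw [Finset.prod_mul_distrib, ← Complex.exp_sum]
    congr 2
    unfold kx
    push_cast
    rw [Finset.sum_neg_distrib, Finset.mul_sum]
  unfold fc
  rw [hint, Complex.real_smul]
  push_cast at h2pi ⊢
  field_simp

theorem ker_G_contDiff {N : ℕ} {g : Fin d → ℝ → ℝ} (hg : ∀ i, ContDiff ℝ N (g i)) (x₀ : Rv d) :
    ContDiff ℝ N (ker_G g x₀) := by
  unfold ker_G
  apply contDiff_prod
  intro i _
  apply (hg i).comp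
  fun_prop

theorem ker_G_support {g : Fin d → ℝ → ℝ} {r : ℝ} (hr : 0 < r)
    (hg : ∀ i, ∀ u, r / (d + 1) < |u| → g i u = 0) (x₀ : Rv d) :
    tsupport (ker_G g x₀) ⊆ Metric.ball x₀ r := by
  have h1 : Function.support (ker_G g x₀) ⊆ {x : Rv d | ∀ i, |x i - x₀ i| ≤ r / (d + 1)} := by
    intro x hx i
    by_contra h
    apply hx
    unfold ker_G
    exact Finset.prod_eq_zero (Finset.mem_univ i) (hg i _ (not_le.1 h))
  have hcl : IsClosed {x : Rv d | ∀ i, |x i - x₀ i| ≤ r / (d + 1)} := by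
    have : {x : Rv d | ∀ i, |x i - x₀ i| ≤ r / (d + 1)} =
        ⋂ i, {x : Rv d | |x i - x₀ i| ≤ r / (d + 1)} := by
      ext x; simp
    rw [this]
    apply isClosed_iInter
    intro i
    apply isClosed_le _ continuous_const
    fun_prop
  refine (closure_minimal h1 hcl).trans ?_
  intro x hx
  rw [Metric.mem_ball, dist_eq_norm, EuclideanSpace.norm_eq]
  have h2 : ∑ i, ‖(x - x₀) i‖ ^ 2 ≤ ∑ _i : Fin d, (r / (d + 1)) ^ 2 := by
    apply Finset.sum_le_sum
    intro i _
    have := hx i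
    rw [Real.norm_eq_abs]
    exact pow_le_pow_left₀ (abs_nonneg _) this 2
  rw [Finset.sum_const, Finset.card_univ, Fintype.card_fin, nsmul_eq_mul] at h2
  have h3 : (d : ℝ) * (r / (d + 1)) ^ 2 < r ^ 2 := by
    have hd : (0 : ℝ) ≤ d := Nat.cast_nonneg d
    rw [div_pow, ← mul_div_assoc, div_lt_iff₀ (by positivity)]
    nlinarith [mul_pos hr hr, mul_nonneg hd hd, mul_nonneg hd (mul_pos hr hr).le,
      mul_nonneg (mul_nonneg hd hd) (mul_pos hr hr).le]
  calc Real.sqrt (∑ i, ‖(x - x₀) i‖ ^ 2) < Real.sqrt (r ^ 2) :=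
        Real.sqrt_lt_sqrt (Finset.sum_nonneg fun i _ => by positivity) (lt_of_le_of_lt h2 h3)
    _ = r := Real.sqrt_sq hr.le

/-- iterated partial derivatives -/
def ker_P (M : ℕ) : List (Fin d) → (Rv d → ℝ) → (Rv d → ℝ)
  | [], φ => φ
  | i :: l, φ => (pd i)^[M] (ker_P M l φ)

theorem ker_iter (i : Fin d) (M : ℕ) {φ : Rv d → ℝ} (hφ : ContDiff ℝ (⊤ : ℕ∞) φ)
    (hc : HasCompactSupport φ) :
    ContDiff ℝ (⊤ : ℕ∞) ((pd i)^[M] φ) ∧ tsupport ((pd i)^[M] φ) ⊆ tsupport φ ∧
      ∀ k : K d, fc ((pd i)^[M] φ) k = (Complex.I * (k i : ℂ)) ^ M * fc φ k := by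
  induction M with
  | zero => exact ⟨hφ, subset_rfl, fun k => by simp⟩
  | succ M ih =>
    obtain ⟨h1, h2, h3⟩ := ih
    rw [Function.iterate_succ_apply']
    have hc' : HasCompactSupport ((pd i)^[M] φ) := hc.of_isClosed_subset (isClosed_tsupport _) h2
    refine ⟨contDiff_pd_top h1 i, (tsupport_pd_subset _ i).trans h2, fun k => ?_⟩
    rw [fc_pd (h1.of_le (by exact_mod_cast le_top)) hc' i k, h3 k, pow_succ]
    ring

theorem ker_P_spec (M : ℕ) (l : List (Fin d)) {φ : Rv d → ℝ} (hφ : ContDiff ℝ (⊤ : ℕ∞) φ)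
    (hc : HasCompactSupport φ) :
    ContDiff ℝ (⊤ : ℕ∞) (ker_P M l φ) ∧ tsupport (ker_P M l φ) ⊆ tsupport φ ∧
      ∀ k : K d, fc (ker_P M l φ) k =
        (l.map fun i => (Complex.I * (k i : ℂ)) ^ M).prod * fc φ k := by
  induction l with
  | nil => exact ⟨hφ, subset_rfl, fun k => by simp [ker_P]⟩
  | cons i l ih =>
    obtain ⟨h1, h2, h3⟩ := ih
    have hc' : HasCompactSupport (ker_P M l φ) := hc.of_isClosed_subset (isClosed_tsupport _) h2
    obtain ⟨h4, h5, h6⟩ := ker_iter i M h1 hc'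
    refine ⟨h4, h5.trans h2, fun k => ?_⟩
    show fc ((pd i)^[M] (ker_P M l φ)) k = _
    rw [h6 k, h3 k, List.map_cons, List.prod_cons]
    ring

theorem ker (N : ℕ) (x₀ : Rv d) {r : ℝ} (hr : 0 < r) :
    ∃ (n : ℕ) (G : Fin n → Rv d → ℝ) (P : Fin n → (Rv d → ℝ) → (Rv d → ℝ)),
      (∀ s, ContDiff ℝ N (G s) ∧ tsupport (G s) ⊆ Metric.ball x₀ r ∧ HasCompactSupport (G s)) ∧
      (∀ (φ : Rv d → ℝ), ContDiff ℝ (⊤ : ℕ∞) φ → HasCompactSupport φ → ∀ s,
        ContDiff ℝ (⊤ : ℕ∞) (P s φ) ∧ tsupport (P s φ) ⊆ tsupport φ) ∧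
      ∀ (φ : Rv d → ℝ), ContDiff ℝ (⊤ : ℕ∞) φ → HasCompactSupport φ → ∀ k : K d,
        fc (fun x => φ (x - x₀)) k =
          ∑ s, (((2 * Real.pi) ^ d : ℝ) : ℂ) * fc (P s φ) k * fc (G s) k := by
  classical
  have hρ : 0 < r / ((d : ℝ) + 1) := by positivity
  obtain ⟨g0, g1, h0, h1, hs0, hs1, hft⟩ := ker_one N hρ
  let e := Fintype.equivFin (Finset (Fin d))
  let gS : Finset (Fin d) → Fin d → ℝ → ℝ := fun S i => if i ∈ S then g1 else g0
  refine ⟨Fintype.card (Finset (Fin d)), fun s => ker_G (gS (e.symm s)) x₀,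
    fun s φ => ker_P (N + 2) (e.symm s).toList φ, ?_, ?_, ?_⟩
  · intro s
    have hsup : tsupport (ker_G (gS (e.symm s)) x₀) ⊆ Metric.ball x₀ r := by
      apply ker_G_support hr
      intro i u hu
      simp only [gS]
      split_ifs
      · exact hs1 u hu
      · exact hs0 u hu
    refine ⟨ker_G_contDiff (fun i => ?_) x₀, hsup, ?_⟩
    · simp only [gS]
      split_ifs
      · exact h1
      · exact h0
    · exact (isCompact_closedBall x₀ r).of_isClosed_subset (isClosed_tsupport _)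
        (hsup.trans Metric.ball_subset_closedBall)
  · intro φ hφ hc s
    obtain ⟨ha, hb, -⟩ := ker_P_spec (N + 2) (e.symm s).toList hφ hc
    exact ⟨ha, hb⟩
  · intro φ hφ hc k
    rw [fc_trans]
    have hsum : ∑ s, (((2 * Real.pi) ^ d : ℝ) : ℂ) * fc (ker_P (N + 2) (e.symm s).toList φ) k *
        fc (ker_G (gS (e.symm s)) x₀) k =
        ∑ S : Finset (Fin d), (((2 * Real.pi) ^ d : ℝ) : ℂ) * fc (ker_P (N + 2) S.toList φ) k *
        fc (ker_G (gS S) x₀) k :=
      e.symm.sum_comp (fun S => (((2 * Real.pi) ^ d : ℝ) : ℂ) * fc (ker_P (N + 2) S.toList φ) k *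
        fc (ker_G (gS S) x₀) k)
    rw [hsum]
    have hterm : ∀ S : Finset (Fin d), (((2 * Real.pi) ^ d : ℝ) : ℂ) *
        fc (ker_P (N + 2) S.toList φ) k * fc (ker_G (gS S) x₀) k =
        (Complex.exp (-(Complex.I * (kx k x₀ : ℂ))) * fc φ k) *
        ((∏ i ∈ S, (Complex.I * ((k i : ℝ) : ℂ)) ^ (N + 2) * ker_ft g1 (k i : ℝ)) *
          ∏ i ∈ Finset.univ \ S, ker_ft g0 (k i : ℝ)) := by
      intro S
      obtain ⟨-, -, hf⟩ := ker_P_spec (N + 2) S.toList hφ hc
      rw [hf k, Finset.prod_map_toList]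
      have hG := ker_G_fc (gS S) x₀ k
      have hprod : ∏ i, ker_ft (gS S i) (k i : ℝ) = (∏ i ∈ S, ker_ft g1 (k i : ℝ)) *
          ∏ i ∈ Finset.univ \ S, ker_ft g0 (k i : ℝ) := by
        rw [← Finset.prod_sdiff (Finset.subset_univ S), mul_comm]
        congr 1
        · apply Finset.prod_congr rfl
          intro i hi
          simp only [gS, if_pos hi]
        · apply Finset.prod_congr rfl
          intro i hi
          simp only [gS, if_neg (Finset.mem_sdiff.1 hi).2]
      rw [Finset.prod_mul_distrib]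
      rw [hprod] at hG
      have hcast : ∏ i ∈ S, (Complex.I * (k i : ℂ)) ^ (N + 2) =
          ∏ i ∈ S, (Complex.I * ((k i : ℝ) : ℂ)) ^ (N + 2) := by
        apply Finset.prod_congr rfl
        intro i _
        push_cast
        rfl
      rw [hcast]
      linear_combination (∏ i ∈ S, (Complex.I * ((k i : ℝ) : ℂ)) ^ (N + 2)) * fc φ k * hG
    rw [Finset.sum_congr rfl fun S _ => hterm S, ← Finset.mul_sum]
    have hone : ∑ S : Finset (Fin d), ((∏ i ∈ S, (Complex.I * ((k i : ℝ) : ℂ)) ^ (N + 2) *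
        ker_ft g1 (k i : ℝ)) * ∏ i ∈ Finset.univ \ S, ker_ft g0 (k i : ℝ)) = 1 := by
      have := Finset.prod_add (fun i : Fin d => (Complex.I * ((k i : ℝ) : ℂ)) ^ (N + 2) *
        ker_ft g1 (k i : ℝ)) (fun i => ker_ft g0 (k i : ℝ)) Finset.univ
      rw [Finset.powerset_univ] at this
      rw [← this]
      exact Finset.prod_eq_one fun i _ => hft (k i : ℝ)
    rw [hone, mul_one]

end NSC
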