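import Pool.Agent.Work.MP_57e339_an.Transl
import Pool.Agent.Work.MP_57e339_an.IntC
import Pool.Agent.Work.MP_57e339_an.Ker

/-! Module Curl: all the elementary divergence free fields `curl2 p q φ` with `φ` supported in a
small ball are in the admissible set. -/

open MeasureTheory Set Filter Topology
open scoped BigOperators
noncomputable section
namespace NSC
variable {d : ℕ}

/-- the divergence free field `∂_q φ e_p - ∂_p φ e_q` -/
def curl2 (p q : Fin d) (φ : Rv d → ℝ) : VF d := fun i x =>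
  (if i = p then pd q φ x else 0) - (if i = q then pd p φ x else 0)

theorem curl_eq_mul (p q : Fin d) (φ : Rv d → ℝ) (i : Fin d) :
    curl2 p q φ i = fun x => (if i = p then (1 : ℝ) else 0) * pd q φ x -
      (if i = q then (1 : ℝ) else 0) * pd p φ x := by
  funext x
  unfold curl2
  split_ifs <;> simp

theorem curl2_dfree {φ : Rv d → ℝ} (hφ : ContDiff ℝ 2 φ) (p q : Fin d) :
    Dfree (curl2 p q φ) := by
  intro x
  have hd : ∀ j, Differentiable ℝ (pd j φ) := fun j =>
    (contDiff_pd (N := 1) (by exact_mod_cast hφ) j).differentiable (by norm_num)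
  have h1 : ∀ i, pd i (curl2 p q φ i) x = (if i = p then (1 : ℝ) else 0) * pd i (pd q φ) x -
      (if i = q then (1 : ℝ) else 0) * pd i (pd p φ) x := by
    intro i
    rw [curl_eq_mul, pd_sub ((hd q x).const_mul _) ((hd p x).const_mul _),
      pd_const_mul (hd q x), pd_const_mul (hd p x)]
  simp_rw [h1]
  rw [Finset.sum_sub_distrib]
  simp only [ite_mul, one_mul, zero_mul, Finset.sum_ite_eq', Finset.mem_univ, if_true]
  rw [pd_comm hφ p q, sub_self]

theorem curl2_TFN {N : ℕ} {φ : Rv d → ℝ} (hφ : ContDiff ℝ (N + 1 : ℕ) φ)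
    (hc : HasCompactSupport φ) (p q : Fin d) : TFN N (curl2 p q φ) := by
  intro i
  rw [curl_eq_mul]
  have hcs : ∀ j, HasCompactSupport (pd j φ) := fun j =>
    hc.mono' ((subset_tsupport _).trans (tsupport_pd_subset φ j))
  constructor
  · exact (contDiff_const.mul (contDiff_pd hφ q)).sub (contDiff_const.mul (contDiff_pd hφ p))
  · exact ((hcs q).mul_left).sub ((hcs p).mul_left)

theorem curl2_TF {φ : Rv d → ℝ} (hφ : ContDiff ℝ (⊤ : ℕ∞) φ) (hc : HasCompactSupport φ)
    (p q : Fin d) : TF (curl2 p q φ) := by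
  intro i
  rw [curl_eq_mul]
  have hcs : ∀ j, HasCompactSupport (pd j φ) := fun j =>
    hc.mono' ((subset_tsupport _).trans (tsupport_pd_subset φ j))
  constructor
  · exact (contDiff_const.mul (contDiff_pd_top hφ q)).sub
      (contDiff_const.mul (contDiff_pd_top hφ p))
  · exact ((hcs q).mul_left).sub ((hcs p).mul_left)

theorem curl2_su {φ : Rv d → ℝ} {G : Set (Rv d)} (h : tsupport φ ⊆ G) (p q : Fin d) :
    Su (curl2 p q φ) G := by
  intro i
  refine Subset.trans ?_ h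
  apply closure_minimal _ (isClosed_tsupport φ)
  intro x hx
  by_contra hcon
  apply hx
  unfold curl2
  rw [pd_zero_of_notMem hcon, pd_zero_of_notMem hcon]
  simp

theorem curl_fcv {φ : Rv d → ℝ} (hφ : ContDiff ℝ 1 φ) (hc : HasCompactSupport φ)
    (p q : Fin d) (k : K d) :
    fcv (curl2 p q φ) k = fc φ k • (WithLp.toLp 2 fun i => Complex.I *
      ((if i = p then (k q : ℂ) else 0) - (if i = q then (k p : ℂ) else 0)) : Cv d) := by
  ext i
  show fc (curl2 p q φ i) k = fc φ k * (Complex.I *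
      ((if i = p then (k q : ℂ) else 0) - (if i = q then (k p : ℂ) else 0)))
  have hcs : ∀ j, HasCompactSupport (pd j φ) := fun j =>
    hc.mono' ((subset_tsupport _).trans (tsupport_pd_subset φ j))
  have hct : ∀ j, Continuous (pd j φ) := fun j =>
    (contDiff_pd (N := 0) (by exact_mod_cast hφ) j).continuous
  have hi : ∀ j, Integrable (pd j φ) := fun j =>
    (hct j).integrable_of_hasCompactSupport (hcs j)
  rw [curl_eq_mul, fc_sub ((hi q).const_mul _) ((hi p).const_mul _), fc_const_mul, fc_const_mul,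
    fc_pd hφ hc, fc_pd hφ hc]
  split_ifs <;> push_cast <;> ring

theorem curl_pr_cnv {β : VF d} (hβ : TFN 0 β) {ψ : Rv d → ℝ} (hψ : Continuous ψ)
    (hψc : HasCompactSupport ψ) (k : K d) :
    pr (cnv ψ β) k = (((2 * Real.pi) ^ d : ℝ) * fc ψ k : ℂ) • pr β k := by
  unfold pr
  rw [← Pk_smul]
  congr 1
  ext i
  show fc (cnv ψ β i) k = _
  rw [show cnv ψ β i = fun x => ∫ y, ψ y * β i (x - y) from rfl,
    fc_conv (hβ i).1.continuous (hβ i).2 hψ hψc]
  rfl

theorem curl_sum_mem {𝒟 : Set (Sq d)} (h𝒟 : Adm 𝒟) {n : ℕ} {v : Fin n → Sq d}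
    (h : ∀ s, v s ∈ 𝒟) : ∑ s, v s ∈ 𝒟 := by
  classical
  have : ∀ t : Finset (Fin n), ∑ s ∈ t, v s ∈ 𝒟 := by
    intro t
    induction t using Finset.induction_on with
    | empty => rw [Finset.sum_empty]; exact h𝒟.zero
    | insert a t ha ih => rw [Finset.sum_insert ha]; exact h𝒟.add _ (h a) _ ih
  exact this _

theorem curl_mem (hd : d = 2 ∨ d = 3) {𝒟 : Set (Sq d)} (h𝒟 : Adm 𝒟) {x₀ : Rv d} {r : ℝ}
    (hr : 0 < r)
    (htr : ∀ b : VF d, TFN 12 b → Dfree b → Su b (Metric.ball x₀ r) → pr b ∈ 𝒟 →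
      ∀ y : Rv d, ‖y‖ ≤ r → pr (trl y b) ∈ 𝒟)
    {n : ℕ} {G : Fin n → Rv d → ℝ} {P : Fin n → (Rv d → ℝ) → (Rv d → ℝ)}
    (hG : ∀ s, ContDiff ℝ 14 (G s) ∧ tsupport (G s) ⊆ Metric.ball x₀ r ∧
      HasCompactSupport (G s))
    (hP : ∀ (φ : Rv d → ℝ), ContDiff ℝ (⊤ : ℕ∞) φ → HasCompactSupport φ → ∀ s,
        ContDiff ℝ (⊤ : ℕ∞) (P s φ) ∧ tsupport (P s φ) ⊆ tsupport φ)
    (hGP : ∀ (φ : Rv d → ℝ), ContDiff ℝ (⊤ : ℕ∞) φ → HasCompactSupport φ → ∀ k : K d,
        fc (fun x => φ (x - x₀)) k =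
          ∑ s, (((2 * Real.pi) ^ d : ℝ) : ℂ) * fc (P s φ) k * fc (G s) k)
    (hin : ∀ s p q, pr (curl2 p q (G s)) ∈ 𝒟)
    {φ : Rv d → ℝ} (hφ : ContDiff ℝ (⊤ : ℕ∞) φ) (hφs : tsupport φ ⊆ Metric.ball x₀ r)
    (p q : Fin d) : pr (curl2 p q φ) ∈ 𝒟 := by
  have hc : HasCompactSupport φ :=
    (isCompact_closedBall x₀ r).of_isClosed_subset (isClosed_tsupport φ)
      (hφs.trans Metric.ball_subset_closedBall)
  set φ' : Rv d → ℝ := fun x => φ (x + x₀) with hφ'
  have hφ's : ContDiff ℝ (⊤ : ℕ∞) φ' := hφ.comp (contDiff_id.add contDiff_const)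
  have hφ'c : HasCompactSupport φ' := hc.comp_homeomorph (Homeomorph.addRight x₀)
  have hφ't : tsupport φ' ⊆ Metric.closedBall 0 r := by
    apply closure_minimal _ Metric.isClosed_closedBall
    intro x hx
    have h1 : x + x₀ ∈ tsupport φ := subset_tsupport _ hx
    have h2 := hφs h1
    rw [Metric.mem_ball, dist_eq_norm, add_sub_cancel_right] at h2
    rw [mem_closedBall_zero_iff]
    exact h2.le
  have hφeq : (fun x => φ' (x - x₀)) = φ := by
    funext x
    rw [hφ']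
    simp
  have hPc : ∀ s, HasCompactSupport (P s φ') := fun s =>
    hφ'c.mono' ((subset_tsupport _).trans (hP φ' hφ's hφ'c s).2)
  have hG13 : ∀ s, TFN 13 (curl2 p q (G s)) := fun s =>
    curl2_TFN (by exact_mod_cast (hG s).1) (hG s).2.2 p q
  have hmem : ∀ s, pr (cnv (P s φ') (curl2 p q (G s))) ∈ 𝒟 := by
    intro s
    have h10 : TFN 10 (curl2 p q (G s)) := fun i =>
      ⟨(hG13 s i).1.of_le (by norm_num), (hG13 s i).2⟩
    have h12 : TFN 12 (curl2 p q (G s)) := fun i =>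
      ⟨(hG13 s i).1.of_le (by norm_num), (hG13 s i).2⟩
    have := int_closure hd h𝒟 h10 (hP φ' hφ's hφ'c s).1 (hPc s) (b₀ := 0) isV_zero (by
      intro y hy
      rw [sub_zero]
      apply htr _ h12 (curl2_dfree ((hG s).1.of_le (by norm_num)) p q)
        (curl2_su (hG s).2.1 p q) (hin s p q)
      have h1 : y ∈ tsupport (P s φ') := subset_tsupport _ hy
      have h2 := hφ't ((hP φ' hφ's hφ'c s).2 h1)
      exact mem_closedBall_zero_iff.1 h2)
    rwa [smul_zero, sub_zero] at this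
  have hsum : pr (curl2 p q φ) = ∑ s, pr (cnv (P s φ') (curl2 p q (G s))) := by
    funext k
    rw [Finset.sum_apply]
    have h1 : pr (curl2 p q φ) k = fc φ k • Pk k ((WithLp.toLp 2 fun i => Complex.I *
      ((if i = p then (k q : ℂ) else 0) - (if i = q then (k p : ℂ) else 0)) : Cv d)) := by
      unfold pr
      rw [curl_fcv (hφ.of_le (by exact_mod_cast le_top)) hc, Pk_smul]
    have h2 := hGP φ' hφ's hφ'c k
    rw [hφeq] at h2
    rw [h1, h2, Finset.sum_smul]
    apply Finset.sum_congr rfl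
    intro s _
    rw [curl_pr_cnv (fun i => ⟨(hG13 s i).1.of_le (by norm_num), (hG13 s i).2⟩)
      (hP φ' hφ's hφ'c s).1.continuous (hPc s)]
    unfold pr
    rw [curl_fcv ((hG s).1.of_le (by norm_num)) (hG s).2.2, Pk_smul, smul_smul]
  rw [hsum]
  exact curl_sum_mem h𝒟 hmem

end NSC
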