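import Mathlib

/-!
# MP_57e339_an : definitions

Navier-Stokes on the torus `R^d / 2 pi Z^d` in Fourier variables, controlled reachability,
admissible sets of directions, and test fields in physical space.
-/

open MeasureTheory Set Filter Topology
open scoped BigOperators

noncomputable section

namespace NSC

variable {d : ℕ}

/-! ## Fourier side -/

/-- wave vectors -/
abbrev K (d : ℕ) := Fin d → ℤ
/-- complex vectors -/
abbrev Cv (d : ℕ) := EuclideanSpace ℂ (Fin d)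
/-- vector fields given by their Fourier coefficients -/
abbrev Sq (d : ℕ) := K d → Cv d

/-- Euclidean length of a wave vector -/
def nk (k : K d) : ℝ := Real.sqrt (∑ i, (k i : ℝ) ^ 2)

/-- a wave vector as a complex vector -/
def kv (k : K d) : Cv d := WithLp.toLp 2 fun i => (k i : ℂ)

/-- `k · c` (bilinear, no conjugation) -/
def dot (k : K d) (c : Cv d) : ℂ := ∑ i, (k i : ℂ) * c i

/-- componentwise complex conjugation -/
def cj (c : Cv d) : Cv d := WithLp.toLp 2 fun i => (starRingEnd ℂ) (c i)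

/-- Leray projection on the mode `k` (by convention `0` for `k = 0`) -/
def Pk (k : K d) (c : Cv d) : Cv d :=
  if k = 0 then 0 else c - (dot k c / (nk k : ℂ) ^ 2) • kv k

/-- mean zero, divergence free, real, `H^1` fields -/
structure IsV (u : Sq d) : Prop where
  zero : u 0 = 0
  dv : ∀ k, dot k (u k) = 0
  sy : ∀ k, u (-k) = cj (u k)
  sm : Summable fun k => nk k ^ 2 * ‖u k‖ ^ 2

/-- the (homogeneous) `H^1` norm -/
def n1 (u : Sq d) : ℝ := Real.sqrt (∑' k, nk k ^ 2 * ‖u k‖ ^ 2)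

/-- the (homogeneous) `H^2` norm; used for finitely supported sequences only -/
def n2 (u : Sq d) : ℝ := Real.sqrt (∑' k, nk k ^ 4 * ‖u k‖ ^ 2)

/-- finiteness of the weighted `ℓ^1` norm of order `m` -/
def SW (m : ℕ) (u : Sq d) : Prop := Summable fun k => nk k ^ m * ‖u k‖

/-- the weighted `ℓ^1` norm of order `m` -/
def W (m : ℕ) (u : Sq d) : ℝ := ∑' k, nk k ^ m * ‖u k‖

/-- rapidly decreasing Fourier coefficients -/
def Rap (u : Sq d) : Prop := ∀ m, SW m u

/-- the bilinear term: Fourier coefficients of `Π((a·∇)w)` -/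
def Bk (a w : Sq d) : Sq d := fun k => Complex.I • Pk k (∑' j, dot k (a j) • w (k - j))

/-- `Π((a·∇)w + (w·∇)a)` -/
def Lk (a w : Sq d) : Sq d := Bk a w + Bk w a

/-- the linear part: `ν |k|^2 + i m·k` -/
def mu (ν : ℝ) (m : Fin d → ℝ) (k : K d) : ℂ :=
  (ν : ℂ) * (nk k : ℂ) ^ 2 + Complex.I * ∑ i, (m i : ℂ) * (k i : ℂ)

/-- the linear operator with multiplier `mu` -/
def Mu (ν : ℝ) (m : Fin d → ℝ) (u : Sq d) : Sq d := fun k => mu ν m k • u k

/-- `H^1` pairing of `z` with `Bk a w`; used for finitely supported `z` -/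
def Tri (a w z : Sq d) : ℝ := ∑' k, nk k ^ 2 * (inner ℂ (z k) (Bk a w k)).re

/-- finitely supported -/
def FS (z : Sq d) : Prop := {k | z k ≠ 0}.Finite

/-- the frequencies `0 < |k| ≤ R` -/
def bx (d : ℕ) (R : ℝ) : Set (K d) := {k | k ≠ 0 ∧ nk k ≤ R}

/-- restriction of a sequence to a set of frequencies -/
def tr (s : Set (K d)) (u : Sq d) : Sq d := s.indicator u

/-! ## Solutions and controls -/

/-- Solutions on `[0,T]` of the Navier-Stokes equations with mean velocity `m` and constant force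
`f` (in Fourier variables, integrated in time), bounded in `V`. -/
structure Sol (ν : ℝ) (m : Fin d → ℝ) (f : Sq d) (T : ℝ) (u : ℝ → Sq d) : Prop where
  V : ∀ t ∈ Icc (0 : ℝ) T, IsV (u t)
  bd : ∃ M, ∀ t ∈ Icc (0 : ℝ) T, n1 (u t) ≤ M
  ct : ∀ k, ContinuousOn (fun t => u t k) (Icc (0 : ℝ) T)
  eq : ∀ k, ∀ t ∈ Icc (0 : ℝ) T, u t k = u 0 k +
    ∫ s in (0 : ℝ)..t, (f k - mu ν m k • u s k - Bk (u s) (u s) k)

variable {n : ℕ}

/-- the force with (real) coordinates `c` -/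
def Comb (e : Fin n → Sq d) (c : Fin n → ℝ) : Sq d := fun k => ∑ i, c i • e i k

/-- `w'` is reached from `w` by following the schedule (durations and constant control values) -/
def Run (ν : ℝ) (m : Fin d → ℝ) (e : Fin n → Sq d) :
    List (ℝ × (Fin n → ℝ)) → Sq d → Sq d → Prop
  | [], w, w' => w' = w
  | p :: L, w, w' => ∃ u : ℝ → Sq d, Sol ν m (Comb e p.2) p.1 u ∧ u 0 = w ∧ Run ν m e L (u p.1) w'

/-- `x` is a continuous map into `V` -/
structure VCont {Θ : Type} [TopologicalSpace Θ] (x : Θ → Sq d) : Prop where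
  V : ∀ θ, IsV (x θ)
  ct : ∀ θ₀, ∀ ε > 0, ∀ᶠ θ in 𝓝 θ₀, n1 (x θ - x θ₀) < ε

/-- From every point close to `x θ` a point `ε`-close to `y θ` is reached in time `T`, by a
schedule whose durations do not depend on `θ` and whose values depend continuously on `θ`. -/
def Nr (ν : ℝ) (m : Fin d → ℝ) (e : Fin n → Sq d) {Θ : Type} [TopologicalSpace Θ]
    (x y : Θ → Sq d) (T ε : ℝ) : Prop :=
  ∃ L : List (ℝ × (Θ → Fin n → ℝ)), (∀ p ∈ L, 0 < p.1 ∧ Continuous p.2) ∧
    (L.map Prod.fst).sum = T ∧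
    ∃ ρ > 0, ∀ θ, ∀ w, IsV w → n1 (w - x θ) < ρ →
      ∃ w', IsV w' ∧ Run ν m e (L.map fun p => (p.1, p.2 θ)) w w' ∧ n1 (w' - y θ) < ε

/-- `y` is approximately reached from `x` in a positive time less than `δ` -/
def Inst (ν : ℝ) (m : Fin d → ℝ) (e : Fin n → Sq d) {Θ : Type} [TopologicalSpace Θ]
    (δ : ℝ) (x y : Θ → Sq d) : Prop :=
  ∀ ε > 0, ∃ T, 0 < T ∧ T < δ ∧ Nr ν m e x y T ε

/-- the directions in which one can (approximately) jump instantaneously from anywhere -/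
def DD (ν : ℝ) (m : Fin d → ℝ) (e : Fin n → Sq d) : Set (Sq d) :=
  {v | IsV v ∧ ∀ (Θ : Type) [TopologicalSpace Θ] [CompactSpace Θ] (x : Θ → Sq d) (_ : VCont x)
    (s : Θ → ℝ) (_ : Continuous s) (δ : ℝ) (_ : 0 < δ), Inst ν m e δ x (fun θ => x θ + s θ • v)}

/-! ## Good backgrounds and admissible sets of directions -/

/-- `abar` is a good background for `𝒟`: a weighted mean of elements `a j` of `𝒟` such that the
weighted mean of `Bk (a j) (a j)` is in `𝒟`. -/
def Good (𝒟 : Set (Sq d)) (abar : Sq d) : Prop :=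
  ∃ (N : ℕ) (a : Fin N → Sq d) (α : Fin N → ℝ),
    (∀ j, a j ∈ 𝒟 ∧ Rap (a j) ∧ 0 < α j) ∧ ∑ j, α j = 1 ∧
    abar = ∑ j, α j • a j ∧ (∑ j, α j • Bk (a j) (a j)) ∈ 𝒟

/-- the properties of the set of directions used in the physical-space part -/
structure Adm (𝒟 : Set (Sq d)) : Prop where
  isV : ∀ v ∈ 𝒟, IsV v
  zero : (0 : Sq d) ∈ 𝒟
  add : ∀ v ∈ 𝒟, ∀ w ∈ 𝒟, v + w ∈ 𝒟
  smul : ∀ t : ℝ, ∀ v ∈ 𝒟, t • v ∈ 𝒟
  closed : ∀ v, IsV v → (∀ ε > 0, ∃ w ∈ 𝒟, n1 (w - v) < ε) → v ∈ 𝒟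
  /-- invariance under the transport by a good background, discretized -/
  dyn : ∀ abar, Good 𝒟 abar → ∀ v, IsV v → ∀ τ : ℝ, 0 < τ →
    (∀ ρ : ℝ, 0 < ρ → ∃ Y : ℝ, ∀ M₀ : ℕ, ∃ M ≥ M₀, 0 < M ∧ ∃ c σ : ℕ → Sq d, c 0 ∈ 𝒟 ∧
      (∀ j ≤ M, IsV (c j) ∧ SW 4 (c j) ∧ W 4 (c j) ≤ Y) ∧
      (∀ j < M, σ j ∈ 𝒟 ∧
        n1 (c (j + 1) - c j - (τ / M) • (Lk abar (c j) + σ j)) ≤ τ / M * ρ) ∧
      n1 (c M - v) ≤ ρ) → v ∈ 𝒟
  /-- invariance under the infinitesimal transport -/
  dyn' : ∀ abar, Good 𝒟 abar → ∀ b ∈ 𝒟, Rap b → Lk abar b ∈ 𝒟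

/-! ## Physical side -/

/-- physical space -/
abbrev Rv (d : ℕ) := EuclideanSpace ℝ (Fin d)
/-- vector fields on physical space -/
abbrev VF (d : ℕ) := Fin d → Rv d → ℝ

/-- the standard unit vector -/
def ev (i : Fin d) : Rv d := EuclideanSpace.single i (1 : ℝ)

/-- partial derivative -/
def pd (i : Fin d) (f : Rv d → ℝ) : Rv d → ℝ := fun x => fderiv ℝ f x (ev i)

/-- `k · x` -/
def kx (k : K d) (x : Rv d) : ℝ := ∑ i, (k i : ℝ) * x i

/-- Fourier coefficients (for the torus `R^d / 2 pi Z^d`) of the periodization of `f` -/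
def fc (f : Rv d → ℝ) (k : K d) : ℂ :=
  ((2 * Real.pi) ^ d : ℝ)⁻¹ • ∫ x : Rv d, Complex.exp (-(Complex.I * (kx k x : ℂ))) * (f x : ℂ)

/-- vector of Fourier coefficients -/
def fcv (β : VF d) (k : K d) : Cv d := WithLp.toLp 2 fun i => fc (β i) k

/-- the Leray projection of (the periodization of) a field, in Fourier variables -/
def pr (β : VF d) : Sq d := fun k => Pk k (fcv β k)

/-- the real periodic function with given Fourier coefficients -/
def ser (u : Sq d) : VF d := fun i x => ∑' k, ((u k) i * Complex.exp (Complex.I * (kx k x : ℂ))).re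

/-- smooth compactly supported fields -/
def TF (β : VF d) : Prop := ∀ i, ContDiff ℝ (⊤ : ℕ∞) (β i) ∧ HasCompactSupport (β i)

/-- compactly supported `C^N` fields -/
def TFN (N : ℕ) (β : VF d) : Prop := ∀ i, ContDiff ℝ N (β i) ∧ HasCompactSupport (β i)

/-- the (closed) support is contained in `G` -/
def Su (β : VF d) (G : Set (Rv d)) : Prop := ∀ i, tsupport (β i) ⊆ G

/-- divergence free -/
def Dfree (β : VF d) : Prop := ∀ x, ∑ i, pd i (β i) x = 0

/-- contraction of the exterior derivative of `β` with `v` -/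
def iod (v β : VF d) : VF d := fun i x => ∑ j, v j x * (pd j (β i) x - pd i (β j) x)

/-- bounds for all the partial derivatives of order at most `m` -/
def Nb : ℕ → ℝ → (Rv d → ℝ) → Prop
  | 0, A, f => ∀ x, |f x| ≤ A
  | m + 1, A, f => (∀ x, |f x| ≤ A) ∧ ∀ i, Nb m A (pd i f)

end NSC
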