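import Pool.Agent.Work.MP_57e339_an.Stage

/-! Module Eff: fast cycling through the displacements `lam • a j` (with weights `α j`) produces
the effective transport by the mean background `∑ α j • a j`. -/

open MeasureTheory Set Filter Topology
open scoped BigOperators
noncomputable section
namespace NSC
variable {d n : ℕ}

/-- size of the velocity of a displaced evolution -/
def eff_D (ν : ℝ) (m : Fin d → ℝ) (a : Sq d) : ℝ := W 3 (Bk a a) + 16 * W 4 a + W 3 (Mu ν m a)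

lemma eff_D_nonneg (ν : ℝ) (m : Fin d → ℝ) (a : Sq d) : 0 ≤ eff_D ν m a := by
  unfold eff_D
  have h1 := W_nonneg 3 (Bk a a)
  have h2 := W_nonneg 4 a
  have h3 := W_nonneg 3 (Mu ν m a)
  positivity

lemma eff_vel {ν : ℝ} (m : Fin d → ℝ) {a z : Sq d} (ha : IsV a) (hra : Rap a) (hz : IsV z)
    (hz4 : SW 4 z) {Y lam : ℝ} (hY0 : 0 ≤ Y) (hY : W 4 z ≤ Y) (hlam : Y + 1 ≤ lam) :
    IsV (vel ν m lam a z) ∧ SW 3 (vel ν m lam a z) ∧
      W 3 (vel ν m lam a z) ≤ lam ^ 2 * eff_D ν m a := by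
  have hbk := rap_bk ha ha hra hra
  have hL := Lk_SW ha hz (m := 3) (hra 4) hz4
  have hLV := Lk_isV ha hz (hra 2) (SW.mono hz4 hz.zero (by norm_num)).1
  have hM := Mu_SW ν m (l := 3) (hra 5)
  have hMV := Mu_isV ν m ha (hra 3)
  have hlam1 : 1 ≤ lam := by linarith
  have hlam0 : 0 ≤ lam := by linarith
  have s1 := SW.smul (hbk.1 3) (lam ^ 2)
  have s2 := SW.smul hL.1 lam
  have s3 := SW.smul hM.1 lam
  have s12 := SW.add s1.1 s2.1
  have s123 := SW.add s12.1 s3.1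
  refine ⟨((hbk.2.smul _).add (hLV.1.smul _)).add (hMV.1.smul _), s123.1, ?_⟩
  have h1 : W 3 (vel ν m lam a z) ≤ lam ^ 2 * W 3 (Bk a a) + lam * W 3 (Lk a z)
      + lam * W 3 (Mu ν m a) := by
    have h2 := s123.2
    have h3 := s12.2
    rw [s3.2, abs_of_nonneg hlam0] at h2
    rw [s1.2, s2.2, abs_of_nonneg hlam0, abs_of_nonneg (by positivity)] at h3
    show W 3 (lam ^ 2 • Bk a a + lam • Lk a z + lam • Mu ν m a) ≤ _
    linarith
  have hW4 := W_nonneg 4 a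
  have hWz := W_nonneg 4 z
  have hWM := W_nonneg 3 (Mu ν m a)
  have h4 : lam * W 3 (Lk a z) ≤ lam ^ 2 * (16 * W 4 a) := by
    have h5 : W 3 (Lk a z) ≤ 16 * W 4 a * lam := by
      calc W 3 (Lk a z) ≤ 2 ^ (3 + 1) * W 4 a * W 4 z := hL.2
        _ = 16 * W 4 a * W 4 z := by norm_num
        _ ≤ 16 * W 4 a * lam := by
            refine mul_le_mul_of_nonneg_left ?_ (by positivity)
            linarith
    calc lam * W 3 (Lk a z) ≤ lam * (16 * W 4 a * lam) := mul_le_mul_of_nonneg_left h5 hlam0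
      _ = lam ^ 2 * (16 * W 4 a) := by ring
  have h6 : lam * W 3 (Mu ν m a) ≤ lam ^ 2 * W 3 (Mu ν m a) := by
    refine mul_le_mul_of_nonneg_right ?_ hWM
    nlinarith
  unfold eff_D
  nlinarith

lemma eff_refl (hd : d = 2 ∨ d = 3) {ν : ℝ} (hν : 0 < ν) (m : Fin d → ℝ) {e : Fin n → Sq d}
    (he : ∀ i, IsV (e i) ∧ SW 4 (e i)) {Θ : Type} [TopologicalSpace Θ] [CompactSpace Θ]
    {x : Θ → Sq d} (hx : VCont x) {δ : ℝ} (hδ : 0 < δ) : Inst ν m e δ x x := by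
  have h := (DD_zero (m := m) hd hν he).2 Θ x hx (fun _ => 0) continuous_const δ hδ
  simpa using h

lemma eff_trans {ν : ℝ} {m : Fin d → ℝ} {e : Fin n → Sq d} {Θ : Type} [TopologicalSpace Θ]
    {x y z : Θ → Sq d} {T T' : ℝ} (h : ∀ δ > T, Inst ν m e δ x y)
    (h' : ∀ δ > T', Inst ν m e δ y z) : ∀ δ > T + T', Inst ν m e δ x z := by
  intro δ hδ
  have h1 := (h (T + (δ - T - T') / 2) (by linarith)).trans (h' (T' + (δ - T - T') / 2) (by linarith))
  refine h1.mono (by linarith)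

/-- the conclusion of `stage` -/
def EffStage (ν : ℝ) (m : Fin d → ℝ) (e : Fin n → Sq d) (θ₀ : ℝ) : Prop :=
  ∀ (a : Sq d), a ∈ DD ν m e → Rap a →
      ∀ (Θ : Type) [TopologicalSpace Θ] [CompactSpace Θ] (x : Θ → Sq d), VCont x →
      ∀ (lam h Y η E : ℝ), 0 ≤ lam → 0 < h → 0 ≤ Y → 0 ≤ η → 0 ≤ E →
      ∀ (z p : Θ → Sq d), (∀ θ, IsV (z θ) ∧ SW 4 (z θ) ∧ W 4 (z θ) ≤ Y) →
      (∀ θ, IsV (p θ) ∧ SW 3 (p θ)) →
      (∀ θ, ∀ t ∈ Icc (0 : ℝ) h, W 3 (p θ - t • vel ν m lam a (z θ) - z θ) ≤ η) →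
      (∀ θ, n1 (x θ - p θ) ≤ E) →
      ∀ (g r : ℝ), g = 3 * (lam * W 2 a + Y + η) →
      r = 4 * lam * W 2 a * η + 2 * (Y + η) ^ 2 + (|ν| + ∑ i, |m i|) * (Y + η) →
      Real.exp (g * h) * (E + r * h) < θ₀ →
      ∃ x' : Θ → Sq d, VCont x' ∧ (∀ δ > h, Inst ν m e δ x x') ∧
        ∀ θ, n1 (x' θ - (p θ - h • vel ν m lam a (z θ))) ≤ Real.exp (g * h) * (E + r * h)

lemma eff_neg {u : Sq d} {l : ℕ} (h : SW l u) : SW l (-u) ∧ W l (-u) = W l u := by
  have := SW.smul h (-1)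
  rw [neg_one_smul, abs_neg, abs_one, one_mul] at this
  exact this

lemma eff_stages (hd : d = 2 ∨ d = 3) {ν : ℝ} (hν : 0 < ν) (m : Fin d → ℝ) {θ₀ : ℝ}
    {e : Fin n → Sq d} (he : ∀ i, IsV (e i) ∧ SW 4 (e i)) (hst : EffStage ν m e θ₀)
    {N : ℕ} (a : Fin N → Sq d) (α : Fin N → ℝ)
    (ha : ∀ j, a j ∈ DD ν m e ∧ Rap (a j) ∧ 0 < α j)
    {lam h Y η E : ℝ} (hlam : Y + 1 ≤ lam) (hh : 0 < h) (hY : 0 ≤ Y)
    (hη : h * (lam ^ 2 * ∑ j, α j * eff_D ν m (a j)) ≤ η) (hη0 : 0 ≤ η) (hE : 0 ≤ E)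
    {Θ : Type} [TopologicalSpace Θ] [CompactSpace Θ] {x : Θ → Sq d} (hx : VCont x)
    (z : Θ → Sq d) (hz : ∀ θ, IsV (z θ) ∧ SW 4 (z θ) ∧ W 4 (z θ) ≤ Y)
    (hxz : ∀ θ, n1 (x θ - z θ) ≤ E) (g r : Fin N → ℝ)
    (hg : ∀ j, g j = 3 * (lam * W 2 (a j) + Y + η))
    (hr : ∀ j, r j = 4 * lam * W 2 (a j) * η + 2 * (Y + η) ^ 2 + (|ν| + ∑ i, |m i|) * (Y + η))
    (hsmall : Real.exp (∑ j, g j * (α j * h)) * (E + ∑ j, r j * (α j * h)) < θ₀)
    (s : Finset (Fin N)) :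
    ∃ x' : Θ → Sq d, VCont x' ∧ (∀ δ > (∑ j ∈ s, α j * h), Inst ν m e δ x x') ∧
      ∀ θ, n1 (x' θ - (z θ - h • ∑ j ∈ s, α j • vel ν m lam (a j) (z θ)))
        ≤ Real.exp (∑ j ∈ s, g j * (α j * h)) * (E + ∑ j ∈ s, r j * (α j * h)) := by
  classical
  have hlam1 : 1 ≤ lam := by linarith
  have hlam0 : 0 ≤ lam := by linarith
  have hg0 : ∀ j, 0 ≤ g j * (α j * h) := by
    intro j
    have h1 := W_nonneg 2 (a j)
    have h2 := (ha j).2.2
    rw [hg]
    positivity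
  have hr0 : ∀ j, 0 ≤ r j * (α j * h) := by
    intro j
    have h1 := W_nonneg 2 (a j)
    have h2 := (ha j).2.2
    have h3 : 0 ≤ |ν| + ∑ i, |m i| := by positivity
    rw [hr]
    positivity
  have hvel : ∀ j θ, IsV (vel ν m lam (a j) (z θ)) ∧ SW 3 (vel ν m lam (a j) (z θ)) ∧
      W 3 (vel ν m lam (a j) (z θ)) ≤ lam ^ 2 * eff_D ν m (a j) := fun j θ =>
    eff_vel m (ha j).1.1 (ha j).2.1 (hz θ).1 (hz θ).2.1 hY (hz θ).2.2 hlam
  induction s using Finset.induction_on with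
  | empty =>
    refine ⟨x, hx, ?_, ?_⟩
    · intro δ hδ
      rw [Finset.sum_empty] at hδ
      exact eff_refl hd hν m he hx hδ
    · intro θ
      simpa using hxz θ
  | insert j s hj ih =>
    obtain ⟨x₁, hx₁, hI₁, hb₁⟩ := ih
    set p : Θ → Sq d := fun θ => z θ - h • ∑ l ∈ s, α l • vel ν m lam (a l) (z θ) with hp
    set G : ℝ := ∑ l ∈ s, g l * (α l * h) with hG
    set R : ℝ := ∑ l ∈ s, r l * (α l * h) with hR
    have hG0 : 0 ≤ G := Finset.sum_nonneg fun l _ => hg0 l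
    have hR0 : 0 ≤ R := Finset.sum_nonneg fun l _ => hr0 l
    have hαj := (ha j).2.2
    have hαh : 0 < α j * h := mul_pos hαj hh
    have hsumV : ∀ θ, IsV (∑ l ∈ s, α l • vel ν m lam (a l) (z θ)) := fun θ =>
      IsV.sum s _ fun l _ => (hvel l θ).1.smul _
    have hsumW : ∀ θ, SW 3 (∑ l ∈ s, α l • vel ν m lam (a l) (z θ)) ∧
        W 3 (∑ l ∈ s, α l • vel ν m lam (a l) (z θ))
          ≤ ∑ l ∈ s, W 3 (α l • vel ν m lam (a l) (z θ)) := fun θ =>
      SW.sum s _ fun l _ => (SW.smul (hvel l θ).2.1 _).1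
    have hz3 : ∀ θ, SW 3 (z θ) := fun θ => (SW.mono (hz θ).2.1 (hz θ).1.zero (by norm_num)).1
    have hpV : ∀ θ, IsV (p θ) ∧ SW 3 (p θ) := fun θ =>
      ⟨(hz θ).1.sub ((hsumV θ).smul _), (SW.sub (hz3 θ) (SW.smul (hsumW θ).1 _).1).1⟩
    have hexpG : 1 ≤ Real.exp G := Real.one_le_exp hG0
    have hEs0 : 0 ≤ Real.exp G * (E + R) := by positivity
    -- bound of one more step
    have hstep : Real.exp (g j * (α j * h)) * (Real.exp G * (E + R) + r j * (α j * h))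
        ≤ Real.exp (∑ l ∈ insert j s, g l * (α l * h)) *
          (E + ∑ l ∈ insert j s, r l * (α l * h)) := by
      rw [Finset.sum_insert hj, Finset.sum_insert hj, Real.exp_add, mul_assoc]
      refine mul_le_mul_of_nonneg_left ?_ (Real.exp_pos _).le
      have h1 := hr0 j
      nlinarith
    have hfull : Real.exp (∑ l ∈ insert j s, g l * (α l * h)) *
          (E + ∑ l ∈ insert j s, r l * (α l * h)) < θ₀ := by
      refine lt_of_le_of_lt ?_ hsmall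
      have h1 : ∑ l ∈ insert j s, g l * (α l * h) ≤ ∑ l, g l * (α l * h) :=
        Finset.sum_le_univ_sum_of_nonneg hg0
      have h2 : ∑ l ∈ insert j s, r l * (α l * h) ≤ ∑ l, r l * (α l * h) :=
        Finset.sum_le_univ_sum_of_nonneg hr0
      have h3 : 0 ≤ ∑ l ∈ insert j s, r l * (α l * h) := Finset.sum_nonneg fun l _ => hr0 l
      exact mul_le_mul (Real.exp_le_exp.2 h1) (by linarith) (by linarith) (Real.exp_pos _).le
    have hW3 : ∀ θ, ∀ t ∈ Icc (0 : ℝ) (α j * h),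
        W 3 (p θ - t • vel ν m lam (a j) (z θ) - z θ) ≤ η := by
      intro θ t ht
      have h1 : p θ - t • vel ν m lam (a j) (z θ) - z θ
          = -(h • (∑ l ∈ s, α l • vel ν m lam (a l) (z θ)) + t • vel ν m lam (a j) (z θ)) := by
        rw [hp]
        module
      have hs1 := SW.smul (hsumW θ).1 h
      have hs2 := SW.smul (hvel j θ).2.1 t
      have hs12 := SW.add hs1.1 hs2.1
      rw [h1, (eff_neg hs12.1).2]
      have h2 : W 3 (∑ l ∈ s, α l • vel ν m lam (a l) (z θ))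
          ≤ ∑ l ∈ s, lam ^ 2 * (α l * eff_D ν m (a l)) := by
        refine (hsumW θ).2.trans (Finset.sum_le_sum fun l _ => ?_)
        rw [(SW.smul (hvel l θ).2.1 (α l)).2, abs_of_pos (ha l).2.2]
        have h3 := mul_le_mul_of_nonneg_left (hvel l θ).2.2 (ha l).2.2.le
        calc α l * W 3 (vel ν m lam (a l) (z θ)) ≤ α l * (lam ^ 2 * eff_D ν m (a l)) := h3
          _ = lam ^ 2 * (α l * eff_D ν m (a l)) := by ring
      have h4 : t * W 3 (vel ν m lam (a j) (z θ)) ≤ h * (lam ^ 2 * (α j * eff_D ν m (a j))) := by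
        calc t * W 3 (vel ν m lam (a j) (z θ)) ≤ (α j * h) * (lam ^ 2 * eff_D ν m (a j)) :=
              mul_le_mul ht.2 (hvel j θ).2.2 (W_nonneg _ _) hαh.le
          _ = h * (lam ^ 2 * (α j * eff_D ν m (a j))) := by ring
      have h5 : ∑ l ∈ insert j s, lam ^ 2 * (α l * eff_D ν m (a l))
          ≤ ∑ l, lam ^ 2 * (α l * eff_D ν m (a l)) := by
        refine Finset.sum_le_univ_sum_of_nonneg fun l => ?_
        have := eff_D_nonneg ν m (a l)
        have := (ha l).2.2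
        positivity
      rw [Finset.sum_insert hj] at h5
      calc W 3 (h • (∑ l ∈ s, α l • vel ν m lam (a l) (z θ)) + t • vel ν m lam (a j) (z θ))
          ≤ W 3 (h • (∑ l ∈ s, α l • vel ν m lam (a l) (z θ)))
            + W 3 (t • vel ν m lam (a j) (z θ)) := hs12.2
        _ = h * W 3 (∑ l ∈ s, α l • vel ν m lam (a l) (z θ))
            + t * W 3 (vel ν m lam (a j) (z θ)) := by
              rw [hs1.2, hs2.2, abs_of_pos hh, abs_of_nonneg ht.1]
        _ ≤ h * (∑ l ∈ s, lam ^ 2 * (α l * eff_D ν m (a l)))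
            + h * (lam ^ 2 * (α j * eff_D ν m (a j))) :=
              add_le_add (mul_le_mul_of_nonneg_left h2 hh.le) h4
        _ = h * (lam ^ 2 * (α j * eff_D ν m (a j))
            + ∑ l ∈ s, lam ^ 2 * (α l * eff_D ν m (a l))) := by ring
        _ ≤ h * ∑ l, lam ^ 2 * (α l * eff_D ν m (a l)) := mul_le_mul_of_nonneg_left h5 hh.le
        _ = h * (lam ^ 2 * ∑ l, α l * eff_D ν m (a l)) := by rw [← Finset.mul_sum]
        _ ≤ η := hη
    obtain ⟨x', hx', hI', hb'⟩ := hst (a j) (ha j).1 (ha j).2.1 Θ x₁ hx₁ lam (α j * h) Y η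
      (Real.exp G * (E + R)) hlam0 hαh hY hη0 hEs0 z p hz hpV hW3 hb₁ (g j) (r j) (hg j) (hr j)
      (lt_of_le_of_lt hstep hfull)
    refine ⟨x', hx', ?_, ?_⟩
    · have h1 := eff_trans hI₁ hI'
      intro δ hδ
      refine h1 δ ?_
      rw [Finset.sum_insert hj] at hδ
      linarith
    · intro θ
      have h1 := hb' θ
      have h2 : z θ - h • ∑ l ∈ insert j s, α l • vel ν m lam (a l) (z θ)
          = p θ - (α j * h) • vel ν m lam (a j) (z θ) := by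
        rw [Finset.sum_insert hj, hp]
        module
      rw [h2]
      exact h1.trans hstep

lemma eff_Mu_sum (ν : ℝ) (m : Fin d → ℝ) {N : ℕ} (α : Fin N → ℝ) (a : Fin N → Sq d) :
    Mu ν m (∑ j, α j • a j) = ∑ j, α j • Mu ν m (a j) := by
  classical
  have h : ∀ s : Finset (Fin N), Mu ν m (∑ j ∈ s, α j • a j) = ∑ j ∈ s, α j • Mu ν m (a j) := by
    intro s
    induction s using Finset.induction_on with
    | empty =>
      funext k
      simp [Mu]
    | insert j s hj ih =>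
      rw [Finset.sum_insert hj, Finset.sum_insert hj, Mu_add, Mu_smul, ih]
  exact h _

/-- one cycle, including the jumps -/
lemma eff_cycle (hd : d = 2 ∨ d = 3) {ν : ℝ} (hν : 0 < ν) (m : Fin d → ℝ) {θ₀ : ℝ}
    {e : Fin n → Sq d} (he : ∀ i, IsV (e i) ∧ SW 4 (e i)) (hst : EffStage ν m e θ₀)
    {N : ℕ} (a : Fin N → Sq d) (α : Fin N → ℝ)
    (ha : ∀ j, a j ∈ DD ν m e ∧ Rap (a j) ∧ 0 < α j) (hα : ∑ j, α j = 1)
    (hβ : (∑ j, α j • Bk (a j) (a j)) ∈ DD ν m e)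
    {lam h Y η E ρ : ℝ} (hlam : Y + 1 ≤ lam) (hh : 0 < h) (hY : 0 ≤ Y)
    (hη : h * (lam ^ 2 * ∑ j, α j * eff_D ν m (a j)) ≤ η) (hη0 : 0 ≤ η) (hη1 : η ≤ 1)
    (hE : 0 ≤ E)
    {Θ : Type} [TopologicalSpace Θ] [CompactSpace Θ] {x : Θ → Sq d} (hx : VCont x)
    {s : Θ → ℝ} (hs : Continuous s) (z z' : Θ → Sq d) (σ : Sq d) (hσ : σ ∈ DD ν m e)
    (hz : ∀ θ, IsV (z θ) ∧ SW 4 (z θ) ∧ W 4 (z θ) ≤ Y)
    (hz' : ∀ θ, IsV (z' θ))
    (hzz : ∀ θ, n1 (z' θ - z θ +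
        (h * lam) • (Lk (∑ i, α i • a i) (z θ) + Mu ν m (∑ i, α i • a i))
        - (h * lam) • (s θ • σ)) ≤ h * lam * ρ)
    (hxz : ∀ θ, n1 (x θ - z θ) ≤ E) (A0 R0 : ℝ) (hA0 : A0 = ∑ j, α j * W 2 (a j))
    (hR0 : R0 = 2 * (Y + 1) ^ 2 + (|ν| + ∑ i, |m i|) * (Y + 1))
    (hsmall : Real.exp (3 * (h * lam) * (A0 + 1)) *
      (E + (h * lam) * (4 * A0 * η + R0 / lam)) < θ₀) :
    ∃ x' : Θ → Sq d, VCont x' ∧ (∀ δ > h, Inst ν m e δ x x') ∧
      ∀ θ, n1 (x' θ - z' θ) ≤ Real.exp (3 * (h * lam) * (A0 + 1)) *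
        (E + (h * lam) * (4 * A0 * η + R0 / lam)) + h * lam * ρ := by
  classical
  have hlam1 : 1 ≤ lam := by linarith
  have hlam0 : 0 < lam := by linarith
  have hc0 : 0 ≤ |ν| + ∑ i, |m i| := by positivity
  set c₀ : ℝ := |ν| + ∑ i, |m i| with hc₀
  set g : Fin N → ℝ := fun j => 3 * (lam * W 2 (a j) + Y + η) with hg
  set r : Fin N → ℝ := fun j => 4 * lam * W 2 (a j) * η + 2 * (Y + η) ^ 2 + c₀ * (Y + η) with hr
  have hA0' : 0 ≤ A0 := by
    rw [hA0]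
    exact Finset.sum_nonneg fun j _ => mul_nonneg (ha j).2.2.le (W_nonneg _ _)
  have hR0' : 0 ≤ R0 := by rw [hR0]; positivity
  have hG : ∑ j, g j * (α j * h) = 3 * h * (lam * A0 + Y + η) := by
    have h1 : ∀ j, g j * (α j * h) = 3 * h * lam * (α j * W 2 (a j)) + 3 * h * (Y + η) * α j := by
      intro j
      rw [hg]
      ring
    rw [Finset.sum_congr rfl fun j _ => h1 j, Finset.sum_add_distrib, ← Finset.mul_sum,
      ← Finset.mul_sum, hα, ← hA0]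
    ring
  have hR : ∑ j, r j * (α j * h)
      = h * (4 * lam * A0 * η + 2 * (Y + η) ^ 2 + c₀ * (Y + η)) := by
    have h1 : ∀ j, r j * (α j * h) = 4 * h * lam * η * (α j * W 2 (a j))
        + h * (2 * (Y + η) ^ 2 + c₀ * (Y + η)) * α j := by
      intro j
      rw [hr]
      ring
    rw [Finset.sum_congr rfl fun j _ => h1 j, Finset.sum_add_distrib, ← Finset.mul_sum,
      ← Finset.mul_sum, hα, ← hA0]
    ring
  have hGle : ∑ j, g j * (α j * h) ≤ 3 * (h * lam) * (A0 + 1) := by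
    rw [hG]
    nlinarith [mul_nonneg hh.le (sub_nonneg.2 (show Y + η ≤ lam by linarith))]
  have hRle : ∑ j, r j * (α j * h) ≤ (h * lam) * (4 * A0 * η + R0 / lam) := by
    rw [hR]
    have h2 : (h * lam) * (4 * A0 * η + R0 / lam) = h * (4 * lam * A0 * η + R0) := by
      field_simp
    rw [h2]
    refine mul_le_mul_of_nonneg_left ?_ hh.le
    have h3 : (Y + η) ^ 2 ≤ (Y + 1) ^ 2 := by nlinarith
    have h4 : c₀ * (Y + η) ≤ c₀ * (Y + 1) := mul_le_mul_of_nonneg_left (by linarith) hc0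
    rw [hR0]
    linarith
  have hR00 : 0 ≤ ∑ j, r j * (α j * h) := by
    rw [hR]
    positivity
  have hbd : Real.exp (∑ j, g j * (α j * h)) * (E + ∑ j, r j * (α j * h))
      ≤ Real.exp (3 * (h * lam) * (A0 + 1)) * (E + (h * lam) * (4 * A0 * η + R0 / lam)) :=
    mul_le_mul (Real.exp_le_exp.2 hGle) (by linarith) (by linarith) (Real.exp_pos _).le
  obtain ⟨x₁, hx₁, hI₁, hb₁⟩ := eff_stages hd hν m he hst a α ha hlam hh hY hη hη0 hE hx z hz hxz
    g r (fun j => rfl) (fun j => rfl) (lt_of_le_of_lt hbd hsmall) Finset.univ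
  set β : Sq d := ∑ j, α j • Bk (a j) (a j) with hβd
  have hβV : IsV β := hβ.1
  have hσV : IsV σ := hσ.1
  -- first jump
  have hx₂ : VCont (fun θ => x₁ θ + (fun _ : Θ => h * lam ^ 2) θ • β) :=
    hx₁.add_smul continuous_const hβV
  have hI₂ : ∀ δ > 0, Inst ν m e δ x₁ (fun θ => x₁ θ + (fun _ : Θ => h * lam ^ 2) θ • β) :=
    fun δ hδ => hβ.2 Θ x₁ hx₁ (fun _ => h * lam ^ 2) continuous_const δ hδ
  -- second jump
  have hs' : Continuous (fun θ => (h * lam) * s θ) := continuous_const.mul hs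
  have hx₃ := hx₂.add_smul hs' hσV
  have hI₃ : ∀ δ > 0, Inst ν m e δ (fun θ => x₁ θ + (fun _ : Θ => h * lam ^ 2) θ • β)
      (fun θ => (fun θ => x₁ θ + (fun _ : Θ => h * lam ^ 2) θ • β) θ + ((h * lam) * s θ) • σ) :=
    fun δ hδ => hσ.2 Θ _ hx₂ _ hs' δ hδ
  refine ⟨_, hx₃, ?_, ?_⟩
  · have h1 := eff_trans (eff_trans hI₁ hI₂) hI₃
    intro δ hδ
    refine h1 δ ?_
    rw [← Finset.sum_mul, hα]
    linarith
  · intro θ
    have hvel : ∀ j, IsV (vel ν m lam (a j) (z θ)) := fun j =>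
      (eff_vel m (ha j).1.1 (ha j).2.1 (hz θ).1 (hz θ).2.1 hY (hz θ).2.2 hlam).1
    set P : Sq d := z θ - h • ∑ j, α j • vel ν m lam (a j) (z θ) with hP
    have hPV : IsV P := (hz θ).1.sub ((IsV.sum _ _ fun j _ => (hvel j).smul _).smul _)
    have hPe : P + (h * lam ^ 2) • β = z θ
        - (h * lam) • (Lk (∑ i, α i • a i) (z θ) + Mu ν m (∑ i, α i • a i)) := by
      rw [hP, Lk_sum_left (fun j => (ha j).1.1) (hz θ).1, eff_Mu_sum]
      have h2 : ∑ j, α j • vel ν m lam (a j) (z θ) = lam ^ 2 • β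
          + lam • (∑ j, α j • Lk (a j) (z θ)) + lam • ∑ j, α j • Mu ν m (a j) := by
        rw [hβd, Finset.smul_sum, Finset.smul_sum, Finset.smul_sum, ← Finset.sum_add_distrib,
          ← Finset.sum_add_distrib]
        refine Finset.sum_congr rfl fun j _ => ?_
        unfold vel
        module
      rw [h2]
      module
    set Q : Sq d := P + (h * lam ^ 2) • β + ((h * lam) * s θ) • σ with hQ
    have hQV : IsV Q := (hPV.add (hβV.smul _)).add (hσV.smul _)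
    have e1 : (x₁ θ + (h * lam ^ 2) • β + ((h * lam) * s θ) • σ) - Q = x₁ θ - P := by
      rw [hQ]
      abel
    have e2 : Q - z' θ = -(z' θ - z θ +
        (h * lam) • (Lk (∑ i, α i • a i) (z θ) + Mu ν m (∑ i, α i • a i))
        - (h * lam) • (s θ • σ)) := by
      rw [hQ, hPe]
      module
    have h3 : n1 ((x₁ θ + (h * lam ^ 2) • β + ((h * lam) * s θ) • σ) - z' θ)
        ≤ n1 ((x₁ θ + (h * lam ^ 2) • β + ((h * lam) * s θ) • σ) - Q) + n1 (Q - z' θ) :=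
      n1_tri (hx₃.V θ) hQV (hz' θ)
    rw [e1, e2, n1_neg] at h3
    have h4 := hb₁ θ
    have h5 := hzz θ
    show n1 ((x₁ θ + (h * lam ^ 2) • β + ((h * lam) * s θ) • σ) - z' θ) ≤ _
    linarith

theorem eff (hd : d = 2 ∨ d = 3) {ν : ℝ} (hν : 0 < ν) (m : Fin d → ℝ) :
    ∃ θ₀ > 0, ∀ (n : ℕ) (e : Fin n → Sq d), (∀ i, IsV (e i) ∧ SW 4 (e i)) →
      ∀ (N : ℕ) (a : Fin N → Sq d) (α : Fin N → ℝ),
      (∀ j, a j ∈ DD ν m e ∧ Rap (a j) ∧ 0 < α j) → ∑ j, α j = 1 →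
      (∑ j, α j • Bk (a j) (a j)) ∈ DD ν m e →
      ∀ (τ Y : ℝ), 0 < τ → 0 ≤ Y → ∃ C : ℝ, 0 ≤ C ∧
      ∀ (lam : ℝ), Y + 1 ≤ lam → ∀ M : ℕ, 0 < M →
      ∀ (Θ : Type) [TopologicalSpace Θ] [CompactSpace Θ] (x : Θ → Sq d), VCont x →
      ∀ (s : Θ → ℝ), Continuous s → ∀ (z : ℕ → Θ → Sq d) (σ : ℕ → Sq d) (ρ E : ℝ),
      0 ≤ ρ → 0 ≤ E →
      (∀ j ≤ M, ∀ θ, IsV (z j θ) ∧ SW 4 (z j θ) ∧ W 4 (z j θ) ≤ Y) →
      (∀ j < M, σ j ∈ DD ν m e) →
      (∀ j < M, ∀ θ, n1 (z (j + 1) θ - z j θ +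
        (τ / M) • (Lk (∑ i, α i • a i) (z j θ) + Mu ν m (∑ i, α i • a i))
        - (τ / M) • (s θ • σ j)) ≤ τ / M * ρ) →
      (∀ θ, n1 (x θ - z 0 θ) ≤ E) →
      ∀ (Q : ℝ), Q = Real.exp (3 * τ * (∑ j, α j * W 2 (a j) + 1)) *
        (E + τ * ρ + C * (1 / lam + lam / M)) → Q < θ₀ →
      ∃ x' : Θ → Sq d, VCont x' ∧ (∀ δ > τ / lam, Inst ν m e δ x x') ∧
        ∀ θ, n1 (x' θ - z M θ) ≤ Q := by
  obtain ⟨θ₀, hθ₀, hstage⟩ := stage hd hν m
  refine ⟨θ₀, hθ₀, ?_⟩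
  intro n e he N a α ha hα hβ τ Y hτ hY
  have hst : EffStage ν m e θ₀ := hstage n e he
  set A0 : ℝ := ∑ j, α j * W 2 (a j) with hA0
  set D1 : ℝ := ∑ j, α j * eff_D ν m (a j) with hD1
  set R0 : ℝ := 2 * (Y + 1) ^ 2 + (|ν| + ∑ i, |m i|) * (Y + 1) with hR0
  have hA0' : 0 ≤ A0 := Finset.sum_nonneg fun j _ => mul_nonneg (ha j).2.2.le (W_nonneg _ _)
  have hD1' : 0 ≤ D1 := Finset.sum_nonneg fun j _ => mul_nonneg (ha j).2.2.le (eff_D_nonneg _ _ _)
  have hR0' : 0 ≤ R0 := by rw [hR0]; positivity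
  refine ⟨τ * (4 * A0 * (τ * D1) + R0) + θ₀ * (τ * D1), by positivity, ?_⟩
  intro lam hlam M hM Θ _ _ x hx s hs z σ ρ E hρ hE hz hσ hzz hxz Q hQ hQθ
  set C : ℝ := τ * (4 * A0 * (τ * D1) + R0) + θ₀ * (τ * D1) with hC
  have hC0 : 0 ≤ C := by positivity
  have hlam0 : 0 < lam := by linarith
  have hM0 : (0 : ℝ) < M := by exact_mod_cast hM
  set h : ℝ := τ / (M * lam) with hh
  have hh0 : 0 < h := by positivity
  have hκ : h * lam = τ / M := by
    rw [hh]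
    field_simp
  set κ : ℝ := τ / M with hκd
  have hκ0 : 0 < κ := by positivity
  set η : ℝ := κ * lam * D1 with hη
  have hη0 : 0 ≤ η := by positivity
  have hηh : h * (lam ^ 2 * D1) ≤ η := by
    rw [hη, ← hκ]
    apply le_of_eq
    ring
  have hexp1 : 1 ≤ Real.exp (3 * τ * (A0 + 1)) := Real.one_le_exp (by positivity)
  have hη1 : η ≤ 1 := by
    have h1 : C * (lam / M) ≤ Q := by
      rw [hQ]
      have h2 : 0 ≤ E + τ * ρ + C * (1 / lam + lam / M) := by positivity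
      have h3 : C * (lam / M) ≤ E + τ * ρ + C * (1 / lam + lam / M) := by
        have : 0 ≤ C * (1 / lam) := by positivity
        have : 0 ≤ τ * ρ := by positivity
        nlinarith
      calc C * (lam / M) ≤ 1 * (E + τ * ρ + C * (1 / lam + lam / M)) := by rw [one_mul]; exact h3
        _ ≤ _ := mul_le_mul_of_nonneg_right hexp1 h2
    have h4 : θ₀ * η ≤ C * (lam / M) := by
      have h5 : θ₀ * η = θ₀ * (τ * D1) * (lam / M) := by
        rw [hη, hκd]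
        ring
      rw [h5]
      refine mul_le_mul_of_nonneg_right ?_ (by positivity)
      rw [hC]
      have : 0 ≤ τ * (4 * A0 * (τ * D1) + R0) := by positivity
      linarith
    have h6 : θ₀ * η < θ₀ * 1 := by rw [mul_one]; linarith
    exact (lt_of_mul_lt_mul_left h6 hθ₀.le).le
  set C1 : ℝ := 4 * A0 * η + R0 / lam with hC1
  have hC10 : 0 ≤ C1 := by positivity
  have hτC1 : τ * C1 ≤ C * (1 / lam + lam / M) := by
    have h1 : τ * C1 = τ * (4 * A0 * (τ * D1)) * (lam / M) + τ * R0 * (1 / lam) := by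
      rw [hC1, hη, hκd]
      ring
    rw [h1, hC]
    have h2 : 0 ≤ lam / M := by positivity
    have h3 : 0 ≤ 1 / lam := by positivity
    have h4 : 0 ≤ τ * (4 * A0 * (τ * D1)) := by positivity
    have h5 : 0 ≤ τ * R0 := by positivity
    have h6 : 0 ≤ θ₀ * (τ * D1) := by positivity
    nlinarith [mul_nonneg h4 h3, mul_nonneg h5 h2, mul_nonneg h6 h2, mul_nonneg h6 h3]
  -- bounds for all intermediate steps
  have hbound : ∀ j : ℕ, j ≤ M → Real.exp (3 * κ * (A0 + 1) * j) * (E + j * (κ * C1 + κ * ρ)) ≤ Q := by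
    intro j hj
    have hjM : (j : ℝ) ≤ M := by exact_mod_cast hj
    have hjκ : κ * j ≤ τ := by
      rw [hκd, div_mul_eq_mul_div, div_le_iff₀ hM0]
      exact mul_le_mul_of_nonneg_left hjM hτ.le
    rw [hQ]
    refine mul_le_mul (Real.exp_le_exp.2 ?_) ?_ (by positivity) (Real.exp_pos _).le
    · nlinarith
    · have h1 : (j : ℝ) * (κ * C1 + κ * ρ) = (κ * j) * (C1 + ρ) := by ring
      have h2 : (κ * j) * (C1 + ρ) ≤ τ * (C1 + ρ) :=
        mul_le_mul_of_nonneg_right hjκ (by positivity)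
      rw [h1]
      nlinarith
  have key : ∀ j : ℕ, j ≤ M → ∃ x' : Θ → Sq d, VCont x' ∧ (∀ δ > j * h, Inst ν m e δ x x') ∧
      ∀ θ, n1 (x' θ - z j θ) ≤ Real.exp (3 * κ * (A0 + 1) * j) * (E + j * (κ * C1 + κ * ρ)) := by
    intro j
    induction j with
    | zero =>
      intro _
      refine ⟨x, hx, ?_, ?_⟩
      · intro δ hδ
        refine eff_refl hd hν m he hx ?_
        simpa using hδ
      · intro θ
        simpa using hxz θ
    | succ j ih =>
      intro hj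
      have hjM : j < M := hj
      obtain ⟨x₁, hx₁, hI₁, hb₁⟩ := ih hjM.le
      set E₁ : ℝ := Real.exp (3 * κ * (A0 + 1) * j) * (E + j * (κ * C1 + κ * ρ)) with hE₁
      have hE₁0 : 0 ≤ E₁ := by positivity
      have hstep : Real.exp (3 * κ * (A0 + 1)) * (E₁ + κ * C1) + κ * ρ
          ≤ Real.exp (3 * κ * (A0 + 1) * ((j + 1 : ℕ) : ℝ)) *
            (E + ((j + 1 : ℕ) : ℝ) * (κ * C1 + κ * ρ)) := by
        have h1 : Real.exp (3 * κ * (A0 + 1) * ((j + 1 : ℕ) : ℝ))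
            = Real.exp (3 * κ * (A0 + 1)) * Real.exp (3 * κ * (A0 + 1) * j) := by
          rw [← Real.exp_add]
          congr 1
          push_cast
          ring
        rw [h1, hE₁]
        set X := Real.exp (3 * κ * (A0 + 1)) with hX
        set Z := Real.exp (3 * κ * (A0 + 1) * j) with hZ
        have hX1 : 1 ≤ X := Real.one_le_exp (by positivity)
        have hZ1 : 1 ≤ Z := Real.one_le_exp (by positivity)
        have hXZ : 1 ≤ X * Z := one_le_mul_of_one_le_of_one_le hX1 hZ1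
        have h2 : κ * ρ ≤ X * Z * (κ * ρ) := le_mul_of_one_le_left (by positivity) hXZ
        have h3 : X * (κ * C1) ≤ X * Z * (κ * C1) :=
          mul_le_mul_of_nonneg_right (le_mul_of_one_le_right (by positivity) hZ1) (by positivity)
        push_cast
        nlinarith
      have hle : Real.exp (3 * κ * (A0 + 1)) * (E₁ + κ * C1) < θ₀ := by
        have h1 := hbound (j + 1) hj
        have h2 : 0 ≤ κ * ρ := by positivity
        linarith
      obtain ⟨x', hx', hI', hb'⟩ := eff_cycle hd hν m he hst a α ha hα hβ hlam hh0 hY hηh hη0 hη1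
        hE₁0 hx₁ hs (z j) (z (j + 1)) (σ j) (hσ j hjM) (hz j hjM.le) (fun θ => (hz (j + 1) hj θ).1)
        (ρ := ρ) (by rw [hκ]; exact hzz j hjM) hb₁ A0 R0 hA0 hR0 (by rw [hκ]; exact hle)
      refine ⟨x', hx', ?_, ?_⟩
      · have h1 := eff_trans hI₁ hI'
        intro δ hδ
        refine h1 δ ?_
        push_cast at hδ
        linarith
      · intro θ
        have h1 := hb' θ
        rw [hκ] at h1
        exact h1.trans hstep
  obtain ⟨x', hx', hI', hb'⟩ := key M le_rfl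
  refine ⟨x', hx', ?_, fun θ => (hb' θ).trans (hbound M le_rfl)⟩
  intro δ hδ
  refine hI' δ ?_
  have : (M : ℝ) * h = τ / lam := by
    rw [hh]
    field_simp
  rw [this]
  exact hδ

end NSC
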