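import Pool.Agent.Work.MP_57e339_an.BkB

/-! Module EstA (auxiliary to EstS and EstC): double sums over the support. -/

open MeasureTheory Set Filter Topology
open scoped BigOperators
noncomputable section
namespace NSC
variable {d : ℕ}

/-- the support of a finitely supported sequence -/
def estaS {z : Sq d} (hf : FS z) : Finset (K d) := Set.Finite.toFinset hf

theorem esta_mem {z : Sq d} (hf : FS z) {l : K d} : l ∈ estaS hf ↔ z l ≠ 0 :=
  Set.Finite.mem_toFinset hf

theorem esta_bk_right {a z : Sq d} (hz : IsV z) (hf : FS z) {k : K d} (hk : k ≠ 0) :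
    inner ℂ (z k) (Bk a z k) =
      Complex.I * ∑ l ∈ estaS hf, dot k (a (k - l)) * inner ℂ (z k) (z l) := by
  unfold Bk
  rw [inner_smul_right, inner_Pk hk (hz.dv k)]
  congr 1
  have h1 : (∑' j, dot k (a j) • z (k - j)) = ∑ l ∈ estaS hf, dot k (a (k - l)) • z l := by
    rw [← (Equiv.subLeft k).tsum_eq (fun l => dot k (a l) • z (k - l))]
    rw [tsum_eq_sum (s := estaS hf)]
    · apply Finset.sum_congr rfl
      intro l _
      simp [Equiv.subLeft]
    · intro l hl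
      have : z l = 0 := by
        by_contra h
        exact hl ((esta_mem hf).2 h)
      simp [Equiv.subLeft, this]
  rw [h1, inner_sum]
  apply Finset.sum_congr rfl
  intro l _
  rw [inner_smul_right]

theorem esta_bk_left {w z : Sq d} (hz : IsV z) (hf : FS z) {k : K d} (hk : k ≠ 0) :
    inner ℂ (z k) (Bk z w k) =
      Complex.I * ∑ j ∈ estaS hf, dot k (z j) * inner ℂ (z k) (w (k - j)) := by
  unfold Bk
  rw [inner_smul_right, inner_Pk hk (hz.dv k)]
  congr 1
  have h1 : (∑' j, dot k (z j) • w (k - j)) = ∑ j ∈ estaS hf, dot k (z j) • w (k - j) := by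
    apply tsum_eq_sum
    intro l hl
    have : z l = 0 := by
      by_contra h
      exact hl ((esta_mem hf).2 h)
    simp [this, dot_zero]
  rw [h1, inner_sum]
  apply Finset.sum_congr rfl
  intro l _
  rw [inner_smul_right]

/-- the summand of `⟨z, B(a, z)⟩` -/
def estaF (a z : Sq d) (k l : K d) : ℝ :=
  (Complex.I * (dot k (a (k - l)) * inner ℂ (z k) (z l))).re

/-- the summand of `⟨z, B(z, w)⟩` -/
def estaG (z w : Sq d) (k j : K d) : ℝ :=
  (Complex.I * (dot k (z j) * inner ℂ (z k) (w (k - j)))).re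

theorem esta_zero_notMem {z : Sq d} (hf : FS z) {l : K d} (hl : l ∉ estaS hf) : z l = 0 := by
  by_contra h
  exact hl ((esta_mem hf).2 h)

theorem esta_ne_zero {z : Sq d} (hz : IsV z) (hf : FS z) {l : K d} (hl : l ∈ estaS hf) :
    l ≠ 0 := by
  rintro rfl
  have : z 0 ≠ 0 := (esta_mem hf).1 hl
  exact this hz.zero

theorem esta_sum_right {a z : Sq d} (hz : IsV z) (hf : FS z) (ω : K d → ℝ) :
    ∑' k, ω k * (inner ℂ (z k) (Bk a z k)).re =
      ∑ k ∈ estaS hf, ∑ l ∈ estaS hf, ω k * estaF a z k l := by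
  rw [tsum_eq_sum (s := estaS hf)]
  · apply Finset.sum_congr rfl
    intro k hk
    rw [esta_bk_right hz hf (esta_ne_zero hz hf hk), Finset.mul_sum, Complex.re_sum,
      Finset.mul_sum]
    rfl
  · intro k hk
    rw [esta_zero_notMem hf hk]
    simp

theorem esta_sum_left {w z : Sq d} (hz : IsV z) (hf : FS z) (ω : K d → ℝ) :
    ∑' k, ω k * (inner ℂ (z k) (Bk z w k)).re =
      ∑ k ∈ estaS hf, ∑ l ∈ estaS hf, ω k * estaG z w k l := by
  rw [tsum_eq_sum (s := estaS hf)]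
  · apply Finset.sum_congr rfl
    intro k hk
    rw [esta_bk_left hz hf (esta_ne_zero hz hf hk), Finset.mul_sum, Complex.re_sum,
      Finset.mul_sum]
    rfl
  · intro k hk
    rw [esta_zero_notMem hf hk]
    simp

theorem esta_sum_sq {z : Sq d} (hf : FS z) (n : ℕ) :
    ∑' k, nk k ^ n * ‖z k‖ ^ 2 = ∑ k ∈ estaS hf, nk k ^ n * ‖z k‖ ^ 2 := by
  apply tsum_eq_sum
  intro k hk
  rw [esta_zero_notMem hf hk]
  simp

theorem esta_dot_left {a : Sq d} (ha : IsV a) (k l : K d) :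
    dot k (a (k - l)) = dot l (a (k - l)) := by
  have h := ha.dv (k - l)
  rw [dot_sub_left] at h
  exact sub_eq_zero.1 h

theorem esta_dot_right {z : Sq d} (hz : IsV z) (k j : K d) :
    dot k (z j) = dot (k - j) (z j) := by
  rw [dot_sub_left, hz.dv j, sub_zero]

theorem estaF_swap {a z : Sq d} (ha : IsV a) (k l : K d) : estaF a z l k = -estaF a z k l := by
  unfold estaF
  have h1 : a (l - k) = cj (a (k - l)) := by
    rw [← ha.sy (k - l), neg_sub]
  have h2 : (inner ℂ (z l) (z k) : ℂ) = (starRingEnd ℂ) (inner ℂ (z k) (z l)) :=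
    (inner_conj_symm _ _).symm
  rw [h1, dot_cj, ← esta_dot_left ha k l, h2, ← map_mul]
  simp only [Complex.mul_re, Complex.I_re, Complex.I_im, Complex.conj_re, Complex.conj_im]
  ring

theorem abs_estaF_le_right {a z : Sq d} (ha : IsV a) (k l : K d) :
    |estaF a z k l| ≤ nk l * (‖a (k - l)‖ * (‖z k‖ * ‖z l‖)) := by
  unfold estaF
  refine (Complex.abs_re_le_norm _).trans ?_
  rw [norm_mul, Complex.norm_I, one_mul, norm_mul, esta_dot_left ha]
  have h1 := norm_dot_le l (a (k - l))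
  have h2 := norm_inner_le_norm (𝕜 := ℂ) (z k) (z l)
  calc ‖dot l (a (k - l))‖ * ‖inner ℂ (z k) (z l)‖
      ≤ (nk l * ‖a (k - l)‖) * (‖z k‖ * ‖z l‖) :=
        mul_le_mul h1 h2 (norm_nonneg _) (mul_nonneg (nk_nonneg _) (norm_nonneg _))
    _ = _ := by ring

theorem abs_estaF_le_left {a z : Sq d} (k l : K d) :
    |estaF a z k l| ≤ nk k * (‖a (k - l)‖ * (‖z k‖ * ‖z l‖)) := by
  unfold estaF
  refine (Complex.abs_re_le_norm _).trans ?_
  rw [norm_mul, Complex.norm_I, one_mul, norm_mul]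
  have h1 := norm_dot_le k (a (k - l))
  have h2 := norm_inner_le_norm (𝕜 := ℂ) (z k) (z l)
  calc ‖dot k (a (k - l))‖ * ‖inner ℂ (z k) (z l)‖
      ≤ (nk k * ‖a (k - l)‖) * (‖z k‖ * ‖z l‖) :=
        mul_le_mul h1 h2 (norm_nonneg _) (mul_nonneg (nk_nonneg _) (norm_nonneg _))
    _ = _ := by ring

theorem abs_estaG_le {w z : Sq d} (hz : IsV z) (k j : K d) :
    |estaG z w k j| ≤ nk (k - j) * (‖w (k - j)‖ * (‖z k‖ * ‖z j‖)) := by
  unfold estaG
  refine (Complex.abs_re_le_norm _).trans ?_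
  rw [norm_mul, Complex.norm_I, one_mul, norm_mul, esta_dot_right hz]
  have h1 := norm_dot_le (k - j) (z j)
  have h2 := norm_inner_le_norm (𝕜 := ℂ) (z k) (w (k - j))
  calc ‖dot (k - j) (z j)‖ * ‖inner ℂ (z k) (w (k - j))‖
      ≤ (nk (k - j) * ‖z j‖) * (‖z k‖ * ‖w (k - j)‖) :=
        mul_le_mul h1 h2 (norm_nonneg _) (mul_nonneg (nk_nonneg _) (norm_nonneg _))
    _ = _ := by ring

theorem esta_row {S : Finset (K d)} {α : K d → ℝ} (hα : ∀ j, 0 ≤ α j) (hs : Summable α)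
    (k : K d) : ∑ l ∈ S, α (k - l) ≤ ∑' j, α j := by
  have hinj : Set.InjOn (fun l => k - l) (S : Set (K d)) := by
    intro x _ y _ h
    exact sub_right_injective h
  rw [← Finset.sum_image (f := α) hinj]
  exact hs.sum_le_tsum _ fun j _ => hα j

theorem esta_col {S : Finset (K d)} {α : K d → ℝ} (hα : ∀ j, 0 ≤ α j) (hs : Summable α)
    (l : K d) : ∑ k ∈ S, α (k - l) ≤ ∑' j, α j := by
  have hinj : Set.InjOn (fun k => k - l) (S : Set (K d)) := by
    intro x _ y _ h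
    exact sub_left_injective h
  rw [← Finset.sum_image (f := α) hinj]
  exact hs.sum_le_tsum _ fun j _ => hα j

theorem esta_sum_col {S : Finset (K d)} {α g : K d → ℝ} (hα : ∀ j, 0 ≤ α j) (hs : Summable α)
    (hg : ∀ j, 0 ≤ g j) :
    ∑ k ∈ S, ∑ l ∈ S, α (k - l) * g l ≤ (∑' j, α j) * ∑ l ∈ S, g l := by
  rw [Finset.sum_comm, Finset.mul_sum]
  apply Finset.sum_le_sum
  intro l _
  rw [← Finset.sum_mul]
  exact mul_le_mul_of_nonneg_right (esta_col hα hs l) (hg l)

theorem esta_sum_row {S : Finset (K d)} {α g : K d → ℝ} (hα : ∀ j, 0 ≤ α j) (hs : Summable α)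
    (hg : ∀ j, 0 ≤ g j) :
    ∑ k ∈ S, ∑ l ∈ S, α (k - l) * g k ≤ (∑' j, α j) * ∑ l ∈ S, g l := by
  rw [Finset.mul_sum]
  apply Finset.sum_le_sum
  intro k _
  rw [← Finset.sum_mul]
  exact mul_le_mul_of_nonneg_right (esta_row hα hs k) (hg k)

theorem esta_mul_sum (S : Finset (K d)) (c : ℝ) (t : K d → K d → ℝ) :
    ∑ k ∈ S, ∑ l ∈ S, c * t k l = c * ∑ k ∈ S, ∑ l ∈ S, t k l := by
  rw [Finset.mul_sum]
  exact Finset.sum_congr rfl fun k _ => (Finset.mul_sum _ _ _).symm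

theorem esta_schur {S : Finset (K d)} {α b : K d → ℝ} (hα : ∀ j, 0 ≤ α j) (hs : Summable α) :
    ∑ k ∈ S, ∑ l ∈ S, α (k - l) * (b k * b l) ≤ (∑' j, α j) * ∑ l ∈ S, b l ^ 2 := by
  have h1 := esta_sum_col (S := S) hα hs (g := fun l => b l ^ 2) (fun l => sq_nonneg _)
  have h2 := esta_sum_row (S := S) hα hs (g := fun l => b l ^ 2) (fun l => sq_nonneg _)
  have h3 : ∑ k ∈ S, ∑ l ∈ S, α (k - l) * (b k * b l) ≤
      ∑ k ∈ S, ∑ l ∈ S, (1 / 2 * (α (k - l) * b l ^ 2) + 1 / 2 * (α (k - l) * b k ^ 2)) := by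
    apply Finset.sum_le_sum
    intro k _
    apply Finset.sum_le_sum
    intro l _
    nlinarith [mul_nonneg (hα (k - l)) (sq_nonneg (b k - b l))]
  simp only [Finset.sum_add_distrib, ← Finset.mul_sum] at h3
  linarith

end NSC
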