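import Pool.Agent.Work.MP_57e339_an.EstA

/-! Module EstC: the cubic estimate and the estimate with a rough background. -/

open MeasureTheory Set Filter Topology
open scoped BigOperators
noncomputable section
namespace NSC
variable {d : ℕ}

theorem estc_bil {S : Finset (K d)} {α x y : K d → ℝ} (hα : ∀ j, 0 ≤ α j) (hs : Summable α) :
    (∑ k ∈ S, ∑ l ∈ S, α (k - l) * (x k * y l)) ^ 2 ≤
      (∑' j, α j) ^ 2 * ((∑ k ∈ S, x k ^ 2) * ∑ l ∈ S, y l ^ 2) := by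
  have h1 := Finset.sum_mul_sq_le_sq_mul_sq (S ×ˢ S)
    (fun p : K d × K d => Real.sqrt (α (p.1 - p.2)) * x p.1)
    (fun p : K d × K d => Real.sqrt (α (p.1 - p.2)) * y p.2)
  rw [Finset.sum_product, Finset.sum_product, Finset.sum_product] at h1
  have h2 : ∑ k ∈ S, ∑ l ∈ S, α (k - l) * (x k * y l) =
      ∑ k ∈ S, ∑ l ∈ S, Real.sqrt (α (k - l)) * x k * (Real.sqrt (α (k - l)) * y l) := by
    apply Finset.sum_congr rfl
    intro k _
    apply Finset.sum_congr rfl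
    intro l _
    nth_rw 1 [← Real.mul_self_sqrt (hα (k - l))]
    ring
  have h3 : ∑ k ∈ S, ∑ l ∈ S, (Real.sqrt (α (k - l)) * x k) ^ 2 =
      ∑ k ∈ S, ∑ l ∈ S, α (k - l) * x k ^ 2 := by
    apply Finset.sum_congr rfl
    intro k _
    apply Finset.sum_congr rfl
    intro l _
    rw [mul_pow, Real.sq_sqrt (hα _)]
  have h4 : ∑ k ∈ S, ∑ l ∈ S, (Real.sqrt (α (k - l)) * y l) ^ 2 =
      ∑ k ∈ S, ∑ l ∈ S, α (k - l) * y l ^ 2 := by
    apply Finset.sum_congr rfl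
    intro k _
    apply Finset.sum_congr rfl
    intro l _
    rw [mul_pow, Real.sq_sqrt (hα _)]
  rw [h2]
  refine h1.trans ?_
  simp only at h3 h4 ⊢
  rw [h3, h4]
  have h5 := esta_sum_row (S := S) hα hs (g := fun l => x l ^ 2) (fun l => sq_nonneg _)
  have h6 := esta_sum_col (S := S) hα hs (g := fun l => y l ^ 2) (fun l => sq_nonneg _)
  have h7 : 0 ≤ ∑' j, α j := tsum_nonneg hα
  calc _ ≤ ((∑' j, α j) * ∑ l ∈ S, x l ^ 2) * ((∑' j, α j) * ∑ l ∈ S, y l ^ 2) := by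
        apply mul_le_mul h5 h6
        · exact Finset.sum_nonneg fun k _ => Finset.sum_nonneg fun l _ =>
            mul_nonneg (hα _) (sq_nonneg _)
        · exact mul_nonneg h7 (Finset.sum_nonneg fun l _ => sq_nonneg _)
    _ = _ := by ring

theorem estc_n2_sq {z : Sq d} (hf : FS z) : n2 z ^ 2 = ∑ k ∈ estaS hf, (nk k ^ 2 * ‖z k‖) ^ 2 := by
  unfold n2
  rw [esta_sum_sq hf, Real.sq_sqrt]
  · apply Finset.sum_congr rfl
    intro k _
    ring
  · exact Finset.sum_nonneg fun k _ => mul_nonneg (pow_nonneg (nk_nonneg _) _) (sq_nonneg _)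

theorem estc_n1_sq {z : Sq d} (hz : IsV z) (hf : FS z) :
    n1 z ^ 2 = ∑ k ∈ estaS hf, (nk k * ‖z k‖) ^ 2 := by
  rw [n1_sq hz, esta_sum_sq hf]
  apply Finset.sum_congr rfl
  intro k _
  ring

theorem estc_n2_nonneg (z : Sq d) : 0 ≤ n2 z := Real.sqrt_nonneg _

/-- Cauchy-Schwarz for a sum of the norms of the coefficients over a set of frequencies -/
theorem estc_l1 {z : Sq d} (hz : IsV z) (hf : FS z) {S : Finset (K d)} (hS : S ⊆ estaS hf)
    {Q : ℝ} (hQ : ∑ k ∈ S, (nk k ^ 4)⁻¹ ≤ Q) :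
    ∑ k ∈ S, ‖z k‖ ≤ Real.sqrt Q * n2 z := by
  have h1 := Finset.sum_mul_sq_le_sq_mul_sq S (fun k => (nk k ^ 2)⁻¹) (fun k => nk k ^ 2 * ‖z k‖)
  have h2 : ∑ k ∈ S, (nk k ^ 2)⁻¹ * (nk k ^ 2 * ‖z k‖) = ∑ k ∈ S, ‖z k‖ := by
    apply Finset.sum_congr rfl
    intro k hk
    have hk0 := one_le_nk (esta_ne_zero hz hf (hS hk))
    field_simp
  have h3 : ∑ k ∈ S, ((nk k ^ 2)⁻¹) ^ 2 = ∑ k ∈ S, (nk k ^ 4)⁻¹ := by
    apply Finset.sum_congr rfl
    intro k _
    rw [inv_pow, ← pow_mul]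
  have h4 : ∑ k ∈ S, (nk k ^ 2 * ‖z k‖) ^ 2 ≤ n2 z ^ 2 := by
    rw [estc_n2_sq hf]
    exact Finset.sum_le_sum_of_subset_of_nonneg hS fun k _ _ => sq_nonneg _
  have hQ0 : 0 ≤ Q := le_trans (Finset.sum_nonneg fun k _ =>
    inv_nonneg.2 (pow_nonneg (nk_nonneg _) _)) hQ
  rw [h2, h3] at h1
  have h5 : (∑ k ∈ S, ‖z k‖) ^ 2 ≤ (Real.sqrt Q * n2 z) ^ 2 := by
    rw [mul_pow, Real.sq_sqrt hQ0]
    refine h1.trans ?_
    exact mul_le_mul hQ h4 (Finset.sum_nonneg fun k _ => sq_nonneg _) hQ0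
  exact le_of_sq_le_sq h5 (mul_nonneg (Real.sqrt_nonneg _) (estc_n2_nonneg z))

theorem tri_cubic (hd : d = 2 ∨ d = 3) : ∃ C : ℝ, 0 < C ∧ ∀ z : Sq d, IsV z → FS z →
    |Tri z z z| ≤ C * n1 z * n2 z ^ 2 := by
  refine ⟨Real.sqrt (∑' k : K d, (nk k ^ 4)⁻¹) + 1, by positivity, ?_⟩
  intro z hz hf
  have hnk : ∀ k : K d, 0 ≤ (nk k ^ 4)⁻¹ := fun k => inv_nonneg.2 (pow_nonneg (nk_nonneg _) _)
  have hl1 : ∑' j, ‖z j‖ = ∑ j ∈ estaS hf, ‖z j‖ := by
    apply tsum_eq_sum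
    intro k hk
    rw [esta_zero_notMem hf hk, norm_zero]
  have hs1 : Summable fun j => ‖z j‖ := by
    apply summable_of_ne_finset_zero (s := estaS hf)
    intro k hk
    rw [esta_zero_notMem hf hk, norm_zero]
  have hb : |Tri z z z| ≤
      ∑ k ∈ estaS hf, ∑ l ∈ estaS hf, ‖z (k - l)‖ * ((nk k ^ 2 * ‖z k‖) * (nk l * ‖z l‖)) := by
    unfold Tri
    rw [esta_sum_right hz hf]
    refine (Finset.abs_sum_le_sum_abs _ _).trans ?_
    apply Finset.sum_le_sum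
    intro k _
    refine (Finset.abs_sum_le_sum_abs _ _).trans ?_
    apply Finset.sum_le_sum
    intro l _
    rw [abs_mul, abs_of_nonneg (pow_nonneg (nk_nonneg k) 2)]
    calc nk k ^ 2 * |estaF z z k l| ≤ nk k ^ 2 * (nk l * (‖z (k - l)‖ * (‖z k‖ * ‖z l‖))) :=
          mul_le_mul_of_nonneg_left (abs_estaF_le_right hz k l) (pow_nonneg (nk_nonneg k) 2)
      _ = _ := by ring
  have h1 := estc_bil (S := estaS hf) (α := fun j => ‖z j‖) (x := fun k => nk k ^ 2 * ‖z k‖)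
    (y := fun l => nk l * ‖z l‖) (fun j => norm_nonneg _) hs1
  rw [← estc_n2_sq hf, ← estc_n1_sq hz hf, hl1] at h1
  have h2 : ∑ k ∈ estaS hf, ‖z k‖ ≤ Real.sqrt (∑' k : K d, (nk k ^ 4)⁻¹) * n2 z :=
    estc_l1 hz hf (le_refl _) ((summable_nk4 hd).sum_le_tsum _ fun k _ => hnk k)
  have hn1 := n1_nonneg z
  have hn2 := estc_n2_nonneg z
  have h3 : ∑ k ∈ estaS hf, ∑ l ∈ estaS hf,
      ‖z (k - l)‖ * ((nk k ^ 2 * ‖z k‖) * (nk l * ‖z l‖)) ≤
      (∑ k ∈ estaS hf, ‖z k‖) * (n2 z * n1 z) := by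
    apply le_of_sq_le_sq _ (mul_nonneg (Finset.sum_nonneg fun k _ => norm_nonneg _)
      (mul_nonneg hn2 hn1))
    refine h1.trans (le_of_eq ?_)
    ring
  calc |Tri z z z| ≤ _ := hb
    _ ≤ _ := h3
    _ ≤ (Real.sqrt (∑' k : K d, (nk k ^ 4)⁻¹) * n2 z) * (n2 z * n1 z) :=
        mul_le_mul_of_nonneg_right h2 (mul_nonneg hn2 hn1)
    _ = Real.sqrt (∑' k : K d, (nk k ^ 4)⁻¹) * n1 z * n2 z ^ 2 := by ring
    _ ≤ _ := by
        have : 0 ≤ n1 z * n2 z ^ 2 := by positivity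
        nlinarith

/-- Cauchy-Schwarz in `k` for fixed `l` -/
theorem estc_cs {z : Sq d} (hf : FS z) {v : K d → ℝ} {M : ℝ} (hM : 0 ≤ M)
    (hs : Summable fun j => v j ^ 2) (hv : ∑' j, v j ^ 2 ≤ M ^ 2) (l : K d) :
    ∑ k ∈ estaS hf, (nk k ^ 2 * ‖z k‖) * v (k - l) ≤ n2 z * M := by
  have h1 := Finset.sum_mul_sq_le_sq_mul_sq (estaS hf) (fun k => nk k ^ 2 * ‖z k‖)
    (fun k => v (k - l))
  rw [← estc_n2_sq hf] at h1
  have h2 := esta_col (S := estaS hf) (α := fun j => v j ^ 2) (fun j => sq_nonneg _) hs l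
  apply le_of_sq_le_sq _ (mul_nonneg (estc_n2_nonneg z) hM)
  rw [mul_pow]
  exact h1.trans (mul_le_mul_of_nonneg_left (h2.trans hv) (sq_nonneg _))

theorem estc_rough {U z : Sq d} (hU : IsV U) (hz : IsV z) (hf : FS z) {M δ η η₀ Q : ℝ}
    (hM : 0 ≤ M) (hUM : n1 U ≤ M) (hδ : 0 < δ) (hη : 0 < η)
    (hQs : Summable fun k : K d => (nk k ^ 4)⁻¹) (hQ : ∑' k : K d, (nk k ^ 4)⁻¹ ≤ Q)
    (Λ : Finset (K d)) (hΛ : ∀ t : Finset (K d), Disjoint t Λ → ∑ k ∈ t, (nk k ^ 4)⁻¹ ≤ η₀) :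
    |Tri U z z + Tri z U z| ≤ 2 * (Λ.card * M) * n1 z * n2 z +
      (δ / 2 * M ^ 2 + 1 / (2 * δ) * (η / 2 * Q + 1 / (2 * η) * η₀) + M * Real.sqrt η₀) *
        n2 z ^ 2 := by
  classical
  have hnk : ∀ k : K d, 0 ≤ (nk k ^ 4)⁻¹ := fun k => inv_nonneg.2 (pow_nonneg (nk_nonneg _) _)
  have hn1 := n1_nonneg z
  have hn2 := estc_n2_nonneg z
  have hMsq : n1 U ^ 2 ≤ M ^ 2 := pow_le_pow_left₀ (n1_nonneg U) hUM 2
  have hUs := summable_sq hU
  have hU2 : ∑' k, ‖U k‖ ^ 2 ≤ M ^ 2 := (tsum_sq_le hU).trans hMsq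
  have hus : Summable fun k => (nk k * ‖U k‖) ^ 2 := by
    refine hU.sm.congr fun k => ?_
    ring
  have hu2 : ∑' k, (nk k * ‖U k‖) ^ 2 ≤ M ^ 2 := by
    refine le_trans (le_of_eq ?_) hMsq
    rw [n1_sq hU]
    exact tsum_congr fun k => by ring
  have hx2 := estc_n2_sq hf
  set S := estaS hf with hS
  set x : K d → ℝ := fun k => nk k ^ 2 * ‖z k‖ with hx
  have hx0 : ∀ k, 0 ≤ x k := fun k => mul_nonneg (pow_nonneg (nk_nonneg _) _) (norm_nonneg _)
  set S1 := S.filter (· ∈ Λ) with hS1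
  set S2 := S.filter (fun k => ¬ k ∈ Λ) with hS2
  have hcard : (S1.card : ℝ) ≤ Λ.card := by
    have : S1.card ≤ Λ.card := Finset.card_le_card fun k hk => (Finset.mem_filter.1 hk).2
    exact_mod_cast this
  have hsplit : ∀ g : K d → ℝ, ∑ l ∈ S, g l = ∑ l ∈ S1, g l + ∑ l ∈ S2, g l := fun g =>
    (Finset.sum_filter_add_sum_filter_not S _ g).symm
  have hdisj : Disjoint S2 Λ := by
    rw [Finset.disjoint_left]
    intro k hk
    exact (Finset.mem_filter.1 hk).2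
  have hT : ∑ k ∈ S2, (nk k ^ 4)⁻¹ ≤ η₀ := hΛ S2 hdisj
  have hη₀ : 0 ≤ η₀ := le_trans (Finset.sum_nonneg fun k _ => hnk k) hT
  -- first term
  have hA : |Tri U z z| ≤ (Λ.card * M) * n1 z * n2 z +
      (δ / 2 * M ^ 2 + 1 / (2 * δ) * (η / 2 * Q + 1 / (2 * η) * η₀)) * n2 z ^ 2 := by
    have hb : |Tri U z z| ≤ ∑ l ∈ S, ∑ k ∈ S, (x k * ‖U (k - l)‖) * (nk l * ‖z l‖) := by
      unfold Tri
      rw [esta_sum_right hz hf, Finset.sum_comm]
      refine (Finset.abs_sum_le_sum_abs _ _).trans ?_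
      apply Finset.sum_le_sum
      intro l _
      refine (Finset.abs_sum_le_sum_abs _ _).trans ?_
      apply Finset.sum_le_sum
      intro k _
      rw [abs_mul, abs_of_nonneg (pow_nonneg (nk_nonneg k) 2)]
      calc nk k ^ 2 * |estaF U z k l| ≤ nk k ^ 2 * (nk l * (‖U (k - l)‖ * (‖z k‖ * ‖z l‖))) :=
            mul_le_mul_of_nonneg_left (abs_estaF_le_right hU k l) (pow_nonneg (nk_nonneg k) 2)
        _ = _ := by
            simp only [hx]
            ring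
    have h1 : ∑ l ∈ S1, ∑ k ∈ S, (x k * ‖U (k - l)‖) * (nk l * ‖z l‖) ≤
        (Λ.card * M) * n1 z * n2 z := by
      calc ∑ l ∈ S1, ∑ k ∈ S, (x k * ‖U (k - l)‖) * (nk l * ‖z l‖)
          ≤ ∑ l ∈ S1, (n2 z * M) * n1 z := by
            apply Finset.sum_le_sum
            intro l _
            rw [← Finset.sum_mul]
            exact mul_le_mul (estc_cs hf hM hUs hU2 l) (coef_le hz l)
              (mul_nonneg (nk_nonneg _) (norm_nonneg _)) (mul_nonneg hn2 hM)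
        _ = S1.card * ((n2 z * M) * n1 z) := by
            rw [Finset.sum_const, nsmul_eq_mul]
        _ ≤ Λ.card * ((n2 z * M) * n1 z) :=
            mul_le_mul_of_nonneg_right hcard (mul_nonneg (mul_nonneg hn2 hM) hn1)
        _ = _ := by ring
    have h2 : ∑ l ∈ S2, ∑ k ∈ S, (x k * ‖U (k - l)‖) * (nk l * ‖z l‖) ≤
        (δ / 2 * M ^ 2 + 1 / (2 * δ) * (η / 2 * Q + 1 / (2 * η) * η₀)) * n2 z ^ 2 := by
      have hterm : ∀ l ∈ S2, ∀ k ∈ S, (x k * ‖U (k - l)‖) * (nk l * ‖z l‖) ≤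
          δ / 2 * ((nk (k - l) * ‖U (k - l)‖) ^ 2 * x l ^ 2) +
          1 / (2 * δ) * (η / 2 * ((nk (k - l) ^ 4)⁻¹ * x k ^ 2) +
            1 / (2 * η) * ((nk l ^ 4)⁻¹ * x k ^ 2)) := by
        intro l hl k hk
        have hl0 : l ≠ 0 := esta_ne_zero hz hf (Finset.mem_filter.1 hl).1
        have hl1 := one_le_nk hl0
        by_cases hkl : k = l
        · subst hkl
          rw [sub_self, hU.zero, norm_zero, mul_zero, zero_mul]
          have := hnk k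
          have := hnk (0 : K d)
          positivity
        have hd1 : 1 ≤ nk (k - l) := one_le_nk (sub_ne_zero.2 hkl)
        set p := nk l with hp
        set q := nk (k - l) with hq
        set u := ‖U (k - l)‖ with hu
        have hp0 : 0 < p := by linarith
        have hq0 : 0 < q := by linarith
        have e1 : (x k * u) * (p * ‖z l‖) = (q * u * x l) * (x k * (q⁻¹ * p⁻¹)) := by
          simp only [hx]
          rw [← hp]
          field_simp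
        rw [e1]
        have e2 : (q * u * x l) * (x k * (q⁻¹ * p⁻¹)) ≤
            δ / 2 * (q * u * x l) ^ 2 + 1 / (2 * δ) * (x k * (q⁻¹ * p⁻¹)) ^ 2 := by
          have h := sq_nonneg (δ * (q * u * x l) - x k * (q⁻¹ * p⁻¹))
          have h' : 0 ≤ (δ * (q * u * x l) - x k * (q⁻¹ * p⁻¹)) ^ 2 / (2 * δ) := by positivity
          have h'' : (δ * (q * u * x l) - x k * (q⁻¹ * p⁻¹)) ^ 2 / (2 * δ) =
              δ / 2 * (q * u * x l) ^ 2 + 1 / (2 * δ) * (x k * (q⁻¹ * p⁻¹)) ^ 2 -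
              (q * u * x l) * (x k * (q⁻¹ * p⁻¹)) := by
            field_simp
            ring
          linarith
        have e3 : (x k * (q⁻¹ * p⁻¹)) ^ 2 ≤
            η / 2 * ((q ^ 4)⁻¹ * x k ^ 2) + 1 / (2 * η) * ((p ^ 4)⁻¹ * x k ^ 2) := by
          have h' : 0 ≤ (η * (q⁻¹) ^ 2 - (p⁻¹) ^ 2) ^ 2 / (2 * η) * x k ^ 2 := by positivity
          have h'' : (η * (q⁻¹) ^ 2 - (p⁻¹) ^ 2) ^ 2 / (2 * η) * x k ^ 2 =
              η / 2 * ((q ^ 4)⁻¹ * x k ^ 2) + 1 / (2 * η) * ((p ^ 4)⁻¹ * x k ^ 2) -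
              (x k * (q⁻¹ * p⁻¹)) ^ 2 := by
            field_simp
            ring
          linarith
        have e4 : 0 ≤ 1 / (2 * δ) := by positivity
        have e5 : (q * u * x l) ^ 2 = (q * u) ^ 2 * x l ^ 2 := by ring
        rw [e5] at e2
        linarith [mul_le_mul_of_nonneg_left e3 e4]
      have hsum : ∑ l ∈ S2, ∑ k ∈ S, (x k * ‖U (k - l)‖) * (nk l * ‖z l‖) ≤
          δ / 2 * (∑ l ∈ S2, ∑ k ∈ S, (nk (k - l) * ‖U (k - l)‖) ^ 2 * x l ^ 2) +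
          1 / (2 * δ) * (η / 2 * (∑ l ∈ S2, ∑ k ∈ S, (nk (k - l) ^ 4)⁻¹ * x k ^ 2) +
            1 / (2 * η) * (∑ l ∈ S2, ∑ k ∈ S, (nk l ^ 4)⁻¹ * x k ^ 2)) := by
        refine (Finset.sum_le_sum fun l hl => Finset.sum_le_sum fun k hk =>
          hterm l hl k hk).trans (le_of_eq ?_)
        simp only [Finset.mul_sum, ← Finset.sum_add_distrib, mul_add]
      have s1 : ∑ l ∈ S2, ∑ k ∈ S, (nk (k - l) * ‖U (k - l)‖) ^ 2 * x l ^ 2 ≤
          M ^ 2 * n2 z ^ 2 := by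
        calc _ ≤ ∑ l ∈ S, ∑ k ∈ S, (nk (k - l) * ‖U (k - l)‖) ^ 2 * x l ^ 2 := by
              apply Finset.sum_le_sum_of_subset_of_nonneg (Finset.filter_subset _ _)
              intro l _ _
              exact Finset.sum_nonneg fun k _ => by positivity
          _ ≤ ∑ l ∈ S, M ^ 2 * x l ^ 2 := by
              apply Finset.sum_le_sum
              intro l _
              rw [← Finset.sum_mul]
              apply mul_le_mul_of_nonneg_right _ (sq_nonneg _)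
              exact (esta_col (α := fun j => (nk j * ‖U j‖) ^ 2) (fun j => sq_nonneg _) hus
                l).trans hu2
          _ = _ := by rw [← Finset.mul_sum, hx2]
      have s2 : ∑ l ∈ S2, ∑ k ∈ S, (nk (k - l) ^ 4)⁻¹ * x k ^ 2 ≤ Q * n2 z ^ 2 := by
        rw [Finset.sum_comm]
        calc _ ≤ ∑ k ∈ S, Q * x k ^ 2 := by
              apply Finset.sum_le_sum
              intro k _
              rw [← Finset.sum_mul]
              apply mul_le_mul_of_nonneg_right _ (sq_nonneg _)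
              exact (esta_row (α := fun j => (nk j ^ 4)⁻¹) hnk hQs k).trans hQ
          _ = _ := by rw [← Finset.mul_sum, hx2]
      have s3 : ∑ l ∈ S2, ∑ k ∈ S, (nk l ^ 4)⁻¹ * x k ^ 2 ≤ η₀ * n2 z ^ 2 := by
        have : ∀ l : K d, ∑ k ∈ S, (nk l ^ 4)⁻¹ * x k ^ 2 = (nk l ^ 4)⁻¹ * n2 z ^ 2 := by
          intro l
          rw [← Finset.mul_sum, hx2]
        simp only [this]
        rw [← Finset.sum_mul]
        exact mul_le_mul_of_nonneg_right hT (sq_nonneg _)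
      have c1 : 0 ≤ δ / 2 := by positivity
      have c2 : 0 ≤ 1 / (2 * δ) := by positivity
      have c3 : 0 ≤ η / 2 := by positivity
      have c4 : 0 ≤ 1 / (2 * η) := by positivity
      have t1 := mul_le_mul_of_nonneg_left s1 c1
      have t2 := mul_le_mul_of_nonneg_left s2 c3
      have t3 := mul_le_mul_of_nonneg_left s3 c4
      have t4 := mul_le_mul_of_nonneg_left (add_le_add t2 t3) c2
      refine hsum.trans ((add_le_add t1 t4).trans (le_of_eq ?_))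
      ring
    rw [hsplit] at hb
    linarith
  -- second term
  have hB : |Tri z U z| ≤ (Λ.card * M) * n1 z * n2 z + M * Real.sqrt η₀ * n2 z ^ 2 := by
    have hb : |Tri z U z| ≤ ∑ l ∈ S, ∑ k ∈ S, (x k * (nk (k - l) * ‖U (k - l)‖)) * ‖z l‖ := by
      unfold Tri
      rw [esta_sum_left hz hf, Finset.sum_comm]
      refine (Finset.abs_sum_le_sum_abs _ _).trans ?_
      apply Finset.sum_le_sum
      intro l _
      refine (Finset.abs_sum_le_sum_abs _ _).trans ?_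
      apply Finset.sum_le_sum
      intro k _
      rw [abs_mul, abs_of_nonneg (pow_nonneg (nk_nonneg k) 2)]
      calc nk k ^ 2 * |estaG z U k l| ≤
            nk k ^ 2 * (nk (k - l) * (‖U (k - l)‖ * (‖z k‖ * ‖z l‖))) :=
            mul_le_mul_of_nonneg_left (abs_estaG_le hz k l) (pow_nonneg (nk_nonneg k) 2)
        _ = _ := by
            simp only [hx]
            ring
    have h0 : ∑ l ∈ S, ∑ k ∈ S, (x k * (nk (k - l) * ‖U (k - l)‖)) * ‖z l‖ ≤
        (n2 z * M) * ∑ l ∈ S, ‖z l‖ := by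
      rw [Finset.mul_sum]
      apply Finset.sum_le_sum
      intro l _
      rw [← Finset.sum_mul]
      exact mul_le_mul_of_nonneg_right
        (estc_cs hf (v := fun j => nk j * ‖U j‖) hM hus hu2 l) (norm_nonneg _)
    have h1 : ∑ l ∈ S1, ‖z l‖ ≤ Λ.card * n1 z := by
      calc ∑ l ∈ S1, ‖z l‖ ≤ ∑ l ∈ S1, n1 z := Finset.sum_le_sum fun l _ => norm_coef_le hz l
        _ = S1.card * n1 z := by rw [Finset.sum_const, nsmul_eq_mul]
        _ ≤ _ := mul_le_mul_of_nonneg_right hcard hn1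
    have h2 : ∑ l ∈ S2, ‖z l‖ ≤ Real.sqrt η₀ * n2 z :=
      estc_l1 hz hf (Finset.filter_subset _ _) hT
    have h3 : ∑ l ∈ S, ‖z l‖ ≤ Λ.card * n1 z + Real.sqrt η₀ * n2 z := by
      rw [hsplit]
      exact add_le_add h1 h2
    refine hb.trans (h0.trans ((mul_le_mul_of_nonneg_left h3 (mul_nonneg hn2 hM)).trans
      (le_of_eq ?_)))
    ring
  refine (abs_add_le _ _).trans ((add_le_add hA hB).trans (le_of_eq ?_))
  ring

theorem tri_rough (hd : d = 2 ∨ d = 3) {ε : ℝ} (hε : 0 < ε) (M : ℝ) : ∃ g : ℝ, 0 ≤ g ∧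
    ∀ U z : Sq d, IsV U → n1 U ≤ M → IsV z → FS z →
    |Tri U z z + Tri z U z| ≤ ε * n2 z ^ 2 + g * n1 z ^ 2 := by
  have hQs := summable_nk4 hd
  set Q := ∑' k : K d, (nk k ^ 4)⁻¹ with hQ
  have hQ0 : 0 ≤ Q := tsum_nonneg fun k => inv_nonneg.2 (pow_nonneg (nk_nonneg _) _)
  set M' := |M| with hM'
  have hM0 : 0 ≤ M' := abs_nonneg _
  set δ := ε / (4 * (M' ^ 2 + 1)) with hδ
  have hδ0 : 0 < δ := by positivity
  set η := ε * δ / (2 * (Q + 1)) with hη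
  have hη0 : 0 < η := by positivity
  set η₀ := min (ε * δ * η / 2) ((ε / (8 * (M' + 1))) ^ 2) with hη₀
  have hη₀0 : 0 < η₀ := lt_min (by positivity) (by positivity)
  obtain ⟨Λ, hΛ⟩ := hQs.vanishing (Metric.ball_mem_nhds (0 : ℝ) hη₀0)
  have hΛ' : ∀ t : Finset (K d), Disjoint t Λ → ∑ k ∈ t, (nk k ^ 4)⁻¹ ≤ η₀ := by
    intro t ht
    have := hΛ t ht
    rw [Metric.mem_ball, dist_zero_right, Real.norm_eq_abs] at this
    exact (le_abs_self _).trans this.le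
  refine ⟨2 / ε * (Λ.card * M') ^ 2, by positivity, ?_⟩
  intro U z hU hUM hz hf
  have h := estc_rough hU hz hf hM0 (hUM.trans (le_abs_self M)) hδ0 hη0 hQs le_rfl Λ hΛ'
  have hn1 := n1_nonneg z
  have hn2 := estc_n2_nonneg z
  have b1 : δ / 2 * M' ^ 2 ≤ ε / 8 := by
    have e : δ * (4 * (M' ^ 2 + 1)) = ε := by
      rw [hδ]
      field_simp
    nlinarith
  have b2 : 1 / (2 * δ) * (η / 2 * Q) ≤ ε / 8 := by
    have e : 1 / (2 * δ) * (η / 2 * Q) = ε / 8 * (Q / (Q + 1)) := by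
      rw [hη]
      field_simp
      ring
    rw [e]
    have : Q / (Q + 1) ≤ 1 := by
      rw [div_le_one (by positivity)]
      linarith
    nlinarith
  have b3 : 1 / (2 * δ) * (1 / (2 * η) * η₀) ≤ ε / 8 := by
    have e : η₀ ≤ ε * δ * η / 2 := min_le_left _ _
    calc 1 / (2 * δ) * (1 / (2 * η) * η₀)
        ≤ 1 / (2 * δ) * (1 / (2 * η) * (ε * δ * η / 2)) := by gcongr
      _ = ε / 8 := by
          field_simp
          ring
  have b4 : M' * Real.sqrt η₀ ≤ ε / 8 := by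
    have e : Real.sqrt η₀ ≤ ε / (8 * (M' + 1)) := by
      rw [← Real.sqrt_sq (show 0 ≤ ε / (8 * (M' + 1)) by positivity)]
      exact Real.sqrt_le_sqrt (min_le_right _ _)
    calc M' * Real.sqrt η₀ ≤ M' * (ε / (8 * (M' + 1))) := mul_le_mul_of_nonneg_left e hM0
      _ = ε / 8 * (M' / (M' + 1)) := by
          field_simp
      _ ≤ ε / 8 * 1 := by
          apply mul_le_mul_of_nonneg_left _ (by positivity)
          rw [div_le_one (by positivity)]
          linarith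
      _ = ε / 8 := by ring
  have b5 : (δ / 2 * M' ^ 2 + 1 / (2 * δ) * (η / 2 * Q + 1 / (2 * η) * η₀) +
      M' * Real.sqrt η₀) * n2 z ^ 2 ≤ ε / 2 * n2 z ^ 2 := by
    apply mul_le_mul_of_nonneg_right _ (sq_nonneg _)
    rw [mul_add (1 / (2 * δ))]
    linarith
  have b6 : 2 * (Λ.card * M') * n1 z * n2 z ≤
      ε / 2 * n2 z ^ 2 + 2 / ε * (Λ.card * M') ^ 2 * n1 z ^ 2 := by
    have h' : 0 ≤ (ε * n2 z - 2 * (Λ.card * M') * n1 z) ^ 2 / (2 * ε) := by positivity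
    have h'' : (ε * n2 z - 2 * (Λ.card * M') * n1 z) ^ 2 / (2 * ε) =
        ε / 2 * n2 z ^ 2 + 2 / ε * (Λ.card * M') ^ 2 * n1 z ^ 2 -
        2 * (Λ.card * M') * n1 z * n2 z := by
      field_simp
      ring
    linarith
  linarith

end NSC
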