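import Pool.Agent.Work.MP_57e339_an.EstA

/-! Module EstS: the energy estimates with a smooth background. -/

open MeasureTheory Set Filter Topology
open scoped BigOperators
noncomputable section
namespace NSC
variable {d : ℕ}

theorem ests_num {s : ℕ} (hs : 1 ≤ s) {x y δ : ℝ} (hx : 1 ≤ x) (hy : 1 ≤ y) (hδ : 1 ≤ δ)
    (h : |x - y| ≤ δ) (hxy : y ≤ x) :
    |x ^ (2 * s) - y ^ (2 * s)| * y ≤ 2 * (s * 2 ^ (s - 1)) * (δ ^ s * (x ^ s * y ^ s)) := by
  have h1 := abs_pow_sub_pow_le x y (2 * s)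
  have hm : max |x| |y| = x := by
    rw [abs_of_pos (by linarith), abs_of_pos (by linarith)]
    exact max_eq_left hxy
  rw [hm] at h1
  obtain ⟨t, rfl⟩ : ∃ t, s = t + 1 := ⟨s - 1, by omega⟩
  have h2 : 2 * (t + 1) - 1 = (t + 1) + t := by omega
  rw [h2] at h1
  have h3 : x ≤ 2 * δ * y := by
    have := (abs_le.1 h).2
    nlinarith [mul_nonneg (sub_nonneg.2 hy) (sub_nonneg.2 hδ)]
  have h4 : x ^ t ≤ (2 * δ * y) ^ t := pow_le_pow_left₀ (by linarith) h3 t
  have hx0 : 0 ≤ x := by linarith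
  have hy0 : 0 ≤ y := by linarith
  have hδ0 : 0 ≤ δ := by linarith
  calc |x ^ (2 * (t + 1)) - y ^ (2 * (t + 1))| * y
      ≤ (|x - y| * ((2 * (t + 1) : ℕ) : ℝ) * x ^ ((t + 1) + t)) * y :=
        mul_le_mul_of_nonneg_right h1 hy0
    _ ≤ (δ * ((2 * (t + 1) : ℕ) : ℝ) * (x ^ (t + 1) * (2 * δ * y) ^ t)) * y := by
        apply mul_le_mul_of_nonneg_right _ hy0
        rw [pow_add]
        apply mul_le_mul
        · exact mul_le_mul_of_nonneg_right h (by positivity)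
        · exact mul_le_mul_of_nonneg_left h4 (by positivity)
        · positivity
        · positivity
    _ = _ := by
        have : t + 1 - 1 = t := by omega
        rw [this]
        push_cast
        ring

theorem ests_term_right {s : ℕ} (hs : 1 ≤ s) {a z : Sq d} (ha : IsV a) {k l : K d}
    (hk : k ≠ 0) (hl : l ≠ 0) :
    |(nk k ^ (2 * s) - nk l ^ (2 * s)) * estaF a z k l| ≤
      2 * (s * 2 ^ (s - 1)) * ((nk (k - l) ^ s * ‖a (k - l)‖) *
        ((nk k ^ s * ‖z k‖) * (nk l ^ s * ‖z l‖))) := by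
  have hk1 := one_le_nk hk
  have hl1 := one_le_nk hl
  by_cases hkl : k = l
  · subst hkl
    rw [sub_self, zero_mul, abs_zero]
    have := nk_nonneg (k - k)
    positivity
  have hd1 : 1 ≤ nk (k - l) := one_le_nk (sub_ne_zero.2 hkl)
  rw [abs_mul]
  have hN : 0 ≤ ‖a (k - l)‖ * (‖z k‖ * ‖z l‖) := by positivity
  rcases le_total (nk l) (nk k) with h | h
  · have h1 := ests_num hs hk1 hl1 hd1 (abs_nk_sub_nk_le k l) h
    calc |nk k ^ (2 * s) - nk l ^ (2 * s)| * |estaF a z k l|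
        ≤ |nk k ^ (2 * s) - nk l ^ (2 * s)| * (nk l * (‖a (k - l)‖ * (‖z k‖ * ‖z l‖))) :=
          mul_le_mul_of_nonneg_left (abs_estaF_le_right ha k l) (abs_nonneg _)
      _ = (|nk k ^ (2 * s) - nk l ^ (2 * s)| * nk l) * (‖a (k - l)‖ * (‖z k‖ * ‖z l‖)) := by ring
      _ ≤ (2 * (s * 2 ^ (s - 1)) * (nk (k - l) ^ s * (nk k ^ s * nk l ^ s))) *
          (‖a (k - l)‖ * (‖z k‖ * ‖z l‖)) := mul_le_mul_of_nonneg_right h1 hN
      _ = _ := by ring
  · have h0 : |nk l - nk k| ≤ nk (k - l) := by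
      rw [abs_sub_comm]
      exact abs_nk_sub_nk_le k l
    have h1 := ests_num hs hl1 hk1 hd1 h0 h
    rw [abs_sub_comm (nk l ^ (2 * s))] at h1
    calc |nk k ^ (2 * s) - nk l ^ (2 * s)| * |estaF a z k l|
        ≤ |nk k ^ (2 * s) - nk l ^ (2 * s)| * (nk k * (‖a (k - l)‖ * (‖z k‖ * ‖z l‖))) :=
          mul_le_mul_of_nonneg_left (abs_estaF_le_left k l) (abs_nonneg _)
      _ = (|nk k ^ (2 * s) - nk l ^ (2 * s)| * nk k) * (‖a (k - l)‖ * (‖z k‖ * ‖z l‖)) := by ring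
      _ ≤ (2 * (s * 2 ^ (s - 1)) * (nk (k - l) ^ s * (nk l ^ s * nk k ^ s))) *
          (‖a (k - l)‖ * (‖z k‖ * ‖z l‖)) := mul_le_mul_of_nonneg_right h1 hN
      _ = _ := by ring

theorem ests_term_left {s : ℕ} {a z : Sq d} (ha : IsV a) (hz : IsV z) {k j : K d}
    (hk : k ≠ 0) (hj : j ≠ 0) :
    |nk k ^ (2 * s) * estaG z a k j| ≤
      2 ^ s * ((nk (k - j) ^ (s + 1) * ‖a (k - j)‖) *
        ((nk k ^ s * ‖z k‖) * (nk j ^ s * ‖z j‖))) := by
  by_cases hkj : k = j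
  · subst hkj
    have : estaG z a k k = 0 := by
      unfold estaG
      rw [sub_self, ha.zero]
      simp
    rw [this, mul_zero, abs_zero]
    have := nk_nonneg (k - k)
    have := nk_nonneg k
    positivity
  have hk1 := one_le_nk hk
  have hj1 := one_le_nk hj
  have hd1 : 1 ≤ nk (k - j) := one_le_nk (sub_ne_zero.2 hkj)
  have h1 : nk k ≤ 2 * nk j * nk (k - j) := by
    have := nk_le_mul hj (sub_ne_zero.2 hkj)
    rwa [add_sub_cancel] at this
  have h2 : nk k ^ s ≤ (2 * nk j * nk (k - j)) ^ s := pow_le_pow_left₀ (by linarith) h1 s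
  rw [abs_mul, abs_of_nonneg (by positivity)]
  calc nk k ^ (2 * s) * |estaG z a k j|
      ≤ nk k ^ (2 * s) * (nk (k - j) * (‖a (k - j)‖ * (‖z k‖ * ‖z j‖))) :=
        mul_le_mul_of_nonneg_left (abs_estaG_le hz k j) (by positivity)
    _ = nk k ^ s * (nk k ^ s * (nk (k - j) * (‖a (k - j)‖ * (‖z k‖ * ‖z j‖)))) := by
        rw [two_mul, pow_add]
        ring
    _ ≤ (2 * nk j * nk (k - j)) ^ s *
        (nk k ^ s * (nk (k - j) * (‖a (k - j)‖ * (‖z k‖ * ‖z j‖)))) :=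
        mul_le_mul_of_nonneg_right h2 (by positivity)
    _ = _ := by
        rw [mul_pow, mul_pow, pow_succ]
        ring

theorem ests_main {s : ℕ} (hs : 1 ≤ s) {a z : Sq d} (ha : IsV a) (h1 : SW (s + 1) a)
    (hz : IsV z) (hf : FS z) :
    |(∑' k, nk k ^ (2 * s) * (inner ℂ (z k) (Bk a z k)).re) +
      ∑' k, nk k ^ (2 * s) * (inner ℂ (z k) (Bk z a k)).re| ≤
      (s * 2 ^ (s - 1) + 2 ^ s) * W (s + 1) a * ∑' k, nk k ^ (2 * s) * ‖z k‖ ^ 2 := by
  classical
  have hsw := SW.mono h1 ha.zero (show s ≤ s + 1 by omega)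
  have hq : ∑' k, nk k ^ (2 * s) * ‖z k‖ ^ 2 =
      ∑ k ∈ estaS hf, (nk k ^ s * ‖z k‖) ^ 2 := by
    rw [esta_sum_sq hf]
    apply Finset.sum_congr rfl
    intro k _
    rw [mul_pow, ← pow_mul, mul_comm s 2]
  have hq0 : 0 ≤ ∑' k, nk k ^ (2 * s) * ‖z k‖ ^ 2 := by
    rw [hq]
    exact Finset.sum_nonneg fun k _ => sq_nonneg _
  -- first part
  have hA : |∑' k, nk k ^ (2 * s) * (inner ℂ (z k) (Bk a z k)).re| ≤
      (s * 2 ^ (s - 1)) * W s a * ∑' k, nk k ^ (2 * s) * ‖z k‖ ^ 2 := by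
    rw [esta_sum_right hz hf]
    have hsw2 : ∑ k ∈ estaS hf, ∑ l ∈ estaS hf, nk k ^ (2 * s) * estaF a z k l =
        ∑ k ∈ estaS hf, ∑ l ∈ estaS hf, -(nk l ^ (2 * s) * estaF a z k l) := by
      rw [Finset.sum_comm]
      apply Finset.sum_congr rfl
      intro k _
      apply Finset.sum_congr rfl
      intro l _
      rw [estaF_swap ha k l]
      ring
    have hsum : 2 * ∑ k ∈ estaS hf, ∑ l ∈ estaS hf, nk k ^ (2 * s) * estaF a z k l =
        ∑ k ∈ estaS hf, ∑ l ∈ estaS hf,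
          (nk k ^ (2 * s) - nk l ^ (2 * s)) * estaF a z k l := by
      rw [two_mul]
      nth_rw 2 [hsw2]
      rw [← Finset.sum_add_distrib]
      apply Finset.sum_congr rfl
      intro k _
      rw [← Finset.sum_add_distrib]
      apply Finset.sum_congr rfl
      intro l _
      ring
    have hb : |2 * ∑ k ∈ estaS hf, ∑ l ∈ estaS hf, nk k ^ (2 * s) * estaF a z k l| ≤
        2 * (s * 2 ^ (s - 1)) * (W s a * ∑' k, nk k ^ (2 * s) * ‖z k‖ ^ 2) := by
      rw [hsum, hq]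
      refine (Finset.abs_sum_le_sum_abs _ _).trans ?_
      have h3 : ∑ k ∈ estaS hf, |∑ l ∈ estaS hf,
            (nk k ^ (2 * s) - nk l ^ (2 * s)) * estaF a z k l| ≤
          ∑ k ∈ estaS hf, ∑ l ∈ estaS hf, 2 * (s * 2 ^ (s - 1)) *
            ((nk (k - l) ^ s * ‖a (k - l)‖) * ((nk k ^ s * ‖z k‖) * (nk l ^ s * ‖z l‖))) := by
        apply Finset.sum_le_sum
        intro k hk
        refine (Finset.abs_sum_le_sum_abs _ _).trans ?_
        apply Finset.sum_le_sum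
        intro l hl
        exact ests_term_right hs ha (esta_ne_zero hz hf hk) (esta_ne_zero hz hf hl)
      refine h3.trans ?_
      rw [esta_mul_sum]
      apply mul_le_mul_of_nonneg_left _ (by positivity)
      exact esta_schur (S := estaS hf) (α := fun j => nk j ^ s * ‖a j‖)
        (b := fun k => nk k ^ s * ‖z k‖)
        (fun j => mul_nonneg (pow_nonneg (nk_nonneg _) _) (norm_nonneg _)) hsw.1
    rw [abs_mul, abs_of_pos (by norm_num : (0 : ℝ) < 2)] at hb
    linarith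
  have hB : |∑' k, nk k ^ (2 * s) * (inner ℂ (z k) (Bk z a k)).re| ≤
      2 ^ s * W (s + 1) a * ∑' k, nk k ^ (2 * s) * ‖z k‖ ^ 2 := by
    rw [esta_sum_left hz hf, hq]
    refine (Finset.abs_sum_le_sum_abs _ _).trans ?_
    have h3 : ∑ k ∈ estaS hf, |∑ l ∈ estaS hf, nk k ^ (2 * s) * estaG z a k l| ≤
        ∑ k ∈ estaS hf, ∑ l ∈ estaS hf, 2 ^ s *
          ((nk (k - l) ^ (s + 1) * ‖a (k - l)‖) * ((nk k ^ s * ‖z k‖) * (nk l ^ s * ‖z l‖))) := by
      apply Finset.sum_le_sum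
      intro k hk
      refine (Finset.abs_sum_le_sum_abs _ _).trans ?_
      apply Finset.sum_le_sum
      intro l hl
      exact ests_term_left ha hz (esta_ne_zero hz hf hk) (esta_ne_zero hz hf hl)
    refine h3.trans ?_
    rw [esta_mul_sum, mul_assoc]
    apply mul_le_mul_of_nonneg_left _ (by positivity)
    exact esta_schur (S := estaS hf) (α := fun j => nk j ^ (s + 1) * ‖a j‖)
      (b := fun k => nk k ^ s * ‖z k‖)
      (fun j => mul_nonneg (pow_nonneg (nk_nonneg _) _) (norm_nonneg _)) h1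
  have hC : (s * 2 ^ (s - 1) : ℝ) * W s a * ∑' k, nk k ^ (2 * s) * ‖z k‖ ^ 2 ≤
      (s * 2 ^ (s - 1)) * W (s + 1) a * ∑' k, nk k ^ (2 * s) * ‖z k‖ ^ 2 := by
    apply mul_le_mul_of_nonneg_right _ hq0
    exact mul_le_mul_of_nonneg_left hsw.2 (by positivity)
  calc _ ≤ _ := abs_add_le _ _
    _ ≤ _ := add_le_add (hA.trans hC) hB
    _ = _ := by ring

/-- transport by a smooth field does not increase the `H^1` norm too fast -/
theorem tri_smooth {a z : Sq d} (ha : IsV a) (h2 : SW 2 a) (hz : IsV z) (hf : FS z) :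
    |Tri a z z + Tri z a z| ≤ 3 * W 2 a * n1 z ^ 2 := by
  have h := ests_main (s := 1) le_rfl ha h2 hz hf
  rw [n1_sq hz]
  unfold Tri
  norm_num at h ⊢
  exact h

/-- the same in `H^s` (for the linear forward transport) -/
theorem hs_smooth (s : ℕ) (hs : 1 ≤ s) : ∃ C : ℝ, 0 ≤ C ∧ ∀ (a z : Sq d), IsV a → SW (s + 1) a →
    IsV z → FS z →
    |∑' k, nk k ^ (2 * s) * (inner ℂ (z k) (Lk a z k)).re| ≤
      C * W (s + 1) a * ∑' k, nk k ^ (2 * s) * ‖z k‖ ^ 2 := by
  refine ⟨s * 2 ^ (s - 1) + 2 ^ s, by positivity, ?_⟩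
  intro a z ha h1 hz hf
  have h := ests_main hs ha h1 hz hf
  have hs1 : Summable fun k => nk k ^ (2 * s) * (inner ℂ (z k) (Bk a z k)).re := by
    apply summable_of_ne_finset_zero (s := estaS hf)
    intro k hk
    rw [esta_zero_notMem hf hk]
    simp
  have hs2 : Summable fun k => nk k ^ (2 * s) * (inner ℂ (z k) (Bk z a k)).re := by
    apply summable_of_ne_finset_zero (s := estaS hf)
    intro k hk
    rw [esta_zero_notMem hf hk]
    simp
  rw [← hs1.tsum_add hs2] at h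
  have h3 : ∀ k, nk k ^ (2 * s) * (inner ℂ (z k) (Lk a z k)).re =
      nk k ^ (2 * s) * (inner ℂ (z k) (Bk a z k)).re +
      nk k ^ (2 * s) * (inner ℂ (z k) (Bk z a k)).re := by
    intro k
    unfold Lk
    rw [Pi.add_apply, inner_add_right, Complex.add_re]
    ring
  simp only [h3]
  exact h

end NSC
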