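import Pool.Agent.Work.MP_57e339_an.Stab
import Pool.Agent.Work.MP_57e339_an.RBas

/-! Module Imp: impulses, and the elementary closure properties of `DD`. -/

open MeasureTheory Set Filter Topology
open scoped BigOperators
noncomputable section
namespace NSC
variable {d n : ℕ} {ν : ℝ} {m : Fin d → ℝ} {e : Fin n → Sq d}

/-- bounded parameters -/
theorem imp_bdd {Θ : Type} [TopologicalSpace Θ] [CompactSpace Θ] {c : Θ → Fin n → ℝ}
    (hc : Continuous c) : ∃ C, 0 ≤ C ∧ ∀ θ i, |c θ i| ≤ C := by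
  obtain ⟨C, hC⟩ := (isCompact_range hc).isBounded.exists_norm_le
  refine ⟨max C 0, le_max_right _ _, fun θ i => ?_⟩
  exact ((norm_le_pi_norm (c θ) i).trans (hC _ ⟨θ, rfl⟩)).trans (le_max_left _ _)

theorem imp_bdd' {Θ : Type} [TopologicalSpace Θ] [CompactSpace Θ] {s : Θ → ℝ}
    (hs : Continuous s) : ∃ C, 0 ≤ C ∧ ∀ θ, |s θ| ≤ C := by
  obtain ⟨C, hC⟩ := (isCompact_range hs).isBounded.exists_norm_le
  refine ⟨max C 0, le_max_right _ _, fun θ => ?_⟩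
  exact (hC _ ⟨θ, rfl⟩).trans (le_max_left _ _)

/-- the straight path, as a solution with a large force and a bounded residual -/
theorem imp_path {X F : Sq d} (hX : IsV X) (hF : IsV F) (hX4 : SW 4 X) (hF4 : SW 4 F) {A T : ℝ}
    (hT : 0 < T) (hA : W 3 X + W 3 F ≤ A) (ν : ℝ) (m : Fin d → ℝ) :
    (∀ t ∈ Icc (0 : ℝ) T, IsV (X + (t / T) • F) ∧ SW 2 (X + (t / T) • F) ∧
      W 2 (X + (t / T) • F) ≤ A) ∧
    (∀ k, ContinuousOn (fun t => (X + (t / T) • F) k) (Icc (0 : ℝ) T)) ∧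
    (∀ t ∈ Icc (0 : ℝ) T, IsV (Bk (X + (t / T) • F) (X + (t / T) • F) +
        Mu ν m (X + (t / T) • F)) ∧
      n1 (Bk (X + (t / T) • F) (X + (t / T) • F) + Mu ν m (X + (t / T) • F)) ≤
        2 * A * A + (|ν| + ∑ i, |m i|) * A) ∧
    (∀ k, ContinuousOn (fun t => (Bk (X + (t / T) • F) (X + (t / T) • F) +
        Mu ν m (X + (t / T) • F)) k) (Icc (0 : ℝ) T)) ∧
    (∀ k, ∀ t ∈ Icc (0 : ℝ) T, (X + (t / T) • F) k = (X + ((0 : ℝ) / T) • F) k +
      ∫ s in (0 : ℝ)..t, ((T⁻¹ • F) k - mu ν m k • (X + (s / T) • F) k -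
        Bk (X + (s / T) • F) (X + (s / T) • F) k +
        (Bk (X + (s / T) • F) (X + (s / T) • F) + Mu ν m (X + (s / T) • F)) k)) := by
  have hA0 : 0 ≤ A := (add_nonneg (W_nonneg 3 X) (W_nonneg 3 F)).trans hA
  have h01 : ∀ t ∈ Icc (0 : ℝ) T, |t / T| ≤ 1 := by
    intro t ht
    rw [abs_of_nonneg (div_nonneg ht.1 hT.le)]
    exact (div_le_one hT).2 ht.2
  have hV : ∀ t : ℝ, IsV (X + (t / T) • F) := fun t => hX.add (hF.smul _)
  have hX3 := hX4.mono hX.zero (show 3 ≤ 4 by norm_num)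
  have hF3 := hF4.mono hF.zero (show 3 ≤ 4 by norm_num)
  have hW3 : ∀ t ∈ Icc (0 : ℝ) T, SW 3 (X + (t / T) • F) ∧ W 3 (X + (t / T) • F) ≤ A := by
    intro t ht
    obtain ⟨h1, h2⟩ := hF3.1.smul (t / T)
    obtain ⟨h3, h4⟩ := hX3.1.add h1
    refine ⟨h3, (h4.trans ?_).trans hA⟩
    rw [h2]
    have := mul_le_mul_of_nonneg_right (h01 t ht) (W_nonneg 3 F)
    rw [one_mul] at this
    linarith
  have hW2 : ∀ t ∈ Icc (0 : ℝ) T, SW 2 (X + (t / T) • F) ∧ W 2 (X + (t / T) • F) ≤ A := by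
    intro t ht
    obtain ⟨h1, h2⟩ := (hW3 t ht).1.mono (hV t).zero (show 2 ≤ 3 by norm_num)
    exact ⟨h1, h2.trans (hW3 t ht).2⟩
  have hW1 : ∀ t ∈ Icc (0 : ℝ) T, SW 1 (X + (t / T) • F) ∧ W 1 (X + (t / T) • F) ≤ A := by
    intro t ht
    obtain ⟨h1, h2⟩ := (hW3 t ht).1.mono (hV t).zero (show 1 ≤ 3 by norm_num)
    exact ⟨h1, h2.trans (hW3 t ht).2⟩
  have hn1 : ∀ t ∈ Icc (0 : ℝ) T, n1 (X + (t / T) • F) ≤ A := fun t ht =>
    (n1_le_W (hV t) (hW1 t ht).1).trans (hW1 t ht).2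
  have hct : ∀ k, ContinuousOn (fun t => (X + (t / T) • F) k) (Icc (0 : ℝ) T) := by
    intro k
    have : Continuous fun t : ℝ => X k + (t / T) • F k := by fun_prop
    exact this.continuousOn
  have hBc : ∀ k, ContinuousOn (fun t => Bk (X + (t / T) • F) (X + (t / T) • F) k)
      (Icc (0 : ℝ) T) := fun k => bk_continuousOn (A := A)
        (fun t ht => ⟨hV t, hn1 t ht⟩) (fun t ht => ⟨hV t, hn1 t ht⟩) hct hct k
  refine ⟨fun t ht => ⟨hV t, hW2 t ht⟩, hct, fun t ht => ?_, fun k => ?_, fun k t ht => ?_⟩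
  · obtain ⟨h1, h2⟩ := bk_isV (hV t) (hV t) (hW1 t ht).1 (hW2 t ht).1
    obtain ⟨h3, h4⟩ := Mu_isV ν m (hV t) (hW3 t ht).1
    refine ⟨h1.add h3, (n1_add_le h1 h3).trans (add_le_add (h2.trans ?_) (h4.trans ?_))⟩
    · have := mul_le_mul (hW1 t ht).2 (hW2 t ht).2 (W_nonneg _ _) hA0
      nlinarith
    · exact mul_le_mul_of_nonneg_left (hW3 t ht).2
        (add_nonneg (abs_nonneg _) (Finset.sum_nonneg fun i _ => abs_nonneg _))
  · have h1 : ContinuousOn (fun t : ℝ => mu ν m k • (X + (t / T) • F) k) (Icc (0 : ℝ) T) :=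
      (hct k).fun_const_smul (mu ν m k)
    exact (hBc k).add h1
  · have h1 : ∀ s : ℝ, ((T⁻¹ • F) k - mu ν m k • (X + (s / T) • F) k -
        Bk (X + (s / T) • F) (X + (s / T) • F) k +
        (Bk (X + (s / T) • F) (X + (s / T) • F) + Mu ν m (X + (s / T) • F)) k) =
        T⁻¹ • F k := by
      intro s
      show T⁻¹ • F k - mu ν m k • (X + (s / T) • F) k -
        Bk (X + (s / T) • F) (X + (s / T) • F) k +
        (Bk (X + (s / T) • F) (X + (s / T) • F) k + mu ν m k • (X + (s / T) • F) k) = _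
      abel
    simp_rw [h1]
    rw [intervalIntegral.integral_const]
    show X k + (t / T) • F k = X k + ((0 : ℝ) / T) • F k + (t - 0) • T⁻¹ • F k
    rw [zero_div, zero_smul, add_zero, sub_zero, smul_smul, div_eq_mul_inv]

theorem impulse (hd : d = 2 ∨ d = 3) (hν : 0 < ν) (he : ∀ i, IsV (e i) ∧ SW 4 (e i))
    {Θ : Type} [TopologicalSpace Θ] [CompactSpace Θ] {x : Θ → Sq d} (hx : VCont x)
    {c : Θ → Fin n → ℝ} (hc : Continuous c) {δ : ℝ} (hδ : 0 < δ) :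
    Inst ν m e δ x (fun θ => x θ + Comb e (c θ)) := by
  intro ε hε
  obtain ⟨θ₀, hθ₀, hstab⟩ := stab_smooth hd hν m
  obtain ⟨ε', hε', hε1, hε2⟩ : ∃ ε' > 0, 10 * ε' < ε ∧ 10 * ε' < θ₀ := by
    refine ⟨min ε θ₀ / 20, by positivity, ?_, ?_⟩
    · have := min_le_left ε θ₀
      have h0 : 0 < min ε θ₀ := lt_min hε hθ₀
      linarith
    · have := min_le_right ε θ₀
      have h0 : 0 < min ε θ₀ := lt_min hε hθ₀
      linarith
  obtain ⟨R, hR⟩ := tr_close_unif hx hε'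
  obtain ⟨Mx, hMx, hMx'⟩ := hx.bdd
  obtain ⟨C3, hC3, hC3'⟩ := W_tr_le (d := d) R 3
  obtain ⟨Cc, hCc, hCc'⟩ := imp_bdd hc
  let X : Θ → Sq d := fun θ => tr (bx d R) (x θ)
  let F : Θ → Sq d := fun θ => Comb e (c θ)
  have hX : ∀ θ, IsV (X θ) := fun θ => (tr_isV (hx.V θ) fun k hk => bx_neg hk).1
  have hXr : ∀ θ, Rap (X θ) := fun θ => (tr_fs (x θ)).rap
  have hF : ∀ θ, IsV (F θ) := fun θ => comb_isV (fun i => (he i).1) _
  have hF4 : ∀ θ, SW 4 (F θ) := fun θ => (comb_SW (fun i => (he i).2) _).1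
  have he3 : ∀ i, SW 3 (e i) := fun i => ((he i).2.mono (he i).1.zero (show 3 ≤ 4 by norm_num)).1
  let A : ℝ := C3 * Mx + ∑ i, Cc * W 3 (e i)
  have hA : ∀ θ, W 3 (X θ) + W 3 (F θ) ≤ A := by
    intro θ
    refine add_le_add ((hC3' _ (hx.V θ)).trans (mul_le_mul_of_nonneg_left (hMx' θ) hC3))
      ((comb_SW he3 (c θ)).2.trans (Finset.sum_le_sum fun i _ => ?_))
    exact mul_le_mul_of_nonneg_right (hCc' θ i) (W_nonneg _ _)
  have hA0 : 0 ≤ A := add_nonneg (mul_nonneg hC3 hMx)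
    (Finset.sum_nonneg fun i _ => mul_nonneg hCc (W_nonneg _ _))
  let ρ : ℝ := 2 * A * A + (|ν| + ∑ i, |m i|) * A
  have hm0 : 0 ≤ |ν| + ∑ i, |m i| :=
    add_nonneg (abs_nonneg _) (Finset.sum_nonneg fun i _ => abs_nonneg _)
  have hρ : 0 ≤ ρ := by positivity
  -- the time
  obtain ⟨T, hT, hTδ, hT1, hT2⟩ : ∃ T, 0 < T ∧ T < δ ∧ 3 * A * T ≤ 1 ∧ ρ * T ≤ ε' := by
    refine ⟨min (δ / 2) (min (1 / (3 * A + 1)) (ε' / (ρ + 1))), by positivity, ?_, ?_, ?_⟩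
    · exact (min_le_left _ _).trans_lt (half_lt_self hδ)
    · have h1 : min (δ / 2) (min (1 / (3 * A + 1)) (ε' / (ρ + 1))) ≤ 1 / (3 * A + 1) :=
        (min_le_right _ _).trans (min_le_left _ _)
      refine (mul_le_mul_of_nonneg_left h1 (by positivity)).trans ?_
      rw [mul_one_div, div_le_one (by positivity)]
      linarith
    · have h1 : min (δ / 2) (min (1 / (3 * A + 1)) (ε' / (ρ + 1))) ≤ ε' / (ρ + 1) :=
        (min_le_right _ _).trans (min_le_right _ _)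
      refine (mul_le_mul_of_nonneg_left h1 hρ).trans ?_
      rw [mul_div_assoc', div_le_iff₀ (by positivity)]
      nlinarith
  have hexp : Real.exp (3 * A * T) ≤ 3 :=
    (Real.exp_le_exp.2 hT1).trans Real.exp_one_lt_three.le
  refine ⟨T, hT, hTδ, Nr.single hT (fun θ => T⁻¹ • c θ) (by fun_prop) hε' ?_⟩
  intro θ w hw hwx
  obtain ⟨p1, p2, p3, p4, p5⟩ := imp_path (hX θ) (hF θ) (hXr θ 4) (hF4 θ) hT (hA θ) ν m
  have hf : Comb e (T⁻¹ • c θ) = T⁻¹ • F θ := comb_smul _ _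
  have h0 : X θ + ((0 : ℝ) / T) • F θ = X θ := by rw [zero_div, zero_smul, add_zero]
  have hT' : X θ + (T / T) • F θ = X θ + F θ := by rw [div_self hT.ne', one_smul]
  have hxX : n1 (x θ - X θ) < ε' := hR θ
  have hwX : n1 (w - X θ) ≤ 2 * ε' := by
    have := n1_tri hw (hx.V θ) (hX θ)
    linarith
  have hval : Real.exp (3 * A * T) * (n1 (w - X θ) + ρ * T) ≤ 9 * ε' := by
    have h1 : n1 (w - X θ) + ρ * T ≤ 3 * ε' := by linarith
    have h2 : 0 ≤ n1 (w - X θ) + ρ * T := add_nonneg (n1_nonneg _) (mul_nonneg hρ hT.le)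
    calc Real.exp (3 * A * T) * (n1 (w - X θ) + ρ * T) ≤ 3 * (3 * ε') :=
          mul_le_mul hexp h1 h2 (by norm_num)
      _ = 9 * ε' := by ring
  obtain ⟨u, hu, hu0, huT⟩ := hstab T A ρ hT.le hA0 hρ (T⁻¹ • F θ) ((hF θ).smul _)
    (fun t => X θ + (t / T) • F θ)
    (fun t => Bk (X θ + (t / T) • F θ) (X θ + (t / T) • F θ) + Mu ν m (X θ + (t / T) • F θ))
    p1 p2 p3 p4 p5 w hw (by
      show Real.exp (3 * A * T) * (n1 (w - (X θ + ((0 : ℝ) / T) • F θ)) + ρ * T) < θ₀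
      rw [h0]; linarith)
  refine ⟨u, ?_, hu0, ?_⟩
  · show Sol ν m (Comb e (T⁻¹ • c θ)) T u
    rw [hf]; exact hu
  · have h1 := huT T ⟨hT.le, le_refl _⟩
    have h2 : n1 (u T - (X θ + F θ)) ≤ 9 * ε' := by
      have h3 : n1 (u T - (X θ + (T / T) • F θ)) ≤
          Real.exp (3 * A * T) * (n1 (w - (X θ + ((0 : ℝ) / T) • F θ)) + ρ * T) := h1
      rw [hT', h0] at h3
      exact h3.trans hval
    have h3 : n1 (X θ + F θ - (x θ + F θ)) < ε' := by
      rw [add_sub_add_right_eq_sub, n1_sub_comm]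
      exact hxX
    have h4 := n1_tri (hu.V T ⟨hT.le, le_refl _⟩) ((hX θ).add (hF θ)) ((hx.V θ).add (hF θ))
    show n1 (u T - (x θ + F θ)) < ε
    linarith

theorem mem_DD (hd : d = 2 ∨ d = 3) (hν : 0 < ν) (he : ∀ i, IsV (e i) ∧ SW 4 (e i)) (i : Fin n) :
    e i ∈ DD ν m e := by
  classical
  refine ⟨(he i).1, fun Θ _ _ x hx s hs δ hδ => ?_⟩
  have h1 : Continuous fun θ => (Pi.single i (s θ) : Fin n → ℝ) := by
    refine continuous_pi fun j => ?_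
    by_cases hj : j = i
    · subst hj
      simpa using hs
    · simp only [Pi.single_eq_of_ne hj]
      exact continuous_const
  have h2 := impulse (m := m) hd hν he hx h1 hδ
  simp_rw [comb_single] at h2
  exact h2

theorem DD_zero (hd : d = 2 ∨ d = 3) (hν : 0 < ν) (he : ∀ i, IsV (e i) ∧ SW 4 (e i)) :
    (0 : Sq d) ∈ DD ν m e := by
  refine ⟨isV_zero, fun Θ _ _ x hx s hs δ hδ => ?_⟩
  have h2 := impulse (m := m) hd hν he hx (c := fun _ => 0) continuous_const hδ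
  simp_rw [comb_zero] at h2
  simp_rw [smul_zero]
  exact h2

theorem DD_smul {v : Sq d} (hv : v ∈ DD ν m e) (t : ℝ) : t • v ∈ DD ν m e := by
  refine ⟨hv.1.smul t, fun Θ _ _ x hx s hs δ hδ => ?_⟩
  have h := hv.2 Θ x hx (fun θ => s θ * t) (hs.mul continuous_const) δ hδ
  simp_rw [mul_smul] at h
  exact h

theorem DD_add {v w : Sq d} (hv : v ∈ DD ν m e) (hw : w ∈ DD ν m e) : v + w ∈ DD ν m e := by
  refine ⟨hv.1.add hw.1, fun Θ _ _ x hx s hs δ hδ => ?_⟩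
  have h1 := hv.2 Θ x hx s hs (δ / 2) (half_pos hδ)
  have h2 := hw.2 Θ (fun θ => x θ + s θ • v) (hx.add_smul hs hv.1) s hs (δ / 2) (half_pos hδ)
  have h3 := h1.trans h2
  rw [add_halves] at h3
  simp_rw [smul_add, ← add_assoc]
  exact h3

theorem DD_closed {v : Sq d} (hv : IsV v) (h : ∀ ε > 0, ∃ w ∈ DD ν m e, n1 (w - v) < ε) :
    v ∈ DD ν m e := by
  refine ⟨hv, fun Θ _ _ x hx s hs δ hδ => ?_⟩
  obtain ⟨S, hS, hS'⟩ := imp_bdd' hs
  refine Inst.closed (fun θ => (hx.V θ).add (hv.smul _)) fun ε hε => ?_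
  obtain ⟨w, hw, hwv⟩ := h (ε / (S + 1)) (by positivity)
  refine ⟨fun θ => x θ + s θ • w, fun θ => (hx.V θ).add (hw.1.smul _), hw.2 Θ x hx s hs δ hδ,
    fun θ => ?_⟩
  have h1 : x θ + s θ • w - (x θ + s θ • v) = s θ • (w - v) := by
    rw [add_sub_add_left_eq_sub, smul_sub]
  rw [h1, n1_smul]
  calc |s θ| * n1 (w - v) ≤ (S + 1) * (ε / (S + 1)) :=
        mul_le_mul ((hS' θ).trans (by linarith)) hwv.le (n1_nonneg _) (by positivity)
    _ = ε := by field_simp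

end NSC
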