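import Pool.Agent.Work.MP_57e339_an.GalT
import Pool.Agent.Work.MP_57e339_an.Imp

/-! Module JumpM: a short time solution with a strong force of nonzero mean. -/

open MeasureTheory Set Filter Topology
open scoped BigOperators
noncomputable section
namespace NSC
variable {d : ℕ}

theorem jumpM (hd : d = 2 ∨ d = 3) {ν : ℝ} (hν : 0 < ν) {v₀ w : Sq d} (hv₀ : IsV v₀)
    (hw : IsV w) (m₀ g : Fin d → ℝ) {δ₀ : ℝ} (hδ₀ : 0 < δ₀) :
    ∃ δ : ℝ, 0 < δ ∧ δ < δ₀ ∧ ∃ u : ℝ → Sq d,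
      SolM ν (fun t i => m₀ i + t / δ * g i) (δ⁻¹ • w) δ u ∧ u 0 = v₀ := by
  obtain ⟨θ₀, hθ₀, H⟩ := galT hd hν
  obtain ⟨ε, hε, hε2⟩ : ∃ ε > 0, 10 * ε < θ₀ := ⟨θ₀ / 20, by positivity, by linarith⟩
  obtain ⟨R1, hR1⟩ := tr_close hv₀ hε
  obtain ⟨R2, hR2⟩ := tr_close hw hε
  have hRv := hR1 (max R1 R2) (le_max_left _ _)
  have hRw := hR2 (max R1 R2) (le_max_right _ _)
  generalize max R1 R2 = R at hRv hRw
  obtain ⟨a, ha⟩ : ∃ a, a = tr (bx d R) v₀ := ⟨_, rfl⟩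
  obtain ⟨b, hb⟩ : ∃ b, b = tr (bx d R) w := ⟨_, rfl⟩
  rw [← ha] at hRv
  rw [← hb] at hRw
  have haV : IsV a := by rw [ha]; exact (tr_isV hv₀ fun k hk => bx_neg hk).1
  have hbV : IsV b := by rw [hb]; exact (tr_isV hw fun k hk => bx_neg hk).1
  have haR : Rap a := by rw [ha]; exact (tr_fs v₀).rap
  have hbR : Rap b := by rw [hb]; exact (tr_fs w).rap
  obtain ⟨A, hA⟩ : ∃ A, A = W 3 a + W 3 b := ⟨_, rfl⟩
  have hA0 : 0 ≤ A := by rw [hA]; exact add_nonneg (W_nonneg 3 a) (W_nonneg 3 b)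
  obtain ⟨κ, hκ⟩ : ∃ κ, κ = 2 * A * A + (|ν| + ∑ i, (|m₀ i| + |g i|)) * A := ⟨_, rfl⟩
  have hm0 : 0 ≤ |ν| + ∑ i, (|m₀ i| + |g i|) :=
    add_nonneg (abs_nonneg _) (Finset.sum_nonneg fun i _ => add_nonneg (abs_nonneg _)
      (abs_nonneg _))
  have hκ0 : 0 ≤ κ := by rw [hκ]; positivity
  obtain ⟨δ, hδ, hδδ, hδ1, hδ2⟩ : ∃ δ, 0 < δ ∧ δ < δ₀ ∧ 3 * A * δ ≤ 1 ∧ κ * δ ≤ ε := by
    refine ⟨min (δ₀ / 2) (min (1 / (3 * A + 1)) (ε / (κ + 1))), by positivity, ?_, ?_, ?_⟩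
    · exact (min_le_left _ _).trans_lt (half_lt_self hδ₀)
    · have h1 : min (δ₀ / 2) (min (1 / (3 * A + 1)) (ε / (κ + 1))) ≤ 1 / (3 * A + 1) :=
        (min_le_right _ _).trans (min_le_left _ _)
      refine (mul_le_mul_of_nonneg_left h1 (by positivity)).trans ?_
      rw [mul_one_div, div_le_one (by positivity)]
      linarith
    · have h1 : min (δ₀ / 2) (min (1 / (3 * A + 1)) (ε / (κ + 1))) ≤ ε / (κ + 1) :=
        (min_le_right _ _).trans (min_le_right _ _)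
      refine (mul_le_mul_of_nonneg_left h1 hκ0).trans ?_
      rw [mul_div_assoc', div_le_iff₀ (by positivity)]
      nlinarith
  have hexp : Real.exp (3 * A * δ) ≤ 3 :=
    (Real.exp_le_exp.2 hδ1).trans Real.exp_one_lt_three.le
  refine ⟨δ, hδ, hδδ, ?_⟩
  have key : ∀ m : Fin d → ℝ, _ := fun m =>
    imp_path haV hbV (haR 4) (hbR 4) hδ (le_of_eq hA.symm) ν m
  obtain ⟨p1, p2, -, -, -⟩ := key m₀
  have hn1 : ∀ t ∈ Icc (0 : ℝ) δ, n1 (a + (t / δ) • b) ≤ A := by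
    intro t ht
    obtain ⟨h1, h2, h3⟩ := p1 t ht
    have h4 := SW.mono h2 h1.zero (Nat.le_succ 1)
    exact (n1_le_W h1 h4.1).trans (h4.2.trans h3)
  have hmc : Continuous fun (t : ℝ) (i : Fin d) => m₀ i + t / δ * g i := by fun_prop
  have hmuc : ∀ k, Continuous fun t : ℝ => mu ν (fun i => m₀ i + t / δ * g i) k := by
    intro k
    unfold mu
    fun_prop
  have hρ0 : 0 ≤ δ⁻¹ * ε + κ := by positivity
  have hbw : n1 (b - w) < ε := by rw [n1_sub_comm]; exact hRw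
  have h0 : a + ((0 : ℝ) / δ) • b = a := by rw [zero_div, zero_smul, add_zero]
  obtain ⟨u, hu, hu0⟩ := H (fun t i => m₀ i + t / δ * g i) hmc δ (3 * A) (δ⁻¹ * ε + κ) A hδ.le
    (by positivity) hρ0 (δ⁻¹ • w) (hw.smul _) (fun t => a + (t / δ) • b)
    (fun t => δ⁻¹ • (b - w) + (Bk (a + (t / δ) • b) (a + (t / δ) • b) +
      Mu ν (fun i => m₀ i + t / δ * g i) (a + (t / δ) • b)))
    (fun t ht => ⟨(p1 t ht).1, hn1 t ht⟩) p2 (by
      intro t ht
      obtain ⟨-, -, q3, -, -⟩ := key (fun i => m₀ i + t / δ * g i)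
      obtain ⟨h1, h2⟩ := q3 t ht
      have h3 : IsV (δ⁻¹ • (b - w)) := (hbV.sub hw).smul _
      refine ⟨h3.add h1, (n1_add_le h3 h1).trans (add_le_add ?_ (h2.trans ?_))⟩
      · rw [n1_smul, abs_of_pos (inv_pos.2 hδ)]
        exact mul_le_mul_of_nonneg_left hbw.le (inv_pos.2 hδ).le
      · rw [hκ]
        have h4 : ∑ i, |m₀ i + t / δ * g i| ≤ ∑ i, (|m₀ i| + |g i|) := by
          refine Finset.sum_le_sum fun i _ => (abs_add_le _ _).trans ?_
          have h5 : |t / δ| ≤ 1 := by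
            rw [abs_of_nonneg (div_nonneg ht.1 hδ.le)]
            exact (div_le_one hδ).2 ht.2
          have h6 : |t / δ * g i| ≤ |g i| := by
            rw [abs_mul]
            calc |t / δ| * |g i| ≤ 1 * |g i| := mul_le_mul_of_nonneg_right h5 (abs_nonneg _)
              _ = |g i| := one_mul _
          linarith
        have h7 : (|ν| + ∑ i, |m₀ i + t / δ * g i|) * A ≤
            (|ν| + ∑ i, (|m₀ i| + |g i|)) * A :=
          mul_le_mul_of_nonneg_right (by linarith) hA0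
        linarith) (by
      intro k
      have hBc := bk_continuousOn (A := A)
        (fun t ht => ⟨(p1 t ht).1, hn1 t ht⟩) (fun t ht => ⟨(p1 t ht).1, hn1 t ht⟩) p2 p2 k
      have h1 : ContinuousOn (fun t : ℝ => mu ν (fun i => m₀ i + t / δ * g i) k •
          (a + (t / δ) • b) k) (Icc (0 : ℝ) δ) := (hmuc k).continuousOn.smul (p2 k)
      exact continuousOn_const.add (hBc.add h1)) (by
      intro k t ht
      have h1 : ∀ s : ℝ, ((δ⁻¹ • w) k - mu ν (fun i => m₀ i + s / δ * g i) k •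
          (a + (s / δ) • b) k - Bk (a + (s / δ) • b) (a + (s / δ) • b) k +
          (δ⁻¹ • (b - w) + (Bk (a + (s / δ) • b) (a + (s / δ) • b) +
          Mu ν (fun i => m₀ i + s / δ * g i) (a + (s / δ) • b))) k) = δ⁻¹ • b k := by
        intro s
        show δ⁻¹ • w k - mu ν (fun i => m₀ i + s / δ * g i) k • (a + (s / δ) • b) k -
          Bk (a + (s / δ) • b) (a + (s / δ) • b) k +
          (δ⁻¹ • (b k - w k) + (Bk (a + (s / δ) • b) (a + (s / δ) • b) k +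
            mu ν (fun i => m₀ i + s / δ * g i) k • (a + (s / δ) • b) k)) = _
        rw [smul_sub]
        abel
      show (a + (t / δ) • b) k = (a + ((0 : ℝ) / δ) • b) k + ∫ s in (0 : ℝ)..t, _
      simp_rw [h1]
      rw [intervalIntegral.integral_const]
      show a k + (t / δ) • b k = a k + ((0 : ℝ) / δ) • b k + (t - 0) • δ⁻¹ • b k
      rw [zero_div, zero_smul, add_zero, sub_zero, smul_smul, div_eq_mul_inv]) (by
      intro t ht z hz hzf
      obtain ⟨h1, h2, h3⟩ := p1 t ht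
      have h4 := tri_smooth h1 h2 hz hzf
      have h5 : 3 * W 2 (a + (t / δ) • b) * n1 z ^ 2 ≤ 3 * A * n1 z ^ 2 :=
        mul_le_mul_of_nonneg_right (by linarith) (sq_nonneg _)
      have h6 : 0 ≤ ν / 4 * n2 z ^ 2 := by positivity
      linarith) v₀ hv₀ (by
      show Real.exp (3 * A * δ) * (n1 (v₀ - (a + ((0 : ℝ) / δ) • b)) + (δ⁻¹ * ε + κ) * δ) < θ₀
      rw [h0]
      have h1 : (δ⁻¹ * ε + κ) * δ = ε + κ * δ := by field_simp
      rw [h1]
      have h2 : n1 (v₀ - a) + (ε + κ * δ) ≤ 3 * ε := by linarith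
      have h3 : 0 ≤ n1 (v₀ - a) + (ε + κ * δ) :=
        add_nonneg (n1_nonneg _) (add_nonneg hε.le (mul_nonneg hκ0 hδ.le))
      calc Real.exp (3 * A * δ) * (n1 (v₀ - a) + (ε + κ * δ)) ≤ 3 * (3 * ε) :=
            mul_le_mul hexp h2 h3 (by norm_num)
        _ < θ₀ := by linarith)
  exact ⟨u, hu, hu0⟩

end NSC
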