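import Pool.Agent.Work.MP_57e339_an.Cat
import Pool.Agent.Work.MP_57e339_an.PrB

/-! Module Torus: the statement on the torus: periodic fields, `H^1` fields with arbitrary mean,
the Navier-Stokes equations in Fourier variables. -/

open MeasureTheory Set Filter Topology
open scoped BigOperators
noncomputable section
namespace NSC
variable {d n : ℕ}

/-- the period `2 pi l` -/
def per (l : K d) : Rv d := WithLp.toLp 2 fun i => 2 * Real.pi * (l i : ℝ)

/-- Fourier coefficients of a `2 pi`-periodic function -/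
def pc (f : Rv d → ℝ) (k : K d) : ℂ :=
  ((2 * Real.pi) ^ d : ℝ)⁻¹ • ∫ x in {x : Rv d | ∀ i, x i ∈ Ico (0 : ℝ) (2 * Real.pi)},
    Complex.exp (-(Complex.I * (kx k x : ℂ))) * (f x : ℂ)

/-- the space `V` of the problem: real divergence free `H^1` vector fields on the torus -/
structure IsH (u : Sq d) : Prop where
  dv : ∀ k, dot k (u k) = 0
  sy : ∀ k, u (-k) = cj (u k)
  sm : Summable fun k => (1 + nk k ^ 2) * ‖u k‖ ^ 2

/-- the `H^1` norm -/
def nH (u : Sq d) : ℝ := Real.sqrt (∑' k, (1 + nk k ^ 2) * ‖u k‖ ^ 2)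

/-- Solutions of the Navier-Stokes equations on `[0,T]` with force `η`. -/
structure NS (ν : ℝ) (η : ℝ → Sq d) (T : ℝ) (u : ℝ → Sq d) : Prop where
  V : ∀ t ∈ Icc (0 : ℝ) T, IsH (u t)
  bd : ∃ M, ∀ t ∈ Icc (0 : ℝ) T, nH (u t) ≤ M
  ct : ∀ k, ContinuousOn (fun t => u t k) (Icc (0 : ℝ) T)
  eq : ∀ k, ∀ t ∈ Icc (0 : ℝ) T, u t k = u 0 k +
    ∫ s in (0 : ℝ)..t, (η s k - ((ν * nk k ^ 2 : ℝ) : ℂ) • u s k - Bk (u s) (u s) k)

/-- the constant field `M` as a sequence -/
def cst (M : Cv d) : Sq d := fun k => if k = 0 then M else 0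

theorem torus_cst_ne {M : Cv d} {k : K d} (hk : k ≠ 0) : cst M k = 0 := by
  unfold cst; rw [if_neg hk]

theorem torus_cst_zero (M : Cv d) : cst M (0 : K d) = M := by
  unfold cst; rw [if_pos rfl]

/-- subtracting the mean -/
theorem isH_split {u : Sq d} (hu : IsH u) : ∃ (m : Fin d → ℝ) (v : Sq d),
    (∀ i, (u 0) i = (m i : ℂ)) ∧ IsV v ∧ u = v + cst (u 0) := by
  classical
  refine ⟨fun i => ((u 0) i).re, fun k => if k = 0 then 0 else u k, ?_, ?_, ?_⟩
  · intro i
    have h1 := hu.sy 0
    rw [neg_zero] at h1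
    have h2 : (u 0) i = (starRingEnd ℂ) ((u 0) i) := by
      conv_lhs => rw [h1]
      simp [cj]
    exact (Complex.conj_eq_iff_re.1 h2.symm).symm
  · constructor
    · simp
    · intro k
      by_cases hk : k = 0
      · simp [hk, dot_zero]
      · simp only [if_neg hk]; exact hu.dv k
    · intro k
      by_cases hk : k = 0
      · simp [hk, cj_zero]
      · have hk' : -k ≠ 0 := neg_ne_zero.2 hk
        simp only [if_neg hk, if_neg hk']
        exact hu.sy k
    · refine Summable.of_nonneg_of_le (fun k => by positivity) (fun k => ?_) hu.sm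
      by_cases hk : k = 0
      · simp only [if_pos hk, norm_zero]
        have : (0 : ℝ) ≤ (1 + nk k ^ 2) * ‖u k‖ ^ 2 := by positivity
        simpa using this
      · simp only [if_neg hk]
        nlinarith [sq_nonneg ‖u k‖]
  · funext k
    rw [Pi.add_apply]
    by_cases hk : k = 0
    · rw [hk, torus_cst_zero]; simp
    · rw [torus_cst_ne hk]; simp [hk]

theorem torus_term_le {v : Sq d} (hv : IsV v) (M : Cv d) (k : K d) :
    (1 + nk k ^ 2) * ‖(v + cst M) k‖ ^ 2 ≤
      2 * (nk k ^ 2 * ‖v k‖ ^ 2) + (if k = 0 then ‖M‖ ^ 2 else 0) := by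
  by_cases hk : k = 0
  · rw [hk, if_pos rfl, Pi.add_apply, hv.zero, torus_cst_zero, nk_zero]
    simp
  · rw [if_neg hk, Pi.add_apply, torus_cst_ne hk, add_zero, add_zero]
    have h1 := one_le_nk hk
    nlinarith [sq_nonneg ‖v k‖, mul_nonneg (sq_nonneg ‖v k‖) (by nlinarith : 0 ≤ nk k ^ 2 - 1)]

theorem torus_summable {v : Sq d} (hv : IsV v) (M : Cv d) :
    Summable fun k => (1 + nk k ^ 2) * ‖(v + cst M) k‖ ^ 2 := by
  refine Summable.of_nonneg_of_le (fun k => by positivity) (torus_term_le hv M) ?_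
  refine (hv.sm.mul_left 2).add ?_
  apply summable_of_ne_finset_zero (s := {0})
  intro k hk
  rw [Finset.mem_singleton] at hk
  rw [if_neg hk]

theorem torus_tsum_le {v : Sq d} (hv : IsV v) (M : Cv d) :
    ∑' k, (1 + nk k ^ 2) * ‖(v + cst M) k‖ ^ 2 ≤ 2 * n1 v ^ 2 + ‖M‖ ^ 2 := by
  classical
  have hs2 : Summable fun k : K d => if k = 0 then ‖M‖ ^ 2 else 0 := by
    apply summable_of_ne_finset_zero (s := {0})
    intro k hk
    rw [Finset.mem_singleton] at hk
    rw [if_neg hk]
  have h1 := (torus_summable hv M).tsum_le_tsum (torus_term_le hv M)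
    ((hv.sm.mul_left 2).add hs2)
  refine h1.trans (le_of_eq ?_)
  rw [(hv.sm.mul_left 2).tsum_add hs2, tsum_mul_left, n1_sq hv, tsum_ite_eq]

theorem isH_of_isV {v : Sq d} (hv : IsV v) {m : Fin d → ℝ} {M : Cv d}
    (hM : ∀ i, M i = (m i : ℂ)) : IsH (v + cst M) := by
  constructor
  · intro k
    by_cases hk : k = 0
    · rw [hk, dot_zero_left]
    · rw [Pi.add_apply, torus_cst_ne hk, add_zero]; exact hv.dv k
  · intro k
    by_cases hk : k = 0
    · rw [hk, neg_zero, Pi.add_apply, hv.zero, zero_add, torus_cst_zero]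
      ext i
      simp [cj, hM]
    · have hk' : -k ≠ 0 := neg_ne_zero.2 hk
      rw [Pi.add_apply, Pi.add_apply, torus_cst_ne hk, torus_cst_ne hk', add_zero, add_zero]
      exact hv.sy k
  · exact torus_summable hv M

theorem nH_le {v : Sq d} (hv : IsV v) : nH v ≤ 2 * n1 v := by
  have h1 := torus_tsum_le hv 0
  have h2 : v + cst (0 : Cv d) = v := by
    funext k
    rw [Pi.add_apply]
    by_cases hk : k = 0
    · rw [hk, torus_cst_zero, add_zero]
    · rw [torus_cst_ne hk, add_zero]
  rw [h2] at h1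
  unfold nH
  rw [Real.sqrt_le_left (by have := n1_nonneg v; linarith)]
  refine h1.trans ?_
  rw [norm_zero]
  nlinarith [sq_nonneg (n1 v)]

theorem torus_bk {v : Sq d} (hv : IsV v) {m : Fin d → ℝ} {M : Cv d}
    (hM : ∀ i, M i = (m i : ℂ)) (ν : ℝ) (k : K d) :
    ((ν * nk k ^ 2 : ℝ) : ℂ) • (v + cst M) k + Bk (v + cst M) (v + cst M) k =
      mu ν m k • v k + Bk v v k := by
  classical
  by_cases hk : k = 0
  · rw [hk, bk_at_zero, bk_at_zero, hv.zero, nk_zero]
    simp
  · have hsum : ∑' j, dot k ((v + cst M) j) • (v + cst M) (k - j) =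
        (∑' j, dot k (v j) • v (k - j)) + dot k M • v k := by
      have h1 : ∀ j, dot k ((v + cst M) j) • (v + cst M) (k - j) =
          dot k (v j) • v (k - j) + (if j = 0 then dot k M • v k else 0) := by
        intro j
        by_cases hj : j = 0
        · rw [hj, if_pos rfl, sub_zero, Pi.add_apply, Pi.add_apply, hv.zero, torus_cst_zero,
            torus_cst_ne hk, zero_add, add_zero, dot_zero, zero_smul, zero_add]
        · rw [if_neg hj, Pi.add_apply, Pi.add_apply, torus_cst_ne hj, add_zero, add_zero]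
          by_cases hj2 : k - j = 0
          · have hjk : j = k := (sub_eq_zero.1 hj2).symm
            rw [hjk, hv.dv k, zero_smul, zero_smul]
          · rw [torus_cst_ne hj2, add_zero]
      rw [tsum_congr h1]
      have hs2 : Summable fun j : K d => if j = 0 then dot k M • v k else 0 := by
        apply summable_of_ne_finset_zero (s := {0})
        intro j hj
        rw [Finset.mem_singleton] at hj
        rw [if_neg hj]
      rw [(bk_summable hv hv k).tsum_add hs2, tsum_ite_eq]
    have hdot : dot k M = ∑ i, (m i : ℂ) * (k i : ℂ) := by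
      unfold dot
      refine Finset.sum_congr rfl fun i _ => ?_
      rw [hM, mul_comm]
    have hP : Pk k (dot k M • v k) = dot k M • v k := by
      rw [Pk_smul, Pk_of_dot hk (hv.dv k)]
    have hB : Bk (v + cst M) (v + cst M) k = Bk v v k + Complex.I • (dot k M • v k) := by
      unfold Bk
      rw [hsum, Pk_add, smul_add, hP]
    rw [hB, Pi.add_apply, torus_cst_ne hk, add_zero, hdot]
    unfold mu
    rw [add_smul, mul_smul Complex.I]
    push_cast
    abel

/-- adding the mean to a solution of the mean zero problem -/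
theorem NS_of_SolT {ν : ℝ} {m : Fin d → ℝ} {e : Fin n → Sq d} (he : ∀ s, IsV (e s))
    {c : ℝ → Fin n → ℝ} {T : ℝ} {v : ℝ → Sq d} (h : SolT ν m e c T v) {M : Cv d}
    (hM : ∀ i, M i = (m i : ℂ)) :
    NS ν (fun t => Comb e (c t)) T (fun t => v t + cst M) := by
  constructor
  · intro t ht
    exact isH_of_isV (h.V t ht) hM
  · obtain ⟨B, hB⟩ := h.bd
    refine ⟨Real.sqrt (2 * B ^ 2 + ‖M‖ ^ 2), fun t ht => ?_⟩
    unfold nH
    apply Real.sqrt_le_sqrt
    refine (torus_tsum_le (h.V t ht) M).trans ?_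
    have h1 := hB t ht
    have h2 := n1_nonneg (v t)
    nlinarith
  · intro k
    simp only [Pi.add_apply]
    exact (h.ct k).add continuousOn_const
  · intro k t ht
    simp only [Pi.add_apply]
    have h1 := h.eq k t ht
    have h2 : ∫ s in (0 : ℝ)..t, (Comb e (c s) k - ((ν * nk k ^ 2 : ℝ) : ℂ) • (v s k + cst M k) -
        Bk (v s + cst M) (v s + cst M) k) =
        ∫ s in (0 : ℝ)..t, (Comb e (c s) k - mu ν m k • v s k - Bk (v s) (v s) k) := by
      apply intervalIntegral.integral_congr
      intro s hs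
      rw [uIcc_of_le ht.1] at hs
      have h3 := torus_bk (h.V s ⟨hs.1, hs.2.trans ht.2⟩) hM ν k
      simp only [Pi.add_apply] at h3
      simp only
      rw [sub_sub, sub_sub, h3]
    rw [h2, h1]
    abel

theorem torus_per_add (k l : K d) : per (k + l) = per k + per l := by
  ext i
  simp [per, mul_add]

theorem torus_per_sub (k l : K d) : per (k - l) = per k - per l := by
  ext i
  simp [per, mul_sub]

theorem torus_norm_per (l : K d) : ‖per l‖ = 2 * Real.pi * nk l := by
  rw [EuclideanSpace.norm_eq]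
  unfold nk per
  have h1 : (0 : ℝ) ≤ 2 * Real.pi := by positivity
  rw [← Real.sqrt_sq h1, ← Real.sqrt_mul (by positivity), Finset.mul_sum]
  congr 1
  refine Finset.sum_congr rfl fun i _ => ?_
  simp only [Real.norm_eq_abs, sq_abs, Real.sqrt_sq h1]
  ring

theorem torus_kx_per (k l : K d) : kx k (per l) = 2 * Real.pi * ((∑ i, k i * l i : ℤ) : ℝ) := by
  unfold kx per
  push_cast
  rw [Finset.mul_sum]
  refine Finset.sum_congr rfl fun i _ => ?_
  ring

theorem torus_exp_per (k l : K d) (x : Rv d) :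
    Complex.exp (-(Complex.I * (kx k (x + per l) : ℂ))) =
      Complex.exp (-(Complex.I * (kx k x : ℂ))) := by
  rw [kx_add, torus_kx_per]
  have h1 : -(Complex.I * ((kx k x + 2 * Real.pi * ((∑ i, k i * l i : ℤ) : ℝ) : ℝ) : ℂ)) =
      -(Complex.I * (kx k x : ℂ)) + ((-(∑ i, k i * l i) : ℤ) : ℂ) * (2 * Real.pi * Complex.I) := by
    push_cast
    ring
  rw [h1, Complex.exp_add, Complex.exp_int_mul_two_pi_mul_I, mul_one]

/-- periodization -/
def torusPer (f : Rv d → ℝ) : Rv d → ℝ := fun x => ∑' l : K d, f (x + per l)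

theorem torus_per_periodic (f : Rv d → ℝ) (x : Rv d) (l : K d) :
    torusPer f (x + per l) = torusPer f x := by
  unfold torusPer
  rw [← (Equiv.addLeft l).tsum_eq (fun l' => f (x + per l'))]
  refine tsum_congr fun l' => ?_
  simp only [Equiv.coe_addLeft]
  rw [torus_per_add, add_assoc]

/-- locally the periodization has one term -/
theorem torus_local (β : VF d) {x₀ : Rv d} {r : ℝ} (hr1 : r ≤ 1)
    (hs : Su β (Metric.ball x₀ r)) (y : Rv d) : ∃ l : K d, ∀ i, ∀ x ∈ Metric.ball y 1,
      torusPer (β i) x = β i (x + per l) := by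
  classical
  by_cases hex : ∃ (l : K d), ∃ x ∈ Metric.ball y 1, x + per l ∈ Metric.ball x₀ r
  · obtain ⟨l, x', hx', hl⟩ := hex
    refine ⟨l, fun i x hx => ?_⟩
    unfold torusPer
    apply tsum_eq_single
    intro l' hl'
    by_contra hne
    have h1 : x + per l' ∈ Metric.ball x₀ r := hs i (subset_tsupport _ hne)
    rw [Metric.mem_ball, dist_eq_norm] at h1 hl hx hx'
    have h2 : per (l' - l) = (x + per l' - x₀) - (x' + per l - x₀) - (x - y) + (x' - y) := by
      rw [torus_per_sub]; abel
    have h3 : ‖per (l' - l)‖ ≤ ‖x + per l' - x₀‖ + ‖x' + per l - x₀‖ + ‖x - y‖ + ‖x' - y‖ := by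
      rw [h2]
      refine (norm_add_le _ _).trans ?_
      gcongr
      refine (norm_sub_le _ _).trans ?_
      gcongr
      exact norm_sub_le _ _
    rw [torus_norm_per] at h3
    have h4 := one_le_nk (sub_ne_zero.2 hl')
    have h5 := Real.pi_gt_three
    nlinarith
  · push Not at hex
    refine ⟨0, fun i x hx => ?_⟩
    have h1 : ∀ l : K d, β i (x + per l) = 0 := by
      intro l
      by_contra hne
      exact hex l x hx (hs i (subset_tsupport _ hne))
    unfold torusPer
    rw [tsum_congr h1, h1]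
    simp

theorem torus_eventually (β : VF d) {x₀ : Rv d} {r : ℝ} (hr1 : r ≤ 1)
    (hs : Su β (Metric.ball x₀ r)) (y : Rv d) : ∃ l : K d, ∀ i,
      torusPer (β i) =ᶠ[𝓝 y] fun x => β i (x + per l) := by
  obtain ⟨l, hl⟩ := torus_local β hr1 hs y
  refine ⟨l, fun i => ?_⟩
  filter_upwards [Metric.ball_mem_nhds y one_pos] with x hx
  exact hl i x hx

/-- half open cubes -/
def torusQ (l : K d) : Set (Rv d) :=
  {x | ∀ i, x i ∈ Ico (2 * Real.pi * (l i : ℝ)) (2 * Real.pi * (l i : ℝ) + 2 * Real.pi)}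

theorem torus_Q_zero : torusQ (0 : K d) = {x : Rv d | ∀ i, x i ∈ Ico (0 : ℝ) (2 * Real.pi)} := by
  unfold torusQ
  simp

theorem torus_Q_meas (l : K d) : MeasurableSet (torusQ l) := by
  have h1 : torusQ l = ⋂ i, (fun x : Rv d => x i) ⁻¹'
      Ico (2 * Real.pi * (l i : ℝ)) (2 * Real.pi * (l i : ℝ) + 2 * Real.pi) := by
    ext x
    simp [torusQ]
  rw [h1]
  refine MeasurableSet.iInter fun i => ?_
  have h2 : Continuous fun x : Rv d => x i := by fun_prop
  exact h2.measurable measurableSet_Ico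

theorem torus_Q_iff (l : K d) (x : Rv d) : x ∈ torusQ l ↔ ∀ i, l i = ⌊x i / (2 * Real.pi)⌋ := by
  have hp : (0 : ℝ) < 2 * Real.pi := by positivity
  unfold torusQ
  rw [mem_setOf_eq]
  refine forall_congr' fun i => ?_
  rw [mem_Ico, eq_comm, Int.floor_eq_iff, le_div_iff₀ hp, div_lt_iff₀ hp]
  constructor
  · rintro ⟨h1, h2⟩
    exact ⟨by linarith, by linarith⟩
  · rintro ⟨h1, h2⟩
    exact ⟨by linarith, by linarith⟩

theorem torus_Q_disj : Pairwise (Function.onFun Disjoint (torusQ : K d → Set (Rv d))) := by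
  intro l l' hne
  rw [Function.onFun, Set.disjoint_left]
  intro x hx hx'
  apply hne
  rw [torus_Q_iff] at hx hx'
  funext i
  rw [hx i, hx' i]

theorem torus_Q_union : ⋃ l : K d, torusQ l = (univ : Set (Rv d)) := by
  rw [eq_univ_iff_forall]
  intro x
  rw [mem_iUnion]
  exact ⟨fun i => ⌊x i / (2 * Real.pi)⌋, (torus_Q_iff _ _).2 fun i => rfl⟩

theorem torus_Q_shift (l : K d) (x : Rv d) : x + per l ∈ torusQ l ↔ x ∈ torusQ (0 : K d) := by
  unfold torusQ
  rw [mem_setOf_eq, mem_setOf_eq]
  refine forall_congr' fun i => ?_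
  have h1 : (x + per l) i = x i + 2 * Real.pi * (l i : ℝ) := by simp [per]
  rw [h1, mem_Ico, mem_Ico]
  simp only [Pi.zero_apply, Int.cast_zero, mul_zero, zero_add]
  constructor
  · rintro ⟨h1, h2⟩
    exact ⟨by linarith, by linarith⟩
  · rintro ⟨h1, h2⟩
    exact ⟨by linarith, by linarith⟩

theorem torus_int_shift {E : Type*} [NormedAddCommGroup E] [NormedSpace ℝ E] (g : Rv d → E)
    (l : K d) : ∫ x in torusQ l, g x = ∫ x in torusQ (0 : K d), g (x + per l) := by
  rw [← integral_indicator (torus_Q_meas l), ← integral_indicator (torus_Q_meas 0),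
    ← integral_add_right_eq_self _ (per l)]
  congr 1
  funext x
  by_cases hx : x ∈ torusQ (0 : K d)
  · rw [indicator_of_mem hx, indicator_of_mem ((torus_Q_shift l x).2 hx)]
  · rw [indicator_of_notMem hx, indicator_of_notMem (fun h => hx ((torus_Q_shift l x).1 h))]

theorem torus_unfold {g : Rv d → ℂ} (hg : Integrable g) :
    ∫ x, g x = ∫ x in torusQ (0 : K d), ∑' l : K d, g (x + per l) := by
  have h1 : HasSum (fun l : K d => ∫ x in torusQ l, g x) (∫ x in ⋃ l : K d, torusQ l, g x) :=
    hasSum_integral_iUnion torus_Q_meas torus_Q_disj hg.integrableOn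
  rw [torus_Q_union, Measure.restrict_univ] at h1
  have h2 : HasSum (fun l : K d => ∫ x in torusQ l, ‖g x‖) (∫ x in ⋃ l : K d, torusQ l, ‖g x‖) :=
    hasSum_integral_iUnion torus_Q_meas torus_Q_disj hg.norm.integrableOn
  have h3 : HasSum (fun l : K d => ∫ x in torusQ (0 : K d), g (x + per l))
      (∫ x in torusQ (0 : K d), ∑' l : K d, g (x + per l)) := by
    apply hasSum_integral_of_summable_integral_norm
    · intro l
      exact (hg.comp_add_right (per l)).integrableOn
    · have h4 := h2.summable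
      refine h4.congr fun l => ?_
      exact (torus_int_shift (fun x => ‖g x‖) l)
  have h5 : (fun l : K d => ∫ x in torusQ (0 : K d), g (x + per l)) =
      fun l : K d => ∫ x in torusQ l, g x := by
    funext l
    exact (torus_int_shift g l).symm
  rw [h5] at h3
  exact h1.unique h3

/-- periodization of a field supported in a small ball -/
theorem periodize {β : VF d} {N : ℕ} (hβ : TFN N β) (hN : 1 ≤ N) (hdiv : Dfree β) {x₀ : Rv d}
    {r : ℝ} (hr1 : r ≤ 1) (hs : Su β (Metric.ball x₀ r)) :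
    ∃ b : VF d, (∀ i, ContDiff ℝ N (b i)) ∧ (∀ i x l, b i (x + per l) = b i x) ∧ Dfree b ∧
      (∀ i, tsupport (b i) ⊆ {x | ∃ l : K d, x + per l ∈ Metric.ball x₀ r}) ∧
      ∀ i k, pc (b i) k = fc (β i) k := by
  classical
  refine ⟨fun i => torusPer (β i), ?_, fun i x l => torus_per_periodic _ _ _, ?_, ?_, ?_⟩
  · intro i
    rw [contDiff_iff_contDiffAt]
    intro y
    obtain ⟨l, hl⟩ := torus_eventually β hr1 hs y
    refine ContDiffAt.congr_of_eventuallyEq ?_ (hl i)
    have h1 : ContDiff ℝ N fun x => β i (x + per l) :=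
      (hβ i).1.comp (contDiff_id.add contDiff_const)
    exact h1.contDiffAt
  · intro y
    obtain ⟨l, hl⟩ := torus_eventually β hr1 hs y
    have h1 := hdiv (y + per l)
    rw [← h1]
    refine Finset.sum_congr rfl fun i _ => ?_
    unfold pd
    rw [(hl i).fderiv_eq, fderiv_comp_add_right]
  · intro i y hy
    obtain ⟨l, hl⟩ := torus_eventually β hr1 hs y
    refine ⟨l, hs i ?_⟩
    have h1 : y ∈ tsupport (fun x => β i (x + per l)) := by
      rw [tsupport, mem_closure_iff_frequently] at hy ⊢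
      refine (hy.and_eventually (hl i)).mono ?_
      rintro x ⟨hx1, hx2⟩
      rw [Function.mem_support] at hx1 ⊢
      intro h0
      exact hx1 (hx2.trans h0)
    have h2 : (fun x => β i (x + per l)) = β i ∘ (Homeomorph.addRight (per l)) := rfl
    rw [h2, tsupport_comp_eq_preimage] at h1
    exact h1
  · intro i k
    have hint : Integrable (β i) :=
      (hβ i).1.continuous.integrable_of_hasCompactSupport (hβ i).2
    unfold pc fc
    congr 1
    rw [torus_unfold (four_int hint k), torus_Q_zero]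
    congr 1
    funext x
    unfold torusPer
    rw [Complex.ofReal_tsum, ← tsum_mul_left]
    refine tsum_congr fun l => ?_
    rw [torus_exp_per]

end NSC
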