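import Pool.Agent.Work.MP_57e339_an.GalT
import Pool.Agent.Work.MP_57e339_an.Torus

/-! Module NSCat: solutions with time dependent mean, and concatenation. -/

open MeasureTheory Set Filter Topology
open scoped BigOperators
noncomputable section
namespace NSC
variable {d : ℕ}

theorem nscat_cst_cont {M : ℝ → Cv d} {s : Set ℝ} (hM : ContinuousOn M s) (k : K d) :
    ContinuousOn (fun t => cst (M t) k) s := by
  by_cases hk : k = 0
  · subst hk
    simp only [torus_cst_zero]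
    exact hM
  · simp only [torus_cst_ne hk]
    exact continuousOn_const

theorem NS_of_SolM {ν : ℝ} {m₀ g : Fin d → ℝ} {w : Sq d} (_hw : IsV w) {δ : ℝ} (hδ : 0 < δ)
    {v : ℝ → Sq d} (h : SolM ν (fun t i => m₀ i + t / δ * g i) (δ⁻¹ • w) δ v) {M₀ G : Cv d}
    (hM₀ : ∀ i, M₀ i = (m₀ i : ℂ)) (hG : ∀ i, G i = (g i : ℂ)) :
    NS ν (fun _ => δ⁻¹ • (w + cst G)) δ (fun t => v t + cst (M₀ + (t / δ) • G)) := by
  have hM : ∀ t i, (M₀ + (t / δ) • G) i = ((m₀ i + t / δ * g i : ℝ) : ℂ) := by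
    intro t i
    rw [PiLp.add_apply, PiLp.smul_apply, hM₀, hG, Complex.real_smul]
    push_cast
    ring
  have hMc : Continuous fun t : ℝ => M₀ + (t / δ) • G := by fun_prop
  refine ⟨fun t ht => isH_of_isV (h.V t ht) (hM t), ?_, ?_, ?_⟩
  · obtain ⟨B, hB⟩ := h.bd
    refine ⟨Real.sqrt (2 * B ^ 2 + (‖M₀‖ + ‖G‖) ^ 2), fun t ht => ?_⟩
    unfold nH
    apply Real.sqrt_le_sqrt
    refine (torus_tsum_le (h.V t ht) _).trans ?_
    have h1 := hB t ht
    have h2 := n1_nonneg (v t)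
    have h3 : ‖M₀ + (t / δ) • G‖ ≤ ‖M₀‖ + ‖G‖ := by
      refine (norm_add_le _ _).trans ?_
      have h4 : |t / δ| ≤ 1 := by
        rw [abs_of_nonneg (div_nonneg ht.1 hδ.le), div_le_one hδ]
        exact ht.2
      rw [norm_smul, Real.norm_eq_abs]
      have := norm_nonneg G
      nlinarith
    have h5 := norm_nonneg (M₀ + (t / δ) • G)
    nlinarith
  · intro k
    simp only [Pi.add_apply]
    exact (h.ct k).add (nscat_cst_cont hMc.continuousOn k)
  · intro k t ht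
    have h1 := h.eq k t ht
    have h2 : ∀ s ∈ Icc (0 : ℝ) δ, (δ⁻¹ • (w + cst G)) k -
        ((ν * nk k ^ 2 : ℝ) : ℂ) • (v s + cst (M₀ + (s / δ) • G)) k -
        Bk (v s + cst (M₀ + (s / δ) • G)) (v s + cst (M₀ + (s / δ) • G)) k =
        ((δ⁻¹ • w) k - mu ν (fun i => m₀ i + s / δ * g i) k • v s k - Bk (v s) (v s) k) +
          δ⁻¹ • cst G k := by
      intro s hs
      have h3 := torus_bk (h.V s hs) (hM s) ν k
      rw [sub_sub, h3, Pi.smul_apply, Pi.add_apply, smul_add, Pi.smul_apply]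
      abel
    have hcont : ContinuousOn (fun s => (δ⁻¹ • w) k - mu ν (fun i => m₀ i + s / δ * g i) k • v s k -
        Bk (v s) (v s) k) (Icc 0 δ) := by
      obtain ⟨B, hB⟩ := h.bd
      have hV : ∀ t ∈ Icc (0 : ℝ) δ, IsV (v t) ∧ n1 (v t) ≤ B := fun t ht => ⟨h.V t ht, hB t ht⟩
      have hmu : Continuous fun s : ℝ => mu ν (fun i => m₀ i + s / δ * g i) k := by
        unfold mu
        fun_prop
      exact (continuousOn_const.sub (hmu.continuousOn.smul (h.ct k))).sub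
        (bk_continuousOn hV hV h.ct h.ct k)
    have hint : IntervalIntegrable (fun s => (δ⁻¹ • w) k -
        mu ν (fun i => m₀ i + s / δ * g i) k • v s k - Bk (v s) (v s) k) volume 0 t :=
      (hcont.mono (by rw [uIcc_of_le ht.1]; exact Icc_subset_Icc_right ht.2)).intervalIntegrable
    have h4 : ∫ s in (0 : ℝ)..t, ((δ⁻¹ • (w + cst G)) k -
        ((ν * nk k ^ 2 : ℝ) : ℂ) • (v s + cst (M₀ + (s / δ) • G)) k -
        Bk (v s + cst (M₀ + (s / δ) • G)) (v s + cst (M₀ + (s / δ) • G)) k) =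
        (∫ s in (0 : ℝ)..t, ((δ⁻¹ • w) k - mu ν (fun i => m₀ i + s / δ * g i) k • v s k -
          Bk (v s) (v s) k)) + ∫ s in (0 : ℝ)..t, δ⁻¹ • cst G k := by
      rw [← intervalIntegral.integral_add hint intervalIntegrable_const]
      apply intervalIntegral.integral_congr
      intro s hs
      rw [uIcc_of_le ht.1] at hs
      exact h2 s ⟨hs.1, hs.2.trans ht.2⟩
    rw [h4, intervalIntegral.integral_const, sub_zero]
    simp only [Pi.add_apply]
    rw [h1]
    have h5 : cst (M₀ + (t / δ) • G) k = cst (M₀ + (0 / δ) • G) k + t • δ⁻¹ • cst G k := by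
      by_cases hk : k = 0
      · subst hk
        simp only [torus_cst_zero, smul_smul, div_eq_mul_inv, zero_mul, zero_smul, add_zero]
      · simp only [torus_cst_ne hk, smul_zero, add_zero]
    rw [h5]
    abel

theorem nscat_split {u : Sq d} (hu : IsH u) :
    (∀ i, (u 0) i = (((u 0) i).re : ℂ)) ∧ IsV (u - cst (u 0)) ∧ n1 (u - cst (u 0)) ≤ nH u := by
  obtain ⟨m, v, hm, hv, h⟩ := isH_split hu
  have h1 : u - cst (u 0) = v := by
    conv_lhs => rw [h]
    have h2 : (v + cst (u 0)) 0 = u 0 := by rw [← h]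
    rw [h2]
    abel
  refine ⟨fun i => by rw [hm i, Complex.ofReal_re], by rw [h1]; exact hv, ?_⟩
  rw [h1]
  unfold n1 nH
  apply Real.sqrt_le_sqrt
  refine hv.sm.tsum_le_tsum (fun k => ?_) hu.sm
  by_cases hk : k = 0
  · rw [hk, hv.zero]
    have h5 : (0 : ℝ) ≤ (1 + nk (0 : K d) ^ 2) * ‖u 0‖ ^ 2 := by positivity
    simpa using h5
  · have h3 : u k = v k := by
      conv_lhs => rw [h]
      rw [Pi.add_apply, torus_cst_ne hk, add_zero]
    rw [h3]
    nlinarith [sq_nonneg ‖v k‖]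

theorem nscat_cont {ν T B : ℝ} {u : ℝ → Sq d} (hV : ∀ t ∈ Icc (0 : ℝ) T, IsH (u t))
    (hb : ∀ t ∈ Icc (0 : ℝ) T, nH (u t) ≤ B)
    (hc : ∀ k, ContinuousOn (fun t => u t k) (Icc (0 : ℝ) T)) (k : K d) :
    ContinuousOn (fun s => ((ν * nk k ^ 2 : ℝ) : ℂ) • u s k + Bk (u s) (u s) k)
      (Icc (0 : ℝ) T) := by
  set v : ℝ → Sq d := fun s => u s - cst (u s 0) with hv
  have hvV : ∀ t ∈ Icc (0 : ℝ) T, IsV (v t) ∧ n1 (v t) ≤ B := fun t ht =>
    ⟨(nscat_split (hV t ht)).2.1, (nscat_split (hV t ht)).2.2.trans (hb t ht)⟩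
  have hvc : ∀ k, ContinuousOn (fun t => v t k) (Icc (0 : ℝ) T) := fun k =>
    (hc k).sub (nscat_cst_cont (hc 0) k)
  have h1 : ∀ s ∈ Icc (0 : ℝ) T, ((ν * nk k ^ 2 : ℝ) : ℂ) • u s k + Bk (u s) (u s) k =
      mu ν (fun i => ((u s 0) i).re) k • v s k + Bk (v s) (v s) k := by
    intro s hs
    have h2 := torus_bk (hvV s hs).1 (nscat_split (hV s hs)).1 ν k
    have h3 : v s + cst (u s 0) = u s := by
      simp only [hv]
      abel
    rw [h3] at h2
    exact h2
  refine ContinuousOn.congr ?_ h1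
  have hmu : ContinuousOn (fun s : ℝ => mu ν (fun i => ((u s 0) i).re) k) (Icc (0 : ℝ) T) := by
    unfold mu
    refine continuousOn_const.add (continuousOn_const.mul ?_)
    refine continuousOn_finsetSum _ fun i _ => ?_
    refine ContinuousOn.mul ?_ continuousOn_const
    have h4 : ContinuousOn (fun s => (u s 0) i) (Icc (0 : ℝ) T) :=
      (continuous_apply i).comp_continuousOn
        ((PiLp.continuous_ofLp 2 (fun _ : Fin d => ℂ)).comp_continuousOn (hc 0))
    exact (Complex.continuous_ofReal.comp Complex.continuous_re).comp_continuousOn h4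
  exact (hmu.smul (hvc k)).add (bk_continuousOn hvV hvV hvc hvc k)

theorem nscat_int {ν T : ℝ} {η u : ℝ → Sq d} (hT : 0 ≤ T) (h : NS ν η T u) (k : K d)
    (hi : IntervalIntegrable (fun s => η s k) volume 0 T) :
    IntervalIntegrable (fun s => η s k - ((ν * nk k ^ 2 : ℝ) : ℂ) • u s k - Bk (u s) (u s) k)
      volume 0 T := by
  obtain ⟨B, hB⟩ := h.bd
  have h1 := nscat_cont (ν := ν) h.V hB h.ct k
  have h2 := hi.sub (h1.intervalIntegrable_of_Icc hT)
  have h3 : (fun s => η s k - ((ν * nk k ^ 2 : ℝ) : ℂ) • u s k - Bk (u s) (u s) k) =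
      fun s => η s k - (((ν * nk k ^ 2 : ℝ) : ℂ) • u s k + Bk (u s) (u s) k) := by
    funext s
    abel
  rw [h3]
  exact h2

theorem ns_cat {ν T₁ T₂ : ℝ} {η₁ η₂ : ℝ → Sq d} {u₁ u₂ : ℝ → Sq d} (hT₁ : 0 ≤ T₁)
    (hT₂ : 0 ≤ T₂) (h₁ : NS ν η₁ T₁ u₁) (h₂ : NS ν η₂ T₂ u₂)
    (hi₁ : ∀ k, IntervalIntegrable (fun s => η₁ s k) volume 0 T₁)
    (hi₂ : ∀ k, IntervalIntegrable (fun s => η₂ s k) volume 0 T₂) (hj : u₂ 0 = u₁ T₁) :
    NS ν (fun t => if t ≤ T₁ then η₁ t else η₂ (t - T₁)) (T₁ + T₂)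
      (fun t => if t ≤ T₁ then u₁ t else u₂ (t - T₁)) := by
  have hle : ∀ t : ℝ, t ≤ T₁ → (if t ≤ T₁ then u₁ t else u₂ (t - T₁)) = u₁ t :=
    fun t ht => if_pos ht
  have hge : ∀ t : ℝ, T₁ ≤ t → (if t ≤ T₁ then u₁ t else u₂ (t - T₁)) = u₂ (t - T₁) := by
    intro t ht
    by_cases h : t ≤ T₁
    · have : t = T₁ := le_antisymm h ht
      rw [if_pos h, this, sub_self, hj]
    · exact if_neg h
  obtain ⟨M₁, hM₁⟩ := h₁.bd
  obtain ⟨M₂, hM₂⟩ := h₂.bd
  refine ⟨fun t ht => ?_, ⟨max M₁ M₂, fun t ht => ?_⟩, fun k => ?_, fun k t ht => ?_⟩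
  · rcases le_total t T₁ with h | h
    · show IsH (if t ≤ T₁ then u₁ t else u₂ (t - T₁))
      rw [hle t h]; exact h₁.V t ⟨ht.1, h⟩
    · show IsH (if t ≤ T₁ then u₁ t else u₂ (t - T₁))
      rw [hge t h]; exact h₂.V _ ⟨by linarith, by linarith [ht.2]⟩
  · rcases le_total t T₁ with h | h
    · show nH (if t ≤ T₁ then u₁ t else u₂ (t - T₁)) ≤ _
      rw [hle t h]; exact (hM₁ t ⟨ht.1, h⟩).trans (le_max_left _ _)
    · show nH (if t ≤ T₁ then u₁ t else u₂ (t - T₁)) ≤ _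
      rw [hge t h]; exact (hM₂ _ ⟨by linarith, by linarith [ht.2]⟩).trans (le_max_right _ _)
  · have h3 : ContinuousOn (fun t => (if t ≤ T₁ then u₁ t else u₂ (t - T₁)) k) (Icc 0 T₁) :=
      (h₁.ct k).congr fun t ht => by
        show (if t ≤ T₁ then u₁ t else u₂ (t - T₁)) k = _
        rw [hle t ht.2]
    have h4 : ContinuousOn (fun t => (if t ≤ T₁ then u₁ t else u₂ (t - T₁)) k)
        (Icc T₁ (T₁ + T₂)) := by
      have h5 : ContinuousOn (fun t => u₂ (t - T₁) k) (Icc T₁ (T₁ + T₂)) := by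
        have h6 : ContinuousOn (fun t : ℝ => t - T₁) (Icc T₁ (T₁ + T₂)) := by fun_prop
        exact (h₂.ct k).comp h6 fun t ht => ⟨by linarith [ht.1], by linarith [ht.2]⟩
      exact h5.congr fun t ht => by
        show (if t ≤ T₁ then u₁ t else u₂ (t - T₁)) k = _
        rw [hge t ht.1]
    have h5 := h3.union_of_isClosed h4 isClosed_Icc isClosed_Icc
    rwa [Icc_union_Icc_eq_Icc hT₁ (by linarith)] at h5
  · set F : ℝ → Cv d := fun s => (if s ≤ T₁ then η₁ s else η₂ (s - T₁)) k -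
      ((ν * nk k ^ 2 : ℝ) : ℂ) • (if s ≤ T₁ then u₁ s else u₂ (s - T₁)) k -
      Bk (if s ≤ T₁ then u₁ s else u₂ (s - T₁)) (if s ≤ T₁ then u₁ s else u₂ (s - T₁)) k
      with hF
    have hFle : ∀ s : ℝ, s ≤ T₁ → F s = η₁ s k - ((ν * nk k ^ 2 : ℝ) : ℂ) • u₁ s k -
        Bk (u₁ s) (u₁ s) k := by
      intro s hs
      rw [hF]
      simp only [if_pos hs]
    have hFgt : ∀ s : ℝ, T₁ < s → F s = η₂ (s - T₁) k -
        ((ν * nk k ^ 2 : ℝ) : ℂ) • u₂ (s - T₁) k - Bk (u₂ (s - T₁)) (u₂ (s - T₁)) k := by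
      intro s hs
      rw [hF]
      simp only [if_neg (not_le.2 hs)]
    show (if t ≤ T₁ then u₁ t else u₂ (t - T₁)) k =
      (if (0 : ℝ) ≤ T₁ then u₁ 0 else u₂ (0 - T₁)) k + ∫ s in (0 : ℝ)..t, F s
    rw [hle 0 hT₁]
    rcases le_or_gt t T₁ with h | h
    · rw [hle t h, h₁.eq k t ⟨ht.1, h⟩]
      congr 1
      apply intervalIntegral.integral_congr
      intro s hs
      rw [uIcc_of_le ht.1] at hs
      exact (hFle s (hs.2.trans h)).symm
    · rw [hge t h.le]
      have i1 : IntervalIntegrable F volume 0 T₁ := by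
        refine (nscat_int hT₁ h₁ k (hi₁ k)).congr ?_
        rw [uIoc_of_le hT₁]
        exact fun s hs => (hFle s hs.2).symm
      have hT₂' : t - T₁ ∈ Icc 0 T₂ := ⟨by linarith, by linarith [ht.2]⟩
      have i2 : IntervalIntegrable F volume T₁ t := by
        have i3 := (nscat_int hT₂ h₂ k (hi₂ k)).mono_set (c := 0) (d := t - T₁) (by
          rw [uIcc_of_le hT₂'.1, uIcc_of_le hT₂]
          exact Icc_subset_Icc (le_refl _) hT₂'.2)
        have i4 := i3.comp_sub_right T₁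
        rw [zero_add, sub_add_cancel] at i4
        refine i4.congr ?_
        rw [uIoc_of_le h.le]
        exact fun s hs => (hFgt s hs.1).symm
      rw [← intervalIntegral.integral_add_adjacent_intervals i1 i2, ← add_assoc]
      have e1 : u₁ 0 k + ∫ s in (0 : ℝ)..T₁, F s = u₁ T₁ k := by
        rw [h₁.eq k T₁ ⟨hT₁, le_refl _⟩]
        congr 1
        apply intervalIntegral.integral_congr
        intro s hs
        rw [uIcc_of_le hT₁] at hs
        exact hFle s hs.2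
      have e2 : ∫ s in T₁..t, F s = ∫ s in (0 : ℝ)..(t - T₁), (η₂ s k -
          ((ν * nk k ^ 2 : ℝ) : ℂ) • u₂ s k - Bk (u₂ s) (u₂ s) k) := by
        have e3 := intervalIntegral.integral_comp_sub_right (a := T₁) (b := t)
          (fun s => η₂ s k - ((ν * nk k ^ 2 : ℝ) : ℂ) • u₂ s k - Bk (u₂ s) (u₂ s) k) T₁
        rw [sub_self] at e3
        rw [← e3]
        apply intervalIntegral.integral_congr_ae
        refine Eventually.of_forall fun s hs => ?_
        rw [uIoc_of_le h.le] at hs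
        exact hFgt s hs.1
      rw [e1, e2, h₂.eq k (t - T₁) hT₂', hj]

end NSC
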