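import Pool.Agent.Work.MP_57e339_an.Bridge
import Pool.Agent.Work.MP_57e339_an.NSCat
import Pool.Agent.Work.MP_57e339_an.JumpM

/-! Module Final: assembly of the two results. -/

open MeasureTheory Set Filter Topology
open scoped BigOperators
noncomputable section
namespace NSC
open LocNS
variable {d : ℕ}

theorem fin_cst_sum {ι : Type} (s : Finset ι) (a : ι → ℝ) (M : ι → Cv d) :
    (cst (∑ i ∈ s, a i • M i) : Sq d) = ∑ i ∈ s, a i • cst (M i) := by
  funext k
  by_cases hk : k = 0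
  · rw [hk, torus_cst_zero, Finset.sum_apply]
    apply Finset.sum_congr rfl
    intro i _
    rw [Pi.smul_apply, torus_cst_zero]
  · rw [torus_cst_ne hk, Finset.sum_apply]
    symm
    apply Finset.sum_eq_zero
    intro i _
    rw [Pi.smul_apply, torus_cst_ne hk, smul_zero]

/-- real combinations of elements of `V` -/
theorem fin_comb {ι : Type} [Fintype ι] {f : ι → Sq d} (hf : ∀ s, IsH (f s)) (a : ι → ℝ) :
    ∃ (g : Fin d → ℝ) (w : Sq d), IsV w ∧ (∀ i, (∑ s, a s • f s 0 : Cv d) i = (g i : ℂ)) ∧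
      ∑ s, a s • f s = w + cst (∑ s, a s • f s 0) := by
  choose m v hm hv hf' using fun s => isH_split (hf s)
  refine ⟨fun i => ∑ s, a s * m s i, ∑ s, a s • v s,
    IsV.sum _ _ fun s _ => (hv s).smul _, ?_, ?_⟩
  · intro i
    simp only [WithLp.ofLp_sum, WithLp.ofLp_smul, Finset.sum_apply, Pi.smul_apply, hm]
    push_cast
    apply Finset.sum_congr rfl
    intro s _
    rw [Complex.real_smul]
  · rw [fin_cst_sum, ← Finset.sum_add_distrib]
    apply Finset.sum_congr rfl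
    intro s _
    rw [← smul_add]
    conv_lhs => rw [hf' s]

/-- a short time solution which changes the mean -/
theorem fin_jump (hd : d = 2 ∨ d = 3) {ν : ℝ} (hν : 0 < ν) {ι : Type} [Fintype ι] {f : ι → Sq d}
    (hf : ∀ s, IsH (f s)) {u₀ : Sq d} (h₀ : IsH u₀) (a : ι → ℝ) {T : ℝ} (hT : 0 < T) :
    ∃ δ : ℝ, 0 < δ ∧ δ < T ∧ ∃ u : ℝ → Sq d,
      NS ν (fun _ k => ∑ s, (a s / δ) • f s k) δ u ∧ u 0 = u₀ ∧
      u δ 0 = u₀ 0 + ∑ s, a s • f s 0 := by
  obtain ⟨g, w, hw, hg, hsum⟩ := fin_comb hf a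
  obtain ⟨m₀, v₀, hm₀, hv₀, hu₀⟩ := isH_split h₀
  obtain ⟨δ, hδ, hδT, v, hv, hv0⟩ := jumpM hd hν hv₀ hw m₀ g hT
  have h1 := NS_of_SolM hw hδ hv (M₀ := u₀ 0) (G := ∑ s, a s • f s 0) hm₀ hg
  refine ⟨δ, hδ, hδT, fun t => v t + cst (u₀ 0 + (t / δ) • ∑ s, a s • f s 0), ?_, ?_, ?_⟩
  · have h2 : (fun (_ : ℝ) (k : K d) => ∑ s, (a s / δ) • f s k) =
        fun _ => δ⁻¹ • (w + cst (∑ s, a s • f s 0)) := by
      funext t k
      rw [← hsum, Pi.smul_apply, Finset.sum_apply, Finset.smul_sum]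
      apply Finset.sum_congr rfl
      intro s _
      rw [Pi.smul_apply, smul_smul, div_eq_inv_mul]
    rw [h2]
    exact h1
  · simp only [hv0, zero_div, zero_smul, add_zero]
    exact hu₀.symm
  · simp only [div_self hδ.ne', one_smul]
    rw [Pi.add_apply, torus_cst_zero, (hv.V δ ⟨hδ.le, le_rfl⟩).zero, zero_add]

/-- integrability of the control force -/
theorem fin_int {ι : Type} [Fintype ι] (f : ι → Sq d) {c : ℝ → ι → ℝ} (hc : Measurable c)
    (hb : ∃ C, ∀ t s, |c t s| ≤ C) {T : ℝ} (hT : 0 ≤ T) (k : K d) :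
    IntervalIntegrable (fun t => ∑ s, c t s • f s k) volume 0 T := by
  obtain ⟨C, hC⟩ := hb
  have h4 : ∀ i, IntervalIntegrable (fun t => c t i • f i k) volume 0 T := by
    intro i
    rw [intervalIntegrable_iff, uIoc_of_le hT]
    refine Measure.integrableOn_of_bounded (M := C * ‖f i k‖) (by simp) ?_ ?_
    · have h5 : Measurable fun t => c t i := (measurable_pi_apply i).comp hc
      exact (h5.aestronglyMeasurable).smul_const (f i k)
    · refine Eventually.of_forall fun s => ?_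
      rw [norm_smul, Real.norm_eq_abs]
      exact mul_le_mul_of_nonneg_right (hC s i) (norm_nonneg _)
  have h5 : (fun t => ∑ s, c t s • f s k) = ∑ i, fun t => c t i • f i k := by
    funext s
    rw [Finset.sum_apply]
  rw [h5]
  exact IntervalIntegrable.sum _ fun i _ => h4 i

/-- Reducing to the case of equal means. -/
theorem fin_reduce (hd : d = 2 ∨ d = 3) {ν : ℝ} (hν : 0 < ν) {ι κ : Type} [Fintype ι] [Fintype κ]
    {e : ι → VF d} {w : κ → VF d} (he : ∀ s, IsH (fourier (e s)))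
    (hw : ∀ s, IsH (fourier (w s)))
    {u₀ : Sq d} (h₀ : IsH u₀) (u₁0 : Cv d)
    (hmean : u₁0 - u₀ 0 ∈
      Submodule.span ℝ (Set.range fun s => fourier (Sum.elim e w s) 0)) {T : ℝ} (hT : 0 < T)
    (Q : Sq d → Prop)
    (hctrl : ∀ v₀ : Sq d, IsH v₀ → v₀ 0 = u₁0 → ∀ T : ℝ, 0 < T →
      ∃ (c : ℝ → ι → ℝ) (u : ℝ → Sq d), Measurable c ∧ (∃ C, ∀ t s, |c t s| ≤ C) ∧
        NS ν (fun t k => ∑ s, c t s • fourier (e s) k) T u ∧ u 0 = v₀ ∧ Q (u T)) :
    ∃ (c : ℝ → (ι ⊕ κ) → ℝ) (u : ℝ → Sq d), Measurable c ∧ (∃ C, ∀ t s, |c t s| ≤ C) ∧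
      IsSolution ν (fun t k => ∑ s, c t s • fourier (Sum.elim e w s) k) T u ∧ u 0 = u₀ ∧
      Q (u T) := by
  classical
  obtain ⟨a, ha⟩ := (Submodule.mem_span_range_iff_exists_fun ℝ).1 hmean
  have hf : ∀ s, IsH (fourier (Sum.elim e w s)) := by
    rintro (s | s)
    · exact he s
    · exact hw s
  obtain ⟨δ, hδ, hδT, u, hu, hu0, huδ⟩ := fin_jump hd hν hf h₀ a hT
  have hm : u δ 0 = u₁0 := by
    rw [huδ]
    have : (∑ s, a s • fourier (Sum.elim e w s) 0 : Cv d) = u₁0 - u₀ 0 := ha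
    rw [this]
    abel
  obtain ⟨c₂, u₂, hc₂, ⟨C, hC⟩, hu₂, hu₂0, hu₂T⟩ :=
    hctrl (u δ) (hu.V δ ⟨hδ.le, le_rfl⟩) hm (T - δ) (by linarith)
  have hcat := ns_cat hδ.le (by linarith : (0 : ℝ) ≤ T - δ) hu hu₂
    (fun k => intervalIntegrable_const)
    (fun k => fin_int (fun s => fourier (e s)) hc₂ ⟨C, hC⟩ (by linarith) k) hu₂0
  have hTT : δ + (T - δ) = T := by ring
  rw [hTT] at hcat
  let c : ℝ → (ι ⊕ κ) → ℝ := fun t => if t ≤ δ then fun s => a s / δ else
    Sum.elim (c₂ (t - δ)) (fun _ => 0)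
  refine ⟨c, fun t => if t ≤ δ then u t else u₂ (t - δ), ?_, ?_, ?_, ?_, ?_⟩
  · apply Measurable.ite measurableSet_Iic measurable_const
    apply measurable_pi_lambda
    rintro (s | s)
    · exact (measurable_pi_apply s).comp (hc₂.comp (measurable_id.sub_const δ))
    · exact measurable_const
  · refine ⟨max C (∑ s, |a s / δ|), fun t s => ?_⟩
    simp only [c]
    split_ifs with h
    · exact (Finset.single_le_sum (f := fun s => |a s / δ|) (fun _ _ => abs_nonneg _)
        (Finset.mem_univ s)).trans (le_max_right _ _)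
    · rcases s with s | s
      · exact (hC _ s).trans (le_max_left _ _)
      · simp only [Sum.elim_inr, abs_zero]
        exact (Finset.sum_nonneg fun _ _ => abs_nonneg _).trans (le_max_right _ _)
  · have h1 := br_sol hcat
    have h2 : (fun t => if t ≤ δ then (fun k => ∑ s, (a s / δ) • fourier (Sum.elim e w s) k)
        else fun k => ∑ s, c₂ (t - δ) s • fourier (e s) k) =
        fun t k => ∑ s, c t s • fourier (Sum.elim e w s) k := by
      funext t k
      simp only [c]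
      split_ifs with h
      · rfl
      · rw [Fintype.sum_sum_type]
        simp
    rw [h2] at h1
    exact h1
  · simp only [if_pos hδ.le]
    exact hu0
  · simp only [if_neg (not_le.2 hδT)]
    exact hu₂T

theorem fin_isH (hd : d = 2 ∨ d = 3) {x₀ : Rv d} {r : ℝ} (hr : 0 < r) (hr1 : r ≤ 1)
    (s : PotI d × Fin d × Fin d) : IsH (fourier (controlField x₀ r s)) := by
  have hV := (br_pcv_V (x₀ := x₀) hd hr hr1 s).1
  have h5 := isH_of_isV hV (m := fun _ => 0) (M := 0) (by simp)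
  have h6 : pcv (controlField x₀ r s) + cst 0 = pcv (controlField x₀ r s) := by
    funext k
    simp [cst]
  rw [h6] at h5
  exact h5

theorem mainApprox (hd : d = 2 ∨ d = 3) {x₀ : Rv d} {r : ℝ} (hr : 0 < r) (hr1 : r ≤ 1) {ν : ℝ}
    (hν : 0 < ν) {κ : Type} [Fintype κ] {w : κ → VF d} (hw : ∀ s, InV (fourier (w s))) :
    ApproxControllable ν (Sum.elim (controlField x₀ r) w) := by
  intro u₀ u₁ h₀ h₁ h01 T hT ε hε
  refine fin_reduce hd hν (fun s => fin_isH hd hr hr1 s) (fun s => br_inV.1 (hw s))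
    (br_inV.1 h₀) (u₁ 0) h01 hT (fun v => normH1 (v - u₁) < ε) ?_
  intro v₀ hv₀ hm T hT
  let e := (Fintype.equivFin (PotI d × Fin d × Fin d)).symm
  obtain ⟨c, u, hc, ⟨C, hC⟩, hu, hu0, huT⟩ := approx_control hd
    (b := fun s => controlField x₀ r (e s)) (fun s => br_pcv_V hd hr hr1 (e s)) hν
    (br_all hd hr hr1 e hν) hv₀ (br_inV.1 h₁) hm hT hε
  refine ⟨fun t s => c t (e.symm s), u, ?_, ⟨C, fun t s => hC _ _⟩, ?_, hu0, ?_⟩
  · exact measurable_pi_lambda _ fun s => (measurable_pi_apply (e.symm s)).comp hc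
  · have h2 : (fun t => Comb (fun s => pcv (controlField x₀ r (e s))) (c t)) =
        fun t k => ∑ s, c t (e.symm s) • fourier (controlField x₀ r s) k := by
      funext t k
      exact br_comb e (controlField x₀ r) (c t) k
    rw [h2] at hu
    exact hu
  · rw [br_norm]
    exact huT

theorem mainProj (hd : d = 2 ∨ d = 3) {x₀ : Rv d} {r : ℝ} (hr : 0 < r) (hr1 : r ≤ 1) {ν : ℝ}
    (hν : 0 < ν) {κ : Type} [Fintype κ] {w : κ → VF d} (hw : ∀ s, InV (fourier (w s))) :
    ProjControllable ν (Sum.elim (controlField x₀ r) w) := by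
  intro u₀ u₁ h₀ h₁ h01 T hT F hfin hF
  refine fin_reduce hd hν (fun s => fin_isH hd hr hr1 s) (fun s => br_inV.1 (hw s))
    (br_inV.1 h₀) (u₁ 0) h01 hT
    (fun v => ∀ f ∈ F, ∑' k, (inner ℂ (f k) (v k - u₁ k)).re = 0) ?_
  intro v₀ hv₀ hm T hT
  let e := (Fintype.equivFin (PotI d × Fin d × Fin d)).symm
  obtain ⟨c, u, hc, ⟨C, hC⟩, hu, hu0, huT⟩ := proj_control hd
    (b := fun s => controlField x₀ r (e s)) (fun s => br_pcv_V hd hr hr1 (e s)) hν
    (br_all hd hr hr1 e hν) hv₀ (br_inV.1 h₁) hm hT F (fun f hf => br_inV.1 (hF f hf))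
  refine ⟨fun t s => c t (e.symm s), u, ?_, ⟨C, fun t s => hC _ _⟩, ?_, hu0, huT⟩
  · exact measurable_pi_lambda _ fun s => (measurable_pi_apply (e.symm s)).comp hc
  · have h2 : (fun t => Comb (fun s => pcv (controlField x₀ r (e s))) (c t)) =
        fun t k => ∑ s, c t (e.symm s) • fourier (controlField x₀ r s) k := by
      funext t k
      exact br_comb e (controlField x₀ r) (c t) k
    rw [h2] at hu
    exact hu

end NSC
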