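import Pool.Agent.Work.MP_57e339_an.Calc
import Pool.Agent.Work.MP_57e339_an.BaseW

/-! Module Four: Fourier coefficients `fc` of compactly supported functions. -/

open MeasureTheory Set Filter Topology
open scoped BigOperators
noncomputable section
namespace NSC
variable {d : ℕ}

theorem kx_add (k : K d) (x y : Rv d) : kx k (x + y) = kx k x + kx k y := by
  simp [kx, mul_add, Finset.sum_add_distrib]

theorem kx_sub (k : K d) (x y : Rv d) : kx k (x - y) = kx k x - kx k y := by
  simp [kx, mul_sub, Finset.sum_sub_distrib]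

theorem kx_add_left (k l : K d) (x : Rv d) : kx (k + l) x = kx k x + kx l x := by
  simp [kx, add_mul, Finset.sum_add_distrib]

theorem kx_neg_left (k : K d) (x : Rv d) : kx (-k) x = -kx k x := by
  simp [kx]

theorem kx_zero_left (x : Rv d) : kx (0 : K d) x = 0 := by
  simp [kx]

theorem abs_kx_le (k : K d) (x : Rv d) : |kx k x| ≤ nk k * ‖x‖ := by
  have h1 : kx k x = inner ℝ (WithLp.toLp 2 (fun i => (k i : ℝ)) : Rv d) x := by
    simp only [PiLp.inner_apply, kx]
    apply Finset.sum_congr rfl
    intro i _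
    simp [mul_comm]
  have h2 : nk k = ‖(WithLp.toLp 2 (fun i => (k i : ℝ)) : Rv d)‖ := by
    rw [EuclideanSpace.norm_eq]
    unfold nk
    congr 1
    apply Finset.sum_congr rfl
    intro i _
    simp
  rw [h1, h2]
  exact abs_real_inner_le_norm _ _

theorem continuous_kx (k : K d) : Continuous (kx k) := by
  unfold kx
  fun_prop

/-- the exponential in `fc` -/
theorem four_norm_exp (k : K d) (x : Rv d) : ‖Complex.exp (-(Complex.I * (kx k x : ℂ)))‖ = 1 := by
  rw [Complex.norm_exp]
  simp

theorem four_cont_exp (k : K d) :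
    Continuous fun x : Rv d => Complex.exp (-(Complex.I * (kx k x : ℂ))) := by
  have := continuous_kx k
  fun_prop

theorem four_int {f : Rv d → ℝ} (hf : Integrable f) (k : K d) :
    Integrable fun x : Rv d => Complex.exp (-(Complex.I * (kx k x : ℂ))) * (f x : ℂ) := by
  apply Integrable.bdd_mul (c := 1) hf.ofReal (four_cont_exp k).aestronglyMeasurable
  filter_upwards with x
  rw [four_norm_exp]

theorem fc_add {f g : Rv d → ℝ} (hf : Integrable f) (hg : Integrable g) (k : K d) :
    fc (fun x => f x + g x) k = fc f k + fc g k := by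
  unfold fc
  rw [← smul_add, ← integral_add (four_int hf k) (four_int hg k)]
  congr 2
  funext x
  push_cast
  ring

theorem fc_sub {f g : Rv d → ℝ} (hf : Integrable f) (hg : Integrable g) (k : K d) :
    fc (fun x => f x - g x) k = fc f k - fc g k := by
  unfold fc
  rw [← smul_sub, ← integral_sub (four_int hf k) (four_int hg k)]
  congr 2
  funext x
  push_cast
  ring

theorem fc_const_mul (f : Rv d → ℝ) (c : ℝ) (k : K d) :
    fc (fun x => c * f x) k = (c : ℂ) * fc f k := by
  unfold fc
  rw [mul_smul_comm, ← integral_const_mul]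
  congr 2
  funext x
  push_cast
  ring

theorem fc_sum {ι : Type} (s : Finset ι) {f : ι → Rv d → ℝ} (hf : ∀ j ∈ s, Integrable (f j))
    (k : K d) : fc (fun x => ∑ j ∈ s, f j x) k = ∑ j ∈ s, fc (f j) k := by
  unfold fc
  rw [← Finset.smul_sum, ← integral_finsetSum s fun j hj => four_int (hf j hj) k]
  congr 2
  funext x
  push_cast
  rw [Finset.mul_sum]

theorem fc_neg_index (f : Rv d → ℝ) (k : K d) : fc f (-k) = (starRingEnd ℂ) (fc f k) := by
  unfold fc
  rw [Complex.real_smul, Complex.real_smul, map_mul, Complex.conj_ofReal, ← integral_conj]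
  congr 2
  funext x
  rw [map_mul, Complex.conj_ofReal, ← Complex.exp_conj, kx_neg_left]
  congr 2
  simp

theorem fc_zero_index (f : Rv d → ℝ) :
    fc f 0 = (((2 * Real.pi) ^ d : ℝ)⁻¹ * ∫ x, f x : ℝ) := by
  unfold fc
  simp only [kx_zero_left, Complex.ofReal_zero, mul_zero, neg_zero, Complex.exp_zero, one_mul]
  rw [integral_complex_ofReal, Complex.real_smul]
  push_cast
  rfl

theorem fc_trans (f : Rv d → ℝ) (y : Rv d) (k : K d) :
    fc (fun x => f (x - y)) k = Complex.exp (-(Complex.I * (kx k y : ℂ))) * fc f k := by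
  unfold fc
  rw [mul_smul_comm, ← integral_const_mul]
  congr 1
  have h := integral_sub_right_eq_self (μ := (volume : Measure (Rv d)))
    (fun x : Rv d => Complex.exp (-(Complex.I * (kx k y : ℂ))) *
      (Complex.exp (-(Complex.I * (kx k x : ℂ))) * (f x : ℂ))) y
  rw [← h]
  congr 1
  funext x
  rw [← mul_assoc, ← Complex.exp_add, kx_sub]
  congr 2
  push_cast
  ring

/-- `kx k` as a continuous linear map -/
def four_kxL (k : K d) : Rv d →L[ℝ] ℝ :=
  ∑ i, (k i : ℝ) • (EuclideanSpace.proj i : Rv d →L[ℝ] ℝ)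

theorem four_kxL_apply (k : K d) (x : Rv d) : four_kxL k x = kx k x := by
  simp [four_kxL, kx]

theorem four_kx_ev (k : K d) (i : Fin d) : kx k (ev i) = (k i : ℝ) := by
  classical
  simp [kx, ev]

theorem fc_pd {f : Rv d → ℝ} (hf : ContDiff ℝ 1 f) (hc : HasCompactSupport f) (i : Fin d)
    (k : K d) : fc (pd i f) k = Complex.I * (k i : ℂ) * fc f k := by
  have hder : ∀ x : Rv d, HasFDerivAt
      (fun x : Rv d => Complex.exp (-(Complex.I * (kx k x : ℂ))))
      ((Complex.exp (-(Complex.I * (kx k x : ℂ)))) •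
        (-(Complex.I • (Complex.ofRealCLM.comp (four_kxL k))))) x := by
    intro x
    have h1 : HasFDerivAt (fun x : Rv d => (kx k x : ℂ)) (Complex.ofRealCLM.comp (four_kxL k)) x := by
      have h2 := (Complex.ofRealCLM.comp (four_kxL k)).hasFDerivAt (x := x)
      have h3 : (fun x : Rv d => (kx k x : ℂ)) = (Complex.ofRealCLM.comp (four_kxL k)) := by
        funext y
        simp [four_kxL_apply]
      rw [h3]
      exact h2
    exact ((h1.const_mul Complex.I).neg).cexp
  have hgd : ∀ x : Rv d, HasFDerivAt (fun x : Rv d => (f x : ℂ))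
      (Complex.ofRealCLM.comp (fderiv ℝ f x)) x := by
    intro x
    exact Complex.ofRealCLM.hasFDerivAt.comp x (hf.differentiable (by norm_num) x).hasFDerivAt
  have hfi : Integrable f := hf.continuous.integrable_of_hasCompactSupport hc
  have hpc : Continuous (pd i f) := (contDiff_pd (N := 0) (by simpa using hf) i).continuous
  have hpi : Integrable (pd i f) := by
    apply hpc.integrable_of_hasCompactSupport
    exact hc.of_isClosed_subset (isClosed_tsupport _) (tsupport_pd_subset f i)
  have hmain := integral_bilinear_hasFDerivAt_right_eq_neg_left_of_integrable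
    (μ := (volume : Measure (Rv d))) (v := ev i) (B := ContinuousLinearMap.mul ℝ ℂ)
    (f := fun x : Rv d => Complex.exp (-(Complex.I * (kx k x : ℂ))))
    (f' := fun x => (Complex.exp (-(Complex.I * (kx k x : ℂ)))) •
        (-(Complex.I • (Complex.ofRealCLM.comp (four_kxL k)))))
    (g := fun x : Rv d => (f x : ℂ)) (g' := fun x => Complex.ofRealCLM.comp (fderiv ℝ f x))
    (by
      have h := (four_int hfi k).const_mul (-(Complex.I * (k i : ℂ)))
      refine h.congr ?_
      filter_upwards with x
      simp only [ContinuousLinearMap.mul_apply', _root_.smul_apply,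
        _root_.neg_apply, ContinuousLinearMap.comp_apply, four_kxL_apply,
        four_kx_ev, Complex.ofRealCLM_apply, smul_eq_mul]
      push_cast
      ring)
    (by
      have h := four_int hpi k
      refine h.congr ?_
      filter_upwards with x
      simp [pd])
    (by
      refine (four_int hfi k).congr ?_
      filter_upwards with x
      simp)
    (fun x _ => hder x) (fun x _ => hgd x)
  have e1 : (∫ x : Rv d, Complex.exp (-(Complex.I * (kx k x : ℂ))) * ((pd i f x : ℝ) : ℂ)) =
      -∫ x : Rv d, (-(Complex.I * (k i : ℂ))) *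
        (Complex.exp (-(Complex.I * (kx k x : ℂ))) * (f x : ℂ)) := by
    have e2 : (fun x : Rv d => Complex.exp (-(Complex.I * (kx k x : ℂ))) * ((pd i f x : ℝ) : ℂ)) =
        fun x => ContinuousLinearMap.mul ℝ ℂ (Complex.exp (-(Complex.I * (kx k x : ℂ))))
          ((Complex.ofRealCLM.comp (fderiv ℝ f x)) (ev i)) := by
      funext x
      simp [pd]
    rw [e2, hmain]
    congr 2
    funext x
    simp only [ContinuousLinearMap.mul_apply', _root_.smul_apply,
      _root_.neg_apply, ContinuousLinearMap.comp_apply, four_kxL_apply,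
      four_kx_ev, Complex.ofRealCLM_apply, smul_eq_mul]
    push_cast
    ring
  unfold fc
  rw [e1, integral_const_mul, mul_smul_comm]
  congr 1
  ring

theorem norm_fc_le {f : Rv d → ℝ} (hf : Integrable f) (k : K d) :
    ‖fc f k‖ ≤ ((2 * Real.pi) ^ d : ℝ)⁻¹ * ∫ x, |f x| := by
  unfold fc
  have hpos : (0 : ℝ) ≤ ((2 * Real.pi) ^ d : ℝ)⁻¹ := by positivity
  rw [norm_smul, Real.norm_eq_abs, abs_of_nonneg hpos]
  apply mul_le_mul_of_nonneg_left _ hpos
  refine (norm_integral_le_integral_norm _).trans (le_of_eq ?_)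
  congr 1
  funext x
  rw [norm_mul, four_norm_exp, one_mul, Complex.norm_real, Real.norm_eq_abs]

theorem four_decay_aux (d N : ℕ) (R : ℝ) : ∀ (f : Rv d → ℝ) (A : ℝ), ContDiff ℝ N f →
    tsupport f ⊆ Metric.closedBall 0 R → Nb N A f → ∀ (k : K d) (i : Fin d),
    |(k i : ℝ)| ^ N * ‖fc f k‖ ≤ (((2 * Real.pi) ^ d : ℝ)⁻¹ *
      (volume : Measure (Rv d)).real (Metric.closedBall 0 R)) * A := by
  induction N with
  | zero =>
    intro f A hf hs hA k i
    have hc : HasCompactSupport f :=
      (isCompact_closedBall (0 : Rv d) R).of_isClosed_subset (isClosed_tsupport _) hs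
    have hfi : Integrable f := hf.continuous.integrable_of_hasCompactSupport hc
    have h1 := norm_fc_le hfi k
    have hpos : (0 : ℝ) ≤ ((2 * Real.pi) ^ d : ℝ)⁻¹ := by positivity
    have h2 : ∫ x, |f x| ≤ (volume : Measure (Rv d)).real (Metric.closedBall 0 R) * A := by
      have h3 : ∫ x, |f x| = ∫ x in Metric.closedBall (0 : Rv d) R, |f x| := by
        symm
        apply setIntegral_eq_integral_of_forall_compl_eq_zero
        intro x hx
        rw [image_eq_zero_of_notMem_tsupport fun h => hx (hs h), abs_zero]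
      rw [h3]
      have h4 : ∫ x in Metric.closedBall (0 : Rv d) R, |f x| ≤
          ∫ _x in Metric.closedBall (0 : Rv d) R, A := by
        apply integral_mono hfi.abs.integrableOn
        · exact integrableOn_const (measure_closedBall_lt_top).ne
        · intro x
          exact hA x
      refine h4.trans (le_of_eq ?_)
      rw [setIntegral_const, smul_eq_mul]
    rw [pow_zero, one_mul, mul_assoc]
    exact h1.trans (mul_le_mul_of_nonneg_left h2 hpos)
  | succ N ih =>
    intro f A hf hs hA k i
    have hc : HasCompactSupport f :=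
      (isCompact_closedBall (0 : Rv d) R).of_isClosed_subset (isClosed_tsupport _) hs
    have h1 := ih (pd i f) A (contDiff_pd hf i) ((tsupport_pd_subset f i).trans hs) (hA.pd i) k i
    rw [fc_pd (hf.of_le (by norm_cast; omega)) hc, norm_mul, norm_mul, Complex.norm_I, one_mul] at h1
    have h2 : ‖((k i : ℤ) : ℂ)‖ = |(k i : ℝ)| := by
      rw [show ((k i : ℤ) : ℂ) = (((k i : ℤ) : ℝ) : ℂ) by push_cast; rfl, Complex.norm_real,
        Real.norm_eq_abs]
    rw [h2] at h1
    rw [pow_succ, mul_assoc]
    exact h1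

/-- decay of the Fourier coefficients, uniformly for functions with controlled derivatives and
support in a fixed ball -/
theorem fc_decay (d N : ℕ) (R : ℝ) : ∃ C : ℝ, 0 ≤ C ∧ ∀ (f : Rv d → ℝ) (A : ℝ), ContDiff ℝ N f →
    tsupport f ⊆ Metric.closedBall 0 R → Nb N A f → ∀ k : K d, nk k ^ N * ‖fc f k‖ ≤ C * A := by
  set C₀ : ℝ := ((2 * Real.pi) ^ d : ℝ)⁻¹ *
      (volume : Measure (Rv d)).real (Metric.closedBall 0 R) with hC₀
  have hC₀n : 0 ≤ C₀ := by positivity
  rcases Nat.eq_zero_or_pos d with hd | hd
  · subst hd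
    refine ⟨C₀, hC₀n, ?_⟩
    intro f A hf hs hA k
    have hc : HasCompactSupport f :=
      (isCompact_closedBall (0 : Rv 0) R).of_isClosed_subset (isClosed_tsupport _) hs
    have hk : k = 0 := Subsingleton.elim _ _
    rcases Nat.eq_zero_or_pos N with hN | hN
    · subst hN
      have hfi : Integrable f := hf.continuous.integrable_of_hasCompactSupport hc
      have h1 := norm_fc_le hfi k
      have hpos : (0 : ℝ) ≤ ((2 * Real.pi) ^ 0 : ℝ)⁻¹ := by positivity
      have h2 : ∫ x, |f x| ≤ (volume : Measure (Rv 0)).real (Metric.closedBall 0 R) * A := by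
        have h3 : ∫ x, |f x| = ∫ x in Metric.closedBall (0 : Rv 0) R, |f x| := by
          symm
          apply setIntegral_eq_integral_of_forall_compl_eq_zero
          intro x hx
          rw [image_eq_zero_of_notMem_tsupport fun h => hx (hs h), abs_zero]
        rw [h3]
        have h4 : ∫ x in Metric.closedBall (0 : Rv 0) R, |f x| ≤
            ∫ _x in Metric.closedBall (0 : Rv 0) R, A := by
          apply integral_mono hfi.abs.integrableOn
          · exact integrableOn_const (measure_closedBall_lt_top).ne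
          · intro x
            exact hA x
        refine h4.trans (le_of_eq ?_)
        rw [setIntegral_const, smul_eq_mul]
      rw [pow_zero, one_mul, hC₀, mul_assoc]
      exact h1.trans (mul_le_mul_of_nonneg_left h2 hpos)
    · have hA0 : 0 ≤ A := hA.nonneg
      rw [hk, nk_zero, zero_pow hN.ne', zero_mul]
      positivity
  · refine ⟨Real.sqrt d ^ N * C₀, by positivity, ?_⟩
    intro f A hf hs hA k
    have : Nonempty (Fin d) := ⟨⟨0, hd⟩⟩
    obtain ⟨i, -, hi⟩ := Finset.exists_max_image (Finset.univ : Finset (Fin d))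
      (fun i => |(k i : ℝ)|) Finset.univ_nonempty
    have h1 : nk k ≤ Real.sqrt d * |(k i : ℝ)| := by
      have h2 : nk k ^ 2 ≤ (Real.sqrt d * |(k i : ℝ)|) ^ 2 := by
        rw [nk_sq, mul_pow, Real.sq_sqrt (Nat.cast_nonneg d)]
        calc ∑ j, (k j : ℝ) ^ 2 ≤ ∑ _j : Fin d, |(k i : ℝ)| ^ 2 := by
              apply Finset.sum_le_sum
              intro j _
              rw [← sq_abs (k j : ℝ)]
              exact pow_le_pow_left₀ (abs_nonneg _) (hi j (Finset.mem_univ j)) 2
          _ = (d : ℝ) * |(k i : ℝ)| ^ 2 := by simp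
      exact le_of_sq_le_sq h2 (by positivity)
    have h3 : nk k ^ N ≤ Real.sqrt d ^ N * |(k i : ℝ)| ^ N := by
      rw [← mul_pow]
      exact pow_le_pow_left₀ (nk_nonneg k) h1 N
    have h4 := four_decay_aux d N R f A hf hs hA k i
    calc nk k ^ N * ‖fc f k‖ ≤ (Real.sqrt d ^ N * |(k i : ℝ)| ^ N) * ‖fc f k‖ :=
          mul_le_mul_of_nonneg_right h3 (norm_nonneg _)
      _ = Real.sqrt d ^ N * (|(k i : ℝ)| ^ N * ‖fc f k‖) := by ring
      _ ≤ Real.sqrt d ^ N * (C₀ * A) := mul_le_mul_of_nonneg_left h4 (by positivity)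
      _ = _ := by ring

/-- Fourier coefficients of a convolution -/
theorem fc_conv {f ψ : Rv d → ℝ} (hf : Continuous f) (hfc : HasCompactSupport f)
    (hψ : Continuous ψ) (hψc : HasCompactSupport ψ) (k : K d) :
    fc (fun x => ∫ y, ψ y * f (x - y)) k = ((2 * Real.pi) ^ d : ℝ) * fc ψ k * fc f k := by
  have hfi : Integrable f := hf.integrable_of_hasCompactSupport hfc
  have hψi : Integrable ψ := hψ.integrable_of_hasCompactSupport hψc
  have h := integral_convolution (μ := (volume : Measure (Rv d))) (ν := (volume : Measure (Rv d)))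
    (ContinuousLinearMap.mul ℝ ℂ) (four_int hψi k) (four_int hfi k)
  have e : (fun x : Rv d => Complex.exp (-(Complex.I * (kx k x : ℂ))) *
      ((∫ y, ψ y * f (x - y) : ℝ) : ℂ)) =
      fun x => (MeasureTheory.convolution
        (fun x : Rv d => Complex.exp (-(Complex.I * (kx k x : ℂ))) * (ψ x : ℂ))
        (fun x : Rv d => Complex.exp (-(Complex.I * (kx k x : ℂ))) * (f x : ℂ))
        (ContinuousLinearMap.mul ℝ ℂ) volume) x := by
    funext x
    rw [convolution_def, ← integral_complex_ofReal, ← integral_const_mul]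
    congr 1
    funext y
    rw [ContinuousLinearMap.mul_apply', kx_sub]
    have e2 : Complex.exp (-(Complex.I * (kx k x : ℂ))) =
        Complex.exp (-(Complex.I * (kx k y : ℂ))) *
          Complex.exp (-(Complex.I * ((kx k x - kx k y : ℝ) : ℂ))) := by
      rw [← Complex.exp_add]
      congr 1
      push_cast
      ring
    rw [e2]
    push_cast
    ring
  unfold fc
  rw [e, h, ContinuousLinearMap.mul_apply', Complex.real_smul, Complex.real_smul,
    Complex.real_smul]
  have hpi : ((2 * Real.pi) ^ d : ℝ) ≠ 0 := by positivity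
  have hpi' : (((2 * Real.pi) ^ d : ℝ) : ℂ) ≠ 0 := by exact_mod_cast hpi
  have e3 : ((((2 * Real.pi) ^ d : ℝ)⁻¹ : ℝ) : ℂ) = (((2 * Real.pi) ^ d : ℝ) : ℂ)⁻¹ := by
    push_cast
    rfl
  rw [e3]
  field_simp

end NSC
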