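import Mathlib

/-! Module Ode: existence on `[0,T]` for an ordinary differential equation with an a priori
energy inequality. -/

open MeasureTheory Set Filter Topology
open scoped BigOperators NNReal
noncomputable section
namespace NSC

/-- radial retraction onto the ball of radius `R` -/
def ode_ret {H : Type*} [NormedAddCommGroup H] [InnerProductSpace ℝ H] (R : ℝ) (z : H) : H :=
  if ‖z‖ ≤ R then z else (R / ‖z‖) • z

section
variable {H : Type*} [NormedAddCommGroup H] [InnerProductSpace ℝ H]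

theorem ode_ret_of_le {R : ℝ} {z : H} (h : ‖z‖ ≤ R) : ode_ret R z = z := if_pos h

theorem ode_ret_of_gt {R : ℝ} {z : H} (h : R < ‖z‖) : ode_ret R z = (R / ‖z‖) • z :=
  if_neg (not_le.2 h)

theorem ode_ret_norm {R : ℝ} (hR : 0 ≤ R) (z : H) : ‖ode_ret R z‖ ≤ R := by
  rcases le_or_gt ‖z‖ R with h | h
  · rw [ode_ret_of_le h]; exact h
  · rw [ode_ret_of_gt h, norm_smul, Real.norm_of_nonneg (by positivity)]
    have : ‖z‖ ≠ 0 := by linarith
    field_simp
    exact le_rfl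

theorem ode_ret_mem {R : ℝ} (hR : 0 ≤ R) (z : H) : ode_ret R z ∈ Metric.closedBall (0 : H) R := by
  rw [mem_closedBall_zero_iff]
  exact ode_ret_norm hR z

theorem ode_ret_lip_aux {R : ℝ} (hR : 0 < R) {x y : H} (hxy : ‖x‖ ≤ ‖y‖) :
    ‖ode_ret R x - ode_ret R y‖ ≤ 2 * ‖x - y‖ := by
  have hn : ‖y‖ - ‖x‖ ≤ ‖x - y‖ := by
    rw [norm_sub_rev]; exact norm_sub_norm_le y x
  rcases le_or_gt ‖y‖ R with hy | hy
  · rw [ode_ret_of_le hy, ode_ret_of_le (hxy.trans hy)]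
    linarith [norm_nonneg (x - y)]
  · have hy0 : 0 < ‖y‖ := by linarith
    rcases le_or_gt ‖x‖ R with hx | hx
    · rw [ode_ret_of_le hx, ode_ret_of_gt hy]
      have e : x - (R / ‖y‖) • y = (x - y) + (1 - R / ‖y‖) • y := by
        rw [sub_smul, one_smul]; abel
      have e2 : ‖(1 - R / ‖y‖) • y‖ = ‖y‖ - R := by
        rw [norm_smul, Real.norm_of_nonneg]
        · field_simp
        · rw [sub_nonneg, div_le_one hy0]; exact hy.le
      rw [e]
      calc ‖(x - y) + (1 - R / ‖y‖) • y‖ ≤ ‖x - y‖ + ‖(1 - R / ‖y‖) • y‖ := norm_add_le _ _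
        _ ≤ 2 * ‖x - y‖ := by rw [e2]; linarith
    · have hx0 : 0 < ‖x‖ := by linarith
      rw [ode_ret_of_gt hx, ode_ret_of_gt hy]
      have e : (R / ‖x‖) • x - (R / ‖y‖) • y =
          (R / ‖x‖) • ((x - y) + (1 - ‖x‖ / ‖y‖) • y) := by
        have e1 : R / ‖y‖ = (R / ‖x‖) * (‖x‖ / ‖y‖) := by field_simp
        rw [e1]
        rw [smul_add, smul_sub, sub_smul, one_smul, smul_sub, ← mul_smul]
        abel
      have e2 : ‖(1 - ‖x‖ / ‖y‖) • y‖ = ‖y‖ - ‖x‖ := by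
        rw [norm_smul, Real.norm_of_nonneg]
        · field_simp
        · rw [sub_nonneg, div_le_one hy0]; exact hxy
      have e3 : ‖(x - y) + (1 - ‖x‖ / ‖y‖) • y‖ ≤ 2 * ‖x - y‖ := by
        calc ‖(x - y) + (1 - ‖x‖ / ‖y‖) • y‖ ≤ ‖x - y‖ + ‖(1 - ‖x‖ / ‖y‖) • y‖ :=
              norm_add_le _ _
          _ ≤ 2 * ‖x - y‖ := by rw [e2]; linarith
      rw [e, norm_smul, Real.norm_of_nonneg (by positivity)]
      have e4 : R / ‖x‖ ≤ 1 := by rw [div_le_one hx0]; exact hx.le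
      have e5 : 0 ≤ R / ‖x‖ := by positivity
      calc R / ‖x‖ * ‖(x - y) + (1 - ‖x‖ / ‖y‖) • y‖ ≤ 1 * (2 * ‖x - y‖) := by gcongr
        _ = _ := one_mul _

theorem ode_ret_lip {R : ℝ} (hR : 0 < R) (x y : H) :
    ‖ode_ret R x - ode_ret R y‖ ≤ 2 * ‖x - y‖ := by
  rcases le_total ‖x‖ ‖y‖ with h | h
  · exact ode_ret_lip_aux hR h
  · rw [norm_sub_rev, norm_sub_rev x y]
    exact ode_ret_lip_aux hR h

/-- Gronwall for the energy inequality. -/
theorem ode_gronwall {T g ρ : ℝ} (hT : 0 ≤ T) (hg : 0 ≤ g) (hρ : 0 ≤ ρ) {z z' : ℝ → H}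
    (hz : ∀ t ∈ Icc (0 : ℝ) T, HasDerivWithinAt z (z' t) (Icc 0 T) t)
    (hE : ∀ t ∈ Icc (0 : ℝ) T, inner ℝ (z t) (z' t) ≤ g * ‖z t‖ ^ 2 + ρ * ‖z t‖) :
    ∀ t ∈ Icc (0 : ℝ) T, ‖z t‖ ≤ Real.exp (g * t) * (‖z 0‖ + ρ * t) := by
  have hzc : ContinuousOn z (Icc 0 T) := fun t ht => (hz t ht).continuousWithinAt
  have key : ∀ ε : ℝ, 0 < ε → ∀ t ∈ Icc (0 : ℝ) T,
      ‖z t‖ ≤ Real.exp (g * t) * (‖z 0‖ + ε + ρ * t) := by
    intro ε hε t ht
    set ψ : ℝ → ℝ := fun s => Real.sqrt (‖z s‖ ^ 2 + ε ^ 2) with hψ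
    set χ : ℝ → ℝ := fun s => Real.exp (-(g * s)) * ψ s - ρ * s with hχ
    have hpos : ∀ s, 0 < ‖z s‖ ^ 2 + ε ^ 2 := fun s => by positivity
    have hψpos : ∀ s, 0 < ψ s := fun s => Real.sqrt_pos.2 (hpos s)
    have hψc : ContinuousOn ψ (Icc 0 T) :=
      ((hzc.norm.pow 2).add continuousOn_const).sqrt
    have hχc : ContinuousOn χ (Icc 0 T) := by
      have h1 : ContinuousOn (fun s : ℝ => Real.exp (-(g * s))) (Icc 0 T) := by fun_prop
      have h2 : ContinuousOn (fun s : ℝ => ρ * s) (Icc 0 T) := by fun_prop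
      exact (h1.mul hψc).sub h2
    have hder : ∀ s ∈ Ioo (0 : ℝ) T, HasDerivAt χ
        (-g * Real.exp (-(g * s)) * ψ s +
          Real.exp (-(g * s)) * (2 * inner ℝ (z s) (z' s) / (2 * ψ s)) - ρ) s := by
      intro s hs
      have h0 : HasDerivAt z (z' s) s :=
        (hz s (Ioo_subset_Icc_self hs)).hasDerivAt (Icc_mem_nhds hs.1 hs.2)
      have h1 : HasDerivAt (fun s => ‖z s‖ ^ 2 + ε ^ 2) (2 * inner ℝ (z s) (z' s)) s := by
        simpa using h0.norm_sq.add_const (ε ^ 2)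
      have h2 : HasDerivAt ψ (2 * inner ℝ (z s) (z' s) / (2 * ψ s)) s :=
        h1.sqrt (hpos s).ne'
      have h3 : HasDerivAt (fun s : ℝ => Real.exp (-(g * s))) (-g * Real.exp (-(g * s))) s := by
        have h4 : HasDerivAt (fun s : ℝ => -(g * s)) (-g) s := by
          have h41 := ((hasDerivAt_id s).const_mul g).neg
          rw [mul_one] at h41
          exact h41
        have := h4.exp
        convert this using 1
        ring
      have h5 : HasDerivAt (fun s : ℝ => ρ * s) ρ s := by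
        simpa using (hasDerivAt_id s).const_mul ρ
      exact (h3.mul h2).sub h5
    have hanti : AntitoneOn χ (Icc 0 T) := by
      refine antitoneOn_of_deriv_nonpos (convex_Icc 0 T) hχc ?_ ?_
      · rw [interior_Icc]
        intro s hs
        exact (hder s hs).differentiableAt.differentiableWithinAt
      · rw [interior_Icc]
        intro s hs
        rw [(hder s hs).deriv]
        have h1 := hE s (Ioo_subset_Icc_self hs)
        have h2 : ψ s * ψ s = ‖z s‖ ^ 2 + ε ^ 2 := Real.mul_self_sqrt (hpos s).le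
        have h3 : ‖z s‖ ≤ ψ s := by
          rw [hψ]
          exact Real.le_sqrt_of_sq_le (by nlinarith)
        have h4 : 2 * inner ℝ (z s) (z' s) / (2 * ψ s) ≤ g * ψ s + ρ := by
          rw [div_le_iff₀ (by linarith [hψpos s])]
          have h5 : g * ‖z s‖ ^ 2 ≤ g * (ψ s * ψ s) := by
            gcongr; rw [h2]; nlinarith
          have h6 : ρ * ‖z s‖ ≤ ρ * ψ s := by gcongr
          nlinarith
        have h7 : 0 < Real.exp (-(g * s)) := Real.exp_pos _
        have h8 : Real.exp (-(g * s)) ≤ 1 := by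
          rw [Real.exp_le_one_iff]
          have := mul_nonneg hg hs.1.le
          linarith
        have h9 : Real.exp (-(g * s)) * (2 * inner ℝ (z s) (z' s) / (2 * ψ s)) ≤
            Real.exp (-(g * s)) * (g * ψ s + ρ) := by gcongr
        have h10 : Real.exp (-(g * s)) * ρ ≤ 1 * ρ := by gcongr
        nlinarith
    have h1 : χ t ≤ χ 0 := hanti ⟨le_rfl, hT⟩ ht ht.1
    have h2 : χ 0 = ψ 0 := by simp [hχ]
    have h3 : ψ 0 ≤ ‖z 0‖ + ε := by
      rw [hψ]
      apply Real.sqrt_le_iff.2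
      constructor
      · positivity
      · nlinarith [norm_nonneg (z 0)]
    have h4 : Real.exp (-(g * t)) * ψ t ≤ ‖z 0‖ + ε + ρ * t := by
      have : χ t = Real.exp (-(g * t)) * ψ t - ρ * t := rfl
      linarith
    have h5 : ‖z t‖ ≤ ψ t := by
      rw [hψ]
      exact Real.le_sqrt_of_sq_le (by nlinarith)
    calc ‖z t‖ ≤ ψ t := h5
      _ = Real.exp (g * t) * (Real.exp (-(g * t)) * ψ t) := by
          rw [← mul_assoc, ← Real.exp_add]; simp
      _ ≤ Real.exp (g * t) * (‖z 0‖ + ε + ρ * t) := by gcongr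
  intro t ht
  refine le_of_forall_pos_le_add fun δ hδ => ?_
  have h1 := key (δ * Real.exp (-(g * t))) (by positivity) t ht
  have h2 : Real.exp (g * t) * (‖z 0‖ + δ * Real.exp (-(g * t)) + ρ * t) =
      Real.exp (g * t) * (‖z 0‖ + ρ * t) + δ * (Real.exp (g * t) * Real.exp (-(g * t))) := by ring
  rw [h2, ← Real.exp_add] at h1
  simpa using h1

end

theorem ode_energy {H : Type*} [NormedAddCommGroup H] [InnerProductSpace ℝ H]
    [FiniteDimensional ℝ H] {T g ρ R : ℝ} (hT : 0 ≤ T) (hg : 0 ≤ g) (hρ : 0 ≤ ρ)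
    (F : ℝ → H → H)
    (hFc : ContinuousOn (Function.uncurry F) (Icc (0 : ℝ) T ×ˢ Metric.closedBall (0 : H) R))
    (L : ℝ≥0) (hL : ∀ t ∈ Icc (0 : ℝ) T, LipschitzOnWith L (F t) (Metric.closedBall (0 : H) R))
    (hF : ∀ t ∈ Icc (0 : ℝ) T, ∀ z ∈ Metric.closedBall (0 : H) R,
      inner ℝ z (F t z) ≤ g * ‖z‖ ^ 2 + ρ * ‖z‖)
    (z₀ : H) (hz₀ : Real.exp (g * T) * (‖z₀‖ + ρ * T) < R) :
    ∃ z : ℝ → H, z 0 = z₀ ∧ ContinuousOn z (Icc 0 T) ∧
      (∀ t ∈ Icc (0 : ℝ) T, HasDerivWithinAt z (F t (z t)) (Icc 0 T) t) ∧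
      (∀ t ∈ Icc (0 : ℝ) T, z t = z₀ + ∫ s in (0 : ℝ)..t, F s (z s)) ∧
      ∀ t ∈ Icc (0 : ℝ) T, ‖z t‖ ≤ Real.exp (g * t) * (‖z₀‖ + ρ * t) := by
  have hR : 0 < R := lt_of_le_of_lt (by positivity) hz₀
  haveI : CompleteSpace H := FiniteDimensional.complete ℝ H
  haveI : ProperSpace H := FiniteDimensional.proper ℝ H
  set Ft : ℝ → H → H := fun t z => F t (ode_ret R z) with hFt
  -- bound
  obtain ⟨B, hB⟩ : ∃ B : ℝ, ∀ t ∈ Icc (0 : ℝ) T, ∀ z : H, ‖Ft t z‖ ≤ B := by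
    have hc : IsCompact (Icc (0 : ℝ) T ×ˢ Metric.closedBall (0 : H) R) :=
      isCompact_Icc.prod (isCompact_closedBall 0 R)
    obtain ⟨B, hB⟩ := hc.exists_bound_of_continuousOn hFc
    exact ⟨B, fun t ht z => hB (t, ode_ret R z) ⟨ht, ode_ret_mem hR.le z⟩⟩
  have hB0 : 0 ≤ B := (norm_nonneg _).trans (hB 0 ⟨le_rfl, hT⟩ 0)
  set B' : ℝ≥0 := ⟨B, hB0⟩ with hB'
  set a' : ℝ≥0 := ⟨B * T, mul_nonneg hB0 hT⟩ with ha'
  have hPL : IsPicardLindelof Ft (⟨0, le_rfl, hT⟩ : Icc (0 : ℝ) T) z₀ a' 0 B' (L * 2) := by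
    refine ⟨fun t ht => ?_, fun x _ => ?_, fun t ht x _ => hB t ht x, ?_⟩
    · apply LipschitzOnWith.of_dist_le_mul
      intro x _ y _
      have h1 := (hL t ht).dist_le_mul _ (ode_ret_mem hR.le x) _ (ode_ret_mem hR.le y)
      refine h1.trans ?_
      have h2 := ode_ret_lip hR x y
      rw [← dist_eq_norm, ← dist_eq_norm] at h2
      push_cast
      calc (L : ℝ) * dist (ode_ret R x) (ode_ret R y) ≤ L * (2 * dist x y) := by gcongr
        _ = _ := by ring
    · have h1 : ContinuousOn (fun t : ℝ => (t, ode_ret R x)) (Icc 0 T) := by fun_prop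
      exact hFc.comp h1 fun t ht => ⟨ht, ode_ret_mem hR.le x⟩
    · show (B' : ℝ) * max (T - 0) (0 - 0) ≤ (a' : ℝ) - ((0 : ℝ≥0) : ℝ)
      have e1 : (B' : ℝ) = B := rfl
      have e2 : (a' : ℝ) = B * T := rfl
      rw [e1, e2]
      simp [hT]
  obtain ⟨z, hz0, hz⟩ := hPL.exists_eq_forall_mem_Icc_hasDerivWithinAt₀
  have hz0' : z 0 = z₀ := hz0
  have hzc : ContinuousOn z (Icc 0 T) := fun t ht => (hz t ht).continuousWithinAt
  have hE : ∀ t ∈ Icc (0 : ℝ) T, inner ℝ (z t) (Ft t (z t)) ≤ g * ‖z t‖ ^ 2 + ρ * ‖z t‖ := by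
    intro t ht
    rcases le_or_gt ‖z t‖ R with h | h
    · have e : Ft t (z t) = F t (z t) := by
        show F t (ode_ret R (z t)) = F t (z t)
        rw [ode_ret_of_le h]
      rw [e]
      exact hF t ht _ (mem_closedBall_zero_iff.2 h)
    · have hn : 0 < ‖z t‖ := by linarith
      have h1 := hF t ht _ (ode_ret_mem hR.le (z t))
      have e1 : ode_ret R (z t) = (R / ‖z t‖) • z t := ode_ret_of_gt h
      have e2 : ‖ode_ret R (z t)‖ = R := by
        rw [e1, norm_smul, Real.norm_of_nonneg (by positivity)]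
        field_simp
      have e3 : inner ℝ (ode_ret R (z t)) (F t (ode_ret R (z t))) =
          (R / ‖z t‖) * inner ℝ (z t) (Ft t (z t)) := by
        conv_lhs => rw [e1]
        rw [real_inner_smul_left]
        show R / ‖z t‖ * inner ℝ (z t) (F t ((R / ‖z t‖) • z t)) =
          R / ‖z t‖ * inner ℝ (z t) (F t (ode_ret R (z t)))
        rw [e1]
      rw [e2, e3] at h1
      have h2 : inner ℝ (z t) (Ft t (z t)) ≤ ‖z t‖ * (g * R + ρ) := by
        have h3 : R / ‖z t‖ * inner ℝ (z t) (Ft t (z t)) ≤ R * (g * R + ρ) := by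
          calc _ ≤ g * R ^ 2 + ρ * R := h1
            _ = _ := by ring
        rw [div_mul_eq_mul_div, div_le_iff₀ hn] at h3
        have h4 : R * inner ℝ (z t) (Ft t (z t)) ≤ R * (‖z t‖ * (g * R + ρ)) := by
          calc _ ≤ R * (g * R + ρ) * ‖z t‖ := h3
            _ = _ := by ring
        exact le_of_mul_le_mul_left h4 hR
      refine h2.trans ?_
      have h5 : g * R ≤ g * ‖z t‖ := by gcongr
      nlinarith
  have hbound := ode_gronwall hT hg hρ hz hE
  rw [hz0'] at hbound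
  have hzR : ∀ t ∈ Icc (0 : ℝ) T, ‖z t‖ ≤ R := by
    intro t ht
    refine (hbound t ht).trans (le_trans ?_ hz₀.le)
    have h1 : Real.exp (g * t) ≤ Real.exp (g * T) := by
      apply Real.exp_le_exp.2
      exact mul_le_mul_of_nonneg_left ht.2 hg
    have h2 : ‖z₀‖ + ρ * t ≤ ‖z₀‖ + ρ * T := by
      have := mul_le_mul_of_nonneg_left ht.2 hρ
      linarith
    have h3 : 0 ≤ ‖z₀‖ + ρ * t := by
      have := mul_nonneg hρ ht.1
      positivity
    exact mul_le_mul h1 h2 h3 (Real.exp_pos _).le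
  have hzF : ∀ t ∈ Icc (0 : ℝ) T, Ft t (z t) = F t (z t) := by
    intro t ht
    show F t (ode_ret R (z t)) = F t (z t)
    rw [ode_ret_of_le (hzR t ht)]
  have hz' : ∀ t ∈ Icc (0 : ℝ) T, HasDerivWithinAt z (F t (z t)) (Icc 0 T) t := by
    intro t ht
    rw [← hzF t ht]
    exact hz t ht
  refine ⟨z, hz0', hzc, hz', ?_, hbound⟩
  intro t ht
  have hFz : ContinuousOn (fun s => F s (z s)) (Icc 0 T) := by
    have h1 : ContinuousOn (fun s => (s, z s)) (Icc 0 T) := continuousOn_id.prodMk hzc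
    exact hFc.comp h1 fun s hs => ⟨hs, mem_closedBall_zero_iff.2 (hzR s hs)⟩
  have hsub : Icc (0 : ℝ) t ⊆ Icc 0 T := Icc_subset_Icc_right ht.2
  have h1 := intervalIntegral.integral_eq_sub_of_hasDerivAt_of_le ht.1 (hzc.mono hsub)
    (f' := fun s => F s (z s)) (by
      intro s hs
      have hs' : s ∈ Ioo (0 : ℝ) T := ⟨hs.1, lt_of_lt_of_le hs.2 ht.2⟩
      exact (hz' s (Ioo_subset_Icc_self hs')).hasDerivAt (Icc_mem_nhds hs'.1 hs'.2))
    ((hFz.mono hsub).intervalIntegrable_of_Icc ht.1)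
  rw [h1, hz0']
  abel

end NSC
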