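import Pool.Agent.Work.MP_57e339_an.EstS
import Pool.Agent.Work.MP_57e339_an.Ode

/-! Module YLem: the (discretized) linear transport of a smooth field by a smooth background.
The approximation is the explicit Euler scheme for the truncated equation. -/

open MeasureTheory Set Filter Topology
open scoped BigOperators
noncomputable section
namespace NSC
variable {d : ℕ}

/-- the square of the `H^6` norm -/
def ylemE (y : Sq d) : ℝ := ∑' k, nk k ^ (2 * 6) * ‖y k‖ ^ 2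

theorem ylemE_nonneg (y : Sq d) : 0 ≤ ylemE y :=
  tsum_nonneg fun _ => mul_nonneg (pow_nonneg (nk_nonneg _) _) (sq_nonneg _)

theorem ylemE_eq {R : ℝ} {y : Sq d} (hy : ∀ k ∉ bx d R, y k = 0) :
    ylemE y = ∑ k ∈ (finite_bx (d := d) R).toFinset, nk k ^ (2 * 6) * ‖y k‖ ^ 2 := by
  unfold ylemE
  apply tsum_eq_sum
  intro k hk
  rw [hy k (by simpa using hk), norm_zero]
  simp

theorem ylem_fs {R : ℝ} {y : Sq d} (hy : ∀ k ∉ bx d R, y k = 0) : FS y := by
  apply (finite_bx (d := d) R).subset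
  intro k hk
  by_contra hcon
  exact hk (hy k hcon)

theorem ylem_n1_le {R : ℝ} {y : Sq d} (hV : IsV y) (hy : ∀ k ∉ bx d R, y k = 0) :
    n1 y ^ 2 ≤ ylemE y := by
  rw [ylemE_eq hy, n1_sq hV]
  have h : ∑' k, nk k ^ 2 * ‖y k‖ ^ 2 =
      ∑ k ∈ (finite_bx (d := d) R).toFinset, nk k ^ 2 * ‖y k‖ ^ 2 := by
    apply tsum_eq_sum
    intro k hk
    rw [hy k (by simpa using hk), norm_zero]
    simp
  rw [h]
  apply Finset.sum_le_sum
  intro k hk
  have hk' : k ∈ bx d R := by simpa using hk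
  have h1 := one_le_nk hk'.1
  exact mul_le_mul_of_nonneg_right (pow_le_pow_right₀ h1 (by norm_num)) (sq_nonneg _)

/-- one step of the scheme -/
theorem ylem_step {ν : ℝ} {m : Fin d → ℝ} {a : Sq d} (ha : IsV a) (hr : Rap a) {C : ℝ}
    (hC : ∀ (a z : Sq d), IsV a → SW (6 + 1) a → IsV z → FS z →
      |∑' k, nk k ^ (2 * 6) * (inner ℂ (z k) (Lk a z k)).re| ≤
      C * W (6 + 1) a * ∑' k, nk k ^ (2 * 6) * ‖z k‖ ^ 2)
    {R : ℝ} (hR : 1 ≤ R) {y : Sq d} (hV : IsV y) (hy : ∀ k ∉ bx d R, y k = 0) {κ : ℝ}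
    (hκ : 0 ≤ κ) :
    ylemE (y - κ • tr (bx d R) (Lk a y + Mu ν m a)) ≤ ylemE y +
      κ * ((2 * (C * W 7 a) + 1) * ylemE y + W 6 (Mu ν m a) ^ 2) +
      κ ^ 2 * (((finite_bx (d := d) R).toFinset.card *
        (R ^ (2 * 6) * (2 * (4 * R ^ 2 * n1 a ^ 2 + W 0 (Mu ν m a) ^ 2)))) * (ylemE y + 1)) := by
  classical
  set v : Sq d := Lk a y + Mu ν m a with hv
  set S := (finite_bx (d := d) R).toFinset with hS
  have hmem : ∀ k, k ∈ S ↔ k ∈ bx d R := by
    intro k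
    rw [hS, Set.Finite.mem_toFinset]
  have hfs := ylem_fs hy
  have hM6 := (Mu_SW ν m (l := 6) (hr 8)).1
  have hM0 := (Mu_SW ν m (l := 0) (hr 2)).1
  have hy' : ∀ k ∉ bx d R, (y - κ • tr (bx d R) v) k = 0 := by
    intro k hk
    simp only [Pi.sub_apply, Pi.smul_apply]
    rw [hy k hk, tr_apply_not_mem hk, smul_zero, sub_zero]
  have hval : ∀ k ∈ S, ‖(y - κ • tr (bx d R) v) k‖ ^ 2 =
      ‖y k‖ ^ 2 - 2 * κ * (inner ℂ (y k) (v k)).re + κ ^ 2 * ‖v k‖ ^ 2 := by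
    intro k hk
    simp only [Pi.sub_apply, Pi.smul_apply]
    rw [tr_apply_mem ((hmem k).1 hk)]
    have h1 := norm_sub_sq (𝕜 := ℂ) (y k) (κ • v k)
    have h2 : (inner ℂ (y k) (κ • v k) : ℂ) = (κ : ℂ) * inner ℂ (y k) (v k) := by
      rw [← inner_smul_right]
      rfl
    rw [h1, h2, norm_smul, Real.norm_of_nonneg hκ]
    have h3 : RCLike.re ((κ : ℂ) * inner ℂ (y k) (v k)) = κ * (inner ℂ (y k) (v k)).re := by
      show ((κ : ℂ) * inner ℂ (y k) (v k)).re = _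
      rw [Complex.re_ofReal_mul]
    rw [h3]
    ring
  have hE : ylemE (y - κ • tr (bx d R) v) = ylemE y -
      2 * κ * (∑ k ∈ S, nk k ^ (2 * 6) * (inner ℂ (y k) (v k)).re) +
      κ ^ 2 * ∑ k ∈ S, nk k ^ (2 * 6) * ‖v k‖ ^ 2 := by
    rw [ylemE_eq hy', ylemE_eq hy, ← hS, Finset.mul_sum, Finset.mul_sum,
      ← Finset.sum_sub_distrib, ← Finset.sum_add_distrib]
    apply Finset.sum_congr rfl
    intro k hk
    rw [hval k hk]
    ring
  -- the linear terms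
  have hL : |∑ k ∈ S, nk k ^ (2 * 6) * (inner ℂ (y k) (Lk a y k)).re| ≤
      C * W 7 a * ylemE y := by
    have h1 := hC a y ha (hr 7) hV hfs
    have h2 : ∑' k, nk k ^ (2 * 6) * (inner ℂ (y k) (Lk a y k)).re =
        ∑ k ∈ S, nk k ^ (2 * 6) * (inner ℂ (y k) (Lk a y k)).re := by
      apply tsum_eq_sum
      intro k hk
      rw [hy k (fun h => hk ((hmem k).2 h)), inner_zero_left]
      simp
    rw [h2] at h1
    exact h1
  have hM : |∑ k ∈ S, nk k ^ (2 * 6) * (inner ℂ (y k) (Mu ν m a k)).re| ≤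
      1 / 2 * ylemE y + 1 / 2 * W 6 (Mu ν m a) ^ 2 := by
    have h3 : ∑ k ∈ S, (nk k ^ 6 * ‖Mu ν m a k‖) ^ 2 ≤ W 6 (Mu ν m a) ^ 2 := by
      have hb : ∀ k ∈ S, (nk k ^ 6 * ‖Mu ν m a k‖) ^ 2 ≤
          W 6 (Mu ν m a) * (nk k ^ 6 * ‖Mu ν m a k‖) := by
        intro k _
        have h4 := sum_le_W hM6 {k}
        rw [Finset.sum_singleton] at h4
        rw [sq]
        exact mul_le_mul_of_nonneg_right h4
          (mul_nonneg (pow_nonneg (nk_nonneg _) _) (norm_nonneg _))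
      calc _ ≤ ∑ k ∈ S, W 6 (Mu ν m a) * (nk k ^ 6 * ‖Mu ν m a k‖) := Finset.sum_le_sum hb
        _ = W 6 (Mu ν m a) * ∑ k ∈ S, nk k ^ 6 * ‖Mu ν m a k‖ := (Finset.mul_sum _ _ _).symm
        _ ≤ W 6 (Mu ν m a) * W 6 (Mu ν m a) :=
            mul_le_mul_of_nonneg_left (sum_le_W hM6 S) (W_nonneg _ _)
        _ = _ := (sq _).symm
    rw [ylemE_eq hy, ← hS]
    calc _ ≤ ∑ k ∈ S, |nk k ^ (2 * 6) * (inner ℂ (y k) (Mu ν m a k)).re| :=
          Finset.abs_sum_le_sum_abs _ _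
      _ ≤ ∑ k ∈ S, (1 / 2 * (nk k ^ (2 * 6) * ‖y k‖ ^ 2) +
            1 / 2 * (nk k ^ 6 * ‖Mu ν m a k‖) ^ 2) := by
          apply Finset.sum_le_sum
          intro k _
          have h5 : |(inner ℂ (y k) (Mu ν m a k)).re| ≤ ‖y k‖ * ‖Mu ν m a k‖ :=
            (Complex.abs_re_le_norm _).trans (norm_inner_le_norm _ _)
          have h6 : 0 ≤ nk k ^ (2 * 6) := pow_nonneg (nk_nonneg _) _
          rw [abs_mul, abs_of_nonneg h6]
          have h7 := mul_le_mul_of_nonneg_left h5 h6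
          have h8 : nk k ^ (2 * 6) * (‖y k‖ * ‖Mu ν m a k‖) =
              (nk k ^ 6 * ‖y k‖) * (nk k ^ 6 * ‖Mu ν m a k‖) := by ring
          have h9 : nk k ^ (2 * 6) * ‖y k‖ ^ 2 = (nk k ^ 6 * ‖y k‖) ^ 2 := by ring
          refine h7.trans ?_
          rw [h8, h9]
          generalize nk k ^ 6 * ‖y k‖ = p
          generalize nk k ^ 6 * ‖Mu ν m a k‖ = q
          nlinarith [sq_nonneg (p - q)]
      _ = 1 / 2 * (∑ k ∈ S, nk k ^ (2 * 6) * ‖y k‖ ^ 2) +
            1 / 2 * ∑ k ∈ S, (nk k ^ 6 * ‖Mu ν m a k‖) ^ 2 := by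
          rw [Finset.sum_add_distrib, Finset.mul_sum, Finset.mul_sum]
      _ ≤ _ := by linarith
  have hlin : -(2 * κ * (∑ k ∈ S, nk k ^ (2 * 6) * (inner ℂ (y k) (v k)).re)) ≤
      κ * ((2 * (C * W 7 a) + 1) * ylemE y + W 6 (Mu ν m a) ^ 2) := by
    have h8 : ∑ k ∈ S, nk k ^ (2 * 6) * (inner ℂ (y k) (v k)).re =
        (∑ k ∈ S, nk k ^ (2 * 6) * (inner ℂ (y k) (Lk a y k)).re) +
        ∑ k ∈ S, nk k ^ (2 * 6) * (inner ℂ (y k) (Mu ν m a k)).re := by
      rw [← Finset.sum_add_distrib]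
      apply Finset.sum_congr rfl
      intro k _
      rw [hv, Pi.add_apply, inner_add_right, Complex.add_re]
      ring
    have h9 := (abs_le.1 hL).1
    have h10 := (abs_le.1 hM).1
    rw [h8]
    nlinarith [mul_nonneg hκ (add_nonneg (neg_le_iff_add_nonneg.1 h9)
      (neg_le_iff_add_nonneg.1 h10))]
  -- the quadratic term
  have hquad : ∑ k ∈ S, nk k ^ (2 * 6) * ‖v k‖ ^ 2 ≤ (S.card *
        (R ^ (2 * 6) * (2 * (4 * R ^ 2 * n1 a ^ 2 + W 0 (Mu ν m a) ^ 2)))) *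
        (ylemE y + 1) := by
    have hn := ylem_n1_le hV hy
    have hE0 := ylemE_nonneg y
    have hb : ∀ k ∈ S, nk k ^ (2 * 6) * ‖v k‖ ^ 2 ≤
        (R ^ (2 * 6) * (2 * (4 * R ^ 2 * n1 a ^ 2 + W 0 (Mu ν m a) ^ 2))) *
          (ylemE y + 1) := by
      intro k hk
      have hkR := ((hmem k).1 hk).2
      have hnk := nk_nonneg k
      have e1 : ‖v k‖ ≤ 2 * (nk k * n1 a * n1 y) + ‖Mu ν m a k‖ := by
        rw [hv, Pi.add_apply]
        refine (norm_add_le _ _).trans ?_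
        have : ‖Lk a y k‖ ≤ 2 * (nk k * n1 a * n1 y) := by
          unfold Lk
          rw [Pi.add_apply]
          refine (norm_add_le _ _).trans ?_
          have f1 := norm_bk_le ha hV k
          have f2 := norm_bk_le hV ha k
          nlinarith
        linarith
      have e2 : ‖Mu ν m a k‖ ≤ W 0 (Mu ν m a) := by
        have h4 := sum_le_W hM0 {k}
        rw [Finset.sum_singleton, pow_zero, one_mul] at h4
        exact h4
      have na := n1_nonneg a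
      have ny := n1_nonneg y
      have hW0 := W_nonneg 0 (Mu ν m a)
      have e3 : ‖v k‖ ≤ 2 * (R * n1 a * n1 y) + W 0 (Mu ν m a) := by
        have : nk k * n1 a * n1 y ≤ R * n1 a * n1 y := by gcongr
        linarith
      have e4 : ‖v k‖ ^ 2 ≤ 2 * (4 * R ^ 2 * n1 a ^ 2 * n1 y ^ 2 + W 0 (Mu ν m a) ^ 2) := by
        have := pow_le_pow_left₀ (norm_nonneg _) e3 2
        nlinarith [sq_nonneg (2 * (R * n1 a * n1 y) - W 0 (Mu ν m a))]
      have e5 : ‖v k‖ ^ 2 ≤ 2 * (4 * R ^ 2 * n1 a ^ 2 + W 0 (Mu ν m a) ^ 2) * (ylemE y + 1) := by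
        refine e4.trans ?_
        have g1 : 4 * R ^ 2 * n1 a ^ 2 * n1 y ^ 2 ≤ 4 * R ^ 2 * n1 a ^ 2 * (ylemE y + 1) := by
          apply mul_le_mul_of_nonneg_left _ (by positivity)
          linarith
        have g2 : W 0 (Mu ν m a) ^ 2 ≤ W 0 (Mu ν m a) ^ 2 * (ylemE y + 1) :=
          le_mul_of_one_le_right (sq_nonneg _) (by linarith)
        nlinarith
      calc nk k ^ (2 * 6) * ‖v k‖ ^ 2 ≤ R ^ (2 * 6) *
            (2 * (4 * R ^ 2 * n1 a ^ 2 + W 0 (Mu ν m a) ^ 2) * (ylemE y + 1)) := by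
            apply mul_le_mul (pow_le_pow_left₀ hnk hkR _) e5 (sq_nonneg _)
            exact pow_nonneg (by linarith) _
        _ = _ := by ring
    calc _ ≤ ∑ k ∈ S, (R ^ (2 * 6) * (2 * (4 * R ^ 2 * n1 a ^ 2 + W 0 (Mu ν m a) ^ 2))) *
          (ylemE y + 1) := Finset.sum_le_sum hb
      _ = _ := by
          rw [Finset.sum_const, nsmul_eq_mul]
          ring
  rw [hE]
  have hκ2 : 0 ≤ κ ^ 2 := sq_nonneg _
  have := mul_le_mul_of_nonneg_left hquad hκ2
  linarith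

/-- the explicit Euler scheme for the truncated equation -/
def ylemY (ν : ℝ) (m : Fin d → ℝ) (a : Sq d) (R R' κ : ℝ) (x : Sq d) : ℕ → Sq d
  | 0 => tr (bx d R) x
  | j + 1 => ylemY ν m a R R' κ x j -
      κ • tr (bx d R') (Lk a (ylemY ν m a R R' κ x j) + Mu ν m a)

theorem y_lemma (hd : d = 2 ∨ d = 3) (ν : ℝ) (m : Fin d → ℝ) {a : Sq d} (ha : IsV a)
    (hr : Rap a) {τ : ℝ} (hτ : 0 < τ) (R M₀ : ℝ) {ρ : ℝ} (hρ : 0 < ρ) :
    ∃ Y : ℝ, ∃ N₀ : ℕ, ∀ N ≥ N₀, 0 < N → ∀ x : Sq d, IsV x → n1 x ≤ M₀ →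
      ∃ y : ℕ → Sq d, y 0 = tr (bx d R) x ∧
        (∀ j ≤ N, IsV (y j) ∧ SW 4 (y j) ∧ W 4 (y j) ≤ Y) ∧
        ∀ j < N, n1 (y (j + 1) - y j + (τ / N) • (Lk a (y j) + Mu ν m a)) ≤ τ / N * ρ ∧
          W 2 (y (j + 1) - y j) ≤ Y * (τ / N) := by
  obtain ⟨C, hC0, hC⟩ := hs_smooth (d := d) 6 (by norm_num)
  obtain ⟨C4, hC40, hC4⟩ := W_le_l2 hd 4
  have hW7 := W_nonneg 7 a
  set K : ℝ := 2 * (C * W 7 a) + 2 + W 6 (Mu ν m a) ^ 2 with hK
  have hK0 : 0 ≤ K := by positivity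
  set R₁ : ℝ := max R 1 with hR₁
  have hR₁1 : 1 ≤ R₁ := le_max_right _ _
  set B : ℝ := Real.sqrt (Real.exp (τ * K) * (R₁ ^ 10 * M₀ ^ 2 + 1)) with hB
  have hB0 : 0 ≤ B := Real.sqrt_nonneg _
  have hB2 : B ^ 2 = Real.exp (τ * K) * (R₁ ^ 10 * M₀ ^ 2 + 1) := Real.sq_sqrt (by positivity)
  set Q : ℝ := 8 * W 3 a * (C4 * B) + W 2 (Mu ν m a) with hQ
  have hW3 := W_nonneg 3 a
  have hWM2 := W_nonneg 2 (Mu ν m a)
  have hQ0 : 0 ≤ Q := by positivity
  set R' : ℝ := max R₁ (Q / ρ) with hR'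
  have hR'1 : 1 ≤ R' := hR₁1.trans (le_max_left _ _)
  have hR'Q : R'⁻¹ * Q ≤ ρ := by
    rw [inv_mul_le_iff₀ (by linarith)]
    have : Q / ρ ≤ R' := le_max_right _ _
    rw [div_le_iff₀ hρ] at this
    exact this
  have hRR' : R ≤ R' := (le_max_left _ _).trans (le_max_left _ _)
  set G : ℝ := (finite_bx (d := d) R').toFinset.card *
        (R' ^ (2 * 6) * (2 * (4 * R' ^ 2 * n1 a ^ 2 + W 0 (Mu ν m a) ^ 2))) with hG
  have hG0 : 0 ≤ G := by positivity
  obtain ⟨N₀, hN₀⟩ := exists_nat_gt (τ * G)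
  refine ⟨max (C4 * B) Q, N₀, ?_⟩
  intro N hN hN0 x hx hxM
  have hNr : (0 : ℝ) < N := by exact_mod_cast hN0
  set κ : ℝ := τ / N with hκ
  have hκ0 : 0 < κ := by positivity
  have hκG : κ * G ≤ 1 := by
    rw [hκ, div_mul_eq_mul_div, div_le_one hNr]
    exact hN₀.le.trans (by exact_mod_cast hN)
  set y := ylemY ν m a R R' κ x with hy
  have hy0 : y 0 = tr (bx d R) x := rfl
  have hys : ∀ j, y (j + 1) = y j - κ • tr (bx d R') (Lk a (y j) + Mu ν m a) := fun j => rfl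
  have hMuV := Mu_isV ν m ha (hr 3)
  have hMu2 := (Mu_SW ν m (l := 2) (hr 4)).1
  -- basic properties
  have hbase : ∀ j, IsV (y j) ∧ ∀ k ∉ bx d R', y j k = 0 := by
    intro j
    induction j with
    | zero =>
      refine ⟨by rw [hy0]; exact (tr_isV hx fun k hk => bx_neg hk).1, ?_⟩
      intro k hk
      rw [hy0]
      apply tr_apply_not_mem
      intro h
      exact hk ⟨h.1, h.2.trans hRR'⟩
    | succ j ih =>
      have hrap := (ylem_fs ih.2).rap
      have h1 := Lk_isV ha ih.1 (hr 2) (hrap 2)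
      refine ⟨?_, ?_⟩
      · rw [hys]
        exact ih.1.sub (((tr_isV (h1.1.add hMuV.1) fun k hk => bx_neg hk).1).smul _)
      · intro k hk
        rw [hys]
        simp only [Pi.sub_apply, Pi.smul_apply]
        rw [ih.2 k hk, tr_apply_not_mem hk, smul_zero, sub_zero]
  -- the energy
  have hE0 : ylemE (y 0) ≤ R₁ ^ 10 * M₀ ^ 2 := by
    rw [ylemE_eq (hbase 0).2]
    have hxx : n1 x ^ 2 ≤ M₀ ^ 2 := pow_le_pow_left₀ (n1_nonneg x) hxM 2
    calc ∑ k ∈ (finite_bx (d := d) R').toFinset, nk k ^ (2 * 6) * ‖y 0 k‖ ^ 2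
        ≤ ∑ k ∈ (finite_bx (d := d) R').toFinset, R₁ ^ 10 * (nk k ^ 2 * ‖x k‖ ^ 2) := by
          apply Finset.sum_le_sum
          intro k _
          rw [hy0]
          have hnk := nk_nonneg k
          by_cases hk : k ∈ bx d R
          · rw [tr_apply_mem hk]
            have h2 : nk k ^ 10 ≤ R₁ ^ 10 :=
              pow_le_pow_left₀ hnk (hk.2.trans (le_max_left _ _)) 10
            calc nk k ^ (2 * 6) * ‖x k‖ ^ 2 = nk k ^ 10 * (nk k ^ 2 * ‖x k‖ ^ 2) := by ring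
              _ ≤ _ := mul_le_mul_of_nonneg_right h2 (by positivity)
          · rw [tr_apply_not_mem hk, norm_zero]
            have : 0 ≤ R₁ ^ 10 * (nk k ^ 2 * ‖x k‖ ^ 2) := by positivity
            simpa using this
      _ = R₁ ^ 10 * ∑ k ∈ (finite_bx (d := d) R').toFinset, nk k ^ 2 * ‖x k‖ ^ 2 :=
          (Finset.mul_sum _ _ _).symm
      _ ≤ R₁ ^ 10 * M₀ ^ 2 := by
          apply mul_le_mul_of_nonneg_left _ (by positivity)
          exact (sum_le_n1_sq hx _).trans hxx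
  have hEs : ∀ j, ylemE (y j) + 1 ≤ (1 + κ * K) ^ j * (R₁ ^ 10 * M₀ ^ 2 + 1) := by
    intro j
    induction j with
    | zero =>
      rw [pow_zero, one_mul]
      linarith
    | succ j ih =>
      have h1 := ylem_step (ν := ν) (m := m) ha hr hC hR'1 (hbase j).1 (hbase j).2 hκ0.le
      rw [← hys, ← hG] at h1
      have hEj := ylemE_nonneg (y j)
      have h2 : κ ^ 2 * (G * (ylemE (y j) + 1)) ≤ κ * (ylemE (y j) + 1) := by
        have : κ ^ 2 * (G * (ylemE (y j) + 1)) = (κ * G) * (κ * (ylemE (y j) + 1)) := by ring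
        rw [this]
        exact mul_le_of_le_one_left (by positivity) hκG
      have h3 : (2 * (C * W 7 a) + 1) * ylemE (y j) + W 6 (Mu ν m a) ^ 2 +
          (ylemE (y j) + 1) ≤ K * (ylemE (y j) + 1) := by
        have : 0 ≤ W 6 (Mu ν m a) ^ 2 * ylemE (y j) := by positivity
        have h4 : 0 ≤ C * W 7 a := by positivity
        rw [hK]
        nlinarith
      have h5 := mul_le_mul_of_nonneg_left h3 hκ0.le
      calc ylemE (y (j + 1)) + 1 ≤ (1 + κ * K) * (ylemE (y j) + 1) := by linarith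
        _ ≤ (1 + κ * K) * ((1 + κ * K) ^ j * (R₁ ^ 10 * M₀ ^ 2 + 1)) :=
            mul_le_mul_of_nonneg_left ih (by positivity)
        _ = _ := by
            rw [pow_succ]
            ring
  have hEb : ∀ j ≤ N, ylemE (y j) ≤ B ^ 2 := by
    intro j hj
    have h1 := hEs j
    have h2 : (1 + κ * K) ^ j ≤ Real.exp (τ * K) := by
      have h3 : 1 + κ * K ≤ Real.exp (κ * K) := by
        have := Real.add_one_le_exp (κ * K)
        linarith
      calc (1 + κ * K) ^ j ≤ Real.exp (κ * K) ^ j := pow_le_pow_left₀ (by positivity) h3 j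
        _ = Real.exp (j * (κ * K)) := (Real.exp_nat_mul _ _).symm
        _ ≤ Real.exp (τ * K) := by
            apply Real.exp_le_exp.2
            have h4 : (j : ℝ) ≤ N := by exact_mod_cast hj
            have h5 : (N : ℝ) * (κ * K) = τ * K := by
              rw [hκ]
              field_simp
            rw [← h5]
            exact mul_le_mul_of_nonneg_right h4 (by positivity)
    have h6 : (1 + κ * K) ^ j * (R₁ ^ 10 * M₀ ^ 2 + 1) ≤ B ^ 2 := by
      rw [hB2]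
      exact mul_le_mul_of_nonneg_right h2 (by positivity)
    linarith
  have hW4 : ∀ j ≤ N, SW 4 (y j) ∧ W 4 (y j) ≤ C4 * B := by
    intro j hj
    apply hC4 (y j) B (hbase j).1.zero hB0
    intro s
    have hsum : Summable fun k => nk k ^ (2 * 6) * ‖y j k‖ ^ 2 := by
      apply summable_of_ne_finset_zero (s := (finite_bx (d := d) R').toFinset)
      intro k hk
      rw [(hbase j).2 k (by simpa using hk), norm_zero]
      simp
    have h1 := hsum.sum_le_tsum s fun k _ =>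
      mul_nonneg (pow_nonneg (nk_nonneg k) _) (sq_nonneg ‖y j k‖)
    exact h1.trans (hEb j hj)
  have hv : ∀ j ≤ N, IsV (Lk a (y j) + Mu ν m a) ∧ SW 2 (Lk a (y j) + Mu ν m a) ∧
      W 2 (Lk a (y j) + Mu ν m a) ≤ Q := by
    intro j hj
    have h1 := hW4 j hj
    have h3 := SW.mono h1.1 (hbase j).1.zero (show 3 ≤ 4 by norm_num)
    have h2' := SW.mono h1.1 (hbase j).1.zero (show 2 ≤ 4 by norm_num)
    have h4 := Lk_SW (m := 2) ha (hbase j).1 (hr 3) h3.1
    have h5 := SW.add h4.1 hMu2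
    refine ⟨(Lk_isV ha (hbase j).1 (hr 2) h2'.1).1.add hMuV.1, h5.1, ?_⟩
    have h6 : W 3 (y j) ≤ C4 * B := h3.2.trans h1.2
    have h7 : 2 ^ (2 + 1) * W (2 + 1) a * W (2 + 1) (y j) ≤ 8 * W 3 a * (C4 * B) := by
      norm_num
      exact mul_le_mul_of_nonneg_left h6 (by positivity)
    rw [hQ]
    linarith [h5.2, h4.2]
  refine ⟨y, hy0, ?_, ?_⟩
  · intro j hj
    exact ⟨(hbase j).1, (hW4 j hj).1, (hW4 j hj).2.trans (le_max_left _ _)⟩
  · intro j hj
    obtain ⟨v1, v2, v3⟩ := hv j hj.le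
    constructor
    · have e1 : y (j + 1) - y j + κ • (Lk a (y j) + Mu ν m a) =
          κ • ((Lk a (y j) + Mu ν m a) - tr (bx d R') (Lk a (y j) + Mu ν m a)) := by
        rw [hys, smul_sub]
        abel
      rw [e1, n1_smul, abs_of_pos hκ0]
      apply mul_le_mul_of_nonneg_left _ hκ0.le
      refine (tr_compl_le v1 v2 (by linarith)).trans (le_trans ?_ hR'Q)
      exact mul_le_mul_of_nonneg_left v3 (by positivity)
    · have e1 : y (j + 1) - y j = (-κ) • tr (bx d R') (Lk a (y j) + Mu ν m a) := by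
        rw [hys, neg_smul]
        abel
      have h8 := SW.tr v2 (bx d R')
      rw [e1, (SW.smul h8.1 (-κ)).2, abs_neg, abs_of_pos hκ0, mul_comm]
      apply mul_le_mul_of_nonneg_right _ hκ0.le
      exact (h8.2.trans v3).trans (le_max_right _ _)

end NSC
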