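import Pool.Agent.Work.MP_57e339_an.Eff
import Pool.Agent.Work.MP_57e339_an.YLem

/-! Module FwBw: transport forward, jump, transport backward. -/

open MeasureTheory Set Filter Topology
open scoped BigOperators
noncomputable section
namespace NSC
variable {d n : ℕ}

/-- the algebra of one backward step -/
theorem fwbw_step {ν : ℝ} (m : Fin d → ℝ) {abar y₀ y₁ c₀ c₁ σ : Sq d} (ha : IsV abar)
    (hr : Rap abar) (hy₀ : IsV y₀) (hy₁ : IsV y₁) (hy₀4 : SW 4 y₀) (hy₁4 : SW 4 y₁)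
    (hc₀ : IsV c₀) (hc₁ : IsV c₁) (hc₀4 : SW 4 c₀) (hσ : IsV σ)
    {κ s ρ' ρ₁ S Yk : ℝ} (hκ : 0 ≤ κ) (hs : |s| ≤ S) (hS : 0 ≤ S)
    (h1 : n1 (y₁ - y₀ + κ • (Lk abar y₀ + Mu ν m abar)) ≤ κ * ρ')
    (h2 : W 2 (y₁ - y₀) ≤ Yk)
    (h3 : n1 (c₁ - c₀ - κ • (Lk abar c₀ + σ)) ≤ κ * ρ₁) :
    n1 ((y₀ + s • c₁) - (y₁ + s • c₀) + κ • (Lk ((-1 : ℝ) • abar) (y₁ + s • c₀) +
      Mu ν m ((-1 : ℝ) • abar)) - κ • (s • σ)) ≤
      κ * (ρ' + 4 * W 2 abar * Yk + S * ρ₁) := by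
  have hy₀2 := (hy₀4.mono hy₀.zero (show 2 ≤ 4 by norm_num)).1
  have hy₁2 := (hy₁4.mono hy₁.zero (show 2 ≤ 4 by norm_num)).1
  have hc₀2 := (hc₀4.mono hc₀.zero (show 2 ≤ 4 by norm_num)).1
  have hM := (Mu_isV ν m ha (hr 3)).1
  have hL0 := (Lk_isV ha hy₀ (hr 2) hy₀2).1
  have hLc := (Lk_isV ha hc₀ (hr 2) hc₀2).1
  have hLd := Lk_isV ha (hy₁.sub hy₀) (hr 2) (hy₁2.sub hy₀2).1
  have e1 : (y₀ + s • c₁) - (y₁ + s • c₀) + κ • (Lk ((-1 : ℝ) • abar) (y₁ + s • c₀) +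
      Mu ν m ((-1 : ℝ) • abar)) - κ • (s • σ) =
      (-(y₁ - y₀ + κ • (Lk abar y₀ + Mu ν m abar)) + (-κ) • Lk abar (y₁ - y₀)) +
        s • (c₁ - c₀ - κ • (Lk abar c₀ + σ)) := by
    rw [Lk_smul_left, Mu_smul, Lk_add_right ha hy₁ (hc₀.smul s), Lk_smul_right,
      Lk_sub_right ha hy₁ hy₀]
    module
  have hI1 : IsV (y₁ - y₀ + κ • (Lk abar y₀ + Mu ν m abar)) :=
    (hy₁.sub hy₀).add ((hL0.add hM).smul κ)
  have hI3 : IsV (c₁ - c₀ - κ • (Lk abar c₀ + σ)) := (hc₁.sub hc₀).sub ((hLc.add hσ).smul κ)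
  rw [e1]
  have h4 := n1_add_le (hI1.neg.add (hLd.1.smul (-κ))) (hI3.smul s)
  have h5 := n1_add_le hI1.neg (hLd.1.smul (-κ))
  rw [n1_neg, n1_smul, abs_neg, abs_of_nonneg hκ] at h5
  rw [n1_smul] at h4
  have h6 : |s| * n1 (c₁ - c₀ - κ • (Lk abar c₀ + σ)) ≤ S * (κ * ρ₁) :=
    mul_le_mul hs h3 (n1_nonneg _) hS
  have h7 : 4 * W 2 abar * W 2 (y₁ - y₀) ≤ 4 * W 2 abar * Yk :=
    mul_le_mul_of_nonneg_left h2 (mul_nonneg (by norm_num) (W_nonneg _ _))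
  have h8 := mul_le_mul_of_nonneg_left (hLd.2.trans h7) hκ
  nlinarith

theorem fwbw (hd : d = 2 ∨ d = 3) {ν : ℝ} (hν : 0 < ν) (m : Fin d → ℝ) {e : Fin n → Sq d}
    (he : ∀ i, IsV (e i) ∧ SW 4 (e i)) {abar : Sq d} (hg : Good (DD ν m e) abar) :
    ∃ θ₀ : ℝ, 0 < θ₀ ∧ ∃ A : ℝ, 0 ≤ A ∧ ∀ τ : ℝ, 0 < τ → ∀ (v : Sq d), IsV v → ∀ (ρ₁ ρ₂ S : ℝ), 0 ≤ ρ₁ → 0 ≤ ρ₂ → 0 ≤ S →
      (∃ Y : ℝ, ∀ M₀ : ℕ, ∃ M ≥ M₀, 0 < M ∧ ∃ c σ : ℕ → Sq d, c 0 ∈ DD ν m e ∧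
        (∀ j ≤ M, IsV (c j) ∧ SW 4 (c j) ∧ W 4 (c j) ≤ Y) ∧
        (∀ j < M, σ j ∈ DD ν m e ∧
          n1 (c (j + 1) - c j - (τ / M) • (Lk abar (c j) + σ j)) ≤ τ / M * ρ₁) ∧
        n1 (c M - v) ≤ ρ₂) →
      Real.exp (A * τ) * (S * τ * ρ₁) < θ₀ →
      ∀ (Θ : Type) [TopologicalSpace Θ] [CompactSpace Θ] (x : Θ → Sq d), VCont x →
      ∀ (s : Θ → ℝ), Continuous s → (∀ θ, |s θ| ≤ S) → ∀ δ > 0, ∀ ε > 0,
      ∃ x' : Θ → Sq d, VCont x' ∧ Inst ν m e δ x x' ∧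
        ∀ θ, n1 (x' θ - (x θ + s θ • v)) ≤ Real.exp (A * τ) * (S * τ * ρ₁) + S * ρ₂ + ε := by
  obtain ⟨θ₀, hθ₀, heff⟩ := eff hd hν m
  obtain ⟨N, a, α, ha, hα, hbar, hB⟩ := hg
  have haV : ∀ j, IsV (a j) := fun j => (ha j).1.1
  have hbarV : IsV abar := by
    rw [hbar]; exact IsV.sum _ _ fun j _ => (haV j).smul _
  have hbarR : Rap abar := by
    intro l
    rw [hbar]
    exact (SW.sum _ _ fun j _ => ((ha j).2.1 l).smul (α j) |>.1).1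
  have hA0 : 0 ≤ ∑ j, α j * W 2 (a j) :=
    Finset.sum_nonneg fun j _ => mul_nonneg (ha j).2.2.le (W_nonneg _ _)
  refine ⟨θ₀, hθ₀, 3 * (∑ j, α j * W 2 (a j) + 1), by positivity, ?_⟩
  intro τ hτ v hv ρ₁ ρ₂ S hρ₁ hρ₂ hS ⟨Yc, hYc⟩ hlt Θ _ _ x hx s hs hsS δ hδ ε hε
  set A : ℝ := 3 * (∑ j, α j * W 2 (a j) + 1) with hAdef
  have hA : 0 ≤ A := by positivity
  set X : ℝ := Real.exp (A * τ) with hX
  have hX1 : 1 ≤ X := Real.one_le_exp (by positivity)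
  have hX3 : Real.exp (3 * τ * (∑ j, α j * W 2 (a j) + 1)) = X := by
    rw [hX, hAdef]; congr 1; ring
  -- the small quantity `q`
  obtain ⟨q, hq, hq1, hq2⟩ : ∃ q > 0, (X * (3 * X + 3) + 1 + 3 * X) * q <
      θ₀ - X * (S * τ * ρ₁) ∧ (X * (3 * X + 3) + 1 + 3 * X) * q < ε := by
    have hD : 0 < X * (3 * X + 3) + 1 + 3 * X := by positivity
    have hη : 0 < min (θ₀ - X * (S * τ * ρ₁)) ε := lt_min (by linarith) hε
    refine ⟨min (θ₀ - X * (S * τ * ρ₁)) ε / (2 * (X * (3 * X + 3) + 1 + 3 * X)),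
      by positivity, ?_, ?_⟩
    · have h1 := min_le_left (θ₀ - X * (S * τ * ρ₁)) ε
      have h2 : (X * (3 * X + 3) + 1 + 3 * X) * (min (θ₀ - X * (S * τ * ρ₁)) ε /
        (2 * (X * (3 * X + 3) + 1 + 3 * X))) = min (θ₀ - X * (S * τ * ρ₁)) ε / 2 := by
        field_simp
      rw [h2]; linarith
    · have h1 := min_le_right (θ₀ - X * (S * τ * ρ₁)) ε
      have h2 : (X * (3 * X + 3) + 1 + 3 * X) * (min (θ₀ - X * (S * τ * ρ₁)) ε /
        (2 * (X * (3 * X + 3) + 1 + 3 * X))) = min (θ₀ - X * (S * τ * ρ₁)) ε / 2 := by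
        field_simp
      rw [h2]; linarith
  obtain ⟨R, hR⟩ := tr_close_unif hx hq
  obtain ⟨Mx, hMx, hMx'⟩ := hx.bdd
  have hqτ : 0 < q / τ := div_pos hq hτ
  obtain ⟨Yy, N₀, hy⟩ := y_lemma hd ν m hbarV hbarR hτ R Mx hqτ
  set Y₁ : ℝ := max Yy 0 with hY₁
  set Yc' : ℝ := max Yc 0 with hYc'
  have hY₁0 : 0 ≤ Y₁ := le_max_right _ _
  have hYc0 : 0 ≤ Yc' := le_max_right _ _
  set Yb : ℝ := Y₁ + S * Yc' with hYb
  have hYb0 : 0 ≤ Yb := by positivity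
  obtain ⟨C₁, hC₁, hf⟩ := heff n e he N a α ha hα hB τ Yb hτ hYb0
  -- the backward family
  have ha' : ∀ j, (-1 : ℝ) • a j ∈ DD ν m e ∧ Rap ((-1 : ℝ) • a j) ∧ 0 < α j := fun j =>
    ⟨DD_smul (ha j).1 _, fun l => (((ha j).2.1 l).smul (-1)).1, (ha j).2.2⟩
  have hB' : (∑ j, α j • Bk ((-1 : ℝ) • a j) ((-1 : ℝ) • a j)) ∈ DD ν m e := by
    have h1 : ∀ j, Bk ((-1 : ℝ) • a j) ((-1 : ℝ) • a j) = Bk (a j) (a j) := by
      intro j
      rw [bk_smul_left, bk_smul_right, smul_smul]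
      norm_num
    simp_rw [h1]
    exact hB
  obtain ⟨C₂, hC₂, hb⟩ := heff n e he N (fun j => (-1 : ℝ) • a j) α ha' hα hB' τ Yb hτ hYb0
  have hW' : ∀ j, W 2 ((-1 : ℝ) • a j) = W 2 (a j) := by
    intro j
    rw [(((ha j).2.1 2).smul (-1)).2]
    norm_num
  have hbar' : ∑ j, α j • ((-1 : ℝ) • a j) = (-1 : ℝ) • abar := by
    rw [hbar, Finset.smul_sum]
    exact Finset.sum_congr rfl fun j _ => smul_comm _ _ _
  -- the large parameter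
  obtain ⟨lam, hlam0, hlam1, hlam2, hlam3⟩ : ∃ lam : ℝ, 0 < lam ∧ Yb + 1 ≤ lam ∧
      (C₁ + C₂) / lam ≤ q / 2 ∧ τ / lam < δ / 3 := by
    refine ⟨Yb + 1 + 2 * (C₁ + C₂) / q + 4 * τ / δ, by positivity, ?_, ?_, ?_⟩
    · have h1 : 0 ≤ 2 * (C₁ + C₂) / q := by positivity
      have h2 : 0 ≤ 4 * τ / δ := by positivity
      linarith
    · rw [div_le_iff₀ (by positivity)]
      have h1 : q / 2 * (2 * (C₁ + C₂) / q) = C₁ + C₂ := by field_simp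
      have h2 : 0 ≤ 4 * τ / δ := by positivity
      have h3 : 0 ≤ q / 2 * (Yb + 1 + 4 * τ / δ) := by positivity
      nlinarith
    · rw [div_lt_iff₀ (by positivity)]
      have h1 : δ / 3 * (4 * τ / δ) = 4 / 3 * τ := by field_simp
      have h2 : 0 ≤ 2 * (C₁ + C₂) / q := by positivity
      have h3 : 0 ≤ δ / 3 * (Yb + 1 + 2 * (C₁ + C₂) / q) := by positivity
      nlinarith
  obtain ⟨M, hM, hM0, c, σ, hc0, hcj, hσj, hcM⟩ := hYc (N₀ + ⌈2 * (C₁ + C₂) * lam / q⌉₊ +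
    ⌈4 * W 2 abar * Y₁ * τ ^ 2 / q⌉₊)
  have hMr : (0 : ℝ) < M := by exact_mod_cast hM0
  have hMN : N₀ ≤ M := by omega
  have hM1 : (C₁ + C₂) * (lam / M) ≤ q / 2 := by
    have h1 : 2 * (C₁ + C₂) * lam / q ≤ M :=
      (Nat.le_ceil _).trans (by exact_mod_cast (by omega))
    rw [div_le_iff₀ hq] at h1
    rw [mul_div_assoc', div_le_iff₀ hMr]
    linarith
  have hM2 : τ * (4 * W 2 abar * (Y₁ * (τ / M))) ≤ q := by
    have h1 : 4 * W 2 abar * Y₁ * τ ^ 2 / q ≤ M :=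
      (Nat.le_ceil _).trans (by exact_mod_cast (by omega))
    rw [div_le_iff₀ hq] at h1
    have h2 : τ * (4 * W 2 abar * (Y₁ * (τ / M))) = 4 * W 2 abar * Y₁ * τ ^ 2 / M := by
      field_simp
    rw [h2, div_le_iff₀ hMr]
    linarith
  have hκ : 0 ≤ τ / M := by positivity
  have hCs : C₁ * (1 / lam + lam / M) ≤ q ∧ C₂ * (1 / lam + lam / M) ≤ q := by
    have h1 : 0 ≤ 1 / lam + lam / M := by positivity
    have h2 : (C₁ + C₂) * (1 / lam + lam / M) ≤ q := by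
      rw [mul_add, mul_one_div]
      linarith
    constructor
    · refine le_trans (mul_le_mul_of_nonneg_right ?_ h1) h2
      linarith
    · refine le_trans (mul_le_mul_of_nonneg_right ?_ h1) h2
      linarith
  -- the forward transport
  choose y hy0 hyj hyk using fun θ => hy M hMN hM0 (x θ) (hx.V θ) (hMx' θ)
  have hYyb : Yy ≤ Yb := (le_max_left _ _).trans (le_add_of_nonneg_right (by positivity))
  set Q₁ : ℝ := Real.exp (3 * τ * (∑ j, α j * W 2 (a j) + 1)) *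
    (q + τ * (q / τ) + C₁ * (1 / lam + lam / M)) with hQ₁
  have hQ₁le : Q₁ ≤ 3 * X * q := by
    rw [hQ₁, hX3]
    have h1 : τ * (q / τ) = q := by field_simp
    have h2 : q + τ * (q / τ) + C₁ * (1 / lam + lam / M) ≤ 3 * q := by
      rw [h1]; linarith [hCs.1]
    nlinarith
  have hQ₁0 : 0 ≤ Q₁ := by positivity
  have hQ₁lt : Q₁ < θ₀ := by
    have h1 : 0 ≤ X * (S * τ * ρ₁) := by positivity
    have h2 : 0 ≤ (X * (3 * X + 3) + 1) * q := by positivity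
    nlinarith
  obtain ⟨x₁, hx₁, hx₁i, hx₁n⟩ := hf lam hlam1 M hM0 Θ x hx s hs (fun j θ => y θ j)
    (fun _ => 0) (q / τ) q (by positivity) hq.le
    (fun j hj θ => ⟨(hyj θ j hj).1, (hyj θ j hj).2.1, (hyj θ j hj).2.2.trans hYyb⟩)
    (fun j _ => DD_zero hd hν he)
    (fun j hj θ => by
      rw [smul_zero, smul_zero, sub_zero, ← hbar]
      exact (hyk θ j hj).1)
    (fun θ => by
      show n1 (x θ - y θ 0) ≤ q
      rw [hy0 θ]
      exact (hR θ).le)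
    Q₁ hQ₁ hQ₁lt
  -- the jump
  have hx₂ : VCont fun θ => x₁ θ + s θ • c 0 := hx₁.add_smul hs hc0.1
  -- the backward transport
  set ρb : ℝ := q / τ + 4 * W 2 abar * (Y₁ * (τ / M)) + S * ρ₁ with hρb
  have hW2 := W_nonneg 2 abar
  have hρb0 : 0 ≤ ρb := by positivity
  set Q₂ : ℝ := Real.exp (3 * τ * (∑ j, α j * W 2 ((-1 : ℝ) • a j) + 1)) *
    (Q₁ + τ * ρb + C₂ * (1 / lam + lam / M)) with hQ₂
  have hQ₂le : Q₂ ≤ X * (S * τ * ρ₁) + X * (3 * X + 3) * q := by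
    rw [hQ₂]
    simp_rw [hW']
    rw [hX3]
    have h1 : τ * ρb = q + τ * (4 * W 2 abar * (Y₁ * (τ / M))) + S * τ * ρ₁ := by
      rw [hρb]; field_simp
    have h2 : Q₁ + τ * ρb + C₂ * (1 / lam + lam / M) ≤ 3 * X * q + 3 * q + S * τ * ρ₁ := by
      rw [h1]; linarith [hCs.2]
    have h3 := mul_le_mul_of_nonneg_left h2 (by positivity : (0 : ℝ) ≤ X)
    linarith
  have hQ₂lt : Q₂ < θ₀ := by
    have h2 : 0 ≤ (1 + 3 * X) * q := by positivity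
    nlinarith
  obtain ⟨x₃, hx₃, hx₃i, hx₃n⟩ := hb lam hlam1 M hM0 Θ _ hx₂ s hs
    (fun j θ => y θ (M - j) + s θ • c j) σ ρb Q₁ hρb0 hQ₁0
    (fun j hj θ => by
      obtain ⟨g1, g2, g3⟩ := hyj θ (M - j) (by omega)
      obtain ⟨g4, g5, g6⟩ := hcj j hj
      have g7 := (g5.smul (s θ))
      refine ⟨g1.add (g4.smul _), (g2.add g7.1).1, (g2.add g7.1).2.trans ?_⟩
      rw [g7.2, hYb]
      refine add_le_add (g3.trans (le_max_left _ _)) ?_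
      exact mul_le_mul (hsS θ) (g6.trans (le_max_left _ _)) (W_nonneg _ _) hS)
    (fun j hj => (hσj j hj).1)
    (fun j hj θ => by
      rw [hbar']
      have hj1 : M - (j + 1) + 1 = M - j := by omega
      have k1 := hyk θ (M - (j + 1)) (by omega)
      rw [hj1] at k1
      have k2 := hyj θ (M - (j + 1)) (by omega)
      have k3 := hyj θ (M - j) (by omega)
      have k4 := hcj j (by omega)
      have k5 := hcj (j + 1) (by omega)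
      have k6 := fwbw_step (ν := ν) m hbarV hbarR k2.1 k3.1 k2.2.1 k3.2.1 k4.1 k5.1 k4.2.1
        (hσj j hj).1.1 hκ (hsS θ) hS k1.1 (k1.2.trans (mul_le_mul_of_nonneg_right
          (le_max_left Yy 0) hκ)) (hσj j hj).2
      exact k6)
    (fun θ => by
      show n1 (x₁ θ + s θ • c 0 - (y θ (M - 0) + s θ • c 0)) ≤ Q₁
      rw [add_sub_add_right_eq_sub]
      exact hx₁n θ)
    Q₂ hQ₂ hQ₂lt
  refine ⟨x₃, hx₃, ?_, fun θ => ?_⟩
  · have i1 := hx₁i (δ / 3) hlam3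
    have i2 := hc0.2 Θ x₁ hx₁ s hs (δ / 3) (by positivity)
    have i3 := hx₃i (δ / 3) hlam3
    refine ((i1.trans i2).trans i3).mono (le_of_eq ?_)
    ring
  · have h1 : n1 (x₃ θ - (y θ (M - M) + s θ • c M)) ≤ Q₂ := hx₃n θ
    rw [Nat.sub_self, hy0 θ] at h1
    have hI1 : IsV (tr (bx d R) (x θ)) := (tr_isV (hx.V θ) fun k hk => bx_neg hk).1
    have hI2 : IsV (c M) := (hcj M (le_refl _)).1
    have h2 := n1_tri (hx₃.V θ) (hI1.add (hI2.smul (s θ))) ((hx.V θ).add (hv.smul (s θ)))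
    have h3 : n1 (tr (bx d R) (x θ) + s θ • c M - (x θ + s θ • v)) ≤ q + S * ρ₂ := by
      have e1 : tr (bx d R) (x θ) + s θ • c M - (x θ + s θ • v) =
          (tr (bx d R) (x θ) - x θ) + s θ • (c M - v) := by module
      rw [e1]
      refine (n1_add_le (hI1.sub (hx.V θ)) ((hI2.sub hv).smul _)).trans (add_le_add ?_ ?_)
      · rw [n1_sub_comm]; exact (hR θ).le
      · rw [n1_smul]
        exact mul_le_mul (hsS θ) hcM (n1_nonneg _) hS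
    have h4 : 0 ≤ 3 * X * q := by positivity
    nlinarith

end NSC
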