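import Pool.Agent.Work.MP_57e339_an.Galk
import Pool.Agent.Work.MP_57e339_an.Cpt

/-! Module Gal: existence and stability near a reference curve. -/

open MeasureTheory Set Filter Topology
open scoped BigOperators
noncomputable section
namespace NSC
variable {d : ℕ}

/-- continuity of the right hand side of the perturbation equation -/
theorem gal_cont {ν : ℝ} {m : Fin d → ℝ} {T M B : ℝ} {U z r : ℝ → Sq d}
    (hU : ∀ t ∈ Icc (0 : ℝ) T, IsV (U t) ∧ n1 (U t) ≤ M)
    (hUc : ∀ k, ContinuousOn (fun t => U t k) (Icc (0 : ℝ) T))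
    (hz : ∀ t ∈ Icc (0 : ℝ) T, IsV (z t) ∧ n1 (z t) ≤ B)
    (hzc : ∀ k, ContinuousOn (fun t => z t k) (Icc (0 : ℝ) T))
    (hrc : ∀ k, ContinuousOn (fun t => r t k) (Icc (0 : ℝ) T)) (k : K d) :
    ContinuousOn (fun s => -(mu ν m k • z s k) - Lk (U s) (z s) k - Bk (z s) (z s) k - r s k)
      (Icc (0 : ℝ) T) := by
  have hU' : ∀ t ∈ Icc (0 : ℝ) T, IsV (U t) ∧ n1 (U t) ≤ max M B := fun t ht =>
    ⟨(hU t ht).1, (hU t ht).2.trans (le_max_left _ _)⟩
  have hz' : ∀ t ∈ Icc (0 : ℝ) T, IsV (z t) ∧ n1 (z t) ≤ max M B := fun t ht =>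
    ⟨(hz t ht).1, (hz t ht).2.trans (le_max_right _ _)⟩
  have h1 := bk_continuousOn hU' hz' hUc hzc k
  have h2 := bk_continuousOn hz' hU' hzc hUc k
  have h3 := bk_continuousOn hz' hz' hzc hzc k
  have h4 : ContinuousOn (fun s => Lk (U s) (z s) k) (Icc (0 : ℝ) T) := h1.add h2
  exact ((((hzc k).const_smul (mu ν m k)).neg.sub h4).sub h3).sub (hrc k)

/-- bound of the right hand side of the perturbation equation -/
theorem gal_bound {ν : ℝ} {m : Fin d → ℝ} {M B ρ : ℝ} {U z r : Sq d}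
    (hU : IsV U ∧ n1 U ≤ M) (hz : IsV z ∧ n1 z ≤ B) (hr : IsV r ∧ n1 r ≤ ρ) (k : K d) :
    ‖-(mu ν m k • z k) - Lk U z k - Bk z z k - r k‖ ≤
      ‖mu ν m k‖ * B + nk k * (2 * M * B + B ^ 2) + ρ := by
  have hk := nk_nonneg k
  have h0 : 0 ≤ n1 z := n1_nonneg z
  have h0' : 0 ≤ n1 U := n1_nonneg U
  have hB : 0 ≤ B := h0.trans hz.2
  have hM : 0 ≤ M := h0'.trans hU.2
  have h1 : ‖mu ν m k • z k‖ ≤ ‖mu ν m k‖ * B := by
    rw [norm_smul]
    exact mul_le_mul_of_nonneg_left ((norm_coef_le hz.1 k).trans hz.2) (norm_nonneg _)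
  have e1 : ‖Bk U z k‖ ≤ nk k * (M * B) := by
    refine (norm_bk_le hU.1 hz.1 k).trans ?_
    rw [mul_assoc]
    exact mul_le_mul_of_nonneg_left (mul_le_mul hU.2 hz.2 h0 hM) hk
  have e2 : ‖Bk z U k‖ ≤ nk k * (M * B) := by
    refine (norm_bk_le hz.1 hU.1 k).trans ?_
    rw [mul_assoc, mul_comm (n1 z)]
    exact mul_le_mul_of_nonneg_left (mul_le_mul hU.2 hz.2 h0 hM) hk
  have e3 : ‖Bk z z k‖ ≤ nk k * (B * B) := by
    refine (norm_bk_le hz.1 hz.1 k).trans ?_
    rw [mul_assoc]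
    exact mul_le_mul_of_nonneg_left (mul_le_mul hz.2 hz.2 h0 hB) hk
  have e4 : ‖Lk U z k‖ ≤ nk k * (M * B) + nk k * (M * B) := by
    have : Lk U z k = Bk U z k + Bk z U k := rfl
    rw [this]
    exact (norm_add_le _ _).trans (add_le_add e1 e2)
  have e5 : ‖r k‖ ≤ ρ := (norm_coef_le hr.1 k).trans hr.2
  calc ‖-(mu ν m k • z k) - Lk U z k - Bk z z k - r k‖
      ≤ ‖-(mu ν m k • z k) - Lk U z k - Bk z z k‖ + ‖r k‖ := norm_sub_le _ _
    _ ≤ ‖-(mu ν m k • z k) - Lk U z k‖ + ‖Bk z z k‖ + ‖r k‖ := by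
        gcongr; exact norm_sub_le _ _
    _ ≤ ‖-(mu ν m k • z k)‖ + ‖Lk U z k‖ + ‖Bk z z k‖ + ‖r k‖ := by
        gcongr; exact norm_sub_le _ _
    _ ≤ ‖mu ν m k‖ * B + (nk k * (M * B) + nk k * (M * B)) + nk k * (B * B) + ρ := by
        rw [norm_neg]
        gcongr
    _ = _ := by ring

theorem gal_icc_uIcc {T t : ℝ} (ht : t ∈ Icc (0 : ℝ) T) : uIcc (0 : ℝ) t ⊆ Icc 0 T := by
  rw [uIcc_of_le ht.1]
  exact Icc_subset_Icc_right ht.2

theorem gal (hd : d = 2 ∨ d = 3) {ν : ℝ} (hν : 0 < ν) (m : Fin d → ℝ) :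
    ∃ θ₀ > 0, ∀ (T g ρ M : ℝ), 0 ≤ T → 0 ≤ g → 0 ≤ ρ → ∀ (f : Sq d), IsV f →
      ∀ (U r : ℝ → Sq d),
      (∀ t ∈ Icc (0 : ℝ) T, IsV (U t) ∧ n1 (U t) ≤ M) →
      (∀ k, ContinuousOn (fun t => U t k) (Icc (0 : ℝ) T)) →
      (∀ t ∈ Icc (0 : ℝ) T, IsV (r t) ∧ n1 (r t) ≤ ρ) →
      (∀ k, ContinuousOn (fun t => r t k) (Icc (0 : ℝ) T)) →
      (∀ k, ∀ t ∈ Icc (0 : ℝ) T, U t k = U 0 k + ∫ s in (0 : ℝ)..t,
        (f k - mu ν m k • U s k - Bk (U s) (U s) k + r s k)) →
      (∀ t ∈ Icc (0 : ℝ) T, ∀ z, IsV z → FS z →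
        |Tri (U t) z z + Tri z (U t) z| ≤ ν / 4 * n2 z ^ 2 + g * n1 z ^ 2) →
      ∀ w : Sq d, IsV w → Real.exp (g * T) * (n1 (w - U 0) + ρ * T) < θ₀ →
      ∃ u : ℝ → Sq d, Sol ν m f T u ∧ u 0 = w ∧
        ∀ t ∈ Icc (0 : ℝ) T, n1 (u t - U t) ≤ Real.exp (g * t) * (n1 (w - U 0) + ρ * t) := by
  obtain ⟨θ₀, hθ₀, H⟩ := galerkin hd hν m
  refine ⟨θ₀, hθ₀, ?_⟩
  intro T g ρ M hT hg hρ f hf U r hU hUc hr hrc hUeq htri w hw hsm
  have h0T : (0 : ℝ) ∈ Icc (0 : ℝ) T := ⟨le_refl _, hT⟩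
  have hz0 : IsV (w - U 0) := hw.sub (hU 0 h0T).1
  choose z hz00 hzV hzc hzeq hzn using
    fun N : ℕ => H T g ρ M hT hg hρ U r hU hUc hr hrc htri N (w - U 0) hz0 hsm
  set B : ℝ := Real.exp (g * T) * (n1 (w - U 0) + ρ * T) with hBdef
  have hn0 : 0 ≤ n1 (w - U 0) := n1_nonneg _
  have hmono : ∀ t ∈ Icc (0 : ℝ) T, Real.exp (g * t) * (n1 (w - U 0) + ρ * t) ≤ B := by
    intro t ht
    have h1 : g * t ≤ g * T := mul_le_mul_of_nonneg_left ht.2 hg
    have h2 : ρ * t ≤ ρ * T := mul_le_mul_of_nonneg_left ht.2 hρ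
    have h3 : 0 ≤ ρ * t := mul_nonneg hρ ht.1
    have h4 := Real.exp_le_exp.2 h1
    have h5 := (Real.exp_pos (g * T)).le
    exact mul_le_mul h4 (by linarith) (by linarith) h5
  have hzB : ∀ N : ℕ, ∀ t ∈ Icc (0 : ℝ) T, IsV (z N t) ∧ n1 (z N t) ≤ B := fun N t ht =>
    ⟨(hzV N t ht).1, (hzn N t ht).trans (hmono t ht)⟩
  have hM : 0 ≤ M := (n1_nonneg _).trans (hU 0 h0T).2
  have hB : 0 ≤ B := (n1_nonneg _).trans (hzB 0 0 h0T).2
  set L : K d → ℝ := fun k => ‖mu ν m k‖ * B + nk k * (2 * M * B + B ^ 2) + ρ with hLdef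
  have hL0 : ∀ k, 0 ≤ L k := fun k => by
    have := nk_nonneg k
    have := norm_nonneg (mu ν m k)
    positivity
  -- Lipschitz bounds of the approximations
  have hLip : ∀ (N : ℕ) (k : K d), ∀ s ∈ Icc (0 : ℝ) T, ∀ t ∈ Icc (0 : ℝ) T,
      ‖z N t k - z N s k‖ ≤ L k * |t - s| := by
    intro N k s hs t ht
    by_cases hk : k ∈ bx d (N : ℝ)
    · have hc := gal_cont (ν := ν) (m := m) hU hUc (hzB N) (hzc N) hrc k
      have hi : ∀ a ∈ Icc (0 : ℝ) T, IntervalIntegrable (fun s => -(mu ν m k • z N s k) -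
          Lk (U s) (z N s) k - Bk (z N s) (z N s) k - r s k) volume 0 a := fun a ha =>
        (hc.mono (gal_icc_uIcc ha)).intervalIntegrable
      rw [hzeq N k hk t ht, hzeq N k hk s hs, add_sub_add_left_eq_sub,
        intervalIntegral.integral_interval_sub_left (hi t ht) (hi s hs)]
      apply intervalIntegral.norm_integral_le_of_norm_le_const
      intro a ha
      have haT : a ∈ Icc (0 : ℝ) T := by
        rcases le_total s t with h | h
        · rw [uIoc_of_le h] at ha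
          exact ⟨hs.1.trans ha.1.le, ha.2.trans ht.2⟩
        · rw [uIoc_of_ge h] at ha
          exact ⟨ht.1.trans ha.1.le, ha.2.trans hs.2⟩
      exact gal_bound (hU a haT) (hzB N a haT) (hr a haT) k
    · rw [(hzV N t ht).2 k hk, (hzV N s hs).2 k hk, sub_zero, norm_zero]
      exact mul_nonneg (hL0 k) (abs_nonneg _)
  have hbd : ∀ (N : ℕ) (k : K d), ∀ t ∈ Icc (0 : ℝ) T, ‖z N t k‖ ≤ (fun _ : K d => B) k :=
    fun N k t ht => (norm_coef_le (hzB N t ht).1 k).trans (hzB N t ht).2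
  obtain ⟨φ, hφ, Z, hZ⟩ := extract (ι := K d) (E := Cv d) T (fun N k t => z N t k)
    (fun _ => B) L hbd hLip
  -- the limit
  set Y : ℝ → Sq d := fun t k => Z k t with hYdef
  have hYlim : ∀ t ∈ Icc (0 : ℝ) T, ∀ k, Tendsto (fun n => z (φ n) t k) atTop (𝓝 (Y t k)) :=
    fun t ht k => hZ k t ht
  have hYV : ∀ t ∈ Icc (0 : ℝ) T, IsV (Y t) ∧
      n1 (Y t) ≤ Real.exp (g * t) * (n1 (w - U 0) + ρ * t) := by
    intro t ht
    apply isV_of_tendsto (l := atTop) (v := fun n => z (φ n) t)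
    · exact mul_nonneg (Real.exp_pos _).le (add_nonneg hn0 (mul_nonneg hρ ht.1))
    · exact Eventually.of_forall fun n => ⟨(hzV _ t ht).1, hzn _ t ht⟩
    · exact hYlim t ht
  have hYB : ∀ t ∈ Icc (0 : ℝ) T, IsV (Y t) ∧ n1 (Y t) ≤ B := fun t ht =>
    ⟨(hYV t ht).1, (hYV t ht).2.trans (hmono t ht)⟩
  have hYc : ∀ k, ContinuousOn (fun t => Y t k) (Icc (0 : ℝ) T) := by
    intro k
    have hl : ∀ s ∈ Icc (0 : ℝ) T, ∀ t ∈ Icc (0 : ℝ) T, ‖Y t k - Y s k‖ ≤ L k * |t - s| := by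
      intro s hs t ht
      have h1 := ((hYlim t ht k).sub (hYlim s hs k)).norm
      exact le_of_tendsto' h1 fun n => hLip (φ n) k s hs t ht
    have : LipschitzOnWith ⟨L k, hL0 k⟩ (fun t => Y t k) (Icc (0 : ℝ) T) := by
      apply LipschitzOnWith.of_dist_le_mul
      intro t ht s hs
      rw [dist_eq_norm, dist_eq_norm, Real.norm_eq_abs]
      exact hl s hs t ht
    exact this.continuousOn
  have hY0 : Y 0 = w - U 0 := by
    funext k
    have h1 := hYlim 0 h0T k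
    apply tendsto_nhds_unique h1
    by_cases hk : k = 0
    · subst hk
      rw [hz0.zero]
      apply tendsto_const_nhds.congr
      intro n
      exact ((hzV (φ n) 0 h0T).1.zero).symm
    · apply tendsto_const_nhds.congr'
      have h2 : ∀ᶠ n in atTop, nk k ≤ ((φ n : ℕ) : ℝ) := by
        have : Tendsto (fun n => ((φ n : ℕ) : ℝ)) atTop atTop :=
          tendsto_natCast_atTop_atTop.comp hφ.tendsto_atTop
        exact this.eventually_ge_atTop _
      filter_upwards [h2] with n hn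
      rw [hz00 (φ n), tr_apply_mem (show k ∈ bx d ((φ n : ℕ) : ℝ) from ⟨hk, hn⟩)]
  have hYeq : ∀ k, ∀ t ∈ Icc (0 : ℝ) T, Y t k = Y 0 k + ∫ s in (0 : ℝ)..t,
      (-(mu ν m k • Y s k) - Lk (U s) (Y s) k - Bk (Y s) (Y s) k - r s k) := by
    intro k t ht
    by_cases hk : k = 0
    · subst hk
      have h1 : ∀ s ∈ Icc (0 : ℝ) T, (-(mu ν m 0 • Y s 0) - Lk (U s) (Y s) 0 -
          Bk (Y s) (Y s) 0 - r s 0) = 0 := by
        intro s hs
        have e : Lk (U s) (Y s) 0 = Bk (U s) (Y s) 0 + Bk (Y s) (U s) 0 := rfl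
        rw [(hYB s hs).1.zero, e, bk_at_zero, bk_at_zero, bk_at_zero, (hr s hs).1.zero]
        simp
      rw [intervalIntegral.integral_congr (g := fun _ => (0 : Cv d))
        (fun s hs => h1 s (gal_icc_uIcc ht hs)), (hYB t ht).1.zero, (hYB 0 h0T).1.zero]
      simp
    · have h1 := hYlim t ht k
      apply tendsto_nhds_unique h1
      have h2 : ∀ᶠ n in atTop, k ∈ bx d ((φ n : ℕ) : ℝ) := by
        have : Tendsto (fun n => ((φ n : ℕ) : ℝ)) atTop atTop :=
          tendsto_natCast_atTop_atTop.comp hφ.tendsto_atTop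
        filter_upwards [this.eventually_ge_atTop (nk k)] with n hn
        exact ⟨hk, hn⟩
      have h3 : Tendsto (fun n => z (φ n) 0 k + ∫ s in (0 : ℝ)..t,
          (-(mu ν m k • z (φ n) s k) - Lk (U s) (z (φ n) s) k - Bk (z (φ n) s) (z (φ n) s) k -
            r s k)) atTop (𝓝 (Y 0 k + ∫ s in (0 : ℝ)..t,
          (-(mu ν m k • Y s k) - Lk (U s) (Y s) k - Bk (Y s) (Y s) k - r s k))) := by
        apply (hYlim 0 h0T k).add
        apply intervalIntegral.tendsto_integral_filter_of_dominated_convergence (fun _ => L k)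
        · apply Eventually.of_forall
          intro n
          have hc := gal_cont (ν := ν) (m := m) hU hUc (hzB (φ n)) (hzc (φ n)) hrc k
          have hi : IntervalIntegrable (fun s => -(mu ν m k • z (φ n) s k) -
              Lk (U s) (z (φ n) s) k - Bk (z (φ n) s) (z (φ n) s) k - r s k) volume 0 t :=
            (hc.mono (gal_icc_uIcc ht)).intervalIntegrable
          exact hi.def'.aestronglyMeasurable
        · apply Eventually.of_forall
          intro n
          apply Eventually.of_forall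
          intro a ha
          have haT : a ∈ Icc (0 : ℝ) T := gal_icc_uIcc ht (uIoc_subset_uIcc ha)
          exact gal_bound (hU a haT) (hzB (φ n) a haT) (hr a haT) k
        · exact intervalIntegrable_const
        · apply Eventually.of_forall
          intro a ha
          have haT : a ∈ Icc (0 : ℝ) T := gal_icc_uIcc ht (uIoc_subset_uIcc ha)
          have hUa : ∀ᶠ n : ℕ in atTop, IsV (U a) ∧ n1 (U a) ≤ max M B :=
            Eventually.of_forall fun _ => ⟨(hU a haT).1, (hU a haT).2.trans (le_max_left _ _)⟩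
          have hza : ∀ᶠ n : ℕ in atTop, IsV (z (φ n) a) ∧ n1 (z (φ n) a) ≤ max M B :=
            Eventually.of_forall fun n =>
              ⟨(hzB (φ n) a haT).1, (hzB (φ n) a haT).2.trans (le_max_right _ _)⟩
          have t1 := bk_tendsto (a := fun _ : ℕ => U a) (w := fun n => z (φ n) a) hUa hza
            (fun _ => tendsto_const_nhds) (hYlim a haT) k
          have t2 := bk_tendsto (a := fun n => z (φ n) a) (w := fun _ : ℕ => U a) hza hUa
            (hYlim a haT) (fun _ => tendsto_const_nhds) k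
          have t3 := bk_tendsto (a := fun n => z (φ n) a) (w := fun n => z (φ n) a) hza hza
            (hYlim a haT) (hYlim a haT) k
          have t4 : Tendsto (fun n => Lk (U a) (z (φ n) a) k) atTop (𝓝 (Lk (U a) (Y a) k)) :=
            t1.add t2
          exact ((((hYlim a haT k).const_smul (mu ν m k)).neg.sub t4).sub t3).sub
            tendsto_const_nhds
      apply h3.congr'
      filter_upwards [h2] with n hn
      exact (hzeq (φ n) k hn t ht).symm
  -- the solution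
  refine ⟨fun t => U t + Y t, ?_, ?_, ?_⟩
  · refine ⟨fun t ht => (hU t ht).1.add (hYB t ht).1, ⟨M + B, fun t ht =>
      (n1_add_le (hU t ht).1 (hYB t ht).1).trans (add_le_add (hU t ht).2 (hYB t ht).2)⟩,
      fun k => (hUc k).add (hYc k), ?_⟩
    intro k t ht
    have hUB' : ∀ t ∈ Icc (0 : ℝ) T, IsV (U t) ∧ n1 (U t) ≤ M := hU
    have c1 : ContinuousOn (fun s => f k - mu ν m k • U s k - Bk (U s) (U s) k + r s k)
        (Icc (0 : ℝ) T) :=
      ((continuousOn_const.sub ((hUc k).const_smul (mu ν m k))).sub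
        (bk_continuousOn hU hU hUc hUc k)).add (hrc k)
    have c2 := gal_cont (ν := ν) (m := m) hU hUc hYB hYc hrc k
    have i1 : IntervalIntegrable (fun s => f k - mu ν m k • U s k - Bk (U s) (U s) k + r s k)
        volume 0 t := (c1.mono (gal_icc_uIcc ht)).intervalIntegrable
    have i2 : IntervalIntegrable (fun s => -(mu ν m k • Y s k) - Lk (U s) (Y s) k -
        Bk (Y s) (Y s) k - r s k) volume 0 t := (c2.mono (gal_icc_uIcc ht)).intervalIntegrable
    have e1 : (U t + Y t) k = U t k + Y t k := rfl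
    have e2 : (U 0 + Y 0) k = U 0 k + Y 0 k := rfl
    show (U t + Y t) k = (U 0 + Y 0) k + _
    rw [e1, e2, hUeq k t ht, hYeq k t ht]
    have e3 : ∫ s in (0 : ℝ)..t, (f k - mu ν m k • (U s + Y s) k -
        Bk (U s + Y s) (U s + Y s) k) =
        ∫ s in (0 : ℝ)..t, ((f k - mu ν m k • U s k - Bk (U s) (U s) k + r s k) +
          (-(mu ν m k • Y s k) - Lk (U s) (Y s) k - Bk (Y s) (Y s) k - r s k)) := by
      apply intervalIntegral.integral_congr
      intro s hs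
      have hsT := gal_icc_uIcc ht hs
      show f k - mu ν m k • (U s + Y s) k - Bk (U s + Y s) (U s + Y s) k = _
      rw [bk_expand (hU s hsT).1 (hYB s hsT).1]
      simp only [Pi.add_apply, smul_add]
      abel
    rw [e3, intervalIntegral.integral_add i1 i2]
    abel
  · show U 0 + Y 0 = w
    rw [hY0]
    abel
  · intro t ht
    have : (fun t => U t + Y t) t - U t = Y t := by
      show U t + Y t - U t = Y t
      abel
    rw [this]
    exact (hYV t ht).2

end NSC
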