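import Pool.Agent.Work.MP_57e339_an.Gal

/-! Module GalT: as `gal`, with a time dependent mean velocity. -/

open MeasureTheory Set Filter Topology
open scoped BigOperators
noncomputable section
namespace NSC
variable {d : ℕ}

/-- Solutions with time-dependent mean velocity `m` and constant (mean zero) force `f`. -/
structure SolM (ν : ℝ) (m : ℝ → Fin d → ℝ) (f : Sq d) (T : ℝ) (u : ℝ → Sq d) : Prop where
  V : ∀ t ∈ Icc (0 : ℝ) T, IsV (u t)
  bd : ∃ M, ∀ t ∈ Icc (0 : ℝ) T, n1 (u t) ≤ M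
  ct : ∀ k, ContinuousOn (fun t => u t k) (Icc (0 : ℝ) T)
  eq : ∀ k, ∀ t ∈ Icc (0 : ℝ) T, u t k = u 0 k +
    ∫ s in (0 : ℝ)..t, (f k - mu ν (m s) k • u s k - Bk (u s) (u s) k)

theorem galT_mu_cont (ν : ℝ) (k : K d) : Continuous fun m : Fin d → ℝ => mu ν m k := by
  unfold mu
  fun_prop

theorem galT_mu_bd {ν : ℝ} {m : ℝ → Fin d → ℝ} (hm : Continuous m) (T : ℝ) :
    ∃ b : K d → ℝ, ∀ k, 0 ≤ b k ∧ ∀ t ∈ Icc (0 : ℝ) T, ‖mu ν (m t) k‖ ≤ b k := by
  have h : ∀ k : K d, ∃ c : ℝ, 0 ≤ c ∧ ∀ t ∈ Icc (0 : ℝ) T, ‖mu ν (m t) k‖ ≤ c := by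
    intro k
    obtain ⟨c, hc⟩ := isCompact_Icc.exists_bound_of_continuousOn (s := Icc (0 : ℝ) T)
      (((galT_mu_cont ν k).comp hm).continuousOn)
    exact ⟨max c 0, le_max_right _ _, fun t ht => (hc t ht).trans (le_max_left _ _)⟩
  choose b hb using h
  exact ⟨b, hb⟩

theorem galT_galerkin (hd : d = 2 ∨ d = 3) {ν : ℝ} (hν : 0 < ν) :
    ∃ θ₀ > 0, ∀ (m : ℝ → Fin d → ℝ), Continuous m →
      ∀ (T g ρ M : ℝ), 0 ≤ T → 0 ≤ g → 0 ≤ ρ → ∀ (U r : ℝ → Sq d),
      (∀ t ∈ Icc (0 : ℝ) T, IsV (U t) ∧ n1 (U t) ≤ M) →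
      (∀ k, ContinuousOn (fun t => U t k) (Icc (0 : ℝ) T)) →
      (∀ t ∈ Icc (0 : ℝ) T, IsV (r t) ∧ n1 (r t) ≤ ρ) →
      (∀ k, ContinuousOn (fun t => r t k) (Icc (0 : ℝ) T)) →
      (∀ t ∈ Icc (0 : ℝ) T, ∀ z, IsV z → FS z →
        |Tri (U t) z z + Tri z (U t) z| ≤ ν / 4 * n2 z ^ 2 + g * n1 z ^ 2) →
      ∀ (R : ℝ) (z₀ : Sq d), IsV z₀ → Real.exp (g * T) * (n1 z₀ + ρ * T) < θ₀ →
      ∃ z : ℝ → Sq d, z 0 = tr (bx d R) z₀ ∧
        (∀ t ∈ Icc (0 : ℝ) T, IsV (z t) ∧ ∀ k ∉ bx d R, z t k = 0) ∧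
        (∀ k, ContinuousOn (fun t => z t k) (Icc (0 : ℝ) T)) ∧
        (∀ k ∈ bx d R, ∀ t ∈ Icc (0 : ℝ) T, z t k = z 0 k + ∫ s in (0 : ℝ)..t,
          (-(mu ν (m s) k • z s k) - Lk (U s) (z s) k - Bk (z s) (z s) k - r s k)) ∧
        ∀ t ∈ Icc (0 : ℝ) T, n1 (z t) ≤ Real.exp (g * t) * (n1 z₀ + ρ * t) := by
  obtain ⟨C, hC, hcub⟩ := tri_cubic (d := d) hd
  refine ⟨3 * ν / (4 * C), by positivity, ?_⟩
  set θ₀ : ℝ := 3 * ν / (4 * C) with hθ₀
  have hθpos : 0 < θ₀ := by positivity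
  intro m hm T g ρ M hT hg hρ U r hU hUc hr hrc htri R z₀ hz₀ hsmall
  obtain ⟨b, hb⟩ := galT_mu_bd (ν := ν) hm T
  set Λ : Finset (K d) := (finite_bx (d := d) R).toFinset with hΛd
  have hΛ : ∀ k, k ∈ Λ ↔ k ∈ bx d R := fun k => Set.Finite.mem_toFinset _
  have h0 : (0 : K d) ∉ Λ := by
    rw [hΛ]
    intro h
    exact h.1 rfl
  -- clamping of time
  set cl : ℝ → ℝ := fun t => max 0 (min T t) with hcl
  have hcl_mem : ∀ t, cl t ∈ Icc (0 : ℝ) T := fun t =>
    ⟨le_max_left _ _, max_le hT (min_le_left _ _)⟩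
  have hcl_eq : ∀ t ∈ Icc (0 : ℝ) T, cl t = t := by
    intro t ht
    simp only [hcl]
    rw [min_eq_right ht.2, max_eq_right ht.1]
  have hM : 0 ≤ M := (n1_nonneg _).trans (hU 0 ⟨le_rfl, hT⟩).2
  -- the vector field
  obtain ⟨F, hF⟩ : ∃ F : ℝ → galk_H Λ → galk_H Λ, ∀ t x, ((F t x : galk_H Λ) : GalkX Λ) =
      galk_emb Λ (galk_G ν (m (cl t)) (U (cl t)) (r (cl t)) (galk_sq Λ (x : GalkX Λ))) :=
    ⟨fun t x => ⟨galk_emb Λ (galk_G ν (m (cl t)) (U (cl t)) (r (cl t)) (galk_sq Λ (x : GalkX Λ))),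
      galk_isV_of hΛ (galk_G_dv ν (m (cl t)) (hr _ (hcl_mem t)).1 x.2)
        (galk_G_sy ν (m (cl t)) (hU _ (hcl_mem t)).1 (hr _ (hcl_mem t)).1 x.2)⟩, fun _ _ => rfl⟩
  have hFk : ∀ (t : ℝ) (x : galk_H Λ) (k : Λ), ((F t x : galk_H Λ) : GalkX Λ) k =
      nk (k : K d) • galk_G ν (m (cl t)) (U (cl t)) (r (cl t)) (galk_sq Λ (x : GalkX Λ)) k := by
    intro t x k
    rw [hF, galk_emb_apply]
  have hnorm : ∀ x : galk_H Λ, ‖x‖ = n1 (galk_sq Λ (x : GalkX Λ)) := by
    intro x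
    rw [← galk_norm h0 x.2]
    rfl
  -- energy inequality
  have hen : ∀ t ∈ Icc (0 : ℝ) T, ∀ x ∈ Metric.closedBall (0 : galk_H Λ) θ₀,
      inner ℝ x (F t x) ≤ g * ‖x‖ ^ 2 + ρ * ‖x‖ := by
    intro t ht x hx
    rw [mem_closedBall_zero_iff, hnorm] at hx
    have hzV : IsV (galk_sq Λ (x : GalkX Λ)) := x.2
    have hzF : FS (galk_sq Λ (x : GalkX Λ)) := galk_fs _
    have hclt := hcl_eq t ht
    have e1 : inner ℝ x (F t x) = inner ℝ (x : GalkX Λ)
        (galk_emb Λ (galk_G ν (m t) (U t) (r t) (galk_sq Λ (x : GalkX Λ)))) := by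
      rw [Submodule.coe_inner, hF, hclt]
    rw [e1, galk_inner_eq h0, hnorm]
    set z : Sq d := galk_sq Λ (x : GalkX Λ) with hz
    have hz0 : ∀ k, k ∉ Λ → z k = 0 := fun k hk => galk_sq_not_mem _ hk
    have htriS : ∀ a w : Sq d, Tri a w z = ∑ k ∈ Λ, nk k ^ 2 * (inner ℂ (z k) (Bk a w k)).re := by
      intro a w
      unfold Tri
      refine tsum_eq_sum fun k hk => ?_
      rw [hz0 k hk, inner_zero_left]
      simp
    have hn2 : n2 z ^ 2 = ∑ k ∈ Λ, nk k ^ 4 * ‖z k‖ ^ 2 := by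
      have h1 : ∑' k, nk k ^ 4 * ‖z k‖ ^ 2 = ∑ k ∈ Λ, nk k ^ 4 * ‖z k‖ ^ 2 :=
        tsum_eq_sum fun k hk => by rw [hz0 k hk]; simp
      rw [n2, h1, Real.sq_sqrt]
      exact Finset.sum_nonneg fun k _ => by
        have := nk_nonneg k
        positivity
    have e2 : ∑ k ∈ Λ, nk k ^ 2 * (inner ℂ (z k) (galk_G ν (m t) (U t) (r t) z k)).re =
        -ν * n2 z ^ 2 - (Tri (U t) z z + Tri z (U t) z) - Tri z z z +
          ∑ k ∈ Λ, nk k ^ 2 * (inner ℂ (z k) (-(r t k))).re := by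
      rw [hn2, htriS, htriS, htriS, ← Finset.sum_add_distrib, Finset.mul_sum,
        ← Finset.sum_sub_distrib, ← Finset.sum_sub_distrib, ← Finset.sum_add_distrib]
      refine Finset.sum_congr rfl fun k _ => ?_
      have e3 : galk_G ν (m t) (U t) (r t) z k =
          -(mu ν (m t) k • z k) - (Bk (U t) z k + Bk z (U t) k) - Bk z z k - r t k := rfl
      have e4 : (inner ℂ (z k) (-(mu ν (m t) k • z k))).re = -(ν * nk k ^ 2) * ‖z k‖ ^ 2 := by
        rw [inner_neg_right, inner_smul_right, inner_self_eq_norm_sq_to_K]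
        have : (mu ν (m t) k * (‖z k‖ : ℂ) ^ 2).re = (mu ν (m t) k).re * ‖z k‖ ^ 2 := by
          rw [← Complex.ofReal_pow, Complex.re_mul_ofReal]
        rw [Complex.neg_re]
        have h5 : ((‖z k‖ : ℂ)) = ((RCLike.ofReal ‖z k‖ : ℂ)) := rfl
        rw [← h5, this, mu_re]
        ring
      rw [e3, inner_sub_right, inner_sub_right, inner_sub_right, inner_add_right, inner_neg_right]
      rw [inner_neg_right] at e4
      simp only [Complex.sub_re, Complex.add_re, inner_neg_right, Complex.neg_re] at e4 ⊢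
      rw [e4]
      ring
    rw [e2]
    have b1 := htri t ht z hzV hzF
    have b2 := hcub z hzV hzF
    have b3 := galk_sum_cs (Λ := Λ) hzV (hr t ht).1
    have b4 : n1 z * n1 (r t) ≤ n1 z * ρ := by
      have := (hr t ht).2
      have h6 := n1_nonneg z
      gcongr
    have b5 : C * n1 z * n2 z ^ 2 ≤ 3 * ν / 4 * n2 z ^ 2 := by
      have h7 : C * n1 z ≤ 3 * ν / 4 := by
        calc C * n1 z ≤ C * θ₀ := by gcongr
          _ = 3 * ν / 4 := by rw [hθ₀]; field_simp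
      gcongr
    have b6 := (abs_le.1 b1).1
    have b7 := (abs_le.1 b2).1
    nlinarith
  -- Lipschitz
  set L : ℝ := ∑ k : Λ, nk (k : K d) * (b k + nk (k : K d) * (2 * M + 2 * θ₀)) with hLd
  have hL0 : 0 ≤ L := by
    refine Finset.sum_nonneg fun k _ => ?_
    have h1 := nk_nonneg (k : K d)
    have h2 := (hb (k : K d)).1
    positivity
  have hLip : ∀ t ∈ Icc (0 : ℝ) T,
      LipschitzOnWith ⟨L, hL0⟩ (F t) (Metric.closedBall (0 : galk_H Λ) θ₀) := by
    intro t ht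
    apply LipschitzOnWith.of_dist_le_mul
    intro x hx y hy
    rw [mem_closedBall_zero_iff, hnorm] at hx hy
    rw [dist_eq_norm, dist_eq_norm, hnorm (x - y)]
    have hxV : IsV (galk_sq Λ (x : GalkX Λ)) := x.2
    have hyV : IsV (galk_sq Λ (y : GalkX Λ)) := y.2
    have e0 : galk_sq Λ ((x - y : galk_H Λ) : GalkX Λ) =
        galk_sq Λ (x : GalkX Λ) - galk_sq Λ (y : GalkX Λ) := by
      rw [Submodule.coe_sub, galk_sq_sub]
    rw [e0]
    set z : Sq d := galk_sq Λ (x : GalkX Λ) with hz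
    set w : Sq d := galk_sq Λ (y : GalkX Λ) with hw
    have hzwV : IsV (z - w) := hxV.sub hyV
    have hn0 := n1_nonneg (z - w)
    have hstep : ∀ k : Λ, ‖((F t x - F t y : galk_H Λ) : GalkX Λ) k‖ ≤
        nk (k : K d) * (b k + nk (k : K d) * (2 * M + 2 * θ₀)) * n1 (z - w) := by
      intro k
      have hUV := (hU t ht).1
      have e1 : ((F t x - F t y : galk_H Λ) : GalkX Λ) k =
          nk (k : K d) • (-(mu ν (m t) k • (z - w) k) - (Bk (U t) (z - w) k + Bk (z - w) (U t) k)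
            - (Bk (z - w) z k + Bk w (z - w) k)) := by
        have e2 : ((F t x - F t y : galk_H Λ) : GalkX Λ) k =
            ((F t x : galk_H Λ) : GalkX Λ) k - ((F t y : galk_H Λ) : GalkX Λ) k := rfl
        rw [e2, hFk, hFk, hcl_eq t ht, ← smul_sub]
        congr 1
        have e3 : galk_G ν (m t) (U t) (r t) z k - galk_G ν (m t) (U t) (r t) w k =
            -(mu ν (m t) k • z k - mu ν (m t) k • w k) - ((Bk (U t) z k + Bk z (U t) k)
              - (Bk (U t) w k + Bk w (U t) k)) - (Bk z z k - Bk w w k) := by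
          have e4 : ∀ z : Sq d, galk_G ν (m t) (U t) (r t) z k =
            -(mu ν (m t) k • z k) - (Bk (U t) z k + Bk z (U t) k) - Bk z z k - r t k := fun _ => rfl
          rw [e4, e4]
          abel
        have e5 : Bk (U t) (z - w) k = Bk (U t) z k - Bk (U t) w k :=
          congrFun (bk_sub_right hUV hxV hyV) k
        have e6 : Bk (z - w) (U t) k = Bk z (U t) k - Bk w (U t) k :=
          congrFun (bk_sub_left hxV hyV hUV) k
        have e7 : Bk (z - w) z k = Bk z z k - Bk w z k := congrFun (bk_sub_left hxV hyV hxV) k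
        have e8 : Bk w (z - w) k = Bk w z k - Bk w w k := congrFun (bk_sub_right hyV hxV hyV) k
        rw [e3, e5, e6, e7, e8]
        have e9 : (z - w) k = z k - w k := rfl
        rw [e9, smul_sub]
        abel
      rw [e1, norm_smul, Real.norm_of_nonneg (nk_nonneg _), mul_assoc]
      refine mul_le_mul_of_nonneg_left ?_ (nk_nonneg _)
      have a1 : ‖mu ν (m t) k • (z - w) k‖ ≤ b k * n1 (z - w) := by
        rw [norm_smul]
        exact mul_le_mul ((hb (k : K d)).2 t ht) (norm_coef_le hzwV _) (norm_nonneg _) (hb (k : K d)).1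
      have hk0 := nk_nonneg (k : K d)
      have a2 : ‖Bk (U t) (z - w) k‖ ≤ nk (k : K d) * M * n1 (z - w) := by
        refine (norm_bk_le hUV hzwV _).trans ?_
        have := (hU t ht).2
        gcongr
      have a3 : ‖Bk (z - w) (U t) k‖ ≤ nk (k : K d) * M * n1 (z - w) := by
        refine (norm_bk_le hzwV hUV _).trans ?_
        have := (hU t ht).2
        calc nk (k : K d) * n1 (z - w) * n1 (U t) ≤ nk (k : K d) * n1 (z - w) * M := by gcongr
          _ = _ := by ring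
      have a4 : ‖Bk (z - w) z k‖ ≤ nk (k : K d) * θ₀ * n1 (z - w) := by
        refine (norm_bk_le hzwV hxV _).trans ?_
        calc nk (k : K d) * n1 (z - w) * n1 z ≤ nk (k : K d) * n1 (z - w) * θ₀ := by gcongr
          _ = _ := by ring
      have a5 : ‖Bk w (z - w) k‖ ≤ nk (k : K d) * θ₀ * n1 (z - w) := by
        refine (norm_bk_le hyV hzwV _).trans ?_
        gcongr
      have a6 : ‖-(mu ν (m t) k • (z - w) k) - (Bk (U t) (z - w) k + Bk (z - w) (U t) k)
            - (Bk (z - w) z k + Bk w (z - w) k)‖ ≤ ‖mu ν (m t) k • (z - w) k‖ +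
            (‖Bk (U t) (z - w) k‖ + ‖Bk (z - w) (U t) k‖) +
            (‖Bk (z - w) z k‖ + ‖Bk w (z - w) k‖) := by
        refine (norm_sub_le _ _).trans (add_le_add ((norm_sub_le _ _).trans
          (add_le_add ?_ (norm_add_le _ _))) (norm_add_le _ _))
        rw [norm_neg]
      refine a6.trans ?_
      nlinarith
    have h8 : ‖(F t x - F t y : galk_H Λ)‖ ≤ ∑ k : Λ, ‖((F t x - F t y : galk_H Λ) : GalkX Λ) k‖ :=
      galk_norm_le_sum _
    refine h8.trans ?_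
    show _ ≤ L * n1 (z - w)
    rw [hLd, Finset.sum_mul]
    exact Finset.sum_le_sum fun k _ => hstep k
  -- continuity
  have hcont : ContinuousOn (Function.uncurry F)
      (Icc (0 : ℝ) T ×ˢ Metric.closedBall (0 : galk_H Λ) θ₀) := by
    have hS : ∀ p ∈ Icc (0 : ℝ) T ×ˢ Metric.closedBall (0 : galk_H Λ) θ₀,
        IsV (U p.1) ∧ n1 (U p.1) ≤ max M θ₀ := fun p hp =>
      ⟨(hU _ hp.1).1, (hU _ hp.1).2.trans (le_max_left _ _)⟩
    have hS2 : ∀ p ∈ Icc (0 : ℝ) T ×ˢ Metric.closedBall (0 : galk_H Λ) θ₀,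
        IsV (galk_sq Λ (p.2 : GalkX Λ)) ∧ n1 (galk_sq Λ (p.2 : GalkX Λ)) ≤ max M θ₀ := by
      intro p hp
      refine ⟨p.2.2, ?_⟩
      have := hp.2
      rw [mem_closedBall_zero_iff, hnorm] at this
      exact this.trans (le_max_right _ _)
    have hval : Continuous fun x : galk_H Λ => (x : GalkX Λ) := continuous_subtype_val
    have hsqc : ∀ k, Continuous fun x : galk_H Λ => galk_sq Λ (x : GalkX Λ) k := by
      intro k
      obtain ⟨pl, hpl⟩ := galk_pl Λ k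
      have e : (fun x : galk_H Λ => galk_sq Λ (x : GalkX Λ) k) = fun x => pl x := by
        funext x; rw [hpl]
      rw [e]
      exact pl.continuous
    have hcoord : ∀ k : Λ, ContinuousOn (fun p : ℝ × galk_H Λ =>
        ((Function.uncurry F p : galk_H Λ) : GalkX Λ) k)
        (Icc (0 : ℝ) T ×ˢ Metric.closedBall (0 : galk_H Λ) θ₀) := by
      intro k
      have e : ∀ p ∈ Icc (0 : ℝ) T ×ˢ Metric.closedBall (0 : galk_H Λ) θ₀,
          ((Function.uncurry F p : galk_H Λ) : GalkX Λ) k = nk (k : K d) •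
          (-(mu ν (m p.1) k • galk_sq Λ (p.2 : GalkX Λ) k)
            - (Bk (U p.1) (galk_sq Λ (p.2 : GalkX Λ)) k + Bk (galk_sq Λ (p.2 : GalkX Λ)) (U p.1) k)
            - Bk (galk_sq Λ (p.2 : GalkX Λ)) (galk_sq Λ (p.2 : GalkX Λ)) k - r p.1 k) := by
        intro p hp
        have := hFk p.1 p.2 k
        rw [hcl_eq _ hp.1] at this
        exact this
      refine ContinuousOn.congr ?_ e
      intro p hp
      have hne : (𝓝[Icc (0 : ℝ) T ×ˢ Metric.closedBall (0 : galk_H Λ) θ₀] p).NeBot :=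
        mem_closure_iff_nhdsWithin_neBot.1 (subset_closure hp)
      have hself : ∀ᶠ q in 𝓝[Icc (0 : ℝ) T ×ˢ Metric.closedBall (0 : galk_H Λ) θ₀] p,
          q ∈ Icc (0 : ℝ) T ×ˢ Metric.closedBall (0 : galk_H Λ) θ₀ := self_mem_nhdsWithin
      have hUt : ∀ k, Tendsto (fun q : ℝ × galk_H Λ => U q.1 k)
          (𝓝[Icc (0 : ℝ) T ×ˢ Metric.closedBall (0 : galk_H Λ) θ₀] p) (𝓝 (U p.1 k)) := by
        intro k
        have h1 : ContinuousOn (fun q : ℝ × galk_H Λ => U q.1 k)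
            (Icc (0 : ℝ) T ×ˢ Metric.closedBall (0 : galk_H Λ) θ₀) :=
          (hUc k).comp continuousOn_fst fun q hq => hq.1
        exact h1 p hp
      have hrt : ∀ k, Tendsto (fun q : ℝ × galk_H Λ => r q.1 k)
          (𝓝[Icc (0 : ℝ) T ×ˢ Metric.closedBall (0 : galk_H Λ) θ₀] p) (𝓝 (r p.1 k)) := by
        intro k
        have h1 : ContinuousOn (fun q : ℝ × galk_H Λ => r q.1 k)
            (Icc (0 : ℝ) T ×ˢ Metric.closedBall (0 : galk_H Λ) θ₀) :=
          (hrc k).comp continuousOn_fst fun q hq => hq.1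
        exact h1 p hp
      have hzt : ∀ k, Tendsto (fun q : ℝ × galk_H Λ => galk_sq Λ (q.2 : GalkX Λ) k)
          (𝓝[Icc (0 : ℝ) T ×ˢ Metric.closedBall (0 : galk_H Λ) θ₀] p)
          (𝓝 (galk_sq Λ (p.2 : GalkX Λ) k)) := by
        intro k
        have h1 : Continuous fun q : ℝ × galk_H Λ => galk_sq Λ (q.2 : GalkX Λ) k :=
          (hsqc k).comp continuous_snd
        exact (h1.tendsto p).mono_left nhdsWithin_le_nhds
      have hU' := hself.mono hS
      have hz' := hself.mono hS2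
      have t1 := bk_tendsto hU' hz' hUt hzt k
      have t2 := bk_tendsto hz' hU' hzt hUt k
      have t3 := bk_tendsto hz' hz' hzt hzt k
      have t0 : Tendsto (fun q : ℝ × galk_H Λ => mu ν (m q.1) k)
          (𝓝[Icc (0 : ℝ) T ×ˢ Metric.closedBall (0 : galk_H Λ) θ₀] p) (𝓝 (mu ν (m p.1) k)) :=
        ((((galT_mu_cont ν (k : K d)).comp hm).comp continuous_fst).tendsto p).mono_left
          nhdsWithin_le_nhds
      exact (((((t0.smul (hzt k)).neg).sub (t1.add t2)).sub t3).sub (hrt k)).const_smul _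
    rw [Topology.IsInducing.subtypeVal.continuousOn_iff]
    have hpi : ContinuousOn (fun (p : ℝ × galk_H Λ) (k : Λ) =>
        ((Function.uncurry F p : galk_H Λ) : GalkX Λ) k)
        (Icc (0 : ℝ) T ×ˢ Metric.closedBall (0 : galk_H Λ) θ₀) := continuousOn_pi.2 hcoord
    exact (PiLp.continuous_toLp 2 (fun _ : Λ => Cv d)).comp_continuousOn hpi
  -- initial value
  have hx₀V : IsV (galk_sq Λ (galk_emb Λ z₀)) := galk_isV_of hΛ hz₀.dv hz₀.sy
  have hsq₀ : galk_sq Λ (galk_emb Λ z₀) = tr (bx d R) z₀ := by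
    funext k
    by_cases hk : k ∈ Λ
    · rw [galk_sq_emb h0 _ hk, tr_apply_mem ((hΛ k).1 hk)]
    · rw [galk_sq_not_mem _ hk, tr_apply_not_mem (fun h => hk ((hΛ k).2 h))]
  set x₀ : galk_H Λ := ⟨galk_emb Λ z₀, hx₀V⟩ with hx₀
  have hn₀ : ‖x₀‖ ≤ n1 z₀ := by
    rw [hnorm]
    show n1 (galk_sq Λ (galk_emb Λ z₀)) ≤ _
    rw [hsq₀]
    exact (tr_isV hz₀ fun k hk => bx_neg hk).2
  have hsmall' : Real.exp (g * T) * (‖x₀‖ + ρ * T) < θ₀ := by
    refine lt_of_le_of_lt ?_ hsmall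
    gcongr
  obtain ⟨ζ, hζ0, hζc, _, hζi, hζn⟩ := ode_energy hT hg hρ F hcont ⟨L, hL0⟩ hLip hen x₀ hsmall'
  refine ⟨fun t => galk_sq Λ (ζ t : GalkX Λ), ?_, ?_, ?_, ?_, ?_⟩
  · show galk_sq Λ (ζ 0 : GalkX Λ) = _
    rw [hζ0]
    exact hsq₀
  · intro t _
    refine ⟨(ζ t).2, fun k hk => galk_sq_not_mem _ fun h => hk ((hΛ k).1 h)⟩
  · intro k
    obtain ⟨pl, hpl⟩ := galk_pl Λ k
    have e : (fun t => galk_sq Λ (ζ t : GalkX Λ) k) = fun t => pl (ζ t) := by
      funext t; rw [hpl]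
    show ContinuousOn (fun t => galk_sq Λ (ζ t : GalkX Λ) k) _
    rw [e]
    exact pl.continuous.comp_continuousOn hζc
  · intro k hk t ht
    have hkΛ : k ∈ Λ := (hΛ k).2 hk
    obtain ⟨pl, hpl⟩ := galk_pl Λ k
    have hFz : ContinuousOn (fun s => F s (ζ s)) (Icc 0 T) := by
      have h1 : ContinuousOn (fun s => (s, ζ s)) (Icc 0 T) := continuousOn_id.prodMk hζc
      refine hcont.comp h1 fun s hs => ⟨hs, ?_⟩
      rw [mem_closedBall_zero_iff]
      refine (hζn s hs).trans (le_trans ?_ hsmall'.le)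
      have h2 : Real.exp (g * s) ≤ Real.exp (g * T) := by
        apply Real.exp_le_exp.2
        exact mul_le_mul_of_nonneg_left hs.2 hg
      have h3 : ‖x₀‖ + ρ * s ≤ ‖x₀‖ + ρ * T := by
        have := mul_le_mul_of_nonneg_left hs.2 hρ
        linarith
      have h4 : 0 ≤ ‖x₀‖ + ρ * s := by
        have := mul_nonneg hρ hs.1
        positivity
      exact mul_le_mul h2 h3 h4 (Real.exp_pos _).le
    have hint : IntervalIntegrable (fun s => F s (ζ s)) volume 0 t :=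
      (hFz.mono (Icc_subset_Icc_right ht.2)).intervalIntegrable_of_Icc ht.1
    have h1 := galk_int pl hint (hζi t ht)
    rw [hpl] at h1
    show galk_sq Λ (ζ t : GalkX Λ) k = galk_sq Λ (ζ 0 : GalkX Λ) k + _
    rw [h1, hζ0, hpl]
    congr 1
    refine intervalIntegral.integral_congr fun s hs => ?_
    rw [uIcc_of_le ht.1] at hs
    have hs' : s ∈ Icc (0 : ℝ) T := ⟨hs.1, hs.2.trans ht.2⟩
    show pl (F s (ζ s)) = _
    rw [hpl, hF, galk_sq_emb h0 _ hkΛ, hcl_eq s hs']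
    rfl
  · intro t ht
    show n1 (galk_sq Λ (ζ t : GalkX Λ)) ≤ _
    rw [← hnorm]
    refine (hζn t ht).trans ?_
    gcongr

/-- continuity of the right hand side of the perturbation equation -/
theorem galT_cont {ν : ℝ} {m : ℝ → Fin d → ℝ} (hm : Continuous m) {T M B : ℝ} {U z r : ℝ → Sq d}
    (hU : ∀ t ∈ Icc (0 : ℝ) T, IsV (U t) ∧ n1 (U t) ≤ M)
    (hUc : ∀ k, ContinuousOn (fun t => U t k) (Icc (0 : ℝ) T))
    (hz : ∀ t ∈ Icc (0 : ℝ) T, IsV (z t) ∧ n1 (z t) ≤ B)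
    (hzc : ∀ k, ContinuousOn (fun t => z t k) (Icc (0 : ℝ) T))
    (hrc : ∀ k, ContinuousOn (fun t => r t k) (Icc (0 : ℝ) T)) (k : K d) :
    ContinuousOn (fun s => -(mu ν (m s) k • z s k) - Lk (U s) (z s) k - Bk (z s) (z s) k - r s k)
      (Icc (0 : ℝ) T) := by
  have hU' : ∀ t ∈ Icc (0 : ℝ) T, IsV (U t) ∧ n1 (U t) ≤ max M B := fun t ht =>
    ⟨(hU t ht).1, (hU t ht).2.trans (le_max_left _ _)⟩
  have hz' : ∀ t ∈ Icc (0 : ℝ) T, IsV (z t) ∧ n1 (z t) ≤ max M B := fun t ht =>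
    ⟨(hz t ht).1, (hz t ht).2.trans (le_max_right _ _)⟩
  have h1 := bk_continuousOn hU' hz' hUc hzc k
  have h2 := bk_continuousOn hz' hU' hzc hUc k
  have h3 := bk_continuousOn hz' hz' hzc hzc k
  have h4 : ContinuousOn (fun s => Lk (U s) (z s) k) (Icc (0 : ℝ) T) := h1.add h2
  have h5 : ContinuousOn (fun s => mu ν (m s) k) (Icc (0 : ℝ) T) :=
    ((galT_mu_cont ν k).comp hm).continuousOn
  exact (((h5.smul (hzc k)).neg.sub h4).sub h3).sub (hrc k)

theorem galT_bound {c : ℂ} {β M B ρ : ℝ} {U z r : Sq d} (hc : ‖c‖ ≤ β)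
    (hU : IsV U ∧ n1 U ≤ M) (hz : IsV z ∧ n1 z ≤ B) (hr : IsV r ∧ n1 r ≤ ρ) (k : K d) :
    ‖-(c • z k) - Lk U z k - Bk z z k - r k‖ ≤ β * B + nk k * (2 * M * B + B ^ 2) + ρ := by
  have hk := nk_nonneg k
  have h0 : 0 ≤ n1 z := n1_nonneg z
  have h0' : 0 ≤ n1 U := n1_nonneg U
  have hB : 0 ≤ B := h0.trans hz.2
  have hM : 0 ≤ M := h0'.trans hU.2
  have h1 : ‖c • z k‖ ≤ β * B := by
    rw [norm_smul]
    exact mul_le_mul hc ((norm_coef_le hz.1 k).trans hz.2) (norm_nonneg _)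
      ((norm_nonneg _).trans hc)
  have e1 : ‖Bk U z k‖ ≤ nk k * (M * B) := by
    refine (norm_bk_le hU.1 hz.1 k).trans ?_
    rw [mul_assoc]
    exact mul_le_mul_of_nonneg_left (mul_le_mul hU.2 hz.2 h0 hM) hk
  have e2 : ‖Bk z U k‖ ≤ nk k * (M * B) := by
    refine (norm_bk_le hz.1 hU.1 k).trans ?_
    rw [mul_assoc, mul_comm (n1 z)]
    exact mul_le_mul_of_nonneg_left (mul_le_mul hU.2 hz.2 h0 hM) hk
  have e3 : ‖Bk z z k‖ ≤ nk k * (B * B) := by
    refine (norm_bk_le hz.1 hz.1 k).trans ?_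
    rw [mul_assoc]
    exact mul_le_mul_of_nonneg_left (mul_le_mul hz.2 hz.2 h0 hB) hk
  have e4 : ‖Lk U z k‖ ≤ nk k * (M * B) + nk k * (M * B) := by
    have : Lk U z k = Bk U z k + Bk z U k := rfl
    rw [this]
    exact (norm_add_le _ _).trans (add_le_add e1 e2)
  have e5 : ‖r k‖ ≤ ρ := (norm_coef_le hr.1 k).trans hr.2
  calc ‖-(c • z k) - Lk U z k - Bk z z k - r k‖
      ≤ ‖-(c • z k) - Lk U z k - Bk z z k‖ + ‖r k‖ := norm_sub_le _ _
    _ ≤ ‖-(c • z k) - Lk U z k‖ + ‖Bk z z k‖ + ‖r k‖ := by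
        gcongr; exact norm_sub_le _ _
    _ ≤ ‖-(c • z k)‖ + ‖Lk U z k‖ + ‖Bk z z k‖ + ‖r k‖ := by
        gcongr; exact norm_sub_le _ _
    _ ≤ β * B + (nk k * (M * B) + nk k * (M * B)) + nk k * (B * B) + ρ := by
        rw [norm_neg]
        gcongr
    _ = _ := by ring

theorem galT (hd : d = 2 ∨ d = 3) {ν : ℝ} (hν : 0 < ν) :
    ∃ θ₀ > 0, ∀ (m : ℝ → Fin d → ℝ), Continuous m →
      ∀ (T g ρ M : ℝ), 0 ≤ T → 0 ≤ g → 0 ≤ ρ → ∀ (f : Sq d), IsV f →
      ∀ (U r : ℝ → Sq d),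
      (∀ t ∈ Icc (0 : ℝ) T, IsV (U t) ∧ n1 (U t) ≤ M) →
      (∀ k, ContinuousOn (fun t => U t k) (Icc (0 : ℝ) T)) →
      (∀ t ∈ Icc (0 : ℝ) T, IsV (r t) ∧ n1 (r t) ≤ ρ) →
      (∀ k, ContinuousOn (fun t => r t k) (Icc (0 : ℝ) T)) →
      (∀ k, ∀ t ∈ Icc (0 : ℝ) T, U t k = U 0 k + ∫ s in (0 : ℝ)..t,
        (f k - mu ν (m s) k • U s k - Bk (U s) (U s) k + r s k)) →
      (∀ t ∈ Icc (0 : ℝ) T, ∀ z, IsV z → FS z →
        |Tri (U t) z z + Tri z (U t) z| ≤ ν / 4 * n2 z ^ 2 + g * n1 z ^ 2) →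
      ∀ w : Sq d, IsV w → Real.exp (g * T) * (n1 (w - U 0) + ρ * T) < θ₀ →
      ∃ u : ℝ → Sq d, SolM ν m f T u ∧ u 0 = w := by
  obtain ⟨θ₀, hθ₀, H⟩ := galT_galerkin hd hν
  refine ⟨θ₀, hθ₀, ?_⟩
  intro m hm T g ρ M hT hg hρ f hf U r hU hUc hr hrc hUeq htri w hw hsm
  obtain ⟨b, hb⟩ := galT_mu_bd (ν := ν) hm T
  have h0T : (0 : ℝ) ∈ Icc (0 : ℝ) T := ⟨le_refl _, hT⟩
  have hz0 : IsV (w - U 0) := hw.sub (hU 0 h0T).1
  choose z hz00 hzV hzc hzeq hzn using
    fun N : ℕ => H m hm T g ρ M hT hg hρ U r hU hUc hr hrc htri N (w - U 0) hz0 hsm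
  set B : ℝ := Real.exp (g * T) * (n1 (w - U 0) + ρ * T) with hBdef
  have hn0 : 0 ≤ n1 (w - U 0) := n1_nonneg _
  have hmono : ∀ t ∈ Icc (0 : ℝ) T, Real.exp (g * t) * (n1 (w - U 0) + ρ * t) ≤ B := by
    intro t ht
    have h1 : g * t ≤ g * T := mul_le_mul_of_nonneg_left ht.2 hg
    have h2 : ρ * t ≤ ρ * T := mul_le_mul_of_nonneg_left ht.2 hρ
    have h3 : 0 ≤ ρ * t := mul_nonneg hρ ht.1
    have h4 := Real.exp_le_exp.2 h1
    have h5 := (Real.exp_pos (g * T)).le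
    exact mul_le_mul h4 (by linarith) (by linarith) h5
  have hzB : ∀ N : ℕ, ∀ t ∈ Icc (0 : ℝ) T, IsV (z N t) ∧ n1 (z N t) ≤ B := fun N t ht =>
    ⟨(hzV N t ht).1, (hzn N t ht).trans (hmono t ht)⟩
  have hM : 0 ≤ M := (n1_nonneg _).trans (hU 0 h0T).2
  have hB : 0 ≤ B := (n1_nonneg _).trans (hzB 0 0 h0T).2
  set L : K d → ℝ := fun k => b k * B + nk k * (2 * M * B + B ^ 2) + ρ with hLdef
  have hL0 : ∀ k, 0 ≤ L k := fun k => by
    have := nk_nonneg k
    have h2 := (hb k).1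
    positivity
  -- Lipschitz bounds of the approximations
  have hLip : ∀ (N : ℕ) (k : K d), ∀ s ∈ Icc (0 : ℝ) T, ∀ t ∈ Icc (0 : ℝ) T,
      ‖z N t k - z N s k‖ ≤ L k * |t - s| := by
    intro N k s hs t ht
    by_cases hk : k ∈ bx d (N : ℝ)
    · have hc := galT_cont (ν := ν) (m := m) hm hU hUc (hzB N) (hzc N) hrc k
      have hi : ∀ a ∈ Icc (0 : ℝ) T, IntervalIntegrable (fun s => -(mu ν (m s) k • z N s k) -
          Lk (U s) (z N s) k - Bk (z N s) (z N s) k - r s k) volume 0 a := fun a ha =>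
        (hc.mono (gal_icc_uIcc ha)).intervalIntegrable
      rw [hzeq N k hk t ht, hzeq N k hk s hs, add_sub_add_left_eq_sub,
        intervalIntegral.integral_interval_sub_left (hi t ht) (hi s hs)]
      apply intervalIntegral.norm_integral_le_of_norm_le_const
      intro a ha
      have haT : a ∈ Icc (0 : ℝ) T := by
        rcases le_total s t with h | h
        · rw [uIoc_of_le h] at ha
          exact ⟨hs.1.trans ha.1.le, ha.2.trans ht.2⟩
        · rw [uIoc_of_ge h] at ha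
          exact ⟨ht.1.trans ha.1.le, ha.2.trans hs.2⟩
      exact galT_bound ((hb k).2 a haT) (hU a haT) (hzB N a haT) (hr a haT) k
    · rw [(hzV N t ht).2 k hk, (hzV N s hs).2 k hk, sub_zero, norm_zero]
      exact mul_nonneg (hL0 k) (abs_nonneg _)
  have hbd : ∀ (N : ℕ) (k : K d), ∀ t ∈ Icc (0 : ℝ) T, ‖z N t k‖ ≤ (fun _ : K d => B) k :=
    fun N k t ht => (norm_coef_le (hzB N t ht).1 k).trans (hzB N t ht).2
  obtain ⟨φ, hφ, Z, hZ⟩ := extract (ι := K d) (E := Cv d) T (fun N k t => z N t k)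
    (fun _ => B) L hbd hLip
  -- the limit
  set Y : ℝ → Sq d := fun t k => Z k t with hYdef
  have hYlim : ∀ t ∈ Icc (0 : ℝ) T, ∀ k, Tendsto (fun n => z (φ n) t k) atTop (𝓝 (Y t k)) :=
    fun t ht k => hZ k t ht
  have hYV : ∀ t ∈ Icc (0 : ℝ) T, IsV (Y t) ∧
      n1 (Y t) ≤ Real.exp (g * t) * (n1 (w - U 0) + ρ * t) := by
    intro t ht
    apply isV_of_tendsto (l := atTop) (v := fun n => z (φ n) t)
    · exact mul_nonneg (Real.exp_pos _).le (add_nonneg hn0 (mul_nonneg hρ ht.1))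
    · exact Eventually.of_forall fun n => ⟨(hzV _ t ht).1, hzn _ t ht⟩
    · exact hYlim t ht
  have hYB : ∀ t ∈ Icc (0 : ℝ) T, IsV (Y t) ∧ n1 (Y t) ≤ B := fun t ht =>
    ⟨(hYV t ht).1, (hYV t ht).2.trans (hmono t ht)⟩
  have hYc : ∀ k, ContinuousOn (fun t => Y t k) (Icc (0 : ℝ) T) := by
    intro k
    have hl : ∀ s ∈ Icc (0 : ℝ) T, ∀ t ∈ Icc (0 : ℝ) T, ‖Y t k - Y s k‖ ≤ L k * |t - s| := by
      intro s hs t ht
      have h1 := ((hYlim t ht k).sub (hYlim s hs k)).norm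
      exact le_of_tendsto' h1 fun n => hLip (φ n) k s hs t ht
    have : LipschitzOnWith ⟨L k, hL0 k⟩ (fun t => Y t k) (Icc (0 : ℝ) T) := by
      apply LipschitzOnWith.of_dist_le_mul
      intro t ht s hs
      rw [dist_eq_norm, dist_eq_norm, Real.norm_eq_abs]
      exact hl s hs t ht
    exact this.continuousOn
  have hY0 : Y 0 = w - U 0 := by
    funext k
    have h1 := hYlim 0 h0T k
    apply tendsto_nhds_unique h1
    by_cases hk : k = 0
    · subst hk
      rw [hz0.zero]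
      apply tendsto_const_nhds.congr
      intro n
      exact ((hzV (φ n) 0 h0T).1.zero).symm
    · apply tendsto_const_nhds.congr'
      have h2 : ∀ᶠ n in atTop, nk k ≤ ((φ n : ℕ) : ℝ) := by
        have : Tendsto (fun n => ((φ n : ℕ) : ℝ)) atTop atTop :=
          tendsto_natCast_atTop_atTop.comp hφ.tendsto_atTop
        exact this.eventually_ge_atTop _
      filter_upwards [h2] with n hn
      rw [hz00 (φ n), tr_apply_mem (show k ∈ bx d ((φ n : ℕ) : ℝ) from ⟨hk, hn⟩)]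
  have hYeq : ∀ k, ∀ t ∈ Icc (0 : ℝ) T, Y t k = Y 0 k + ∫ s in (0 : ℝ)..t,
      (-(mu ν (m s) k • Y s k) - Lk (U s) (Y s) k - Bk (Y s) (Y s) k - r s k) := by
    intro k t ht
    by_cases hk : k = 0
    · subst hk
      have h1 : ∀ s ∈ Icc (0 : ℝ) T, (-(mu ν (m s) 0 • Y s 0) - Lk (U s) (Y s) 0 -
          Bk (Y s) (Y s) 0 - r s 0) = 0 := by
        intro s hs
        have e : Lk (U s) (Y s) 0 = Bk (U s) (Y s) 0 + Bk (Y s) (U s) 0 := rfl
        rw [(hYB s hs).1.zero, e, bk_at_zero, bk_at_zero, bk_at_zero, (hr s hs).1.zero]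
        simp
      rw [intervalIntegral.integral_congr (g := fun _ => (0 : Cv d))
        (fun s hs => h1 s (gal_icc_uIcc ht hs)), (hYB t ht).1.zero, (hYB 0 h0T).1.zero]
      simp
    · have h1 := hYlim t ht k
      apply tendsto_nhds_unique h1
      have h2 : ∀ᶠ n in atTop, k ∈ bx d ((φ n : ℕ) : ℝ) := by
        have : Tendsto (fun n => ((φ n : ℕ) : ℝ)) atTop atTop :=
          tendsto_natCast_atTop_atTop.comp hφ.tendsto_atTop
        filter_upwards [this.eventually_ge_atTop (nk k)] with n hn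
        exact ⟨hk, hn⟩
      have h3 : Tendsto (fun n => z (φ n) 0 k + ∫ s in (0 : ℝ)..t,
          (-(mu ν (m s) k • z (φ n) s k) - Lk (U s) (z (φ n) s) k - Bk (z (φ n) s) (z (φ n) s) k -
            r s k)) atTop (𝓝 (Y 0 k + ∫ s in (0 : ℝ)..t,
          (-(mu ν (m s) k • Y s k) - Lk (U s) (Y s) k - Bk (Y s) (Y s) k - r s k))) := by
        apply (hYlim 0 h0T k).add
        apply intervalIntegral.tendsto_integral_filter_of_dominated_convergence (fun _ => L k)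
        · apply Eventually.of_forall
          intro n
          have hc := galT_cont (ν := ν) (m := m) hm hU hUc (hzB (φ n)) (hzc (φ n)) hrc k
          have hi : IntervalIntegrable (fun s => -(mu ν (m s) k • z (φ n) s k) -
              Lk (U s) (z (φ n) s) k - Bk (z (φ n) s) (z (φ n) s) k - r s k) volume 0 t :=
            (hc.mono (gal_icc_uIcc ht)).intervalIntegrable
          exact hi.def'.aestronglyMeasurable
        · apply Eventually.of_forall
          intro n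
          apply Eventually.of_forall
          intro a ha
          have haT : a ∈ Icc (0 : ℝ) T := gal_icc_uIcc ht (uIoc_subset_uIcc ha)
          exact galT_bound ((hb k).2 a haT) (hU a haT) (hzB (φ n) a haT) (hr a haT) k
        · exact intervalIntegrable_const
        · apply Eventually.of_forall
          intro a ha
          have haT : a ∈ Icc (0 : ℝ) T := gal_icc_uIcc ht (uIoc_subset_uIcc ha)
          have hUa : ∀ᶠ n : ℕ in atTop, IsV (U a) ∧ n1 (U a) ≤ max M B :=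
            Eventually.of_forall fun _ => ⟨(hU a haT).1, (hU a haT).2.trans (le_max_left _ _)⟩
          have hza : ∀ᶠ n : ℕ in atTop, IsV (z (φ n) a) ∧ n1 (z (φ n) a) ≤ max M B :=
            Eventually.of_forall fun n =>
              ⟨(hzB (φ n) a haT).1, (hzB (φ n) a haT).2.trans (le_max_right _ _)⟩
          have t1 := bk_tendsto (a := fun _ : ℕ => U a) (w := fun n => z (φ n) a) hUa hza
            (fun _ => tendsto_const_nhds) (hYlim a haT) k
          have t2 := bk_tendsto (a := fun n => z (φ n) a) (w := fun _ : ℕ => U a) hza hUa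
            (hYlim a haT) (fun _ => tendsto_const_nhds) k
          have t3 := bk_tendsto (a := fun n => z (φ n) a) (w := fun n => z (φ n) a) hza hza
            (hYlim a haT) (hYlim a haT) k
          have t4 : Tendsto (fun n => Lk (U a) (z (φ n) a) k) atTop (𝓝 (Lk (U a) (Y a) k)) :=
            t1.add t2
          exact ((((hYlim a haT k).const_smul (mu ν (m a) k)).neg.sub t4).sub t3).sub
            tendsto_const_nhds
      apply h3.congr'
      filter_upwards [h2] with n hn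
      exact (hzeq (φ n) k hn t ht).symm
  -- the solution
  refine ⟨fun t => U t + Y t, ?_, ?_⟩
  · refine ⟨fun t ht => (hU t ht).1.add (hYB t ht).1, ⟨M + B, fun t ht =>
      (n1_add_le (hU t ht).1 (hYB t ht).1).trans (add_le_add (hU t ht).2 (hYB t ht).2)⟩,
      fun k => (hUc k).add (hYc k), ?_⟩
    intro k t ht
    have hUB' : ∀ t ∈ Icc (0 : ℝ) T, IsV (U t) ∧ n1 (U t) ≤ M := hU
    have c1 : ContinuousOn (fun s => f k - mu ν (m s) k • U s k - Bk (U s) (U s) k + r s k)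
        (Icc (0 : ℝ) T) :=
      ((continuousOn_const.sub ((((galT_mu_cont ν k).comp hm).continuousOn).smul (hUc k))).sub
        (bk_continuousOn hU hU hUc hUc k)).add (hrc k)
    have c2 := galT_cont (ν := ν) (m := m) hm hU hUc hYB hYc hrc k
    have i1 : IntervalIntegrable (fun s => f k - mu ν (m s) k • U s k - Bk (U s) (U s) k + r s k)
        volume 0 t := (c1.mono (gal_icc_uIcc ht)).intervalIntegrable
    have i2 : IntervalIntegrable (fun s => -(mu ν (m s) k • Y s k) - Lk (U s) (Y s) k -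
        Bk (Y s) (Y s) k - r s k) volume 0 t := (c2.mono (gal_icc_uIcc ht)).intervalIntegrable
    have e1 : (U t + Y t) k = U t k + Y t k := rfl
    have e2 : (U 0 + Y 0) k = U 0 k + Y 0 k := rfl
    show (U t + Y t) k = (U 0 + Y 0) k + _
    rw [e1, e2, hUeq k t ht, hYeq k t ht]
    have e3 : ∫ s in (0 : ℝ)..t, (f k - mu ν (m s) k • (U s + Y s) k -
        Bk (U s + Y s) (U s + Y s) k) =
        ∫ s in (0 : ℝ)..t, ((f k - mu ν (m s) k • U s k - Bk (U s) (U s) k + r s k) +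
          (-(mu ν (m s) k • Y s k) - Lk (U s) (Y s) k - Bk (Y s) (Y s) k - r s k)) := by
      apply intervalIntegral.integral_congr
      intro s hs
      have hsT := gal_icc_uIcc ht hs
      show f k - mu ν (m s) k • (U s + Y s) k - Bk (U s + Y s) (U s + Y s) k = _
      rw [bk_expand (hU s hsT).1 (hYB s hsT).1]
      simp only [Pi.add_apply, smul_add]
      abel
    rw [e3, intervalIntegral.integral_add i1 i2]
    abel
  · show U 0 + Y 0 = w
    rw [hY0]
    abel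

end NSC
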