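import Pool.Agent.Work.MP_57e339_an.EstC
import Pool.Agent.Work.MP_57e339_an.Ode

/-! Module Galk: Galerkin approximations of the perturbation of a reference curve. -/

open MeasureTheory Set Filter Topology
open scoped BigOperators
noncomputable section
namespace NSC
variable {d : ℕ}

/-- ambient space of the Galerkin system -/
abbrev GalkX (Λ : Finset (K d)) := PiLp 2 (fun _ : Λ => Cv d)

/-- the sequence attached to a point of the ambient space -/
def galk_sq (Λ : Finset (K d)) (x : GalkX Λ) : Sq d :=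
  fun k => if h : k ∈ Λ then (nk k)⁻¹ • x ⟨k, h⟩ else 0

/-- the point attached to a sequence -/
def galk_emb (Λ : Finset (K d)) (u : Sq d) : GalkX Λ := WithLp.toLp 2 fun k => nk (k : K d) • u k

theorem galk_emb_apply (Λ : Finset (K d)) (u : Sq d) (k : Λ) :
    galk_emb Λ u k = nk (k : K d) • u k := rfl

theorem galk_sq_mem {Λ : Finset (K d)} (x : GalkX Λ) {k : K d} (h : k ∈ Λ) :
    galk_sq Λ x k = (nk k)⁻¹ • x ⟨k, h⟩ := by
  unfold galk_sq
  rw [dif_pos h]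

theorem galk_sq_not_mem {Λ : Finset (K d)} (x : GalkX Λ) {k : K d} (h : k ∉ Λ) :
    galk_sq Λ x k = 0 := by
  unfold galk_sq
  rw [dif_neg h]

theorem galk_sq_add (Λ : Finset (K d)) (x y : GalkX Λ) :
    galk_sq Λ (x + y) = galk_sq Λ x + galk_sq Λ y := by
  funext k
  by_cases h : k ∈ Λ
  · simp [galk_sq_mem _ h]
  · simp [galk_sq_not_mem _ h]

theorem galk_sq_sub (Λ : Finset (K d)) (x y : GalkX Λ) :
    galk_sq Λ (x - y) = galk_sq Λ x - galk_sq Λ y := by
  funext k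
  by_cases h : k ∈ Λ
  · simp [galk_sq_mem _ h, smul_sub]
  · simp [galk_sq_not_mem _ h]

theorem galk_sq_smul (Λ : Finset (K d)) (t : ℝ) (x : GalkX Λ) :
    galk_sq Λ (t • x) = t • galk_sq Λ x := by
  funext k
  by_cases h : k ∈ Λ
  · simp [galk_sq_mem _ h, smul_comm t]
  · simp [galk_sq_not_mem _ h]

theorem galk_sq_zero (Λ : Finset (K d)) : galk_sq Λ (0 : GalkX Λ) = 0 := by
  funext k
  by_cases h : k ∈ Λ
  · simp [galk_sq_mem _ h]
  · simp [galk_sq_not_mem _ h]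

/-- the real subspace of real divergence free sequences -/
def galk_H (Λ : Finset (K d)) : Submodule ℝ (GalkX Λ) where
  carrier := {x | IsV (galk_sq Λ x)}
  add_mem' := by
    intro x y hx hy
    have hx' : IsV (galk_sq Λ x) := hx
    have hy' : IsV (galk_sq Λ y) := hy
    show IsV (galk_sq Λ (x + y))
    rw [galk_sq_add]
    exact hx'.add hy'
  zero_mem' := by
    show IsV (galk_sq Λ 0)
    rw [galk_sq_zero]
    exact isV_zero
  smul_mem' := by
    intro t x hx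
    have hx' : IsV (galk_sq Λ x) := hx
    show IsV (galk_sq Λ (t • x))
    rw [galk_sq_smul]
    exact hx'.smul t

theorem galk_inner (c c' : Cv d) : inner ℝ c c' = (inner ℂ c c').re := by
  simp [PiLp.inner_apply, Complex.inner]

section
variable {Λ : Finset (K d)} (hΛ : (0 : K d) ∉ Λ)

include hΛ

theorem galk_nk_ne {k : K d} (hk : k ∈ Λ) : nk k ≠ 0 := by
  intro h
  rw [nk_eq_zero] at h
  subst h
  exact hΛ hk

theorem galk_sq_emb (u : Sq d) {k : K d} (hk : k ∈ Λ) : galk_sq Λ (galk_emb Λ u) k = u k := by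
  rw [galk_sq_mem _ hk, galk_emb_apply, smul_smul, inv_mul_cancel₀ (galk_nk_ne hΛ hk), one_smul]

theorem galk_coord (x : GalkX Λ) (k : Λ) : x k = nk (k : K d) • galk_sq Λ x k := by
  rw [galk_sq_mem _ k.2, smul_smul, mul_inv_cancel₀ (galk_nk_ne hΛ k.2), one_smul]

omit hΛ in
theorem galk_fs (x : GalkX Λ) : FS (galk_sq Λ x) := by
  refine Set.Finite.subset (Finset.finite_toSet Λ) ?_
  intro k hk
  by_contra h
  exact hk (galk_sq_not_mem x h)

theorem galk_norm {x : GalkX Λ} (hx : IsV (galk_sq Λ x)) : ‖x‖ = n1 (galk_sq Λ x) := by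
  have h1 : ∑' k, nk k ^ 2 * ‖galk_sq Λ x k‖ ^ 2 = ∑ k ∈ Λ, nk k ^ 2 * ‖galk_sq Λ x k‖ ^ 2 :=
    tsum_eq_sum fun k hk => by rw [galk_sq_not_mem x hk]; simp
  rw [n1, h1, PiLp.norm_eq_of_L2]
  congr 1
  rw [← Finset.sum_coe_sort Λ]
  refine Finset.sum_congr rfl fun k _ => ?_
  rw [galk_coord hΛ x k, norm_smul, Real.norm_of_nonneg (nk_nonneg _), mul_pow]

theorem galk_inner_eq (x : GalkX Λ) (w : Sq d) :
    inner ℝ x (galk_emb Λ w) = ∑ k ∈ Λ, nk k ^ 2 * (inner ℂ (galk_sq Λ x k) (w k)).re := by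
  rw [PiLp.inner_apply, ← Finset.sum_coe_sort Λ]
  refine Finset.sum_congr rfl fun k _ => ?_
  rw [galk_coord hΛ x k, galk_emb_apply, real_inner_smul_left, real_inner_smul_right, galk_inner]
  ring

end

/-- the right hand side of the Galerkin system -/
def galk_G (ν : ℝ) (m : Fin d → ℝ) (U r z : Sq d) : Sq d :=
  fun k => -(mu ν m k • z k) - Lk U z k - Bk z z k - r k

theorem galk_cj_neg (c : Cv d) : cj (-c) = -cj c := by
  have h := cj_sub (0 : Cv d) c
  rw [cj_zero, zero_sub, zero_sub] at h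
  exact h

theorem galk_dot_neg (k : K d) (c : Cv d) : dot k (-c) = -dot k c := by
  have h := dot_sub k (0 : Cv d) c
  rw [dot_zero, zero_sub, zero_sub] at h
  exact h

theorem galk_G_dv (ν : ℝ) (m : Fin d → ℝ) {U r z : Sq d} (hr : IsV r)
    (hz : IsV z) (k : K d) : dot k (galk_G ν m U r z k) = 0 := by
  have e : Lk U z k = Bk U z k + Bk z U k := rfl
  unfold galk_G
  rw [dot_sub, dot_sub, dot_sub, galk_dot_neg, dot_smul, hz.dv k, hr.dv k, e, dot_add, dot_bk,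
    dot_bk, dot_bk]
  simp

theorem galk_G_sy (ν : ℝ) (m : Fin d → ℝ) {U r z : Sq d} (hU : IsV U) (hr : IsV r)
    (hz : IsV z) (k : K d) : galk_G ν m U r z (-k) = cj (galk_G ν m U r z k) := by
  have e : ∀ k, Lk U z k = Bk U z k + Bk z U k := fun k => rfl
  unfold galk_G
  rw [cj_sub, cj_sub, cj_sub, galk_cj_neg, cj_smul, ← mu_neg, ← hz.sy k, ← hr.sy k, e, e, cj_add,
    bk_sy hU hz, bk_sy hz hU, bk_sy hz hz]

theorem galk_isV_of {R : ℝ} {Λ : Finset (K d)} (hΛ : ∀ k, k ∈ Λ ↔ k ∈ bx d R) {w : Sq d}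
    (h1 : ∀ k, dot k (w k) = 0) (h2 : ∀ k, w (-k) = cj (w k)) :
    IsV (galk_sq Λ (galk_emb Λ w)) := by
  have h0 : (0 : K d) ∉ Λ := by
    rw [hΛ]
    intro h
    exact h.1 rfl
  have hneg : ∀ k, k ∈ Λ → -k ∈ Λ := by
    intro k hk
    rw [hΛ] at hk ⊢
    exact bx_neg hk
  refine ⟨?_, ?_, ?_, ?_⟩
  · exact galk_sq_not_mem _ h0
  · intro k
    by_cases hk : k ∈ Λ
    · rw [galk_sq_emb h0 w hk]; exact h1 k
    · rw [galk_sq_not_mem _ hk]; exact dot_zero k
  · intro k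
    by_cases hk : k ∈ Λ
    · rw [galk_sq_emb h0 w hk, galk_sq_emb h0 w (hneg k hk)]; exact h2 k
    · have hk' : -k ∉ Λ := by
        intro h
        apply hk
        have := hneg _ h
        rwa [neg_neg] at this
      rw [galk_sq_not_mem _ hk, galk_sq_not_mem _ hk', cj_zero]
  · refine summable_of_ne_finset_zero (s := Λ) fun k hk => ?_
    rw [galk_sq_not_mem _ hk]
    simp

theorem galk_sum_cs {Λ : Finset (K d)} {z r : Sq d} (hz : IsV z) (hr : IsV r) :
    ∑ k ∈ Λ, nk k ^ 2 * (inner ℂ (z k) (-(r k))).re ≤ n1 z * n1 r := by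
  have h1 : ∑ k ∈ Λ, nk k ^ 2 * (inner ℂ (z k) (-(r k))).re ≤
      ∑ k ∈ Λ, (nk k * ‖z k‖) * (nk k * ‖r k‖) := by
    refine Finset.sum_le_sum fun k _ => ?_
    have h2 : (inner ℂ (z k) (-(r k))).re ≤ ‖z k‖ * ‖r k‖ := by
      calc (inner ℂ (z k) (-(r k))).re ≤ ‖inner ℂ (z k) (-(r k))‖ := Complex.re_le_norm _
        _ ≤ ‖z k‖ * ‖-(r k)‖ := norm_inner_le_norm _ _
        _ = _ := by rw [norm_neg]
    calc nk k ^ 2 * (inner ℂ (z k) (-(r k))).re ≤ nk k ^ 2 * (‖z k‖ * ‖r k‖) := by gcongr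
      _ = _ := by ring
  refine h1.trans ?_
  refine (Real.sum_mul_le_sqrt_mul_sqrt Λ _ _).trans ?_
  have h3 : ∀ {u : Sq d}, IsV u → Real.sqrt (∑ k ∈ Λ, (nk k * ‖u k‖) ^ 2) ≤ n1 u := by
    intro u hu
    apply Real.sqrt_le_iff.2
    refine ⟨n1_nonneg u, ?_⟩
    have := sum_le_n1_sq hu Λ
    simpa [mul_pow] using this
  exact mul_le_mul (h3 hz) (h3 hr) (Real.sqrt_nonneg _) (n1_nonneg z)

theorem galk_sum_sq_le {ι : Type*} (s : Finset ι) (f : ι → ℝ) (hf : ∀ i ∈ s, 0 ≤ f i) :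
    ∑ i ∈ s, f i ^ 2 ≤ (∑ i ∈ s, f i) ^ 2 := by
  rw [sq (∑ i ∈ s, f i), Finset.sum_mul]
  refine Finset.sum_le_sum fun i hi => ?_
  rw [sq]
  exact mul_le_mul_of_nonneg_left (Finset.single_le_sum hf hi) (hf i hi)

theorem galk_pl (Λ : Finset (K d)) (k : K d) :
    ∃ pl : galk_H Λ →L[ℝ] Cv d, ∀ x, pl x = galk_sq Λ (x : GalkX Λ) k := by
  let f : galk_H Λ →ₗ[ℝ] Cv d :=
    { toFun := fun x => galk_sq Λ (x : GalkX Λ) k
      map_add' := fun x y => congrFun (galk_sq_add Λ (x : GalkX Λ) (y : GalkX Λ)) k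
      map_smul' := fun t x => congrFun (galk_sq_smul Λ t (x : GalkX Λ)) k }
  exact ⟨LinearMap.toContinuousLinearMap f, fun x => rfl⟩

theorem galk_int {H E : Type*} [NormedAddCommGroup H] [InnerProductSpace ℝ H]
    [FiniteDimensional ℝ H] [NormedAddCommGroup E] [NormedSpace ℝ E] [CompleteSpace E]
    (pl : H →L[ℝ] E) {f : ℝ → H} {z : ℝ → H} {x₀ : H} {t : ℝ}
    (h : IntervalIntegrable f volume 0 t) (hz : z t = x₀ + ∫ s in (0 : ℝ)..t, f s) :
    pl (z t) = pl x₀ + ∫ s in (0 : ℝ)..t, pl (f s) := by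
  have : CompleteSpace H := FiniteDimensional.complete ℝ H
  rw [hz, map_add, ← pl.intervalIntegral_comp_comm h]

theorem galk_norm_le_sum {Λ : Finset (K d)} (x : GalkX Λ) : ‖x‖ ≤ ∑ k : Λ, ‖x k‖ := by
  rw [PiLp.norm_eq_of_L2]
  apply Real.sqrt_le_iff.2
  refine ⟨Finset.sum_nonneg fun _ _ => norm_nonneg _, ?_⟩
  exact galk_sum_sq_le Finset.univ _ fun _ _ => norm_nonneg _

theorem galerkin (hd : d = 2 ∨ d = 3) {ν : ℝ} (hν : 0 < ν) (m : Fin d → ℝ) :
    ∃ θ₀ > 0, ∀ (T g ρ M : ℝ), 0 ≤ T → 0 ≤ g → 0 ≤ ρ → ∀ (U r : ℝ → Sq d),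
      (∀ t ∈ Icc (0 : ℝ) T, IsV (U t) ∧ n1 (U t) ≤ M) →
      (∀ k, ContinuousOn (fun t => U t k) (Icc (0 : ℝ) T)) →
      (∀ t ∈ Icc (0 : ℝ) T, IsV (r t) ∧ n1 (r t) ≤ ρ) →
      (∀ k, ContinuousOn (fun t => r t k) (Icc (0 : ℝ) T)) →
      (∀ t ∈ Icc (0 : ℝ) T, ∀ z, IsV z → FS z →
        |Tri (U t) z z + Tri z (U t) z| ≤ ν / 4 * n2 z ^ 2 + g * n1 z ^ 2) →
      ∀ (R : ℝ) (z₀ : Sq d), IsV z₀ → Real.exp (g * T) * (n1 z₀ + ρ * T) < θ₀ →
      ∃ z : ℝ → Sq d, z 0 = tr (bx d R) z₀ ∧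
        (∀ t ∈ Icc (0 : ℝ) T, IsV (z t) ∧ ∀ k ∉ bx d R, z t k = 0) ∧
        (∀ k, ContinuousOn (fun t => z t k) (Icc (0 : ℝ) T)) ∧
        (∀ k ∈ bx d R, ∀ t ∈ Icc (0 : ℝ) T, z t k = z 0 k + ∫ s in (0 : ℝ)..t,
          (-(mu ν m k • z s k) - Lk (U s) (z s) k - Bk (z s) (z s) k - r s k)) ∧
        ∀ t ∈ Icc (0 : ℝ) T, n1 (z t) ≤ Real.exp (g * t) * (n1 z₀ + ρ * t) := by
  obtain ⟨C, hC, hcub⟩ := tri_cubic (d := d) hd
  refine ⟨3 * ν / (4 * C), by positivity, ?_⟩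
  set θ₀ : ℝ := 3 * ν / (4 * C) with hθ₀
  have hθpos : 0 < θ₀ := by positivity
  intro T g ρ M hT hg hρ U r hU hUc hr hrc htri R z₀ hz₀ hsmall
  set Λ : Finset (K d) := (finite_bx (d := d) R).toFinset with hΛd
  have hΛ : ∀ k, k ∈ Λ ↔ k ∈ bx d R := fun k => Set.Finite.mem_toFinset _
  have h0 : (0 : K d) ∉ Λ := by
    rw [hΛ]
    intro h
    exact h.1 rfl
  -- clamping of time
  set cl : ℝ → ℝ := fun t => max 0 (min T t) with hcl
  have hcl_mem : ∀ t, cl t ∈ Icc (0 : ℝ) T := fun t =>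
    ⟨le_max_left _ _, max_le hT (min_le_left _ _)⟩
  have hcl_eq : ∀ t ∈ Icc (0 : ℝ) T, cl t = t := by
    intro t ht
    simp only [hcl]
    rw [min_eq_right ht.2, max_eq_right ht.1]
  have hM : 0 ≤ M := (n1_nonneg _).trans (hU 0 ⟨le_rfl, hT⟩).2
  -- the vector field
  obtain ⟨F, hF⟩ : ∃ F : ℝ → galk_H Λ → galk_H Λ, ∀ t x, ((F t x : galk_H Λ) : GalkX Λ) =
      galk_emb Λ (galk_G ν m (U (cl t)) (r (cl t)) (galk_sq Λ (x : GalkX Λ))) :=
    ⟨fun t x => ⟨galk_emb Λ (galk_G ν m (U (cl t)) (r (cl t)) (galk_sq Λ (x : GalkX Λ))),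
      galk_isV_of hΛ (galk_G_dv ν m (hr _ (hcl_mem t)).1 x.2)
        (galk_G_sy ν m (hU _ (hcl_mem t)).1 (hr _ (hcl_mem t)).1 x.2)⟩, fun _ _ => rfl⟩
  have hFk : ∀ (t : ℝ) (x : galk_H Λ) (k : Λ), ((F t x : galk_H Λ) : GalkX Λ) k =
      nk (k : K d) • galk_G ν m (U (cl t)) (r (cl t)) (galk_sq Λ (x : GalkX Λ)) k := by
    intro t x k
    rw [hF, galk_emb_apply]
  have hnorm : ∀ x : galk_H Λ, ‖x‖ = n1 (galk_sq Λ (x : GalkX Λ)) := by
    intro x
    rw [← galk_norm h0 x.2]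
    rfl
  -- energy inequality
  have hen : ∀ t ∈ Icc (0 : ℝ) T, ∀ x ∈ Metric.closedBall (0 : galk_H Λ) θ₀,
      inner ℝ x (F t x) ≤ g * ‖x‖ ^ 2 + ρ * ‖x‖ := by
    intro t ht x hx
    rw [mem_closedBall_zero_iff, hnorm] at hx
    have hzV : IsV (galk_sq Λ (x : GalkX Λ)) := x.2
    have hzF : FS (galk_sq Λ (x : GalkX Λ)) := galk_fs _
    have hclt := hcl_eq t ht
    have e1 : inner ℝ x (F t x) = inner ℝ (x : GalkX Λ)
        (galk_emb Λ (galk_G ν m (U t) (r t) (galk_sq Λ (x : GalkX Λ)))) := by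
      rw [Submodule.coe_inner, hF, hclt]
    rw [e1, galk_inner_eq h0, hnorm]
    set z : Sq d := galk_sq Λ (x : GalkX Λ) with hz
    have hz0 : ∀ k, k ∉ Λ → z k = 0 := fun k hk => galk_sq_not_mem _ hk
    have htriS : ∀ a w : Sq d, Tri a w z = ∑ k ∈ Λ, nk k ^ 2 * (inner ℂ (z k) (Bk a w k)).re := by
      intro a w
      unfold Tri
      refine tsum_eq_sum fun k hk => ?_
      rw [hz0 k hk, inner_zero_left]
      simp
    have hn2 : n2 z ^ 2 = ∑ k ∈ Λ, nk k ^ 4 * ‖z k‖ ^ 2 := by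
      have h1 : ∑' k, nk k ^ 4 * ‖z k‖ ^ 2 = ∑ k ∈ Λ, nk k ^ 4 * ‖z k‖ ^ 2 :=
        tsum_eq_sum fun k hk => by rw [hz0 k hk]; simp
      rw [n2, h1, Real.sq_sqrt]
      exact Finset.sum_nonneg fun k _ => by
        have := nk_nonneg k
        positivity
    have e2 : ∑ k ∈ Λ, nk k ^ 2 * (inner ℂ (z k) (galk_G ν m (U t) (r t) z k)).re =
        -ν * n2 z ^ 2 - (Tri (U t) z z + Tri z (U t) z) - Tri z z z +
          ∑ k ∈ Λ, nk k ^ 2 * (inner ℂ (z k) (-(r t k))).re := by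
      rw [hn2, htriS, htriS, htriS, ← Finset.sum_add_distrib, Finset.mul_sum,
        ← Finset.sum_sub_distrib, ← Finset.sum_sub_distrib, ← Finset.sum_add_distrib]
      refine Finset.sum_congr rfl fun k _ => ?_
      have e3 : galk_G ν m (U t) (r t) z k =
          -(mu ν m k • z k) - (Bk (U t) z k + Bk z (U t) k) - Bk z z k - r t k := rfl
      have e4 : (inner ℂ (z k) (-(mu ν m k • z k))).re = -(ν * nk k ^ 2) * ‖z k‖ ^ 2 := by
        rw [inner_neg_right, inner_smul_right, inner_self_eq_norm_sq_to_K]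
        have : (mu ν m k * (‖z k‖ : ℂ) ^ 2).re = (mu ν m k).re * ‖z k‖ ^ 2 := by
          rw [← Complex.ofReal_pow, Complex.re_mul_ofReal]
        rw [Complex.neg_re]
        have h5 : ((‖z k‖ : ℂ)) = ((RCLike.ofReal ‖z k‖ : ℂ)) := rfl
        rw [← h5, this, mu_re]
        ring
      rw [e3, inner_sub_right, inner_sub_right, inner_sub_right, inner_add_right, inner_neg_right]
      rw [inner_neg_right] at e4
      simp only [Complex.sub_re, Complex.add_re, inner_neg_right, Complex.neg_re] at e4 ⊢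
      rw [e4]
      ring
    rw [e2]
    have b1 := htri t ht z hzV hzF
    have b2 := hcub z hzV hzF
    have b3 := galk_sum_cs (Λ := Λ) hzV (hr t ht).1
    have b4 : n1 z * n1 (r t) ≤ n1 z * ρ := by
      have := (hr t ht).2
      have h6 := n1_nonneg z
      gcongr
    have b5 : C * n1 z * n2 z ^ 2 ≤ 3 * ν / 4 * n2 z ^ 2 := by
      have h7 : C * n1 z ≤ 3 * ν / 4 := by
        calc C * n1 z ≤ C * θ₀ := by gcongr
          _ = 3 * ν / 4 := by rw [hθ₀]; field_simp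
      gcongr
    have b6 := (abs_le.1 b1).1
    have b7 := (abs_le.1 b2).1
    nlinarith
  -- Lipschitz
  set L : ℝ := ∑ k : Λ, nk (k : K d) * (‖mu ν m k‖ + nk (k : K d) * (2 * M + 2 * θ₀)) with hLd
  have hL0 : 0 ≤ L := by
    refine Finset.sum_nonneg fun k _ => ?_
    have := nk_nonneg (k : K d)
    positivity
  have hLip : ∀ t ∈ Icc (0 : ℝ) T,
      LipschitzOnWith ⟨L, hL0⟩ (F t) (Metric.closedBall (0 : galk_H Λ) θ₀) := by
    intro t ht
    apply LipschitzOnWith.of_dist_le_mul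
    intro x hx y hy
    rw [mem_closedBall_zero_iff, hnorm] at hx hy
    rw [dist_eq_norm, dist_eq_norm, hnorm (x - y)]
    have hxV : IsV (galk_sq Λ (x : GalkX Λ)) := x.2
    have hyV : IsV (galk_sq Λ (y : GalkX Λ)) := y.2
    have e0 : galk_sq Λ ((x - y : galk_H Λ) : GalkX Λ) =
        galk_sq Λ (x : GalkX Λ) - galk_sq Λ (y : GalkX Λ) := by
      rw [Submodule.coe_sub, galk_sq_sub]
    rw [e0]
    set z : Sq d := galk_sq Λ (x : GalkX Λ) with hz
    set w : Sq d := galk_sq Λ (y : GalkX Λ) with hw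
    have hzwV : IsV (z - w) := hxV.sub hyV
    have hn0 := n1_nonneg (z - w)
    have hstep : ∀ k : Λ, ‖((F t x - F t y : galk_H Λ) : GalkX Λ) k‖ ≤
        nk (k : K d) * (‖mu ν m k‖ + nk (k : K d) * (2 * M + 2 * θ₀)) * n1 (z - w) := by
      intro k
      have hUV := (hU t ht).1
      have e1 : ((F t x - F t y : galk_H Λ) : GalkX Λ) k =
          nk (k : K d) • (-(mu ν m k • (z - w) k) - (Bk (U t) (z - w) k + Bk (z - w) (U t) k)
            - (Bk (z - w) z k + Bk w (z - w) k)) := by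
        have e2 : ((F t x - F t y : galk_H Λ) : GalkX Λ) k =
            ((F t x : galk_H Λ) : GalkX Λ) k - ((F t y : galk_H Λ) : GalkX Λ) k := rfl
        rw [e2, hFk, hFk, hcl_eq t ht, ← smul_sub]
        congr 1
        have e3 : galk_G ν m (U t) (r t) z k - galk_G ν m (U t) (r t) w k =
            -(mu ν m k • z k - mu ν m k • w k) - ((Bk (U t) z k + Bk z (U t) k)
              - (Bk (U t) w k + Bk w (U t) k)) - (Bk z z k - Bk w w k) := by
          have e4 : ∀ z : Sq d, galk_G ν m (U t) (r t) z k =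
            -(mu ν m k • z k) - (Bk (U t) z k + Bk z (U t) k) - Bk z z k - r t k := fun _ => rfl
          rw [e4, e4]
          abel
        have e5 : Bk (U t) (z - w) k = Bk (U t) z k - Bk (U t) w k :=
          congrFun (bk_sub_right hUV hxV hyV) k
        have e6 : Bk (z - w) (U t) k = Bk z (U t) k - Bk w (U t) k :=
          congrFun (bk_sub_left hxV hyV hUV) k
        have e7 : Bk (z - w) z k = Bk z z k - Bk w z k := congrFun (bk_sub_left hxV hyV hxV) k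
        have e8 : Bk w (z - w) k = Bk w z k - Bk w w k := congrFun (bk_sub_right hyV hxV hyV) k
        rw [e3, e5, e6, e7, e8]
        have e9 : (z - w) k = z k - w k := rfl
        rw [e9, smul_sub]
        abel
      rw [e1, norm_smul, Real.norm_of_nonneg (nk_nonneg _), mul_assoc]
      refine mul_le_mul_of_nonneg_left ?_ (nk_nonneg _)
      have a1 : ‖mu ν m k • (z - w) k‖ ≤ ‖mu ν m k‖ * n1 (z - w) := by
        rw [norm_smul]
        exact mul_le_mul_of_nonneg_left (norm_coef_le hzwV _) (norm_nonneg _)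
      have hk0 := nk_nonneg (k : K d)
      have a2 : ‖Bk (U t) (z - w) k‖ ≤ nk (k : K d) * M * n1 (z - w) := by
        refine (norm_bk_le hUV hzwV _).trans ?_
        have := (hU t ht).2
        gcongr
      have a3 : ‖Bk (z - w) (U t) k‖ ≤ nk (k : K d) * M * n1 (z - w) := by
        refine (norm_bk_le hzwV hUV _).trans ?_
        have := (hU t ht).2
        calc nk (k : K d) * n1 (z - w) * n1 (U t) ≤ nk (k : K d) * n1 (z - w) * M := by gcongr
          _ = _ := by ring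
      have a4 : ‖Bk (z - w) z k‖ ≤ nk (k : K d) * θ₀ * n1 (z - w) := by
        refine (norm_bk_le hzwV hxV _).trans ?_
        calc nk (k : K d) * n1 (z - w) * n1 z ≤ nk (k : K d) * n1 (z - w) * θ₀ := by gcongr
          _ = _ := by ring
      have a5 : ‖Bk w (z - w) k‖ ≤ nk (k : K d) * θ₀ * n1 (z - w) := by
        refine (norm_bk_le hyV hzwV _).trans ?_
        gcongr
      have a6 : ‖-(mu ν m k • (z - w) k) - (Bk (U t) (z - w) k + Bk (z - w) (U t) k)
            - (Bk (z - w) z k + Bk w (z - w) k)‖ ≤ ‖mu ν m k • (z - w) k‖ +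
            (‖Bk (U t) (z - w) k‖ + ‖Bk (z - w) (U t) k‖) +
            (‖Bk (z - w) z k‖ + ‖Bk w (z - w) k‖) := by
        refine (norm_sub_le _ _).trans (add_le_add ((norm_sub_le _ _).trans
          (add_le_add ?_ (norm_add_le _ _))) (norm_add_le _ _))
        rw [norm_neg]
      refine a6.trans ?_
      nlinarith
    have h8 : ‖(F t x - F t y : galk_H Λ)‖ ≤ ∑ k : Λ, ‖((F t x - F t y : galk_H Λ) : GalkX Λ) k‖ :=
      galk_norm_le_sum _
    refine h8.trans ?_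
    show _ ≤ L * n1 (z - w)
    rw [hLd, Finset.sum_mul]
    exact Finset.sum_le_sum fun k _ => hstep k
  -- continuity
  have hcont : ContinuousOn (Function.uncurry F)
      (Icc (0 : ℝ) T ×ˢ Metric.closedBall (0 : galk_H Λ) θ₀) := by
    have hS : ∀ p ∈ Icc (0 : ℝ) T ×ˢ Metric.closedBall (0 : galk_H Λ) θ₀,
        IsV (U p.1) ∧ n1 (U p.1) ≤ max M θ₀ := fun p hp =>
      ⟨(hU _ hp.1).1, (hU _ hp.1).2.trans (le_max_left _ _)⟩
    have hS2 : ∀ p ∈ Icc (0 : ℝ) T ×ˢ Metric.closedBall (0 : galk_H Λ) θ₀,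
        IsV (galk_sq Λ (p.2 : GalkX Λ)) ∧ n1 (galk_sq Λ (p.2 : GalkX Λ)) ≤ max M θ₀ := by
      intro p hp
      refine ⟨p.2.2, ?_⟩
      have := hp.2
      rw [mem_closedBall_zero_iff, hnorm] at this
      exact this.trans (le_max_right _ _)
    have hval : Continuous fun x : galk_H Λ => (x : GalkX Λ) := continuous_subtype_val
    have hsqc : ∀ k, Continuous fun x : galk_H Λ => galk_sq Λ (x : GalkX Λ) k := by
      intro k
      obtain ⟨pl, hpl⟩ := galk_pl Λ k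
      have e : (fun x : galk_H Λ => galk_sq Λ (x : GalkX Λ) k) = fun x => pl x := by
        funext x; rw [hpl]
      rw [e]
      exact pl.continuous
    have hcoord : ∀ k : Λ, ContinuousOn (fun p : ℝ × galk_H Λ =>
        ((Function.uncurry F p : galk_H Λ) : GalkX Λ) k)
        (Icc (0 : ℝ) T ×ˢ Metric.closedBall (0 : galk_H Λ) θ₀) := by
      intro k
      have e : ∀ p ∈ Icc (0 : ℝ) T ×ˢ Metric.closedBall (0 : galk_H Λ) θ₀,
          ((Function.uncurry F p : galk_H Λ) : GalkX Λ) k = nk (k : K d) •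
          (-(mu ν m k • galk_sq Λ (p.2 : GalkX Λ) k)
            - (Bk (U p.1) (galk_sq Λ (p.2 : GalkX Λ)) k + Bk (galk_sq Λ (p.2 : GalkX Λ)) (U p.1) k)
            - Bk (galk_sq Λ (p.2 : GalkX Λ)) (galk_sq Λ (p.2 : GalkX Λ)) k - r p.1 k) := by
        intro p hp
        have := hFk p.1 p.2 k
        rw [hcl_eq _ hp.1] at this
        exact this
      refine ContinuousOn.congr ?_ e
      intro p hp
      have hne : (𝓝[Icc (0 : ℝ) T ×ˢ Metric.closedBall (0 : galk_H Λ) θ₀] p).NeBot :=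
        mem_closure_iff_nhdsWithin_neBot.1 (subset_closure hp)
      have hself : ∀ᶠ q in 𝓝[Icc (0 : ℝ) T ×ˢ Metric.closedBall (0 : galk_H Λ) θ₀] p,
          q ∈ Icc (0 : ℝ) T ×ˢ Metric.closedBall (0 : galk_H Λ) θ₀ := self_mem_nhdsWithin
      have hUt : ∀ k, Tendsto (fun q : ℝ × galk_H Λ => U q.1 k)
          (𝓝[Icc (0 : ℝ) T ×ˢ Metric.closedBall (0 : galk_H Λ) θ₀] p) (𝓝 (U p.1 k)) := by
        intro k
        have h1 : ContinuousOn (fun q : ℝ × galk_H Λ => U q.1 k)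
            (Icc (0 : ℝ) T ×ˢ Metric.closedBall (0 : galk_H Λ) θ₀) :=
          (hUc k).comp continuousOn_fst fun q hq => hq.1
        exact h1 p hp
      have hrt : ∀ k, Tendsto (fun q : ℝ × galk_H Λ => r q.1 k)
          (𝓝[Icc (0 : ℝ) T ×ˢ Metric.closedBall (0 : galk_H Λ) θ₀] p) (𝓝 (r p.1 k)) := by
        intro k
        have h1 : ContinuousOn (fun q : ℝ × galk_H Λ => r q.1 k)
            (Icc (0 : ℝ) T ×ˢ Metric.closedBall (0 : galk_H Λ) θ₀) :=
          (hrc k).comp continuousOn_fst fun q hq => hq.1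
        exact h1 p hp
      have hzt : ∀ k, Tendsto (fun q : ℝ × galk_H Λ => galk_sq Λ (q.2 : GalkX Λ) k)
          (𝓝[Icc (0 : ℝ) T ×ˢ Metric.closedBall (0 : galk_H Λ) θ₀] p)
          (𝓝 (galk_sq Λ (p.2 : GalkX Λ) k)) := by
        intro k
        have h1 : Continuous fun q : ℝ × galk_H Λ => galk_sq Λ (q.2 : GalkX Λ) k :=
          (hsqc k).comp continuous_snd
        exact (h1.tendsto p).mono_left nhdsWithin_le_nhds
      have hU' := hself.mono hS
      have hz' := hself.mono hS2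
      have t1 := bk_tendsto hU' hz' hUt hzt k
      have t2 := bk_tendsto hz' hU' hzt hUt k
      have t3 := bk_tendsto hz' hz' hzt hzt k
      exact ((((((hzt k).const_smul (mu ν m k)).neg).sub (t1.add t2)).sub t3).sub
        (hrt k)).const_smul _
    rw [Topology.IsInducing.subtypeVal.continuousOn_iff]
    have hpi : ContinuousOn (fun (p : ℝ × galk_H Λ) (k : Λ) =>
        ((Function.uncurry F p : galk_H Λ) : GalkX Λ) k)
        (Icc (0 : ℝ) T ×ˢ Metric.closedBall (0 : galk_H Λ) θ₀) := continuousOn_pi.2 hcoord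
    exact (PiLp.continuous_toLp 2 (fun _ : Λ => Cv d)).comp_continuousOn hpi
  -- initial value
  have hx₀V : IsV (galk_sq Λ (galk_emb Λ z₀)) := galk_isV_of hΛ hz₀.dv hz₀.sy
  have hsq₀ : galk_sq Λ (galk_emb Λ z₀) = tr (bx d R) z₀ := by
    funext k
    by_cases hk : k ∈ Λ
    · rw [galk_sq_emb h0 _ hk, tr_apply_mem ((hΛ k).1 hk)]
    · rw [galk_sq_not_mem _ hk, tr_apply_not_mem (fun h => hk ((hΛ k).2 h))]
  set x₀ : galk_H Λ := ⟨galk_emb Λ z₀, hx₀V⟩ with hx₀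
  have hn₀ : ‖x₀‖ ≤ n1 z₀ := by
    rw [hnorm]
    show n1 (galk_sq Λ (galk_emb Λ z₀)) ≤ _
    rw [hsq₀]
    exact (tr_isV hz₀ fun k hk => bx_neg hk).2
  have hsmall' : Real.exp (g * T) * (‖x₀‖ + ρ * T) < θ₀ := by
    refine lt_of_le_of_lt ?_ hsmall
    gcongr
  obtain ⟨ζ, hζ0, hζc, _, hζi, hζn⟩ := ode_energy hT hg hρ F hcont ⟨L, hL0⟩ hLip hen x₀ hsmall'
  refine ⟨fun t => galk_sq Λ (ζ t : GalkX Λ), ?_, ?_, ?_, ?_, ?_⟩
  · show galk_sq Λ (ζ 0 : GalkX Λ) = _
    rw [hζ0]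
    exact hsq₀
  · intro t _
    refine ⟨(ζ t).2, fun k hk => galk_sq_not_mem _ fun h => hk ((hΛ k).1 h)⟩
  · intro k
    obtain ⟨pl, hpl⟩ := galk_pl Λ k
    have e : (fun t => galk_sq Λ (ζ t : GalkX Λ) k) = fun t => pl (ζ t) := by
      funext t; rw [hpl]
    show ContinuousOn (fun t => galk_sq Λ (ζ t : GalkX Λ) k) _
    rw [e]
    exact pl.continuous.comp_continuousOn hζc
  · intro k hk t ht
    have hkΛ : k ∈ Λ := (hΛ k).2 hk
    obtain ⟨pl, hpl⟩ := galk_pl Λ k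
    have hFz : ContinuousOn (fun s => F s (ζ s)) (Icc 0 T) := by
      have h1 : ContinuousOn (fun s => (s, ζ s)) (Icc 0 T) := continuousOn_id.prodMk hζc
      refine hcont.comp h1 fun s hs => ⟨hs, ?_⟩
      rw [mem_closedBall_zero_iff]
      refine (hζn s hs).trans (le_trans ?_ hsmall'.le)
      have h2 : Real.exp (g * s) ≤ Real.exp (g * T) := by
        apply Real.exp_le_exp.2
        exact mul_le_mul_of_nonneg_left hs.2 hg
      have h3 : ‖x₀‖ + ρ * s ≤ ‖x₀‖ + ρ * T := by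
        have := mul_le_mul_of_nonneg_left hs.2 hρ
        linarith
      have h4 : 0 ≤ ‖x₀‖ + ρ * s := by
        have := mul_nonneg hρ hs.1
        positivity
      exact mul_le_mul h2 h3 h4 (Real.exp_pos _).le
    have hint : IntervalIntegrable (fun s => F s (ζ s)) volume 0 t :=
      (hFz.mono (Icc_subset_Icc_right ht.2)).intervalIntegrable_of_Icc ht.1
    have h1 := galk_int pl hint (hζi t ht)
    rw [hpl] at h1
    show galk_sq Λ (ζ t : GalkX Λ) k = galk_sq Λ (ζ 0 : GalkX Λ) k + _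
    rw [h1, hζ0, hpl]
    congr 1
    refine intervalIntegral.integral_congr fun s hs => ?_
    rw [uIcc_of_le ht.1] at hs
    have hs' : s ∈ Icc (0 : ℝ) T := ⟨hs.1, hs.2.trans ht.2⟩
    show pl (F s (ζ s)) = _
    rw [hpl, hF, galk_sq_emb h0 _ hkΛ, hcl_eq s hs']
    rfl
  · intro t ht
    show n1 (galk_sq Λ (ζ t : GalkX Λ)) ≤ _
    rw [← hnorm]
    refine (hζn t ht).trans ?_
    gcongr

end NSC
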