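import Pool.Agent.Work.MP_57e339_an.GlobA
import Pool.Agent.Work.MP_57e339_an.Box

/-! Module Glob: conclusion of the global step. -/

open MeasureTheory Set Filter Topology
open scoped BigOperators
noncomputable section
namespace NSC
variable {d : ℕ}

/-- the field `f e_p` -/
def globE (p : Fin d) (f : Rv d → ℝ) : VF d := fun i x => if i = p then f x else 0

theorem glob_TF_E {f : Rv d → ℝ} (hf : ContDiff ℝ (⊤ : ℕ∞) f) (hc : HasCompactSupport f)
    (p : Fin d) : TF (globE p f) := by
  intro i
  by_cases hi : i = p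
  · have e : globE p f i = f := by
      funext x
      simp [globE, hi]
    rw [e]
    exact ⟨hf, hc⟩
  · have e : globE p f i = fun _ => 0 := by
      funext x
      simp [globE, hi]
    rw [e]
    exact ⟨contDiff_const, HasCompactSupport.zero⟩

/-- conclusion of the global step -/
theorem glob (hd : d = 2 ∨ d = 3) {𝒟 : Set (Sq d)} (h𝒟 : Adm 𝒟) {χ : Rv d → ℝ}
    (hχ : ContDiff ℝ (⊤ : ℕ∞) χ) (hχc : HasCompactSupport χ) (hχ1 : ∫ x, χ x = 1)
    (hχs : ∀ x ∈ tsupport χ, PP 𝒟 χ x) : ∀ v, IsV v → v ∈ 𝒟 := by
  have hPP := glob_PP hd h𝒟 hχ hχc hχ1 hχs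
  have hmz : ∀ β : VF d, TF β → pr (mz χ β) ∈ 𝒟 := fun β hβ =>
    PP_glue hd h𝒟 hχ hχc hβ fun i x _ => hPP x
  have hχE : ∀ p, TF (globE p χ) := glob_TF_E hχ hχc
  -- mz as a combination
  have hdec : ∀ β : VF d, TF β → pr (mz χ β) = pr β - ∑ p, (∫ y, β p y) • pr (globE p χ) := by
    intro β hβ
    have h1 : mz χ β = fun i x => β i x - (fun i x => ∑ p, (fun p i x => (∫ y, β p y) *
        globE p χ i x) p i x) i x := by
      funext i x
      simp [mz, globE]
    have hT : ∀ p, TF (fun i x => (∫ y, β p y) * globE p χ i x) := fun p =>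
      TF.const_mul (hχE p) (fun _ => ∫ y, β p y)
    have hTs : TFN 0 (fun i x => ∑ p, (fun p i x => (∫ y, β p y) * globE p χ i x) p i x) := by
      intro i
      constructor
      · apply ContDiff.sum
        intro p _
        exact ((hT p).tfn 0 i).1
      · have h1 : ∀ s, HasCompactSupport (fun x => (∫ y, β s y) * globE s χ i x) :=
          fun s => ((hT s) i).2
        apply HasCompactSupport.of_support_subset_isCompact
          (K := ⋃ s, tsupport (fun x => (∫ y, β s y) * globE s χ i x)) (isCompact_iUnion h1)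
        intro x hx
        by_contra hcon
        apply hx
        apply Finset.sum_eq_zero
        intro s _
        have : x ∉ tsupport (fun x => (∫ y, β s y) * globE s χ i x) :=
          fun h => hcon (Set.mem_iUnion.2 ⟨s, h⟩)
        exact image_eq_zero_of_notMem_tsupport
          (f := fun x => (∫ y, β s y) * globE s χ i x) this
    rw [h1, pr_sub (hβ.tfn 0) hTs, pr_sum Finset.univ fun p _ => (hT p).tfn 0]
    congr 1
    apply Finset.sum_congr rfl
    intro p _
    exact pr_smul _ _
  obtain ⟨φ, hφ, hφc, hφ0, hφk⟩ := exists_box d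
  have hφint : (∫ x, φ x) ≠ 0 := by
    intro h
    rw [fc_zero_index, h] at hφ0
    simp at hφ0
  have hprφ : ∀ p, pr (globE p φ) = 0 := by
    intro p
    funext k
    by_cases hk : k = 0
    · subst hk
      simp [pr, Pk]
    · have : fcv (globE p φ) k = 0 := by
        unfold fcv
        ext i
        by_cases hi : i = p
        · have e : globE p φ i = φ := by
            funext x
            simp [globE, hi]
          simp [e, hφk k hk]
        · have e : globE p φ i = fun _ => 0 := by
            funext x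
            simp [globE, hi]
          simp [e, fc]
      show Pk k (fcv (globE p φ) k) = 0
      rw [this]
      unfold Pk
      rw [if_neg hk, dot_zero]
      simp
  have hχin : ∀ p, pr (globE p χ) ∈ 𝒟 := by
    intro p
    have h1 := hmz (globE p φ) (glob_TF_E hφ hφc p)
    rw [hdec _ (glob_TF_E hφ hφc p), hprφ, zero_sub] at h1
    have h2 : (∑ q, (∫ y, globE p φ q y) • pr (globE q χ)) = (∫ x, φ x) • pr (globE p χ) := by
      rw [Finset.sum_eq_single p]
      · congr 1
        simp [globE]
      · intro q _ hq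
        simp [globE, hq]
      · intro h
        exact absurd (Finset.mem_univ _) h
    rw [h2] at h1
    have h3 := h𝒟.smul (-(∫ x, φ x)⁻¹) _ h1
    rw [smul_neg, neg_smul, neg_neg, smul_smul, inv_mul_cancel₀ hφint, one_smul] at h3
    exact h3
  have hall : ∀ β : VF d, TF β → pr β ∈ 𝒟 := by
    intro β hβ
    have h1 := hmz β hβ
    rw [hdec β hβ] at h1
    have h2 : (∑ p, (∫ y, β p y) • pr (globE p χ)) ∈ 𝒟 := by
      classical
      have : ∀ s : Finset (Fin d), (∑ p ∈ s, (∫ y, β p y) • pr (globE p χ)) ∈ 𝒟 := by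
        intro s
        induction s using Finset.induction_on with
        | empty => simpa using h𝒟.zero
        | insert a s ha ih =>
          rw [Finset.sum_insert ha]
          exact h𝒟.add _ (h𝒟.smul _ _ (hχin a)) _ ih
      exact this _
    have h3 := h𝒟.add _ h1 _ h2
    rwa [sub_add_cancel] at h3
  intro v hv
  apply h𝒟.closed v hv
  intro ε hε
  obtain ⟨R₀, hR⟩ := tr_close hv hε
  refine ⟨tr (bx d R₀) v, ?_, ?_⟩
  · obtain ⟨β, hβ, hβe⟩ := dense_pr hd (tr_isV hv (s := bx d R₀) fun k hk => bx_neg hk).1
      (tr_fs (R := R₀) v)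
    rw [← hβe]
    exact hall β hβ
  · rw [n1_sub_comm]
    exact hR R₀ le_rfl

end NSC
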