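import Pool.Agent.Work.MP_57e339_an.Push

/-! Module GlobA: from a small ball to the whole torus. -/

open MeasureTheory Set Filter Topology
open scoped BigOperators
noncomputable section
namespace NSC
variable {d : ℕ}

theorem glob_PP (hd : d = 2 ∨ d = 3) {𝒟 : Set (Sq d)} (h𝒟 : Adm 𝒟) {χ : Rv d → ℝ}
    (hχ : ContDiff ℝ (⊤ : ℕ∞) χ) (hχc : HasCompactSupport χ) (hχ1 : ∫ x, χ x = 1)
    (hχs : ∀ x ∈ tsupport χ, PP 𝒟 χ x) : ∀ x, PP 𝒟 χ x := by
  by_contra hcon
  push Not at hcon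
  obtain ⟨x₁, hx₁⟩ := hcon
  set S : Set (Rv d) := {x | ¬ PP 𝒟 χ x} with hS
  have hopen : IsOpen Sᶜ := by
    rw [Metric.isOpen_iff]
    intro x hx
    have hx' : PP 𝒟 χ x := by
      by_contra h
      exact hx h
    obtain ⟨r, hr, h⟩ := hx'
    refine ⟨r, hr, fun z hz => ?_⟩
    intro hzS
    apply hzS
    refine ⟨r - dist z x, by rw [Metric.mem_ball] at hz; linarith, fun β hβ hs => h β hβ ?_⟩
    intro i
    refine (hs i).trans ?_
    apply Metric.ball_subset_ball'
    linarith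
  have hclosed : IsClosed S := isOpen_compl_iff.1 hopen
  have hne : S.Nonempty := ⟨x₁, hx₁⟩
  obtain ⟨y, hy⟩ : ∃ y, PP 𝒟 χ y := by
    have : ∃ y, χ y ≠ 0 := by
      by_contra h
      push Not at h
      have : ∫ x, χ x = 0 := by simp [h]
      rw [this] at hχ1
      exact zero_ne_one hχ1
    obtain ⟨y, hy⟩ := this
    exact ⟨y, hχs y (subset_tsupport _ hy)⟩
  obtain ⟨x, hxS, hx⟩ := hclosed.exists_infDist_eq_dist hne y
  have hyS : y ∉ S := fun h => h hy
  have hR : 0 < dist x y := by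
    rw [dist_pos]
    rintro rfl
    exact hyS hxS
  refine hxS (push hd h𝒟 hχ hχc hχ1 hχs (y := y) (x := x) (R := dist x y) hR rfl ?_)
  intro z hz
  by_contra hzS
  have h1 : Metric.infDist y S ≤ dist y z := Metric.infDist_le_dist_of_mem hzS
  rw [Metric.mem_ball] at hz
  rw [hx, dist_comm y x, dist_comm y z] at h1
  linarith

end NSC
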