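import Pool.Agent.Work.MP_57e339_an.Inv
import Pool.Agent.Work.MP_57e339_an.CoreF

/-! Module GoodF: isotropic families give good backgrounds. -/

open MeasureTheory Set Filter Topology
open scoped BigOperators
noncomputable section
namespace NSC
variable {d : ℕ}

/-- good backgrounds with an arbitrary finite index type -/
theorem goodf_fintype {𝒟 : Set (Sq d)} {κ : Type} [Fintype κ] {abar : Sq d} (a : κ → Sq d)
    (α : κ → ℝ) (h : ∀ j, a j ∈ 𝒟 ∧ Rap (a j) ∧ 0 < α j) (hα : ∑ j, α j = 1)
    (hab : abar = ∑ j, α j • a j) (hB : (∑ j, α j • Bk (a j) (a j)) ∈ 𝒟) : Good 𝒟 abar := by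
  classical
  let e := (Fintype.equivFin κ).symm
  refine ⟨Fintype.card κ, fun j => a (e j), fun j => α (e j), fun j => h (e j), ?_, ?_, ?_⟩
  · rw [← hα]
    exact Equiv.sum_comp e α
  · rw [hab]
    exact (Equiv.sum_comp e fun j => α j • a j).symm
  · have := Equiv.sum_comp e fun j => α j • Bk (a j) (a j)
    rw [this]
    exact hB

theorem goodf_rap_smul {a : Sq d} (ha : Rap a) (t : ℝ) : Rap (t • a) :=
  fun m => ((ha m).smul t).1

theorem goodf_bk_smul (t : ℝ) (a : Sq d) : Bk (t • a) (t • a) = (t * t) • Bk a a := by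
  rw [bk_smul_left, bk_smul_right, smul_smul]

/-- scaling of a good background by a positive or negative constant -/
theorem Good.smul {𝒟 : Set (Sq d)} (h𝒟 : Adm 𝒟) {a : Sq d} (ha : Good 𝒟 a) (t : ℝ) :
    Good 𝒟 (t • a) := by
  obtain ⟨N, b, α, h, hα, hab, hB⟩ := ha
  refine ⟨N, fun j => t • b j, α, fun j => ⟨h𝒟.smul t _ (h j).1, goodf_rap_smul (h j).2.1 t,
    (h j).2.2⟩, hα, ?_, ?_⟩
  · rw [hab, Finset.smul_sum]
    apply Finset.sum_congr rfl
    intro j _
    rw [smul_comm]
  · have e : (∑ j, α j • Bk (t • b j) (t • b j)) = (t * t) • ∑ j, α j • Bk (b j) (b j) := by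
      rw [Finset.smul_sum]
      apply Finset.sum_congr rfl
      intro j _
      rw [goodf_bk_smul, smul_comm]
    rw [e]
    exact h𝒟.smul _ _ hB

theorem Good.neg {𝒟 : Set (Sq d)} (h𝒟 : Adm 𝒟) {a : Sq d} (ha : Good 𝒟 a) : Good 𝒟 (-a) := by
  have := Good.smul h𝒟 ha (-1)
  simpa using this

theorem goodf_adv {α : VF d} (h : TF α) : TF (adv α) := by
  intro i
  constructor
  · apply ContDiff.sum
    intro j _
    exact (h j).1.mul (contDiff_pd_top (h i).1 j)
  · apply HasCompactSupport.of_support_subset_isCompact (K := tsupport (α i)) (h i).2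
    intro x hx
    by_contra hcon
    apply hx
    apply Finset.sum_eq_zero
    intro j _
    rw [pd_zero_of_notMem hcon, mul_zero]

theorem good_of_iso (hd : d = 2 ∨ d = 3) {𝒟 : Set (Sq d)} (h𝒟 : Adm 𝒟) {ι : Type} [Fintype ι]
    {α : ι → VF d} {x₀ : Rv d}
    (hα : ∀ t, TF (α t) ∧ Dfree (α t) ∧ Su (α t) (Metric.ball x₀ 1))
    (hiso : ∀ i j x, pd j (fun x => ∑ t, adv (α t) i x) x = pd i (fun x => ∑ t, adv (α t) j x) x)
    (hin : ∀ t, pr (α t) ∈ 𝒟) (t : ι) : Good 𝒟 (pr (α t)) := by
  classical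
  have hTF : TF (fun i x => ∑ t, adv (α t) i x) := by
    intro i
    constructor
    · apply ContDiff.sum
      intro s _
      exact (goodf_adv (hα s).1 i).1
    · have h1 : ∀ s, HasCompactSupport (adv (α s) i) := fun s => (goodf_adv (hα s).1 i).2
      apply HasCompactSupport.of_support_subset_isCompact
        (K := ⋃ s, tsupport (adv (α s) i)) (isCompact_iUnion h1)
      intro x hx
      by_contra hcon
      apply hx
      apply Finset.sum_eq_zero
      intro s _
      have : x ∉ tsupport (adv (α s) i) := fun h => hcon (Set.mem_iUnion.2 ⟨s, h⟩)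
      exact image_eq_zero_of_notMem_tsupport this
  have h0 : (∑ s, Bk (pr (α s)) (pr (α s))) = 0 := by
    have h1 : ∀ s, Bk (pr (α s)) (pr (α s)) = pr (adv (α s)) := fun s =>
      bk_pr_local hd ((hα s).1.tfn 10) (hα s).2.1 (hα s).2.2
    rw [Finset.sum_congr rfl fun s _ => h1 s,
      ← pr_sum Finset.univ (β := fun s => adv (α s)) fun s _ => (goodf_adv (hα s).1).tfn 0]
    exact pr_curlfree (hTF.tfn 1) hiso
  obtain ⟨N, hNdef⟩ : ∃ N : ℝ, N = (Fintype.card ι : ℝ) := ⟨_, rfl⟩
  have hN : (0 : ℝ) < N := by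
    have : 0 < Fintype.card ι := Fintype.card_pos_iff.2 ⟨t⟩
    rw [hNdef]
    exact_mod_cast this
  let sg : ι × Bool → ℝ := fun p => if p.1 = t ∨ p.2 = true then 1 else -1
  have hsg : ∀ p, sg p * sg p = 1 := by
    intro p
    simp only [sg]
    split_ifs <;> norm_num
  apply goodf_fintype (κ := ι × Bool) (fun p => (N * sg p) • pr (α p.1)) (fun _ => 1 / (2 * N))
  · intro p
    refine ⟨h𝒟.smul _ _ (hin p.1), goodf_rap_smul (pr_rap hd (hα p.1).1).1 _, by positivity⟩
  · rw [Finset.sum_const, Finset.card_univ, Fintype.card_prod, Fintype.card_bool, nsmul_eq_mul]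
    push_cast
    rw [← hNdef]
    field_simp
  · rw [Fintype.sum_prod_type]
    have h2 : ∀ s, (∑ b, (1 / (2 * N)) • (N * sg (s, b)) • pr (α s)) =
        if s = t then pr (α s) else 0 := by
      intro s
      rw [Fintype.sum_bool]
      by_cases hs : s = t
      · have e1 : sg (s, true) = 1 := by simp [sg]
        have e2 : sg (s, false) = 1 := by simp [sg, hs]
        rw [e1, e2, if_pos hs, smul_smul, ← add_smul]
        have : 1 / (2 * N) * (N * 1) + 1 / (2 * N) * (N * 1) = 1 := by
          field_simp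
          norm_num
        rw [this, one_smul]
      · have e1 : sg (s, true) = 1 := by simp [sg]
        have e2 : sg (s, false) = -1 := by simp [sg, hs]
        rw [e1, e2, if_neg hs, smul_smul, smul_smul, ← add_smul]
        have : 1 / (2 * N) * (N * 1) + 1 / (2 * N) * (N * -1) = 0 := by ring
        rw [this, zero_smul]
    rw [Finset.sum_congr rfl fun s _ => h2 s]
    simp
  · have h2 : (∑ p : ι × Bool, (1 / (2 * N)) • Bk ((N * sg p) • pr (α p.1))
        ((N * sg p) • pr (α p.1))) = N • ∑ s, Bk (pr (α s)) (pr (α s)) := by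
      rw [Fintype.sum_prod_type, Finset.smul_sum]
      apply Finset.sum_congr rfl
      intro s _
      rw [Fintype.sum_bool, goodf_bk_smul, goodf_bk_smul, smul_smul, smul_smul, ← add_smul]
      congr 1
      have e1 : N * sg (s, true) * (N * sg (s, true)) = N * N := by
        rw [mul_mul_mul_comm, hsg, mul_one]
      have e2 : N * sg (s, false) * (N * sg (s, false)) = N * N := by
        rw [mul_mul_mul_comm, hsg, mul_one]
      rw [e1, e2]
      field_simp
      norm_num
    rw [h2, h0, smul_zero]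
    exact h𝒟.zero

/-- a single background whose self-interaction is in `𝒟` -/
theorem good_single {𝒟 : Set (Sq d)} {a : Sq d} (ha : a ∈ 𝒟) (hr : Rap a)
    (hb : Bk a a ∈ 𝒟) : Good 𝒟 a := by
  refine ⟨1, fun _ => a, fun _ => 1, fun _ => ⟨ha, hr, one_pos⟩, ?_, ?_, ?_⟩
  · simp
  · simp
  · simpa using hb

end NSC
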