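import Pool.Agent.Work.MP_57e339_an.Ser
import Pool.Agent.Work.MP_57e339_an.PrB

/-! Module Inv: Fourier inversion for functions supported in a small ball. -/

open MeasureTheory Set Filter Topology
open scoped BigOperators
noncomputable section
namespace NSC
variable {d : ℕ}

/-! ### The box -/

/-- the box of side `2 pi` centred at `x₀` -/
def inv_box (x₀ : Rv d) : Set (Rv d) := {x | ∀ i, |x i - x₀ i| ≤ Real.pi}

/-- `exp(-i k.x)` -/
def inv_e (k : K d) (x : Rv d) : ℂ := Complex.exp (-(Complex.I * (kx k x : ℂ)))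

theorem inv_e_cont (k : K d) : Continuous (inv_e k) := by
  unfold inv_e
  have := continuous_kx k
  fun_prop

theorem inv_norm_e (k : K d) (x : Rv d) : ‖inv_e k x‖ = 1 := by
  unfold inv_e
  rw [show -(Complex.I * (kx k x : ℂ)) = ((-kx k x : ℝ) : ℂ) * Complex.I by push_cast; ring]
  exact Complex.norm_exp_ofReal_mul_I _

theorem inv_e_add (k l : K d) (x : Rv d) : inv_e (k + l) x = inv_e k x * inv_e l x := by
  unfold inv_e
  rw [kx_add_left, ← Complex.exp_add]
  congr 1
  push_cast
  ring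

theorem inv_box_closed (x₀ : Rv d) : IsClosed (inv_box x₀) := by
  have : inv_box x₀ = ⋂ i, {x : Rv d | |x i - x₀ i| ≤ Real.pi} := by
    ext x; simp [inv_box]
  rw [this]
  apply isClosed_iInter
  intro i
  apply isClosed_le _ continuous_const
  fun_prop

theorem inv_box_compact (x₀ : Rv d) : IsCompact (inv_box x₀) := by
  refine (isCompact_closedBall x₀ (Real.sqrt (d * Real.pi ^ 2))).of_isClosed_subset
    (inv_box_closed x₀) ?_
  intro x hx
  rw [Metric.mem_closedBall, dist_eq_norm, EuclideanSpace.norm_eq]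
  apply Real.sqrt_le_sqrt
  have h2 : ∑ i, ‖(x - x₀) i‖ ^ 2 ≤ ∑ _i : Fin d, Real.pi ^ 2 := by
    apply Finset.sum_le_sum
    intro i _
    rw [Real.norm_eq_abs]
    exact pow_le_pow_left₀ (abs_nonneg _) (hx i) 2
  rw [Finset.sum_const, Finset.card_univ, Fintype.card_fin, nsmul_eq_mul] at h2
  exact h2

theorem inv_abs_le (x x₀ : Rv d) (i : Fin d) : |x i - x₀ i| ≤ ‖x - x₀‖ := by
  have := PiLp.norm_apply_le (x - x₀) i
  rw [Real.norm_eq_abs] at this
  exact this

theorem inv_ball_subset (x₀ : Rv d) : Metric.ball x₀ 2 ⊆ interior (inv_box x₀) := by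
  apply interior_maximal _ Metric.isOpen_ball
  intro x hx i
  rw [Metric.mem_ball, dist_eq_norm] at hx
  have := inv_abs_le x x₀ i
  linarith [Real.pi_gt_three]

theorem inv_one (m : ℤ) (a : ℝ) :
    (∫ t : ℝ, (Icc (a - Real.pi) (a + Real.pi)).indicator
      (fun t => Complex.exp (-(Complex.I * ((m : ℝ) * t : ℝ)))) t) =
    if m = 0 then ((2 * Real.pi : ℝ) : ℂ) else 0 := by
  rw [integral_indicator measurableSet_Icc, integral_Icc_eq_integral_Ioc,
    ← intervalIntegral.integral_of_le (by linarith [Real.pi_pos])]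
  split_ifs with hm
  · subst hm
    simp
    ring
  · have hmc : (m : ℂ) ≠ 0 := by exact_mod_cast hm
    have hc : -(Complex.I * (m : ℂ)) ≠ 0 := neg_ne_zero.2 (mul_ne_zero Complex.I_ne_zero hmc)
    have h1 : ∀ t : ℝ, Complex.exp (-(Complex.I * ((m : ℝ) * t : ℝ))) =
        Complex.exp (-(Complex.I * (m : ℂ)) * t) := by
      intro t
      congr 1
      push_cast
      ring
    simp_rw [h1]
    rw [integral_exp_mul_complex hc]
    have h2 : Complex.exp (-(Complex.I * (m : ℂ)) * ((a + Real.pi : ℝ) : ℂ)) =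
        Complex.exp (-(Complex.I * (m : ℂ)) * ((a - Real.pi : ℝ) : ℂ)) := by
      rw [Complex.exp_eq_exp_iff_exists_int]
      refine ⟨-m, ?_⟩
      push_cast
      ring
    rw [h2, sub_self, zero_div]

theorem inv_box_int (x₀ : Rv d) (m : K d) :
    (∫ x in inv_box x₀, inv_e m x) = if m = 0 then (((2 * Real.pi) ^ d : ℝ) : ℂ) else 0 := by
  rw [← integral_indicator (inv_box_closed x₀).measurableSet]
  rw [← (PiLp.volume_preserving_toLp (Fin d)).integral_comp
      (MeasurableEquiv.toLp 2 _).measurableEmbedding]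
  have h1 : (fun y : Fin d → ℝ => (inv_box x₀).indicator (inv_e m) (WithLp.toLp 2 y)) =
      fun y => ∏ i, (fun (i : Fin d) (t : ℝ) => (Icc (x₀ i - Real.pi) (x₀ i + Real.pi)).indicator
      (fun t => Complex.exp (-(Complex.I * ((m i : ℝ) * t : ℝ)))) t) i (y i) := by
    ext y
    by_cases hy : WithLp.toLp 2 y ∈ inv_box x₀
    · rw [indicator_of_mem hy]
      have hy' : ∀ i, y i ∈ Icc (x₀ i - Real.pi) (x₀ i + Real.pi) := by
        intro i
        have := abs_le.1 (hy i)
        exact ⟨by linarith [this.1], by linarith [this.2]⟩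
      have h2 : ∀ i ∈ (Finset.univ : Finset (Fin d)),
          (Icc (x₀ i - Real.pi) (x₀ i + Real.pi)).indicator
          (fun t => Complex.exp (-(Complex.I * ((m i : ℝ) * t : ℝ)))) (y i) =
          Complex.exp (-(Complex.I * ((m i : ℝ) * y i : ℝ))) := by
        intro i _
        rw [indicator_of_mem (hy' i)]
      rw [Finset.prod_congr rfl h2, ← Complex.exp_sum]
      unfold inv_e kx
      congr 1
      push_cast
      rw [Finset.sum_neg_distrib, Finset.mul_sum]
    · rw [indicator_of_notMem hy]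
      unfold inv_box at hy
      rw [Set.mem_ofPred_eq] at hy
      push Not at hy
      obtain ⟨i, hi⟩ := hy
      symm
      apply Finset.prod_eq_zero (Finset.mem_univ i)
      beta_reduce
      rw [indicator_of_notMem]
      rintro ⟨h3, h4⟩
      have : |y i - x₀ i| ≤ Real.pi := abs_le.2 ⟨by linarith, by linarith⟩
      exact absurd this (not_le.2 hi)
  rw [h1]
  refine (integral_fintype_prod_volume_eq_prod (ι := Fin d) (E := fun _ => ℝ)
      (fun (i : Fin d) (t : ℝ) => (Icc (x₀ i - Real.pi) (x₀ i + Real.pi)).indicator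
      (fun t => Complex.exp (-(Complex.I * ((m i : ℝ) * t : ℝ)))) t)).trans ?_
  simp_rw [inv_one]
  split_ifs with hm
  · subst hm
    simp
  · obtain ⟨i, hi⟩ : ∃ i, m i ≠ 0 := by
      by_contra h
      push Not at h
      exact hm (funext h)
    apply Finset.prod_eq_zero (Finset.mem_univ i)
    rw [if_neg hi]

/-! ### Uniqueness -/

/-- trigonometric polynomials in several steps -/
theorem inv_step {x₀ y : Rv d} {h : Rv d → ℂ} (hh : ContinuousOn h (inv_box x₀)) {φ : Rv d → ℂ}
    (hφ : Continuous φ) (h0 : ∀ m : K d, ∫ x in inv_box x₀, φ x * inv_e m x * h x = 0)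
    (i : Fin d) (m : K d) :
    ∫ x in inv_box x₀, (((1 + Real.cos (x i - y i)) / 2 : ℝ) : ℂ) * φ x * inv_e m x * h x = 0 := by
  have hI : ∀ m : K d, IntegrableOn (fun x => φ x * inv_e m x * h x) (inv_box x₀) := by
    intro m
    exact (((hφ.mul (inv_e_cont m)).continuousOn).mul hh).integrableOn_compact (inv_box_compact x₀)
  let ε : K d := Pi.single i 1
  have hε : ∀ x : Rv d, kx ε x = x i := by
    intro x
    simp [kx, ε, Pi.single_apply]
  have h1 : ∀ x : Rv d, (((1 + Real.cos (x i - y i)) / 2 : ℝ) : ℂ) * φ x * inv_e m x * h x =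
      (1 / 2 : ℂ) * (φ x * inv_e m x * h x) +
      ((1 / 4 : ℂ) * Complex.exp (Complex.I * (y i : ℂ))) * (φ x * inv_e (m + ε) x * h x) +
      ((1 / 4 : ℂ) * Complex.exp (-(Complex.I * (y i : ℂ)))) *
        (φ x * inv_e (m + (-ε)) x * h x) := by
    intro x
    rw [inv_e_add, inv_e_add]
    have h2 : inv_e ε x = Complex.exp (-(Complex.I * (x i : ℂ))) := by
      unfold inv_e; rw [hε]
    have h3 : inv_e (-ε) x = Complex.exp (Complex.I * (x i : ℂ)) := by
      unfold inv_e; rw [kx_neg_left, hε]; push_cast; ring_nf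
    have h4 : ((Real.cos (x i - y i) : ℝ) : ℂ) =
        (Complex.exp (Complex.I * (y i : ℂ)) * Complex.exp (-(Complex.I * (x i : ℂ))) +
        Complex.exp (-(Complex.I * (y i : ℂ))) * Complex.exp (Complex.I * (x i : ℂ))) / 2 := by
      rw [Complex.ofReal_cos, Complex.cos, ← Complex.exp_add, ← Complex.exp_add]
      push_cast
      ring_nf
    rw [h2, h3]
    rw [show (((1 + Real.cos (x i - y i)) / 2 : ℝ) : ℂ) =
      (1 + ((Real.cos (x i - y i) : ℝ) : ℂ)) / 2 by push_cast; ring, h4]
    ring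
  simp_rw [h1]
  have hI0 := (hI m).const_mul (1 / 2 : ℂ)
  have hI1 := (hI (m + ε)).const_mul ((1 / 4 : ℂ) * Complex.exp (Complex.I * (y i : ℂ)))
  have hI2 := (hI (m + (-ε))).const_mul ((1 / 4 : ℂ) * Complex.exp (-(Complex.I * (y i : ℂ))))
  have e1 : (∫ x in inv_box x₀, ((1 / 2 : ℂ) * (φ x * inv_e m x * h x) +
      ((1 / 4 : ℂ) * Complex.exp (Complex.I * (y i : ℂ))) * (φ x * inv_e (m + ε) x * h x) +
      ((1 / 4 : ℂ) * Complex.exp (-(Complex.I * (y i : ℂ)))) *
        (φ x * inv_e (m + (-ε)) x * h x))) =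
      (∫ x in inv_box x₀, ((1 / 2 : ℂ) * (φ x * inv_e m x * h x) +
      ((1 / 4 : ℂ) * Complex.exp (Complex.I * (y i : ℂ))) * (φ x * inv_e (m + ε) x * h x))) +
      ∫ x in inv_box x₀, ((1 / 4 : ℂ) * Complex.exp (-(Complex.I * (y i : ℂ)))) *
        (φ x * inv_e (m + (-ε)) x * h x) := integral_add (hI0.add hI1) hI2
  have e2 : (∫ x in inv_box x₀, ((1 / 2 : ℂ) * (φ x * inv_e m x * h x) +
      ((1 / 4 : ℂ) * Complex.exp (Complex.I * (y i : ℂ))) * (φ x * inv_e (m + ε) x * h x))) =
      (∫ x in inv_box x₀, (1 / 2 : ℂ) * (φ x * inv_e m x * h x)) +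
      ∫ x in inv_box x₀, ((1 / 4 : ℂ) * Complex.exp (Complex.I * (y i : ℂ))) *
        (φ x * inv_e (m + ε) x * h x) := integral_add hI0 hI1
  rw [e1, e2, integral_const_mul, integral_const_mul,
    integral_const_mul, h0, h0, h0]
  simp

theorem inv_pow {x₀ y : Rv d} {h : Rv d → ℂ} (hh : ContinuousOn h (inv_box x₀))
    (h0 : ∀ m : K d, ∫ x in inv_box x₀, inv_e m x * h x = 0) (n : ℕ) (m : K d) :
    ∫ x in inv_box x₀, (((∏ i, (1 + Real.cos (x i - y i)) / 2) ^ n : ℝ) : ℂ) *
      inv_e m x * h x = 0 := by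
  have hstep : ∀ (T : Finset (Fin d)) (φ : Rv d → ℂ), Continuous φ →
      (∀ m : K d, ∫ x in inv_box x₀, φ x * inv_e m x * h x = 0) →
      ∀ m : K d, ∫ x in inv_box x₀, ((∏ i ∈ T, (1 + Real.cos (x i - y i)) / 2 : ℝ) : ℂ) * φ x *
      inv_e m x * h x = 0 := by
    intro T φ hφ h1
    induction T using Finset.induction_on with
    | empty => simpa using h1
    | insert i T hi ih =>
      intro m
      have hc : Continuous (fun x : Rv d =>
          ((∏ i ∈ T, (1 + Real.cos (x i - y i)) / 2 : ℝ) : ℂ) * φ x) := by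
        fun_prop
      have := inv_step (y := y) hh hc ih i m
      rw [← this]
      congr 1
      ext x
      rw [Finset.prod_insert hi]
      push_cast
      ring
  induction n generalizing m with
  | zero => simpa using h0 m
  | succ n ih =>
    have hc : Continuous (fun x : Rv d =>
        (((∏ i, (1 + Real.cos (x i - y i)) / 2) ^ n : ℝ) : ℂ)) := by
      fun_prop
    have := hstep Finset.univ _ hc ih m
    rw [← this]
    congr 1
    ext x
    rw [pow_succ]
    push_cast
    ring

theorem inv_unique {x₀ y : Rv d} (hy : y ∈ Metric.ball x₀ 2) {h : Rv d → ℂ}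
    (hh : ContinuousOn h (inv_box x₀))
    (h0 : ∀ m : K d, ∫ x in inv_box x₀, inv_e m x * h x = 0) : h y = 0 := by
  let c : Rv d → ℝ := fun x => ∏ i, (1 + Real.cos (x i - y i)) / 2
  have hcc : Continuous c := by
    simp only [c]
    fun_prop
  have hy' : y ∈ inv_box x₀ := interior_subset (inv_ball_subset x₀ hy)
  have hcy : c y = 1 := by
    simp only [c, sub_self, Real.cos_zero]
    norm_num
  have hfac0 : ∀ t : ℝ, 0 ≤ (1 + Real.cos t) / 2 := fun t => by
    linarith [Real.neg_one_le_cos t]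
  have hfac1 : ∀ t : ℝ, (1 + Real.cos t) / 2 ≤ 1 := fun t => by
    linarith [Real.cos_le_one t]
  have hlim := tendsto_setIntegral_pow_smul_of_unique_maximum_of_isCompact_of_integrableOn
    (μ := (volume : Measure (Rv d))) (inv_box_compact x₀) hcc.continuousOn (x₀ := y) (g := h)
    (fun x hx hxy => by
      rw [hcy]
      obtain ⟨i, hi⟩ : ∃ i, x i ≠ y i := by
        by_contra hcon
        push Not at hcon
        exact hxy (by ext i; exact hcon i)
      have h1 : |x i - y i| < 2 * Real.pi := by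
        have h2 := hx i
        rw [Metric.mem_ball, dist_eq_norm] at hy
        have h3 := inv_abs_le y x₀ i
        have h4 : x i - y i = (x i - x₀ i) - (y i - x₀ i) := by ring
        rw [h4]
        have h5 := abs_sub (x i - x₀ i) (y i - x₀ i)
        linarith [Real.pi_gt_three]
      have h6 : Real.cos (x i - y i) ≠ 1 := by
        intro h7
        rw [Real.cos_eq_one_iff_of_lt_of_lt (abs_lt.1 h1).1 (abs_lt.1 h1).2] at h7
        exact hi (sub_eq_zero.1 h7)
      have h8 : (1 + Real.cos (x i - y i)) / 2 < 1 := by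
        have := lt_of_le_of_ne (Real.cos_le_one (x i - y i)) h6
        linarith
      simp only [c]
      rw [← Finset.mul_prod_erase _ _ (Finset.mem_univ i)]
      calc _ ≤ (1 + Real.cos (x i - y i)) / 2 * 1 := by
            apply mul_le_mul_of_nonneg_left _ (hfac0 _)
            exact Finset.prod_le_one (fun j _ => hfac0 _) (fun j _ => hfac1 _)
        _ < 1 := by linarith)
    (fun x _ => Finset.prod_nonneg fun i _ => hfac0 _) (by rw [hcy]; norm_num)
    (subset_closure (inv_ball_subset x₀ hy)) (hh.integrableOn_compact (inv_box_compact x₀))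
    (hh y hy')
  have hz : ∀ n : ℕ, (∫ x in inv_box x₀, c x ^ n)⁻¹ • ∫ x in inv_box x₀, c x ^ n • h x = 0 := by
    intro n
    have := inv_pow (y := y) hh h0 n 0
    have h9 : (∫ x in inv_box x₀, c x ^ n • h x) = 0 := by
      rw [← this]
      congr 1
      ext x
      rw [Complex.real_smul]
      simp [c, inv_e, kx_zero_left]
    rw [h9, smul_zero]
  simp_rw [hz] at hlim
  exact (tendsto_nhds_unique hlim tendsto_const_nhds).symm ▸ rfl

/-! ### Inversion -/

theorem inv_summable (hd : d = 2 ∨ d = 3) {f : Rv d → ℝ} (hf : ContDiff ℝ 5 f)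
    (hc : HasCompactSupport f) : Summable fun k => ‖fc f k‖ := by
  obtain ⟨A, hA⟩ := nb_exists (m := 5) (by exact_mod_cast hf) hc
  obtain ⟨R, hR⟩ := hc.isCompact.isBounded.subset_closedBall (0 : Rv d)
  obtain ⟨C, hC, hdec⟩ := fc_decay d 5 R
  have h1 := hdec f A (by exact_mod_cast hf) hR hA
  have hA0 := hA.nonneg
  have hs := ((summable_nk4 hd).mul_left (C * A)).add
    (summable_of_hasFiniteSupport (f := fun k : K d => if k = 0 then ‖fc f 0‖ else 0)
      ((Set.finite_singleton (0 : K d)).subset fun k hk => by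
        by_contra h
        apply hk
        show (if k = 0 then ‖fc f 0‖ else 0) = 0
        rw [if_neg (show ¬ (k = 0) from h)]))
  refine Summable.of_nonneg_of_le (fun k => norm_nonneg _) (fun k => ?_) hs
  by_cases hk : k = 0
  · subst hk
    simp only [if_true]
    have : 0 ≤ C * A * (nk (0 : K d) ^ 4)⁻¹ := by
      apply mul_nonneg (mul_nonneg hC hA0)
      exact inv_nonneg.2 (pow_nonneg (nk_nonneg _) _)
    linarith
  · simp only [if_neg hk, add_zero]
    have hnk := one_le_nk hk
    have h2 : 0 < nk k ^ 4 := by positivity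
    rw [← div_eq_mul_inv, le_div_iff₀ h2]
    calc ‖fc f k‖ * nk k ^ 4 ≤ ‖fc f k‖ * nk k ^ 5 := by
          apply mul_le_mul_of_nonneg_left _ (norm_nonneg _)
          exact pow_le_pow_right₀ hnk (by norm_num)
      _ = nk k ^ 5 * ‖fc f k‖ := mul_comm _ _
      _ ≤ C * A := h1 k

theorem inv_exp_eq (k : K d) (x : Rv d) : Complex.exp (Complex.I * (kx k x : ℂ)) = inv_e (-k) x := by
  unfold inv_e
  rw [kx_neg_left]
  congr 1
  push_cast
  ring

theorem inv_hc {f : Rv d → ℝ} {x₀ : Rv d} (hs : tsupport f ⊆ Metric.ball x₀ 1) :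
    HasCompactSupport f :=
  (isCompact_closedBall x₀ 1).of_isClosed_subset (isClosed_tsupport _)
    (hs.trans Metric.ball_subset_closedBall)

/-- Fourier series of the periodization of `f`, at a point near the support of `f` -/
theorem fc_inversion (hd : d = 2 ∨ d = 3) {f : Rv d → ℝ} (hf : ContDiff ℝ 5 f) {x₀ : Rv d}
    (hs : tsupport f ⊆ Metric.ball x₀ 1) {x : Rv d} (hx : x ∈ Metric.ball x₀ 2) :
    Summable (fun k => fc f k * Complex.exp (Complex.I * (kx k x : ℂ))) ∧
    ∑' k, fc f k * Complex.exp (Complex.I * (kx k x : ℂ)) = (f x : ℂ) := by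
  have hc : HasCompactSupport f := inv_hc hs
  have hsum := inv_summable hd hf hc
  have hnorm : ∀ (k : K d) (x : Rv d), ‖fc f k * inv_e (-k) x‖ = ‖fc f k‖ := by
    intro k x
    rw [norm_mul, inv_norm_e, mul_one]
  have hS : ∀ x : Rv d, Summable fun k => fc f k * inv_e (-k) x := by
    intro x
    apply Summable.of_norm
    simp_rw [hnorm]
    exact hsum
  simp_rw [inv_exp_eq]
  refine ⟨hS x, ?_⟩
  have hScont : Continuous fun x => ∑' k, fc f k * inv_e (-k) x :=
    continuous_tsum (fun k => continuous_const.mul (inv_e_cont (-k))) hsum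
      (fun k x => (hnorm k x).le)
  have hfc : Continuous fun x => (f x : ℂ) := Complex.continuous_ofReal.comp hf.continuous
  have key : ∀ m : K d, ∫ x in inv_box x₀, inv_e m x *
      ((∑' k, fc f k * inv_e (-k) x) - (f x : ℂ)) = 0 := by
    intro m
    have hcpt := inv_box_compact x₀
    have e1 : (∫ x in inv_box x₀, inv_e m x * ((∑' k, fc f k * inv_e (-k) x) - (f x : ℂ))) =
        (∫ x in inv_box x₀, inv_e m x * (∑' k, fc f k * inv_e (-k) x)) -
        ∫ x in inv_box x₀, inv_e m x * (f x : ℂ) := by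
      rw [← integral_sub]
      · congr 1
        ext x
        ring
      · exact ((inv_e_cont m).mul hScont).continuousOn.integrableOn_compact hcpt
      · exact ((inv_e_cont m).mul hfc).continuousOn.integrableOn_compact hcpt
    have e2 : (∫ x in inv_box x₀, inv_e m x * (f x : ℂ)) =
        (((2 * Real.pi) ^ d : ℝ) : ℂ) * fc f m := by
      have h1 : (∫ x in inv_box x₀, inv_e m x * (f x : ℂ)) = ∫ x, inv_e m x * (f x : ℂ) := by
        apply setIntegral_eq_integral_of_forall_compl_eq_zero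
        intro x hx
        have : x ∉ tsupport f := fun h => hx (interior_subset (inv_ball_subset x₀
          (Metric.ball_subset_ball (by norm_num) (hs h))))
        rw [image_eq_zero_of_notMem_tsupport this]
        simp
      rw [h1]
      unfold fc
      have h2pi : (((2 * Real.pi) ^ d : ℝ) : ℂ) ≠ 0 := by
        exact_mod_cast (pow_pos Real.two_pi_pos d).ne'
      rw [Complex.real_smul, Complex.ofReal_inv, mul_inv_cancel_left₀ h2pi]
      rfl
    have e3 : (∫ x in inv_box x₀, inv_e m x * (∑' k, fc f k * inv_e (-k) x)) =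
        (((2 * Real.pi) ^ d : ℝ) : ℂ) * fc f m := by
      have h1 : ∀ x, inv_e m x * (∑' k, fc f k * inv_e (-k) x) =
          ∑' k, fc f k * inv_e (m + (-k)) x := by
        intro x
        rw [← tsum_mul_left]
        congr 1
        ext k
        rw [inv_e_add]
        ring
      simp_rw [h1]
      rw [← integral_tsum_of_summable_integral_norm]
      · have h2 : ∀ k : K d, (∫ x in inv_box x₀, fc f k * inv_e (m + (-k)) x) =
            if k = m then (((2 * Real.pi) ^ d : ℝ) : ℂ) * fc f m else 0 := by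
          intro k
          rw [integral_const_mul, inv_box_int]
          by_cases hk : k = m
          · subst hk
            simp only [add_neg_cancel, if_true]
            ring
          · have : m + -k ≠ 0 := by
              intro h
              exact hk (add_neg_eq_zero.1 h).symm
            rw [if_neg this, if_neg hk, mul_zero]
        simp_rw [h2]
        rw [tsum_ite_eq]
      · intro k
        exact (continuous_const.mul (inv_e_cont _)).continuousOn.integrableOn_compact hcpt
      · have h3 : ∀ k : K d, (∫ x in inv_box x₀, ‖fc f k * inv_e (m + (-k)) x‖) =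
            (volume.real (inv_box x₀)) * ‖fc f k‖ := by
          intro k
          have : ∀ x, ‖fc f k * inv_e (m + (-k)) x‖ = ‖fc f k‖ := by
            intro x
            rw [norm_mul, inv_norm_e, mul_one]
          simp_rw [this]
          rw [setIntegral_const, smul_eq_mul]
        simp_rw [h3]
        exact hsum.mul_left _
    rw [e1, e2, e3, sub_self]
  have := inv_unique hx (hScont.sub hfc).continuousOn key
  exact sub_eq_zero.1 this

theorem ser_pr_local (hd : d = 2 ∨ d = 3) {β : VF d} (hβ : TFN 5 β) (hdiv : Dfree β) {x₀ : Rv d}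
    (hs : Su β (Metric.ball x₀ 1)) {x : Rv d} (hx : x ∈ Metric.ball x₀ 2) (i : Fin d) :
    ser (pr β) i x = β i x := by
  have hβ1 : TFN 1 β := fun j => ⟨(hβ j).1.of_le (by norm_num), (hβ j).2⟩
  obtain ⟨h1, h2⟩ := fc_inversion hd (f := β i) (by exact_mod_cast (hβ i).1) (hs i) hx
  unfold ser
  have h3 : ∀ k : K d, ((pr β k) i * Complex.exp (Complex.I * (kx k x : ℂ))).re =
      (fc (β i) k * Complex.exp (Complex.I * (kx k x : ℂ))).re := by
    intro k
    rw [pr_of_dfree hβ1 hdiv]
    rfl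
  simp_rw [h3]
  rw [← Complex.re_tsum h1, h2, Complex.ofReal_re]

/-! ### Products of local fields -/

theorem inv_prod (hd : d = 2 ∨ d = 3) {f g : Rv d → ℝ} (hf : ContDiff ℝ 5 f)
    (hg : ContDiff ℝ 5 g) {x₀ : Rv d} (hfs : tsupport f ⊆ Metric.ball x₀ 1)
    (hgs : tsupport g ⊆ Metric.ball x₀ 1) (k : K d) :
    Summable (fun j => fc f j * fc g (k - j)) ∧
    fc (fun x => f x * g x) k = ∑' j, fc f j * fc g (k - j) := by
  have hcf : HasCompactSupport f := inv_hc hfs
  have hcg : HasCompactSupport g := inv_hc hgs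
  have hsum := inv_summable hd hf hcf
  have hgint : Integrable g := hg.continuous.integrable_of_hasCompactSupport hcg
  have hbd : ∀ j : K d, ‖fc f j * fc g (k - j)‖ ≤
      ‖fc f j‖ * (((2 * Real.pi) ^ d : ℝ)⁻¹ * ∫ x, |g x|) := by
    intro j
    rw [norm_mul]
    exact mul_le_mul_of_nonneg_left (norm_fc_le hgint _) (norm_nonneg _)
  refine ⟨Summable.of_norm_bounded (hsum.mul_right _) hbd, ?_⟩
  have h2pi : (((2 * Real.pi) ^ d : ℝ) : ℂ) ≠ 0 := by
    exact_mod_cast (pow_pos Real.two_pi_pos d).ne'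
  have hpt : ∀ x : Rv d, inv_e k x * ((f x * g x : ℝ) : ℂ) =
      ∑' j, fc f j * (inv_e (k - j) x * (g x : ℂ)) := by
    intro x
    by_cases hx : x ∈ tsupport g
    · have hx2 : x ∈ Metric.ball x₀ 2 := Metric.ball_subset_ball (by norm_num) (hgs hx)
      obtain ⟨h1, h2⟩ := fc_inversion hd hf hfs hx2
      push_cast
      rw [← h2, mul_comm (∑' k, _) (g x : ℂ), ← mul_assoc, ← tsum_mul_left]
      congr 1
      ext j
      rw [inv_exp_eq, sub_eq_add_neg, inv_e_add]
      ring
    · rw [image_eq_zero_of_notMem_tsupport hx]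
      simp
  have hint : ∀ j : K d, Integrable fun x : Rv d => fc f j * (inv_e (k - j) x * (g x : ℂ)) := by
    intro j
    apply Integrable.const_mul
    apply (hgint.ofReal (𝕜 := ℂ)).bdd_mul (c := 1) (inv_e_cont _).aestronglyMeasurable
    exact Filter.Eventually.of_forall fun x => (inv_norm_e _ x).le
  have hswap := integral_tsum_of_summable_integral_norm hint (by
    have h3 : ∀ j : K d, (∫ x : Rv d, ‖fc f j * (inv_e (k - j) x * (g x : ℂ))‖) =
        ‖fc f j‖ * ∫ x, |g x| := by
      intro j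
      rw [← integral_const_mul]
      congr 1
      ext x
      rw [norm_mul, norm_mul, inv_norm_e, one_mul, Complex.norm_real, Real.norm_eq_abs]
    simp_rw [h3]
    exact hsum.mul_right _)
  have h4 : fc (fun x => f x * g x) k = ((((2 * Real.pi) ^ d : ℝ) : ℂ))⁻¹ *
      ∫ x : Rv d, inv_e k x * ((f x * g x : ℝ) : ℂ) := by
    unfold fc inv_e
    rw [Complex.real_smul, Complex.ofReal_inv]
  rw [h4]
  simp_rw [hpt]
  rw [← hswap]
  have h5 : ∀ j : K d, (∫ x : Rv d, fc f j * (inv_e (k - j) x * (g x : ℂ))) =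
      (((2 * Real.pi) ^ d : ℝ) : ℂ) * (fc f j * fc g (k - j)) := by
    intro j
    rw [integral_const_mul]
    have : (∫ x : Rv d, inv_e (k - j) x * (g x : ℂ)) =
        (((2 * Real.pi) ^ d : ℝ) : ℂ) * fc g (k - j) := by
      unfold fc inv_e
      rw [Complex.real_smul, Complex.ofReal_inv, mul_inv_cancel_left₀ h2pi]
    rw [this]
    ring
  simp_rw [h5]
  rw [tsum_mul_left, inv_mul_cancel_left₀ h2pi]

/-- directional derivative of a field along another one -/
def inv_adv (γ β : VF d) : VF d := fun i x => ∑ j, γ j x * pd j (β i) x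

theorem inv_pd_tfn {N : ℕ} {f : Rv d → ℝ} (hf : ContDiff ℝ (N + 1 : ℕ) f)
    (hc : HasCompactSupport f) (i : Fin d) :
    ContDiff ℝ N (pd i f) ∧ HasCompactSupport (pd i f) :=
  ⟨contDiff_pd hf i, hc.of_isClosed_subset (isClosed_tsupport _) (tsupport_pd_subset f i)⟩

theorem inv_adv_tfn {γ β : VF d} (hγ : TFN 10 γ) (hβ : TFN 10 β) : TFN 9 (inv_adv γ β) := by
  intro i
  constructor
  · unfold inv_adv
    apply ContDiff.sum
    intro j _
    exact ((hγ j).1.of_le (by norm_num)).mul (contDiff_pd (N := 9) (hβ i).1 j)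
  · unfold inv_adv
    have : HasCompactSupport (fun x => ∑ j, γ j x * pd j (β i) x) := by
      refine (hβ i).2.of_isClosed_subset (isClosed_tsupport _) ?_
      apply closure_minimal _ (isClosed_tsupport _)
      intro x hx
      by_contra h
      apply hx
      apply Finset.sum_eq_zero
      intro j _
      rw [pd_zero_of_notMem h, mul_zero]
    exact this

theorem inv_bk (hd : d = 2 ∨ d = 3) {β γ : VF d} (hβ : TFN 10 β) (hγ : TFN 10 γ)
    (hβd : Dfree β) (hγd : Dfree γ) {x₀ : Rv d} (hβs : Su β (Metric.ball x₀ 1))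
    (hγs : Su γ (Metric.ball x₀ 1)) :
    Bk (pr γ) (pr β) = pr (inv_adv γ β) := by
  have hβ1 : TFN 1 β := fun j => ⟨(hβ j).1.of_le (by norm_num), (hβ j).2⟩
  have hγ1 : TFN 1 γ := fun j => ⟨(hγ j).1.of_le (by norm_num), (hγ j).2⟩
  have hβ3 : TFN 3 β := fun j => ⟨(hβ j).1.of_le (by norm_num), (hβ j).2⟩
  have hγ3 : TFN 3 γ := fun j => ⟨(hγ j).1.of_le (by norm_num), (hγ j).2⟩
  have hβ5 : ∀ j, ContDiff ℝ 5 (β j) := fun j => (hβ j).1.of_le (by norm_num)
  have hγ5 : ∀ j, ContDiff ℝ 5 (γ j) := fun j => (hγ j).1.of_le (by norm_num)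
  have hVβ := pr_isV hd hβ3
  have hVγ := pr_isV hd hγ3
  funext k
  have hsm := bk_summable hVγ hVβ k
  unfold Bk
  rw [← Pk_smul]
  show _ = Pk k (fcv (inv_adv γ β) k)
  congr 1
  ext i
  have h1 : (∑' j, dot k (pr γ j) • pr β (k - j)) i =
      ∑' j, (dot k (pr γ j) • pr β (k - j)) i := by
    have := (EuclideanSpace.proj (𝕜 := ℂ) i : Cv d →L[ℂ] ℂ).map_tsum hsm
    simpa using this
  rw [PiLp.smul_apply, h1]
  have h2 : ∀ j : K d, (dot k (pr γ j) • pr β (k - j)) i =
      ∑ m, (k m : ℂ) * (fc (γ m) j * fc (β i) (k - j)) := by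
    intro j
    rw [pr_of_dfree hβ1 hβd, pr_of_dfree hγ1 hγd, PiLp.smul_apply, smul_eq_mul]
    unfold dot
    rw [Finset.sum_mul]
    apply Finset.sum_congr rfl
    intro m _
    show (k m : ℂ) * fc (γ m) j * fc (β i) (k - j) = _
    ring
  simp_rw [h2]
  have hps : ∀ m : Fin d, Summable (fun j => fc (γ m) j * fc (β i) (k - j)) ∧
      fc (fun x => γ m x * β i x) k = ∑' j, fc (γ m) j * fc (β i) (k - j) :=
    fun m => inv_prod hd (hγ5 m) (hβ5 i) (hγs m) (hβs i) k
  rw [Summable.tsum_finsetSum fun m _ => (hps m).1.mul_left _]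
  simp_rw [tsum_mul_left]
  show Complex.I • (∑ m, (k m : ℂ) * ∑' j, fc (γ m) j * fc (β i) (k - j)) =
    fc (inv_adv γ β i) k
  have h3 : inv_adv γ β i = fun x => ∑ m, pd m (fun y => γ m y * β i y) x := by
    funext x
    have hγdiff : ∀ m, DifferentiableAt ℝ (γ m) x := fun m =>
      ((hγ5 m).differentiable (by norm_num)).differentiableAt
    have hβdiff : DifferentiableAt ℝ (β i) x := ((hβ5 i).differentiable (by norm_num)).differentiableAt
    have h4 : ∀ m ∈ (Finset.univ : Finset (Fin d)), pd m (fun y => γ m y * β i y) x =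
        pd m (γ m) x * β i x + γ m x * pd m (β i) x := fun m _ => pd_mul (hγdiff m) hβdiff m
    rw [Finset.sum_congr rfl h4, Finset.sum_add_distrib, ← Finset.sum_mul, hγd x, zero_mul,
      zero_add]
    rfl
  rw [h3]
  have hmul : ∀ m, ContDiff ℝ (1 + 1 : ℕ) (fun y => γ m y * β i y) := fun m =>
    ((hγ5 m).mul (hβ5 i)).of_le (by norm_num)
  have hmulc : ∀ m, HasCompactSupport (fun y => γ m y * β i y) := fun m => (hβ i).2.mul_left
  rw [fc_sum Finset.univ (fun m _ =>
    (inv_pd_tfn (hmul m) (hmulc m) m).1.continuous.integrable_of_hasCompactSupport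
      (inv_pd_tfn (hmul m) (hmulc m) m).2)]
  rw [smul_eq_mul, Finset.mul_sum]
  apply Finset.sum_congr rfl
  intro m _
  rw [fc_pd ((hmul m).of_le (by norm_num)) (hmulc m), (hps m).2]
  ring

theorem bk_pr_local (hd : d = 2 ∨ d = 3) {γ : VF d} (hγ : TFN 10 γ)
    (hγd : Dfree γ) {x₀ : Rv d} (hγs : Su γ (Metric.ball x₀ 1)) :
    Bk (pr γ) (pr γ) = pr (fun i x => ∑ j, γ j x * pd j (γ i) x) :=
  inv_bk hd hγ hγ hγd hγd hγs hγs

/-- local version of `Lk_pr`: both fields divergence free and supported in a small ball -/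
theorem Lk_pr_local (hd : d = 2 ∨ d = 3) {β γ : VF d} (hβ : TFN 10 β) (hγ : TFN 10 γ)
    (hβd : Dfree β) (hγd : Dfree γ) {x₀ : Rv d} (hβs : Su β (Metric.ball x₀ 1))
    (hγs : Su γ (Metric.ball x₀ 1)) :
    Lk (pr γ) (pr β) = pr (fun i x => iod γ β i x + iod β γ i x) := by
  have hβ5 : ∀ j, ContDiff ℝ 5 (β j) := fun j => (hβ j).1.of_le (by norm_num)
  have hγ5 : ∀ j, ContDiff ℝ 5 (γ j) := fun j => (hγ j).1.of_le (by norm_num)
  have h0 : ∀ {N : ℕ} {α : VF d}, TFN N α → TFN 0 α := fun h j =>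
    ⟨(h j).1.of_le (by simp), (h j).2⟩
  have hφ : ContDiff ℝ 5 (fun x => ∑ j, γ j x * β j x) := by
    apply ContDiff.sum
    intro j _
    exact (hγ5 j).mul (hβ5 j)
  have hφc : HasCompactSupport (fun x => ∑ j, γ j x * β j x) := by
    refine (inv_hc (x₀ := x₀) ?_)
    have hcl : IsClosed (⋃ j, tsupport (β j)) :=
      isClosed_iUnion_of_finite fun j => isClosed_tsupport _
    refine (closure_minimal (t := ⋃ j, tsupport (β j)) ?_ hcl).trans (iUnion_subset fun j => hβs j)
    intro x hx
    by_contra h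
    apply hx
    apply Finset.sum_eq_zero
    intro j _
    rw [mem_iUnion] at h
    push Not at h
    rw [image_eq_zero_of_notMem_tsupport (h j), mul_zero]
  have hgrad : TFN 0 (fun i => pd i (fun x => ∑ j, γ j x * β j x)) := fun i =>
    ⟨((inv_pd_tfn (N := 1) (hφ.of_le (by norm_num)) hφc i).1).of_le (by simp),
      (inv_pd_tfn (N := 1) (hφ.of_le (by norm_num)) hφc i).2⟩
  have hsumtfn : TFN 0 (fun i x => inv_adv γ β i x + inv_adv β γ i x) := fun i =>
    ⟨((inv_adv_tfn hγ hβ i).1.add (inv_adv_tfn hβ hγ i).1).of_le (by simp),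
      (inv_adv_tfn hγ hβ i).2.add (inv_adv_tfn hβ hγ i).2⟩
  unfold Lk
  rw [inv_bk hd hβ hγ hβd hγd hβs hγs, inv_bk hd hγ hβ hγd hβd hγs hβs,
    ← pr_add (h0 (inv_adv_tfn hγ hβ)) (h0 (inv_adv_tfn hβ hγ))]
  have h1 : (fun (i : Fin d) x => iod γ β i x + iod β γ i x) = fun i x =>
      (inv_adv γ β i x + inv_adv β γ i x) - pd i (fun x => ∑ j, γ j x * β j x) x := by
    funext i x
    have hγdiff : ∀ m, DifferentiableAt ℝ (γ m) x := fun m =>
      ((hγ5 m).differentiable (by norm_num)).differentiableAt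
    have hβdiff : ∀ m, DifferentiableAt ℝ (β m) x := fun m =>
      ((hβ5 m).differentiable (by norm_num)).differentiableAt
    rw [pd_sum (f := fun j y => γ j y * β j y) Finset.univ
      (fun j _ => (hγdiff j).mul (hβdiff j))]
    have h2 : ∀ m ∈ (Finset.univ : Finset (Fin d)), pd i (fun y => γ m y * β m y) x =
        pd i (γ m) x * β m x + γ m x * pd i (β m) x := fun m _ => pd_mul (hγdiff m) (hβdiff m) i
    rw [Finset.sum_congr rfl h2]
    unfold iod inv_adv
    rw [← Finset.sum_add_distrib, ← Finset.sum_add_distrib, ← Finset.sum_sub_distrib]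
    apply Finset.sum_congr rfl
    intro j _
    ring
  rw [h1, pr_sub hsumtfn hgrad, pr_grad (hφ.of_le (by norm_num)) hφc, sub_zero]

end NSC
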