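import Pool.Agent.Work.MP_57e339_an.Sing

/-! Module PU: the local property `PP` and partitions of unity. -/

open MeasureTheory Set Filter Topology
open scoped BigOperators
noncomputable section
namespace NSC
variable {d : ℕ}

/-- near `x`, all the fields `mz χ β` are in `𝒟` (after projection) -/
def PP (𝒟 : Set (Sq d)) (χ : Rv d → ℝ) (x : Rv d) : Prop :=
  ∃ r > 0, ∀ β : VF d, TF β → Su β (Metric.ball x r) → pr (mz χ β) ∈ 𝒟

open scoped Manifold ContDiff in
/-- partition of unity -/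
theorem PP_glue (hd : d = 2 ∨ d = 3) {𝒟 : Set (Sq d)} (h𝒟 : Adm 𝒟) {χ : Rv d → ℝ}
    (hχ : ContDiff ℝ (⊤ : ℕ∞) χ) (hχc : HasCompactSupport χ) {β : VF d} (hβ : TF β)
    (h : ∀ i, ∀ x ∈ tsupport (β i), PP 𝒟 χ x) : pr (mz χ β) ∈ 𝒟 := by
  classical
  set Kc : Set (Rv d) := ⋃ i, tsupport (β i) with hKcdef
  have hKc : IsCompact Kc := isCompact_iUnion fun i => (hβ i).2
  have hx : ∀ x ∈ Kc, PP 𝒟 χ x := by
    intro x hx
    rw [hKcdef, mem_iUnion] at hx
    obtain ⟨i, hi⟩ := hx
    exact h i x hi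
  choose! r hr hr' using hx
  obtain ⟨t, htK, ht⟩ := hKc.elim_nhds_subcover (fun x => Metric.ball x (r x))
    (fun x hx => Metric.ball_mem_nhds x (hr x hx))
  obtain ⟨f, hf⟩ := SmoothPartitionOfUnity.exists_isSubordinate 𝓘(ℝ, Rv d) hKc.isClosed
    (fun x : t => Metric.ball x.1 (r x.1)) (fun x => Metric.isOpen_ball) (by
      intro z hz
      have := ht hz
      rw [mem_iUnion₂] at this
      obtain ⟨x, hx, hzx⟩ := this
      exact mem_iUnion.2 ⟨⟨x, hx⟩, hzx⟩)
  have hfs : ∀ j : t, ContDiff ℝ (⊤ : ℕ∞) (fun x => f j x) := fun j =>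
    (f j).contMDiff.contDiff
  -- the pieces
  let b : t → VF d := fun j i x => f j x * β i x
  have hb : ∀ j, TF (b j) := fun j i =>
    ⟨(hfs j).mul (hβ i).1, (hβ i).2.mul_left⟩
  have hbs : ∀ j, Su (b j) (Metric.ball j.1 (r j.1)) := by
    intro j i
    exact (tsupport_mul_subset_left).trans (hf j)
  have hsum : ∀ i x, β i x = ∑ j, b j i x := by
    intro i x
    by_cases hx : x ∈ Kc
    · have h1 := f.sum_eq_one hx
      rw [finsum_eq_sum_of_fintype] at h1
      have : ∑ j, b j i x = (∑ j, f j x) * β i x := by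
        rw [Finset.sum_mul]
      rw [this, h1, one_mul]
    · have h0 : β i x = 0 := by
        by_contra h0
        exact hx (mem_iUnion.2 ⟨i, subset_tsupport _ h0⟩)
      simp [b, h0]
  have hint : ∀ j i, Integrable (b j i) := fun j i =>
    (hb j i).1.continuous.integrable_of_hasCompactSupport (hb j i).2
  have hmz : mz χ β = fun i x => ∑ j, mz χ (b j) i x := by
    funext i x
    have e1 : ∫ y, β i y = ∑ j, ∫ y, b j i y := by
      rw [← integral_finset_sum _ (fun j _ => hint j i)]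
      exact integral_congr_ae (Eventually.of_forall fun y => hsum i y)
    change β i x - (∫ y, β i y) * χ x = ∑ j, (b j i x - (∫ y, b j i y) * χ x)
    rw [Finset.sum_sub_distrib, ← hsum i x, e1, Finset.sum_mul]
  have hTF : ∀ j, TFN 0 (mz χ (b j)) := by
    intro j i
    refine ⟨?_, ?_⟩
    · have h1 : ContDiff ℝ (⊤ : ℕ∞) (mz χ (b j) i) := (hb j i).1.sub (contDiff_const.mul hχ)
      exact h1.of_le (by exact_mod_cast le_top)
    · exact (hb j i).2.sub hχc.mul_left
  rw [hmz, pr_sum Finset.univ (fun j _ => hTF j)]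
  have hmem : ∀ j, pr (mz χ (b j)) ∈ 𝒟 := fun j =>
    hr' j.1 (htK j.1 j.2) (b j) (hb j) (hbs j)
  have : ∀ s : Finset t, ∑ j ∈ s, pr (mz χ (b j)) ∈ 𝒟 := by
    intro s
    induction s using Finset.induction_on with
    | empty => rw [Finset.sum_empty]; exact h𝒟.zero
    | insert a s ha ih =>
      rw [Finset.sum_insert ha]
      exact h𝒟.add _ (hmem a) _ ih
  exact this Finset.univ

end NSC
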