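import Pool.Agent.Work.MP_57e339_an.Ser
import Pool.Agent.Work.MP_57e339_an.PrB

/-! Module Prod: `Lk` of Leray projections of compactly supported fields. -/

open MeasureTheory Set Filter Topology
open scoped BigOperators
noncomputable section
namespace NSC
variable {d : ℕ}

/-- bilinear dot product -/
def prod_bd (a b : Cv d) : ℂ := ∑ j, a j * b j

theorem prod_bd_comm (a b : Cv d) : prod_bd a b = prod_bd b a := by
  unfold prod_bd
  apply Finset.sum_congr rfl
  intro j _
  ring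

theorem prod_bd_norm (a b : Cv d) : ‖prod_bd a b‖ ≤ ‖a‖ * ‖b‖ := by
  have h : prod_bd a b = inner ℂ (cj a) b := by
    simp only [PiLp.inner_apply, prod_bd, cj]
    apply Finset.sum_congr rfl
    intro j _
    simp [mul_comm]
  rw [h, ← norm_cj a]
  exact norm_inner_le_norm _ _

theorem prod_bd_kv (a : Cv d) (l : K d) : prod_bd a (kv l) = dot l a := by
  simp only [prod_bd, kv, dot]
  apply Finset.sum_congr rfl
  intro j _
  ring

theorem prod_bd_sub (a b c : Cv d) : prod_bd a (b - c) = prod_bd a b - prod_bd a c := by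
  simp [prod_bd, mul_sub, Finset.sum_sub_distrib]

theorem prod_bd_smul (a b : Cv d) (z : ℂ) : prod_bd a (z • b) = z * prod_bd a b := by
  simp only [prod_bd, PiLp.smul_apply, smul_eq_mul, Finset.mul_sum]
  apply Finset.sum_congr rfl
  intro j _
  ring

/-- the coefficients of `iod` may be computed with the projected field -/
theorem prod_replace (v : Cv d) (b : Cv d) (l : K d) :
    dot l v • b - prod_bd v b • kv l = dot l v • Pk l b - prod_bd v (Pk l b) • kv l := by
  by_cases hl : l = 0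
  · subst hl
    have h : kv (0 : K d) = 0 := by
      ext i
      simp [kv]
    simp [dot_zero_left, h]
  · simp only [Pk, if_neg hl]
    rw [prod_bd_sub, prod_bd_smul, prod_bd_kv, smul_sub, sub_smul, smul_smul]
    rw [mul_comm (dot l v) (dot l b / (nk l : ℂ) ^ 2)]
    abel

theorem prod_sw {v : Sq d} (hv : IsV v) (h4 : SW 4 v) : SW 0 v ∧ SW 1 v :=
  ⟨(SW.mono h4 hv.zero (by norm_num)).1, (SW.mono h4 hv.zero (by norm_num)).1⟩

theorem prod_s1 {v c : Sq d} (hv0 : SW 0 v) (hc : IsV c) (k : K d) :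
    Summable fun m => dot k (v m) • c (k - m) := by
  apply Summable.of_norm_bounded (((ser_sw0 hv0).mul_left (nk k)).mul_right (n1 c))
  intro m
  rw [norm_smul]
  exact mul_le_mul (norm_dot_le _ _) (norm_coef_le hc _) (norm_nonneg _)
    (mul_nonneg (nk_nonneg k) (norm_nonneg _))

theorem prod_s2 {v c : Sq d} (hv0 : SW 0 v) (hc : IsV c) (k : K d) :
    Summable fun m => dot k (c (k - m)) • v m := by
  apply Summable.of_norm_bounded (((ser_sw0 hv0).mul_left (nk k * n1 c)))
  intro m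
  rw [norm_smul]
  apply mul_le_mul_of_nonneg_right _ (norm_nonneg _)
  exact (norm_dot_le _ _).trans (mul_le_mul_of_nonneg_left (norm_coef_le hc _) (nk_nonneg k))

theorem prod_s3 {v c : Sq d} (hv0 : SW 0 v) (hc : IsV c) (k : K d) :
    Summable fun m => prod_bd (v m) (c (k - m)) := by
  apply Summable.of_norm_bounded (((ser_sw0 hv0).mul_right (n1 c)))
  intro m
  exact (prod_bd_norm _ _).trans (mul_le_mul_of_nonneg_left (norm_coef_le hc _) (norm_nonneg _))

theorem prod_s4 {v c : Sq d} (hv0 : SW 0 v) (hc : IsV c) (k : K d) :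
    Summable fun m => prod_bd (v m) (c (k - m)) • kv (k - m) := by
  apply Summable.of_norm_bounded (((ser_sw0 hv0).mul_right (n1 c)))
  intro m
  rw [norm_smul, norm_kv]
  calc ‖prod_bd (v m) (c (k - m))‖ * nk (k - m) ≤ (‖v m‖ * ‖c (k - m)‖) * nk (k - m) :=
        mul_le_mul_of_nonneg_right (prod_bd_norm _ _) (nk_nonneg _)
    _ = ‖v m‖ * (nk (k - m) * ‖c (k - m)‖) := by ring
    _ ≤ _ := mul_le_mul_of_nonneg_left (coef_le hc _) (norm_nonneg _)

theorem prod_pd_cont {β : VF d} (hβ : TFN 10 β) (i j : Fin d) : Continuous (pd i (β j)) :=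
  (contDiff_pd (N := 0) ((hβ j).1.of_le (by norm_num)) i).continuous

theorem prod_pd_comp {β : VF d} (hβ : TFN 10 β) (i j : Fin d) : HasCompactSupport (pd i (β j)) :=
  (hβ j).2.of_isClosed_subset (isClosed_tsupport _) (tsupport_pd_subset _ i)

theorem prod_pd_int {β : VF d} (hβ : TFN 10 β) (i j : Fin d) : Integrable (pd i (β j)) :=
  (prod_pd_cont hβ i j).integrable_of_hasCompactSupport (prod_pd_comp hβ i j)

theorem prod_term_int {v : Sq d} (hv : IsV v) (h4 : SW 4 v) {β : VF d} (hβ : TFN 10 β)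
    (i j : Fin d) :
    Integrable fun x => ser v j x * (pd j (β i) x - pd i (β j) x) := by
  have hs : Continuous (ser v j) := (ser_contDiff (prod_sw hv h4).1 hv.zero j).continuous
  have hc : HasCompactSupport fun x : Rv d => ser v j x * (pd j (β i) x - pd i (β j) x) :=
    ((prod_pd_comp hβ j i).sub (prod_pd_comp hβ i j)).mul_left
  exact (hs.mul ((prod_pd_cont hβ j i).sub (prod_pd_cont hβ i j))).integrable_of_hasCompactSupport hc

theorem prod_iod_int {v : Sq d} (hv : IsV v) (h4 : SW 4 v) {β : VF d} (hβ : TFN 10 β)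
    (i : Fin d) : Integrable (iod (ser v) β i) := by
  unfold iod
  exact integrable_finsetSum _ fun j _ => prod_term_int hv h4 hβ i j

/-- Fourier coefficients of `iod (ser v) β` -/
theorem prod_fcv {v : Sq d} (hv : IsV v) (h4 : SW 4 v) {β : VF d} (hβ : TFN 10 β)
    (hβV : IsV (pr β)) (k : K d) :
    fcv (iod (ser v) β) k = Complex.I • ∑' m, (dot k (v m) • pr β (k - m) -
      prod_bd (v m) (pr β (k - m)) • kv (k - m)) := by
  obtain ⟨hv0, hv1⟩ := prod_sw hv h4
  have hT : Summable fun m => (dot k (v m) • pr β (k - m) -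
      prod_bd (v m) (pr β (k - m)) • kv (k - m)) := (prod_s1 hv0 hβV k).sub (prod_s4 hv0 hβV k)
  have hform : ∀ m, dot k (v m) • pr β (k - m) - prod_bd (v m) (pr β (k - m)) • kv (k - m) =
      dot (k - m) (v m) • fcv β (k - m) - prod_bd (v m) (fcv β (k - m)) • kv (k - m) := by
    intro m
    rw [prod_replace (v m) (fcv β (k - m)) (k - m), dot_sub_left, hv.dv m, sub_zero]
    rfl
  ext i
  have h1 : (Complex.I • ∑' m, (dot k (v m) • pr β (k - m) -
      prod_bd (v m) (pr β (k - m)) • kv (k - m))) i =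
      Complex.I * ∑' m, (dot k (v m) • pr β (k - m) -
        prod_bd (v m) (pr β (k - m)) • kv (k - m)) i := by
    rw [PiLp.smul_apply, smul_eq_mul]
    congr 1
    have := (EuclideanSpace.proj i : Cv d →L[ℂ] ℂ).map_tsum hT
    exact this
  rw [h1]
  have h2 : (fcv (iod (ser v) β) k) i = ∑ j, fc (fun x => ser v j x *
      (pd j (β i) x - pd i (β j) x)) k := by
    simp only [fcv]
    exact fc_sum Finset.univ (fun j _ => prod_term_int hv h4 hβ i j) k
  rw [h2]
  have h3 : ∀ j, Integrable fun x => pd j (β i) x - pd i (β j) x := fun j =>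
    (prod_pd_int hβ j i).sub (prod_pd_int hβ i j)
  have h4' : ∀ j, fc (fun x => ser v j x * (pd j (β i) x - pd i (β j) x)) k =
      ∑' m, (v m) j * fc (fun x => pd j (β i) x - pd i (β j) x) (k - m) := fun j =>
    (fc_ser_mul hv hv0 (h3 j) j k).2
  have h5 : ∀ j, Summable fun m => (v m) j * fc (fun x => pd j (β i) x - pd i (β j) x) (k - m) :=
    fun j => (fc_ser_mul hv hv0 (h3 j) j k).1
  simp only [h4']
  rw [← Summable.tsum_finsetSum fun j _ => h5 j, ← tsum_mul_left]
  congr 1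
  funext m
  rw [hform m]
  have h6 : ∀ j, fc (fun x => pd j (β i) x - pd i (β j) x) (k - m) =
      Complex.I * ((((k - m) j : ℤ) : ℂ) * fc (β i) (k - m) -
        (((k - m) i : ℤ) : ℂ) * fc (β j) (k - m)) := by
    intro j
    rw [fc_sub (prod_pd_int hβ j i) (prod_pd_int hβ i j),
      fc_pd ((hβ i).1.of_le (by norm_num)) (hβ i).2, fc_pd ((hβ j).1.of_le (by norm_num)) (hβ j).2]
    ring
  simp only [h6]
  simp only [PiLp.sub_apply, PiLp.smul_apply, smul_eq_mul, dot, prod_bd, kv, fcv]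
  rw [Finset.sum_mul, Finset.sum_mul, ← Finset.sum_sub_distrib, Finset.mul_sum]
  apply Finset.sum_congr rfl
  intro j _
  ring

theorem prod_fcv' {v c : Sq d} (hv0 : SW 0 v) (hc : IsV c) (k : K d) :
    (∑' m, (dot k (v m) • c (k - m) - prod_bd (v m) (c (k - m)) • kv (k - m))) +
    (∑' m, (dot k (c m) • v (k - m) - prod_bd (c m) (v (k - m)) • kv (k - m))) =
    (∑' m, dot k (v m) • c (k - m)) + (∑' m, dot k (c m) • v (k - m)) -
      (∑' m, prod_bd (v m) (c (k - m))) • kv k := by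
  have e1 : (∑' m, (dot k (c m) • v (k - m) - prod_bd (c m) (v (k - m)) • kv (k - m))) =
      ∑' m, (dot k (c (k - m)) • v m - prod_bd (v m) (c (k - m)) • kv m) := by
    rw [← (Equiv.subLeft k).tsum_eq]
    congr 1
    funext m
    simp only [Equiv.subLeft_apply, sub_sub_cancel]
    rw [prod_bd_comm]
  have e2 : (∑' m, dot k (c m) • v (k - m)) = ∑' m, dot k (c (k - m)) • v m := by
    rw [← (Equiv.subLeft k).tsum_eq]
    congr 1
    funext m
    simp only [Equiv.subLeft_apply, sub_sub_cancel]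
  have s5 : Summable fun m => prod_bd (v m) (c (k - m)) • kv m := by
    have h1 : (fun m => prod_bd (v m) (c (k - m)) • kv m) =
        fun m => prod_bd (v m) (c (k - m)) • kv k -
          prod_bd (v m) (c (k - m)) • kv (k - m) := by
      funext m
      rw [← smul_sub, basea_kv_sub, sub_sub_cancel]
    rw [h1]
    exact ((prod_s3 hv0 hc k).smul_const (kv k)).sub (prod_s4 hv0 hc k)
  rw [e1, e2, (prod_s1 hv0 hc k).tsum_sub (prod_s4 hv0 hc k),
    (prod_s2 hv0 hc k).tsum_sub s5, ← (prod_s3 hv0 hc k).tsum_smul_const]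
  have e3 : (∑' m, prod_bd (v m) (c (k - m)) • kv k) =
      (∑' m, prod_bd (v m) (c (k - m)) • kv (k - m)) +
        ∑' m, prod_bd (v m) (c (k - m)) • kv m := by
    rw [← (prod_s4 hv0 hc k).tsum_add s5]
    congr 1
    funext m
    rw [← smul_add, basea_kv_sub, sub_add_cancel]
  rw [e3]
  abel

theorem prod_main (hd : d = 2 ∨ d = 3) {β γ : VF d} (hβ : TFN 10 β) (hγ : TFN 10 γ) (k : K d) :
    fcv (fun i x => iod (ser (pr γ)) β i x + iod (ser (pr β)) γ i x) k =
      Complex.I • ((∑' m, dot k (pr γ m) • pr β (k - m)) +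
        (∑' m, dot k (pr β m) • pr γ (k - m)) -
        (∑' m, prod_bd (pr γ m) (pr β (k - m))) • kv k) := by
  have hβ3 : TFN 3 β := fun i => ⟨(hβ i).1.of_le (by norm_num), (hβ i).2⟩
  have hγ3 : TFN 3 γ := fun i => ⟨(hγ i).1.of_le (by norm_num), (hγ i).2⟩
  have hβ8 : TFN 8 β := fun i => ⟨(hβ i).1.of_le (by norm_num), (hβ i).2⟩
  have hγ8 : TFN 8 γ := fun i => ⟨(hγ i).1.of_le (by norm_num), (hγ i).2⟩
  have hVβ := pr_isV hd hβ3
  have hVγ := pr_isV hd hγ3
  have h4β := pr_SW4 hd hβ8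
  have h4γ := pr_SW4 hd hγ8
  have h0 : fcv (fun i x => iod (ser (pr γ)) β i x + iod (ser (pr β)) γ i x) k =
      fcv (iod (ser (pr γ)) β) k + fcv (iod (ser (pr β)) γ) k := by
    ext i
    simp only [fcv, PiLp.add_apply]
    exact fc_add (prod_iod_int hVγ h4γ hβ i) (prod_iod_int hVβ h4β hγ i) k
  rw [h0, prod_fcv hVγ h4γ hβ hVβ, prod_fcv hVβ h4β hγ hVγ, ← smul_add,
    prod_fcv' (prod_sw hVγ h4γ).1 hVβ]

theorem Lk_pr (hd : d = 2 ∨ d = 3) {β γ : VF d} (hβ : TFN 10 β) (hγ : TFN 10 γ) :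
    Lk (pr γ) (pr β) = pr (fun i x => iod (ser (pr γ)) β i x + iod (ser (pr β)) γ i x) := by
  funext k
  show Bk (pr γ) (pr β) k + Bk (pr β) (pr γ) k = Pk k (fcv _ k)
  rw [prod_main hd hβ hγ, Pk_smul, Pk_sub, Pk_add, Pk_smul, Pk_kv, smul_zero, sub_zero, smul_add]
  rfl

theorem int_iod (hd : d = 2 ∨ d = 3) {β γ : VF d} (hβ : TFN 10 β) (hγ : TFN 10 γ) (i : Fin d) :
    ∫ x, (iod (ser (pr γ)) β i x + iod (ser (pr β)) γ i x) = 0 := by
  have h := prod_main hd hβ hγ 0
  have hk : kv (0 : K d) = 0 := by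
    ext i
    simp [kv]
  simp only [dot_zero_left, zero_smul, tsum_zero, hk, smul_zero, add_zero, sub_zero] at h
  have h1 := congrArg (fun c : Cv d => c i) h
  simp only [fcv, PiLp.zero_apply] at h1
  rw [fc_zero_index] at h1
  have h2 : ((2 * Real.pi) ^ d : ℝ)⁻¹ *
      ∫ x, (iod (ser (pr γ)) β i x + iod (ser (pr β)) γ i x) = 0 := by
    exact_mod_cast h1
  have hpos : ((2 * Real.pi) ^ d : ℝ)⁻¹ ≠ 0 := by positivity
  exact (mul_eq_zero.1 h2).resolve_left hpos

theorem bk_pr (hd : d = 2 ∨ d = 3) {γ : VF d} (hγ : TFN 10 γ) :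
    Bk (pr γ) (pr γ) = pr (iod (ser (pr γ)) γ) := by
  have h := Lk_pr hd hγ hγ
  have h1 : (fun i x => iod (ser (pr γ)) γ i x + iod (ser (pr γ)) γ i x) =
      (fun i x => (2 : ℝ) * iod (ser (pr γ)) γ i x : VF d) := by
    funext i x
    ring
  rw [h1, pr_smul] at h
  have h2 : Lk (pr γ) (pr γ) = (2 : ℝ) • Bk (pr γ) (pr γ) := by
    unfold Lk
    rw [two_smul]
  rw [h2] at h
  exact smul_right_injective _ (two_ne_zero) h

theorem int_iod_self (hd : d = 2 ∨ d = 3) {γ : VF d} (hγ : TFN 10 γ) (i : Fin d) :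
    ∫ x, iod (ser (pr γ)) γ i x = 0 := by
  have h := int_iod hd hγ hγ i
  have h1 : (fun x => iod (ser (pr γ)) γ i x + iod (ser (pr γ)) γ i x) =
      fun x => (2 : ℝ) * iod (ser (pr γ)) γ i x := by
    funext x
    ring
  rw [h1, integral_const_mul] at h
  linarith

end NSC
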