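import Pool.Agent.Work.MP_57e339_an.Calc

/-! Module SL: discrete (semi-Lagrangian) transport of a compactly supported one-form. -/

open MeasureTheory Set Filter Topology
open scoped BigOperators
noncomputable section
namespace NSC
variable {d : ℕ}

/-- the point with coordinates `v i x` -/
def vpt (v : VF d) (x : Rv d) : Rv d := WithLp.toLp 2 fun i => v i x

/-- Lie derivative of a one-form -/
def lie (v β : VF d) : VF d := fun i x => ∑ j, (v j x * pd j (β i) x + pd i (v j) x * β j x)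

/-- pull-back of a one-form by `x ↦ x + κ v(x)` -/
def pull (κ : ℝ) (v β : VF d) : VF d := fun i x =>
  β i (x + κ • vpt v x) + κ * ∑ j, pd i (v j) x * β j (x + κ • vpt v x)

theorem lie_eq {v β : VF d} (hv : ∀ i, ContDiff ℝ 1 (v i)) (hβ : ∀ i, ContDiff ℝ 1 (β i))
    (i : Fin d) (x : Rv d) :
    lie v β i x = iod v β i x + pd i (fun y => ∑ j, v j y * β j y) x := by
  have hdv : ∀ j, DifferentiableAt ℝ (v j) x := fun j => (hv j).differentiable (by norm_num) x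
  have hdβ : ∀ j, DifferentiableAt ℝ (β j) x := fun j => (hβ j).differentiable (by norm_num) x
  rw [pd_sum (f := fun j y => v j y * β j y) Finset.univ (fun j _ => (hdv j).mul (hdβ j)) i]
  unfold lie iod
  rw [← Finset.sum_add_distrib]
  refine Finset.sum_congr rfl fun j _ => ?_
  rw [pd_mul (hdv j) (hdβ j)]
  ring

/-- composition with `x ↦ x + κ v(x)` -/
private def slS (κ : ℝ) (v : VF d) (f : Rv d → ℝ) : Rv d → ℝ := fun x => f (x + κ • vpt v x)

private theorem sl_le {n : ℕ} {f : Rv d → ℝ} (hf : ContDiff ℝ (⊤ : ℕ∞) f) : ContDiff ℝ n f :=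
  hf.of_le (by exact_mod_cast le_top)

private theorem sl_vpt_smooth {v : VF d} (hv : ∀ i, ContDiff ℝ (⊤ : ℕ∞) (v i)) (κ : ℝ) :
    ContDiff ℝ (⊤ : ℕ∞) (fun x : Rv d => x + κ • vpt v x) := by
  have h : ContDiff ℝ (⊤ : ℕ∞) (vpt v) := by
    rw [contDiff_euclidean]
    intro i
    exact hv i
  exact contDiff_id.add (h.const_smul κ)

private theorem slS_smooth {v : VF d} (hv : ∀ i, ContDiff ℝ (⊤ : ℕ∞) (v i)) (κ : ℝ)
    {f : Rv d → ℝ} (hf : ContDiff ℝ (⊤ : ℕ∞) f) : ContDiff ℝ (⊤ : ℕ∞) (slS κ v f) :=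
  hf.comp (sl_vpt_smooth hv κ)

private theorem slS_pd {v : VF d} (hv : ∀ i, ContDiff ℝ (⊤ : ℕ∞) (v i)) (κ : ℝ)
    {f : Rv d → ℝ} (hf : ContDiff ℝ (⊤ : ℕ∞) f) (i : Fin d) :
    pd i (slS κ v f) = fun x => slS κ v (pd i f) x +
      κ * ∑ j, pd i (v j) x * slS κ v (pd j f) x := by
  funext x
  set Φ : Rv d → Rv d := fun x => x + κ • vpt v x with hΦ
  have hΦd : DifferentiableAt ℝ Φ x := (sl_vpt_smooth hv κ).differentiable (by simp) x
  have hfd : DifferentiableAt ℝ f (Φ x) := hf.differentiable (by simp) _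
  have h1 : pd i (slS κ v f) x = fderiv ℝ f (Φ x) (fderiv ℝ Φ x (ev i)) := by
    change fderiv ℝ (f ∘ Φ) x (ev i) = _
    rw [fderiv_comp x hfd hΦd]
    rfl
  have h2 : ∀ j, (fderiv ℝ Φ x (ev i)) j = (if i = j then 1 else 0) + κ * pd i (v j) x := by
    intro j
    have h3 : (fderiv ℝ Φ x (ev i)) j = pd i (fun y => Φ y j) x := by
      unfold pd
      have h4 : HasFDerivAt (fun y => Φ y j)
          ((EuclideanSpace.proj j : Rv d →L[ℝ] ℝ).comp (fderiv ℝ Φ x)) x :=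
        (EuclideanSpace.proj j : Rv d →L[ℝ] ℝ).hasFDerivAt.comp x hΦd.hasFDerivAt
      rw [h4.fderiv]
      rfl
    rw [h3]
    have h5 : (fun y => Φ y j) = fun y => y j + κ * v j y := by
      funext y
      rfl
    rw [h5, pd_add, pd_coord, pd_const_mul]
    · exact (hv j).differentiable (by simp) x
    · exact (contDiff_piLp_apply (n := (⊤ : ℕ∞)) (𝕜 := ℝ) (i := j) 2).differentiable (by simp) x
    · exact ((hv j).differentiable (by simp) x).const_mul κ
  rw [h1, fderiv_eq_sum hfd]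
  simp_rw [h2]
  unfold slS
  simp_rw [add_mul, Finset.sum_add_distrib, ite_mul, one_mul, zero_mul]
  rw [Finset.sum_ite_eq, if_pos (Finset.mem_univ i), Finset.mul_sum]
  congr 1
  refine Finset.sum_congr rfl fun j _ => ?_
  ring

private theorem sl_norm_vpt {v : VF d} {V : ℝ} (hV : ∀ i x, |v i x| ≤ V) (x : Rv d) :
    ‖vpt v x‖ ≤ Real.sqrt (d * V ^ 2) := by
  rw [EuclideanSpace.norm_eq]
  apply Real.sqrt_le_sqrt
  calc ∑ j, ‖vpt v x j‖ ^ 2 ≤ ∑ _j : Fin d, V ^ 2 := by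
        refine Finset.sum_le_sum fun j _ => ?_
        rw [Real.norm_eq_abs]
        exact pow_le_pow_left₀ (abs_nonneg _) (hV j x) 2
    _ = d * V ^ 2 := by simp

/-- the sum `κ ∑ ∂_i v_j g_j` -/
private theorem sl_sum {v : VF d} (hv : ∀ i, ContDiff ℝ (⊤ : ℕ∞) (v i)) {l : ℕ} {V : ℝ}
    (hV : ∀ i, Nb (l + 1) V (v i)) {κ : ℝ} (hκ : 0 ≤ κ) {g : VF d}
    (hg : ∀ i, ContDiff ℝ (⊤ : ℕ∞) (g i)) {A : ℝ} (hA : ∀ i, Nb l A (g i)) (i : Fin d) :
    Nb l (κ * (d * (2 ^ l * V * A))) (fun x => κ * ∑ j, pd i (v j) x * g j x) := by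
  have h1 : ∀ j, ContDiff ℝ l (fun x => pd i (v j) x * g j x) := fun j =>
    sl_le ((contDiff_pd_top (hv j) i).mul (hg j))
  have h2 : ∀ j ∈ (Finset.univ : Finset (Fin d)),
      Nb l (2 ^ l * V * A) (fun x => pd i (v j) x * g j x) := fun j _ =>
    Nb.mul (sl_le (contDiff_pd_top (hv j) i)) (sl_le (hg j)) ((hV j).pd i) (hA j)
  have h3 := Nb.sum Finset.univ (fun j _ => h1 j) h2
  have h4 := Nb.const_mul (ContDiff.sum fun j _ => h1 j) h3 κ
  rw [abs_of_nonneg hκ] at h4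
  simpa using h4

/-- uniform boundedness of the vector field -/
private def slB (v : VF d) : Prop := ∀ m : ℕ, ∃ V : ℝ, 0 ≤ V ∧ ∀ i, Nb m V (v i)

private theorem sl_bS {v : VF d} (hv : ∀ i, ContDiff ℝ (⊤ : ℕ∞) (v i)) (hB : slB v) {s : ℝ}
    (hs : 0 ≤ s) (l : ℕ) : ∃ C : ℝ, 0 ≤ C ∧ ∀ κ, 0 ≤ κ → κ ≤ s → ∀ (f : Rv d → ℝ) (A : ℝ),
      ContDiff ℝ (⊤ : ℕ∞) f → Nb l A f → Nb l ((1 + C * κ) * A) (slS κ v f) := by
  induction l with
  | zero =>
    refine ⟨0, le_rfl, fun κ _ _ f A _ hf x => ?_⟩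
    rw [zero_mul, add_zero, one_mul]
    exact hf _
  | succ l ih =>
    obtain ⟨C, hC, h⟩ := ih
    obtain ⟨V, hV0, hV⟩ := hB (l + 1)
    refine ⟨C + d * (2 ^ l * V * (1 + C * s)), by positivity, fun κ hκ hκs f A hf hA => ?_⟩
    have hA0 : 0 ≤ A := hA.nonneg
    have hle : (1 + C * κ) ≤ 1 + C * s := by nlinarith
    refine ⟨fun x => ?_, fun i => ?_⟩
    · have h1 : |slS κ v f x| ≤ A := hA.bd _
      refine h1.trans ?_
      have : 0 ≤ (C + d * (2 ^ l * V * (1 + C * s))) * κ := by positivity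
      nlinarith
    · rw [slS_pd hv κ hf i]
      have hp : ∀ j, Nb l ((1 + C * κ) * A) (slS κ v (pd j f)) := fun j =>
        h κ hκ hκs (pd j f) A (contDiff_pd_top hf j) (hA.pd j)
      have h1 := sl_sum hv hV hκ (g := fun j => slS κ v (pd j f))
        (fun j => slS_smooth hv κ (contDiff_pd_top hf j)) hp i
      have h2 := Nb.add (sl_le (slS_smooth hv κ (contDiff_pd_top hf i)))
        (sl_le (contDiff_const.mul (ContDiff.sum fun j _ =>
          (contDiff_pd_top (hv j) i).mul (slS_smooth hv κ (contDiff_pd_top hf j))))) (hp i) h1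
      refine h2.mono ?_
      have h3 : (2 : ℝ) ^ l * V * ((1 + C * κ) * A) ≤ 2 ^ l * V * ((1 + C * s) * A) :=
        mul_le_mul_of_nonneg_left (mul_le_mul_of_nonneg_right hle hA0) (by positivity)
      calc (1 + C * κ) * A + κ * (d * (2 ^ l * V * ((1 + C * κ) * A)))
          ≤ (1 + C * κ) * A + κ * (d * (2 ^ l * V * ((1 + C * s) * A))) := by gcongr
        _ = (1 + (C + d * (2 ^ l * V * (1 + C * s))) * κ) * A := by ring

private theorem sl_bD {v : VF d} (hv : ∀ i, ContDiff ℝ (⊤ : ℕ∞) (v i)) (hB : slB v) {s : ℝ}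
    (hs : 0 ≤ s) (l : ℕ) : ∃ C : ℝ, 0 ≤ C ∧ ∀ κ, 0 ≤ κ → κ ≤ s → ∀ (f : Rv d → ℝ) (A : ℝ),
      ContDiff ℝ (⊤ : ℕ∞) f → Nb (l + 1) A f →
        Nb l (C * κ * A) (fun x => slS κ v f x - f x) := by
  obtain ⟨V₀, hV₀, hV₀'⟩ := hB 0
  set n₀ := Real.sqrt (d * V₀ ^ 2) with hn₀
  have hn : ∀ x, ‖vpt v x‖ ≤ n₀ := fun x => sl_norm_vpt (fun i x => (hV₀' i) x) x
  have hn0 : 0 ≤ n₀ := Real.sqrt_nonneg _
  have base : ∀ κ, 0 ≤ κ → ∀ (f : Rv d → ℝ) (A : ℝ), ContDiff ℝ (⊤ : ℕ∞) f → Nb 1 A f →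
      ∀ x, |slS κ v f x - f x| ≤ d * n₀ * κ * A := by
    intro κ hκ f A hf hA x
    have hA0 : 0 ≤ A := hA.nonneg
    have h1 := nb_trans_sub (m := 0) (sl_le hf) hA (-(κ • vpt v x))
    have h2 : |f (x - -(κ • vpt v x)) - f x| ≤ (d : ℝ) * A * ‖-(κ • vpt v x)‖ := h1 x
    rw [sub_neg_eq_add, norm_neg, norm_smul, Real.norm_eq_abs, abs_of_nonneg hκ] at h2
    refine h2.trans ?_
    calc (d : ℝ) * A * (κ * ‖vpt v x‖) ≤ d * A * (κ * n₀) := by
          gcongr
          exact hn x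
      _ = d * n₀ * κ * A := by ring
  induction l with
  | zero => exact ⟨d * n₀, by positivity, fun κ hκ _ f A hf hA x => base κ hκ f A hf hA x⟩
  | succ l ih =>
    obtain ⟨C, hC, h⟩ := ih
    obtain ⟨V, hV0, hV⟩ := hB (l + 1)
    obtain ⟨CS, hCS, hS⟩ := sl_bS hv hB hs l
    refine ⟨d * n₀ + C + d * (2 ^ l * V * (1 + CS * s)), by positivity,
      fun κ hκ hκs f A hf hA => ?_⟩
    have hA0 : 0 ≤ A := hA.nonneg
    have hle : (1 + CS * κ) ≤ 1 + CS * s := by nlinarith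
    refine ⟨fun x => ?_, fun i => ?_⟩
    · refine (base κ hκ f A hf (hA.le (by omega)) x).trans ?_
      have : 0 ≤ (C + d * (2 ^ l * V * (1 + CS * s))) * κ * A := by positivity
      nlinarith
    · have hsm := slS_smooth hv κ hf
      have hpd : pd i (fun x => slS κ v f x - f x) = fun x =>
          (slS κ v (pd i f) x - pd i f x) + κ * ∑ j, pd i (v j) x * slS κ v (pd j f) x := by
        funext x
        rw [pd_sub (hsm.differentiable (by simp) x) (hf.differentiable (by simp) x),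
          slS_pd hv κ hf i]
        ring
      rw [hpd]
      have hp : ∀ j, Nb l ((1 + CS * κ) * A) (slS κ v (pd j f)) := fun j =>
        hS κ hκ hκs (pd j f) A (contDiff_pd_top hf j) ((hA.pd j).le (by omega))
      have h1 := sl_sum hv hV hκ (g := fun j => slS κ v (pd j f))
        (fun j => slS_smooth hv κ (contDiff_pd_top hf j)) hp i
      have h2 := h κ hκ hκs (pd i f) A (contDiff_pd_top hf i) (hA.pd i)
      have h3 := Nb.add (sl_le ((slS_smooth hv κ (contDiff_pd_top hf i)).sub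
        (contDiff_pd_top hf i)))
        (sl_le (contDiff_const.mul (ContDiff.sum fun j _ =>
          (contDiff_pd_top (hv j) i).mul (slS_smooth hv κ (contDiff_pd_top hf j))))) h2 h1
      refine h3.mono ?_
      have h4 : (2 : ℝ) ^ l * V * ((1 + CS * κ) * A) ≤ 2 ^ l * V * ((1 + CS * s) * A) :=
        mul_le_mul_of_nonneg_left (mul_le_mul_of_nonneg_right hle hA0) (by positivity)
      have h5 : 0 ≤ d * n₀ * κ * A := by positivity
      calc C * κ * A + κ * (d * (2 ^ l * V * ((1 + CS * κ) * A)))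
          ≤ d * n₀ * κ * A + C * κ * A + κ * (d * (2 ^ l * V * ((1 + CS * s) * A))) := by
            have : κ * (d * (2 ^ l * V * ((1 + CS * κ) * A))) ≤
              κ * (d * (2 ^ l * V * ((1 + CS * s) * A))) := by gcongr
            linarith
        _ = (d * n₀ + C + d * (2 ^ l * V * (1 + CS * s))) * κ * A := by ring

private theorem sl_bE {v : VF d} (hv : ∀ i, ContDiff ℝ (⊤ : ℕ∞) (v i)) (hB : slB v) {s : ℝ}
    (hs : 0 ≤ s) (l : ℕ) : ∃ C : ℝ, 0 ≤ C ∧ ∀ κ, 0 ≤ κ → κ ≤ s → ∀ (f : Rv d → ℝ) (A : ℝ),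
      ContDiff ℝ (⊤ : ℕ∞) f → Nb (l + 2) A f →
        Nb l (C * κ ^ 2 * A) (fun x => slS κ v f x - f x - κ * ∑ j, v j x * pd j f x) := by
  obtain ⟨V₀, hV₀, hV₀'⟩ := hB 0
  set n₀ := Real.sqrt (d * V₀ ^ 2) with hn₀
  have hn : ∀ x, ‖vpt v x‖ ≤ n₀ := fun x => sl_norm_vpt (fun i x => (hV₀' i) x) x
  have hn0 : 0 ≤ n₀ := Real.sqrt_nonneg _
  have base : ∀ κ, 0 ≤ κ → ∀ (f : Rv d → ℝ) (A : ℝ), ContDiff ℝ (⊤ : ℕ∞) f → Nb 2 A f →
      ∀ x, |slS κ v f x - f x - κ * ∑ j, v j x * pd j f x| ≤ (d : ℝ) ^ 2 * n₀ ^ 2 * κ ^ 2 * A := by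
    intro κ hκ f A hf hA x
    have hA0 : 0 ≤ A := hA.nonneg
    have h1 := nb_trans_taylor (m := 0) (sl_le hf) hA (-(κ • vpt v x))
    have h2 : |f (x - -(κ • vpt v x)) - f x + ∑ i, (-(κ • vpt v x)) i * pd i f x| ≤
      (d : ℝ) ^ 2 * A * ‖-(κ • vpt v x)‖ ^ 2 := h1 x
    have h3 : f (x - -(κ • vpt v x)) - f x + ∑ i, (-(κ • vpt v x)) i * pd i f x =
        slS κ v f x - f x - κ * ∑ j, v j x * pd j f x := by
      rw [sub_neg_eq_add, Finset.mul_sum, sub_eq_add_neg (slS κ v f x - f x),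
        ← Finset.sum_neg_distrib]
      unfold slS
      congr 1
      refine Finset.sum_congr rfl fun j _ => ?_
      have : (-(κ • vpt v x)) j = -(κ * v j x) := rfl
      rw [this]
      ring
    rw [h3, norm_neg, norm_smul, Real.norm_eq_abs, abs_of_nonneg hκ] at h2
    refine h2.trans ?_
    calc (d : ℝ) ^ 2 * A * (κ * ‖vpt v x‖) ^ 2 ≤ (d : ℝ) ^ 2 * A * (κ * n₀) ^ 2 := by
          gcongr
          exact hn x
      _ = (d : ℝ) ^ 2 * n₀ ^ 2 * κ ^ 2 * A := by ring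
  induction l with
  | zero =>
    exact ⟨(d : ℝ) ^ 2 * n₀ ^ 2, by positivity, fun κ hκ _ f A hf hA x => base κ hκ f A hf hA x⟩
  | succ l ih =>
    obtain ⟨C, hC, h⟩ := ih
    obtain ⟨V, hV0, hV⟩ := hB (l + 1)
    obtain ⟨CD, hCD, hD⟩ := sl_bD hv hB hs l
    refine ⟨(d : ℝ) ^ 2 * n₀ ^ 2 + C + d * (2 ^ l * V * CD), by positivity,
      fun κ hκ hκs f A hf hA => ?_⟩
    have hA0 : 0 ≤ A := hA.nonneg
    have hsm := slS_smooth hv κ hf
    refine ⟨fun x => ?_, fun i => ?_⟩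
    · refine (base κ hκ f A hf (hA.le (by omega)) x).trans ?_
      have : 0 ≤ (C + d * (2 ^ l * V * CD)) * κ ^ 2 * A := by positivity
      nlinarith
    · have hpd : pd i (fun x => slS κ v f x - f x - κ * ∑ j, v j x * pd j f x) = fun x =>
          (slS κ v (pd i f) x - pd i f x - κ * ∑ j, v j x * pd j (pd i f) x) +
            κ * ∑ j, pd i (v j) x * (slS κ v (pd j f) x - pd j f x) := by
        funext x
        have e1 : DifferentiableAt ℝ (slS κ v f) x := hsm.differentiable (by simp) x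
        have e2 : DifferentiableAt ℝ f x := hf.differentiable (by simp) x
        have e3 : ∀ j, DifferentiableAt ℝ (v j) x := fun j => (hv j).differentiable (by simp) x
        have e4 : ∀ j, DifferentiableAt ℝ (pd j f) x := fun j =>
          (contDiff_pd_top hf j).differentiable (by simp) x
        have e5 : DifferentiableAt ℝ (fun y => ∑ j, v j y * pd j f y) x := by
          have : ContDiff ℝ (⊤ : ℕ∞) (fun y => ∑ j, v j y * pd j f y) :=
            ContDiff.sum fun j _ => (hv j).mul (contDiff_pd_top hf j)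
          exact this.differentiable (by simp) x
        have e12 : DifferentiableAt ℝ (fun y => slS κ v f y - f y) x := e1.sub e2
        have e5' : DifferentiableAt ℝ (fun y => κ * ∑ j, v j y * pd j f y) x := e5.const_mul κ
        rw [pd_sub e12 e5', pd_sub e1 e2, pd_const_mul e5,
          pd_sum (f := fun j y => v j y * pd j f y) Finset.univ
            (fun j _ => (e3 j).mul (e4 j)), slS_pd hv κ hf i]
        have e6 : ∑ j, pd i (fun y => v j y * pd j f y) x =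
            ∑ j, pd i (v j) x * pd j f x + ∑ j, v j x * pd j (pd i f) x := by
          rw [← Finset.sum_add_distrib]
          refine Finset.sum_congr rfl fun j _ => ?_
          rw [pd_mul (e3 j) (e4 j), pd_comm (sl_le (n := 2) hf) i j]
        rw [e6]
        simp only [mul_sub, Finset.sum_sub_distrib]
        ring
      rw [hpd]
      have hp : ∀ j, Nb l (CD * κ * A) (fun x => slS κ v (pd j f) x - pd j f x) := fun j =>
        hD κ hκ hκs (pd j f) A (contDiff_pd_top hf j) ((hA.pd j).le (by omega))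
      have h1 := sl_sum hv hV hκ (g := fun j x => slS κ v (pd j f) x - pd j f x)
        (fun j => (slS_smooth hv κ (contDiff_pd_top hf j)).sub (contDiff_pd_top hf j)) hp i
      have h2 := h κ hκ hκs (pd i f) A (contDiff_pd_top hf i) (hA.pd i)
      have h3 := Nb.add (sl_le (((slS_smooth hv κ (contDiff_pd_top hf i)).sub
        (contDiff_pd_top hf i)).sub (contDiff_const.mul (ContDiff.sum fun j _ =>
          (hv j).mul (contDiff_pd_top (contDiff_pd_top hf i) j)))))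
        (sl_le (contDiff_const.mul (ContDiff.sum fun j _ =>
          (contDiff_pd_top (hv j) i).mul
            ((slS_smooth hv κ (contDiff_pd_top hf j)).sub (contDiff_pd_top hf j))))) h2 h1
      refine h3.mono ?_
      have h5 : 0 ≤ (d : ℝ) ^ 2 * n₀ ^ 2 * κ ^ 2 * A := by positivity
      calc C * κ ^ 2 * A + κ * (d * (2 ^ l * V * (CD * κ * A)))
          ≤ (d : ℝ) ^ 2 * n₀ ^ 2 * κ ^ 2 * A + (C * κ ^ 2 * A +
            κ * (d * (2 ^ l * V * (CD * κ * A)))) := by linarith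
        _ = ((d : ℝ) ^ 2 * n₀ ^ 2 + C + d * (2 ^ l * V * CD)) * κ ^ 2 * A := by ring

private theorem pull_eq (κ : ℝ) (v f : VF d) (i : Fin d) : pull κ v f i = fun x =>
    slS κ v (f i) x + κ * ∑ j, pd i (v j) x * slS κ v (f j) x := rfl

private theorem pull_smooth {v : VF d} (hv : ∀ i, ContDiff ℝ (⊤ : ℕ∞) (v i)) (κ : ℝ)
    {f : VF d} (hf : ∀ i, ContDiff ℝ (⊤ : ℕ∞) (f i)) (i : Fin d) :
    ContDiff ℝ (⊤ : ℕ∞) (pull κ v f i) := by
  rw [pull_eq]
  exact (slS_smooth hv κ (hf i)).add (contDiff_const.mul (ContDiff.sum fun j _ =>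
    (contDiff_pd_top (hv j) i).mul (slS_smooth hv κ (hf j))))

private theorem sl_bP {v : VF d} (hv : ∀ i, ContDiff ℝ (⊤ : ℕ∞) (v i)) (hB : slB v) {s : ℝ}
    (hs : 0 ≤ s) (l : ℕ) : ∃ C : ℝ, 0 ≤ C ∧ ∀ κ, 0 ≤ κ → κ ≤ s → ∀ (f : VF d) (A : ℝ), 0 ≤ A →
      (∀ i, ContDiff ℝ (⊤ : ℕ∞) (f i)) → (∀ i, Nb l A (f i)) →
        ∀ i, Nb l ((1 + C * κ) * A) (pull κ v f i) := by
  obtain ⟨V, hV0, hV⟩ := hB (l + 1)
  obtain ⟨C, hC, h⟩ := sl_bS hv hB hs l
  refine ⟨C + d * (2 ^ l * V * (1 + C * s)), by positivity, fun κ hκ hκs f A hA0 hf hA i => ?_⟩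
  have hle : (1 + C * κ) ≤ 1 + C * s := by nlinarith
  rw [pull_eq]
  have hp : ∀ j, Nb l ((1 + C * κ) * A) (slS κ v (f j)) := fun j =>
    h κ hκ hκs (f j) A (hf j) (hA j)
  have h1 := sl_sum hv hV hκ (g := fun j => slS κ v (f j)) (fun j => slS_smooth hv κ (hf j)) hp i
  have h2 := Nb.add (sl_le (slS_smooth hv κ (hf i)))
    (sl_le (contDiff_const.mul (ContDiff.sum fun j _ =>
      (contDiff_pd_top (hv j) i).mul (slS_smooth hv κ (hf j))))) (hp i) h1
  refine h2.mono ?_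
  calc (1 + C * κ) * A + κ * (d * (2 ^ l * V * ((1 + C * κ) * A)))
      ≤ (1 + C * κ) * A + κ * (d * (2 ^ l * V * ((1 + C * s) * A))) := by gcongr
    _ = (1 + (C + d * (2 ^ l * V * (1 + C * s))) * κ) * A := by ring

private theorem sl_bQ {v : VF d} (hv : ∀ i, ContDiff ℝ (⊤ : ℕ∞) (v i)) (hB : slB v) {s : ℝ}
    (hs : 0 ≤ s) (l : ℕ) : ∃ C : ℝ, 0 ≤ C ∧ ∀ κ, 0 ≤ κ → κ ≤ s → ∀ (f : VF d) (A : ℝ), 0 ≤ A →
      (∀ i, ContDiff ℝ (⊤ : ℕ∞) (f i)) → (∀ i, Nb (l + 1) A (f i)) →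
        ∀ i, Nb l (C * κ * A) (fun x => pull κ v f i x - f i x) := by
  obtain ⟨V, hV0, hV⟩ := hB (l + 1)
  obtain ⟨C, hC, h⟩ := sl_bS hv hB hs l
  obtain ⟨CD, hCD, hD⟩ := sl_bD hv hB hs l
  refine ⟨CD + d * (2 ^ l * V * (1 + C * s)), by positivity, fun κ hκ hκs f A hA0 hf hA i => ?_⟩
  have hle : (1 + C * κ) ≤ 1 + C * s := by nlinarith
  have e : (fun x => pull κ v f i x - f i x) = fun x => (slS κ v (f i) x - f i x) +
      κ * ∑ j, pd i (v j) x * slS κ v (f j) x := by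
    funext x
    rw [pull_eq]
    ring
  rw [e]
  have hp : ∀ j, Nb l ((1 + C * κ) * A) (slS κ v (f j)) := fun j =>
    h κ hκ hκs (f j) A (hf j) ((hA j).le (by omega))
  have h1 := sl_sum hv hV hκ (g := fun j => slS κ v (f j)) (fun j => slS_smooth hv κ (hf j)) hp i
  have h2 := Nb.add (sl_le ((slS_smooth hv κ (hf i)).sub (hf i)))
    (sl_le (contDiff_const.mul (ContDiff.sum fun j _ =>
      (contDiff_pd_top (hv j) i).mul (slS_smooth hv κ (hf j)))))
    (hD κ hκ hκs (f i) A (hf i) (hA i)) h1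
  refine h2.mono ?_
  calc CD * κ * A + κ * (d * (2 ^ l * V * ((1 + C * κ) * A)))
      ≤ CD * κ * A + κ * (d * (2 ^ l * V * ((1 + C * s) * A))) := by gcongr
    _ = (CD + d * (2 ^ l * V * (1 + C * s))) * κ * A := by ring

private theorem lie_smooth {v : VF d} (hv : ∀ i, ContDiff ℝ (⊤ : ℕ∞) (v i))
    {f : VF d} (hf : ∀ i, ContDiff ℝ (⊤ : ℕ∞) (f i)) (i : Fin d) :
    ContDiff ℝ (⊤ : ℕ∞) (lie v f i) := by
  unfold lie
  exact ContDiff.sum fun j _ => ((hv j).mul (contDiff_pd_top (hf i) j)).add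
    ((contDiff_pd_top (hv j) i).mul (hf j))

private theorem sl_lie {v : VF d} (hv : ∀ i, ContDiff ℝ (⊤ : ℕ∞) (v i)) {l : ℕ} {V : ℝ}
    (hV : ∀ i, Nb (l + 1) V (v i)) {g : VF d}
    (hg : ∀ i, ContDiff ℝ (⊤ : ℕ∞) (g i)) {A : ℝ} (hA : ∀ i, Nb (l + 1) A (g i)) (i : Fin d) :
    Nb l (d * (2 ^ l * V * A + 2 ^ l * V * A)) (lie v g i) := by
  unfold lie
  have h2 : ∀ j ∈ (Finset.univ : Finset (Fin d)),
      Nb l (2 ^ l * V * A + 2 ^ l * V * A)
        (fun x => v j x * pd j (g i) x + pd i (v j) x * g j x) := fun j _ =>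
    Nb.add (sl_le ((hv j).mul (contDiff_pd_top (hg i) j)))
      (sl_le ((contDiff_pd_top (hv j) i).mul (hg j)))
      (Nb.mul (sl_le (hv j)) (sl_le (contDiff_pd_top (hg i) j)) ((hV j).le (by omega))
        ((hA i).pd j))
      (Nb.mul (sl_le (contDiff_pd_top (hv j) i)) (sl_le (hg j)) ((hV j).pd i)
        ((hA j).le (by omega)))
  have h3 := Nb.sum Finset.univ (fun j _ => sl_le (((hv j).mul (contDiff_pd_top (hg i) j)).add
    ((contDiff_pd_top (hv j) i).mul (hg j)))) h2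
  refine h3.mono (le_of_eq ?_)
  simp only [Finset.sum_const, Finset.card_univ, Fintype.card_fin, nsmul_eq_mul]

private theorem sl_res {v : VF d} (hv : ∀ i, ContDiff ℝ (⊤ : ℕ∞) (v i)) (hB : slB v) {s : ℝ}
    (hs : 0 ≤ s) (m : ℕ) : ∃ C : ℝ, 0 ≤ C ∧ ∀ κ, 0 ≤ κ → κ ≤ s → ∀ (f : VF d) (A : ℝ), 0 ≤ A →
      (∀ i, ContDiff ℝ (⊤ : ℕ∞) (f i)) → (∀ i, Nb (m + 2) A (f i)) →
        ∀ i, Nb m (C * κ ^ 2 * A)
          (fun x => f i x - pull κ v f i x + κ * lie v (pull κ v f) i x) := by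
  obtain ⟨V, hV0, hV⟩ := hB (m + 1)
  obtain ⟨CE, hCE, hE⟩ := sl_bE hv hB hs m
  obtain ⟨CD, hCD, hD⟩ := sl_bD hv hB hs m
  obtain ⟨CQ, hCQ, hQ⟩ := sl_bQ hv hB hs (m + 1)
  refine ⟨CE + d * (2 ^ m * V * CD) + d * (2 ^ m * V * CQ + 2 ^ m * V * CQ), by positivity,
    fun κ hκ hκs f A hA0 hf hA i => ?_⟩
  set g : VF d := fun j x => pull κ v f j x - f j x with hg
  have hps := pull_smooth hv κ hf
  have hgs : ∀ j, ContDiff ℝ (⊤ : ℕ∞) (g j) := fun j => (hps j).sub (hf j)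
  have hgb : ∀ j, Nb (m + 1) (CQ * κ * A) (g j) := fun j => hQ κ hκ hκs f A hA0 hf hA j
  have hlin : ∀ x, lie v (pull κ v f) i x = lie v f i x + lie v g i x := by
    intro x
    unfold lie
    rw [← Finset.sum_add_distrib]
    refine Finset.sum_congr rfl fun j _ => ?_
    have e1 : pd j (g i) x = pd j (pull κ v f i) x - pd j (f i) x :=
      pd_sub ((hps i).differentiable (by simp) x) ((hf i).differentiable (by simp) x) j
    rw [e1, hg]
    ring
  have e : (fun x => f i x - pull κ v f i x + κ * lie v (pull κ v f) i x) = fun x =>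
      (-1 * (slS κ v (f i) x - f i x - κ * ∑ j, v j x * pd j (f i) x) +
        -1 * (κ * ∑ j, pd i (v j) x * (slS κ v (f j) x - f j x))) + κ * lie v g i x := by
    funext x
    rw [hlin x, pull_eq]
    have e2 : lie v f i x = ∑ j, v j x * pd j (f i) x + ∑ j, pd i (v j) x * f j x := by
      unfold lie
      rw [Finset.sum_add_distrib]
    rw [e2]
    simp only [mul_sub, Finset.sum_sub_distrib]
    ring
  rw [e]
  have s1 : ContDiff ℝ (⊤ : ℕ∞)
      (fun x => slS κ v (f i) x - f i x - κ * ∑ j, v j x * pd j (f i) x) :=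
    ((slS_smooth hv κ (hf i)).sub (hf i)).sub (contDiff_const.mul (ContDiff.sum fun j _ =>
      (hv j).mul (contDiff_pd_top (hf i) j)))
  have s2 : ContDiff ℝ (⊤ : ℕ∞)
      (fun x => κ * ∑ j, pd i (v j) x * (slS κ v (f j) x - f j x)) :=
    contDiff_const.mul (ContDiff.sum fun j _ =>
      (contDiff_pd_top (hv j) i).mul ((slS_smooth hv κ (hf j)).sub (hf j)))
  have s3 : ContDiff ℝ (⊤ : ℕ∞) (lie v g i) := lie_smooth hv hgs i
  have b1 := Nb.const_mul (sl_le s1) (hE κ hκ hκs (f i) A (hf i) (hA i)) (-1)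
  have b2 := Nb.const_mul (sl_le s2) (sl_sum hv hV hκ (g := fun j x => slS κ v (f j) x - f j x)
    (fun j => (slS_smooth hv κ (hf j)).sub (hf j))
    (fun j => hD κ hκ hκs (f j) A (hf j) ((hA j).le (by omega))) i) (-1)
  have b3 := Nb.const_mul (sl_le s3) (sl_lie hv hV hgs hgb i) κ
  have b4 := Nb.add (sl_le ((contDiff_const.mul s1).add (contDiff_const.mul s2)))
    (sl_le (contDiff_const.mul s3))
    (Nb.add (sl_le (contDiff_const.mul s1)) (sl_le (contDiff_const.mul s2)) b1 b2) b3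
  refine b4.mono (le_of_eq ?_)
  rw [abs_neg, abs_one, one_mul, one_mul, abs_of_nonneg hκ]
  ring

/-- `M` steps of size `s/M` of backward transport, ending (at the index `M`) with `β` -/
theorem sl_path {v β : VF d} (hv : ∀ i, ContDiff ℝ (⊤ : ℕ∞) (v i))
    (hvb : ∀ (m : ℕ), ∃ A, ∀ i, Nb m A (v i)) (hβ : TF β) {s : ℝ} (hs : 0 < s) (m : ℕ) :
    ∃ A : ℝ, 0 ≤ A ∧ ∀ M : ℕ, 0 < M → ∃ b : ℕ → VF d, b M = β ∧
      (∀ j ≤ M, (∀ i, ContDiff ℝ (⊤ : ℕ∞) (b j i)) ∧ (∀ i, Nb m A (b j i))) ∧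
      (∀ j < M, ∀ x, (∃ i, b j i x ≠ 0) → ∃ i, b (j + 1) i (x + (s / M) • vpt v x) ≠ 0) ∧
      (∀ j < M, ∀ i, Nb m (A * (s / M) ^ 2)
        (fun x => b (j + 1) i x - b j i x + (s / M) * lie v (b j) i x)) := by
  have hB : slB v := by
    intro m
    obtain ⟨A, hA⟩ := hvb m
    exact ⟨|A|, abs_nonneg _, fun i => (hA i).mono (le_abs_self A)⟩
  obtain ⟨CP, hCP, hP⟩ := sl_bP hv hB hs.le (m + 2)
  obtain ⟨CR, hCR, hR⟩ := sl_res hv hB hs.le m
  have hβb : ∀ i, ∃ A, Nb (m + 2) A (β i) := fun i => nb_exists (sl_le (hβ i).1) (hβ i).2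
  choose A' hA' using hβb
  set A₀ : ℝ := ∑ i, |A' i| with hA₀
  have hA₀0 : 0 ≤ A₀ := Finset.sum_nonneg fun i _ => abs_nonneg _
  have hA₀b : ∀ i, Nb (m + 2) A₀ (β i) := fun i => (hA' i).mono ((le_abs_self _).trans
    (Finset.single_le_sum (f := fun i => |A' i|) (fun i _ => abs_nonneg _) (Finset.mem_univ i)))
  set A₁ : ℝ := Real.exp (CP * s) * A₀ with hA₁
  have hA₁0 : 0 ≤ A₁ := by positivity
  refine ⟨A₁ + CR * A₁, by positivity, fun M hM => ?_⟩
  have hM' : (0 : ℝ) < M := by exact_mod_cast hM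
  set κ : ℝ := s / M with hκ
  have hκ0 : 0 ≤ κ := by positivity
  have hκs : κ ≤ s := by
    rw [hκ, div_le_iff₀ hM']
    have : (1 : ℝ) ≤ M := by exact_mod_cast hM
    nlinarith
  let c : ℕ → VF d := fun n => (pull κ v)^[n] β
  have hc0 : c 0 = β := rfl
  have hcs : ∀ n, c (n + 1) = pull κ v (c n) := fun n => Function.iterate_succ_apply' _ _ _
  have hcsm : ∀ n i, ContDiff ℝ (⊤ : ℕ∞) (c n i) := by
    intro n
    induction n with
    | zero => intro i; rw [hc0]; exact (hβ i).1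
    | succ n ih => intro i; rw [hcs]; exact pull_smooth hv κ ih i
  have hcb : ∀ n i, Nb (m + 2) ((1 + CP * κ) ^ n * A₀) (c n i) := by
    intro n
    induction n with
    | zero => intro i; rw [hc0, pow_zero, one_mul]; exact hA₀b i
    | succ n ih =>
      intro i
      rw [hcs]
      have := hP κ hκ0 hκs (c n) ((1 + CP * κ) ^ n * A₀) (by positivity) (hcsm n) ih i
      refine this.mono (le_of_eq ?_)
      ring
  have hcb1 : ∀ n ≤ M, ∀ i, Nb (m + 2) A₁ (c n i) := by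
    intro n hn i
    refine (hcb n i).mono ?_
    rw [hA₁]
    refine mul_le_mul_of_nonneg_right ?_ hA₀0
    have h1 : 1 + CP * κ ≤ Real.exp (CP * κ) := by
      rw [add_comm]
      exact Real.add_one_le_exp _
    calc (1 + CP * κ) ^ n ≤ Real.exp (CP * κ) ^ n := pow_le_pow_left₀ (by positivity) h1 n
      _ = Real.exp (n * (CP * κ)) := by rw [← Real.exp_nat_mul]
      _ ≤ Real.exp (CP * s) := by
          apply Real.exp_le_exp.2
          have h2 : (n : ℝ) * κ ≤ s := by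
            calc (n : ℝ) * κ ≤ M * κ := by
                  gcongr
              _ = s := by rw [hκ]; field_simp
          calc (n : ℝ) * (CP * κ) = CP * (n * κ) := by ring
            _ ≤ CP * s := mul_le_mul_of_nonneg_left h2 hCP
  refine ⟨fun j => c (M - j), ?_, ?_, ?_, ?_⟩
  · simp only [Nat.sub_self]
    exact hc0
  · intro j _
    refine ⟨hcsm _, fun i => ?_⟩
    refine ((hcb1 (M - j) (Nat.sub_le _ _) i).le (by omega)).mono ?_
    have : 0 ≤ CR * A₁ := by positivity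
    linarith
  · intro j hj x hx
    have e1 : M - j = (M - (j + 1)) + 1 := by omega
    simp only [e1, hcs] at hx
    by_contra hcon
    push Not at hcon
    obtain ⟨i, hi⟩ := hx
    apply hi
    unfold pull
    simp [hcon]
  · intro j hj i
    have e1 : M - j = (M - (j + 1)) + 1 := by omega
    simp only [e1, hcs]
    refine (hR κ hκ0 hκs (c (M - (j + 1))) A₁ hA₁0 (hcsm _)
      (hcb1 _ (Nat.sub_le _ _)) i).mono ?_
    have : 0 ≤ A₁ * κ ^ 2 := by positivity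
    nlinarith

end NSC
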