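import Pool.Agent.Work.MP_57e339_an.PU
import Pool.Agent.Work.MP_57e339_an.SL
import Pool.Agent.Work.MP_57e339_an.Prod
import Pool.Agent.Work.MP_57e339_an.GoodF

/-! Module Push: propagation of the local property `PP` to a boundary point. -/

open MeasureTheory Set Filter Topology
open scoped BigOperators
noncomputable section
namespace NSC
variable {d : ℕ}

/-! ### supports -/

theorem push_su_mono {β : VF d} {G H : Set (Rv d)} (h : Su β G) (hGH : G ⊆ H) : Su β H :=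
  fun i => (h i).trans hGH

theorem push_tsupport_sub (f g : Rv d → ℝ) :
    tsupport (fun x => f x - g x) ⊆ tsupport f ∪ tsupport g := by
  refine closure_minimal (fun x hx => ?_)
    ((isClosed_tsupport f).union (isClosed_tsupport g))
  by_contra hcon
  rw [mem_union, not_or] at hcon
  apply hx
  show f x - g x = 0
  rw [image_eq_zero_of_notMem_tsupport hcon.1, image_eq_zero_of_notMem_tsupport hcon.2, sub_zero]

theorem push_tsupport_add (f g : Rv d → ℝ) :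
    tsupport (fun x => f x + g x) ⊆ tsupport f ∪ tsupport g := by
  refine closure_minimal (fun x hx => ?_)
    ((isClosed_tsupport f).union (isClosed_tsupport g))
  by_contra hcon
  rw [mem_union, not_or] at hcon
  apply hx
  show f x + g x = 0
  rw [image_eq_zero_of_notMem_tsupport hcon.1, image_eq_zero_of_notMem_tsupport hcon.2, add_zero]

theorem push_tsupport_cmul (c : ℝ) (f : Rv d → ℝ) : tsupport (fun x => c * f x) ⊆ tsupport f := by
  refine closure_minimal (fun x hx => ?_) (isClosed_tsupport f)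
  by_contra hcon
  apply hx
  show c * f x = 0
  rw [image_eq_zero_of_notMem_tsupport hcon, mul_zero]

theorem push_su_add {β γ : VF d} {G : Set (Rv d)} (hβ : Su β G) (hγ : Su γ G) :
    Su (fun i x => β i x + γ i x) G :=
  fun i => (push_tsupport_add _ _).trans (union_subset (hβ i) (hγ i))

theorem push_su_sub {β γ : VF d} {G : Set (Rv d)} (hβ : Su β G) (hγ : Su γ G) :
    Su (fun i x => β i x - γ i x) G :=
  fun i => (push_tsupport_sub _ _).trans (union_subset (hβ i) (hγ i))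

theorem push_su_chi {χ : Rv d → ℝ} {G : Set (Rv d)} (h : tsupport χ ⊆ G) (c : Fin d → ℝ) :
    Su (fun i x => c i * χ x) G :=
  fun i => (push_tsupport_cmul _ _).trans h

theorem push_su_mz {χ : Rv d → ℝ} {β : VF d} {G : Set (Rv d)} (h : tsupport χ ⊆ G)
    (hβ : Su β G) : Su (mz χ β) G :=
  push_su_sub hβ (push_su_chi h _)

/-! ### test fields -/

theorem push_tf_chi {χ : Rv d → ℝ} (hχ : ContDiff ℝ (⊤ : ℕ∞) χ) (hχc : HasCompactSupport χ)
    (c : Fin d → ℝ) : TF (fun i x => c i * χ x) :=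
  TF.const_mul (β := fun _ => χ) (fun _ => ⟨hχ, hχc⟩) c

theorem push_tf_mz {χ : Rv d → ℝ} (hχ : ContDiff ℝ (⊤ : ℕ∞) χ) (hχc : HasCompactSupport χ)
    {β : VF d} (hβ : TF β) : TF (mz χ β) :=
  TF.sub hβ (push_tf_chi hχ hχc _)

theorem push_tf_int {β : VF d} (hβ : TF β) (i : Fin d) : Integrable (β i) :=
  (hβ i).1.continuous.integrable_of_hasCompactSupport (hβ i).2

theorem push_int_mz {χ : Rv d → ℝ} (hχ : ContDiff ℝ (⊤ : ℕ∞) χ) (hχc : HasCompactSupport χ)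
    (hχ1 : ∫ x, χ x = 1) {β : VF d} (hβ : TF β) (i : Fin d) : ∫ x, mz χ β i x = 0 := by
  have h1 : Integrable χ := hχ.continuous.integrable_of_hasCompactSupport hχc
  show ∫ x, (β i x - (∫ y, β i y) * χ x) = 0
  rw [integral_sub (push_tf_int hβ i) (h1.const_mul _), integral_const_mul, hχ1]
  ring

theorem push_mz_self {χ : Rv d → ℝ} {β : VF d} (h : ∀ i, ∫ x, β i x = 0) : mz χ β = β := by
  funext i x
  show β i x - (∫ y, β i y) * χ x = β i x
  rw [h i]; ring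

theorem push_int_pd {f : Rv d → ℝ} (hf : ContDiff ℝ 1 f) (hc : HasCompactSupport f)
    (i : Fin d) : ∫ x, pd i f x = 0 := by
  have h1 := fc_pd hf hc i 0
  rw [fc_zero_index] at h1
  have h2 : ((((2 * Real.pi) ^ d : ℝ)⁻¹ * ∫ x, pd i f x : ℝ) : ℂ) = 0 := by
    rw [h1]; simp
  have h3 : ((2 * Real.pi) ^ d : ℝ)⁻¹ * ∫ x, pd i f x = 0 := by exact_mod_cast h2
  have h4 : ((2 * Real.pi) ^ d : ℝ)⁻¹ ≠ 0 := by positivity
  exact (mul_eq_zero.1 h3).resolve_left h4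

/-! ### integrals, bounds -/

theorem push_abs_int_le {f : Rv d → ℝ} {x : Rv d} {η A : ℝ}
    (hs : tsupport f ⊆ Metric.closedBall x η) (hA : ∀ z, |f z| ≤ A) :
    |∫ z, f z| ≤ A * (volume (Metric.closedBall x η)).toReal := by
  have h1 : ∫ z, f z = ∫ z in Metric.closedBall x η, f z := by
    rw [setIntegral_eq_integral_of_forall_compl_eq_zero]
    intro z hz
    exact image_eq_zero_of_notMem_tsupport fun h => hz (hs h)
  rw [h1]
  have h2 : volume (Metric.closedBall x η) < ⊤ :=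
    (isCompact_closedBall x η).measure_lt_top
  have h3 := norm_setIntegral_le_of_norm_le_const (μ := volume) (f := f) (C := A) h2
    (fun z _ => hA z)
  exact h3

theorem push_nb_mz {χ : Rv d → ℝ} (hχ : ContDiff ℝ (⊤ : ℕ∞) χ) {m : ℕ} {Aχ : ℝ}
    (hAχ : Nb m Aχ χ) {β : VF d} (hβ : ∀ i, ContDiff ℝ (⊤ : ℕ∞) (β i)) {x : Rv d} {η : ℝ}
    (hs : Su β (Metric.closedBall x η)) {A : ℝ} (hA : ∀ i, Nb m A (β i)) (i : Fin d) :
    Nb m (A * (1 + (volume (Metric.closedBall x η)).toReal * Aχ)) (mz χ β i) := by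
  have hm : ((m : ℕ) : WithTop ℕ∞) ≤ ((⊤ : ℕ∞) : WithTop ℕ∞) := by
    exact_mod_cast le_top
  have h1 : |∫ z, β i z| ≤ A * (volume (Metric.closedBall x η)).toReal :=
    push_abs_int_le (hs i) (fun z => (hA i).bd z)
  have h2 := Nb.sub (hβ i |>.of_le hm) ((contDiff_const.mul hχ).of_le hm) (hA i)
    (Nb.const_mul (hχ.of_le hm) hAχ (∫ z, β i z))
  refine h2.mono ?_
  have h3 := mul_le_mul_of_nonneg_right h1 hAχ.nonneg
  nlinarith

/-! ### the gradient part of the Lie derivative -/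

/-- `v · β` -/
def pushPhi (v β : VF d) : Rv d → ℝ := fun y => ∑ j, v j y * β j y

theorem pushPhi_smooth {v β : VF d} (hv : ∀ i, ContDiff ℝ (⊤ : ℕ∞) (v i))
    (hβ : ∀ i, ContDiff ℝ (⊤ : ℕ∞) (β i)) : ContDiff ℝ (⊤ : ℕ∞) (pushPhi v β) :=
  ContDiff.sum fun j _ => (hv j).mul (hβ j)

theorem pushPhi_tsupport {v β : VF d} {G : Set (Rv d)} (hG : IsClosed G) (h : Su β G) :
    tsupport (pushPhi v β) ⊆ G := by
  refine closure_minimal (fun x hx => ?_) hG
  by_contra hcon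
  apply hx
  show ∑ j, v j x * β j x = 0
  refine Finset.sum_eq_zero fun j _ => ?_
  rw [image_eq_zero_of_notMem_tsupport fun h' => hcon (h j h'), mul_zero]

theorem pushPhi_compact {v β : VF d} (hβ : TF β) : HasCompactSupport (pushPhi v β) := by
  have h1 : IsCompact (⋃ i, tsupport (β i)) := isCompact_iUnion fun i => (hβ i).2
  exact h1.of_isClosed_subset (isClosed_tsupport _)
    (pushPhi_tsupport h1.isClosed fun i => subset_iUnion (fun i => tsupport (β i)) i)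

theorem push_lie_eq {v β : VF d} (hv : ∀ i, ContDiff ℝ (⊤ : ℕ∞) (v i))
    (hβ : ∀ i, ContDiff ℝ (⊤ : ℕ∞) (β i)) (i : Fin d) (x : Rv d) :
    lie v β i x = iod v β i x + pd i (pushPhi v β) x :=
  lie_eq (fun i => (hv i).of_le (by exact_mod_cast le_top))
    (fun i => (hβ i).of_le (by exact_mod_cast le_top)) i x

theorem push_tf_grad {v β : VF d} (hv : ∀ i, ContDiff ℝ (⊤ : ℕ∞) (v i)) (hβ : TF β) :
    TF (fun i => pd i (pushPhi v β)) := fun i =>
  ⟨contDiff_pd_top (pushPhi_smooth hv fun i => (hβ i).1) i,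
    (pushPhi_compact hβ).mono' (subset_tsupport _ |>.trans (tsupport_pd_subset _ i))⟩

theorem push_tf_lie {v β : VF d} (hv : ∀ i, ContDiff ℝ (⊤ : ℕ∞) (v i)) (hβ : TF β) :
    TF (lie v β) := by
  have h : lie v β = fun i x => iod v β i x + pd i (pushPhi v β) x := by
    funext i x
    exact push_lie_eq hv (fun i => (hβ i).1) i x
  rw [h]
  exact TF.add (TF.iod hβ hv) (push_tf_grad hv hβ)

theorem push_su_lie {v β : VF d} {G : Set (Rv d)} (hG : IsClosed G)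
    (hv : ∀ i, ContDiff ℝ (⊤ : ℕ∞) (v i)) (hβ : TF β) (h : Su β G) : Su (lie v β) G := by
  have h' : lie v β = fun i x => iod v β i x + pd i (pushPhi v β) x := by
    funext i x
    exact push_lie_eq hv (fun i => (hβ i).1) i x
  rw [h']
  exact push_su_add (su_iod h)
    fun i => (tsupport_pd_subset _ i).trans (pushPhi_tsupport hG h)

theorem push_int_lie {v β : VF d} (hv : ∀ i, ContDiff ℝ (⊤ : ℕ∞) (v i)) (hβ : TF β)
    (i : Fin d) : ∫ x, lie v β i x = ∫ x, iod v β i x := by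
  have h1 : ∀ x, lie v β i x = iod v β i x + pd i (pushPhi v β) x :=
    fun x => push_lie_eq hv (fun i => (hβ i).1) i x
  simp only [h1]
  rw [integral_add (push_tf_int (TF.iod hβ hv) i) (push_tf_int (push_tf_grad hv hβ) i),
    push_int_pd ((pushPhi_smooth hv fun i => (hβ i).1).of_le (by exact_mod_cast le_top))
      (pushPhi_compact hβ), add_zero]

theorem push_iod_sub {v β γ : VF d} (hβ : TF β) (hγ : TF γ) (i : Fin d) (x : Rv d) :
    iod v (fun i x => β i x - γ i x) i x = iod v β i x - iod v γ i x := by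
  have hd : ∀ {f : Rv d → ℝ}, ContDiff ℝ (⊤ : ℕ∞) f → DifferentiableAt ℝ f x :=
    fun h => (h.differentiable (by simp)).differentiableAt
  unfold iod
  rw [← Finset.sum_sub_distrib]
  refine Finset.sum_congr rfl fun j _ => ?_
  rw [pd_sub (hd (hβ i).1) (hd (hγ i).1), pd_sub (hd (hβ j).1) (hd (hγ j).1)]
  ring

/-! ### the transport identity -/

/-- the source term -/
def pushGam (χ : Rv d → ℝ) (v w γ b : VF d) : VF d := fun i x =>
  ((∫ y, iod v b i y) * χ x - iod v (fun i x => (∫ y, b i y) * χ x) i x) + iod w γ i x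

theorem push_tf_gam {χ : Rv d → ℝ} (hχ : ContDiff ℝ (⊤ : ℕ∞) χ) (hχc : HasCompactSupport χ)
    {v w γ b : VF d} (hv : ∀ i, ContDiff ℝ (⊤ : ℕ∞) (v i))
    (hw : ∀ i, ContDiff ℝ (⊤ : ℕ∞) (w i)) (hγ : TF γ) : TF (pushGam χ v w γ b) :=
  TF.add (TF.sub (push_tf_chi hχ hχc _) (TF.iod (push_tf_chi hχ hχc _) hv)) (TF.iod hγ hw)

theorem push_su_gam {χ : Rv d → ℝ} {G : Set (Rv d)} (hG : tsupport χ ⊆ G) {v w γ b : VF d}
    (hγ : Su γ G) : Su (pushGam χ v w γ b) G :=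
  push_su_add (push_su_sub (push_su_chi hG _) (su_iod (push_su_chi hG _))) (su_iod hγ)

theorem push_mz_eq {χ : Rv d → ℝ} (hχ : ContDiff ℝ (⊤ : ℕ∞) χ) (hχc : HasCompactSupport χ)
    {v : VF d} (hv : ∀ i, ContDiff ℝ (⊤ : ℕ∞) (v i)) {w γ b b' : VF d}
    (hb : TF b) (hb' : TF b') (κ : ℝ) (i : Fin d) (x : Rv d) :
    mz χ b' i x = ((mz χ b i x + mz χ (fun i x => b' i x - b i x + κ * lie v b i x) i x) +
        κ * pushGam χ v w γ b i x) -
      (κ * (iod v (mz χ b) i x + iod w γ i x) + κ * pd i (pushPhi v b) x) := by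
  have hl : TF (lie v b) := push_tf_lie hv hb
  have h1 : ∫ y, (b' i y - b i y + κ * lie v b i y) =
      (∫ y, b' i y) - (∫ y, b i y) + κ * ∫ y, iod v b i y := by
    have j1 : Integrable (fun y => b' i y - b i y) := (push_tf_int hb' i).sub (push_tf_int hb i)
    have j2 : Integrable (fun y => κ * lie v b i y) := (push_tf_int hl i).const_mul _
    rw [integral_add j1 j2, integral_sub (push_tf_int hb' i) (push_tf_int hb i),
      integral_const_mul, push_int_lie hv hb]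
  have h2 : iod v (mz χ b) i x = iod v b i x - iod v (fun i x => (∫ y, b i y) * χ x) i x :=
    push_iod_sub hb (push_tf_chi hχ hχc _) i x
  have h3 : lie v b i x = iod v b i x + pd i (pushPhi v b) x :=
    push_lie_eq hv (fun i => (hb i).1) i x
  rw [h2]
  simp only [mz, pushGam, h1]
  rw [h3]
  ring

theorem push_identity (hd : d = 2 ∨ d = 3) {χ : Rv d → ℝ} (hχ : ContDiff ℝ (⊤ : ℕ∞) χ)
    (hχc : HasCompactSupport χ) {γ b b' : VF d} (hγ : TF γ) (hb : TF b) (hb' : TF b') (κ : ℝ) :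
    pr (mz χ b') - pr (mz χ b) -
      κ • (Lk (-pr γ) (pr (mz χ b)) +
        pr (pushGam χ (ser (pr γ)) (ser (pr (mz χ b))) γ b)) =
    pr (mz χ (fun i x => b' i x - b i x + κ * lie (ser (pr γ)) b i x)) := by
  have hmb : TF (mz χ b) := push_tf_mz hχ hχc hb
  have hv : ∀ i, ContDiff ℝ (⊤ : ℕ∞) (ser (pr γ) i) :=
    fun i => ser_smooth (pr_rap hd hγ).1 (pr_rap hd hγ).2.zero i
  have hw : ∀ i, ContDiff ℝ (⊤ : ℕ∞) (ser (pr (mz χ b)) i) :=
    fun i => ser_smooth (pr_rap hd hmb).1 (pr_rap hd hmb).2.zero i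
  have hΓ : TF (pushGam χ (ser (pr γ)) (ser (pr (mz χ b))) γ b) := push_tf_gam hχ hχc hv hw hγ
  have hR : TF (fun i x => b' i x - b i x + κ * lie (ser (pr γ)) b i x) :=
    TF.add (TF.sub hb' hb) (TF.const_mul (push_tf_lie hv hb) fun _ => κ)
  have hmR := push_tf_mz hχ hχc hR
  have hF : TF (fun i x => iod (ser (pr γ)) (mz χ b) i x + iod (ser (pr (mz χ b))) γ i x) :=
    TF.add (TF.iod hmb hv) (TF.iod hγ hw)
  have hg := push_tf_grad hv hb
  have e1 : mz χ b' = fun i x => ((mz χ b i x +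
        mz χ (fun i x => b' i x - b i x + κ * lie (ser (pr γ)) b i x) i x) +
        κ * pushGam χ (ser (pr γ)) (ser (pr (mz χ b))) γ b i x) -
      (κ * (iod (ser (pr γ)) (mz χ b) i x + iod (ser (pr (mz χ b))) γ i x) +
        κ * pd i (pushPhi (ser (pr γ)) b) x) := by
    funext i x
    exact push_mz_eq hχ hχc hv hb hb' κ i x
  have e2 : pr (fun i => pd i (pushPhi (ser (pr γ)) b)) = 0 :=
    pr_grad ((pushPhi_smooth hv fun i => (hb i).1).of_le
      (WithTop.coe_le_coe.2 (le_top : (2 : ℕ∞) ≤ ⊤))) (pushPhi_compact hb)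
  have t1 := TF.add hmb hmR
  have t2 := TF.const_mul hΓ fun _ => κ
  have t3 := TF.const_mul hF fun _ => κ
  have t4 := TF.const_mul hg fun _ => κ
  rw [Lk_neg_left, Lk_pr hd (hmb.tfn 10) (hγ.tfn 10)]
  nth_rewrite 1 [e1]
  rw [pr_sub ((TF.add t1 t2).tfn 0) ((TF.add t3 t4).tfn 0), pr_add (t1.tfn 0) (t2.tfn 0),
    pr_add (hmb.tfn 0) (hmR.tfn 0), pr_add (t3.tfn 0) (t4.tfn 0), pr_smul, pr_smul, pr_smul, e2]
  module

theorem push_int_gam (hd : d = 2 ∨ d = 3) {χ : Rv d → ℝ} (hχ : ContDiff ℝ (⊤ : ℕ∞) χ)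
    (hχc : HasCompactSupport χ) (hχ1 : ∫ x, χ x = 1) {γ b : VF d} (hγ : TF γ) (hb : TF b)
    (i : Fin d) :
    ∫ x, pushGam χ (ser (pr γ)) (ser (pr (mz χ b))) γ b i x = 0 := by
  have hmb : TF (mz χ b) := push_tf_mz hχ hχc hb
  have hv : ∀ i, ContDiff ℝ (⊤ : ℕ∞) (ser (pr γ) i) :=
    fun i => ser_smooth (pr_rap hd hγ).1 (pr_rap hd hγ).2.zero i
  have hw : ∀ i, ContDiff ℝ (⊤ : ℕ∞) (ser (pr (mz χ b)) i) :=
    fun i => ser_smooth (pr_rap hd hmb).1 (pr_rap hd hmb).2.zero i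
  have h0 := int_iod hd (hmb.tfn 10) (hγ.tfn 10) i
  have hc : TF (fun i x => (∫ y, b i y) * χ x) := push_tf_chi hχ hχc _
  have i1 := push_tf_int (TF.iod hb hv) i
  have i2 := push_tf_int (TF.iod hc hv) i
  have i3 := push_tf_int (TF.iod hγ hw) i
  have i4 : Integrable χ := hχ.continuous.integrable_of_hasCompactSupport hχc
  have e1 : ∀ x, iod (ser (pr γ)) (mz χ b) i x = iod (ser (pr γ)) b i x -
      iod (ser (pr γ)) (fun i x => (∫ y, b i y) * χ x) i x :=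
    fun x => push_iod_sub hb hc i x
  simp only [e1] at h0
  have i5 : Integrable (fun x => (∫ y, iod (ser (pr γ)) b i y) * χ x) := i4.const_mul _
  have i6 : Integrable (fun x => iod (ser (pr γ)) b i x -
      iod (ser (pr γ)) (fun i x => (∫ y, b i y) * χ x) i x) := i1.sub i2
  have i7 : Integrable (fun x => (∫ y, iod (ser (pr γ)) b i y) * χ x -
      iod (ser (pr γ)) (fun i x => (∫ y, b i y) * χ x) i x) := i5.sub i2
  rw [integral_add i6 i3, integral_sub i1 i2] at h0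
  simp only [pushGam]
  rw [integral_add i7 i3, integral_sub i5 i2, integral_const_mul, hχ1, mul_one]
  exact h0

/-! ### tracking the supports backwards -/

theorem push_track {M : ℕ} {κ B δ η r : ℝ} {v : VF d} {b : ℕ → VF d} {x V0 : Rv d}
    (hκ : 0 ≤ κ) (hB0 : 0 ≤ B) (hB : ∀ z, ‖vpt v z‖ ≤ B)
    (hη : ∀ z, ‖z - x‖ ≤ η → ‖vpt v z - V0‖ ≤ δ)
    (hM : r + M * κ * B ≤ η)
    (hstep : ∀ j < M, ∀ z, (∃ i, b j i z ≠ 0) → ∃ i, b (j + 1) i (z + κ • vpt v z) ≠ 0)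
    (hend : ∀ z, (∃ i, b M i z ≠ 0) → ‖z - x‖ < r) :
    ∀ k ≤ M, ∀ z, (∃ i, b (M - k) i z ≠ 0) → ∃ z', ‖z' - x‖ < r ∧
      ‖z' - z - ((k : ℝ) * κ) • V0‖ ≤ k * κ * δ ∧ ‖z' - z‖ ≤ k * κ * B := by
  intro k
  induction k with
  | zero =>
    intro _ z hz
    refine ⟨z, hend z (by simpa using hz), ?_, ?_⟩ <;> simp
  | succ k ih =>
    intro hk z hz
    have e1 : M - (k + 1) + 1 = M - k := by omega
    have h1 := hstep (M - (k + 1)) (by omega) z hz
    rw [e1] at h1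
    obtain ⟨z', h2, h3, h4⟩ := ih (by omega) _ h1
    have h5 : ‖z' - z‖ ≤ (k + 1 : ℝ) * κ * B := by
      have e2 : z' - z = (z' - (z + κ • vpt v z)) + κ • vpt v z := by abel
      rw [e2]
      refine (norm_add_le _ _).trans ?_
      rw [norm_smul, Real.norm_of_nonneg hκ]
      have := mul_le_mul_of_nonneg_left (hB z) hκ
      linarith
    have h6 : ‖z - x‖ ≤ η := by
      have e3 : z - x = (z' - x) - (z' - z) := by abel
      rw [e3]
      refine (norm_sub_le _ _).trans ?_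
      have h7 : (k + 1 : ℝ) * κ * B ≤ M * κ * B := by
        have : (k + 1 : ℝ) ≤ M := by exact_mod_cast hk
        exact mul_le_mul_of_nonneg_right (mul_le_mul_of_nonneg_right this hκ) hB0
      linarith
    have h8 := mul_le_mul_of_nonneg_left (hη z h6) hκ
    refine ⟨z', h2, ?_, ?_⟩
    · have e4 : z' - z - (((k + 1 : ℕ) : ℝ) * κ) • V0 =
          (z' - (z + κ • vpt v z) - ((k : ℝ) * κ) • V0) + κ • (vpt v z - V0) := by
        push_cast
        module
      rw [e4]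
      refine (norm_add_le _ _).trans ?_
      rw [norm_smul, Real.norm_of_nonneg hκ]
      push_cast
      linarith
    · push_cast
      exact h5

theorem push_geom {x V0 ω y z z' : Rv d} {R δ s r : ℝ} (hω : ‖ω‖ = 1) (hy : x - y = R • ω)
    (hδ : 0 < δ) (hδV : inner ℝ ω V0 = δ) (hs : 0 < s) (hs1 : s * ‖V0‖ ^ 2 ≤ R * δ / 2)
    (hs2 : s * δ ≤ R) (hr : r = s * δ / 8) (h1 : ‖z' - x‖ < r)
    (h2 : ‖z' - z - s • V0‖ ≤ s * (δ / 4)) : ‖z - y‖ ≤ R - 3 * s * δ / 8 := by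
  have e1 : z - y = (R • ω - s • V0) + (z' - x) - (z' - z - s • V0) := by
    rw [← hy]; abel
  have h3 : ‖R • ω - s • V0‖ ≤ R - 3 * s * δ / 4 := by
    have hn : 0 ≤ R - 3 * s * δ / 4 := by nlinarith
    refine abs_le_of_sq_le_sq' ?_ hn |>.2
    rw [norm_sub_sq_real, norm_smul, norm_smul, hω, inner_smul_left, inner_smul_right, hδV]
    simp only [Real.norm_eq_abs, mul_one, sq_abs, mul_pow, conj_trivial]
    have := mul_le_mul_of_nonneg_left hs1 hs.le
    nlinarith [mul_pos hs hδ, sq_nonneg (s * δ)]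
  rw [e1]
  refine (norm_sub_le _ _).trans ?_
  have h4 := norm_add_le (R • ω - s • V0) (z' - x)
  nlinarith

/-! ### the theorem -/

theorem push_bound {v : VF d} {A : ℝ} (h : ∀ i, Nb 0 A (v i)) (z : Rv d) :
    ‖vpt v z‖ ≤ Real.sqrt (d * A ^ 2) := by
  rw [EuclideanSpace.norm_eq]
  refine Real.sqrt_le_sqrt ?_
  have h1 : ∀ i ∈ (Finset.univ : Finset (Fin d)), ‖(vpt v z) i‖ ^ 2 ≤ A ^ 2 := by
    intro i _
    have h2 : ‖(vpt v z) i‖ ≤ A := (h i).bd z
    exact pow_le_pow_left₀ (norm_nonneg _) h2 2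
  refine (Finset.sum_le_sum h1).trans ?_
  simp

theorem push_cont {v : VF d} (hv : ∀ i, ContDiff ℝ (⊤ : ℕ∞) (v i)) : Continuous (vpt v) := by
  unfold vpt
  have : Continuous fun z => (fun i => v i z : Fin d → ℝ) :=
    continuous_pi fun i => (hv i).continuous
  exact (PiLp.continuous_toLp 2 _).comp this

theorem push_inner (v : VF d) (x ω : Rv d) : inner ℝ ω (vpt v x) = ∑ i, ω i * v i x := by
  rw [PiLp.inner_apply]
  refine Finset.sum_congr rfl fun i _ => ?_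
  simp [vpt, mul_comm]

theorem push_exists_s {R δ η B V : ℝ} (hR : 0 < R) (hδ : 0 < δ) (hη : 0 < η) (hB : 0 ≤ B)
    (hV : 0 ≤ V) : ∃ s > 0, s * V ≤ R * δ / 2 ∧ s * δ ≤ R ∧ s * δ / 8 + s * B ≤ η := by
  refine ⟨min (R * δ / 2 / (V + 1)) (min (R / δ) (η / (δ / 8 + B))), ?_, ?_, ?_, ?_⟩
  · refine lt_min (by positivity) (lt_min (by positivity) (by positivity))
  · refine (mul_le_mul_of_nonneg_right (min_le_left _ _) hV).trans ?_
    rw [div_mul_eq_mul_div, div_le_iff₀ (by positivity)]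
    have : 0 < R * δ := mul_pos hR hδ
    nlinarith
  · refine (mul_le_mul_of_nonneg_right ((min_le_right _ _).trans (min_le_left _ _)) hδ.le).trans ?_
    rw [div_mul_cancel₀ _ hδ.ne']
  · have h1 : min (R * δ / 2 / (V + 1)) (min (R / δ) (η / (δ / 8 + B))) ≤ η / (δ / 8 + B) :=
      (min_le_right _ _).trans (min_le_right _ _)
    have h2 : 0 < δ / 8 + B := by positivity
    have h3 := (le_div_iff₀ h2).1 h1
    linarith

/-- propagation to a boundary point -/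
theorem push (hd : d = 2 ∨ d = 3) {𝒟 : Set (Sq d)} (h𝒟 : Adm 𝒟) {χ : Rv d → ℝ}
    (hχ : ContDiff ℝ (⊤ : ℕ∞) χ) (hχc : HasCompactSupport χ) (hχ1 : ∫ x, χ x = 1)
    (hχs : ∀ x ∈ tsupport χ, PP 𝒟 χ x)
    {y x : Rv d} {R : ℝ} (hR : 0 < R) (hxy : dist x y = R)
    (hball : ∀ z ∈ Metric.ball y R, PP 𝒟 χ z) : PP 𝒟 χ x := by
  -- the unit vector
  obtain ⟨ω, hω, hRω⟩ : ∃ ω : Rv d, ‖ω‖ = 1 ∧ x - y = R • ω := by
    refine ⟨R⁻¹ • (x - y), ?_, ?_⟩
    · rw [norm_smul, norm_inv, Real.norm_of_nonneg hR.le, ← dist_eq_norm, hxy,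
        inv_mul_cancel₀ hR.ne']
    · rw [smul_smul, mul_inv_cancel₀ hR.ne', one_smul]
  have hyω : x - R • ω = y := by rw [← hRω]; abel
  obtain ⟨βv, hβv, hβvs, hpos⟩ := sing hd hχ hχc x ω hω hR
  rw [hyω] at hβvs
  have hballG : Metric.ball y R ⊆ {z | PP 𝒟 χ z} := hball
  have hχG : tsupport χ ⊆ {z | PP 𝒟 χ z} := hχs
  have glue : ∀ {β : VF d}, TF β → Su β {z | PP 𝒟 χ z} → pr (mz χ β) ∈ 𝒟 :=
    fun hβ hs => PP_glue hd h𝒟 hχ hχc hβ (fun i z hz => hs i hz)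
  have glue0 : ∀ {β : VF d}, TF β → Su β {z | PP 𝒟 χ z} → (∀ i, ∫ z, β i z = 0) → pr β ∈ 𝒟 := by
    intro β hβ hs h0
    have := glue hβ hs
    rwa [push_mz_self h0] at this
  obtain ⟨γ, hγdef⟩ : ∃ γ, γ = mz χ βv := ⟨_, rfl⟩
  rw [← hγdef] at hpos
  have hγ : TF γ := hγdef ▸ push_tf_mz hχ hχc hβv
  have hγG : Su γ {z | PP 𝒟 χ z} := hγdef ▸ push_su_mz hχG (push_su_mono hβvs hballG)
  have hγD : pr γ ∈ 𝒟 := hγdef ▸ glue hβv (push_su_mono hβvs hballG)
  obtain ⟨hrap, hVγ⟩ := pr_rap hd hγ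
  have hv : ∀ i, ContDiff ℝ (⊤ : ℕ∞) (ser (pr γ) i) := fun i => ser_smooth hrap hVγ.zero i
  have hgood : Good 𝒟 (-pr γ) := by
    refine Good.neg h𝒟 (good_single hγD hrap ?_)
    rw [bk_pr hd (hγ.tfn 10)]
    exact glue0 (TF.iod hγ hv) (su_iod hγG) (fun i => int_iod_self hd (hγ.tfn 10) i)
  -- constants
  obtain ⟨δ, hδV⟩ : ∃ δ : ℝ, inner ℝ ω (vpt (ser (pr γ)) x) = δ := ⟨_, rfl⟩
  have hδ : 0 < δ := by rw [← hδV, push_inner]; exact hpos
  have hvb : ∀ m, ∃ A, ∀ i, Nb m A (ser (pr γ) i) :=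
    fun m => ⟨W m (pr γ), fun i => ser_nb (hrap m) hVγ.zero i⟩
  obtain ⟨B, hB0, hB⟩ : ∃ B : ℝ, 0 ≤ B ∧ ∀ z, ‖vpt (ser (pr γ)) z‖ ≤ B := by
    obtain ⟨A, hA⟩ := hvb 0
    exact ⟨_, Real.sqrt_nonneg _, push_bound hA⟩
  obtain ⟨η, hη0, hη⟩ : ∃ η > 0, ∀ z, ‖z - x‖ ≤ η →
      ‖vpt (ser (pr γ)) z - vpt (ser (pr γ)) x‖ ≤ δ / 4 := by
    have h1 := Metric.continuous_iff.1 (push_cont hv) x (δ / 4) (by positivity)
    obtain ⟨η, hη0, hη⟩ := h1
    refine ⟨η / 2, by positivity, fun z hz => ?_⟩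
    have h2 := hη z (by rw [dist_eq_norm]; linarith)
    rw [dist_eq_norm] at h2
    exact h2.le
  obtain ⟨s, hs, hs1, hs2, hs3⟩ := push_exists_s (V := ‖vpt (ser (pr γ)) x‖ ^ 2) hR hδ hη0 hB0
    (sq_nonneg _)
  refine ⟨s * δ / 8, by positivity, fun β hβ hβs => ?_⟩
  obtain ⟨A, hA0, hpath⟩ := sl_path hv hvb hβ hs 8
  obtain ⟨Rχ, hRχ⟩ : ∃ Rχ, tsupport χ ⊆ Metric.closedBall 0 Rχ :=
    hχc.isBounded.subset_closedBall 0
  obtain ⟨Rad, hRad⟩ : ∃ Rad, Rad = max Rχ (‖x‖ + η) := ⟨_, rfl⟩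
  have hRad1 : tsupport χ ⊆ Metric.closedBall 0 Rad :=
    hRχ.trans (Metric.closedBall_subset_closedBall (hRad ▸ le_max_left _ _))
  have hRad2 : Metric.closedBall x η ⊆ Metric.closedBall 0 Rad := by
    intro z hz
    rw [mem_closedBall_iff_norm] at hz
    rw [mem_closedBall_zero_iff, hRad]
    refine le_trans ?_ (le_max_right _ _)
    have := norm_add_le (z - x) x
    rw [sub_add_cancel] at this
    linarith
  obtain ⟨CW, hCW0, hCW⟩ := pr_W_le (d := d) hd Rad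
  obtain ⟨C1, hC10, hC1⟩ := pr_n1_le (d := d) hd Rad
  obtain ⟨Aχ, hAχ⟩ := nb_exists (m := 8)
    (hχ.of_le (WithTop.coe_le_coe.2 (le_top : (8 : ℕ∞) ≤ ⊤))) hχc
  obtain ⟨Λ, hΛ⟩ : ∃ Λ, Λ = (volume (Metric.closedBall x η)).toReal := ⟨_, rfl⟩
  have hΛ0 : 0 ≤ Λ := by rw [hΛ]; exact ENNReal.toReal_nonneg
  have hAχ0 : 0 ≤ Aχ := hAχ.nonneg
  refine h𝒟.dyn (-pr γ) hgood _ (pr_isV hd ((push_tf_mz hχ hχc hβ).tfn 3)) s hs
    (fun ρ hρ => ?_)
  refine ⟨CW * (A * (1 + Λ * Aχ)), fun M₀ => ?_⟩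
  obtain ⟨M1, hM1⟩ := exists_nat_gt (C1 * (A * (1 + Λ * Aχ)) * s / ρ)
  obtain ⟨M, hM⟩ : ∃ M, M = max (max M₀ M1) 1 := ⟨_, rfl⟩
  have hMM₀ : M₀ ≤ M := hM ▸ (le_max_left _ _).trans (le_max_left _ _)
  have hMM1 : M1 ≤ M := hM ▸ (le_max_right _ _).trans (le_max_left _ _)
  have hM0 : 0 < M := lt_of_lt_of_le one_pos (hM ▸ le_max_right _ _)
  have hMR : (0 : ℝ) < M := by exact_mod_cast hM0
  have hMs : (M : ℝ) * (s / M) = s := by field_simp
  have hκ : 0 < s / (M : ℝ) := by positivity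
  obtain ⟨b, hbM, hb1, hb2, hb3⟩ := hpath M hM0
  have htrack := push_track (M := M) (κ := s / M) (B := B) (δ := δ / 4) (η := η)
    (r := s * δ / 8) (b := b) hκ.le hB0 hB hη (by rw [hMs]; exact hs3)
    (fun j hj z hz => hb2 j hj z hz) (by
      rintro z ⟨i, hi⟩
      rw [hbM] at hi
      have := hβs i (subset_tsupport _ hi)
      rwa [mem_ball_iff_norm] at this)
  -- supports of the `b j`
  have hsup : ∀ j ≤ M, Su (b j) (Metric.closedBall x η) := by
    intro j hj i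
    refine closure_minimal (fun z hz => ?_) Metric.isClosed_closedBall
    obtain ⟨z', h1, -, h3⟩ := htrack (M - j) (Nat.sub_le _ _) z
      ⟨i, by rw [Nat.sub_sub_self hj]; exact hz⟩
    rw [mem_closedBall_iff_norm]
    have h4 : ((M - j : ℕ) : ℝ) * (s / M) * B ≤ s * B := by
      refine mul_le_mul_of_nonneg_right ?_ hB0
      have : ((M - j : ℕ) : ℝ) ≤ M := by exact_mod_cast Nat.sub_le _ _
      calc ((M - j : ℕ) : ℝ) * (s / M) ≤ M * (s / M) := mul_le_mul_of_nonneg_right this hκ.le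
        _ = s := hMs
    have h5 : z - x = (z' - x) - (z' - z) := by abel
    rw [h5]
    refine (norm_sub_le _ _).trans ?_
    linarith
  have htf : ∀ j ≤ M, TF (b j) := fun j hj i =>
    ⟨(hb1 j hj).1 i, (isCompact_closedBall x η).of_isClosed_subset (isClosed_tsupport _)
      (hsup j hj i)⟩
  have hsup0 : Su (b 0) {z | PP 𝒟 χ z} := by
    intro i
    have h0 : tsupport (b 0 i) ⊆ Metric.closedBall y (R - 3 * s * δ / 8) := by
      refine closure_minimal (fun z hz => ?_) Metric.isClosed_closedBall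
      obtain ⟨z', h1, h2, -⟩ := htrack M le_rfl z ⟨i, by rw [Nat.sub_self]; exact hz⟩
      rw [hMs] at h2
      rw [mem_closedBall_iff_norm]
      exact push_geom hω hRω hδ hδV hs hs1 hs2 rfl h1 h2
    refine h0.trans (Subset.trans ?_ hballG)
    refine Metric.closedBall_subset_ball ?_
    have : 0 < s * δ := mul_pos hs hδ
    linarith
  refine ⟨M, hMM₀, hM0, fun j => pr (mz χ (b j)),
    fun j => pr (pushGam χ (ser (pr γ)) (ser (pr (mz χ (b j)))) γ (b j)), ?_, ?_, ?_, ?_⟩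
  · exact glue (htf 0 (Nat.zero_le _)) hsup0
  · intro j hj
    have ht := push_tf_mz hχ hχc (htf j hj)
    refine ⟨pr_isV hd (ht.tfn 3), pr_SW4 hd (ht.tfn 8), ?_⟩
    refine hCW _ _ (ht.tfn 8) (push_su_mz hRad1 (push_su_mono (hsup j hj) hRad2)) ?_
    intro i
    rw [hΛ]
    exact push_nb_mz hχ hAχ (hb1 j hj).1 (hsup j hj) (hb1 j hj).2 i
  · intro j hj
    have hj' : j + 1 ≤ M := hj
    have hmb := push_tf_mz hχ hχc (htf j hj.le)
    have hw : ∀ i, ContDiff ℝ (⊤ : ℕ∞) (ser (pr (mz χ (b j))) i) :=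
      fun i => ser_smooth (pr_rap hd hmb).1 (pr_rap hd hmb).2.zero i
    refine ⟨glue0 (push_tf_gam hχ hχc hv hw hγ) (push_su_gam hχG hγG)
      (fun i => push_int_gam hd hχ hχc hχ1 hγ (htf j hj.le) i), ?_⟩
    show n1 (pr (mz χ (b (j + 1))) - pr (mz χ (b j)) - (s / M) • (Lk (-pr γ) (pr (mz χ (b j))) +
      pr (pushGam χ (ser (pr γ)) (ser (pr (mz χ (b j)))) γ (b j)))) ≤ s / M * ρ
    rw [push_identity hd hχ hχc hγ (htf j hj.le) (htf (j + 1) hj') (s / M)]
    have hRt : TF (fun i x => b (j + 1) i x - b j i x + (s / M) * lie (ser (pr γ)) (b j) i x) :=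
      TF.add (TF.sub (htf (j + 1) hj') (htf j hj.le))
        (TF.const_mul (push_tf_lie hv (htf j hj.le)) fun _ => s / M)
    have hRs : Su (fun i x => b (j + 1) i x - b j i x + (s / M) * lie (ser (pr γ)) (b j) i x)
        (Metric.closedBall x η) :=
      push_su_add (push_su_sub (hsup (j + 1) hj') (hsup j hj.le))
        (fun i => (push_tsupport_cmul _ _).trans
          (push_su_lie Metric.isClosed_closedBall hv (htf j hj.le) (hsup j hj.le) i))
    have hn := push_nb_mz hχ hAχ (fun i => (hRt i).1) hRs (hb3 j hj)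
    refine (hC1 _ _ ((push_tf_mz hχ hχc hRt).tfn 3)
      (push_su_mz hRad1 (push_su_mono hRs hRad2)) (fun i => (hn i).le (by norm_num))).trans ?_
    rw [← hΛ]
    have h1 : C1 * (A * (1 + Λ * Aχ)) * s ≤ M * ρ := by
      have h2 : C1 * (A * (1 + Λ * Aχ)) * s / ρ ≤ M :=
        hM1.le.trans (by exact_mod_cast hMM1)
      rwa [div_le_iff₀ hρ] at h2
    have h3 : C1 * (A * (s / M) ^ 2 * (1 + Λ * Aχ)) =
        (C1 * (A * (1 + Λ * Aχ)) * s) * (s / M ^ 2) := by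
      field_simp
    rw [h3]
    refine (mul_le_mul_of_nonneg_right h1 (by positivity)).trans_eq ?_
    field_simp
  · show n1 (pr (mz χ (b M)) - pr (mz χ β)) ≤ ρ
    rw [hbM, sub_self, n1_zero]
    exact hρ.le

end NSC
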