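import Pool.Agent.Work.MP_57e339_an.QBase

/-! Module Q1: approximate controllability. -/

open MeasureTheory Set Filter Topology
open scoped BigOperators
noncomputable section
namespace NSC
variable {d : ℕ}

theorem per_neg (l : K d) : per (-l) = -per l := by
  ext i
  simp [per]

theorem comb_pcv {n : ℕ} (b : Fin n → VF d) (c : Fin n → ℝ) (k : K d) :
    Comb (fun s => pcv (b s)) c k = ∑ s, c s • (WithLp.toLp 2 fun i => pc (b s i) k : Cv d) := rfl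

theorem fields' (hd : d = 2 ∨ d = 3) {D : Set (Rv d)} (hD : IsOpen D) (hne : D.Nonempty)
    (hper : ∀ x ∈ D, ∀ l : K d, x + per l ∈ D) :
    ∃ (n : ℕ) (b : Fin n → VF d),
      (∀ s, (∀ i, ContDiff ℝ 12 (b s i)) ∧ (∀ i x l, b s i (x + per l) = b s i x) ∧
        Dfree (b s) ∧ ∀ i, tsupport (b s i) ⊆ D) ∧
      (∀ s, IsV (pcv (b s)) ∧ SW 4 (pcv (b s))) ∧
      ∀ (ν : ℝ), 0 < ν → ∀ (m : Fin d → ℝ), ∀ v, IsV v → v ∈ DD ν m (fun s => pcv (b s)) := by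
  apply fields hd hD hne
  intro x hx l
  have := hper x hx (-l)
  rw [per_neg] at this
  simpa [sub_eq_add_neg] using this

theorem approx_control (hd : d = 2 ∨ d = 3) {n : ℕ} {b : Fin n → VF d}
    (hV : ∀ s, IsV (pcv (b s)) ∧ SW 4 (pcv (b s))) {ν : ℝ} (hν : 0 < ν)
    (hall : ∀ (m : Fin d → ℝ), ∀ v, IsV v → v ∈ DD ν m (fun s => pcv (b s)))
    {u₀ u₁ : Sq d} (h₀ : IsH u₀) (h₁ : IsH u₁) (h01 : u₀ 0 = u₁ 0) {T : ℝ} (hT : 0 < T)
    {ε : ℝ} (hε : 0 < ε) :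
    ∃ (c : ℝ → Fin n → ℝ) (u : ℝ → Sq d), Measurable c ∧ (∃ C, ∀ t s, |c t s| ≤ C) ∧
      NS ν (fun t => Comb (fun s => pcv (b s)) (c t)) T u ∧ u 0 = u₀ ∧ nH (u T - u₁) < ε := by
  obtain ⟨m, v₀, hm, hv₀, hu₀⟩ := isH_split h₀
  obtain ⟨m', v₁, hm', hv₁, hu₁⟩ := isH_split h₁
  have hctrl := ctrl hd hν m hV (hall m) PUnit hv₀ (N := 1) (fun _ => v₁) (fun _ => hv₁)
    (fun _ _ => 1) (fun _ => continuous_const) hT (ε := ε / 2) (by positivity)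
  obtain ⟨L, hL, hsum, ρ, hρ, h⟩ := hctrl
  obtain ⟨w', hw', hrun, hclose⟩ := h PUnit.unit v₀ hv₀ (by simpa [n1_zero] using hρ)
  have hL' : ∀ p ∈ (L.map fun p => (p.1, p.2 PUnit.unit)), 0 < p.1 := by
    intro p hp
    obtain ⟨q, hq, rfl⟩ := List.mem_map.1 hp
    exact (hL q hq).1
  obtain ⟨c, v, hc, hcb, hv, hv0, hvT⟩ := run_curve _ hL' hv₀ hrun
  have hsum' : ((L.map fun p => (p.1, p.2 PUnit.unit)).map Prod.fst).sum = T := by
    rw [List.map_map]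
    rw [← hsum]
    rfl
  rw [hsum'] at hv hvT
  refine ⟨c, fun t => v t + cst (u₀ 0), hc, hcb, NS_of_SolT (fun s => (hV s).1) hv hm, ?_, ?_⟩
  · simp only [hv0]
    exact hu₀.symm
  · have e1 : v T + cst (u₀ 0) - u₁ = w' - v₁ := by
      rw [hvT]
      conv_lhs => rw [hu₁, ← h01]
      abel
    simp only [e1]
    have h3 : n1 (w' - v₁) < ε / 2 := by
      have := hclose
      simpa using this
    have h4 := nH_le (hw'.sub hv₁)
    linarith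

/-- Q1: a finite-dimensional space of forces supported in `D`, the same for all `ν > 0`, makes the
Navier-Stokes system approximately controllable in any time. -/
theorem Q1 (d : ℕ) (hd : d = 2 ∨ d = 3) (D : Set (Rv d)) (hD : IsOpen D) (hne : D.Nonempty)
    (hper : ∀ x ∈ D, ∀ l : K d, x + per l ∈ D) :
    ∃ (n : ℕ) (e : Fin n → VF d),
      (∀ s, (∀ i, ContDiff ℝ 12 (e s i)) ∧ (∀ i x l, e s i (x + per l) = e s i x) ∧
        Dfree (e s) ∧ ∀ i, tsupport (e s i) ⊆ D) ∧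
      ∀ ν > 0, ∀ u₀ u₁ : Sq d, IsH u₀ → IsH u₁ → u₀ 0 = u₁ 0 → ∀ T > 0, ∀ ε > 0,
      ∃ (c : ℝ → Fin n → ℝ) (u : ℝ → Sq d), Measurable c ∧ (∃ C, ∀ t s, |c t s| ≤ C) ∧
        NS ν (fun t k => ∑ s, c t s • (WithLp.toLp 2 fun i => pc (e s i) k : Cv d)) T u ∧
        u 0 = u₀ ∧ nH (u T - u₁) < ε := by
  obtain ⟨n, b, hb, hV, hall⟩ := fields' hd hD hne hper
  refine ⟨n, b, hb, ?_⟩
  intro ν hν u₀ u₁ h₀ h₁ h01 T hT ε hε
  exact approx_control hd hV hν (hall ν hν) h₀ h₁ h01 hT hε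

end NSC
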