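import Pool.Agent.Work.MP_57e339_an.Phys
import Pool.Agent.Work.MP_57e339_an.AdmD
import Pool.Agent.Work.MP_57e339_an.Ctrl
import Pool.Agent.Work.MP_57e339_an.Torus

/-! Module QBase: common part of Q1 and Q2. -/

open MeasureTheory Set Filter Topology
open scoped BigOperators
noncomputable section
namespace NSC
variable {d : ℕ}

/-- Fourier coefficients of a periodic field -/
def pcv (b : VF d) : Sq d := fun k => WithLp.toLp 2 fun i => pc (b i) k

theorem fields (hd : d = 2 ∨ d = 3) {D : Set (Rv d)} (hD : IsOpen D) (hne : D.Nonempty)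
    (hper : ∀ x ∈ D, ∀ l : K d, x - per l ∈ D) :
    ∃ (n : ℕ) (b : Fin n → VF d),
      (∀ s, (∀ i, ContDiff ℝ 12 (b s i)) ∧ (∀ i x l, b s i (x + per l) = b s i x) ∧
        Dfree (b s) ∧ ∀ i, tsupport (b s i) ⊆ D) ∧
      (∀ s, IsV (pcv (b s)) ∧ SW 4 (pcv (b s))) ∧
      ∀ (ν : ℝ), 0 < ν → ∀ (m : Fin d → ℝ), ∀ v, IsV v → v ∈ DD ν m (fun s => pcv (b s)) := by
  obtain ⟨x₀, hx₀⟩ := hne
  obtain ⟨r₀, hr₀, hball⟩ := Metric.isOpen_iff.1 hD x₀ hx₀
  set r : ℝ := min r₀ 1 with hr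
  have hrp : 0 < r := lt_min hr₀ one_pos
  have hr1 : r ≤ 1 := min_le_right _ _
  obtain ⟨n, B, hB, hphys⟩ := phys hd x₀ hrp
  have hper' : ∀ s, ∃ b : VF d, (∀ i, ContDiff ℝ 12 (b i)) ∧
      (∀ i x l, b i (x + per l) = b i x) ∧ Dfree b ∧
      (∀ i, tsupport (b i) ⊆ {x | ∃ l : K d, x + per l ∈ Metric.ball x₀ r}) ∧
      ∀ i k, pc (b i) k = fc ((B s) i) k := by
    intro s
    exact periodize (N := 12) (hB s).1 (by norm_num) (hB s).2.1 hr1 (hB s).2.2
  choose b hb1 hb2 hb3 hb4 hb5 using hper'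
  have hpcv : ∀ s, pcv (b s) = pr (B s) := by
    intro s
    funext k
    have h1 : TFN 1 (B s) := fun i => ⟨((hB s).1 i).1.of_le (by norm_num), ((hB s).1 i).2⟩
    rw [pr_of_dfree h1 (hB s).2.1 k]
    unfold pcv fcv
    congr 1
    funext i
    exact hb5 s i k
  have hV : ∀ s, IsV (pcv (b s)) ∧ SW 4 (pcv (b s)) := by
    intro s
    rw [hpcv s]
    refine ⟨pr_isV hd fun i => ⟨((hB s).1 i).1.of_le (by norm_num), ((hB s).1 i).2⟩,
      pr_SW4 hd fun i => ⟨((hB s).1 i).1.of_le (by norm_num), ((hB s).1 i).2⟩⟩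
  refine ⟨n, b, ?_, hV, ?_⟩
  · intro s
    refine ⟨hb1 s, hb2 s, hb3 s, ?_⟩
    intro i x hx
    obtain ⟨l, hl⟩ := hb4 s i hx
    have h1 : x + per l ∈ D := hball (Metric.ball_subset_ball (min_le_left _ _) hl)
    have h2 := hper _ h1 l
    simpa using h2
  · intro ν hν m v hv
    have hadm : Adm (DD ν m (fun s => pcv (b s))) := adm_DD hd hν m hV
    apply hphys _ hadm _ v hv
    intro s
    rw [← hpcv s]
    exact mem_DD hd hν hV s

end NSC
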