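import Pool.Agent.Work.MP_57e339_an.Four

/-! Module Ser: the periodic function with given Fourier coefficients. -/

open MeasureTheory Set Filter Topology
open scoped BigOperators
noncomputable section
namespace NSC
variable {d : ℕ}

theorem ser_norm_exp (k : K d) (x : Rv d) : ‖Complex.exp (Complex.I * (kx k x : ℂ))‖ = 1 := by
  rw [Complex.norm_exp]
  simp

theorem ser_norm_apply_le (c : Cv d) (i : Fin d) : ‖c i‖ ≤ ‖c‖ := PiLp.norm_apply_le c i

theorem ser_norm_term_le (u : Sq d) (i : Fin d) (x : Rv d) (k : K d) :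
    ‖(u k) i * Complex.exp (Complex.I * (kx k x : ℂ))‖ ≤ ‖u k‖ := by
  rw [norm_mul, ser_norm_exp, mul_one]
  exact ser_norm_apply_le _ _

theorem ser_sw0 {u : Sq d} (h : SW 0 u) : Summable fun k => ‖u k‖ := by
  have h1 : Summable fun k => nk k ^ 0 * ‖u k‖ := h
  simpa using h1

theorem ser_W0 (u : Sq d) : W 0 u = ∑' k, ‖u k‖ := by
  simp [W]

theorem ser_summable {u : Sq d} (h : SW 0 u) (i : Fin d) (x : Rv d) :
    Summable fun k => (u k) i * Complex.exp (Complex.I * (kx k x : ℂ)) :=
  Summable.of_norm_bounded (ser_sw0 h) (ser_norm_term_le u i x)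

theorem ser_re_summable {u : Sq d} (h : SW 0 u) (i : Fin d) (x : Rv d) :
    Summable fun k => ((u k) i * Complex.exp (Complex.I * (kx k x : ℂ))).re := by
  apply Summable.of_norm_bounded (ser_sw0 h)
  intro k
  rw [Real.norm_eq_abs]
  exact (Complex.abs_re_le_norm _).trans (ser_norm_term_le u i x k)

/-- the series is real -/
theorem ser_eq {u : Sq d} (hu : IsV u) (h : SW 0 u) (i : Fin d) (x : Rv d) :
    ((ser u i x : ℝ) : ℂ) = ∑' k, (u k) i * Complex.exp (Complex.I * (kx k x : ℂ)) := by
  set F : K d → ℂ := fun k => (u k) i * Complex.exp (Complex.I * (kx k x : ℂ)) with hF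
  have h1 : ∀ k, (starRingEnd ℂ) (F k) = F (-k) := by
    intro k
    simp only [hF]
    rw [map_mul, ← Complex.exp_conj, hu.sy k, kx_neg_left]
    simp [cj]
  have h2 : (starRingEnd ℂ) (∑' k, F k) = ∑' k, F k := by
    rw [Complex.conj_tsum]
    simp only [h1]
    exact (Equiv.neg (K d)).tsum_eq F
  have h3 : (ser u i x : ℝ) = (∑' k, F k).re := by
    rw [Complex.re_tsum (ser_summable h i x)]
    rfl
  rw [h3]
  exact Complex.conj_eq_iff_re.1 h2

theorem abs_ser_le {u : Sq d} (h : SW 0 u) (i : Fin d) (x : Rv d) : |ser u i x| ≤ W 0 u := by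
  have h1 : ser u i x = ∑' k, ((u k) i * Complex.exp (Complex.I * (kx k x : ℂ))).re := rfl
  rw [h1, ← Real.norm_eq_abs, ser_W0]
  apply tsum_of_norm_bounded (ser_sw0 h).hasSum
  intro k
  rw [Real.norm_eq_abs]
  exact (Complex.abs_re_le_norm _).trans (ser_norm_term_le u i x k)

/-- the coefficients of the partial derivative -/
def ser_du (j : Fin d) (u : Sq d) : Sq d := fun k => (Complex.I * (k j : ℂ)) • u k

theorem ser_du_zero (j : Fin d) (u : Sq d) : ser_du j u 0 = 0 := by
  simp [ser_du]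

theorem ser_norm_int (k : K d) (j : Fin d) : ‖((k j : ℤ) : ℂ)‖ = |(k j : ℝ)| := by
  rw [show ((k j : ℤ) : ℂ) = (((k j : ℤ) : ℝ) : ℂ) by push_cast; rfl, Complex.norm_real,
    Real.norm_eq_abs]

theorem ser_du_le {N : ℕ} {u : Sq d} (h : SW (N + 1) u) (j : Fin d) :
    SW N (ser_du j u) ∧ W N (ser_du j u) ≤ W (N + 1) u := by
  have hs : Summable fun k => nk k ^ (N + 1) * ‖u k‖ := h
  have hle : ∀ k, nk k ^ N * ‖ser_du j u k‖ ≤ nk k ^ (N + 1) * ‖u k‖ := by
    intro k
    unfold ser_du
    rw [norm_smul, norm_mul, Complex.norm_I, one_mul, ser_norm_int, pow_succ, mul_assoc]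
    apply mul_le_mul_of_nonneg_left _ (pow_nonneg (nk_nonneg k) N)
    exact mul_le_mul_of_nonneg_right (abs_le_nk k j) (norm_nonneg _)
  have hs' : Summable fun k => nk k ^ N * ‖ser_du j u k‖ :=
    Summable.of_nonneg_of_le
      (fun k => mul_nonneg (pow_nonneg (nk_nonneg k) N) (norm_nonneg _)) hle hs
  exact ⟨hs', hs'.tsum_le_tsum hle hs⟩

theorem ser_norm_kxL_le (k : K d) : ‖four_kxL k‖ ≤ nk k := by
  apply ContinuousLinearMap.opNorm_le_bound _ (nk_nonneg k)
  intro x
  rw [four_kxL_apply, Real.norm_eq_abs]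
  exact abs_kx_le k x

theorem ser_term_hasFDerivAt (u : Sq d) (i : Fin d) (k : K d) (x : Rv d) :
    HasFDerivAt (fun x : Rv d => ((u k) i * Complex.exp (Complex.I * (kx k x : ℂ))).re)
      ((Complex.I * (u k) i * Complex.exp (Complex.I * (kx k x : ℂ))).re • four_kxL k) x := by
  have h1 : HasFDerivAt (fun x : Rv d => (kx k x : ℂ)) (Complex.ofRealCLM.comp (four_kxL k)) x := by
    have h2 := (Complex.ofRealCLM.comp (four_kxL k)).hasFDerivAt (x := x)
    have h3 : (fun x : Rv d => (kx k x : ℂ)) = (Complex.ofRealCLM.comp (four_kxL k)) := by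
      funext y
      simp [four_kxL_apply]
    rw [h3]
    exact h2
  have h4 := ((h1.const_mul Complex.I).cexp).const_mul ((u k) i)
  have h5 := Complex.reCLM.hasFDerivAt.comp x h4
  refine h5.congr_fderiv ?_
  ext v
  simp only [ContinuousLinearMap.comp_apply, _root_.smul_apply, Complex.ofRealCLM_apply,
    Complex.reCLM_apply, smul_eq_mul]
  have e : (u k) i * (Complex.exp (Complex.I * (kx k x : ℂ)) *
      (Complex.I * ((four_kxL k v : ℝ) : ℂ))) =
      (Complex.I * (u k) i * Complex.exp (Complex.I * (kx k x : ℂ))) *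
        ((four_kxL k v : ℝ) : ℂ) := by
    ring
  rw [e, Complex.re_mul_ofReal]

theorem ser_hasFDerivAt {u : Sq d} (h0 : SW 0 u) (h : SW 1 u) (i : Fin d) (x : Rv d) :
    HasFDerivAt (ser u i)
      (∑' k, (Complex.I * (u k) i * Complex.exp (Complex.I * (kx k x : ℂ))).re • four_kxL k) x := by
  have hs : Summable fun k => nk k ^ 1 * ‖u k‖ := h
  apply hasFDerivAt_tsum (u := fun k => nk k ^ 1 * ‖u k‖) hs
    (fun k x => ser_term_hasFDerivAt u i k x) _ (ser_re_summable h0 i 0) x
  intro k x
  rw [norm_smul, Real.norm_eq_abs, pow_one, mul_comm (nk k)]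
  apply mul_le_mul _ (ser_norm_kxL_le k) (norm_nonneg _) (norm_nonneg _)
  refine (Complex.abs_re_le_norm _).trans ?_
  rw [mul_assoc, norm_mul, Complex.norm_I, one_mul]
  exact ser_norm_term_le u i x k

theorem ser_fderiv {u : Sq d} (h0 : SW 0 u) (h : SW 1 u) (i : Fin d) (x : Rv d) :
    fderiv ℝ (ser u i) x =
      ∑ j, (ser (ser_du j u) i x) • (EuclideanSpace.proj j : Rv d →L[ℝ] ℝ) := by
  rw [(ser_hasFDerivAt h0 h i x).fderiv]
  have h1 : ∀ k : K d, (Complex.I * (u k) i * Complex.exp (Complex.I * (kx k x : ℂ))).re •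
      four_kxL k = ∑ j, ((ser_du j u k) i * Complex.exp (Complex.I * (kx k x : ℂ))).re •
        (EuclideanSpace.proj j : Rv d →L[ℝ] ℝ) := by
    intro k
    unfold four_kxL
    rw [Finset.smul_sum]
    apply Finset.sum_congr rfl
    intro j _
    rw [smul_smul]
    congr 1
    have e : (ser_du j u k) i * Complex.exp (Complex.I * (kx k x : ℂ)) =
        (Complex.I * (u k) i * Complex.exp (Complex.I * (kx k x : ℂ))) *
          (((k j : ℤ) : ℝ) : ℂ) := by
      simp only [ser_du, PiLp.smul_apply, smul_eq_mul]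
      push_cast
      ring
    rw [e, Complex.re_mul_ofReal]
  simp only [h1]
  have hsum : ∀ j : Fin d, Summable fun k : K d =>
      ((ser_du j u k) i * Complex.exp (Complex.I * (kx k x : ℂ))).re •
        (EuclideanSpace.proj j : Rv d →L[ℝ] ℝ) := by
    intro j
    exact (ser_re_summable (ser_du_le (N := 0) h j).1 i x).smul_const _
  rw [Summable.tsum_finsetSum fun j _ => hsum j]
  apply Finset.sum_congr rfl
  intro j _
  rw [(ser_re_summable (ser_du_le (N := 0) h j).1 i x).tsum_smul_const]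
  rfl

theorem ser_pd {u : Sq d} (h0 : SW 0 u) (h : SW 1 u) (i j : Fin d) :
    pd j (ser u i) = ser (ser_du j u) i := by
  classical
  funext x
  unfold pd
  rw [ser_fderiv h0 h]
  simp [ev]

theorem ser_contDiff_aux (N : ℕ) : ∀ (u : Sq d), SW N u → u 0 = 0 → ∀ i : Fin d,
    ContDiff ℝ N (ser u i) := by
  induction N with
  | zero =>
    intro u h _ i
    have h' : SW 0 u := h
    have hc : Continuous (ser u i) := by
      apply continuous_tsum _ (ser_sw0 h')
      · intro k x
        rw [Real.norm_eq_abs]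
        exact (Complex.abs_re_le_norm _).trans (ser_norm_term_le u i x k)
      · intro k
        have := continuous_kx k
        fun_prop
    simpa using (contDiff_zero (𝕜 := ℝ)).2 hc
  | succ N ih =>
    intro u h h0 i
    have hs0 : SW 0 u := (SW.mono h h0 (Nat.zero_le _)).1
    have hs1 : SW 1 u := (SW.mono h h0 (by omega)).1
    push_cast
    rw [contDiff_succ_iff_fderiv]
    refine ⟨fun x => (ser_hasFDerivAt hs0 hs1 i x).differentiableAt, by simp, ?_⟩
    have e : fderiv ℝ (ser u i) = fun x =>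
        ∑ j, (ser (ser_du j u) i x) • (EuclideanSpace.proj j : Rv d →L[ℝ] ℝ) := by
      funext x
      exact ser_fderiv hs0 hs1 i x
    rw [e]
    apply ContDiff.sum
    intro j _
    exact (ih (ser_du j u) (ser_du_le h j).1 (ser_du_zero j u) i).smul contDiff_const

theorem ser_contDiff {u : Sq d} {N : ℕ} (h : SW N u) (h0 : u 0 = 0) (i : Fin d) :
    ContDiff ℝ N (ser u i) := ser_contDiff_aux N u h h0 i

theorem ser_smooth {u : Sq d} (h : Rap u) (h0 : u 0 = 0) (i : Fin d) :
    ContDiff ℝ (⊤ : ℕ∞) (ser u i) := by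
  rw [contDiff_infty]
  intro n
  exact ser_contDiff (h n) h0 i

theorem ser_nb_aux (N : ℕ) : ∀ (u : Sq d) (A : ℝ), SW N u → u 0 = 0 → W N u ≤ A → ∀ i : Fin d,
    Nb N A (ser u i) := by
  induction N with
  | zero =>
    intro u A h _ hA i x
    exact (abs_ser_le h i x).trans hA
  | succ N ih =>
    intro u A h h0 hA i
    obtain ⟨hs0, hw0⟩ := SW.mono h h0 (Nat.zero_le (N + 1))
    have hs1 : SW 1 u := (SW.mono h h0 (by omega)).1
    refine ⟨fun x => (abs_ser_le hs0 i x).trans (hw0.trans hA), ?_⟩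
    intro j
    rw [ser_pd hs0 hs1]
    obtain ⟨h1, h2⟩ := ser_du_le h j
    exact ih _ A h1 (ser_du_zero j u) (h2.trans hA) i

theorem ser_nb {u : Sq d} {N : ℕ} (h : SW N u) (h0 : u 0 = 0) (i : Fin d) :
    Nb N (W N u) (ser u i) := ser_nb_aux N u _ h h0 le_rfl i

theorem ser_add {u v : Sq d} (hu : SW 0 u) (hv : SW 0 v) (i : Fin d) (x : Rv d) :
    ser (u + v) i x = ser u i x + ser v i x := by
  unfold ser
  rw [← (ser_re_summable hu i x).tsum_add (ser_re_summable hv i x)]
  congr 1
  funext k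
  rw [← Complex.add_re]
  congr 1
  simp [add_mul]

theorem ser_sub {u v : Sq d} (hu : SW 0 u) (hv : SW 0 v) (i : Fin d) (x : Rv d) :
    ser (u - v) i x = ser u i x - ser v i x := by
  unfold ser
  rw [← (ser_re_summable hu i x).tsum_sub (ser_re_summable hv i x)]
  congr 1
  funext k
  rw [← Complex.sub_re]
  congr 1
  simp [sub_mul]

theorem ser_smul (u : Sq d) (t : ℝ) (i : Fin d) (x : Rv d) :
    ser (t • u) i x = t * ser u i x := by
  unfold ser
  rw [← tsum_mul_left]
  congr 1
  funext k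
  rw [← Complex.re_ofReal_mul]
  congr 1
  simp [mul_assoc]

/-- Fourier coefficients of the product of a periodic function and a compactly supported one -/
theorem fc_ser_mul {u : Sq d} (hu : IsV u) (h : SW 0 u) {f : Rv d → ℝ} (hf : Integrable f)
    (i : Fin d) (k : K d) :
    Summable (fun j => (u j) i * fc f (k - j)) ∧
    fc (fun x => ser u i x * f x) k = ∑' j, (u j) i * fc f (k - j) := by
  set F : K d → Rv d → ℂ := fun j x => (u j) i *
    (Complex.exp (-(Complex.I * (kx (k - j) x : ℂ))) * (f x : ℂ)) with hF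
  have hFi : ∀ j, Integrable (F j) := fun j => (four_int hf (k - j)).const_mul _
  have hnorm : ∀ j, ∫ x, ‖F j x‖ = ‖(u j) i‖ * ∫ x, |f x| := by
    intro j
    rw [← integral_const_mul]
    congr 1
    funext x
    simp only [hF]
    rw [norm_mul, norm_mul, four_norm_exp, one_mul, Complex.norm_real, Real.norm_eq_abs]
  have hsum : Summable fun j => ∫ x, ‖F j x‖ := by
    simp only [hnorm]
    apply Summable.mul_right
    exact Summable.of_nonneg_of_le (fun j => norm_nonneg _) (fun j => ser_norm_apply_le (u j) i)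
      (ser_sw0 h)
  have hmain := hasSum_integral_of_summable_integral_norm hFi hsum
  have e1 : (fun x => ∑' j, F j x) = fun x : Rv d =>
      Complex.exp (-(Complex.I * (kx k x : ℂ))) * ((ser u i x * f x : ℝ) : ℂ) := by
    funext x
    have e2 : ∀ j, F j x = ((u j) i * Complex.exp (Complex.I * (kx j x : ℂ))) *
        (Complex.exp (-(Complex.I * (kx k x : ℂ))) * (f x : ℂ)) := by
      intro j
      simp only [hF]
      have e3 : Complex.exp (-(Complex.I * (kx (k - j) x : ℂ))) =
          Complex.exp (Complex.I * (kx j x : ℂ)) * Complex.exp (-(Complex.I * (kx k x : ℂ))) := by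
        rw [← Complex.exp_add, sub_eq_add_neg, kx_add_left, kx_neg_left]
        congr 1
        push_cast
        ring
      rw [e3]
      ring
    simp only [e2]
    rw [tsum_mul_right, ← ser_eq hu h]
    push_cast
    ring
  rw [e1] at hmain
  have hmain2 := hmain.const_smul (((2 * Real.pi) ^ d : ℝ)⁻¹)
  have e4 : (fun j => (((2 * Real.pi) ^ d : ℝ)⁻¹) • ∫ x, F j x) =
      fun j => (u j) i * fc f (k - j) := by
    funext j
    simp only [hF]
    rw [integral_const_mul, ← mul_smul_comm]
    rfl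
  rw [e4] at hmain2
  exact ⟨hmain2.summable, hmain2.tsum_eq.symm⟩

end NSC
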