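import Pool.Agent.Work.MP_57e339_an.Inv

/-! Module Sing: a field with vorticity in a ball `B` and nonzero normal velocity at a boundary
point of `B`. -/

open MeasureTheory Set Filter Topology
open scoped BigOperators
noncomputable section
namespace NSC
variable {d : ℕ}

/-- subtract a multiple of `χ` from each component to get mean zero (if `∫ χ = 1`) -/
def mz (χ : Rv d → ℝ) (β : VF d) : VF d := fun i x => β i x - (∫ y, β i y) * χ x

/-- cut off power -/
def singH (d : ℕ) (s ρ : ℝ) : ℝ :=
  Real.smoothTransition (2 * ρ / s ^ 2 - 1) * ρ ^ (-(d : ℝ) / 2)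

theorem singH_contDiff (d : ℕ) {s : ℝ} (hs : 0 < s) : ContDiff ℝ (⊤ : ℕ∞) (singH d s) := by
  rw [contDiff_iff_contDiffAt]
  intro ρ
  by_cases h : ρ < s ^ 2 / 2
  · have : singH d s =ᶠ[𝓝 ρ] fun _ => 0 := by
      filter_upwards [Iio_mem_nhds h] with y hy
      simp only [singH]
      have h1 : 2 * y / s^2 < 1 := by
        rw [div_lt_one (by positivity)]
        have := hy
        simp at this
        linarith
      rw [Real.smoothTransition.zero_of_nonpos (by linarith), zero_mul]
    exact contDiffAt_const.congr_of_eventuallyEq this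
  · have hρ : ρ ≠ 0 := by
      push Not at h
      have : 0 < s ^ 2 / 2 := by positivity
      linarith
    unfold singH
    refine ContDiffAt.mul ?_ ?_
    · exact Real.smoothTransition.contDiff.contDiffAt.comp ρ (by fun_prop)
    · exact Real.contDiffAt_rpow_const_of_ne hρ

theorem singH_eq (d : ℕ) {s ρ : ℝ} (hs : 0 < s) (h : s ^ 2 ≤ ρ) :
    singH d s ρ = ρ ^ (-(d : ℝ) / 2) := by
  unfold singH
  rw [Real.smoothTransition.one_of_one_le, one_mul]
  rw [le_sub_iff_add_le, le_div_iff₀ (by positivity)]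
  linarith

theorem singH_deriv (d : ℕ) {s ρ : ℝ} (hs : 0 < s) (h : s ^ 2 < ρ) :
    2 * deriv (singH d s) ρ * ρ + d * singH d s ρ = 0 := by
  have hρ : 0 < ρ := lt_of_le_of_lt (by positivity) h
  have h1 : singH d s =ᶠ[𝓝 ρ] fun y => y ^ (-(d : ℝ) / 2) := by
    filter_upwards [Ioi_mem_nhds h] with y hy
    exact singH_eq d hs (le_of_lt hy)
  rw [h1.deriv_eq, singH_eq d hs h.le, Real.deriv_rpow_const, Real.rpow_sub_one hρ.ne']
  field_simp
  ring

/-- squared distance -/
def singR (q z : Rv d) : ℝ := ∑ j, (z j - q j) ^ 2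

theorem singR_contDiff (q : Rv d) : ContDiff ℝ (⊤ : ℕ∞) (singR q) := by
  unfold singR
  fun_prop

theorem singR_eq (q z : Rv d) : singR q z = dist z q ^ 2 := by
  rw [EuclideanSpace.dist_eq, Real.sq_sqrt (by positivity)]
  simp [singR, Real.dist_eq, sq_abs]

/-- radial field -/
def singG (s : ℝ) (q : Rv d) : VF d := fun i z => singH d s (singR q z) * (z i - q i)

theorem singG_contDiff {s : ℝ} (hs : 0 < s) (q : Rv d) (i : Fin d) :
    ContDiff ℝ (⊤ : ℕ∞) (singG s q i) := by
  unfold singG
  refine ((singH_contDiff d hs).comp (singR_contDiff q)).mul (by fun_prop)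

theorem sing_pd {s : ℝ} (hs : 0 < s) (q z : Rv d) (i j : Fin d) :
    pd j (singG s q i) z = 2 * deriv (singH d s) (singR q z) * (z j - q j) * (z i - q i) +
      (if j = i then singH d s (singR q z) else 0) := by
  have hH : Differentiable ℝ (singH d s) := (singH_contDiff d hs).differentiable (by simp)
  have hR : Differentiable ℝ (singR q) := (singR_contDiff q).differentiable (by simp)
  have e1 : pd j (fun z => singH d s (singR q z)) z =
      deriv (singH d s) (singR q z) * (2 * (z j - q j)) := by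
    rw [pd_comp (hH _) (hR _)]
    congr 1
    exact pd_normsq j q z
  have e2 : pd j (fun z : Rv d => z i - q i) z = if j = i then 1 else 0 := by
    rw [pd_sub (by fun_prop) (by fun_prop), pd_coord, pd_const]
    simp
  unfold singG
  rw [pd_mul (by exact (hH.comp hR) z) (by fun_prop), e1, e2]
  split_ifs <;> ring

/-- divergence of the radial field -/
def singD (s : ℝ) (q : Rv d) (z : Rv d) : ℝ := ∑ j, pd j (singG s q j) z

theorem singD_contDiff {s : ℝ} (hs : 0 < s) (q : Rv d) :
    ContDiff ℝ (⊤ : ℕ∞) (singD s q) := by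
  unfold singD
  exact ContDiff.sum fun j _ => contDiff_pd_top (singG_contDiff hs q j) j

theorem singD_eq {s : ℝ} (hs : 0 < s) (q z : Rv d) :
    singD s q z = 2 * deriv (singH d s) (singR q z) * singR q z + d * singH d s (singR q z) := by
  unfold singD
  simp only [sing_pd hs]
  rw [Finset.sum_add_distrib]
  simp
  generalize deriv (singH d s) (singR q z) = c
  rw [singR, Finset.mul_sum]
  refine Finset.sum_congr rfl fun j _ => ?_
  ring

theorem singD_zero {s : ℝ} (hs : 0 < s) {q z : Rv d} (h : s < dist z q) : singD s q z = 0 := by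
  rw [singD_eq hs]
  apply singH_deriv d hs
  rw [singR_eq]
  gcongr

theorem singD_tsupport {s : ℝ} (hs : 0 < s) (q : Rv d) :
    tsupport (singD s q) ⊆ Metric.closedBall q s := by
  apply closure_minimal _ Metric.isClosed_closedBall
  intro z hz
  by_contra hc
  simp at hc
  exact hz (singD_zero hs hc)

/-- uniform bounds for the derivatives of a family -/
theorem sing_unif {c : Rv d} {r T : ℝ} (m : ℕ) : ∀ (F : ℝ × Rv d → ℝ), ContDiff ℝ (⊤ : ℕ∞) F →
    (∀ t z, z ∉ Metric.closedBall c r → F (t, z) = 0) →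
    ∃ A, ∀ t ∈ Icc 0 T, Nb m A (fun z => F (t, z)) := by
  have key : ∀ (F : ℝ × Rv d → ℝ), ContDiff ℝ (⊤ : ℕ∞) F →
      (∀ t z, z ∉ Metric.closedBall c r → F (t, z) = 0) →
      ∃ A, ∀ t ∈ Icc 0 T, ∀ z, |F (t, z)| ≤ A := by
    intro F hF h0
    obtain ⟨A, hA⟩ := (isCompact_Icc.prod (isCompact_closedBall c r)).exists_bound_of_continuousOn
      (f := F) (s := Icc 0 T ×ˢ Metric.closedBall c r) hF.continuous.continuousOn
    refine ⟨max A 0, fun t ht z => ?_⟩
    by_cases hz : z ∈ Metric.closedBall c r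
    · exact le_trans (hA (t, z) ⟨ht, hz⟩) (le_max_left _ _)
    · rw [h0 t z hz]
      simp
  induction m with
  | zero =>
    intro F hF h0
    exact key F hF h0
  | succ m ih =>
    intro F hF h0
    obtain ⟨A0, hA0⟩ := key F hF h0
    have hdF : ∀ i : Fin d, ContDiff ℝ (⊤ : ℕ∞) (fun p => fderiv ℝ F p ((0 : ℝ), ev i)) := by
      intro i
      exact (hF.fderiv_right (m := (⊤ : ℕ∞)) (by simp)).clm_apply contDiff_const
    have hd0 : ∀ i : Fin d, ∀ t z, z ∉ Metric.closedBall c r →
        (fun p => fderiv ℝ F p ((0 : ℝ), ev i)) (t, z) = 0 := by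
      intro i t z hz
      have : F =ᶠ[𝓝 (t, z)] fun _ => 0 := by
        have hop : IsOpen (univ ×ˢ (Metric.closedBall c r)ᶜ : Set (ℝ × Rv d)) :=
          isOpen_univ.prod Metric.isClosed_closedBall.isOpen_compl
        filter_upwards [hop.mem_nhds ⟨mem_univ _, hz⟩] with p hp
        exact h0 p.1 p.2 hp.2
      simp only [this.fderiv_eq]
      simp
    choose A hA using fun i : Fin d => ih _ (hdF i) (hd0 i)
    refine ⟨max A0 (∑ i, |A i|), fun t ht => ⟨fun z => le_trans (hA0 t ht z) (le_max_left _ _),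
      fun i => ?_⟩⟩
    have e : pd i (fun z => F (t, z)) = fun z => fderiv ℝ F (t, z) ((0 : ℝ), ev i) := by
      funext z
      unfold pd
      have h1 : HasFDerivAt (fun z => F (t, z))
          ((fderiv ℝ F (t, z)).comp (ContinuousLinearMap.inr ℝ ℝ (Rv d))) z := by
        have h2 : HasFDerivAt F (fderiv ℝ F (t, z)) (t, z) :=
          (hF.differentiable (by simp) _).hasFDerivAt
        exact h2.comp z (hasFDerivAt_prodMk_right t z)
      rw [h1.fderiv]
      simp
    rw [e]
    refine (hA i t ht).mono (le_trans ?_ (le_max_right _ _))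
    refine le_trans (le_abs_self _) (Finset.single_le_sum (f := fun i => |A i|)
      (fun i _ => abs_nonneg _) (Finset.mem_univ i))


/-- a cut off function -/
structure SingT (x : Rv d) (θ : Rv d → ℝ) : Prop where
  smooth : ContDiff ℝ (⊤ : ℕ∞) θ
  one : ∀ z ∈ Metric.closedBall x (1 / 4), θ z = 1
  supp : tsupport θ ⊆ Metric.closedBall x (1 / 2)
  cpt : HasCompactSupport θ

theorem singT_exists (x : Rv d) : ∃ θ : Rv d → ℝ, SingT x θ := by
  let f : ContDiffBump x := ⟨1 / 4, 1 / 2, by norm_num, by norm_num⟩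
  exact ⟨f, f.contDiff, fun z hz => f.one_of_mem_closedBall hz, by rw [f.tsupport_eq],
    f.hasCompactSupport⟩

/-- the gradient of the cut off vanishes near the center -/
theorem SingT.pd_zero {x : Rv d} {θ : Rv d → ℝ} (h : SingT x θ) {z : Rv d}
    (hz : z ∈ Metric.ball x (1 / 4)) (i : Fin d) : pd i θ z = 0 := by
  rw [pd_congr (g := fun _ => 1), pd_const]
  filter_upwards [Metric.isOpen_ball.mem_nhds hz] with y hy
  exact h.one y (Metric.ball_subset_closedBall hy)

theorem SingT.pd_zero' {x : Rv d} {θ : Rv d → ℝ} (h : SingT x θ) {z : Rv d}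
    (hz : z ∉ Metric.closedBall x (1 / 2)) (i : Fin d) : pd i θ z = 0 :=
  pd_zero_of_notMem (fun hh => hz (h.supp hh)) i

/-- the smooth remainder -/
def singB (s : ℝ) (q ω : Rv d) (θ : Rv d → ℝ) : VF d := fun i z =>
  (∑ j, ω j * singG s q j z) * pd i θ z +
    ∑ j, pd j θ z * (singG s q j z * ω i - singG s q i z * ω j)

/-- the antisymmetric potential -/
def singA (s : ℝ) (q ω : Rv d) (θ : Rv d → ℝ) (i j : Fin d) (z : Rv d) : ℝ :=
  θ z * (singG s q j z * ω i - singG s q i z * ω j)

/-- the divergence free field -/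
def singV (s : ℝ) (q ω : Rv d) (θ : Rv d → ℝ) : VF d := fun i z =>
  ∑ j, pd j (singA s q ω θ i j) z

theorem singA_contDiff {s : ℝ} (hs : 0 < s) (q ω : Rv d) {θ : Rv d → ℝ}
    (hθ : ContDiff ℝ (⊤ : ℕ∞) θ) (i j : Fin d) :
    ContDiff ℝ (⊤ : ℕ∞) (singA s q ω θ i j) := by
  unfold singA
  exact hθ.mul (((singG_contDiff hs q j).mul contDiff_const).sub
    ((singG_contDiff hs q i).mul contDiff_const))

theorem singA_supp (s : ℝ) (q ω : Rv d) (θ : Rv d → ℝ) (i j : Fin d) :
    tsupport (singA s q ω θ i j) ⊆ tsupport θ := by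
  apply closure_mono
  intro z hz hc
  apply hz
  simp [singA, hc]

theorem singV_contDiff {s : ℝ} (hs : 0 < s) (q ω : Rv d) {θ : Rv d → ℝ}
    (hθ : ContDiff ℝ (⊤ : ℕ∞) θ) (i : Fin d) : ContDiff ℝ (⊤ : ℕ∞) (singV s q ω θ i) :=
  ContDiff.sum fun j _ => contDiff_pd_top (singA_contDiff hs q ω hθ i j) j

theorem singV_supp (s : ℝ) (q ω : Rv d) (θ : Rv d → ℝ) (i : Fin d) :
    tsupport (singV s q ω θ i) ⊆ tsupport θ := by
  apply closure_minimal _ (isClosed_tsupport _)
  intro z hz
  by_contra hc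
  apply hz
  refine Finset.sum_eq_zero fun j _ => ?_
  exact pd_zero_of_notMem (fun hh => hc (singA_supp s q ω θ i j hh)) j

theorem sing_two_le : (2 : WithTop ℕ∞) ≤ ((⊤ : ℕ∞) : WithTop ℕ∞) := by
  exact WithTop.coe_le_coe.mpr (le_top : (2 : ℕ∞) ≤ ⊤)

theorem sing_comb {f g : Rv d → ℝ} {z : Rv d} (hf : DifferentiableAt ℝ f z)
    (hg : DifferentiableAt ℝ g z) (a b : ℝ) (j : Fin d) :
    pd j (fun y => f y * a - g y * b) z = pd j f z * a - pd j g z * b := by
  rw [pd_sub (hf.fun_mul (differentiableAt_const _)) (hg.fun_mul (differentiableAt_const _)),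
    pd_mul hf (differentiableAt_const _), pd_mul hg (differentiableAt_const _),
    pd_const, pd_const]
  ring

theorem singV_dfree {s : ℝ} (hs : 0 < s) (q ω : Rv d) {θ : Rv d → ℝ}
    (hθ : ContDiff ℝ (⊤ : ℕ∞) θ) : Dfree (singV s q ω θ) := by
  intro z
  have e : ∀ i, pd i (singV s q ω θ i) z = ∑ j, pd i (pd j (singA s q ω θ i j)) z := by
    intro i
    unfold singV
    rw [pd_sum]
    intro j _
    exact (contDiff_pd_top (singA_contDiff hs q ω hθ i j) j).differentiable (by simp) z
  simp only [e]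
  have hA : ∀ i j, singA s q ω θ j i = fun z => (-1) * singA s q ω θ i j z := by
    intro i j
    funext z
    simp only [singA]
    ring
  have hanti : ∀ i j, pd j (pd i (singA s q ω θ j i)) z = - pd i (pd j (singA s q ω θ i j)) z := by
    intro i j
    have h1 : pd i (singA s q ω θ j i) = fun z => (-1) * pd i (singA s q ω θ i j) z := by
      funext z
      rw [hA i j, pd_const_mul]
      exact (singA_contDiff hs q ω hθ i j).differentiable (by simp) z
    rw [h1, pd_const_mul, pd_comm ((singA_contDiff hs q ω hθ i j).of_le sing_two_le)]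
    · ring
    · exact (contDiff_pd_top (singA_contDiff hs q ω hθ i j) i).differentiable (by simp) z
  have h2 : ∑ i, ∑ j, pd i (pd j (singA s q ω θ i j)) z =
      - ∑ i, ∑ j, pd i (pd j (singA s q ω θ i j)) z := by
    conv_lhs => rw [Finset.sum_comm]
    rw [← Finset.sum_neg_distrib]
    refine Finset.sum_congr rfl fun i _ => ?_
    rw [← Finset.sum_neg_distrib]
    refine Finset.sum_congr rfl fun j _ => ?_
    exact hanti i j
  linarith

theorem singG_diff {s : ℝ} (hs : 0 < s) (q : Rv d) (i : Fin d) (z : Rv d) :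
    DifferentiableAt ℝ (singG s q i) z :=
  (singG_contDiff hs q i).differentiable (by simp) z

theorem singV_eq {s : ℝ} (hs : 0 < s) {q ω : Rv d} {x : Rv d} {θ : Rv d → ℝ} (hθ : SingT x θ)
    (hsx : ∀ z, dist z q ≤ s → z ∈ Metric.closedBall x (1 / 4)) (i : Fin d) (z : Rv d) :
    singV s q ω θ i z = ω i * singD s q z -
      pd i (fun y => θ y * ∑ j, ω j * singG s q j y) z + singB s q ω θ i z := by
  have hθd : DifferentiableAt ℝ θ z := hθ.smooth.differentiable (by simp) z
  have hD : θ z * singD s q z = singD s q z := by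
    by_cases h : dist z q ≤ s
    · rw [hθ.one z (hsx z h), one_mul]
    · rw [singD_zero hs (not_le.mp h), mul_zero]
  have e1 : ∀ j, pd j (singA s q ω θ i j) z =
      pd j θ z * (singG s q j z * ω i - singG s q i z * ω j) +
      θ z * (pd j (singG s q j) z * ω i - pd j (singG s q i) z * ω j) := by
    intro j
    unfold singA
    have hg := singG_diff hs q j z
    have hg' := singG_diff hs q i z
    rw [pd_mul hθd ((hg.fun_mul (differentiableAt_const _)).fun_sub
      (hg'.fun_mul (differentiableAt_const _))), sing_comb hg hg']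
  have e2 : pd i (fun y => θ y * ∑ j, ω j * singG s q j y) z =
      pd i θ z * (∑ j, ω j * singG s q j z) + θ z * ∑ j, ω j * pd i (singG s q j) z := by
    have hdj : ∀ j ∈ (Finset.univ : Finset (Fin d)),
        DifferentiableAt ℝ (fun y => ω j * singG s q j y) z := fun j _ =>
      (differentiableAt_const _).mul (singG_diff hs q j z)
    rw [pd_mul hθd (DifferentiableAt.fun_sum hdj), pd_sum _ hdj]
    congr 2
    refine Finset.sum_congr rfl fun j _ => ?_
    rw [pd_const_mul (singG_diff hs q j z)]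
  have e3 : ∀ j, pd i (singG s q j) z = pd j (singG s q i) z := by
    intro j
    rw [sing_pd hs, sing_pd hs]
    by_cases h : i = j
    · subst h; ring
    · rw [if_neg h, if_neg (Ne.symm h)]; ring
  unfold singV
  simp only [e1]
  rw [e2]
  simp only [e3]
  rw [← hD]
  unfold singB singD
  rw [Finset.sum_add_distrib]
  have e4 : ∑ j, θ z * (pd j (singG s q j) z * ω i - pd j (singG s q i) z * ω j) =
      ω i * (θ z * ∑ j, pd j (singG s q j) z) - θ z * ∑ j, ω j * pd j (singG s q i) z := by
    rw [Finset.mul_sum, Finset.mul_sum, Finset.mul_sum, ← Finset.sum_sub_distrib]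
    refine Finset.sum_congr rfl fun j _ => ?_
    ring
  rw [e4]
  ring

/-- value of the divergence free field at the distinguished point -/
theorem singV_at {s t : ℝ} (hs : 0 < s) (hst : s < t) {x ω : Rv d} (hω : ‖ω‖ = 1) {θ : Rv d → ℝ}
    (hθ : SingT x θ) :
    ∑ i, ω i * singV s (x - t • ω) ω θ i x = ((d : ℝ) - 1) * (t ^ 2) ^ (-(d : ℝ) / 2) := by
  have hω2 : ∑ i, ω i * ω i = 1 := by
    have : ‖ω‖ ^ 2 = ∑ i, ω i ^ 2 := by
      rw [EuclideanSpace.norm_sq_eq]; simp
    rw [hω] at this
    rw [show (1 : ℝ) = 1 ^ 2 by norm_num, this]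
    exact Finset.sum_congr rfl fun i _ => by ring
  set q := x - t • ω with hq
  have hxq : ∀ i, x i - q i = t * ω i := by
    intro i
    simp [hq]
  have hR : singR q x = t ^ 2 := by
    unfold singR
    simp only [hxq]
    rw [show ∑ j, (t * ω j) ^ 2 = t ^ 2 * ∑ j, ω j * ω j by
      rw [Finset.mul_sum]; exact Finset.sum_congr rfl fun i _ => by ring, hω2, mul_one]
  have e1 : ∀ i j, pd j (singA s q ω θ i j) x =
      pd j (singG s q j) x * ω i - pd j (singG s q i) x * ω j := by
    intro i j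
    have h1 : singA s q ω θ i j =ᶠ[𝓝 x] fun y => singG s q j y * ω i - singG s q i y * ω j := by
      filter_upwards [Metric.closedBall_mem_nhds x (show (0 : ℝ) < 1 / 4 by norm_num)] with y hy
      unfold singA
      rw [hθ.one y hy, one_mul]
    have hg := singG_diff hs q j x
    have hg' := singG_diff hs q i x
    rw [pd_congr h1, sing_comb hg hg']
  have hh : singH d s (t ^ 2) = (t ^ 2) ^ (-(d : ℝ) / 2) := singH_eq d hs (by gcongr)
  unfold singV
  simp only [e1, sing_pd hs, hR, hxq, hh, if_true]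
  generalize deriv (singH d s) (t ^ 2) = c
  generalize (t ^ 2) ^ (-(d : ℝ) / 2) = h
  have e5 : ∀ i : Fin d, ∑ j : Fin d, ((2 * c * (t * ω j) * (t * ω j) + h) * ω i -
      (2 * c * (t * ω j) * (t * ω i) + if j = i then h else 0) * ω j) = (d - 1) * h * ω i := by
    intro i
    have : ∀ j : Fin d, ((2 * c * (t * ω j) * (t * ω j) + h) * ω i -
      (2 * c * (t * ω j) * (t * ω i) + if j = i then h else 0) * ω j) =
        h * ω i - (if j = i then h * ω j else 0) := by
      intro j
      by_cases hj : j = i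
      · subst hj; simp
      · simp [hj]; ring
    refine (Finset.sum_congr rfl fun j _ => this j).trans ?_
    rw [Finset.sum_sub_distrib]
    simp
    ring
  refine (Finset.sum_congr rfl fun i _ => congrArg (ω i * ·) (e5 i)).trans ?_
  rw [show ∑ i, ω i * ((d - 1) * h * ω i) = (d - 1) * h * ∑ i, ω i * ω i by
    rw [Finset.mul_sum]; exact Finset.sum_congr rfl fun i _ => by ring, hω2]
  ring

theorem singG_joint {s : ℝ} (hs : 0 < s) (x ω : Rv d) (i : Fin d) :
    ContDiff ℝ (⊤ : ℕ∞) (fun p : ℝ × Rv d => singG s (x - p.1 • ω) i p.2) := by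
  have hR : ContDiff ℝ (⊤ : ℕ∞) (fun p : ℝ × Rv d => singR (x - p.1 • ω) p.2) := by
    unfold singR
    fun_prop
  unfold singG
  refine ((singH_contDiff d hs).comp hR).mul (by fun_prop)

theorem singB_joint {s : ℝ} (hs : 0 < s) (x ω : Rv d) {θ : Rv d → ℝ}
    (hθ : ContDiff ℝ (⊤ : ℕ∞) θ) (i : Fin d) :
    ContDiff ℝ (⊤ : ℕ∞) (fun p : ℝ × Rv d => singB s (x - p.1 • ω) ω θ i p.2) := by
  have hg := fun j => singG_joint hs x ω j
  have hp : ∀ j, ContDiff ℝ (⊤ : ℕ∞) (fun p : ℝ × Rv d => pd j θ p.2) := fun j =>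
    (contDiff_pd_top hθ j).comp contDiff_snd
  unfold singB
  refine ContDiff.add (ContDiff.mul (ContDiff.sum fun j _ => contDiff_const.mul (hg j)) (hp i))
    (ContDiff.sum fun j _ => (hp j).mul (((hg j).mul contDiff_const).sub ((hg i).mul contDiff_const)))

theorem singB_smooth {s : ℝ} (hs : 0 < s) (q ω : Rv d) {θ : Rv d → ℝ}
    (hθ : ContDiff ℝ (⊤ : ℕ∞) θ) (i : Fin d) : ContDiff ℝ (⊤ : ℕ∞) (singB s q ω θ i) := by
  have hg := fun j => singG_contDiff hs q j
  unfold singB
  refine ContDiff.add (ContDiff.mul (ContDiff.sum fun j _ => contDiff_const.mul (hg j))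
    (contDiff_pd_top hθ i))
    (ContDiff.sum fun j _ => (contDiff_pd_top hθ j).mul
      (((hg j).mul contDiff_const).sub ((hg i).mul contDiff_const)))

theorem singB_zero {s : ℝ} {q ω x : Rv d} {θ : Rv d → ℝ} (hθ : SingT x θ) (i : Fin d) {z : Rv d}
    (hz : z ∉ Metric.closedBall x (1 / 2)) : singB s q ω θ i z = 0 := by
  unfold singB
  simp [hθ.pd_zero' hz]

/-- on the support of the gradient of the cut off, the inner radius does not matter -/
theorem singG_indep {s s' : ℝ} (hs : 0 < s) (hs' : 0 < s') {q z : Rv d} (h : s ≤ dist z q)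
    (h' : s' ≤ dist z q) (i : Fin d) : singG s q i z = singG s' q i z := by
  unfold singG
  rw [singR_eq, singH_eq d hs (by gcongr), singH_eq d hs' (by gcongr)]

theorem singB_indep {s t : ℝ} (hs : 0 < s) (hst : s ≤ 1 / 8) (ht : t ≤ 1 / 8) (ht0 : 0 ≤ t)
    {x ω : Rv d} (hω : ‖ω‖ = 1) {θ : Rv d → ℝ} (hθ : SingT x θ) :
    singB s (x - t • ω) ω θ = singB (1 / 8) (x - t • ω) ω θ := by
  funext i z
  unfold singB
  by_cases hz : z ∈ Metric.ball x (1 / 4)
  · simp [hθ.pd_zero hz]
  · have hzx : 1 / 4 ≤ dist z x := by simpa using hz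
    have hxq : dist x (x - t • ω) ≤ 1 / 8 := by
      rw [dist_eq_norm]
      simp [norm_smul, hω, abs_of_nonneg ht0]
      simpa using ht
    have h1 : 1 / 8 ≤ dist z (x - t • ω) := by
      have h2 : dist z x ≤ dist z (x - t • ω) + dist (x - t • ω) x := dist_triangle _ _ _
      rw [dist_comm (x - t • ω) x] at h2
      linarith
    have h3 : ∀ j, singG s (x - t • ω) j z = singG (1 / 8) (x - t • ω) j z := fun j =>
      singG_indep hs (by norm_num) (hst.trans h1) h1 j
    simp only [h3]

/-- the total divergence -/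
theorem singD_int {s : ℝ} (hs : 0 < s) {q x : Rv d} {θ : Rv d → ℝ} (hθ : SingT x θ)
    (hsx : ∀ z, dist z q ≤ s → z ∈ Metric.closedBall x (1 / 4)) :
    ∫ z, singD s q z = - ∫ z, ∑ j, pd j θ z * singG s q j z := by
  have hc : ∀ j, ContDiff ℝ (⊤ : ℕ∞) (fun z => θ z * singG s q j z) := fun j =>
    hθ.smooth.mul (singG_contDiff hs q j)
  have hcc : ∀ j, HasCompactSupport (fun z => θ z * singG s q j z) := fun j =>
    hθ.cpt.mul_right
  have h0 : ∀ j, ∫ z, pd j (fun z => θ z * singG s q j z) z = 0 := by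
    intro j
    have h1 := fc_pd ((hc j).of_le (by exact_mod_cast le_top)) (hcc j) j 0
    rw [fc_zero_index] at h1
    simp at h1
    exact h1
  have hint : ∀ j, Integrable (pd j (fun z => θ z * singG s q j z)) := fun j =>
    (contDiff_pd_top (hc j) j).continuous.integrable_of_hasCompactSupport
      ((hcc j).mono' ((subset_tsupport _).trans (tsupport_pd_subset _ _)))
  have hint2 : Integrable (fun z => ∑ j, pd j θ z * singG s q j z) := by
    apply Continuous.integrable_of_hasCompactSupport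
    · exact continuous_finsetSum _ fun j _ =>
        (contDiff_pd_top hθ.smooth j).continuous.mul (singG_contDiff hs q j).continuous
    · apply hθ.cpt.mono'
      intro z hz
      by_contra hc
      apply hz
      refine Finset.sum_eq_zero fun j _ => ?_
      rw [pd_zero_of_notMem hc, zero_mul]
  have e : ∀ z, singD s q z = (∑ j, pd j (fun z => θ z * singG s q j z) z) -
      ∑ j, pd j θ z * singG s q j z := by
    intro z
    have hD : θ z * singD s q z = singD s q z := by
      by_cases h : dist z q ≤ s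
      · rw [hθ.one z (hsx z h), one_mul]
      · rw [singD_zero hs (not_le.mp h), mul_zero]
    rw [← hD, singD, Finset.mul_sum, ← Finset.sum_sub_distrib]
    refine Finset.sum_congr rfl fun j _ => ?_
    rw [pd_mul (hθ.smooth.differentiable (by simp) z) (singG_diff hs q j z)]
    ring
  have : ∫ z, singD s q z = ∫ z, ((∑ j, pd j (fun z => θ z * singG s q j z) z) -
      ∑ j, pd j θ z * singG s q j z) := integral_congr_ae (Eventually.of_forall e)
  rw [this, integral_sub (integrable_finsetSum _ fun j _ => hint j) hint2,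
    integral_finsetSum _ fun j _ => hint j]
  simp [h0]

theorem sing_abs_le {ω : Rv d} (hω : ‖ω‖ = 1) (i : Fin d) : |ω i| ≤ 1 := by
  rw [← hω, ← Real.norm_eq_abs]
  exact PiLp.norm_apply_le ω i

theorem sing_phi_le {ω : Rv d} (hω : ‖ω‖ = 1) {u : Sq d} (hu : SW 0 u) {C : ℝ} (hC : W 0 u ≤ C)
    (x : Rv d) : |∑ i, ω i * ser u i x| ≤ d * C := by
  refine (Finset.abs_sum_le_sum_abs _ _).trans ?_
  have : ∀ i ∈ (Finset.univ : Finset (Fin d)), |ω i * ser u i x| ≤ C := by
    intro i _
    rw [abs_mul]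
    calc |ω i| * |ser u i x| ≤ 1 * C :=
          mul_le_mul (sing_abs_le hω i) ((abs_ser_le hu i x).trans hC) (abs_nonneg _) zero_le_one
      _ = C := one_mul C
  refine (Finset.sum_le_card_nsmul _ _ _ this).trans ?_
  simp

theorem sing (hd : d = 2 ∨ d = 3) {χ : Rv d → ℝ} (hχ : ContDiff ℝ (⊤ : ℕ∞) χ)
    (hχc : HasCompactSupport χ) (x ω : Rv d) (hω : ‖ω‖ = 1) {R : ℝ} (hR : 0 < R) :
    ∃ β : VF d, TF β ∧ Su β (Metric.ball (x - R • ω) R) ∧
      0 < ∑ i, ω i * ser (pr (mz χ β)) i x := by
  obtain ⟨θ, hθ⟩ := singT_exists x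
  obtain ⟨A, hA⟩ : ∃ A, ∀ t ∈ Icc (0 : ℝ) 1, ∀ i,
      Nb 8 A (singB (1 / 8) (x - t • ω) ω θ i) := by
    choose A hA using fun i : Fin d => sing_unif (c := x) (r := 1 / 2) (T := 1) 8
      (fun p => singB (1 / 8) (x - p.1 • ω) ω θ i p.2)
      (singB_joint (by norm_num) x ω hθ.smooth i) (fun t z hz => singB_zero hθ i hz)
    refine ⟨∑ i, |A i|, fun t ht i => (hA i t ht).mono ?_⟩
    exact le_trans (le_abs_self _) (Finset.single_le_sum (f := fun i => |A i|)
      (fun i _ => abs_nonneg _) (Finset.mem_univ i))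
  obtain ⟨B, hB⟩ : ∃ B, ∀ t ∈ Icc (0 : ℝ) 1, ∀ z,
      |∑ j, pd j θ z * singG (1 / 8) (x - t • ω) j z| ≤ B := by
    have hE : ContDiff ℝ (⊤ : ℕ∞) (fun p : ℝ × Rv d =>
        ∑ j, pd j θ p.2 * singG (1 / 8) (x - p.1 • ω) j p.2) :=
      ContDiff.sum fun j _ => ((contDiff_pd_top hθ.smooth j).comp contDiff_snd).mul
        (singG_joint (by norm_num) x ω j)
    obtain ⟨B, hB⟩ := sing_unif (c := x) (r := 1 / 2) (T := 1) 0 _ hE (fun t z hz => by
      simp [hθ.pd_zero' hz])
    exact ⟨B, fun t ht z => hB t ht z⟩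
  obtain ⟨C, hC0, hC⟩ := pr_W_le hd (‖x‖ + 1 / 2)
  set vol := (volume (Metric.closedBall x (1 / 2) : Set (Rv d))).toReal with hvol
  set χω : VF d := fun i z => ω i * χ z with hχω
  set c0 := ∑ i, ω i * ser (pr χω) i x with hc0
  have hχω' : TF χω := fun i => ⟨contDiff_const.mul hχ, hχc.mul_left⟩
  set C1 := d * (C * A) + (B * vol) * |c0| with hC1
  have hB0 : 0 ≤ B := (abs_nonneg _).trans (hB 0 ⟨le_rfl, zero_le_one⟩ x)
  have hC1' : 0 ≤ |C1| := abs_nonneg _
  obtain ⟨t, ht0, ht8, htR, htC⟩ : ∃ t : ℝ, 0 < t ∧ t ≤ 1 / 8 ∧ t ≤ R ∧ |C1| + 1 ≤ 1 / t := by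
    refine ⟨min (1 / 8) (min R (1 / (|C1| + 1))), ?_, min_le_left _ _,
      (min_le_right _ _).trans (min_le_left _ _), ?_⟩
    · refine lt_min (by norm_num) (lt_min hR (by positivity))
    · rw [le_div_iff₀ (lt_min (by norm_num) (lt_min hR (by positivity)))]
      calc (|C1| + 1) * _ ≤ (|C1| + 1) * (1 / (|C1| + 1)) := by
            gcongr
            exact (min_le_right _ _).trans (min_le_right _ _)
        _ = 1 := by field_simp
  have ht1 : t ∈ Icc (0 : ℝ) 1 := ⟨ht0.le, by linarith⟩
  set q := x - t • ω with hq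
  set s := t / 2 with hs
  have hs0 : 0 < s := by positivity
  have hqx : dist q x = t := by
    rw [dist_eq_norm, hq]
    simp [norm_smul, hω, abs_of_pos ht0]
  have hsx : ∀ z, dist z q ≤ s → z ∈ Metric.closedBall x (1 / 4) := by
    intro z hz
    have := dist_triangle z q x
    rw [Metric.mem_closedBall]
    linarith
  set β : VF d := fun i z => ω i * singD s q z with hβ
  have hβT : TF β := by
    intro i
    refine ⟨contDiff_const.mul (singD_contDiff hs0 q), ?_⟩
    exact HasCompactSupport.mul_left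
      (HasCompactSupport.intro (isCompact_closedBall q s) fun z hz =>
        singD_zero hs0 (by simpa using hz))
  have hβS : Su β (Metric.ball (x - R • ω) R) := by
    intro i z hz
    have h1 : z ∈ tsupport (singD s q) := by
      refine closure_mono ?_ hz
      intro y hy hc
      apply hy
      simp only [hβ]
      rw [hc, mul_zero]
    have h2 := singD_tsupport hs0 q h1
    have h3 : dist q (x - R • ω) = R - t := by
      rw [dist_eq_norm, hq]
      have : x - t • ω - (x - R • ω) = (R - t) • ω := by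
        rw [sub_smul]; abel
      rw [this, norm_smul, hω, Real.norm_eq_abs, abs_of_nonneg (by linarith), mul_one]
    have := dist_triangle z q (x - R • ω)
    rw [Metric.mem_closedBall] at h2
    rw [Metric.mem_ball]
    linarith
  refine ⟨β, hβT, hβS, ?_⟩
  set φ : Rv d → ℝ := fun y => θ y * ∑ j, ω j * singG s q j y with hφ
  have hφs : ContDiff ℝ (⊤ : ℕ∞) φ := hθ.smooth.mul
    (ContDiff.sum fun j _ => contDiff_const.mul (singG_contDiff hs0 q j))
  have hφc : HasCompactSupport φ := hθ.cpt.mul_right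
  have hV : TF (singV s q ω θ) := fun i => ⟨singV_contDiff hs0 q ω hθ.smooth i,
    hθ.cpt.mono' ((subset_tsupport _).trans (singV_supp s q ω θ i))⟩
  have hBe : singB s q ω θ = singB (1 / 8) q ω θ :=
    singB_indep hs0 (by linarith) ht8 ht0.le hω hθ
  have hBsm : ∀ i, ContDiff ℝ (⊤ : ℕ∞) (singB (1 / 8) q ω θ i) :=
    singB_smooth (by norm_num) q ω hθ.smooth
  have hBsupp : ∀ i, tsupport (singB (1 / 8) q ω θ i) ⊆ Metric.closedBall x (1 / 2) := by
    intro i
    apply closure_minimal _ Metric.isClosed_closedBall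
    intro z hz
    by_contra hc
    exact hz (singB_zero hθ i hc)
  have hBT : TF (singB (1 / 8) q ω θ) := fun i => ⟨hBsm i,
    HasCompactSupport.intro (isCompact_closedBall x (1 / 2)) fun z hz => singB_zero hθ i hz⟩
  have hpdφ : TF (fun i => pd i φ) := fun i => ⟨contDiff_pd_top hφs i,
    hφc.mono' ((subset_tsupport _).trans (tsupport_pd_subset _ _))⟩
  -- the projection of `β`
  have hprβ : pr β = pr (singV s q ω θ) - pr (singB (1 / 8) q ω θ) := by
    have e : β = fun i z => (fun i z => singV s q ω θ i z + pd i φ z) i z -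
        singB (1 / 8) q ω θ i z := by
      funext i z
      simp only
      rw [singV_eq hs0 hθ hsx, ← hBe]
      simp only [hβ, hφ]
      ring
    rw [e, pr_sub (fun i => (TF.add hV hpdφ).tfn 0 i) (hBT.tfn 0), pr_add (hV.tfn 0) (hpdφ.tfn 0),
      pr_grad (hφs.of_le sing_two_le) hφc, add_zero]
  have hI : |∫ z, singD s q z| ≤ B * vol := by
    rw [singD_int hs0 hθ hsx, abs_neg]
    have e : ∀ z, ∑ j, pd j θ z * singG s q j z =
        ∑ j, pd j θ z * singG (1 / 8) q j z := by
      intro z
      refine Finset.sum_congr rfl fun j _ => ?_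
      by_cases hz : z ∈ Metric.ball x (1 / 4)
      · simp [hθ.pd_zero hz]
      · have hzx : 1 / 4 ≤ dist z x := by simpa using hz
        have h1 : 1 / 8 ≤ dist z q := by
          have h2 : dist z x ≤ dist z q + dist q x := dist_triangle _ _ _
          linarith
        rw [singG_indep hs0 (by norm_num) (by linarith) h1 j]
    simp only [e]
    rw [← setIntegral_eq_integral_of_forall_compl_eq_zero
      (s := Metric.closedBall x (1 / 2)) (fun z hz => by simp [hθ.pd_zero' hz])]
    have := norm_setIntegral_le_of_norm_le_const (μ := volume)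
      (s := Metric.closedBall x (1 / 2)) (f := fun z => ∑ j, pd j θ z * singG (1 / 8) q j z)
      (C := B) measure_closedBall_lt_top (fun z _ => hB t ht1 z)
    rw [Real.norm_eq_abs] at this
    exact this
  set I := ∫ z, singD s q z with hI'
  have hmz : mz χ β = fun i z => β i z - (fun i z => I * χω i z) i z := by
    funext i z
    simp only [mz, hβ, hχω]
    rw [integral_const_mul]
    ring
  have hprm : pr (mz χ β) = pr (singV s q ω θ) - pr (singB (1 / 8) q ω θ) - I • pr χω := by
    rw [hmz, pr_sub (hβT.tfn 0) (fun i => ((TF.const_mul hχω' (fun _ => I))).tfn 0 i), pr_smul,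
      hprβ]
  have rV := pr_rap hd hV
  have rB := pr_rap hd hBT
  have rχ := pr_rap hd hχω'
  have h1 : ∀ i, ser (pr (mz χ β)) i x = singV s q ω θ i x -
      ser (pr (singB (1 / 8) q ω θ)) i x - I * ser (pr χω) i x := by
    intro i
    rw [hprm, ser_sub ((rV.1 0).sub (rB.1 0)).1 ((rχ.1 0).smul I).1, ser_sub (rV.1 0) (rB.1 0),
      ser_smul, ser_pr_local hd (hV.tfn 5) (singV_dfree hs0 q ω hθ.smooth) (x₀ := x) ?_ ?_]
    · intro j
      refine ((singV_supp s q ω θ j).trans hθ.supp).trans ?_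
      exact Metric.closedBall_subset_ball (by norm_num)
    · simp
  have h2 : ∑ i, ω i * ser (pr (mz χ β)) i x = ((d : ℝ) - 1) * (t ^ 2) ^ (-(d : ℝ) / 2) -
      ∑ i, ω i * ser (pr (singB (1 / 8) q ω θ)) i x - I * c0 := by
    rw [← singV_at hs0 (by linarith) hω hθ, hc0, Finset.mul_sum, ← Finset.sum_sub_distrib,
      ← Finset.sum_sub_distrib]
    refine Finset.sum_congr rfl fun i _ => ?_
    rw [h1 i]
    ring
  have h3 : |∑ i, ω i * ser (pr (singB (1 / 8) q ω θ)) i x| ≤ d * (C * A) := by
    apply sing_phi_le hω (rB.1 0)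
    refine ((rB.1 4).mono rB.2.zero (by norm_num)).2.trans ?_
    apply hC _ _ (hBT.tfn 8)
    · intro i
      refine (hBsupp i).trans ?_
      apply Metric.closedBall_subset_closedBall'
      rw [dist_zero_right]
      linarith
    · exact fun i => hA t ht1 i
  have h4 : |I * c0| ≤ (B * vol) * |c0| := by
    rw [abs_mul]
    gcongr
  have h5 : 1 / t ≤ ((d : ℝ) - 1) * (t ^ 2) ^ (-(d : ℝ) / 2) := by
    have hd2 : (2 : ℝ) ≤ d := by rcases hd with h | h <;> rw [h] <;> norm_num
    have e : (t ^ 2) ^ (-(d : ℝ) / 2) = t ^ (-(d : ℝ)) := by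
      rw [← Real.rpow_natCast t 2, ← Real.rpow_mul ht0.le]
      congr 1
      push_cast
      ring
    rw [e]
    have h6 : 1 / t = t ^ (-1 : ℝ) := by
      rw [Real.rpow_neg_one, one_div]
    have h7 : t ^ (-1 : ℝ) ≤ t ^ (-(d : ℝ)) :=
      Real.rpow_le_rpow_of_exponent_ge ht0 ht1.2 (by linarith)
    rw [h6]
    calc t ^ (-1 : ℝ) ≤ t ^ (-(d : ℝ)) := h7
      _ = 1 * t ^ (-(d : ℝ)) := (one_mul _).symm
      _ ≤ _ := by
        gcongr
        linarith
  rw [h2]
  have h8 := le_abs_self C1
  have h9 := le_abs_self (∑ i, ω i * ser (pr (singB (1 / 8) q ω θ)) i x)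
  have h10 := le_abs_self (I * c0)
  linarith

end NSC
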