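import Pool.Agent.Work.MP_57e339_an.Gal
import Pool.Agent.Work.MP_57e339_an.EstS

/-! Module Stab: stability near a smooth reference curve and near a solution. -/

open MeasureTheory Set Filter Topology
open scoped BigOperators
noncomputable section
namespace NSC
variable {d : ℕ}

/-- stability near a smooth approximate solution; the exponent only depends on `W 2` -/
theorem stab_smooth (hd : d = 2 ∨ d = 3) {ν : ℝ} (hν : 0 < ν) (m : Fin d → ℝ) :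
    ∃ θ₀ > 0, ∀ (T A ρ : ℝ), 0 ≤ T → 0 ≤ A → 0 ≤ ρ → ∀ (f : Sq d), IsV f →
      ∀ (U r : ℝ → Sq d),
      (∀ t ∈ Icc (0 : ℝ) T, IsV (U t) ∧ SW 2 (U t) ∧ W 2 (U t) ≤ A) →
      (∀ k, ContinuousOn (fun t => U t k) (Icc (0 : ℝ) T)) →
      (∀ t ∈ Icc (0 : ℝ) T, IsV (r t) ∧ n1 (r t) ≤ ρ) →
      (∀ k, ContinuousOn (fun t => r t k) (Icc (0 : ℝ) T)) →
      (∀ k, ∀ t ∈ Icc (0 : ℝ) T, U t k = U 0 k + ∫ s in (0 : ℝ)..t,
        (f k - mu ν m k • U s k - Bk (U s) (U s) k + r s k)) →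
      ∀ w : Sq d, IsV w → Real.exp (3 * A * T) * (n1 (w - U 0) + ρ * T) < θ₀ →
      ∃ u : ℝ → Sq d, Sol ν m f T u ∧ u 0 = w ∧
        ∀ t ∈ Icc (0 : ℝ) T,
          n1 (u t - U t) ≤ Real.exp (3 * A * t) * (n1 (w - U 0) + ρ * t) := by
  obtain ⟨θ₀, hθ₀, H⟩ := gal hd hν m
  refine ⟨θ₀, hθ₀, ?_⟩
  intro T A ρ hT hA hρ f hf U r hU hUc hr hrc hUe w hw hsmall
  refine H T (3 * A) ρ A hT (by positivity) hρ f hf U r ?_ hUc hr hrc hUe ?_ w hw hsmall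
  · intro t ht
    obtain ⟨h1, h2, h3⟩ := hU t ht
    have h4 := SW.mono h2 h1.zero (Nat.le_succ 1)
    exact ⟨h1, (n1_le_W h1 h4.1).trans (h4.2.trans h3)⟩
  · intro t ht z hz hzf
    obtain ⟨h1, h2, h3⟩ := hU t ht
    have h4 := tri_smooth h1 h2 hz hzf
    have h5 : 3 * W 2 (U t) * n1 z ^ 2 ≤ 3 * A * n1 z ^ 2 :=
      mul_le_mul_of_nonneg_right (by linarith) (sq_nonneg _)
    have h6 : 0 ≤ ν / 4 * n2 z ^ 2 := by positivity
    linarith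

/-- stability near a solution (including a small change of the force) -/
theorem stab_sol (hd : d = 2 ∨ d = 3) {ν : ℝ} (hν : 0 < ν) (m : Fin d → ℝ) :
    ∃ θ₀ > 0, ∀ M : ℝ, ∃ g ≥ 0, ∀ (T : ℝ), 0 ≤ T → ∀ (f f' : Sq d), IsV f → IsV f' →
      ∀ u : ℝ → Sq d, Sol ν m f T u → (∀ t ∈ Icc (0 : ℝ) T, n1 (u t) ≤ M) →
      ∀ w : Sq d, IsV w → Real.exp (g * T) * (n1 (w - u 0) + n1 (f' - f) * T) < θ₀ →
      ∃ u' : ℝ → Sq d, Sol ν m f' T u' ∧ u' 0 = w ∧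
        ∀ t ∈ Icc (0 : ℝ) T,
          n1 (u' t - u t) ≤ Real.exp (g * t) * (n1 (w - u 0) + n1 (f' - f) * t) := by
  obtain ⟨θ₀, hθ₀, H⟩ := gal hd hν m
  refine ⟨θ₀, hθ₀, ?_⟩
  intro M
  obtain ⟨g, hg, hg'⟩ := tri_rough hd (ε := ν / 4) (by positivity) M
  refine ⟨g, hg, ?_⟩
  intro T hT f f' hf hf' u hu hM w hw hsmall
  refine H T g (n1 (f' - f)) M hT hg (n1_nonneg _) f' hf' u (fun _ => f - f')
    (fun t ht => ⟨hu.V t ht, hM t ht⟩) hu.ct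
    (fun t ht => ⟨hf.sub hf', (n1_sub_comm f f').le⟩) (fun k => continuousOn_const) ?_ ?_ w hw
    hsmall
  · intro k t ht
    rw [hu.eq k t ht]
    congr 1
    apply intervalIntegral.integral_congr
    intro s _
    simp only [Pi.sub_apply]
    abel
  · intro t ht z hz hzf
    exact hg' (u t) z (hu.V t ht) (hM t ht) hz hzf

end NSC
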