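import Pool.Agent.Work.MP_57e339_an.Imp
import Pool.Agent.Work.MP_57e339_an.Evol

/-! Module Stage: jump by `lam • a`, follow the free evolution during a time `h`, jump back. -/

open MeasureTheory Set Filter Topology
open scoped BigOperators
noncomputable section
namespace NSC
variable {d n : ℕ}

/-- the velocity of the displaced evolution (leading terms) -/
def vel (ν : ℝ) (m : Fin d → ℝ) (lam : ℝ) (a z : Sq d) : Sq d :=
  lam ^ 2 • Bk a a + lam • Lk a z + lam • Mu ν m a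

theorem stage_vel (ν : ℝ) (m : Fin d → ℝ) (lam : ℝ) {a z : Sq d} (ha : IsV a) (hr : Rap a)
    (hz : IsV z) (hz4 : SW 4 z) : IsV (vel ν m lam a z) ∧ SW 3 (vel ν m lam a z) := by
  have h1 := rap_bk ha ha hr hr
  have h2 := Lk_isV ha hz (hr 2) (hz4.mono hz.zero (show 2 ≤ 4 by norm_num)).1
  have h3 := Mu_isV ν m ha (hr 3)
  have h4 := Lk_SW ha hz (m := 3) (hr 4) hz4
  have h5 := Mu_SW ν m (l := 3) (hr 5)
  refine ⟨((h1.2.smul _).add (h2.1.smul _)).add (h3.1.smul _), ?_⟩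
  exact ((((h1.1 3).smul _).1.add (h4.1.smul _).1).1.add (h5.1.smul _).1).1

/-- the reference path of the displaced evolution -/
theorem stage_path {ν : ℝ} (m : Fin d → ℝ) {a z p : Sq d} (ha : IsV a) (hr : Rap a)
    {lam h Y η : ℝ} (hlam : 0 ≤ lam) (hY : 0 ≤ Y) (hη : 0 ≤ η)
    (hz : IsV z) (hz4 : SW 4 z) (hzY : W 4 z ≤ Y) (hp : IsV p) (hp3 : SW 3 p)
    (hpz : ∀ t ∈ Icc (0 : ℝ) h, W 3 (p - t • vel ν m lam a z - z) ≤ η) (U r : ℝ → Sq d)
    (hU : ∀ t, U t = lam • a + (p - t • vel ν m lam a z))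
    (hrr : ∀ t, r t = Bk (p - t • vel ν m lam a z) (p - t • vel ν m lam a z) +
      lam • Lk a (p - t • vel ν m lam a z - z) + Mu ν m (p - t • vel ν m lam a z)) :
    (∀ t ∈ Icc (0 : ℝ) h, IsV (U t) ∧ SW 2 (U t) ∧ W 2 (U t) ≤ lam * W 2 a + Y + η) ∧
    (∀ t ∈ Icc (0 : ℝ) h, n1 (U t) ≤ lam * W 2 a + Y + η) ∧
    (∀ k, ContinuousOn (fun t => U t k) (Icc (0 : ℝ) h)) ∧
    (∀ t ∈ Icc (0 : ℝ) h, IsV (r t) ∧ n1 (r t) ≤
      4 * lam * W 2 a * η + 2 * (Y + η) ^ 2 + (|ν| + ∑ i, |m i|) * (Y + η)) ∧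
    (∀ k, ContinuousOn (fun t => r t k) (Icc (0 : ℝ) h)) ∧
    (∀ k, ∀ t ∈ Icc (0 : ℝ) h, U t k = U 0 k + ∫ s in (0 : ℝ)..t,
        ((0 : Sq d) k - mu ν m k • U s k - Bk (U s) (U s) k + r s k)) := by
  obtain ⟨hv, hv3⟩ := stage_vel ν m lam ha hr hz hz4
  set v := vel ν m lam a z with hvdef
  have hw : ∀ t : ℝ, IsV (p - t • v) := fun t => hp.sub (hv.smul t)
  have hw3 : ∀ t : ℝ, SW 3 (p - t • v) := fun t => (hp3.sub (hv3.smul t).1).1
  have hwz : ∀ t : ℝ, IsV (p - t • v - z) := fun t => (hw t).sub hz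
  have hz3 := hz4.mono hz.zero (show 3 ≤ 4 by norm_num)
  have hwz3 : ∀ t : ℝ, SW 3 (p - t • v - z) := fun t => ((hw3 t).sub hz3.1).1
  have hwW : ∀ t ∈ Icc (0 : ℝ) h, W 3 (p - t • v) ≤ Y + η := by
    intro t ht
    have h1 : p - t • v = (p - t • v - z) + z := by abel
    rw [h1]
    have h2 := ((hwz3 t).add hz3.1).2
    have h3 := hpz t ht
    have h4 := hz3.2.trans hzY
    linarith
  have hw2 : ∀ t ∈ Icc (0 : ℝ) h, SW 2 (p - t • v) ∧ W 2 (p - t • v) ≤ Y + η := fun t ht =>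
    ⟨((hw3 t).mono (hw t).zero (show 2 ≤ 3 by norm_num)).1,
      ((hw3 t).mono (hw t).zero (show 2 ≤ 3 by norm_num)).2.trans (hwW t ht)⟩
  have hw1 : ∀ t ∈ Icc (0 : ℝ) h, SW 1 (p - t • v) ∧ W 1 (p - t • v) ≤ Y + η := fun t ht =>
    ⟨((hw3 t).mono (hw t).zero (show 1 ≤ 3 by norm_num)).1,
      ((hw3 t).mono (hw t).zero (show 1 ≤ 3 by norm_num)).2.trans (hwW t ht)⟩
  have hwz2 : ∀ t ∈ Icc (0 : ℝ) h, SW 2 (p - t • v - z) ∧ W 2 (p - t • v - z) ≤ η := fun t ht =>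
    ⟨((hwz3 t).mono (hwz t).zero (show 2 ≤ 3 by norm_num)).1,
      ((hwz3 t).mono (hwz t).zero (show 2 ≤ 3 by norm_num)).2.trans (hpz t ht)⟩
  have hUV : ∀ t : ℝ, IsV (U t) := fun t => by rw [hU]; exact (ha.smul _).add (hw t)
  have hU2 : ∀ t ∈ Icc (0 : ℝ) h, SW 2 (U t) ∧ W 2 (U t) ≤ lam * W 2 a + Y + η := by
    intro t ht
    rw [hU]
    obtain ⟨h1, h2⟩ := ((hr 2).smul lam).1.add (hw2 t ht).1
    refine ⟨h1, h2.trans ?_⟩
    rw [((hr 2).smul lam).2, abs_of_nonneg hlam]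
    have := (hw2 t ht).2
    linarith
  have hU1 : ∀ t ∈ Icc (0 : ℝ) h, n1 (U t) ≤ lam * W 2 a + Y + η := by
    intro t ht
    obtain ⟨h1, h2⟩ := (hU2 t ht).1.mono (hUV t).zero (show 1 ≤ 2 by norm_num)
    exact ((n1_le_W (hUV t) h1).trans h2).trans (hU2 t ht).2
  have hwn1 : ∀ t ∈ Icc (0 : ℝ) h, n1 (p - t • v) ≤ Y + η := fun t ht =>
    (n1_le_W (hw t) (hw1 t ht).1).trans (hw1 t ht).2
  have hwc : ∀ k, ContinuousOn (fun t : ℝ => (p - t • v) k) (Icc (0 : ℝ) h) := by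
    intro k
    have : Continuous fun t : ℝ => p k - t • v k := by fun_prop
    exact this.continuousOn
  have hwzc : ∀ k, ContinuousOn (fun t : ℝ => (p - t • v - z) k) (Icc (0 : ℝ) h) := by
    intro k
    have : Continuous fun t : ℝ => p k - t • v k - z k := by fun_prop
    exact this.continuousOn
  have hUc : ∀ k, ContinuousOn (fun t => U t k) (Icc (0 : ℝ) h) := by
    intro k
    have h1 : (fun t => U t k) = fun t : ℝ => lam • a k + (p k - t • v k) := by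
      funext t; rw [hU]; rfl
    rw [h1]
    have : Continuous fun t : ℝ => lam • a k + (p k - t • v k) := by fun_prop
    exact this.continuousOn
  have hm0 : 0 ≤ |ν| + ∑ i, |m i| :=
    add_nonneg (abs_nonneg _) (Finset.sum_nonneg fun i _ => abs_nonneg _)
  have hB := fun t (ht : t ∈ Icc (0 : ℝ) h) => bk_isV (hw t) (hw t) (hw1 t ht).1 (hw2 t ht).1
  have hL := fun t (ht : t ∈ Icc (0 : ℝ) h) => Lk_isV ha (hwz t) (hr 2) (hwz2 t ht).1
  have hM := fun (t : ℝ) => Mu_isV ν m (hw t) (hw3 t)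
  refine ⟨fun t ht => ⟨hUV t, hU2 t ht⟩, hU1, hUc, fun t ht => ?_, fun k => ?_, fun k t ht => ?_⟩
  · rw [hrr]
    obtain ⟨h1, h2⟩ := hB t ht
    obtain ⟨h3, h4⟩ := hL t ht
    obtain ⟨h5, h6⟩ := hM t
    refine ⟨(h1.add (h3.smul _)).add h5, ?_⟩
    have h7 := n1_add_le (h1.add (h3.smul lam)) h5
    have h8 := n1_add_le h1 (h3.smul lam)
    rw [n1_smul, abs_of_nonneg hlam] at h8
    have h9 : 2 * W 1 (p - t • v) * W 2 (p - t • v) ≤ 2 * (Y + η) ^ 2 := by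
      have := mul_le_mul (hw1 t ht).2 (hw2 t ht).2 (W_nonneg _ _) (add_nonneg hY hη)
      nlinarith
    have h10 : lam * n1 (Lk a (p - t • v - z)) ≤ 4 * lam * W 2 a * η := by
      have h11 : 4 * W 2 a * W 2 (p - t • v - z) ≤ 4 * W 2 a * η :=
        mul_le_mul_of_nonneg_left (hwz2 t ht).2 (mul_nonneg (by norm_num) (W_nonneg _ _))
      have h12 := mul_le_mul_of_nonneg_left (h4.trans h11) hlam
      linarith
    have h11 := mul_le_mul_of_nonneg_left (hwW t ht) hm0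
    linarith
  · have h1 : (fun t => r t k) = fun t => Bk (p - t • v) (p - t • v) k +
        lam • (Bk a (p - t • v - z) k + Bk (p - t • v - z) a k) +
        mu ν m k • (p - t • v) k := by
      funext t; rw [hrr]; rfl
    rw [h1]
    have han : ∀ t ∈ Icc (0 : ℝ) h, IsV a ∧ n1 a ≤ max (n1 a) η := fun t _ =>
      ⟨ha, le_max_left _ _⟩
    have hzn : ∀ t ∈ Icc (0 : ℝ) h, IsV (p - t • v - z) ∧ n1 (p - t • v - z) ≤ max (n1 a) η := by
      intro t ht
      obtain ⟨h2, h3⟩ := (hwz3 t).mono (hwz t).zero (show 1 ≤ 3 by norm_num)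
      exact ⟨hwz t, (((n1_le_W (hwz t) h2).trans h3).trans (hpz t ht)).trans (le_max_right _ _)⟩
    have h2 := bk_continuousOn (A := Y + η) (fun t ht => ⟨hw t, hwn1 t ht⟩)
      (fun t ht => ⟨hw t, hwn1 t ht⟩) hwc hwc k
    have h3 := bk_continuousOn han hzn (fun k => continuousOn_const) hwzc k
    have h4 := bk_continuousOn hzn han hwzc (fun k => continuousOn_const) k
    exact (h2.add ((h3.add h4).fun_const_smul lam)).add ((hwc k).fun_const_smul (mu ν m k))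
  · have h1 : ∀ s ∈ Icc (0 : ℝ) h, ((0 : Sq d) k - mu ν m k • U s k - Bk (U s) (U s) k + r s k) =
        -v k := by
      intro s hs
      have e1 : Bk (U s) (U s) = lam ^ 2 • Bk a a + lam • Lk a (p - s • v) +
          Bk (p - s • v) (p - s • v) := by
        rw [hU, bk_expand (ha.smul _) (hw s), bk_smul_left, bk_smul_right, Lk_smul_left, smul_smul,
          ← pow_two]
      have e2 : Lk a (p - s • v - z) = Lk a (p - s • v) - Lk a z := Lk_sub_right ha (hw s) hz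
      rw [e1, hrr, e2, hU]
      have e3 : v k = lam ^ 2 • Bk a a k + lam • Lk a z k + lam • (mu ν m k • a k) := by
        rw [hvdef]; rfl
      have e4 : (0 : Sq d) k = 0 := rfl
      show (0 : Sq d) k - mu ν m k • (lam • a k + (p - s • v) k) -
        (lam ^ 2 • Bk a a k + lam • Lk a (p - s • v) k + Bk (p - s • v) (p - s • v) k) +
        (Bk (p - s • v) (p - s • v) k + lam • (Lk a (p - s • v) k - Lk a z k) +
          mu ν m k • (p - s • v) k) = -v k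
      rw [e3, e4, smul_add, smul_sub, smul_comm (mu ν m k) lam (a k)]
      abel
    have h2 : ∫ s in (0 : ℝ)..t, ((0 : Sq d) k - mu ν m k • U s k - Bk (U s) (U s) k + r s k) =
        ∫ s in (0 : ℝ)..t, -v k := by
      apply intervalIntegral.integral_congr
      intro s hs
      rw [uIcc_of_le ht.1] at hs
      exact h1 s ⟨hs.1, hs.2.trans ht.2⟩
    rw [h2, intervalIntegral.integral_const, hU, hU]
    show lam • a k + (p k - t • v k) = lam • a k + (p k - (0 : ℝ) • v k) + (t - 0) • -v k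
    rw [zero_smul, sub_zero, sub_zero, smul_neg]
    abel

theorem stage (hd : d = 2 ∨ d = 3) {ν : ℝ} (hν : 0 < ν) (m : Fin d → ℝ) :
    ∃ θ₀ > 0, ∀ (n : ℕ) (e : Fin n → Sq d), (∀ i, IsV (e i) ∧ SW 4 (e i)) →
      ∀ (a : Sq d), a ∈ DD ν m e → Rap a →
      ∀ (Θ : Type) [TopologicalSpace Θ] [CompactSpace Θ] (x : Θ → Sq d), VCont x →
      ∀ (lam h Y η E : ℝ), 0 ≤ lam → 0 < h → 0 ≤ Y → 0 ≤ η → 0 ≤ E →
      ∀ (z p : Θ → Sq d), (∀ θ, IsV (z θ) ∧ SW 4 (z θ) ∧ W 4 (z θ) ≤ Y) →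
      (∀ θ, IsV (p θ) ∧ SW 3 (p θ)) →
      (∀ θ, ∀ t ∈ Icc (0 : ℝ) h, W 3 (p θ - t • vel ν m lam a (z θ) - z θ) ≤ η) →
      (∀ θ, n1 (x θ - p θ) ≤ E) →
      ∀ (g r : ℝ), g = 3 * (lam * W 2 a + Y + η) →
      r = 4 * lam * W 2 a * η + 2 * (Y + η) ^ 2 + (|ν| + ∑ i, |m i|) * (Y + η) →
      Real.exp (g * h) * (E + r * h) < θ₀ →
      ∃ x' : Θ → Sq d, VCont x' ∧ (∀ δ > h, Inst ν m e δ x x') ∧
        ∀ θ, n1 (x' θ - (p θ - h • vel ν m lam a (z θ))) ≤ Real.exp (g * h) * (E + r * h) := by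
  obtain ⟨θ₀, hθ₀, hstab⟩ := stab_smooth hd hν m
  refine ⟨θ₀, hθ₀, ?_⟩
  intro n e he a haD har Θ _ _ x hx lam h Y η E hlam hh hY hη hE z p hz hp hpz hxp g r hg hr hlt
  have ha : IsV a := haD.1
  have hm0 : 0 ≤ |ν| + ∑ i, |m i| :=
    add_nonneg (abs_nonneg _) (Finset.sum_nonneg fun i _ => abs_nonneg _)
  have hA0 : 0 ≤ lam * W 2 a + Y + η :=
    add_nonneg (add_nonneg (mul_nonneg hlam (W_nonneg _ _)) hY) hη
  have hr0 : 0 ≤ r := by
    rw [hr]
    have := W_nonneg 2 a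
    positivity
  have hg' : 3 * (lam * W 2 a + Y + η) = g := hg.symm
  -- the first jump
  have hx1 : VCont fun θ => x θ + lam • a := hx.add_const (ha.smul lam)
  -- the evolution
  have key : ∀ θ, ∃ u : ℝ → Sq d, Sol ν m 0 h u ∧ u 0 = x θ + lam • a ∧
      ∀ t ∈ Icc (0 : ℝ) h, n1 (u t - (lam • a + (p θ - t • vel ν m lam a (z θ)))) ≤
        Real.exp (g * h) * (E + r * h) ∧ n1 (lam • a + (p θ - t • vel ν m lam a (z θ))) ≤
          lam * W 2 a + Y + η := by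
    intro θ
    obtain ⟨q1, q2, q3, q4, q5, q6⟩ := stage_path (ν := ν) m ha har hlam hY hη (hz θ).1
      (hz θ).2.1 (hz θ).2.2 (hp θ).1 (hp θ).2 (hpz θ)
      (fun t => lam • a + (p θ - t • vel ν m lam a (z θ)))
      (fun t => Bk (p θ - t • vel ν m lam a (z θ)) (p θ - t • vel ν m lam a (z θ)) +
        lam • Lk a (p θ - t • vel ν m lam a (z θ) - z θ) +
        Mu ν m (p θ - t • vel ν m lam a (z θ))) (fun t => rfl) (fun t => rfl)
    rw [← hr] at q4
    have e1 : x θ + lam • a - (lam • a + (p θ - (0 : ℝ) • vel ν m lam a (z θ))) = x θ - p θ := by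
      rw [zero_smul, sub_zero]; abel
    have e2 : n1 (x θ + lam • a - (lam • a + (p θ - (0 : ℝ) • vel ν m lam a (z θ)))) ≤ E := by
      rw [e1]; exact hxp θ
    have e3 : ∀ t ∈ Icc (0 : ℝ) h, Real.exp (3 * (lam * W 2 a + Y + η) * t) *
        (n1 (x θ + lam • a - (lam • a + (p θ - (0 : ℝ) • vel ν m lam a (z θ)))) + r * t) ≤
        Real.exp (g * h) * (E + r * h) := by
      intro t ht
      rw [hg']
      have hg0 : 0 ≤ g := by rw [hg]; positivity
      refine mul_le_mul (Real.exp_le_exp.2 (mul_le_mul_of_nonneg_left ht.2 hg0))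
        (add_le_add e2 (mul_le_mul_of_nonneg_left ht.2 hr0))
        (add_nonneg (n1_nonneg _) (mul_nonneg hr0 ht.1)) (Real.exp_pos _).le
    obtain ⟨u, hu, hu0, hut⟩ := hstab h (lam * W 2 a + Y + η) r hh.le hA0 hr0 0 isV_zero _ _
      q1 q3 q4 q5 q6 (x θ + lam • a) (hx1.V θ) ((e3 h ⟨hh.le, le_refl _⟩).trans_lt hlt)
    exact ⟨u, hu, hu0, fun t ht => ⟨(hut t ht).trans (e3 t ht), q2 t ht⟩⟩
  choose u hu hu0 hut using key
  have hMb : ∀ θ, ∀ t ∈ Icc (0 : ℝ) h, n1 (u θ t) ≤ lam * W 2 a + Y + η + θ₀ := by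
    intro θ t ht
    obtain ⟨h1, h2⟩ := hut θ t ht
    have hV : IsV (lam • a + (p θ - t • vel ν m lam a (z θ))) :=
      (ha.smul _).add ((hp θ).1.sub ((stage_vel ν m lam ha har (hz θ).1 (hz θ).2.1).1.smul t))
    have h3 := n1_add_le (((hu θ).V t ht).sub hV) hV
    rw [sub_add_cancel] at h3
    linarith
  obtain ⟨hc, hNr⟩ := evol (e := e) hd hν hx1 hh hu hu0 hMb
  refine ⟨fun θ => u θ h + (-lam) • a, hc.add_const (ha.smul _), fun δ hδ => ?_, fun θ => ?_⟩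
  · have hδ3 : 0 < (δ - h) / 3 := by linarith
    have i1 : Inst ν m e ((δ - h) / 3) x (fun θ => x θ + lam • a) :=
      haD.2 Θ x hx (fun _ => lam) continuous_const _ hδ3
    have i2 : Inst ν m e (h + (δ - h) / 3) (fun θ => x θ + lam • a) (fun θ => u θ h) :=
      fun ε hε => ⟨h, hh, by linarith, hNr ε hε⟩
    have i3 : Inst ν m e ((δ - h) / 3) (fun θ => u θ h) (fun θ => u θ h + (-lam) • a) :=
      haD.2 Θ _ hc (fun _ => -lam) continuous_const _ hδ3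
    refine ((i1.trans i2).trans i3).mono (le_of_eq ?_)
    ring
  · have e1 : u θ h + (-lam) • a - (p θ - h • vel ν m lam a (z θ)) =
        u θ h - (lam • a + (p θ - h • vel ν m lam a (z θ))) := by
      rw [neg_smul]; abel
    show n1 (u θ h + (-lam) • a - (p θ - h • vel ν m lam a (z θ))) ≤ _
    rw [e1]
    exact (hut θ h ⟨hh.le, le_refl _⟩).1

end NSC
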