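import Mathlib

/-!
# Navier-Stokes on the torus with localized finite-dimensional control: the definitions

All the notions used in the statements of the two results on MP_57e339_an.  Functions on the torus
`R^d / 2 pi Z^d` are `2 pi`-periodic functions on `R^d`; states are given by their Fourier
coefficients.
-/

open MeasureTheory Set
open scoped BigOperators

noncomputable section

namespace LocNS

variable {d : ℕ}

/-! ## The state space and the equation -/

/-- physical space `R^d` -/
abbrev Space (d : ℕ) := EuclideanSpace ℝ (Fin d)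

/-- frequencies `k` in `Z^d` -/
abbrev Freq (d : ℕ) := Fin d → ℤ

/-- complex vectors `C^d` -/
abbrev CVec (d : ℕ) := EuclideanSpace ℂ (Fin d)

/-- a vector field on the torus, given by its Fourier coefficients `û(k)`:
`u(x) = ∑ û(k) exp(i k·x)` -/
abbrev Coeffs (d : ℕ) := Freq d → CVec d

/-- a vector field on `R^d`, given by its components -/
abbrev VField (d : ℕ) := Fin d → Space d → ℝ

/-- `|k|^2` -/
def sqLen (k : Freq d) : ℝ := ∑ i, (k i : ℝ) ^ 2

/-- `k · c` -/
def dotC (k : Freq d) (c : CVec d) : ℂ := ∑ i, (k i : ℂ) * c i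

/-- The state space `V`: real divergence free `H^1` vector fields on the torus, in Fourier
variables. -/
structure InV (u : Coeffs d) : Prop where
  div_free : ∀ k, dotC k (u k) = 0
  real_valued : ∀ k i, u (-k) i = (starRingEnd ℂ) (u k i)
  h1 : Summable fun k => (1 + sqLen k) * ‖u k‖ ^ 2

/-- the `H^1` norm (it dominates the `L_2` norm) -/
def normH1 (u : Coeffs d) : ℝ := Real.sqrt (∑' k, (1 + sqLen k) * ‖u k‖ ^ 2)

/-- Leray projection of the mode `k`: `c - (k·c / |k|^2) k` (it is `c` for `k = 0`) -/
def leray (k : Freq d) (c : CVec d) : CVec d :=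
  c - (dotC k c / (sqLen k : ℂ)) • (WithLp.toLp 2 fun i => (k i : ℂ))

/-- Fourier coefficient at `k` of the Leray projection of `(u·∇)u` -/
def convection (u : Coeffs d) (k : Freq d) : CVec d :=
  leray k (∑' j, (Complex.I * dotC (k - j) (u j)) • u (k - j))

/-- `u` is a solution on `[0,T]` of the Navier-Stokes system with viscosity `ν` and force `η`:
a curve in `V`, bounded in `V`, with continuous Fourier coefficients, which satisfies the (Leray
projected) equation, integrated in time, in every Fourier mode. -/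
structure IsSolution (ν : ℝ) (η : ℝ → Coeffs d) (T : ℝ) (u : ℝ → Coeffs d) : Prop where
  inV : ∀ t ∈ Icc (0 : ℝ) T, InV (u t)
  bounded : ∃ M, ∀ t ∈ Icc (0 : ℝ) T, normH1 (u t) ≤ M
  cont : ∀ k, ContinuousOn (fun t => u t k) (Icc (0 : ℝ) T)
  eq : ∀ k, ∀ t ∈ Icc (0 : ℝ) T, u t k = u 0 k +
    ∫ s in (0 : ℝ)..t, (η s k - ((ν * sqLen k : ℝ) : ℂ) • u s k - convection (u s) k)

/-! ## Forces supported in `D` -/

/-- the vector `2 pi l` -/
def period (l : Freq d) : Space d := WithLp.toLp 2 fun i => 2 * Real.pi * (l i : ℝ)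

/-- the cell of periodicity -/
def cell (d : ℕ) : Set (Space d) := {x | ∀ j, x j ∈ Ico (0 : ℝ) (2 * Real.pi)}

/-- the Fourier coefficients of a `2 pi`-periodic vector field -/
def fourier (e : VField d) : Coeffs d := fun k => WithLp.toLp 2 fun i =>
  ((2 * Real.pi) ^ d : ℝ)⁻¹ • ∫ x in cell d,
    Complex.exp (-(Complex.I * ((∑ j, (k j : ℝ) * x j : ℝ) : ℂ))) * (e i x : ℂ)

/-- `e` belongs to `V_D`: it is a `2 pi`-periodic, square integrable vector field in the state
space `V`, with support in the closure of `D`. -/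
structure InVD (D : Set (Space d)) (e : VField d) : Prop where
  periodic : ∀ i x l, e i (x + period l) = e i x
  sq_integrable : ∀ i, MemLp (e i) 2 (volume.restrict (cell d))
  inV : InV (fourier e)
  supp : ∀ i, ∀ᵐ x, x ∉ closure D → e i x = 0

variable {ι : Type} [Fintype ι]

/-- Approximate controllability in any time by the span of the fields `e s`: for all `u₀`, `u₁` in
`V` the means of which differ by the mean of an element of the span of the `e s`, all `T > 0` and
`ε > 0`, there are a bounded control `η = ∑ c_s(t) e_s` and a solution from `u₀` which at time `T`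
is `ε`-close to `u₁` in `H^1`.  (The condition on the means is necessary, because the mean of a
solution changes only by the mean of the force; it holds if `u₀` and `u₁` have the same mean, so in
particular in the usual setting of fields of mean zero.) -/
def ApproxControllable (ν : ℝ) (e : ι → VField d) : Prop :=
  ∀ u₀ u₁ : Coeffs d, InV u₀ → InV u₁ →
    u₁ 0 - u₀ 0 ∈ Submodule.span ℝ (Set.range fun s => fourier (e s) 0) →
    ∀ T : ℝ, 0 < T → ∀ ε : ℝ, 0 < ε →
    ∃ (c : ℝ → ι → ℝ) (u : ℝ → Coeffs d), Measurable c ∧ (∃ C, ∀ t s, |c t s| ≤ C) ∧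
      IsSolution ν (fun t k => ∑ s, c t s • fourier (e s) k) T u ∧ u 0 = u₀ ∧
      normH1 (u T - u₁) < ε

/-- Controllability in finite-dimensional projections in any time by the span of the fields `e s`:
for all `u₀`, `u₁` as above, all `T > 0` and every finite-dimensional subspace `F` of `V`, there
are a bounded control `η = ∑ c_s(t) e_s` and a solution from `u₀` such that `u(T) - u₁` is
`L_2`-orthogonal to `F`. -/
def ProjControllable (ν : ℝ) (e : ι → VField d) : Prop :=
  ∀ u₀ u₁ : Coeffs d, InV u₀ → InV u₁ →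
    u₁ 0 - u₀ 0 ∈ Submodule.span ℝ (Set.range fun s => fourier (e s) 0) →
    ∀ T : ℝ, 0 < T →
    ∀ F : Submodule ℝ (Coeffs d), FiniteDimensional ℝ F → (∀ f ∈ F, InV f) →
    ∃ (c : ℝ → ι → ℝ) (u : ℝ → Coeffs d), Measurable c ∧ (∃ C, ∀ t s, |c t s| ≤ C) ∧
      IsSolution ν (fun t k => ∑ s, c t s • fourier (e s) k) T u ∧ u 0 = u₀ ∧
      ∀ f ∈ F, ∑' k, (inner ℂ (f k) (u T k - u₁ k)).re = 0

/-! ## The explicit control space -/

/-- the derivative in the direction `i` -/
def pderiv (i : Fin d) (f : Space d → ℝ) : Space d → ℝ :=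
  fun x => fderiv ℝ f x (EuclideanSpace.single i (1 : ℝ))

/-- smooth cutoff: `1` for `s ≤ (a/4)^2`, `0` for `s ≥ (a/2)^2` -/
def cutoff (a s : ℝ) : ℝ :=
  Real.smoothTransition (((a / 2) ^ 2 - s) / ((a / 2) ^ 2 - (a / 4) ^ 2))

/-- `|x - x₀|^2` -/
def sqDist (x₀ x : Space d) : ℝ := ∑ j, (x j - x₀ j) ^ 2

/-- the truncated power `u_+^15 / 15!`, cut off -/
def kernPow (a u : ℝ) : ℝ := cutoff a (u ^ 2) * ((max u 0) ^ 15 / (Nat.factorial 15))

/-- minus the sixteenth derivative of `kernPow`, except for the Dirac mass at `0` -/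
def kernRem (a u : ℝ) : ℝ :=
  if 0 < u then -iteratedDeriv 16 (fun v => cutoff a (v ^ 2) * (v ^ 15 / (Nat.factorial 15))) u
  else 0

/-- the index set of the stream functions -/
abbrev StreamIndex (d : ℕ) := Fin d ⊕ ((Fin d × Fin d) ⊕ Finset (Fin d))

/-- The stream functions: with `y = x - x₀`, they are `h(|y|^2) y_j`, `h(|y|^2) y_i y_j` and, for
all subsets `S` of `{1, ..., d}`, the products of the `kernPow (y_i)`, `i ∈ S`, and the
`kernRem (y_i)`, `i ∉ S`. -/
def stream (x₀ : Space d) (r : ℝ) : StreamIndex d → Space d → ℝ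
  | Sum.inl j => fun x => cutoff r (sqDist x₀ x) * (x j - x₀ j)
  | Sum.inr (Sum.inl s) => fun x =>
      cutoff r (sqDist x₀ x) * ((x s.1 - x₀ s.1) * (x s.2 - x₀ s.2))
  | Sum.inr (Sum.inr S) => fun x =>
      ∏ i, (if i ∈ S then kernPow (r / 32 / (d + 1)) else kernRem (r / 32 / (d + 1))) (x i - x₀ i)

/-- the divergence free field `∂_q φ e_p - ∂_p φ e_q` -/
def rotated (p q : Fin d) (φ : Space d → ℝ) : VField d := fun i x =>
  (if i = p then pderiv q φ x else 0) - (if i = q then pderiv p φ x else 0)

/-- The explicit control fields attached to the ball with center `x₀` and radius `r`: the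
periodizations of the divergence free fields `∂_q φ e_p - ∂_p φ e_q`, for all the stream functions
`φ` and all `p`, `q`. -/
def controlField (x₀ : Space d) (r : ℝ) (s : StreamIndex d × Fin d × Fin d) : VField d :=
  fun i x => ∑' l : Freq d, rotated s.2.1 s.2.2 (stream x₀ r s.1) i (x + period l)

end LocNS
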