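import Pool.Agent.Work.MP_57e339_an.CoreF

/-! Module StrF: divergence free fields which are pure strains near `x₀`, with isotropic sum of
tensor squares. -/

open MeasureTheory Set Filter Topology
open scoped BigOperators
noncomputable section
namespace NSC
variable {d : ℕ}

/-- the strain `e_p ⊗ e_q + e_q ⊗ e_p` (for `p < q`), or `e_p ⊗ e_p - e_q ⊗ e_q` -/
def strM (b : Bool) (p q : Fin d) : Matrix (Fin d) (Fin d) ℝ :=
  if b then Matrix.single p q 1 + Matrix.single q p 1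
  else Matrix.single p p 1 - Matrix.single q q 1

/-- the list of strains: `(b, p, q)` with `p < q` -/
abbrev StrI (d : ℕ) := Bool × {pq : Fin d × Fin d // pq.1 < pq.2}

theorem strf_sum2 (f : StrI 2 → ℝ) :
    ∑ t, f t = f (true, ⟨(0, 1), by decide⟩) + f (false, ⟨(0, 1), by decide⟩) := by
  have hu : (Finset.univ : Finset {pq : Fin 2 × Fin 2 // pq.1 < pq.2}) =
      {⟨(0, 1), by decide⟩} := by decide
  rw [Fintype.sum_prod_type, Fintype.sum_bool, hu]
  simp

theorem strf_sum3 (f : StrI 3 → ℝ) :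
    ∑ t, f t = f (true, ⟨(0, 1), by decide⟩) + f (true, ⟨(0, 2), by decide⟩) +
      f (true, ⟨(1, 2), by decide⟩) + (f (false, ⟨(0, 1), by decide⟩) +
      f (false, ⟨(0, 2), by decide⟩) + f (false, ⟨(1, 2), by decide⟩)) := by
  have hu : (Finset.univ : Finset {pq : Fin 3 × Fin 3 // pq.1 < pq.2}) =
      {⟨(0, 1), by decide⟩, ⟨(0, 2), by decide⟩, ⟨(1, 2), by decide⟩} := by decide
  rw [Fintype.sum_prod_type, Fintype.sum_bool, hu]
  rw [Finset.sum_insert (by decide), Finset.sum_insert (by decide), Finset.sum_singleton,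
    Finset.sum_insert (by decide), Finset.sum_insert (by decide), Finset.sum_singleton]
  ring

/-- `M y` -/
def strf_a (y : Fin d → ℝ) (t : StrI d) (i : Fin d) : ℝ := ∑ j, strM t.1 t.2.1.1 t.2.1.2 i j * y j
def strf_qq (y : Fin d → ℝ) (t : StrI d) : ℝ := ∑ i, y i * strf_a y t i
def strf_b (y : Fin d → ℝ) (t : StrI d) (i : Fin d) : ℝ :=
  ∑ j, strM t.1 t.2.1.1 t.2.1.2 i j * strf_a y t j
def strf_s (y : Fin d → ℝ) (t : StrI d) : ℝ := ∑ i, strf_a y t i ^ 2
def strf_w (d : ℕ) (b : Bool) : ℝ := if b then 1 / 2 else 1 / d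

theorem strf_id2 (y : Fin 2 → ℝ) :
    (∀ i, ∑ t, strf_w 2 t.1 * (strf_a y t i * strf_qq y t) = (1 - 1 / (2 : ℕ)) * (∑ j, y j ^ 2) * y i) ∧
    (∀ i, ∑ t, strf_w 2 t.1 * strf_b y t i = (((2 : ℕ) + 1) / 2 - 1 / (2 : ℕ)) * y i) ∧
    (∑ t, strf_w 2 t.1 * strf_qq y t ^ 2 = (1 - 1 / (2 : ℕ)) * (∑ j, y j ^ 2) ^ 2) ∧
    (∑ t, strf_w 2 t.1 * strf_s y t = (((2 : ℕ) + 1) / 2 - 1 / (2 : ℕ)) * (∑ j, y j ^ 2)) := by
  refine ⟨?_, ?_, ?_, ?_⟩
  · intro i
    rw [strf_sum2]
    fin_cases i <;> simp [strf_w, strf_a, strf_qq, strM, Fin.sum_univ_two, Matrix.single] <;> ring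
  · intro i
    rw [strf_sum2]
    fin_cases i <;> simp [strf_w, strf_a, strf_b, strM, Fin.sum_univ_two, Matrix.single] <;> ring
  · rw [strf_sum2]
    simp [strf_w, strf_a, strf_qq, strM, Fin.sum_univ_two, Matrix.single] 
    ring
  · rw [strf_sum2]
    simp [strf_w, strf_a, strf_s, strM, Fin.sum_univ_two, Matrix.single] 
    ring

theorem strf_id3 (y : Fin 3 → ℝ) :
    (∀ i, ∑ t, strf_w 3 t.1 * (strf_a y t i * strf_qq y t) = (1 - 1 / (3 : ℕ)) * (∑ j, y j ^ 2) * y i) ∧
    (∀ i, ∑ t, strf_w 3 t.1 * strf_b y t i = (((3 : ℕ) + 1) / 2 - 1 / (3 : ℕ)) * y i) ∧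
    (∑ t, strf_w 3 t.1 * strf_qq y t ^ 2 = (1 - 1 / (3 : ℕ)) * (∑ j, y j ^ 2) ^ 2) ∧
    (∑ t, strf_w 3 t.1 * strf_s y t = (((3 : ℕ) + 1) / 2 - 1 / (3 : ℕ)) * (∑ j, y j ^ 2)) := by
  refine ⟨?_, ?_, ?_, ?_⟩
  · intro i
    rw [strf_sum3]
    fin_cases i <;> simp [strf_w, strf_a, strf_qq, strM, Fin.sum_univ_three, Matrix.single] <;> ring
  · intro i
    rw [strf_sum3]
    fin_cases i <;> simp [strf_w, strf_a, strf_b, strM, Fin.sum_univ_three, Matrix.single] <;> ring
  · rw [strf_sum3]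
    simp [strf_w, strf_a, strf_qq, strM, Fin.sum_univ_three, Matrix.single] 
    ring
  · rw [strf_sum3]
    simp [strf_w, strf_a, strf_s, strM, Fin.sum_univ_three, Matrix.single] 
    ring

theorem strf_id (hd : d = 2 ∨ d = 3) (y : Fin d → ℝ) :
    (∀ i, ∑ t, strf_w d t.1 * (strf_a y t i * strf_qq y t) = (1 - 1 / (d : ℝ)) * (∑ j, y j ^ 2) * y i) ∧
    (∀ i, ∑ t, strf_w d t.1 * strf_b y t i = (((d : ℝ) + 1) / 2 - 1 / (d : ℝ)) * y i) ∧
    (∑ t, strf_w d t.1 * strf_qq y t ^ 2 = (1 - 1 / (d : ℝ)) * (∑ j, y j ^ 2) ^ 2) ∧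
    (∑ t, strf_w d t.1 * strf_s y t = (((d : ℝ) + 1) / 2 - 1 / (d : ℝ)) * (∑ j, y j ^ 2)) := by
  rcases hd with rfl | rfl
  · exact strf_id2 y
  · exact strf_id3 y

theorem strf_symm (t : StrI d) (i j : Fin d) :
    strM t.1 t.2.1.1 t.2.1.2 i j = strM t.1 t.2.1.1 t.2.1.2 j i := by
  unfold strM
  split_ifs
  · simp only [Matrix.add_apply, Matrix.single, Matrix.of_apply]
    rw [add_comm]
    congr 1 <;> simp [and_comm]
  · simp only [Matrix.sub_apply, Matrix.single, Matrix.of_apply]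
    congr 1 <;> simp [and_comm]

theorem strf_trace (t : StrI d) : ∑ i, strM t.1 t.2.1.1 t.2.1.2 i i = 0 := by
  have hne : t.2.1.1 ≠ t.2.1.2 := ne_of_lt t.2.2
  unfold strM
  split_ifs
  · have : ∀ i, (Matrix.single t.2.1.1 t.2.1.2 1 + Matrix.single t.2.1.2 t.2.1.1 1 :
        Matrix (Fin d) (Fin d) ℝ) i i = 0 := by
      intro i
      simp only [Matrix.add_apply, Matrix.single, Matrix.of_apply]
      rw [if_neg (by rintro ⟨h1, h2⟩; exact hne (h1.trans h2.symm)),
        if_neg (by rintro ⟨h1, h2⟩; exact hne (h2.trans h1.symm))]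
      ring
    simp [this]
  · simp [Matrix.sub_apply, Matrix.single, Finset.sum_sub_distrib]

/-- the linear map -/
def strf_lin (A : Fin d → Fin d → ℝ) (x₀ : Rv d) (i : Fin d) (x : Rv d) : ℝ :=
  ∑ j, A i j * (x j - x₀ j)

/-- the quadratic form -/
def strf_q (A : Fin d → Fin d → ℝ) (x₀ : Rv d) (x : Rv d) : ℝ :=
  ∑ i, (x i - x₀ i) * strf_lin A x₀ i x

theorem strf_lin_smooth (A : Fin d → Fin d → ℝ) (x₀ : Rv d) (i : Fin d) :
    ContDiff ℝ (⊤ : ℕ∞) (strf_lin A x₀ i) := by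
  unfold strf_lin
  fun_prop

theorem strf_q_smooth (A : Fin d → Fin d → ℝ) (x₀ : Rv d) :
    ContDiff ℝ (⊤ : ℕ∞) (strf_q A x₀) := by
  unfold strf_q
  apply ContDiff.sum
  intro i _
  exact (coref_contDiff_coord x₀ i).mul (strf_lin_smooth A x₀ i)

theorem strf_pd_lin (A : Fin d → Fin d → ℝ) (x₀ : Rv d) (i j : Fin d) (x : Rv d) :
    pd j (strf_lin A x₀ i) x = A i j := by
  have h1 : pd j (strf_lin A x₀ i) x = ∑ k, pd j (fun x => A i k * (x k - x₀ k)) x :=
    pd_sum Finset.univ (f := fun k x => A i k * (x k - x₀ k)) (fun k _ => by fun_prop) j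
  rw [h1]
  have h2 : ∀ k, pd j (fun x : Rv d => A i k * (x k - x₀ k)) x = if j = k then A i j else 0 := by
    intro k
    rw [pd_const_mul (by fun_prop), coref_pd_coord]
    split_ifs with h
    · rw [h, mul_one]
    · rw [mul_zero]
  simp [h2]

theorem strf_pd_q {A : Fin d → Fin d → ℝ} (hA : ∀ i j, A i j = A j i) (x₀ : Rv d) (j : Fin d)
    (x : Rv d) : pd j (strf_q A x₀) x = 2 * strf_lin A x₀ j x := by
  have dl : ∀ i, DifferentiableAt ℝ (strf_lin A x₀ i) x := fun i =>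
    ((strf_lin_smooth A x₀ i).differentiable (by simp)) x
  have dc : ∀ i : Fin d, DifferentiableAt ℝ (fun x : Rv d => x i - x₀ i) x := fun i => by fun_prop
  have h1 : pd j (strf_q A x₀) x = ∑ i, pd j (fun x => (x i - x₀ i) * strf_lin A x₀ i x) x :=
    pd_sum Finset.univ (f := fun i x => (x i - x₀ i) * strf_lin A x₀ i x)
      (fun i _ => (dc i).mul (dl i)) j
  rw [h1]
  have h2 : ∀ i, pd j (fun x : Rv d => (x i - x₀ i) * strf_lin A x₀ i x) x =
      (if j = i then strf_lin A x₀ j x else 0) + A j i * (x i - x₀ i) := by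
    intro i
    rw [pd_mul (dc i) (dl i), coref_pd_coord, strf_pd_lin, hA i j]
    split_ifs with h
    · rw [h]
      ring
    · ring
  simp only [h2, Finset.sum_add_distrib, Finset.sum_ite_eq, Finset.mem_univ, if_true]
  change strf_lin A x₀ j x + strf_lin A x₀ j x = _
  ring

/-- the field -/
def strf_field (P Q : ℝ → ℝ) (A : Fin d → Fin d → ℝ) (x₀ : Rv d) : VF d := fun i x =>
  P (coref_rho x₀ x) * strf_lin A x₀ i x + Q (coref_rho x₀ x) * (strf_q A x₀ x * (x i - x₀ i))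

theorem strf_field_smooth {P Q : ℝ → ℝ} (hP : ContDiff ℝ (⊤ : ℕ∞) P)
    (hQ : ContDiff ℝ (⊤ : ℕ∞) Q) (A : Fin d → Fin d → ℝ) (x₀ : Rv d) (i : Fin d) :
    ContDiff ℝ (⊤ : ℕ∞) (strf_field P Q A x₀ i) := by
  unfold strf_field
  exact ((coref_contDiff_comp hP x₀).mul (strf_lin_smooth A x₀ i)).add
    ((coref_contDiff_comp hQ x₀).mul ((strf_q_smooth A x₀).mul (coref_contDiff_coord x₀ i)))

theorem strf_pd_field {P Q : ℝ → ℝ} (hP : ContDiff ℝ (⊤ : ℕ∞) P)
    (hQ : ContDiff ℝ (⊤ : ℕ∞) Q) {A : Fin d → Fin d → ℝ} (hA : ∀ i j, A i j = A j i)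
    (x₀ : Rv d) (i j : Fin d) (x : Rv d) :
    pd j (strf_field P Q A x₀ i) x =
      deriv P (coref_rho x₀ x) * (2 * (x j - x₀ j)) * strf_lin A x₀ i x +
      P (coref_rho x₀ x) * A i j +
      (deriv Q (coref_rho x₀ x) * (2 * (x j - x₀ j)) * (strf_q A x₀ x * (x i - x₀ i)) +
      Q (coref_rho x₀ x) * (2 * strf_lin A x₀ j x * (x i - x₀ i) +
        strf_q A x₀ x * (if j = i then 1 else 0))) := by
  have dl : ∀ i, DifferentiableAt ℝ (strf_lin A x₀ i) x := fun i =>
    ((strf_lin_smooth A x₀ i).differentiable (by simp)) x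
  have dq : DifferentiableAt ℝ (strf_q A x₀) x := ((strf_q_smooth A x₀).differentiable (by simp)) x
  have dc : ∀ i : Fin d, DifferentiableAt ℝ (fun x : Rv d => x i - x₀ i) x := fun i => by fun_prop
  have d2 : DifferentiableAt ℝ (fun x => P (coref_rho x₀ x)) x :=
    ((coref_contDiff_comp hP x₀).differentiable (by simp)) x
  have d3 : DifferentiableAt ℝ (fun x => Q (coref_rho x₀ x)) x :=
    ((coref_contDiff_comp hQ x₀).differentiable (by simp)) x
  have d4 : DifferentiableAt ℝ (fun x : Rv d => strf_q A x₀ x * (x i - x₀ i)) x := dq.mul (dc i)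
  have e1 : pd j (strf_field P Q A x₀ i) x =
      pd j (fun x => P (coref_rho x₀ x) * strf_lin A x₀ i x) x +
      pd j (fun x => Q (coref_rho x₀ x) * (strf_q A x₀ x * (x i - x₀ i))) x :=
    pd_add (d2.mul (dl i)) (d3.mul d4) j
  rw [e1, pd_mul d2 (dl i), pd_mul d3 d4, pd_mul dq (dc i), coref_pd_rho hP, coref_pd_rho hQ,
    coref_pd_coord, strf_pd_lin, strf_pd_q hA]

theorem strf_dfree {P Q : ℝ → ℝ} (hP : ContDiff ℝ (⊤ : ℕ∞) P)
    (hQ : ContDiff ℝ (⊤ : ℕ∞) Q) {A : Fin d → Fin d → ℝ} (hA : ∀ i j, A i j = A j i)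
    (htr : ∑ i, A i i = 0)
    (hPQ : ∀ s, 2 * deriv P s + 2 * s * deriv Q s + (d + 2) * Q s = 0) (x₀ : Rv d) :
    Dfree (strf_field P Q A x₀) := by
  intro x
  simp only [strf_pd_field hP hQ hA]
  have h := hPQ (coref_rho x₀ x)
  have hrho : coref_rho x₀ x = ∑ j, (x j - x₀ j) ^ 2 := rfl
  have hq : strf_q A x₀ x = ∑ i, (x i - x₀ i) * strf_lin A x₀ i x := rfl
  set P' := deriv P (coref_rho x₀ x)
  set Q' := deriv Q (coref_rho x₀ x)
  set p := P (coref_rho x₀ x)
  set g := Q (coref_rho x₀ x)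
  set ρ := coref_rho x₀ x
  set q := strf_q A x₀ x
  have e1 : ∀ i : Fin d, P' * (2 * (x i - x₀ i)) * strf_lin A x₀ i x + p * A i i +
      (Q' * (2 * (x i - x₀ i)) * (q * (x i - x₀ i)) +
      g * (2 * strf_lin A x₀ i x * (x i - x₀ i) + q * 1)) =
      (2 * P' + 2 * g) * ((x i - x₀ i) * strf_lin A x₀ i x) + p * A i i +
      2 * Q' * q * (x i - x₀ i) ^ 2 + g * q := by
    intro i
    ring
  simp only [e1, Finset.sum_add_distrib, if_true,
    ← Finset.mul_sum, Finset.sum_const, Finset.card_univ, Fintype.card_fin, nsmul_eq_mul]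
  rw [← hrho, ← hq, htr]
  linear_combination q * h

theorem strf_adv {P Q : ℝ → ℝ} (hP : ContDiff ℝ (⊤ : ℕ∞) P)
    (hQ : ContDiff ℝ (⊤ : ℕ∞) Q) {A : Fin d → Fin d → ℝ} (hA : ∀ i j, A i j = A j i)
    (x₀ : Rv d) (i : Fin d) (x : Rv d) :
    adv (strf_field P Q A x₀) i x =
      (2 * deriv P (coref_rho x₀ x) * (P (coref_rho x₀ x) + coref_rho x₀ x * Q (coref_rho x₀ x)) +
        2 * P (coref_rho x₀ x) * Q (coref_rho x₀ x)) * (strf_lin A x₀ i x * strf_q A x₀ x) +
      P (coref_rho x₀ x) ^ 2 * (∑ j, A i j * strf_lin A x₀ j x) +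
      (2 * deriv Q (coref_rho x₀ x) * (P (coref_rho x₀ x) + coref_rho x₀ x * Q (coref_rho x₀ x)) +
        3 * Q (coref_rho x₀ x) ^ 2) * strf_q A x₀ x ^ 2 * (x i - x₀ i) +
      2 * P (coref_rho x₀ x) * Q (coref_rho x₀ x) * (∑ j, strf_lin A x₀ j x ^ 2) * (x i - x₀ i) := by
  unfold adv
  simp only [strf_pd_field hP hQ hA]
  unfold strf_field
  have hrho : coref_rho x₀ x = ∑ j, (x j - x₀ j) ^ 2 := rfl
  have hq : strf_q A x₀ x = ∑ i, (x i - x₀ i) * strf_lin A x₀ i x := rfl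
  have hl : strf_lin A x₀ i x = ∑ j, A i j * (x j - x₀ j) := rfl
  set P' := deriv P (coref_rho x₀ x)
  set Q' := deriv Q (coref_rho x₀ x)
  set p := P (coref_rho x₀ x)
  set g := Q (coref_rho x₀ x)
  set ρ := coref_rho x₀ x
  set q := strf_q A x₀ x
  set a := strf_lin A x₀ i x with ha
  have e1 : ∀ j : Fin d, (p * strf_lin A x₀ j x + g * (q * (x j - x₀ j))) *
      (P' * (2 * (x j - x₀ j)) * a + p * A i j +
      (Q' * (2 * (x j - x₀ j)) * (q * (x i - x₀ i)) +
      g * (2 * strf_lin A x₀ j x * (x i - x₀ i) + q * (if j = i then 1 else 0)))) =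
      (2 * p * P' * a + 2 * p * Q' * q * (x i - x₀ i) + 2 * g ^ 2 * q * (x i - x₀ i)) *
        ((x j - x₀ j) * strf_lin A x₀ j x) +
      p ^ 2 * (A i j * strf_lin A x₀ j x) +
      (2 * p * g * (x i - x₀ i)) * strf_lin A x₀ j x ^ 2 +
      (g * q * 2 * P' * a + g * q * Q' * 2 * q * (x i - x₀ i)) * (x j - x₀ j) ^ 2 +
      g * q * p * (A i j * (x j - x₀ j)) +
      (if j = i then (p * a + g * (q * (x i - x₀ i))) * (g * q) else 0) := by
    intro j
    split_ifs with h
    · subst h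
      rw [← ha]
      ring
    · ring
  simp only [e1, Finset.sum_add_distrib, Finset.sum_ite_eq', Finset.mem_univ, if_true,
    ← Finset.mul_sum]
  rw [← hrho, ← hq, ← hl]
  ring

theorem strain_fields (hd : d = 2 ∨ d = 3) (x₀ : Rv d) {r : ℝ} (hr : 0 < r) :
    ∃ α : StrI d → VF d, (∀ t, TF (α t) ∧ Dfree (α t) ∧ Su (α t) (Metric.ball x₀ r)) ∧
      (∀ t, ∃ c : ℝ, c ≠ 0 ∧ ∀ x ∈ Metric.ball x₀ (r / 4), ∀ i,
        α t i x = c * ∑ j, strM t.1 t.2.1.1 t.2.1.2 i j * (x j - x₀ j)) ∧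
      (∀ i j x, pd j (fun x => ∑ t, adv (α t) i x) x = pd i (fun x => ∑ t, adv (α t) j x) x) := by
  have hab : (r / 4) ^ 2 < (r / 2) ^ 2 := by nlinarith
  obtain ⟨h, hh, h1, h0⟩ := coref_profile hab
  have hdp : (0 : ℝ) < d := by
    rcases hd with rfl | rfl <;> norm_num
  have hd1 : (d : ℝ) ≠ 0 := hdp.ne'
  set c : ℝ := (d : ℝ)⁻¹ with hc
  have hcd : c * d = 1 := inv_mul_cancel₀ hd1
  have hh' := coref_deriv_smooth hh
  have hh'' := coref_deriv_smooth hh'
  set F : ℝ → ℝ := fun s => c * (2 * s * deriv h s + d * h s) with hF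
  set G : ℝ → ℝ := fun s => c * (-2 * deriv h s) with hG
  have hFs : ContDiff ℝ (⊤ : ℕ∞) F :=
    contDiff_const.mul (((contDiff_const.mul contDiff_id).mul hh').add (contDiff_const.mul hh))
  have hGs : ContDiff ℝ (⊤ : ℕ∞) G := contDiff_const.mul (contDiff_const.mul hh')
  have hFd : ∀ s, deriv F s = c * (2 * deriv h s + 2 * s * deriv (deriv h) s + d * deriv h s) := by
    intro s
    have e1 : HasDerivAt h (deriv h s) s := ((hh.differentiable (by simp)) s).hasDerivAt
    have e2 : HasDerivAt (deriv h) (deriv (deriv h) s) s :=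
      ((hh'.differentiable (by simp)) s).hasDerivAt
    have e3 : HasDerivAt (fun s : ℝ => 2 * s) 2 s := by simpa using (hasDerivAt_id s).const_mul 2
    have := (((e3.mul e2).add (e1.const_mul (d : ℝ))).const_mul c)
    exact this.deriv
  have hGd : ∀ s, deriv G s = c * (-2 * deriv (deriv h) s) := by
    intro s
    have e2 : HasDerivAt (deriv h) (deriv (deriv h) s) s :=
      ((hh'.differentiable (by simp)) s).hasDerivAt
    exact ((e2.const_mul (-2)).const_mul c).deriv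
  have hFG : ∀ s, 2 * deriv F s + 2 * s * deriv G s + (d + 2) * G s = 0 := by
    intro s
    rw [hFd, hGd]
    simp only [hG]
    ring
  -- the scaled matrices
  set w : Bool → ℝ := fun b => Real.sqrt (strf_w d b) with hw
  have hwpos : ∀ b, 0 < strf_w d b := by
    intro b
    unfold strf_w
    split_ifs <;> positivity
  have hw0 : ∀ b, w b ≠ 0 := fun b => (Real.sqrt_pos.2 (hwpos b)).ne'
  have hw2 : ∀ b, w b ^ 2 = strf_w d b := fun b => Real.sq_sqrt (hwpos b).le
  set A : StrI d → Fin d → Fin d → ℝ := fun t i j => w t.1 * strM t.1 t.2.1.1 t.2.1.2 i j with hA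
  have hAs : ∀ t i j, A t i j = A t j i := by
    intro t i j
    simp only [hA]
    rw [strf_symm]
  have hAt : ∀ t, ∑ i, A t i i = 0 := by
    intro t
    simp only [hA]
    rw [← Finset.mul_sum, strf_trace, mul_zero]
  refine ⟨fun t => strf_field F G (A t) x₀, ?_, ?_, ?_⟩
  · intro t
    have hsub : ∀ i, Function.support (strf_field F G (A t) x₀ i) ⊆ Metric.closedBall x₀ (r / 2) := by
      intro i x hx
      by_contra hcon
      rw [Metric.mem_closedBall, not_le] at hcon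
      apply hx
      have hrho : (r / 2) ^ 2 < coref_rho x₀ x := by
        rw [coref_rho_eq]
        exact pow_lt_pow_left₀ hcon (by positivity) (by norm_num)
      have e0 : h (coref_rho x₀ x) = 0 := h0 _ hrho.le
      have e1 : deriv h (coref_rho x₀ x) = 0 :=
        coref_deriv_zero isOpen_Ioi (show coref_rho x₀ x ∈ Ioi ((r / 2) ^ 2) from hrho)
          (c := 0) (fun t ht => h0 t (le_of_lt ht))
      simp [strf_field, hF, hG, e0, e1]
    have hts : ∀ i, tsupport (strf_field F G (A t) x₀ i) ⊆ Metric.closedBall x₀ (r / 2) := fun i =>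
      closure_minimal (hsub i) Metric.isClosed_closedBall
    refine ⟨?_, strf_dfree hFs hGs (hAs t) (hAt t) hFG x₀, ?_⟩
    · intro i
      refine ⟨strf_field_smooth hFs hGs _ x₀ i, ?_⟩
      exact IsCompact.of_isClosed_subset (isCompact_closedBall x₀ (r / 2)) (isClosed_tsupport _)
        (hts i)
    · intro i
      exact (hts i).trans (Metric.closedBall_subset_ball (by linarith))
  · intro t
    refine ⟨w t.1, hw0 _, ?_⟩
    intro x hx i
    have hrho : coref_rho x₀ x < (r / 4) ^ 2 := by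
      rw [coref_rho_eq]
      exact pow_lt_pow_left₀ hx dist_nonneg (by norm_num)
    have e0 : h (coref_rho x₀ x) = 1 := h1 _ hrho.le
    have e1 : deriv h (coref_rho x₀ x) = 0 :=
      coref_deriv_zero isOpen_Iio (show coref_rho x₀ x ∈ Iio ((r / 4) ^ 2) from hrho)
        (c := 1) (fun t ht => h1 t (le_of_lt ht))
    simp only [strf_field, hF, hG, e0, e1]
    rw [show c * (2 * coref_rho x₀ x * 0 + (d : ℝ) * 1) = c * d by ring, hcd]
    simp only [strf_lin, hA, Finset.mul_sum]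
    ring_nf
  · intro i j x
    set Φ : ℝ → ℝ := fun s =>
      (2 * deriv F s * (F s + s * G s) + 2 * F s * G s) * ((1 - 1 / (d : ℝ)) * s) +
      F s ^ 2 * (((d : ℝ) + 1) / 2 - 1 / (d : ℝ)) +
      (2 * deriv G s * (F s + s * G s) + 3 * G s ^ 2) * ((1 - 1 / (d : ℝ)) * s ^ 2) +
      2 * F s * G s * ((((d : ℝ) + 1) / 2 - 1 / (d : ℝ)) * s) with hΦ
    have hΦs : ContDiff ℝ (⊤ : ℕ∞) Φ := by
      have a1 := coref_deriv_smooth hFs
      have a2 := coref_deriv_smooth hGs
      have a3 : ContDiff ℝ (⊤ : ℕ∞) (fun s : ℝ => s) := contDiff_id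
      exact ((((((contDiff_const.mul a1).mul (hFs.add (a3.mul hGs))).add
        ((contDiff_const.mul hFs).mul hGs)).mul (contDiff_const.mul a3)).add
        ((hFs.pow 2).mul contDiff_const)).add
        ((((contDiff_const.mul a2).mul (hFs.add (a3.mul hGs))).add
          (contDiff_const.mul (hGs.pow 2))).mul (contDiff_const.mul (a3.pow 2)))).add
        (((contDiff_const.mul hFs).mul hGs).mul (contDiff_const.mul a3))
    have e : ∀ i, (fun x => ∑ t, adv (strf_field F G (A t) x₀) i x) =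
        fun x => Φ (coref_rho x₀ x) * (x i - x₀ i) := by
      intro i
      funext x
      set y : Fin d → ℝ := fun j => x j - x₀ j with hy
      obtain ⟨i1, i2, i3, i4⟩ := strf_id hd y
      have hrho : coref_rho x₀ x = ∑ j, y j ^ 2 := rfl
      have l1 : ∀ t j, strf_lin (A t) x₀ j x = w t.1 * strf_a y t j := by
        intro t j
        simp only [strf_lin, strf_a, hA, Finset.mul_sum]
        apply Finset.sum_congr rfl
        intro k _
        ring
      have l2 : ∀ t, strf_q (A t) x₀ x = w t.1 * strf_qq y t := by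
        intro t
        simp only [strf_q, strf_qq, l1, Finset.mul_sum]
        apply Finset.sum_congr rfl
        intro k _
        ring
      have l3 : ∀ t, ∑ j, A t i j * strf_lin (A t) x₀ j x = strf_w d t.1 * strf_b y t i := by
        intro t
        simp only [strf_b, l1, Finset.mul_sum]
        apply Finset.sum_congr rfl
        intro k _
        have e : A t i k = w t.1 * strM t.1 t.2.1.1 t.2.1.2 i k := rfl
        rw [e, ← hw2]
        ring
      have l4 : ∀ t, ∑ j, strf_lin (A t) x₀ j x ^ 2 = strf_w d t.1 * strf_s y t := by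
        intro t
        simp only [strf_s, l1, Finset.mul_sum]
        apply Finset.sum_congr rfl
        intro k _
        rw [← hw2]
        ring
      simp only [strf_adv hFs hGs (hAs _), l3, l4]
      simp only [l1, l2]
      have l5 : ∀ t : StrI d, w t.1 * strf_a y t i * (w t.1 * strf_qq y t) =
          strf_w d t.1 * (strf_a y t i * strf_qq y t) := by
        intro t
        rw [← hw2]
        ring
      have l6 : ∀ t : StrI d, (w t.1 * strf_qq y t) ^ 2 = strf_w d t.1 * strf_qq y t ^ 2 := by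
        intro t
        rw [← hw2]
        ring
      simp only [l5, l6, Finset.sum_add_distrib, ← Finset.mul_sum, ← Finset.sum_mul, i1, i2, i3, i4]
      rw [← hrho]
      simp only [hΦ]
      ring
    rw [e i, e j]
    exact coref_radial_symm hΦs x₀ i j x

end NSC
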