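import Pool.Agent.Work.MP_57e339_an.Curl
import Pool.Agent.Work.MP_57e339_an.StrF

/-! Module StrS: using the strains, all the `∂_i φ e_p` are (after projection) in the admissible
set. -/

open MeasureTheory Set Filter Topology
open scoped BigOperators
noncomputable section
namespace NSC
variable {d : ℕ}

/-- the field `f e_p` -/
def uni (p : Fin d) (f : Rv d → ℝ) : VF d := fun i x => if i = p then f x else 0

theorem strs_uni_TF {f : Rv d → ℝ} (hf : ContDiff ℝ (⊤ : ℕ∞) f) (hc : HasCompactSupport f)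
    (p : Fin d) : TF (uni p f) := by
  intro i
  by_cases h : i = p
  · subst h
    have : uni i f i = f := by
      funext x
      simp [uni]
    rw [this]
    exact ⟨hf, hc⟩
  · have : uni p f i = fun _ => 0 := by
      funext x
      simp [uni, h]
    rw [this]
    exact ⟨contDiff_const, HasCompactSupport.zero⟩

theorem strs_pd_cs {f : Rv d → ℝ} (hc : HasCompactSupport f) (i : Fin d) :
    HasCompactSupport (pd i f) :=
  IsCompact.of_isClosed_subset hc (isClosed_tsupport _) (tsupport_pd_subset f i)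

theorem strs_curl2 (p q : Fin d) (φ : Rv d → ℝ) :
    curl2 p q φ = fun i x => uni p (pd q φ) i x - uni q (pd p φ) i x := rfl

/-- the scalar `(A y) · ∇φ` -/
def strsPsi (A : Matrix (Fin d) (Fin d) ℝ) (x₀ : Rv d) (φ : Rv d → ℝ) : Rv d → ℝ :=
  fun x => ∑ j, (∑ l, A j l * (x l - x₀ l)) * pd j φ x

theorem strs_lin_contDiff (A : Matrix (Fin d) (Fin d) ℝ) (x₀ : Rv d) (j : Fin d) :
    ContDiff ℝ (⊤ : ℕ∞) (fun x : Rv d => ∑ l, A j l * (x l - x₀ l)) := by
  fun_prop

theorem strs_lin_pd (A : Matrix (Fin d) (Fin d) ℝ) (x₀ : Rv d) (i j : Fin d) (x : Rv d) :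
    pd i (fun x : Rv d => ∑ l, A j l * (x l - x₀ l)) x = A j i := by
  have hd : ∀ l : Fin d, DifferentiableAt ℝ (fun x : Rv d => x l - x₀ l) x := fun l => by fun_prop
  have h1 : ∀ l : Fin d, pd i (fun x : Rv d => A j l * (x l - x₀ l)) x =
      A j l * (if i = l then 1 else 0) := by
    intro l
    rw [pd_const_mul (hd l), pd_sub (by fun_prop) (by fun_prop), pd_coord, pd_const, sub_zero]
  rw [pd_sum (f := fun l (x : Rv d) => A j l * (x l - x₀ l)) _
    (fun l _ => (hd l).const_mul (A j l))]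
  simp only [h1]
  simp

theorem strsPsi_contDiff (A : Matrix (Fin d) (Fin d) ℝ) (x₀ : Rv d) {φ : Rv d → ℝ}
    (hφ : ContDiff ℝ (⊤ : ℕ∞) φ) : ContDiff ℝ (⊤ : ℕ∞) (strsPsi A x₀ φ) :=
  ContDiff.sum fun j _ => (strs_lin_contDiff A x₀ j).mul (contDiff_pd_top hφ j)

theorem strsPsi_ts (A : Matrix (Fin d) (Fin d) ℝ) (x₀ : Rv d) (φ : Rv d → ℝ) :
    tsupport (strsPsi A x₀ φ) ⊆ tsupport φ := by
  apply transl_ts_sum _ (isClosed_tsupport φ)
  intro j _ x hx
  rw [pd_zero_of_notMem hx, mul_zero]

theorem strsPsi_pd (A : Matrix (Fin d) (Fin d) ℝ) (x₀ : Rv d) {φ : Rv d → ℝ}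
    (hφ : ContDiff ℝ (⊤ : ℕ∞) φ) (q : Fin d) (x : Rv d) :
    pd q (strsPsi A x₀ φ) x =
      ∑ j, (A j q * pd j φ x + (∑ l, A j l * (x l - x₀ l)) * pd q (pd j φ) x) := by
  have h1 : ∀ j, DifferentiableAt ℝ (fun x : Rv d => ∑ l, A j l * (x l - x₀ l)) x := fun j =>
    ((strs_lin_contDiff A x₀ j).differentiable (by simp)) x
  have h2 : ∀ j, DifferentiableAt ℝ (pd j φ) x := fun j =>
    ((contDiff_pd_top hφ j).differentiable (by simp)) x
  unfold strsPsi
  rw [pd_sum (f := fun j (x : Rv d) => (∑ l, A j l * (x l - x₀ l)) * pd j φ x) _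
    (fun j _ => (h1 j).mul (h2 j))]
  apply Finset.sum_congr rfl
  intro j _
  rw [pd_mul (h1 j) (h2 j), strs_lin_pd]

/-- derivative of `curl2` -/
theorem strs_curl2_pd {φ : Rv d → ℝ} (hφ : ContDiff ℝ (⊤ : ℕ∞) φ) (p q i j : Fin d) (x : Rv d) :
    pd j (curl2 p q φ i) x =
      (if i = p then pd j (pd q φ) x else 0) - (if i = q then pd j (pd p φ) x else 0) := by
  have h2 : ∀ j, DifferentiableAt ℝ (pd j φ) x := fun j =>
    ((contDiff_pd_top hφ j).differentiable (by simp)) x
  have h0 : DifferentiableAt ℝ (fun _ : Rv d => (0 : ℝ)) x := differentiableAt_const _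
  have e : curl2 p q φ i = fun x => (if i = p then pd q φ x else 0) -
      (if i = q then pd p φ x else 0) := rfl
  rw [e]
  by_cases hp : i = p <;> by_cases hq : i = q
  · simp only [hp, if_true]
    simp only [if_pos (hp.symm.trans hq)]
    exact pd_sub (h2 q) (h2 p) j
  · simp only [hp, if_true]
    have : ¬ p = q := fun h => hq (hp.trans h)
    simp only [this, if_false]
    rw [pd_sub (h2 q) h0, pd_const]
  · simp only [hq, if_true]
    have : ¬ q = p := fun h => hp (hq.trans h)
    simp only [this, if_false]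
    rw [pd_sub h0 (h2 p), pd_const]
  · simp only [hp, hq, if_false]
    rw [pd_sub h0 h0, pd_const, sub_zero]

/-- the remaining field -/
def strsB (A : Matrix (Fin d) (Fin d) ℝ) (p q : Fin d) (φ : Rv d → ℝ) : VF d := fun i x =>
  -(if i = p then ∑ j, A j q * pd j φ x else 0) + (if i = q then ∑ j, A j p * pd j φ x else 0) +
    A i p * pd q φ x - A i q * pd p φ x

/-- the pointwise identity -/
theorem strs_pointwise {A : Matrix (Fin d) (Fin d) ℝ} (hA : ∀ i j, A i j = A j i) {x₀ : Rv d}
    {α : VF d} {c R : ℝ} (hcore : ∀ x ∈ Metric.ball x₀ R, ∀ i,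
      α i x = c * ∑ j, A i j * (x j - x₀ j)) {φ : Rv d → ℝ} (hφ : ContDiff ℝ (⊤ : ℕ∞) φ)
    (hs : tsupport φ ⊆ Metric.ball x₀ R) (p q i : Fin d) (x : Rv d) :
    ∑ j, (α j x * pd j (curl2 p q φ i) x + curl2 p q φ j x * pd j (α i) x) =
      c * (curl2 p q (strsPsi A x₀ φ) i x + strsB A p q φ i x) := by
  by_cases hx : x ∈ Metric.ball x₀ R
  · have hα : ∀ j, pd j (α i) x = c * A i j := by
      intro j
      have h1 : α i =ᶠ[𝓝 x] fun x => c * ∑ j, A i j * (x j - x₀ j) := by
        filter_upwards [Metric.isOpen_ball.mem_nhds hx] with z hz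
        exact hcore z hz i
      rw [pd_congr h1, pd_const_mul (((strs_lin_contDiff A x₀ i).differentiable (by simp)) x),
        strs_lin_pd]
    have hcm : ∀ a b : Fin d, pd a (pd b φ) x = pd b (pd a φ) x := fun a b =>
      congrFun (pd_comm (contDiff_infty.1 hφ 2) a b) x
    have e1 : ∑ j, α j x * pd j (curl2 p q φ i) x =
        c * ((if i = p then ∑ j, (∑ l, A j l * (x l - x₀ l)) * pd q (pd j φ) x else 0) -
          (if i = q then ∑ j, (∑ l, A j l * (x l - x₀ l)) * pd p (pd j φ) x else 0)) := by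
      have : ∀ j, α j x * pd j (curl2 p q φ i) x =
          c * ((if i = p then (∑ l, A j l * (x l - x₀ l)) * pd q (pd j φ) x else 0) -
          (if i = q then (∑ l, A j l * (x l - x₀ l)) * pd p (pd j φ) x else 0)) := by
        intro j
        rw [hcore x hx, strs_curl2_pd hφ, hcm j q, hcm j p]
        split_ifs <;> ring
      simp only [this]
      rw [← Finset.mul_sum, Finset.sum_sub_distrib]
      congr 2
      · split_ifs
        · rfl
        · simp
      · split_ifs
        · rfl
        · simp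
    have e2 : ∑ j, curl2 p q φ j x * pd j (α i) x =
        c * (A i p * pd q φ x - A i q * pd p φ x) := by
      have : ∀ j, curl2 p q φ j x * pd j (α i) x =
          (if j = p then c * A i p * pd q φ x else 0) -
          (if j = q then c * A i q * pd p φ x else 0) := by
        intro j
        rw [hα]
        unfold curl2
        by_cases hp : j = p <;> by_cases hq : j = q
        · subst hp
          subst hq
          simp
        · subst hp
          simp [hq]
          ring
        · subst hq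
          simp [hp]
          ring
        · simp [hp, hq]
      simp only [this]
      rw [Finset.sum_sub_distrib, Finset.sum_ite_eq', Finset.sum_ite_eq']
      simp only [Finset.mem_univ, if_true]
      ring
    rw [Finset.sum_add_distrib, e1, e2]
    unfold curl2 strsB
    rw [strsPsi_pd A x₀ hφ q x, strsPsi_pd A x₀ hφ p x, Finset.sum_add_distrib,
      Finset.sum_add_distrib]
    split_ifs <;> ring
  · have h0 : x ∉ tsupport φ := fun h => hx (hs h)
    have h1 : ∀ j, pd j φ x = 0 := fun j => pd_zero_of_notMem h0 j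
    have h2 : ∀ j l, pd j (pd l φ) x = 0 := fun j l =>
      pd_zero_of_notMem (fun h => h0 (tsupport_pd_subset φ l h)) j
    have h3 : ∀ j, pd j (strsPsi A x₀ φ) x = 0 := fun j =>
      pd_zero_of_notMem (fun h => h0 (strsPsi_ts A x₀ φ h)) j
    unfold strsB
    simp only [strs_curl2_pd hφ, h1, h2]
    unfold curl2
    simp only [h1, h3]
    simp

theorem strs_two {𝒟 : Set (Sq d)} (h𝒟 : Adm 𝒟) {u v : Sq d} (h1 : (2 : ℝ) • u + (2 : ℝ) • v ∈ 𝒟)
    (h2 : u - v ∈ 𝒟) : u ∈ 𝒟 ∧ v ∈ 𝒟 := by
  have h3 := h𝒟.smul (1 / 4) _ h1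
  have h4 := h𝒟.smul (1 / 2) _ h2
  have h5 := h𝒟.smul (-(1 / 2)) _ h2
  constructor
  · have e : u = (1 / 4 : ℝ) • ((2 : ℝ) • u + (2 : ℝ) • v) + (1 / 2 : ℝ) • (u - v) := by
      module
    rw [e]
    exact h𝒟.add _ h3 _ h4
  · have e : v = (1 / 4 : ℝ) • ((2 : ℝ) • u + (2 : ℝ) • v) + (-(1 / 2) : ℝ) • (u - v) := by
      module
    rw [e]
    exact h𝒟.add _ h3 _ h5

theorem strain_step (hd : d = 2 ∨ d = 3) {𝒟 : Set (Sq d)} (h𝒟 : Adm 𝒟) {x₀ : Rv d} {r r' : ℝ}
    (hr : 0 < r) (hr1 : r ≤ 1) (hr' : r' ≤ r / 4) {α : StrI d → VF d}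
    (hα : ∀ t, TF (α t) ∧ Dfree (α t) ∧ Su (α t) (Metric.ball x₀ r))
    (hcore : ∀ t, ∃ c : ℝ, c ≠ 0 ∧ ∀ x ∈ Metric.ball x₀ (r / 4), ∀ i,
        α t i x = c * ∑ j, strM t.1 t.2.1.1 t.2.1.2 i j * (x j - x₀ j))
    (hg : ∀ t, Good 𝒟 (pr (α t)))
    (hcurl : ∀ φ : Rv d → ℝ, ContDiff ℝ (⊤ : ℕ∞) φ → tsupport φ ⊆ Metric.ball x₀ r' →
      ∀ p q, pr (curl2 p q φ) ∈ 𝒟)
    {φ : Rv d → ℝ} (hφ : ContDiff ℝ (⊤ : ℕ∞) φ) (hφs : tsupport φ ⊆ Metric.ball x₀ r')
    (i p : Fin d) : pr (uni p (pd i φ)) ∈ 𝒟 := by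
  have hc : HasCompactSupport φ :=
    IsCompact.of_isClosed_subset (isCompact_closedBall x₀ r') (isClosed_tsupport _)
      (hφs.trans Metric.ball_subset_closedBall)
  have hu : ∀ a b : Fin d, TF (uni a (pd b φ)) := fun a b =>
    strs_uni_TF (contDiff_pd_top hφ b) (strs_pd_cs hc b) a
  have hu0 : ∀ a b : Fin d, TFN 0 (uni a (pd b φ)) := fun a b => (hu a b).tfn 0
  have hball : Metric.ball x₀ r' ⊆ Metric.ball x₀ (r / 4) := Metric.ball_subset_ball hr'
  have hball1 : Metric.ball x₀ r' ⊆ Metric.ball x₀ 1 := Metric.ball_subset_ball (by linarith)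
  -- curl relation
  have hcr : ∀ p q : Fin d, pr (uni p (pd q φ)) - pr (uni q (pd p φ)) ∈ 𝒟 := by
    intro p q
    rw [← pr_sub (hu0 p q) (hu0 q p)]
    exact hcurl φ hφ hφs p q
  -- the main relation
  have hmain : ∀ t : StrI d, pr (strsB (strM t.1 t.2.1.1 t.2.1.2) t.2.1.1 t.2.1.2 φ) ∈ 𝒟 := by
    intro t
    obtain ⟨c, hc0, hcc⟩ := hcore t
    set A := strM t.1 t.2.1.1 t.2.1.2 with hA
    set p := t.2.1.1 with hp
    set q := t.2.1.2 with hq
    have hAs : ∀ i j, A i j = A j i := by
      intro i j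
      rw [hA]
      unfold strM
      split_ifs
      · simp only [Matrix.add_apply, Matrix.single_apply]
        have e1 : (p = i ∧ q = j) ↔ (q = j ∧ p = i) := and_comm
        have e2 : (q = i ∧ p = j) ↔ (p = j ∧ q = i) := and_comm
        simp only [e1, e2]
        ring
      · simp only [Matrix.sub_apply, Matrix.single_apply]
        have e1 : (p = i ∧ p = j) ↔ (p = j ∧ p = i) := and_comm
        have e2 : (q = i ∧ q = j) ↔ (q = j ∧ q = i) := and_comm
        simp only [e1, e2]
    have hβTF : TF (curl2 p q φ) := curl2_TF hφ hc p q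
    have hβd : Dfree (curl2 p q φ) := curl2_dfree (contDiff_infty.1 hφ 2) p q
    have hβs : Su (curl2 p q φ) (Metric.ball x₀ 1) := curl2_su (hφs.trans hball1) p q
    have h1 := h𝒟.dyn' _ (hg t) _ (hcurl φ hφ hφs p q) (pr_rap hd hβTF).1
    rw [transl_Lk_local hd (hβTF.tfn 10) ((hα t).1.tfn 10) hβd (hα t).2.1 hβs
      (fun i => ((hα t).2.2 i).trans (Metric.ball_subset_ball hr1))] at h1
    have h2 : (fun i x => ∑ j, (α t j x * pd j (curl2 p q φ i) x +
        curl2 p q φ j x * pd j (α t i) x)) =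
        fun i x => c * (curl2 p q (strsPsi A x₀ φ) i x + strsB A p q φ i x) := by
      funext i x
      exact strs_pointwise hAs hcc hφ (hφs.trans hball) p q i x
    rw [h2, pr_smul] at h1
    have h3 := h𝒟.smul c⁻¹ _ h1
    rw [smul_smul, inv_mul_cancel₀ hc0, one_smul] at h3
    have hψ : ContDiff ℝ (⊤ : ℕ∞) (strsPsi A x₀ φ) := strsPsi_contDiff A x₀ hφ
    have hψs : tsupport (strsPsi A x₀ φ) ⊆ tsupport φ := strsPsi_ts A x₀ φ
    have hψc : HasCompactSupport (strsPsi A x₀ φ) :=
      IsCompact.of_isClosed_subset hc (isClosed_tsupport _) hψs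
    have h4 := hcurl _ hψ (hψs.trans hφs) p q
    have hBT : TFN 0 (strsB A p q φ) := by
      intro i
      constructor
      · apply contDiff_zero.2
        have hcont : ∀ j, Continuous (pd j φ) := fun j => (contDiff_pd_top hφ j).continuous
        have hcs : ∀ l : Fin d, Continuous fun x => ∑ j, A j l * pd j φ x := fun l =>
          continuous_finsetSum _ fun j _ => continuous_const.mul (hcont j)
        unfold strsB
        apply Continuous.sub
        · apply Continuous.add
          · apply Continuous.add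
            · apply Continuous.neg
              split_ifs
              · exact hcs q
              · exact continuous_const
            · split_ifs
              · exact hcs p
              · exact continuous_const
          · exact continuous_const.mul (hcont q)
        · exact continuous_const.mul (hcont p)
      · refine IsCompact.of_isClosed_subset hc (isClosed_tsupport _) ?_
        apply closure_minimal _ (isClosed_tsupport _)
        intro x hx
        by_contra hcon
        apply hx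
        unfold strsB
        simp [pd_zero_of_notMem hcon]
    rw [pr_add ((curl2_TF hψ hψc p q).tfn 0) hBT] at h3
    have h5 := h𝒟.add _ h3 _ (h𝒟.smul (-1) _ h4)
    have e : pr (curl2 p q (strsPsi A x₀ φ)) + pr (strsB A p q φ) +
        (-1 : ℝ) • pr (curl2 p q (strsPsi A x₀ φ)) = pr (strsB A p q φ) := by
      module
    rwa [e] at h5
  -- p ≠ q
  have hoff : ∀ p q : Fin d, p < q → pr (uni p (pd q φ)) ∈ 𝒟 ∧ pr (uni q (pd p φ)) ∈ 𝒟 := by
    intro p q hpq
    have h1 := hmain (false, ⟨(p, q), hpq⟩)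
    have hne : p ≠ q := hpq.ne
    have h2 : strsB (strM false p q) p q φ =
        fun i x => (2 * uni p (pd q φ) i x) + (2 * uni q (pd p φ) i x) := by
      funext i x
      unfold strsB strM uni
      simp only [Matrix.sub_apply, Matrix.single_apply, Bool.false_eq_true, if_false]
      by_cases hip : i = p
      · subst hip
        simp [hne, hne.symm]
        ring
      · by_cases hiq : i = q
        · subst hiq
          simp [hne, hne.symm]
          ring
        · simp [hip, hiq, Ne.symm hip, Ne.symm hiq]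
    change pr (strsB (strM false p q) p q φ) ∈ 𝒟 at h1
    rw [h2] at h1
    have t1 : TFN 0 (fun i x => 2 * uni p (pd q φ) i x) := fun i =>
      ⟨contDiff_const.mul (hu0 p q i).1, (hu0 p q i).2.mul_left⟩
    have t2 : TFN 0 (fun i x => 2 * uni q (pd p φ) i x) := fun i =>
      ⟨contDiff_const.mul (hu0 q p i).1, (hu0 q p i).2.mul_left⟩
    rw [pr_add t1 t2, pr_smul, pr_smul] at h1
    exact strs_two h𝒟 h1 (hcr p q)
  -- p = q
  have hdiff : ∀ p q : Fin d, p < q → pr (uni q (pd q φ)) - pr (uni p (pd p φ)) ∈ 𝒟 := by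
    intro p q hpq
    have h1 := hmain (true, ⟨(p, q), hpq⟩)
    have hne : p ≠ q := hpq.ne
    have h2 : strsB (strM true p q) p q φ =
        fun i x => (2 * uni q (pd q φ) i x) - (2 * uni p (pd p φ) i x) := by
      funext i x
      unfold strsB strM uni
      simp only [Matrix.add_apply, Matrix.single_apply, if_true]
      by_cases hip : i = p
      · subst hip
        simp [hne, hne.symm]
        ring
      · by_cases hiq : i = q
        · subst hiq
          simp [hne, hne.symm]
          ring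
        · simp [hip, hiq, Ne.symm hip, Ne.symm hiq]
    change pr (strsB (strM true p q) p q φ) ∈ 𝒟 at h1
    rw [h2] at h1
    have t1 : TFN 0 (fun i x => 2 * uni q (pd q φ) i x) := fun i =>
      ⟨contDiff_const.mul (hu0 q q i).1, (hu0 q q i).2.mul_left⟩
    have t2 : TFN 0 (fun i x => 2 * uni p (pd p φ) i x) := fun i =>
      ⟨contDiff_const.mul (hu0 p p i).1, (hu0 p p i).2.mul_left⟩
    rw [pr_sub t1 t2, pr_smul, pr_smul] at h1
    have h3 := h𝒟.smul (1 / 2) _ h1
    have e : (1 / 2 : ℝ) • ((2 : ℝ) • pr (uni q (pd q φ)) - (2 : ℝ) • pr (uni p (pd p φ))) =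
        pr (uni q (pd q φ)) - pr (uni p (pd p φ)) := by
      module
    rwa [e] at h3
  have hdiff' : ∀ p q : Fin d, pr (uni q (pd q φ)) - pr (uni p (pd p φ)) ∈ 𝒟 := by
    intro p q
    rcases lt_trichotomy p q with h | h | h
    · exact hdiff p q h
    · subst h
      rw [sub_self]
      exact h𝒟.zero
    · have h1 := h𝒟.smul (-1) _ (hdiff q p h)
      have e : (-1 : ℝ) • (pr (uni p (pd p φ)) - pr (uni q (pd q φ))) =
          pr (uni q (pd q φ)) - pr (uni p (pd p φ)) := by
        module
      rwa [e] at h1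
  have hsum : ∑ q : Fin d, pr (uni q (pd q φ)) = 0 := by
    rw [← pr_sum (β := fun q => uni q (pd q φ)) _ (fun q _ => hu0 q q)]
    rw [← pr_grad (contDiff_infty.1 hφ 2) hc]
    congr 1
    funext i x
    simp [uni]
  have hdiag : ∀ p : Fin d, pr (uni p (pd p φ)) ∈ 𝒟 := by
    intro p
    have hmem : ∀ s : Finset (Fin d), ∑ q ∈ s, (pr (uni p (pd p φ)) - pr (uni q (pd q φ))) ∈ 𝒟 := by
      classical
      intro s
      induction s using Finset.induction_on with
      | empty =>
        rw [Finset.sum_empty]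
        exact h𝒟.zero
      | insert a s ha ih =>
        rw [Finset.sum_insert ha]
        exact h𝒟.add _ (hdiff' a p) _ ih
    have h1 := hmem Finset.univ
    rw [Finset.sum_sub_distrib, hsum, sub_zero, Finset.sum_const, Finset.card_univ,
      Fintype.card_fin] at h1
    have hd0 : (d : ℝ) ≠ 0 := by rcases hd with rfl | rfl <;> norm_num
    have h2 := h𝒟.smul (d : ℝ)⁻¹ _ h1
    rw [← Nat.cast_smul_eq_nsmul ℝ, smul_smul, inv_mul_cancel₀ hd0, one_smul] at h2
    exact h2
  rcases lt_trichotomy p i with h | h | h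
  · exact (hoff p i h).1
  · subst h
    exact hdiag p
  · exact (hoff i p h).2

end NSC
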