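import Pool.Agent.Work.MP_57e339_an.GoodF

/-! Module Transl: an admissible set is invariant under small translations of divergence free
fields supported in the core. -/

open MeasureTheory Set Filter Topology
open scoped BigOperators
noncomputable section
namespace NSC
variable {d : ℕ}

theorem transl_ts_sum {ι : Type} (s : Finset ι) {f : ι → Rv d → ℝ} {G : Set (Rv d)}
    (hG : IsClosed G) (h : ∀ j ∈ s, ∀ x ∉ G, f j x = 0) :
    tsupport (fun x => ∑ j ∈ s, f j x) ⊆ G := by
  apply closure_minimal _ hG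
  intro x hx
  by_contra hcon
  apply hx
  exact Finset.sum_eq_zero fun j hj => h j hj x hcon

/-- `L_γ β = Π((γ·∇)β + (β·∇)γ)` -/
theorem transl_Lk_local (hd : d = 2 ∨ d = 3) {β γ : VF d} (hβ : TFN 10 β) (hγ : TFN 10 γ)
    (hβd : Dfree β) (hγd : Dfree γ) {x₀ : Rv d} (hβs : Su β (Metric.ball x₀ 1))
    (hγs : Su γ (Metric.ball x₀ 1)) :
    Lk (pr γ) (pr β) =
      pr (fun i x => ∑ j, (γ j x * pd j (β i) x + β j x * pd j (γ i) x)) := by
  have hβd1 : ∀ i x, DifferentiableAt ℝ (β i) x := fun i x =>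
    ((hβ i).1.differentiable (by norm_num)) x
  have hγd1 : ∀ i x, DifferentiableAt ℝ (γ i) x := fun i x =>
    ((hγ i).1.differentiable (by norm_num)) x
  have hc1 : ∀ i j, Continuous (pd j (β i)) := fun i j =>
    (contDiff_pd (N := 9) (hβ i).1 j).continuous
  have hc2 : ∀ i j, Continuous (pd j (γ i)) := fun i j =>
    (contDiff_pd (N := 9) (hγ i).1 j).continuous
  set χ : Rv d → ℝ := fun x => ∑ j, γ j x * β j x with hχ
  have hχs : ContDiff ℝ 2 χ := ContDiff.sum fun j _ =>
    ((hγ j).1.mul (hβ j).1).of_le (by norm_num)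
  have hχc : HasCompactSupport χ := by
    have : IsCompact (⋃ j, tsupport (β j)) := isCompact_iUnion fun j => (hβ j).2
    refine IsCompact.of_isClosed_subset this (isClosed_tsupport _) ?_
    apply transl_ts_sum _ this.isClosed
    intro j _ x hx
    rw [image_eq_zero_of_notMem_tsupport (f := β j) (fun h => hx (mem_iUnion.2 ⟨j, h⟩)), mul_zero]
  have hpd : ∀ i x, pd i χ x = ∑ j, (pd i (γ j) x * β j x + γ j x * pd i (β j) x) := by
    intro i x
    rw [hχ, pd_sum (f := fun j x => γ j x * β j x) _ fun j _ => (hγd1 j x).mul (hβd1 j x)]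
    exact Finset.sum_congr rfl fun j _ => pd_mul (hγd1 j x) (hβd1 j x) i
  have hT : TFN 0 (fun i x => ∑ j, (γ j x * pd j (β i) x + β j x * pd j (γ i) x)) := by
    intro i
    constructor
    · apply contDiff_zero.2
      apply continuous_finsetSum
      intro j _
      exact ((hγ j).1.continuous.mul (hc1 i j)).add ((hβ j).1.continuous.mul (hc2 i j))
    · have : IsCompact (⋃ j, tsupport (β j)) := isCompact_iUnion fun j => (hβ j).2
      refine IsCompact.of_isClosed_subset this (isClosed_tsupport _) ?_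
      apply transl_ts_sum _ this.isClosed
      intro j _ x hx
      rw [image_eq_zero_of_notMem_tsupport (f := β j) (fun h => hx (mem_iUnion.2 ⟨j, h⟩)),
        pd_zero_of_notMem (f := β i) (fun h => hx (mem_iUnion.2 ⟨i, h⟩)), mul_zero, zero_mul,
        add_zero]
  have hT' : TFN 0 (fun i => pd i χ) := by
    intro i
    exact ⟨contDiff_zero.2 (contDiff_pd (N := 1) hχs i).continuous,
      IsCompact.of_isClosed_subset hχc (isClosed_tsupport _) (tsupport_pd_subset χ i)⟩
  rw [Lk_pr_local hd hβ hγ hβd hγd hβs hγs]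
  have h1 : (fun i x => iod γ β i x + iod β γ i x) =
      fun i x => (∑ j, (γ j x * pd j (β i) x + β j x * pd j (γ i) x)) - pd i χ x := by
    funext i x
    rw [hpd]
    unfold iod
    rw [← Finset.sum_add_distrib, ← Finset.sum_sub_distrib]
    apply Finset.sum_congr rfl
    intro j _
    ring
  rw [h1]
  have h2 := pr_sub hT hT'
  rw [pr_grad hχs hχc, sub_zero] at h2
  exact h2

theorem transl_trl_trl (y z : Rv d) (b : VF d) : trl y (trl z b) = trl (y + z) b := by
  funext i x
  unfold trl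
  rw [sub_sub]

theorem transl_trl_zero (b : VF d) : trl 0 b = b := by
  funext i x
  unfold trl
  rw [sub_zero]

theorem transl_dfree {b : VF d} (h : Dfree b) (y : Rv d) : Dfree (trl y b) := by
  intro x
  have : ∀ i, pd i (trl y b i) x = pd i (b i) (x - y) := by
    intro i
    have h1 := pd_trans (b i) y i
    exact congrFun h1 x
  simp only [this]
  exact h (x - y)

theorem transl_ts (f : Rv d → ℝ) (y : Rv d) {x : Rv d}
    (hx : x ∈ tsupport (fun x => f (x - y))) : x - y ∈ tsupport f := by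
  have h : tsupport (fun x => f (x - y)) ⊆ (fun x => x - y) ⁻¹' tsupport f := by
    apply closure_minimal _ ((isClosed_tsupport f).preimage (by fun_prop))
    intro z hz
    exact subset_tsupport f hz
  exact h hx

theorem transl_su {b : VF d} {x₀ : Rv d} {ρ : ℝ} (h : Su b (Metric.ball x₀ ρ)) (y : Rv d)
    {R : ℝ} (hR : ρ + ‖y‖ ≤ R) : Su (trl y b) (Metric.ball x₀ R) := by
  intro i x hx
  have h1 := h i (transl_ts (b i) y hx)
  rw [Metric.mem_ball] at h1 ⊢
  calc dist x x₀ ≤ dist x (x - y) + dist (x - y) x₀ := dist_triangle _ _ _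
    _ < ‖y‖ + ρ := by
        have : dist x (x - y) = ‖y‖ := by rw [dist_eq_norm, sub_sub_cancel]
        rw [this]
        linarith
    _ ≤ R := by linarith

theorem transl_one (hd : d = 2 ∨ d = 3) {𝒟 : Set (Sq d)} (h𝒟 : Adm 𝒟) {x₀ : Rv d} {r : ℝ}
    (hr : 0 < r) (hr1 : r ≤ 1) {α : VF d} {t : Fin d}
    (hα : TF α ∧ Dfree α ∧ Su α (Metric.ball x₀ r))
    (hcore : ∀ x ∈ Metric.ball x₀ (r / 4), ∀ i, α i x = if i = t then 1 else 0)
    (hg : Good 𝒟 (pr α)) {b : VF d} (hb : TFN 12 b) (hbd : Dfree b) {ρ : ℝ} (hρ : 0 < ρ)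
    (hbs : Su b (Metric.ball x₀ ρ)) (hin : pr b ∈ 𝒟) {s : ℝ} (hs : ρ + |s| ≤ r / 4) :
    pr (trl (s • ev t) b) ∈ 𝒟 := by
  by_cases hs0 : s = 0
  · rw [hs0, zero_smul, transl_trl_zero]
    exact hin
  have hsa : 0 < |s| := abs_pos.2 hs0
  have hev : ‖(ev t : Rv d)‖ = 1 := norm_ev t
  -- Lk on translates
  have hLk : ∀ y : Rv d, ‖y‖ ≤ |s| →
      Lk (pr α) (pr (trl y b)) = pr (fun i => pd t (trl y b i)) := by
    intro y hy
    have hsu : Su (trl y b) (Metric.ball x₀ (r / 4)) := transl_su hbs y (by linarith)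
    have hball : Metric.ball x₀ (r / 4) ⊆ Metric.ball x₀ 1 :=
      Metric.ball_subset_ball (by linarith)
    have hball' : Metric.ball x₀ r ⊆ Metric.ball x₀ 1 := Metric.ball_subset_ball hr1
    have hT10 : TFN 10 (trl y b) := fun i =>
      ⟨((hb.trl y) i).1.of_le (by norm_num), ((hb.trl y) i).2⟩
    rw [transl_Lk_local hd hT10 (hα.1.tfn 10) (transl_dfree hbd y) hα.2.1
      (fun i => (hsu i).trans hball) (fun i => (hα.2.2 i).trans hball')]
    congr 1
    funext i x
    by_cases hx : x ∈ Metric.ball x₀ (r / 4)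
    · have hα0 : ∀ j i, pd j (α i) x = 0 := by
        intro j i
        have : α i =ᶠ[𝓝 x] fun _ => if i = t then 1 else 0 := by
          filter_upwards [Metric.isOpen_ball.mem_nhds hx] with z hz
          exact hcore z hz i
        rw [pd_congr this, pd_const]
      simp only [hα0, mul_zero, add_zero, hcore x hx]
      simp
    · have h0 : ∀ i, x ∉ tsupport (trl y b i) := fun i h => hx (hsu i h)
      rw [pd_zero_of_notMem (h0 i)]
      apply Finset.sum_eq_zero
      intro j _
      rw [pd_zero_of_notMem (h0 i), image_eq_zero_of_notMem_tsupport (h0 j), mul_zero, zero_mul,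
        add_zero]
  -- bounds
  set R : ℝ := ‖x₀‖ + 1 with hR
  have hsuR : ∀ y : Rv d, ‖y‖ ≤ |s| → Su (trl y b) (Metric.closedBall 0 R) := by
    intro y hy i x hx
    have h1 := transl_su hbs y (R := r / 4) (by linarith) i hx
    rw [Metric.mem_ball] at h1
    rw [Metric.mem_closedBall, dist_zero_right]
    have h2 : ‖x‖ ≤ ‖x₀‖ + dist x x₀ := by
      rw [dist_eq_norm]
      calc ‖x‖ = ‖x₀ + (x - x₀)‖ := by rw [add_sub_cancel]
        _ ≤ _ := norm_add_le _ _
    linarith
  obtain ⟨C8, hC80, hC8⟩ := pr_W_le hd R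
  obtain ⟨C3, hC30, hC3⟩ := pr_n1_le hd R
  have hA8 : ∀ i, ∃ A, Nb 8 A (b i) := fun i =>
    nb_exists ((hb i).1.of_le (by norm_num)) (hb i).2
  choose A8 hA8 using hA8
  have hA8' : ∀ i, Nb 8 (∑ i, A8 i) (b i) := fun i =>
    (hA8 i).mono (Finset.single_le_sum (fun j _ => (hA8 j).nonneg) (Finset.mem_univ i))
  set A : ℝ := ∑ i, A8 i with hA
  have hA0 : 0 ≤ A := Finset.sum_nonneg fun j _ => (hA8 j).nonneg
  have habar : Good 𝒟 ((-(s / |s|)) • pr α) := hg.smul h𝒟 _
  refine h𝒟.dyn _ habar _ (pr_isV hd fun i => ⟨((hb.trl _) i).1.of_le (by norm_num),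
    ((hb.trl _) i).2⟩) |s| hsa ?_
  intro ρ' hρ'
  refine ⟨C8 * A, ?_⟩
  intro M₀
  obtain ⟨N₁, hN₁⟩ := exists_nat_gt (C3 * ((d : ℝ) ^ 2 * A) * |s| / ρ')
  refine ⟨max M₀ N₁ + 1, (le_max_left _ _).trans (Nat.le_succ _), Nat.succ_pos _, ?_⟩
  set M : ℕ := max M₀ N₁ + 1 with hM
  have hM0 : (0 : ℝ) < M := by
    rw [hM]
    positivity
  have hMN : (N₁ : ℝ) ≤ M := by
    have : N₁ ≤ M := (le_max_right _ _).trans (Nat.le_succ _)
    exact_mod_cast this
  have hy : ∀ j : ℕ, j ≤ M → ‖(((j : ℝ) / M * s) • ev t : Rv d)‖ ≤ |s| := by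
    intro j hj
    rw [norm_smul, hev, mul_one, Real.norm_eq_abs, abs_mul, abs_of_nonneg (by positivity)]
    have : (j : ℝ) / M ≤ 1 := by
      rw [div_le_one hM0]
      exact_mod_cast hj
    exact mul_le_of_le_one_left (abs_nonneg _) this
  refine ⟨fun j => pr (trl (((j : ℝ) / M * s) • ev t) b), fun _ => 0, ?_, ?_, ?_, ?_⟩
  · simp only [Nat.cast_zero, zero_div, zero_mul, zero_smul]
    rw [transl_trl_zero]
    exact hin
  · intro j hj
    refine ⟨pr_isV hd fun i => ⟨((hb.trl _) i).1.of_le (by norm_num), ((hb.trl _) i).2⟩,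
      pr_SW4 hd fun i => ⟨((hb.trl _) i).1.of_le (by norm_num), ((hb.trl _) i).2⟩, ?_⟩
    apply hC8 _ _ (fun i => ⟨((hb.trl _) i).1.of_le (by norm_num), ((hb.trl _) i).2⟩)
      (hsuR _ (hy j hj))
    intro i
    exact (hA8' i).trans _
  · intro j hj
    refine ⟨h𝒟.zero, ?_⟩
    set y : Rv d := ((j : ℝ) / M * s) • ev t with hyj
    set w : Rv d := (s / M) • ev t with hw
    have hyj' : ‖y‖ ≤ |s| := hy j hj.le
    have hstep : (((j + 1 : ℕ) : ℝ) / M * s) • ev t = w + y := by
      rw [hw, hyj, ← add_smul]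
      congr 1
      push_cast
      field_simp
      ring
    have hyj1 : ‖w + y‖ ≤ |s| := by
      rw [← hstep]
      exact hy (j + 1) hj
    have hT : TFN 12 (trl y b) := hb.trl y
    have e1 : pr (trl (w + y) b) - pr (trl y b) - (|s| / M) • (Lk ((-(s / |s|)) • pr α)
        (pr (trl y b)) + 0) =
        pr (fun i x => (trl y b i (x - w) - trl y b i x) + (s / M) * pd t (trl y b i) x) := by
      rw [add_zero, Lk_smul_left, hLk y hyj', smul_smul]
      have e2 : |s| / M * -(s / |s|) = -(s / M) := by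
        field_simp
      rw [e2, neg_smul, sub_neg_eq_add]
      have t1 : TFN 0 (trl (w + y) b) := fun i =>
        ⟨((hb.trl _) i).1.of_le (by norm_num), ((hb.trl _) i).2⟩
      have t2 : TFN 0 (trl y b) := fun i =>
        ⟨((hb.trl _) i).1.of_le (by norm_num), ((hb.trl _) i).2⟩
      have t3 : TFN 0 (fun i => pd t (trl y b i)) := fun i =>
        ⟨contDiff_zero.2 (contDiff_pd (N := 11) (hT i).1 t).continuous,
          IsCompact.of_isClosed_subset (hT i).2 (isClosed_tsupport _) (tsupport_pd_subset _ t)⟩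
      have t4 : TFN 0 (fun i x => (s / M) * pd t (trl y b i) x) := fun i =>
        ⟨contDiff_const.mul (t3 i).1, (t3 i).2.mul_left⟩
      have t5 : TFN 0 (fun i x => trl (w + y) b i x - trl y b i x) := fun i =>
        ⟨(t1 i).1.sub (t2 i).1, (t1 i).2.sub (t2 i).2⟩
      rw [← pr_sub t1 t2, ← pr_smul, ← pr_add t5 t4]
      congr 1
      funext i x
      have : trl (w + y) b i x = trl y b i (x - w) := by
        unfold trl
        congr 1
        abel
      rw [this]
    show n1 (pr (trl ((((j + 1 : ℕ) : ℝ) / M * s) • ev t) b) - pr (trl y b) - (|s| / M) •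
      (Lk ((-(s / |s|)) • pr α) (pr (trl y b)) + 0)) ≤ |s| / M * ρ'
    rw [hstep, e1]
    have hfield : (fun i x => (trl y b i (x - w) - trl y b i x) + (s / M) * pd t (trl y b i) x) =
        fun i x => trl y b i (x - w) - trl y b i x + ∑ l, w l * pd l (trl y b i) x := by
      funext i x
      congr 1
      rw [hw]
      simp [ev]
    rw [hfield]
    have hwn : ‖w‖ = |s| / M := by
      rw [hw, norm_smul, hev, mul_one, Real.norm_eq_abs, abs_div, abs_of_pos hM0]
    have hb5 : ∀ i, Nb (3 + 2) A (trl y b i) := fun i => ((hA8' i).le (by norm_num)).trans y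
    have hT5 : ∀ i, ContDiff ℝ (3 + 2 : ℕ) (trl y b i) := fun i => (hT i).1.of_le (by norm_num)
    have hnb : ∀ i, Nb 3 ((d : ℝ) ^ 2 * A * ‖w‖ ^ 2)
        (fun x => trl y b i (x - w) - trl y b i x + ∑ l, w l * pd l (trl y b i) x) := fun i =>
      nb_trans_taylor (hT5 i) (hb5 i) w
    have hTr : TFN 12 (trl w (trl y b)) := hT.trl w
    have hsub : ∀ i, tsupport (fun x => trl y b i (x - w) - trl y b i x +
        ∑ l, w l * pd l (trl y b i) x) ⊆
        tsupport (trl w (trl y b) i) ∪ tsupport (trl y b i) := by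
      intro i
      apply closure_minimal _ ((isClosed_tsupport _).union (isClosed_tsupport _))
      intro x hx
      by_contra hcon
      rw [mem_union, not_or] at hcon
      apply hx
      have z1 : trl y b i (x - w) = 0 :=
        image_eq_zero_of_notMem_tsupport (f := trl w (trl y b) i) hcon.1
      have z2 : trl y b i x = 0 := image_eq_zero_of_notMem_tsupport hcon.2
      simp only [z1, z2, pd_zero_of_notMem hcon.2, mul_zero, Finset.sum_const_zero, sub_zero,
        add_zero]
    have hTF3 : TFN 3 (fun i x => trl y b i (x - w) - trl y b i x +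
        ∑ l, w l * pd l (trl y b i) x) := by
      intro i
      constructor
      · apply ContDiff.add
        · exact ((hTr i).1.of_le (by norm_num)).sub ((hT i).1.of_le (by norm_num))
        · apply ContDiff.sum
          intro l _
          exact contDiff_const.mul ((contDiff_pd (N := 11) (hT i).1 l).of_le (by norm_num))
      · exact IsCompact.of_isClosed_subset ((hTr i).2.isCompact.union (hT i).2.isCompact)
          (isClosed_tsupport _) (hsub i)
    have hSu : Su (fun i x => trl y b i (x - w) - trl y b i x +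
        ∑ l, w l * pd l (trl y b i) x) (Metric.closedBall 0 R) := by
      intro i x hx
      rcases hsub i hx with h | h
      · rw [transl_trl_trl] at h
        exact hsuR _ hyj1 i h
      · exact hsuR _ hyj' i h
    refine (hC3 _ _ hTF3 hSu hnb).trans ?_
    rw [hwn]
    have hN₁' : C3 * ((d : ℝ) ^ 2 * A) * |s| / ρ' < M := hN₁.trans_le hMN
    rw [div_lt_iff₀ hρ'] at hN₁'
    have e3 : C3 * ((d : ℝ) ^ 2 * A * (|s| / M) ^ 2) =
        |s| / M * ((C3 * ((d : ℝ) ^ 2 * A) * |s|) / M) := by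
      field_simp
    rw [e3]
    apply mul_le_mul_of_nonneg_left _ (by positivity)
    rw [div_le_iff₀ hM0]
    linarith
  · have e4 : ((M : ℝ) / M * s) • ev t = (s • ev t : Rv d) := by
      rw [div_self hM0.ne', one_mul]
    show n1 (pr (trl (((M : ℝ) / M * s) • ev t) b) - pr (trl (s • ev t) b)) ≤ ρ'
    rw [e4, sub_self, n1_zero]
    exact hρ'.le

theorem transl (hd : d = 2 ∨ d = 3) {𝒟 : Set (Sq d)} (h𝒟 : Adm 𝒟) {x₀ : Rv d} {r : ℝ}
    (hr : 0 < r) (hr1 : r ≤ 1) {α : Fin d → VF d}
    (hα : ∀ t, TF (α t) ∧ Dfree (α t) ∧ Su (α t) (Metric.ball x₀ r))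
    (hcore : ∀ t, ∀ x ∈ Metric.ball x₀ (r / 4), ∀ i, α t i x = if i = t then 1 else 0)
    (hg : ∀ t, Good 𝒟 (pr (α t))) {b : VF d} (hb : TFN 12 b) (hbd : Dfree b)
    (hbs : Su b (Metric.ball x₀ (r / 32))) (hin : pr b ∈ 𝒟) {y : Rv d} (hy : ‖y‖ ≤ r / 32) :
    pr (trl y b) ∈ 𝒟 := by
  classical
  have hd3 : (d : ℝ) ≤ 3 := by rcases hd with rfl | rfl <;> norm_num
  have key : ∀ T : Finset (Fin d), TFN 12 (trl (∑ t ∈ T, y t • ev t) b) ∧
      Dfree (trl (∑ t ∈ T, y t • ev t) b) ∧
      Su (trl (∑ t ∈ T, y t • ev t) b) (Metric.ball x₀ (r / 32 * (1 + T.card))) ∧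
      pr (trl (∑ t ∈ T, y t • ev t) b) ∈ 𝒟 := by
    intro T
    induction T using Finset.induction_on with
    | empty =>
      rw [Finset.sum_empty, transl_trl_zero]
      refine ⟨hb, hbd, ?_, hin⟩
      simpa using hbs
    | insert t T ht ih =>
      obtain ⟨i1, i2, i3, i4⟩ := ih
      rw [Finset.sum_insert ht, ← transl_trl_trl, Finset.card_insert_of_notMem ht]
      have hyt : |y t| ≤ r / 32 := by
        have h1 := PiLp.norm_apply_le y t
        rw [Real.norm_eq_abs] at h1
        exact h1.trans hy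
      have hcard : (T.card : ℝ) + 1 ≤ 3 := by
        have h1 : (insert t T).card ≤ d := by
          have := Finset.card_le_univ (insert t T)
          simpa using this
        rw [Finset.card_insert_of_notMem ht] at h1
        have h2 : ((T.card + 1 : ℕ) : ℝ) ≤ d := by exact_mod_cast h1
        push_cast at h2
        linarith
      refine ⟨i1.trl _, transl_dfree i2 _, ?_, ?_⟩
      · apply transl_su i3
        rw [norm_smul, norm_ev, mul_one, Real.norm_eq_abs]
        push_cast
        linarith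
      · apply transl_one hd h𝒟 hr hr1 (hα t) (hcore t) (hg t) i1 i2 (by positivity) i3 i4
        have : 0 ≤ (T.card : ℝ) := Nat.cast_nonneg _
        nlinarith
  have h := (key Finset.univ).2.2.2
  have hy' : ∑ t, y t • (ev t : Rv d) = y := by
    ext j
    simp [ev, Finset.sum_apply, Pi.single_apply]
  rwa [hy'] at h

end NSC
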